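import Pool.Agent.Lib_helper2.K4N.Nv

set_option autoImplicit false

/-!
A criterion for an element of `H(F)` not to be a combination of symbols of constants.
-/

namespace Pool.Agent.K4N

open Filter Topology
open scoped TensorProduct

variable {k F : Type*} [Field k] [Field F] [Algebra k F]

/-- the criterion -/
theorem not_const (ρ : RealF F)
    (hc : ∀ c : k, ∃ a : ℝ, ∀ᶠ s in cofinite, ρ.r (algebraMap k F c) s = a)
    {ι : Type*} [Fintype ι] (f u : ι → F) (hf0 : ∀ i, f i ≠ 0) (hf1 : ∀ i, f i ≠ 1)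
    (hu : ∀ i, u i ≠ 0) (φ ψ : ι → ℝ → ℝ) (hφ : ∀ i, ∀ᶠ s in cofinite, ρ.r (f i) s = φ i s)
    (hψ : ∀ i, ∀ᶠ s in cofinite, ρ.r (u i) s = ψ i s) (E : ℝ → ℝ) (hE : Ex E)
    (hpos : ∀ᶠ s in cofinite, 0 < E s +
      ∑ i, -(Rf (φ i s)) * deriv (φ i) s * Real.log (ψ i s)) :
    ∑ i, K4M.hk (K4M.sy (f i)) (K4M.lg (u i)) ∉
      Submodule.span ℚ {z : K4M.HK F | ∃ (c : k) (u : K4M.FT F),
        z = K4M.hk (K4M.sy (algebraMap k F c)) u} := by
  intro hmem
  have hz : ρ.reg (∑ i, K4M.hk (K4M.sy (f i)) (K4M.lg (u i))) = 0 := by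
    have : Submodule.span ℚ {z : K4M.HK F | ∃ (c : k) (u : K4M.FT F),
        z = K4M.hk (K4M.sy (algebraMap k F c)) u} ≤ LinearMap.ker ρ.reg := by
      rw [Submodule.span_le]
      rintro z ⟨c, u, rfl⟩
      rw [SetLike.mem_coe, LinearMap.mem_ker]
      exact ρ.reg_const u (hc c)
    exact this hmem
  have hterm : ∀ i, ρ.reg (K4M.hk (K4M.sy (f i)) (K4M.lg (u i))) = WG.mkQ
      ((fun s => -(Rf (φ i s)) * deriv (φ i) s * Real.log (ψ i s) : ℝ → ℝ) : VG) := fun i =>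
    ρ.reg_sy (hf0 i) (hf1 i) (hu i) (hφ i) (hψ i)
  have hsum : ρ.reg (∑ i, K4M.hk (K4M.sy (f i)) (K4M.lg (u i))) = WG.mkQ
      ((fun s => ∑ i, -(Rf (φ i s)) * deriv (φ i) s * Real.log (ψ i s) : ℝ → ℝ) : VG) := by
    rw [map_sum]
    simp only [hterm]
    rw [← map_sum]
    congr 1
    have h1 := map_sum (Germ.coeRingHom (cofinite : Filter ℝ))
      (fun i => (fun s => -(Rf (φ i s)) * deriv (φ i) s * Real.log (ψ i s) : ℝ → ℝ)) Finset.univ
    refine (h1.symm).trans ?_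
    show ((_ : ℝ → ℝ) : VG) = _
    congr 1
    funext s
    rw [Finset.sum_apply]
  rw [hsum, Submodule.mkQ_apply, Submodule.Quotient.mk_eq_zero] at hz
  have h2 : ((fun s => E s + ∑ i, -(Rf (φ i s)) * deriv (φ i) s * Real.log (ψ i s) : ℝ → ℝ) :
      VG) ∈ WG := by
    have := WG.add_mem (⟨E, hE, rfl⟩ : (E : VG) ∈ WG) hz
    rw [← Germ.coe_add] at this
    exact this
  exact WG_not_pos h2 hpos

end Pool.Agent.K4N
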