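import Pool.Agent.Lib_helper2.K4N.D8c

set_option autoImplicit false

/-!
# The certificate for the regulator, `d = 3/2`: the element is closed
-/

namespace Pool.Agent.K4N.R8c

open Pool.Agent.K4N.LA Pool.Agent.K4N.PC Pool.Agent.KC72

theorem closed : chkD 9 kp L8cs = true := by decide +kernel

end Pool.Agent.K4N.R8c
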