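import Pool.Agent.Lib_helper2.K4N.D8cI1

set_option autoImplicit false

/-!
# The certificate for the regulator, `d = 3/2`: the invariance
-/

namespace Pool.Agent.K4N.R8c

open Pool.Agent.K4N.LA Pool.Agent.K4N.PC Pool.Agent.KC72

theorem cI : sumTab2 7 ((L8cs.map (lt kp)).map (Tm.act (AM.map Prod.snd))) =
    sumTab2 7 (L8cs.map (lt kp)) := by
  rw [cIa]
  exact cI0.trans tt0.symm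

/-- the terms at the opposite point -/
def LT2 : List LA.Tm :=
  [⟨[0, -1, -1, -1, 0, 1, 1, -3, 0], [0, -1, 1, 0, 0, 1, -1, -3, 2], [-178, 98, 47, -138, 47,
  -47, 131, -145, 138]⟩, ⟨[-1, -1, -1, 0, 1, 1, 0, -2, 0], [-1, -1, 1, 1, 1, 1, -2, -2, 1],
  [312, 0, -50, 156, -50, 50, -262, 50, -156]⟩, ⟨[0, -1, 0, 0, 1, 0, 0, -2, 1], [0, -1, 2, 1, 1,
  0, -2, -2, 1], [-178, -98, 47, -40, 47, -47, 131, 51, 40]⟩, ⟨[-1, -1, -1, 0, 1, 1, 0, 0, -1],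
  [-1, 0, 0, 1, 1, 0, -1, 1, -1], [-180, 72, 54, -126, 54, -54, 126, -126, 126]⟩, ⟨[-1, 0, -1,
  -1, 0, 1, 1, -2, 0], [-1, 0, 1, 0, 1, 0, -1, -2, 1], [88, -176, 88, 0, -88, 176, -88, -88,
  88]⟩, ⟨[0, 0, -1, 0, 0, 1, 0, -1, 0], [0, 0, 1, 1, 1, 0, -2, -1, 0], [0, 176, -88, 0, -176,
  88, 0, 0, 0]⟩, ⟨[0, 0, -2, -1, -2, 2, 2, 0, 1], [0, -1, -1, -1, -1, 1, 2, 2, 0], [51, 98, 47,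
  -138, -98, -98, 98, -178, 47]⟩, ⟨[-1, 1, -2, -1, -1, 1, 2, -2, 0], [-1, 1, 0, 0, 1, -1, 0, -2,
  1], [145, 98, -47, 40, -98, -98, 98, 178, -47]⟩, ⟨[0, 1, -1, -1, -1, 1, 1, -3, 1], [0, 1, 1,
  0, 1, -1, -1, -3, 1], [-50, 0, 50, -156, 0, 0, 0, -312, 50]⟩, ⟨[0, 1, -1, -1, -1, 1, 1, -1,
  0], [1, 0, 1, 0, 0, 0, -1, -1, 0], [126, 72, -54, 54, -72, -72, 72, 180, -54]⟩, ⟨[0, 0, 0, -1,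
  0, 0, 1, -1, 0], [0, 1, 1, 0, 1, -1, -1, -1, 0], [-18, -72, -54, 126, 72, 72, -72, 180, -54]⟩,
  ⟨[-1, 0, -1, -1, -1, 1, 2, 0, 1], [-1, -1, -1, 0, 0, 1, 1, 2, 0], [0, 88, -176, 88, -88, 176,
  -88, 88, -88]⟩, ⟨[0, 1, -1, -1, -1, 0, 2, -1, 0], [1, 1, 0, 0, 0, -1, 0, -1, 0], [-264, 88, 0,
  0, 176, -88, 0, 0, 0]⟩, ⟨[-2, 0, 0, -1, 0, 0, 2, 0, 2], [-2, 0, -1, 0, 0, 1, 1, 3, 0], [0,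
  -98, -131, 7, 47, -47, 131, 145, -138]⟩, ⟨[-2, 0, 0, -1, 0, 0, 2, 0, 1], [-2, -1, 0, 0, 1, 1,
  0, 2, 0], [0, 0, 262, 106, -50, 50, -262, -50, 156]⟩, ⟨[0, 0, 0, -1, -1, 0, 2, 0, 1], [0, -1,
  0, 0, 0, 1, 0, 0, 1], [0, 72, -126, -72, 54, -54, 126, -18, -54]⟩, ⟨[0, 0, 0, -1, -1, 0, 2,
  -2, 1], [2, 0, 0, 0, -1, 0, 0, -2, 1], [0, -98, 131, 91, -47, 47, -131, 51, 40]⟩, ⟨[-2, 0, -1,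
  0, 0, 1, 1, 1, 0], [-2, -1, 0, 0, 1, 1, 0, 0, 1], [0, -72, -126, 0, 54, -54, 126, 126, -126]⟩,
  ⟨[-1, 0, 0, 0, 0, 0, 1, 1, 1], [-1, 0, 0, 0, 0, 1, 0, 1, 1], [0, 0, 176, -176, 0, -88, 88,
  -264, 176]⟩, ⟨[-1, 0, 0, 0, 0, 0, 1, 1, 0], [-1, 0, 0, 0, 1, 0, 0, 1, 0], [-264, 0, 0, 0, 88,
  0, 0, 0, 0]⟩, ⟨[0, 0, 0, 1, 0, 0, 0, 2, 1], [0, 0, 1, 0, 0, 0, 0, 2, 1], [-51, -98, -131, 7,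
  -80, 276, -14, 0, 0]⟩, ⟨[-1, 0, 0, 1, 0, 0, 0, 2, 0], [-1, 1, 0, 0, 0, 0, 0, 0, 1], [126, 72,
  -126, -72, -252, 108, 144, 0, 0]⟩, ⟨[0, 0, 0, 1, 0, 0, 0, 2, 0], [0, 1, 0, 0, 0, 0, 0, 2, 0],
  [-50, 0, 262, 106, 312, -312, -212, 0, 0]⟩, ⟨[0, 0, 0, 1, 0, 0, 0, 2, -1], [1, 0, 0, 0, 0, 0,
  0, 2, -1], [145, 98, -131, -91, -276, 80, 182, 0, 0]⟩, ⟨[0, 0, 1, 0, 0, 0, 0, 0, 1], [0, 1, 0,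
  0, 0, 0, 0, 0, 1], [-18, -72, -126, 0, -108, 252, 0, 0, 0]⟩, ⟨[0, 0, 1, 1, 0, 0, -1, 1, 1],
  [0, 1, 1, 0, 0, -1, 0, 1, 1], [0, 88, -176, 88, 0, -88, 88, 264, -176]⟩, ⟨[0, 0, 1, 1, 0, 0,
  -1, 1, 0], [1, 1, 0, 0, -1, 0, 0, 1, 0], [88, -88, 0, 0, 88, 0, 0, 0, 0]⟩, ⟨[0, -1, 2, 1, 1,
  0, -2, 0, 1], [1, 0, 1, 0, 0, -1, 0, 0, 1], [-180, -72, 54, -54, 54, -54, 126, 18, 54]⟩]

theorem cISa : (L8cs.map (lt kp)).map (Tm.act (SM.map Prod.snd)) = LT2 := by decide +kernel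

theorem cIS0 : sumTab2 7 LT2 = scl3 (-1) TT0 := by decide +kernel

theorem cIS : sumTab2 7 ((L8cs.map (lt kp)).map (Tm.act (SM.map Prod.snd))) =
    scl3 (-1) (sumTab2 7 (L8cs.map (lt kp))) := by
  rw [tt0, cISa]
  exact cIS0

end Pool.Agent.K4N.R8c
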