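import Pool.Agent.Lib_helper2.K4N.D8c

set_option autoImplicit false

/-!
# The certificate for the regulator, `d = 3/2`: the table
-/

namespace Pool.Agent.K4N.R8c

open Pool.Agent.K4N.LA Pool.Agent.K4N.PC Pool.Agent.KC72

/-- the table -/
def TT0 : List (List (List ℤ)) :=
  [[[0, 24, -1552, -860, -144, 144, 1552], [-12, -432, 572, 34, 76, 212, -272], [776, 128, -208,
  146, -184, -432, 208], [430, 568, -208, -75, -348, -60, 58], [72, 64, 560, 426, 232, -144,
  -560], [-72, 224, -144, -330, -168, 80, 144], [-776, -728, 208, 154, 184, 432, -208], [84,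
  408, -208, 4, -512, 312, -92], [346, -304, 72, 41, -132, -76, 78]], [[-12, -432, 572, 34, 76,
  212, -272], [864, 0, 576, -576, -288, -288, 288], [-700, -288, 320, -252, 304, -16, 92],
  [-602, 288, 156, 52, 222, -222, -130], [-140, 144, -128, 18, 156, -156, -308], [-436, 144,
  -448, 414, -156, 156, 308], [1000, -144, -316, 74, -92, 92, -108], [-204, 432, -4, 178, 352,
  -352, -368], [-166, -288, 82, -152, 72, 0, 300]], [[776, 128, -208, 146, -184, -432, 208],
  [-700, -288, 320, -252, 304, -16, 92], [416, -640, 0, 1536, 480, 320, -1536], [62, 96, -768,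
  -418, -432, 336, 802], [-376, -176, -240, 366, 232, 480, -256], [576, 464, -160, -642, -480,
  -232, 456], [-416, 224, 768, -350, 32, -216, -8], [-292, 416, -768, -1186, -832, 456, 1596],
  [318, -368, 384, 977, 356, 140, -1358]], [[430, 568, -208, -75, -348, -60, 58], [-602, 288,
  156, 52, 222, -222, -130], [62, 96, -768, -418, -432, 336, 802], [150, -104, 836, 0, 246,
  -366, -418], [-78, -240, 66, -123, 76, 324, -100], [390, -192, 306, 183, -168, -232, -8],
  [-212, 56, -452, 209, 200, 16, 0], [88, -152, 1220, 209, 692, -716, -836], [2, 100, -802,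
  -209, -412, 188, 800]], [[72, 64, 560, 426, 232, -144, -560], [-140, 144, -128, 18, 156, -156,
  -308], [-376, -176, -240, 366, 232, 480, -256], [-78, -240, 66, -123, 76, 324, -100], [-464,
  -312, -464, -152, 0, 624, 304], [312, 312, 0, -156, -312, -312, 312], [376, 400, 224, -100,
  -152, -648, 200], [220, -80, 356, -346, 0, 0, 0], [-150, 288, -298, 218, 0, 0, 0]], [[-72,
  224, -144, -330, -168, 80, 144], [-436, 144, -448, 414, -156, 156, 308], [576, 464, -160,
  -642, -480, -232, 456], [390, -192, 306, 183, -168, -232, -8], [312, 312, 0, -156, -312, -312,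
  312], [-160, -312, 464, 464, 624, 0, -928], [-576, -400, -240, -8, 336, 464, 16], [204, -784,
  372, 358, 0, 0, 0], [38, 216, -166, -214, 0, 0, 0]], [[-776, -728, 208, 154, 184, 432, -208],
  [1000, -144, -316, 74, -92, 92, -108], [-416, 224, 768, -350, 32, -216, -8], [-212, 56, -452,
  209, 200, 16, 0], [376, 400, 224, -100, -152, -648, 200], [-576, -400, -240, -8, 336, 464,
  16], [416, 216, 16, 0, -400, -32, 0], [-8, 328, -888, 418, 0, 0, 0], [-168, 24, 616, -382, 0,
  0, 0]], [[84, 408, -208, 4, -512, 312, -92], [-204, 432, -4, 178, 352, -352, -368], [-292,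
  416, -768, -1186, -832, 456, 1596], [88, -152, 1220, 209, 692, -716, -836], [220, -80, 356,
  -346, 0, 0, 0], [204, -784, 372, 358, 0, 0, 0], [-8, 328, -888, 418, 0, 0, 0], [168, 24, 1552,
  836, 1384, -1432, -1672], [-164, 224, -988, -800, -824, 376, 1600]], [[346, -304, 72, 41,
  -132, -76, 78], [-166, -288, 82, -152, 72, 0, 300], [318, -368, 384, 977, 356, 140, -1358],
  [2, 100, -802, -209, -412, 188, 800], [-150, 288, -298, 218, 0, 0, 0], [38, 216, -166, -214,
  0, 0, 0], [-168, 24, 616, -382, 0, 0, 0], [-164, 224, -988, -800, -824, 376, 1600], [190,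
  -284, 610, 684, 420, 148, -1368]]]

theorem tt0 : sumTab2 7 (L8cs.map (lt kp)) = TT0 := by decide +kernel

end Pool.Agent.K4N.R8c
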