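import Pool.Agent.Lib_helper2.K4N.D8cI0

set_option autoImplicit false

/-!
# The certificate for the regulator, `d = 3/2`: the invariance under the translation
-/

namespace Pool.Agent.K4N.R8c

open Pool.Agent.K4N.LA Pool.Agent.K4N.PC Pool.Agent.KC72

/-- the translated terms -/
def LT1 : List LA.Tm :=
  [⟨[0, 1, 1, 1, 1, -1, -2, -2, 0], [0, 1, -1, 0, -1, 1, 0, -2, 1], [-51, -98, -47, 138, 98, 98,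
  -98, 178, -47]⟩, ⟨[0, 1, 1, 0, 1, -1, -1, -3, 1], [0, 1, -1, -1, -1, 1, 1, -3, 1], [-50, 0,
  50, -156, 0, 0, 0, -312, 50]⟩, ⟨[-1, 1, 0, 0, 1, -1, 0, -2, 1], [-1, 1, -2, -1, -1, 1, 2, -2,
  0], [145, 98, -47, 40, -98, -98, 98, 178, -47]⟩, ⟨[0, 1, 1, 0, 1, -1, -1, -1, 0], [0, 0, 0,
  -1, 0, 0, 1, -1, 0], [-18, -72, -54, 126, 72, 72, -72, 180, -54]⟩, ⟨[0, 0, 1, 1, 1, 0, -2, -1,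
  0], [0, 0, -1, 0, 0, 1, 0, -1, 0], [0, 176, -88, 0, -176, 88, 0, 0, 0]⟩, ⟨[-1, 0, 1, 0, 1, 0,
  -1, -2, 1], [-1, 0, -1, -1, 0, 1, 1, -2, 0], [88, -176, 88, 0, -88, 176, -88, -88, 88]⟩, ⟨[0,
  0, 2, 1, 0, 0, -2, 0, 2], [0, 1, 1, 1, 0, -1, -1, 3, 0], [178, -98, -47, 138, -47, 47, -131,
  145, -138]⟩, ⟨[0, -1, 2, 1, 1, 0, -2, -2, 1], [0, -1, 0, 0, 1, 0, 0, -2, 1], [-178, -98, 47,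
  -40, 47, -47, 131, 51, 40]⟩, ⟨[-1, -1, 1, 1, 1, 1, -2, -2, 1], [-1, -1, -1, 0, 1, 1, 0, -2,
  0], [312, 0, -50, 156, -50, 50, -262, 50, -156]⟩, ⟨[-1, -1, 1, 1, 1, 1, -2, 0, 0], [-1, 0, -1,
  0, 0, 1, 0, 0, -1], [-180, -72, 54, -54, 54, -54, 126, 18, 54]⟩, ⟨[-1, 0, 0, 1, 1, 0, -1, 1,
  -1], [-1, -1, -1, 0, 1, 1, 0, 0, -1], [-180, 72, 54, -126, 54, -54, 126, -126, 126]⟩, ⟨[0, 0,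
  1, 1, 0, 0, -1, 1, 1], [0, 1, 1, 0, 0, -1, 0, 1, 1], [0, -88, 176, -88, 0, 88, -88, -264,
  176]⟩, ⟨[-1, -1, 1, 1, 1, 0, -1, 0, 0], [-1, -1, 0, 0, 1, 0, 0, -1, 0], [88, -88, 0, 0, 88, 0,
  0, 0, 0]⟩, ⟨[0, 0, 0, 1, 0, 0, 0, 2, 1], [0, 0, 1, 0, 0, 0, 0, 2, 1], [51, 98, 131, -7, 80,
  -276, 14, 0, 0]⟩, ⟨[0, 0, 0, 1, 0, 0, 0, 2, 0], [0, 1, 0, 0, 0, 0, 0, 2, 0], [50, 0, -262,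
  -106, -312, 312, 212, 0, 0]⟩, ⟨[-1, 0, 0, 1, 0, 0, 0, 2, 0], [-1, 1, 0, 0, 0, 0, 0, 0, 1],
  [-126, -72, 126, 72, 252, -108, -144, 0, 0]⟩, ⟨[-1, 0, 0, 1, 0, 0, 0, 0, 0], [-1, 0, 0, 0, 0,
  0, 0, -2, 1], [145, 98, -131, -91, -276, 80, 182, 0, 0]⟩, ⟨[0, 0, 1, 0, 0, 0, 0, 0, 1], [0, 1,
  0, 0, 0, 0, 0, 0, 1], [18, 72, 126, 0, 108, -252, 0, 0, 0]⟩, ⟨[-1, 0, 0, 0, 0, 0, 1, 1, 1],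
  [-1, 0, 0, 0, 0, 1, 0, 1, 1], [0, 0, -176, 176, 0, 88, -88, 264, -176]⟩, ⟨[-1, 0, 0, 0, 0, 0,
  1, 1, 0], [-1, 0, 0, 0, 1, 0, 0, 1, 0], [264, 0, 0, 0, -88, 0, 0, 0, 0]⟩, ⟨[-2, 0, 0, -1, 0,
  0, 2, 0, 2], [-2, 0, -1, 0, 0, 1, 1, 3, 0], [0, 98, 131, -7, -47, 47, -131, -145, 138]⟩, ⟨[0,
  0, 0, -1, -1, 0, 2, 0, 1], [0, -1, 0, 0, 0, 1, 0, 0, 1], [0, -72, 126, 72, -54, 54, -126, 18,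
  54]⟩, ⟨[-2, 0, 0, -1, 0, 0, 2, 0, 1], [-2, -1, 0, 0, 1, 1, 0, 2, 0], [0, 0, -262, -106, 50,
  -50, 262, 50, -156]⟩, ⟨[-2, 0, 0, -1, 0, 0, 2, 0, 0], [-2, 0, 0, 0, 1, 0, 0, 2, -1], [0, -98,
  131, 91, -47, 47, -131, 51, 40]⟩, ⟨[-2, 0, -1, 0, 0, 1, 1, 1, 0], [-2, -1, 0, 0, 1, 1, 0, 0,
  1], [0, 72, 126, 0, -54, 54, -126, -126, 126]⟩, ⟨[-1, 0, -1, -1, -1, 1, 2, 0, 1], [-1, -1, -1,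
  0, 0, 1, 1, 2, 0], [0, -88, 176, -88, 88, -176, 88, -88, 88]⟩, ⟨[-1, 0, -1, -1, -1, 1, 2, 0,
  0], [-1, -1, 0, 0, 0, 1, 0, 1, 0], [-264, 88, 0, 0, 176, -88, 0, 0, 0]⟩, ⟨[-1, 1, -2, -1, -1,
  1, 2, 0, 0], [-1, 0, -1, 0, 0, 0, 1, 1, 0], [126, 72, -54, 54, -72, -72, 72, 180, -54]⟩]

theorem cIa : (L8cs.map (lt kp)).map (Tm.act (AM.map Prod.snd)) = LT1 := by decide +kernel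

theorem cI0 : sumTab2 7 LT1 = TT0 := by decide +kernel

end Pool.Agent.K4N.R8c
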