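import Pool.Agent.Lib_helper2.K4N.D8cP0

set_option autoImplicit false

/-!
# The certificate for the regulator: the products
-/

namespace Pool.Agent.K4N.R8c

open Pool.Agent.K4N.LA Pool.Agent.K4N.PC Pool.Agent.KC72 Pool.Agent.K4N.LT

theorem cP5 : gTab (arc.Us.map Iq.v) (arc.Ws.map Iq.v) GG = TT := by decide +kernel

theorem cP : arc.chkP 7 (L8cs.map (lt kp)) = true := chkP_of cP1 cP2 cP3 cP4 cP5

end Pool.Agent.K4N.R8c
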