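import Pool.Agent.Lib_helper24.FAM.Defs

set_option autoImplicit false

/-!
# The regulator on the real points

The Beilinson regulator of an element of `K₄` given by `∑ {f}₂ ⊗ g` is, on the real points of the
curve, the integral of `∑ log|g| (log|1-f| dlog|f| - log|f| dlog|1-f|)`, up to a rational factor and
a power of `2π`.
-/

open scoped TensorProduct

namespace Pool.Agent.FK4

open Pool.Agent.MK4 WeierstrassCurve.Affine Filter

variable {k : Type*} [Field k] {F : Type*} [Field F] [Algebra k F]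

/-- `s ↦ (p s, q s)` runs once through the component of the origin of the real points of `W`, except
for the origin itself: the point moves with positive speed with respect to the invariant
differential, it comes from the origin and goes to the origin. -/
def Loop (W : WeierstrassCurve.Affine k) (σ : k →+* ℝ) (p q : ℝ → ℝ) : Prop :=
  (∀ s, q s ^ 2 + σ W.a₁ * p s * q s + σ W.a₃ * q s =
    p s ^ 3 + σ W.a₂ * p s ^ 2 + σ W.a₄ * p s + σ W.a₆) ∧
  (∃ v : ℝ → ℝ, ∀ s, 0 < v s ∧ HasDerivAt p (v s * (2 * q s + σ W.a₁ * p s + σ W.a₃)) s ∧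
    HasDerivAt q (v s * (3 * p s ^ 2 + 2 * σ W.a₂ * p s + σ W.a₄ - σ W.a₁ * q s)) s) ∧
  Tendsto p (cocompact ℝ) atTop

/-- `f` is a rational function of `x`, `y`, and `φ s` is its value at the point `(p s, q s)`. -/
def Val (σ : k →+* ℝ) (x y : F) (p q : ℝ → ℝ) (f : F) (φ : ℝ → ℝ) : Prop :=
  ∃ A B : MvPolynomial (Fin 2) k, MvPolynomial.aeval ![x, y] B ≠ 0 ∧
    f = MvPolynomial.aeval ![x, y] A / MvPolynomial.aeval ![x, y] B ∧
    ∀ s, φ s = MvPolynomial.eval₂ σ ![p s, q s] A / MvPolynomial.eval₂ σ ![p s, q s] B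

/-- `log|g| (log|1-f| dlog|f| - log|f| dlog|1-f|)`, where `φ`, `ψ` are the values of `f`, `g` -/
noncomputable def den (φ ψ : ℝ → ℝ) (s : ℝ) : ℝ :=
  Real.log (ψ s) * (Real.log (1 - φ s) * (deriv φ s / φ s) +
    Real.log (φ s) * (deriv φ s / (1 - φ s)))

/-- `R` is the regulator on the real points: `{f}₂ ⊗ g` goes to the (absolutely convergent)
integral of `log|g| (log|1-f| dlog|f| - log|f| dlog|1-f|)`. -/
def IsReg (σ : k →+* ℝ) (x y : F) (p q : ℝ → ℝ) (R : HK F →ₗ[ℚ] ℝ) : Prop :=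
  ∀ (f g : F) (φ ψ : ℝ → ℝ), g ≠ 0 → Val σ x y p q f φ → Val σ x y p q g ψ →
    MeasureTheory.Integrable (den φ ψ) ∧ R (hk (sy f) (lg g)) = ∫ s, den φ ψ s

/-- With respect to the embedding `σ` of `k` in `ℝ`, the regulator of `ξ` on the real points of the
curve with function field `F` is not zero. -/
def RegNe (σ : k →+* ℝ) (ξ : HK F) : Prop :=
  ∃ (W : WeierstrassCurve.Affine k) (x y : F) (p q : ℝ → ℝ) (R : HK F →ₗ[ℚ] ℝ),
    Generic W x y ∧ IntermediateField.adjoin k {x, y} = ⊤ ∧ Loop W σ p q ∧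
      IsReg σ x y p q R ∧ R ξ ≠ 0

variable (k) in
/-- If `k` is a subfield of `ℝ` and `F = k(X, Y)`, then the regulator of `ξ` on the real points is
not zero. -/
def RegNonZero (X Y : F) (ξ : HK F) : Prop :=
  ∀ σ : k →+* ℝ, IntermediateField.adjoin k {X, Y} = ⊤ → RegNe σ ξ

end Pool.Agent.FK4
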