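import Pool.Agent.Lib_helper2.K4N.Crit
import Pool.Agent.Lib_helper24.TN.D

set_option autoImplicit false

/-!
Sums over translates by the multiples of `P = (0,0)` on a curve in Tate normal form.
-/

namespace Pool.Agent.K4N

open Filter Topology Pool.Agent.TN
open scoped TensorProduct

section alg

variable {K : Type*} [Field K]

/-- translation by `P = (0,0)` -/
def Tn (b : K) (p : K × K) : K × K := (b * p.2 / p.1 ^ 2, b ^ 2 * (p.1 ^ 2 - p.2) / p.1 ^ 3)

/-- translation by `jP` -/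
def It (b : K) (j : ℕ) (p : K × K) : K × K := (Tn b)^[j] p

lemma It_zero (b : K) (p : K × K) : It b 0 p = p := rfl

lemma It_succ (b : K) (j : ℕ) (p : K × K) : It b (j + 1) p = Tn b (It b j p) :=
  Function.iterate_succ_apply' _ _ _

end alg

section gen

variable {k F : Type*} [Field k] [Field F] [Algebra k F] {b c : k} {x y : F}

lemma gen_It [CharZero k] (hb : b ≠ 0) (h : Gen b c x y) (j : ℕ) :
    Gen b c (It (algebraMap k F b) j (x, y)).1 (It (algebraMap k F b) j (x, y)).2 := by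
  induction j with
  | zero => exact h
  | succ j ih =>
    rw [It_succ]
    exact ih.next hb

end gen

section real

/-- a point of the curve moving with speed `κ` -/
structure OKp (b c κ : ℝ) (X Y : ℝ → ℝ) (s : ℝ) : Prop where
  eq : Y s ^ 2 + (1 - c) * X s * Y s - b * Y s = X s ^ 3 - b * X s ^ 2
  dX : HasDerivAt X ((2 * Y s + (1 - c) * X s - b) * κ) s
  dY : HasDerivAt Y ((3 * X s ^ 2 - 2 * b * X s - (1 - c) * Y s) * κ) s

lemma next_eqn {b c U V : ℝ} (hX : U ≠ 0)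
    (he : V ^ 2 + (1 - c) * U * V - b * V = U ^ 3 - b * U ^ 2) :
    (b ^ 2 * (U ^ 2 - V) / U ^ 3) ^ 2 + (1 - c) * (b * V / U ^ 2) *
      (b ^ 2 * (U ^ 2 - V) / U ^ 3) - b * (b ^ 2 * (U ^ 2 - V) / U ^ 3) =
      (b * V / U ^ 2) ^ 3 - b * (b * V / U ^ 2) ^ 2 := by
  have h1 : (U ^ 2 - V) * (b * (U ^ 2 - V) + (1 - c) * U * V - U ^ 3) = V ^ 2 * (V - U ^ 2) := by
    linear_combination (U ^ 2 - V) * he
  have e : (b ^ 2 * (U ^ 2 - V) / U ^ 3) ^ 2 + (1 - c) * (b * V / U ^ 2) *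
      (b ^ 2 * (U ^ 2 - V) / U ^ 3) - b * (b ^ 2 * (U ^ 2 - V) / U ^ 3) -
      ((b * V / U ^ 2) ^ 3 - b * (b * V / U ^ 2) ^ 2) =
      b ^ 3 * ((U ^ 2 - V) * (b * (U ^ 2 - V) + (1 - c) * U * V - U ^ 3) -
        V ^ 2 * (V - U ^ 2)) / U ^ 6 := by
    field_simp
  rw [← sub_eq_zero, e, h1, sub_self, mul_zero, zero_div]

lemma OKp.next {b c κ : ℝ} {X Y : ℝ → ℝ} {s : ℝ} (h : OKp b c κ X Y s) (hX : X s ≠ 0) :
    OKp b c κ (fun t => b * Y t / X t ^ 2) (fun t => b ^ 2 * (X t ^ 2 - Y t) / X t ^ 3) s := by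
  have he := h.eq
  refine ⟨next_eqn hX he, ?_, ?_⟩
  · have h1 := (h.dY.const_mul b).div (h.dX.pow 2) (pow_ne_zero 2 hX)
    refine h1.congr_deriv ?_
    simp only [Pi.pow_apply, Nat.cast_ofNat, Nat.add_one_sub_one, pow_one]
    generalize X s = U at *
    generalize Y s = V at *
    rw [div_eq_iff (pow_ne_zero 2 (pow_ne_zero 2 hX))]
    have e1 : b * V / U ^ 2 * U ^ 2 = b * V := div_mul_cancel₀ _ (pow_ne_zero 2 hX)
    have e2 : b ^ 2 * (U ^ 2 - V) / U ^ 3 * U ^ 3 = b ^ 2 * (U ^ 2 - V) :=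
      div_mul_cancel₀ _ (pow_ne_zero 3 hX)
    linear_combination (-2 * κ * U) * e2 - (1 - c) * κ * U ^ 2 * e1 - 4 * b * κ * U * he
  · have h1 := ((((h.dX.pow 2).sub h.dY)).const_mul (b ^ 2)).div (h.dX.pow 3) (pow_ne_zero 3 hX)
    refine h1.congr_deriv ?_
    simp only [Pi.pow_apply, Pi.sub_apply, Nat.cast_ofNat, Nat.add_one_sub_one, pow_one]
    generalize X s = U at *
    generalize Y s = V at *
    rw [div_eq_iff (pow_ne_zero 2 (pow_ne_zero 3 hX))]
    field_simp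
    linear_combination 3 * (b ^ 2 * κ) * he

lemma OK_It {b c κ : ℝ} {X Y : ℝ → ℝ} {s : ℝ} (h : OKp b c κ X Y s) (j : ℕ)
    (hX : ∀ i < j, (It b i (X s, Y s)).1 ≠ 0) :
    OKp b c κ (fun t => (It b j (X t, Y t)).1) (fun t => (It b j (X t, Y t)).2) s := by
  induction j with
  | zero => exact h
  | succ j ih =>
    have h1 := (ih fun i hi => hX i (by omega)).next (hX j (by omega))
    refine ⟨?_, ?_, ?_⟩
    · have := h1.eq
      simp only [It_succ]
      exact this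
    · have := h1.dX
      simp only [It_succ]
      exact this
    · have := h1.dY
      simp only [It_succ]
      exact this

end real

section expr

/-- rational expressions in two variables -/
inductive Q2 where
  | x : Q2
  | y : Q2
  | c : ℚ → Q2
  | add : Q2 → Q2 → Q2
  | sub : Q2 → Q2 → Q2
  | mul : Q2 → Q2 → Q2
  | div : Q2 → Q2 → Q2

namespace Q2

/-- the value -/
def ev {K : Type*} [Field K] (e : Q2) (u v : K) : K := match e with
  | x => u
  | y => v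
  | c a => (a : K)
  | add e f => ev e u v + ev f u v
  | sub e f => ev e u v - ev f u v
  | mul e f => ev e u v * ev f u v
  | div e f => ev e u v / ev f u v

/-- the denominators do not vanish -/
def ok {K : Type*} [Field K] (e : Q2) (u v : K) : Prop := match e with
  | x => True
  | y => True
  | c _ => True
  | add e f => ok e u v ∧ ok f u v
  | sub e f => ok e u v ∧ ok f u v
  | mul e f => ok e u v ∧ ok f u v
  | div e f => ok e u v ∧ ok f u v ∧ ev f u v ≠ 0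

/-- the value of the derivative for the invariant differential -/
def dv {K : Type*} [Field K] (b c0 : K) (e : Q2) (u v : K) : K := match e with
  | x => 2 * v + (1 - c0) * u - b
  | y => 3 * u ^ 2 - 2 * b * u - (1 - c0) * v
  | c _ => 0
  | add e f => dv b c0 e u v + dv b c0 f u v
  | sub e f => dv b c0 e u v - dv b c0 f u v
  | mul e f => dv b c0 e u v * ev f u v + ev e u v * dv b c0 f u v
  | div e f => (dv b c0 e u v * ev f u v - ev e u v * dv b c0 f u v) / ev f u v ^ 2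

instance : Add Q2 := ⟨add⟩
instance : Sub Q2 := ⟨sub⟩
instance : Mul Q2 := ⟨mul⟩
instance : Div Q2 := ⟨div⟩
instance : Neg Q2 := ⟨fun e => mul (c (-1)) e⟩

section simps

variable {K : Type*} [Field K] (b c0 u v : K) (e f : Q2) (a : ℚ)

@[simp] lemma ev_x : ev x u v = u := rfl
@[simp] lemma ev_y : ev y u v = v := rfl
@[simp] lemma ev_c : ev (c a) u v = (a : K) := rfl
@[simp] lemma ev_add : ev (e + f) u v = ev e u v + ev f u v := rfl
@[simp] lemma ev_sub : ev (e - f) u v = ev e u v - ev f u v := rfl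
@[simp] lemma ev_mul : ev (e * f) u v = ev e u v * ev f u v := rfl
@[simp] lemma ev_div : ev (e / f) u v = ev e u v / ev f u v := rfl
@[simp] lemma ok_x : ok x u v ↔ True := Iff.rfl
@[simp] lemma ok_y : ok y u v ↔ True := Iff.rfl
@[simp] lemma ok_c : ok (c a) u v ↔ True := Iff.rfl
@[simp] lemma ok_add : ok (e + f) u v ↔ ok e u v ∧ ok f u v := Iff.rfl
@[simp] lemma ok_sub : ok (e - f) u v ↔ ok e u v ∧ ok f u v := Iff.rfl
@[simp] lemma ok_mul : ok (e * f) u v ↔ ok e u v ∧ ok f u v := Iff.rfl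
@[simp] lemma ok_div : ok (e / f) u v ↔ ok e u v ∧ ok f u v ∧ ev f u v ≠ 0 := Iff.rfl
@[simp] lemma dv_x : dv b c0 x u v = 2 * v + (1 - c0) * u - b := rfl
@[simp] lemma dv_y : dv b c0 y u v = 3 * u ^ 2 - 2 * b * u - (1 - c0) * v := rfl
@[simp] lemma dv_c : dv b c0 (c a) u v = 0 := rfl
@[simp] lemma dv_add : dv b c0 (e + f) u v = dv b c0 e u v + dv b c0 f u v := rfl
@[simp] lemma dv_sub : dv b c0 (e - f) u v = dv b c0 e u v - dv b c0 f u v := rfl
@[simp] lemma dv_mul : dv b c0 (e * f) u v =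
    dv b c0 e u v * ev f u v + ev e u v * dv b c0 f u v := rfl
@[simp] lemma dv_div : dv b c0 (e / f) u v =
    (dv b c0 e u v * ev f u v - ev e u v * dv b c0 f u v) / ev f u v ^ 2 := rfl

end simps

lemma deriv_ev {b c0 κ : ℝ} {X Y : ℝ → ℝ} {s : ℝ} (h : OKp b c0 κ X Y s) (e : Q2)
    (ho : ok e (X s) (Y s)) :
    HasDerivAt (fun t => ev e (X t) (Y t)) (dv b c0 e (X s) (Y s) * κ) s := by
  induction e with
  | x => exact h.dX
  | y => exact h.dY
  | c a =>
    show HasDerivAt (fun _ => ((a : ℚ) : ℝ)) (0 * κ) s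
    rw [zero_mul]
    exact hasDerivAt_const _ _
  | add e f he hf =>
    refine ((he ho.1).add (hf ho.2)).congr_deriv ?_
    show _ = (dv b c0 e (X s) (Y s) + dv b c0 f (X s) (Y s)) * κ
    ring
  | sub e f he hf =>
    refine ((he ho.1).sub (hf ho.2)).congr_deriv ?_
    show _ = (dv b c0 e (X s) (Y s) - dv b c0 f (X s) (Y s)) * κ
    ring
  | mul e f he hf =>
    refine ((he ho.1).mul (hf ho.2)).congr_deriv ?_
    show _ = (dv b c0 e (X s) (Y s) * ev f (X s) (Y s) + ev e (X s) (Y s) * dv b c0 f (X s) (Y s)) * κ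
    ring
  | div e f he hf =>
    refine ((he ho.1).div (hf ho.2.1) ho.2.2).congr_deriv ?_
    show _ = (dv b c0 e (X s) (Y s) * ev f (X s) (Y s) - ev e (X s) (Y s) * dv b c0 f (X s) (Y s)) /
      ev f (X s) (Y s) ^ 2 * κ
    ring

section rep

variable {F : Type*} [Field F] [CharZero F] {R : F →+* VG} {ρ : RealF F}
  (h : ∀ f, R f = (ρ.r f : VG))

lemma R_rat (R : F →+* VG) (a : ℚ) : R (a : F) = ((fun _ => (a : ℝ) : ℝ → ℝ) : VG) := by
  have h1 : (R.comp (algebraMap ℚ F)) =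
      ((Germ.coeRingHom (cofinite : Filter ℝ)).comp ((Pi.constRingHom ℝ ℝ).comp
        (algebraMap ℚ ℝ))) := RingHom.ext_rat _ _
  have h2 := congrArg (fun g : ℚ →+* VG => g a) h1
  exact h2

include h

lemma R_ev {u v : F} {X Y : ℝ → ℝ} (hx : R u = (X : VG)) (hy : R v = (Y : VG)) (e : Q2) :
    R (ev e u v) = ((fun s => ev e (X s) (Y s) : ℝ → ℝ) : VG) := by
  induction e with
  | x => exact hx
  | y => exact hy
  | c a => exact R_rat R a
  | add e f he hf => exact R_add he hf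
  | sub e f he hf =>
    show R (ev e u v - ev f u v) = _
    rw [map_sub, he, hf, ← Germ.coe_sub]
    rfl
  | mul e f he hf => exact R_mul he hf
  | div e f he hf => exact R_div h he hf

lemma ev_ne {u v : F} {X Y : ℝ → ℝ} (hx : R u = (X : VG)) (hy : R v = (Y : VG)) {e : Q2}
    (h0 : ev e u v ≠ 0) : ∀ᶠ s in cofinite, ev e (X s) (Y s) ≠ 0 := by
  have h1 := rep_of h (R_ev h hx hy e)
  filter_upwards [ρ.ne _ h0, h1] with s a b
  rwa [← b]

end rep

end Q2

end expr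

section engine

/-- a circle of real points -/
structure Circ (b c : ℝ) (C : ℝ → ℝ → Prop) where
  X : ℝ → ℝ
  Y : ℝ → ℝ
  κ : ℝ → ℝ
  mX : Mer X
  mY : Mer Y
  fin : ∀ a, ∀ᶠ s in cofinite, X s ≠ a
  pos : ∀ s, 0 < κ s
  ok : ∀ s, OKp b c (κ s) X Y s
  comp : ∀ᶠ s in cofinite, C (X s) (Y s)

/-- the circle from the parametrisation -/
noncomputable def mkCirc (b c x0 α β : ℝ) (C : ℝ → ℝ → Prop)
    (hP : ∀ x : ℝ, 4 * x ^ 3 + ((1 - c) ^ 2 + 4 * (-b)) * x ^ 2 +
      2 * (2 * 0 + (1 - c) * (-b)) * x + ((-b) ^ 2 + 4 * 0) = (x - x0) * (4 * x ^ 2 + α * x + β))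
    (hq : ∀ x : ℝ, x0 ≤ x → 0 < 4 * x ^ 2 + α * x + β)
    (hC : ∀ s : ℝ, s ≠ 0 → ∀ V : ℝ, V ^ 2 + (1 - c) * (x0 + s ^ 2) * V - b * V =
      (x0 + s ^ 2) ^ 3 - b * (x0 + s ^ 2) ^ 2 → C (x0 + s ^ 2) V) : Circ b c C where
  X := Xp x0
  Y := Yp (1 - c) (-b) x0 α β
  κ := cp x0 α β
  mX := Xp_mer x0
  mY := Yp_mer _ _ _ _ _ hq
  fin := Xp_fin x0
  pos := cp_pos _ _ _ hq
  ok s := by
    have h1 := Yp_eqn (1 - c) (-b) (-b) 0 0 x0 α β hP hq s
    refine ⟨by linear_combination h1, (Xp_deriv' (1 - c) (-b) x0 α β hq s).congr_deriv (by ring),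
      (Yp_deriv' (1 - c) (-b) (-b) 0 0 x0 α β hP hq s).congr_deriv (by ring)⟩
  comp := by
    have g0 : ∀ᶠ s : ℝ in cofinite, s ≠ 0 := (Set.finite_singleton (0 : ℝ)).subset
      fun s hs => not_not.mp hs
    filter_upwards [g0] with s hs
    have h1 := Yp_eqn (1 - c) (-b) (-b) 0 0 x0 α β hP hq s
    refine hC s hs _ ?_
    have e : Xp x0 s = x0 + s ^ 2 := rfl
    rw [← e]
    linear_combination h1

variable {k F : Type*} [Field k] [Field F] [Algebra k F] {x y : F}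

/-- **The engine.** -/
theorem eng [CharZero k] [CharZero F] (φ : k →+* ℝ) (b c : ℚ) (hb : b ≠ 0)
    (h : Gen (b : k) (c : k) x y)
    (htop : IntermediateField.adjoin k {x, y} = ⊤)
    (C : ℕ → ℝ → ℝ → Prop) (circ : Circ (b : ℝ) (c : ℝ) (C 0))
    {ι : Type*} [Fintype ι] (f u : ι → Q2) (j : ι → ℕ) (nz : List Q2)
    (hnz : ∀ x' y' : F, Gen (b : k) (c : k) x' y' → ∀ e ∈ nz, e.ev x' y' ≠ 0)
    (hfu : ∀ x' y' : F, Gen (b : k) (c : k) x' y' → ∀ i, (f i).ev x' y' ≠ 0 ∧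
      (f i).ev x' y' ≠ 1 ∧ (u i).ev x' y' ≠ 0)
    (hok : ∀ i, ∀ U V : ℝ, (∀ e ∈ nz, e.ev U V ≠ 0) → (f i).ok U V)
    (hC : ∀ n, ∀ U V : ℝ, V ^ 2 + (1 - (c : ℝ)) * U * V - b * V = U ^ 3 - b * U ^ 2 → U ≠ 0 →
      (∀ e ∈ nz, e.ev U V ≠ 0) → C n U V → C (n + 1) (b * V / U ^ 2) (b ^ 2 * (U ^ 2 - V) / U ^ 3))
    (hge : ∀ i, ∀ U V : ℝ, V ^ 2 + (1 - (c : ℝ)) * U * V - b * V = U ^ 3 - b * U ^ 2 → U ≠ 0 →
      (∀ e ∈ nz, e.ev U V ≠ 0) → C (j i) U V →
      (f i).dv (b : ℝ) c U V * Real.log ((u i).ev U V) ≤ 0)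
    (i0 : ι)
    (hgt : ∀ U V : ℝ, V ^ 2 + (1 - (c : ℝ)) * U * V - b * V = U ^ 3 - b * U ^ 2 → U ≠ 0 →
      (∀ e ∈ nz, e.ev U V ≠ 0) → C (j i0) U V →
      (f i0).dv (b : ℝ) c U V * Real.log ((u i0).ev U V) < 0) :
    ∑ i, K4M.hk (K4M.sy ((f i).ev (It (b : F) (j i) (x, y)).1 (It (b : F) (j i) (x, y)).2))
      (K4M.lg ((u i).ev (It (b : F) (j i) (x, y)).1 (It (b : F) (j i) (x, y)).2)) ∉
      Submodule.span ℚ {z : K4M.HK F | ∃ (c : k) (u : K4M.FT F),
        z = K4M.hk (K4M.sy (algebraMap k F c)) u} := by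
  obtain ⟨X, Y, κ, mX, mY, hfin, hκ, hOK, hcomp⟩ := circ
  have eb : algebraMap k F (b : k) = (b : F) := map_ratCast _ b
  have hbk : (b : k) ≠ 0 := by exact_mod_cast hb
  have hg : ∀ n, Gen (b : k) (c : k) (It (b : F) n (x, y)).1 (It (b : F) n (x, y)).2 := by
    intro n
    have := gen_It hbk h n
    rwa [eb] at this
  have hER : ∀ s, TN.Eqn (TN.Wt (b : k) (c : k)) φ (X s) (Y s) := by
    intro s
    show Y s ^ 2 + φ (1 - c) * X s * Y s + φ (-b) * Y s =
      X s ^ 3 + φ (-b) * X s ^ 2 + φ 0 * X s + φ 0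
    simp only [map_zero, map_one, map_neg, map_sub, map_ratCast]
    linear_combination (hOK s).eq
  obtain ⟨R, ρ, hR, hRx, hRy, hRc⟩ := exists_real φ h.eqn ((TN.Tr_iff x).mp h.tr) htop mX mY hER
    hfin
  -- the iterates
  have hIt : ∀ n, R (It (b : F) n (x, y)).1 = ((fun s => (It (b : ℝ) n (X s, Y s)).1 : ℝ → ℝ) : VG) ∧
      R (It (b : F) n (x, y)).2 = ((fun s => (It (b : ℝ) n (X s, Y s)).2 : ℝ → ℝ) : VG) := by
    intro n
    induction n with
    | zero => exact ⟨hRx, hRy⟩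
    | succ n ih =>
      obtain ⟨i1, i2⟩ := ih
      have hRb : R (b : F) = ((fun _ => (b : ℝ) : ℝ → ℝ) : VG) := Q2.R_rat R b
      constructor
      · have := R_div hR (R_mul hRb i2) (R_pow i1 2)
        simp only [It_succ]
        exact this
      · have e1 : R ((It (b : F) n (x, y)).1 ^ 2 - (It (b : F) n (x, y)).2) =
            ((fun s => (It (b : ℝ) n (X s, Y s)).1 ^ 2 - (It (b : ℝ) n (X s, Y s)).2 : ℝ → ℝ) :
              VG) := by
          rw [map_sub, R_pow i1 2, i2, ← Germ.coe_sub]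
          rfl
        have := R_div hR (R_mul (R_pow hRb 2) e1) (R_pow i1 3)
        simp only [It_succ]
        exact this
  -- nonvanishing
  have hn0 : ∀ n, ∀ᶠ s in cofinite, (It (b : ℝ) n (X s, Y s)).1 ≠ 0 := by
    intro n
    have h1 := rep_of hR (hIt n).1
    filter_upwards [ρ.ne _ (hg n).x_ne, h1] with s a b
    rwa [← b]
  have hn : ∀ n, ∀ᶠ s in cofinite, ∀ e ∈ nz,
      e.ev (It (b : ℝ) n (X s, Y s)).1 (It (b : ℝ) n (X s, Y s)).2 ≠ 0 := by
    intro n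
    have key : ∀ l : List Q2, (∀ e ∈ l, e ∈ nz) → ∀ᶠ s in cofinite, ∀ e ∈ l,
        e.ev (It (b : ℝ) n (X s, Y s)).1 (It (b : ℝ) n (X s, Y s)).2 ≠ 0 := by
      intro l
      induction l with
      | nil =>
        intro _
        exact Eventually.of_forall fun s e he => absurd he (List.not_mem_nil)
      | cons e l ih =>
        intro hl
        have h1 := ih fun e' he' => hl e' (List.mem_cons_of_mem _ he')
        have h2 := Q2.ev_ne hR (hIt n).1 (hIt n).2
          (hnz _ _ (hg n) e (hl e List.mem_cons_self))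
        filter_upwards [h1, h2] with s a b e' he'
        rcases List.mem_cons.mp he' with rfl | he'
        · exact b
        · exact a e' he'
    exact key nz fun _ h => h
  -- all indices up to a bound
  set N := (Finset.univ.sup j) + 1 with hN
  have hjN : ∀ i, j i < N := fun i => Nat.lt_succ_of_le (Finset.le_sup (Finset.mem_univ i))
  have hall : ∀ᶠ s in cofinite, ∀ n ∈ Finset.range N, ((It (b : ℝ) n (X s, Y s)).1 ≠ 0 ∧
      ∀ e ∈ nz, e.ev (It (b : ℝ) n (X s, Y s)).1 (It (b : ℝ) n (X s, Y s)).2 ≠ 0) := by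
    rw [Finset.eventually_all]
    intro n _
    filter_upwards [hn0 n, hn n] with s a b
    exact ⟨a, b⟩
  refine not_const ρ (fun c => ⟨φ c, rep_of hR (hRc c)⟩)
    (fun i => (f i).ev (It (b : F) (j i) (x, y)).1 (It (b : F) (j i) (x, y)).2)
    (fun i => (u i).ev (It (b : F) (j i) (x, y)).1 (It (b : F) (j i) (x, y)).2)
    (fun i => (hfu _ _ (hg _) i).1) (fun i => (hfu _ _ (hg _) i).2.1)
    (fun i => (hfu _ _ (hg _) i).2.2)
    (fun i s => (f i).ev (It (b : ℝ) (j i) (X s, Y s)).1 (It (b : ℝ) (j i) (X s, Y s)).2)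
    (fun i s => (u i).ev (It (b : ℝ) (j i) (X s, Y s)).1 (It (b : ℝ) (j i) (X s, Y s)).2)
    (fun i => rep_of hR (Q2.R_ev hR (hIt _).1 (hIt _).2 _))
    (fun i => rep_of hR (Q2.R_ev hR (hIt _).1 (hIt _).2 _)) (fun _ => 0) Ex.zero ?_
  have hf01 : ∀ᶠ s in cofinite, ∀ i ∈ (Finset.univ : Finset ι),
      ((f i).ev (It (b : ℝ) (j i) (X s, Y s)).1 (It (b : ℝ) (j i) (X s, Y s)).2 ≠ 0 ∧
       (f i).ev (It (b : ℝ) (j i) (X s, Y s)).1 (It (b : ℝ) (j i) (X s, Y s)).2 ≠ 1) := by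
    rw [Finset.eventually_all]
    intro i _
    have h1 := rep_of hR (Q2.R_ev hR (hIt (j i)).1 (hIt (j i)).2 (f i))
    filter_upwards [ρ.ne _ (hfu _ _ (hg (j i)) i).1, ρ.ne_one (hfu _ _ (hg (j i)) i).2.1, h1]
      with s a b d
    rw [← d]
    exact ⟨a, b⟩
  filter_upwards [hall, hcomp, hf01] with s hs hc hf
  -- the point, its translates
  have hOKn : ∀ n, n < N → OKp (b : ℝ) c (κ s) (fun t => (It (b : ℝ) n (X t, Y t)).1)
      (fun t => (It (b : ℝ) n (X t, Y t)).2) s := by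
    intro n hn
    exact OK_It (hOK s) n fun i hi => (hs i (Finset.mem_range.mpr (hi.trans hn))).1
  have hCn : ∀ n, n < N → C n (It (b : ℝ) n (X s, Y s)).1 (It (b : ℝ) n (X s, Y s)).2 := by
    intro n
    induction n with
    | zero => intro _; exact hc
    | succ n ih =>
      intro hn
      have hn' : n < N := by omega
      have h1 := hs n (Finset.mem_range.mpr hn')
      have h2 := hC n _ _ (hOKn n hn').eq h1.1 h1.2 (ih hn')
      rw [It_succ]
      exact h2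
  have hterm : ∀ i, 0 ≤ -(Rf ((f i).ev (It (b : ℝ) (j i) (X s, Y s)).1
      (It (b : ℝ) (j i) (X s, Y s)).2)) *
      deriv (fun s => (f i).ev (It (b : ℝ) (j i) (X s, Y s)).1
        (It (b : ℝ) (j i) (X s, Y s)).2) s *
      Real.log ((u i).ev (It (b : ℝ) (j i) (X s, Y s)).1 (It (b : ℝ) (j i) (X s, Y s)).2) ∧
      (i = i0 → 0 < -(Rf ((f i).ev (It (b : ℝ) (j i) (X s, Y s)).1
      (It (b : ℝ) (j i) (X s, Y s)).2)) *
      deriv (fun s => (f i).ev (It (b : ℝ) (j i) (X s, Y s)).1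
        (It (b : ℝ) (j i) (X s, Y s)).2) s *
      Real.log ((u i).ev (It (b : ℝ) (j i) (X s, Y s)).1 (It (b : ℝ) (j i) (X s, Y s)).2)) := by
    intro i
    have h1 := hs (j i) (Finset.mem_range.mpr (hjN i))
    have h2 := Q2.deriv_ev (hOKn (j i) (hjN i)) (f i) (hok i _ _ h1.2)
    have h3 := hCn (j i) (hjN i)
    have h4 := (hOKn (j i) (hjN i)).eq
    have h5 := hf i (Finset.mem_univ i)
    rw [h2.deriv]
    have hR := Rf_pos h5.1 h5.2
    have e : ∀ r d κ l : ℝ, -r * (d * κ) * l = (r * κ) * (-(d * l)) := by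
      intro r d κ l; ring
    rw [e]
    have hp := mul_pos hR (hκ s)
    constructor
    · exact mul_nonneg hp.le (neg_nonneg.mpr (hge i _ _ h4 h1.1 h1.2 h3))
    · rintro rfl
      exact mul_pos hp (neg_pos.mpr (hgt _ _ h4 h1.1 h1.2 h3))
  rw [zero_add]
  exact Finset.sum_pos' (fun i _ => (hterm i).1) ⟨i0, Finset.mem_univ _, (hterm i0).2 rfl⟩

end engine

end Pool.Agent.K4N
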