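import Mathlib

set_option autoImplicit false

/-!
An elementary positive function.
-/

namespace Pool.Agent.K4N

open Real

/-- `-(log|1-f|/f + log|f|/(1-f))` -/
noncomputable def Rf (f : ℝ) : ℝ := -(log (1 - f) / f + log f / (1 - f))

lemma aux_pos {a : ℝ} (ha : 0 < a) : 0 < log (1 + a) / a - log a / (1 + a) := by
  have h1 : 0 < log (1 + a) := log_pos (by linarith)
  have h2 : log a < log (1 + a) := log_lt_log ha (by linarith)
  have h3 : log (1 + a) / (1 + a) < log (1 + a) / a := by
    apply div_lt_div_of_pos_left h1 ha (by linarith)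
  have h4 : log a / (1 + a) < log (1 + a) / (1 + a) :=
    div_lt_div_of_pos_right h2 (by linarith)
  linarith

lemma Rf_pos {f : ℝ} (h0 : f ≠ 0) (h1 : f ≠ 1) : 0 < Rf f := by
  unfold Rf
  rcases lt_or_gt_of_ne h0 with h | h
  · -- negative
    have ha : 0 < -f := by linarith
    have := aux_pos ha
    have e1 : (1 : ℝ) + -f = 1 - f := by ring
    rw [e1, log_neg_eq_log] at this
    have e2 : log (1 - f) / -f = -(log (1 - f) / f) := by rw [div_neg]
    rw [e2] at this
    linarith
  · rcases lt_or_gt_of_ne h1 with h' | h'
    · have a1 : log (1 - f) < 0 := log_neg (by linarith) (by linarith)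
      have a2 : log f < 0 := log_neg h h'
      have a3 : log (1 - f) / f < 0 := div_neg_of_neg_of_pos a1 h
      have a4 : log f / (1 - f) < 0 := div_neg_of_neg_of_pos a2 (by linarith)
      linarith
    · have ha : 0 < f - 1 := by linarith
      have := aux_pos ha
      have e1 : (1 : ℝ) + (f - 1) = f := by ring
      rw [e1] at this
      have e2 : log (1 - f) = log (f - 1) := by
        rw [← log_neg_eq_log]; congr 1; ring
      have e3 : log f / (1 - f) = -(log f / (f - 1)) := by
        rw [← div_neg]; congr 1; ring
      rw [e2, e3]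
      linarith

/-- the positivity used: `(a - b)·log|a/b| ≥ 0` when `a + b > 0` -/
lemma log_diff_nonneg {a b : ℝ} (ha : a ≠ 0) (hb : b ≠ 0) (hab : 0 < a + b) :
    0 ≤ (a - b) * (log a - log b) ∧ (a ≠ b → 0 < (a - b) * (log a - log b)) := by
  have key : ∀ u v : ℝ, u ≠ 0 → v ≠ 0 → 0 < u + v → v < u → log v < log u := by
    intro u v hu hv h1 h2
    rw [← log_abs v, ← log_abs u]
    apply log_lt_log (abs_pos.mpr hv)
    rw [abs_lt]
    have : 0 < u := by linarith
    rw [abs_of_pos this]
    exact ⟨by linarith, h2⟩
  rcases lt_trichotomy a b with h | h | h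
  · have := key b a hb ha (by linarith) h
    have h2 : 0 < (b - a) * (log b - log a) := mul_pos (by linarith) (by linarith)
    have e : (a - b) * (log a - log b) = (b - a) * (log b - log a) := by ring
    rw [e]
    exact ⟨h2.le, fun _ => h2⟩
  · subst h
    simp
  · have := key a b ha hb hab h
    have h2 : 0 < (a - b) * (log a - log b) := mul_pos (by linarith) (by linarith)
    exact ⟨h2.le, fun _ => h2⟩

end Pool.Agent.K4N
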