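import Pool.Agent.Lib_helper60.K4M.Delta

set_option autoImplicit false

/-!
Linear maps out of `B₂(F)` from alternating forms.
-/

namespace Pool.Agent.K4N

open K4M
open scoped TensorProduct

variable {F : Type*} [Field F] {M : Type*} [AddCommGroup M] [Module ℚ M]

/-- on symbols -/
noncomputable def dw0 (w : FT F →ₗ[ℚ] FT F →ₗ[ℚ] M) : (F →₀ ℚ) →ₗ[ℚ] M :=
  Finsupp.lsum ℚ fun x => (LinearMap.id : ℚ →ₗ[ℚ] ℚ).smulRight (w (lg (1 - x)) (lg x))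

lemma dw0_bs (w : FT F →ₗ[ℚ] FT F →ₗ[ℚ] M) (x : F) : dw0 w (bs x) = w (lg (1 - x)) (lg x) := by
  unfold dw0 bs
  simp

lemma dw0_five (w : FT F →ₗ[ℚ] FT F →ₗ[ℚ] M) (hw : ∀ u, w u u = 0) {x y : F} (hx0 : x ≠ 0)
    (hx1 : x ≠ 1) (hy0 : y ≠ 0) (hy1 : y ≠ 1) (hxy : x ≠ y) : dw0 w (fiveTerm F x y) = 0 := by
  have h1x : 1 - x ≠ 0 := sub_ne_zero.mpr hx1.symm
  have h1y : 1 - y ≠ 0 := sub_ne_zero.mpr hy1.symm
  have hd : x - y ≠ 0 := sub_ne_zero.mpr hxy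
  have e1 : lg (y / x) = lg y - lg x := lg_div hy0 hx0
  have e1' : lg (1 - y / x) = lg (x - y) - lg x := by
    rw [← lg_div hd hx0]; congr 1; field_simp
  have e2 : lg ((1 - x) / (1 - y)) = lg (1 - x) - lg (1 - y) := lg_div h1x h1y
  have e2' : lg (1 - (1 - x) / (1 - y)) = lg (x - y) - lg (1 - y) := by
    rw [← lg_div hd h1y]; congr 1; field_simp; ring
  have hz : (1 - x⁻¹) / (1 - y⁻¹) = (1 - x) * y / ((1 - y) * x) := by
    have a1 : (1 - x⁻¹) = -(1 - x) / x := by field_simp; ring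
    have a2 : (1 - y⁻¹) = -(1 - y) / y := by field_simp; ring
    rw [a1, a2]; field_simp
  have e3 : lg ((1 - x⁻¹) / (1 - y⁻¹)) = lg (1 - x) + lg y - lg (1 - y) - lg x := by
    rw [hz, lg_div (mul_ne_zero h1x hy0) (mul_ne_zero h1y hx0), lg_mul h1x hy0, lg_mul h1y hx0]
    abel
  have e3' : lg (1 - (1 - x⁻¹) / (1 - y⁻¹)) = lg (x - y) - lg (1 - y) - lg x := by
    rw [hz, show 1 - (1 - x) * y / ((1 - y) * x) = (x - y) / ((1 - y) * x) by field_simp; ring,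
      lg_div hd (mul_ne_zero h1y hx0), lg_mul h1y hx0]
    abel
  have hsw : ∀ x y, w y x = - w x y := Pool.Agent.K4ParP.w_swap hw
  unfold fiveTerm
  rw [map_add, map_sub, map_add, map_sub, dw0_bs, dw0_bs, dw0_bs, dw0_bs, dw0_bs, e1, e1', e2, e2',
    e3, e3']
  simp only [map_add, map_sub, LinearMap.sub_apply, hw]
  rw [hsw (lg (1 - x)) (lg x), hsw (lg (1 - y)) (lg x)]
  abel

/-- the map `{x}₂ ↦ w(1-x, x)` -/
noncomputable def dw (w : FT F →ₗ[ℚ] FT F →ₗ[ℚ] M) (hw : ∀ u, w u u = 0) : B2 F →ₗ[ℚ] M :=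
  Submodule.liftQ _ (dw0 w) (by
    rw [Submodule.span_le]
    rintro z (rfl | rfl | ⟨x, y, h1, h2, h3, h4, h5, rfl⟩)
    · show dw0 w (bs 0) = 0
      rw [dw0_bs, lg_zero, map_zero]
    · show dw0 w (bs 1) = 0
      rw [dw0_bs, lg_one, map_zero]
    · exact dw0_five w hw h1 h2 h3 h4 h5)

lemma dw_sy (w : FT F →ₗ[ℚ] FT F →ₗ[ℚ] M) (hw : ∀ u, w u u = 0) (x : F) :
    dw w hw (sy x) = w (lg (1 - x)) (lg x) := by
  unfold dw sy
  rw [Submodule.liftQ_apply, dw0_bs]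

/-- the map `{x}₂ ⊗ u ↦ b(w(1-x,x), u)` -/
noncomputable def dwH {N : Type*} [AddCommGroup N] [Module ℚ N]
    (w : FT F →ₗ[ℚ] FT F →ₗ[ℚ] M) (hw : ∀ u, w u u = 0) (b : M →ₗ[ℚ] FT F →ₗ[ℚ] N)
    (hb : ∀ f : F, f ≠ 0 → f ≠ 1 → b (w (lg (1 - f)) (lg f)) (lg f) = 0) : HK F →ₗ[ℚ] N :=
  Submodule.liftQ _ (TensorProduct.lift (b.comp (dw w hw))) (by
    rw [Submodule.span_le]
    rintro z ⟨f, h0, h1, rfl⟩
    show TensorProduct.lift (b.comp (dw w hw)) (sy f ⊗ₜ[ℚ] lg f) = 0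
    rw [TensorProduct.lift.tmul, LinearMap.comp_apply, dw_sy, hb f h0 h1])

lemma dwH_hk {N : Type*} [AddCommGroup N] [Module ℚ N]
    (w : FT F →ₗ[ℚ] FT F →ₗ[ℚ] M) (hw : ∀ u, w u u = 0) (b : M →ₗ[ℚ] FT F →ₗ[ℚ] N)
    (hb : ∀ f : F, f ≠ 0 → f ≠ 1 → b (w (lg (1 - f)) (lg f)) (lg f) = 0) (f : F) (u : FT F) :
    dwH w hw b hb (hk (sy f) u) = b (w (lg (1 - f)) (lg f)) u := by
  unfold dwH hk
  rw [Submodule.liftQ_apply, TensorProduct.lift.tmul, LinearMap.comp_apply, dw_sy]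

end Pool.Agent.K4N
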