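import Pool.Agent.Lib_helper2.K4N.Mer
import Pool.Agent.Lib_helper2.K4N.Wd
import Pool.Agent.Lib_helper2.K4N.Rpos

set_option autoImplicit false

/-!
The real regulator of a field of meromorphic functions on the circle.
-/

namespace Pool.Agent.K4N

open Filter Topology K4M
open scoped TensorProduct

/-- functions up to finite sets -/
abbrev VG : Type := Germ (cofinite : Filter ℝ) ℝ

lemma vg_smul (q : ℚ) (φ : ℝ → ℝ) : q • (φ : VG) = ((fun s => (q : ℝ) * φ s : ℝ → ℝ) : VG) := by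
  rw [← Germ.coe_smul]
  congr 1

lemma vg_smul_mul (q : ℚ) (a b : VG) : (q • a) * b = q • (a * b) := by
  induction a using Germ.inductionOn with
  | _ φ =>
    induction b using Germ.inductionOn with
    | _ ψ =>
      rw [vg_smul, ← Germ.coe_mul, ← Germ.coe_mul, vg_smul]
      congr 1
      funext s
      simp [mul_assoc]

lemma nhds_of_cofinite {p : ℝ → Prop} (h : ∀ᶠ s in cofinite, p s) :
    ∀ᶠ s in cofinite, ∀ᶠ t in 𝓝 s, p t := by
  have hfin : {s | ¬ p s}.Finite := h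
  have hop : IsOpen {s | p s} := by
    rw [← isClosed_compl_iff]
    exact hfin.isClosed
  filter_upwards [h] with s hs
  exact hop.mem_nhds hs

/-- exact functions up to finite sets -/
noncomputable def WG : Submodule ℚ VG where
  carrier := {v | ∃ φ : ℝ → ℝ, Ex φ ∧ v = (φ : VG)}
  zero_mem' := ⟨fun _ => 0, Ex.zero, rfl⟩
  add_mem' := by
    rintro _ _ ⟨φ, h1, rfl⟩ ⟨ψ, h2, rfl⟩
    exact ⟨_, h1.add h2, rfl⟩
  smul_mem' := by
    rintro q _ ⟨φ, h1, rfl⟩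
    exact ⟨_, h1.smul (q : ℝ), vg_smul q φ⟩

lemma WG_not_pos {φ : ℝ → ℝ} (h : (φ : VG) ∈ WG) : ¬ ∀ᶠ s in cofinite, 0 < φ s := by
  obtain ⟨ψ, hψ, e⟩ := h
  have : ψ =ᶠ[cofinite] φ := (Germ.coe_eq.mp e).symm
  exact (hψ.congr this).not_pos

section lift

variable {F : Type*} [Field F]

/-- a `ℚ`-linear map on `F^* ⊗ ℚ` from a homomorphism -/
noncomputable def lft {M : Type*} [AddCommGroup M] [Module ℚ M] (h : Additive Fˣ →+ M) :
    FT F →ₗ[ℚ] M := h.toIntLinearMap.liftBaseChange ℚ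

lemma lft_lg {M : Type*} [AddCommGroup M] [Module ℚ M] (h : Additive Fˣ →+ M) {r : F}
    (hr : r ≠ 0) : lft h (lg r) = h (Additive.ofMul (Units.mk0 r hr)) := by
  rw [lg_of_ne hr]
  unfold lft
  rw [LinearMap.liftBaseChange_tmul, one_smul]
  rfl

end lift

/-- a field of meromorphic functions on the circle -/
structure RealF (F : Type*) [Field F] where
  /-- the function of an element -/
  r : F → ℝ → ℝ
  /-- the functions are meromorphic -/
  mer : ∀ f, Mer (r f)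
  /-- products -/
  mul : ∀ f g, ∀ᶠ s in cofinite, r (f * g) s = r f s * r g s
  /-- differences from one -/
  one_sub : ∀ f, ∀ᶠ s in cofinite, r (1 - f) s = 1 - r f s
  /-- nonzero elements are not zero -/
  ne : ∀ f, f ≠ 0 → ∀ᶠ s in cofinite, r f s ≠ 0

namespace RealF

variable {F : Type*} [Field F] (ρ : RealF F)

lemma one : ∀ᶠ s in cofinite, ρ.r 1 s = 1 := by
  filter_upwards [ρ.mul 1 1, ρ.ne 1 one_ne_zero] with s h1 h2
  rw [mul_one] at h1
  exact (mul_right_cancel₀ h2 (by rw [one_mul]; exact h1)).symm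

lemma diff (f : F) : ∀ᶠ s in cofinite, DifferentiableAt ℝ (ρ.r f) s := by
  filter_upwards [(ρ.mer f).analytic] with s hs using hs.differentiableAt

lemma ne_one {f : F} (h : f ≠ 1) : ∀ᶠ s in cofinite, ρ.r f s ≠ 1 := by
  filter_upwards [ρ.ne (1 - f) (sub_ne_zero.mpr h.symm), ρ.one_sub f] with s h1 h2 h3
  exact h1 (by rw [h2, h3, sub_self])

/-- `log|f|` -/
noncomputable def LH : Additive Fˣ →+ VG where
  toFun u := ((fun s => Real.log (ρ.r (u.toMul : F) s) : ℝ → ℝ) : VG)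
  map_zero' := by
    refine Germ.coe_eq.mpr ?_
    filter_upwards [ρ.one] with s hs
    rw [toMul_zero, Units.val_one, hs, Real.log_one]
  map_add' a b := by
    rw [← Germ.coe_add]
    refine Germ.coe_eq.mpr ?_
    filter_upwards [ρ.mul (a.toMul : F) (b.toMul : F), ρ.ne _ (Units.ne_zero a.toMul),
      ρ.ne _ (Units.ne_zero b.toMul)] with s h1 h2 h3
    rw [toMul_add, Units.val_mul, h1, Real.log_mul h2 h3]
    rfl

/-- `f'/f` -/
noncomputable def DH : Additive Fˣ →+ VG where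
  toFun u := ((fun s => deriv (ρ.r (u.toMul : F)) s / ρ.r (u.toMul : F) s : ℝ → ℝ) : VG)
  map_zero' := by
    refine Germ.coe_eq.mpr ?_
    filter_upwards [nhds_of_cofinite ρ.one] with s hs
    rw [toMul_zero, Units.val_one]
    have h : ρ.r 1 =ᶠ[𝓝 s] fun _ => (1 : ℝ) := hs
    rw [h.deriv_eq, deriv_const, zero_div]
  map_add' a b := by
    rw [← Germ.coe_add]
    refine Germ.coe_eq.mpr ?_
    filter_upwards [nhds_of_cofinite (ρ.mul (a.toMul : F) (b.toMul : F)),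
      ρ.ne _ (Units.ne_zero a.toMul), ρ.ne _ (Units.ne_zero b.toMul), ρ.diff (a.toMul : F),
      ρ.diff (b.toMul : F)] with s h1 h2 h3 h4 h5
    rw [toMul_add, Units.val_mul]
    have h : ρ.r ((a.toMul : F) * (b.toMul : F)) =ᶠ[𝓝 s]
        ρ.r (a.toMul : F) * ρ.r (b.toMul : F) := h1
    rw [h.deriv_eq, deriv_mul h4 h5, h.eq_of_nhds, Pi.mul_apply, Pi.add_apply]
    field_simp

/-- `log|f|` -/
noncomputable def L : FT F →ₗ[ℚ] VG := lft ρ.LH

/-- `f'/f` -/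
noncomputable def D : FT F →ₗ[ℚ] VG := lft ρ.DH

lemma L_lg {f : F} (hf : f ≠ 0) : ρ.L (lg f) = ((fun s => Real.log (ρ.r f s) : ℝ → ℝ) : VG) :=
  lft_lg _ hf

lemma D_lg {f : F} (hf : f ≠ 0) :
    ρ.D (lg f) = ((fun s => deriv (ρ.r f) s / ρ.r f s : ℝ → ℝ) : VG) :=
  lft_lg _ hf

/-- `log|f| dlog g - log|g| dlog f` -/
noncomputable def w : FT F →ₗ[ℚ] FT F →ₗ[ℚ] VG :=
  LinearMap.mk₂ ℚ (fun a b => ρ.L a * ρ.D b - ρ.L b * ρ.D a)
    (fun a a' b => by rw [map_add, map_add]; ring)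
    (fun c a b => by
      rw [map_smul, map_smul, vg_smul_mul, mul_comm (ρ.L b), vg_smul_mul, mul_comm (ρ.D a),
        smul_sub])
    (fun a b b' => by rw [map_add, map_add]; ring)
    (fun c a b => by
      rw [map_smul, map_smul, vg_smul_mul, mul_comm (ρ.L a), vg_smul_mul, mul_comm (ρ.D b),
        smul_sub])

lemma w_apply (a b : FT F) : ρ.w a b = ρ.L a * ρ.D b - ρ.L b * ρ.D a := rfl

lemma w_self (a : FT F) : ρ.w a a = 0 := by rw [w_apply, sub_self]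

/-- multiplication by `log|g|`, modulo exact functions -/
noncomputable def b : VG →ₗ[ℚ] FT F →ₗ[ℚ] VG ⧸ WG :=
  LinearMap.mk₂ ℚ (fun v u => WG.mkQ (v * ρ.L u))
    (fun a a' u => by rw [add_mul, map_add])
    (fun c a u => by rw [vg_smul_mul, map_smul])
    (fun a u u' => by rw [map_add, mul_add, map_add])
    (fun c a u => by rw [map_smul, mul_comm, vg_smul_mul, map_smul, mul_comm])

lemma b_apply (v : VG) (u : FT F) : ρ.b v u = WG.mkQ (v * ρ.L u) := rfl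

lemma deriv_one_sub (f : F) : ∀ᶠ s in cofinite,
    deriv (ρ.r (1 - f)) s = - deriv (ρ.r f) s := by
  filter_upwards [nhds_of_cofinite (ρ.one_sub f), ρ.diff f] with s h1 h2
  have h : ρ.r (1 - f) =ᶠ[𝓝 s] fun t => 1 - ρ.r f t := h1
  rw [h.deriv_eq, deriv_const_sub]

/-- the value on `(1-f, f)` -/
lemma w_sy {f : F} (h0 : f ≠ 0) (h1 : f ≠ 1) : ρ.w (lg (1 - f)) (lg f) =
    ((fun s => -(Rf (ρ.r f s)) * deriv (ρ.r f) s : ℝ → ℝ) : VG) := by
  have h1' : (1 : F) - f ≠ 0 := sub_ne_zero.mpr h1.symm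
  rw [w_apply, ρ.L_lg h1', ρ.D_lg h0, ρ.L_lg h0, ρ.D_lg h1', ← Germ.coe_mul, ← Germ.coe_mul,
    ← Germ.coe_sub]
  refine Germ.coe_eq.mpr ?_
  filter_upwards [ρ.one_sub f, ρ.deriv_one_sub f, ρ.ne f h0, ρ.ne_one h1] with s a b c d
  have d' : (1 : ℝ) - ρ.r f s ≠ 0 := sub_ne_zero.mpr d.symm
  simp only [Pi.sub_apply, Pi.mul_apply]
  rw [a, b]
  unfold Rf
  field_simp
  ring

lemma b_sy {f : F} (h0 : f ≠ 0) (h1 : f ≠ 1) : ρ.b (ρ.w (lg (1 - f)) (lg f)) (lg f) = 0 := by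
  rw [b_apply, ρ.w_sy h0 h1, ρ.L_lg h0, ← Germ.coe_mul, Submodule.mkQ_apply,
    Submodule.Quotient.mk_eq_zero]
  refine ⟨_, (ρ.mer f).exact (ρ.ne f h0) (ρ.ne_one h1), ?_⟩
  congr 1
  funext s
  simp only [Pi.mul_apply]
  unfold Rf lam
  ring

/-- **The regulator** on `H(F)`, modulo exact functions -/
noncomputable def reg : HK F →ₗ[ℚ] VG ⧸ WG := dwH ρ.w ρ.w_self ρ.b fun _ h0 h1 => ρ.b_sy h0 h1

lemma reg_hk (f : F) (u : FT F) : ρ.reg (hk (sy f) u) = ρ.b (ρ.w (lg (1 - f)) (lg f)) u :=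
  dwH_hk _ _ _ _ _ _

/-- the regulator of `{f}₂ ⊗ g` -/
lemma reg_sy {f g : F} (h0 : f ≠ 0) (h1 : f ≠ 1) (hg : g ≠ 0) {φ ψ : ℝ → ℝ}
    (hφ : ∀ᶠ s in cofinite, ρ.r f s = φ s) (hψ : ∀ᶠ s in cofinite, ρ.r g s = ψ s) :
    ρ.reg (hk (sy f) (lg g)) =
      WG.mkQ ((fun s => -(Rf (φ s)) * deriv φ s * Real.log (ψ s) : ℝ → ℝ) : VG) := by
  rw [reg_hk, ρ.w_sy h0 h1, b_apply, ρ.L_lg hg, ← Germ.coe_mul]
  congr 1
  refine Germ.coe_eq.mpr ?_
  filter_upwards [nhds_of_cofinite hφ, hψ] with s a b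
  have h : ρ.r f =ᶠ[𝓝 s] φ := a
  simp only [Pi.mul_apply]
  rw [h.deriv_eq, h.eq_of_nhds, b]

/-- the regulator vanishes on constants -/
lemma reg_const {f : F} (u : FT F) (hc : ∃ c : ℝ, ∀ᶠ s in cofinite, ρ.r f s = c) :
    ρ.reg (hk (sy f) u) = 0 := by
  by_cases h0 : f = 0
  · rw [h0, reg_hk, lg_zero, map_zero, map_zero]
    rfl
  by_cases h1 : f = 1
  · rw [h1, reg_hk, lg_one, map_zero, map_zero]
    rfl
  rw [reg_hk, ρ.w_sy h0 h1]
  have : ((fun s => -(Rf (ρ.r f s)) * deriv (ρ.r f) s : ℝ → ℝ) : VG) = 0 := by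
    obtain ⟨c, hc⟩ := hc
    refine Germ.coe_eq.mpr ?_
    filter_upwards [nhds_of_cofinite hc] with s a
    have h : ρ.r f =ᶠ[𝓝 s] fun _ => c := a
    rw [h.deriv_eq, deriv_const, mul_zero]
  rw [this, map_zero]
  rfl

end RealF

end Pool.Agent.K4N
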