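import Pool.Agent.Lib_helper2.K4N.Int2
import Pool.Agent.Lib_helper2.K4N.Reg

set_option autoImplicit false

/-!
The regulator as a real number.
-/

namespace Pool.Agent.K4N

open Real Filter Topology MeasureTheory K4M
open scoped TensorProduct

/-- an integrable exact function has integral zero -/
lemma Ex.integral_eq_zero {φ : ℝ → ℝ} (hφ : Ex φ) (hi : Integrable φ volume) :
    ∫ s, φ s = 0 := by
  obtain ⟨Φ, hc, hd, l, ht, hb⟩ := hφ
  have hfin : {s | HasDerivAt Φ (φ s) s}ᶜ.Finite := hd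
  have h1 : ∀ n : ℕ, ∫ x in (-(n : ℝ))..(n : ℝ), φ x = Φ n - Φ (-n) := by
    intro n
    refine integral_eq_of_hasDerivAt_off_countable Φ φ hfin.countable hc.continuousOn ?_
      hi.intervalIntegrable
    intro x hx
    exact not_not.mp hx.2
  have h2 := intervalIntegral_tendsto_integral (l := atTop) (a := fun n : ℕ => -(n : ℝ))
    (b := fun n : ℕ => (n : ℝ)) hi (tendsto_neg_atTop_atBot.comp tendsto_natCast_atTop_atTop)
    tendsto_natCast_atTop_atTop
  simp only [h1] at h2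
  have h3 : Tendsto (fun n : ℕ => Φ n - Φ (-n)) atTop (𝓝 (l - l)) :=
    (ht.comp tendsto_natCast_atTop_atTop).sub
      (hb.comp (tendsto_neg_atTop_atBot.comp tendsto_natCast_atTop_atTop))
  rw [sub_self] at h3
  exact tendsto_nhds_unique h2 h3

/-- an integrable function with integral zero is exact -/
lemma Ex.of_integral {φ : ℝ → ℝ} (hi : Integrable φ volume)
    (hc : ∀ᶠ s in cofinite, ContinuousAt φ s) (h0 : ∫ s, φ s = 0) : Ex φ := by
  have hii : ∀ a b : ℝ, IntervalIntegrable φ volume a b := fun a b => hi.intervalIntegrable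
  refine ⟨fun s => ∫ x in (0 : ℝ)..s, φ x, intervalIntegral.continuous_primitive hii 0, ?_, ?_⟩
  · filter_upwards [hc] with s hs
    exact intervalIntegral.integral_hasDerivAt_right (hii 0 s)
      hi.aestronglyMeasurable.stronglyMeasurableAtFilter hs
  · refine ⟨∫ x in Set.Ioi (0 : ℝ), φ x, intervalIntegral_tendsto_integral_Ioi 0 hi.integrableOn
      tendsto_id, ?_⟩
    have h1 := intervalIntegral_tendsto_integral_Iic (l := atBot) (a := id) (0 : ℝ)
      (hi.integrableOn (s := Set.Iic (0 : ℝ))) tendsto_id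
    have h2 : (∫ x in Set.Iic (0 : ℝ), φ x) + ∫ x in Set.Ioi (0 : ℝ), φ x = 0 := by
      have := integral_add_compl (measurableSet_Iic (a := (0 : ℝ))) hi
      rwa [Set.compl_Iic, h0] at this
    have h3 : ∫ x in Set.Ioi (0 : ℝ), φ x = -∫ x in Set.Iic (0 : ℝ), φ x := by linarith
    rw [h3]
    refine h1.neg.congr fun s => ?_
    rw [id_eq, intervalIntegral.integral_symm]
    ring

/-- the germs of the integrable functions which are continuous off a finite set -/
def UG : Submodule ℚ VG where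
  carrier := {v | ∃ φ : ℝ → ℝ, Integrable φ volume ∧ (∀ᶠ s in cofinite, ContinuousAt φ s) ∧
    v = (φ : VG)}
  zero_mem' := ⟨fun _ => 0, integrable_zero _ _ _, Eventually.of_forall fun s =>
    continuousAt_const, rfl⟩
  add_mem' := by
    rintro _ _ ⟨φ, h1, c1, rfl⟩ ⟨ψ, h2, c2, rfl⟩
    refine ⟨fun s => φ s + ψ s, h1.add h2, ?_, rfl⟩
    filter_upwards [c1, c2] with s a b using a.add b
  smul_mem' := by
    rintro q _ ⟨φ, h1, c1, rfl⟩
    refine ⟨fun s => (q : ℝ) * φ s, h1.const_mul _, ?_, vg_smul q φ⟩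
    filter_upwards [c1] with s a using continuousAt_const.mul a

lemma integral_congr_cof {φ ψ : ℝ → ℝ} (h : φ =ᶠ[cofinite] ψ) : ∫ s, φ s = ∫ s, ψ s := by
  refine integral_congr_ae ?_
  have : {s | φ s = ψ s}ᶜ.Finite := h
  exact this.measure_zero volume

/-- the integral on `UG` -/
noncomputable def IG : UG →ₗ[ℚ] ℝ where
  toFun v := ∫ s, (v.2.choose) s
  map_add' a b := by
    have ha := a.2.choose_spec
    have hb := b.2.choose_spec
    have hab := (a + b).2.choose_spec
    have e : (a + b).2.choose =ᶠ[cofinite] fun s => a.2.choose s + b.2.choose s := by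
      apply Germ.coe_eq.mp
      rw [← hab.2.2]
      have : ((a + b : UG) : VG) = (a : VG) + (b : VG) := rfl
      rw [this]
      conv_lhs => rw [ha.2.2, hb.2.2]
      rfl
    rw [integral_congr_cof e, integral_add ha.1 hb.1]
  map_smul' q a := by
    have ha := a.2.choose_spec
    have hqa := (q • a).2.choose_spec
    have e : (q • a).2.choose =ᶠ[cofinite] fun s => (q : ℝ) * a.2.choose s := by
      apply Germ.coe_eq.mp
      rw [← hqa.2.2, ← vg_smul, ← ha.2.2]
      rfl
    rw [integral_congr_cof e, integral_const_mul, RingHom.id_apply, Rat.smul_def]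

lemma IG_apply {φ : ℝ → ℝ} (v : UG) (hv : (v : VG) = (φ : VG)) : IG v = ∫ s, φ s := by
  refine integral_congr_cof ?_
  apply Germ.coe_eq.mp
  rw [← v.2.choose_spec.2.2, hv]

lemma IG_ker (v : UG) : IG v = 0 ↔ (v : VG) ∈ WG := by
  obtain ⟨h1, h2, h3⟩ := v.2.choose_spec
  constructor
  · intro h
    exact ⟨_, Ex.of_integral h1 h2 h, h3⟩
  · rintro ⟨ψ, hψ, e⟩
    rw [IG_apply v h3]
    have : v.2.choose =ᶠ[cofinite] ψ := Germ.coe_eq.mp (by rw [← h3, e])
    exact (hψ.congr this.symm).integral_eq_zero h1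

/-- the integral as a functional on the functions modulo exact functions -/
lemma exists_Lam : ∃ Λ : (VG ⧸ WG) →ₗ[ℚ] ℝ, ∀ v : UG, Λ (WG.mkQ v) = IG v := by
  set J : UG →ₗ[ℚ] (VG ⧸ WG) := WG.mkQ ∘ₗ UG.subtype with hJ
  have hker : LinearMap.ker J ≤ LinearMap.ker IG := by
    intro v hv
    rw [LinearMap.mem_ker] at hv ⊢
    rw [IG_ker]
    exact (Submodule.Quotient.mk_eq_zero _).mp hv
  set L0 : (UG ⧸ LinearMap.ker J) →ₗ[ℚ] ℝ := (LinearMap.ker J).liftQ IG hker with hL0
  set e := J.quotKerEquivRange with he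
  obtain ⟨Λ, hΛ⟩ := LinearMap.exists_extend (L0 ∘ₗ e.symm.toLinearMap)
  refine ⟨Λ, fun v => ?_⟩
  have h1 : WG.mkQ v = (LinearMap.range J).subtype (e (Submodule.Quotient.mk v)) := rfl
  rw [h1, ← LinearMap.comp_apply, hΛ, LinearMap.comp_apply]
  show L0 (e.symm (e _)) = _
  rw [LinearEquiv.symm_apply_apply]
  rfl

section span

variable {F : Type*} [Field F]

lemma hk_add_l (a b : B2 F) (u : FT F) : hk (a + b) u = hk a u + hk b u := by
  unfold hk; rw [TensorProduct.add_tmul]; rfl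

lemma hk_add_r (a : B2 F) (u v : FT F) : hk a (u + v) = hk a u + hk a v := by
  unfold hk; rw [TensorProduct.tmul_add]; rfl

lemma hk_smul_l (q : ℚ) (a : B2 F) (u : FT F) : hk (q • a) u = q • hk a u := by
  unfold hk; rw [← TensorProduct.smul_tmul']; rfl

lemma hk_smul_r (q : ℚ) (a : B2 F) (u : FT F) : hk a (q • u) = q • hk a u := by
  unfold hk; rw [TensorProduct.tmul_smul]; rfl

/-- the symbols `{f}₂ ⊗ g` span `H(F)` -/
lemma hk_span : Submodule.span ℚ {z : HK F | ∃ f g : F, f ≠ 0 ∧ f ≠ 1 ∧ g ≠ 0 ∧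
    z = hk (sy f) (lg g)} = ⊤ := by
  rw [eq_top_iff]
  rintro z -
  obtain ⟨t, rfl⟩ := Submodule.Quotient.mk_surjective _ z
  set S := Submodule.span ℚ {z : HK F | ∃ f g : F, f ≠ 0 ∧ f ≠ 1 ∧ g ≠ 0 ∧
    z = hk (sy f) (lg g)} with hS
  have h1 : ∀ (f : F) (u : FT F), f ≠ 0 → f ≠ 1 → hk (sy f) u ∈ S := by
    intro f u h0 h1
    induction u using TensorProduct.induction_on with
    | zero =>
      have : hk (sy f) (0 : FT F) = 0 := by
        have := hk_smul_r (0 : ℚ) (sy f) (0 : FT F)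
        rwa [zero_smul, zero_smul] at this
      rw [this]
      exact S.zero_mem
    | tmul q v =>
      have e : (q ⊗ₜ[ℤ] v : FT F) = q • lg ((v.toMul : Fˣ) : F) := by
        rw [lg_of_ne (Units.ne_zero _), TensorProduct.smul_tmul', smul_eq_mul, mul_one]
        congr 1
        simp
      rw [e, hk_smul_r]
      exact S.smul_mem _ (Submodule.subset_span ⟨f, _, h0, h1, Units.ne_zero _, rfl⟩)
    | add a b ha hb =>
      rw [hk_add_r]
      exact S.add_mem ha hb
  have h2 : ∀ (b : B2 F) (u : FT F), hk b u ∈ S := by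
    intro b u
    obtain ⟨c, rfl⟩ := Submodule.Quotient.mk_surjective _ b
    induction c using Finsupp.induction_linear with
    | zero =>
      have e : (Submodule.Quotient.mk (0 : F →₀ ℚ) : B2 F) = (0 : ℚ) • sy (0 : F) := by
        rw [zero_smul]; rfl
      rw [e, hk_smul_l, zero_smul]
      exact S.zero_mem
    | add a b ha hb =>
      rw [Submodule.Quotient.mk_add, hk_add_l]
      exact S.add_mem ha hb
    | single f q =>
      have e : (Submodule.Quotient.mk (Finsupp.single f q) : B2 F) = q • sy f := by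
        unfold sy
        rw [← Submodule.Quotient.mk_smul, Finsupp.smul_single, smul_eq_mul, mul_one]
      rw [e, hk_smul_l]
      by_cases h0 : f = 0
      · rw [h0, sy_zero]
        have : hk (0 : B2 F) u = 0 := by
          have := hk_smul_l (0 : ℚ) (0 : B2 F) u
          rwa [zero_smul, zero_smul] at this
        rw [this, smul_zero]
        exact S.zero_mem
      by_cases h1' : f = 1
      · rw [h1', sy_one]
        have : hk (0 : B2 F) u = 0 := by
          have := hk_smul_l (0 : ℚ) (0 : B2 F) u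
          rwa [zero_smul, zero_smul] at this
        rw [this, smul_zero]
        exact S.zero_mem
      exact S.smul_mem _ (h1 f u h0 h1')
  induction t using TensorProduct.induction_on with
  | zero => exact S.zero_mem
  | tmul b u => exact h2 b u
  | add a b ha hb => exact S.add_mem ha hb

end span

namespace RealF

variable {F : Type*} [Field F] (ρ : RealF F)

/-- the density of `{f}₂ ⊗ g` is integrable and continuous off a finite set -/
lemma dn_UG {f g : F} (h0 : f ≠ 0) (h1 : f ≠ 1) (hg : g ≠ 0) :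
    Integrable (dn (ρ.r f) (ρ.r g)) volume ∧
      ∀ᶠ s in cofinite, ContinuousAt (dn (ρ.r f) (ρ.r g)) s := by
  refine ⟨dn_integrable (ρ.mer f) (ρ.ne f h0) (ρ.ne_one h1) (ρ.mer g) (ρ.ne g hg), ?_⟩
  filter_upwards [(ρ.mer f).analytic, ρ.ne f h0, ρ.ne_one h1, (ρ.mer g).analytic, ρ.ne g hg]
    with s a b c d e using dn_contAt a b c d e

lemma dn_eq (f g : F) : dn (ρ.r f) (ρ.r g) =
    fun s => -(Rf (ρ.r f s)) * deriv (ρ.r f) s * Real.log (ρ.r g s) := by
  funext s
  unfold dn wf Rf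
  ring

lemma reg_dn {f g : F} (h0 : f ≠ 0) (h1 : f ≠ 1) (hg : g ≠ 0) :
    ρ.reg (hk (sy f) (lg g)) = WG.mkQ ((dn (ρ.r f) (ρ.r g) : ℝ → ℝ) : VG) := by
  rw [dn_eq]
  exact ρ.reg_sy h0 h1 hg (Eventually.of_forall fun _ => rfl) (Eventually.of_forall fun _ => rfl)

/-- every element of `H(F)` is represented by an integrable function -/
lemma reg_mem (z : HK F) : ∃ v : UG, ρ.reg z = WG.mkQ v := by
  have hz : z ∈ Submodule.span ℚ {z : HK F | ∃ f g : F, f ≠ 0 ∧ f ≠ 1 ∧ g ≠ 0 ∧
    z = hk (sy f) (lg g)} := by rw [hk_span]; exact Submodule.mem_top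
  induction hz using Submodule.span_induction with
  | mem z h =>
    obtain ⟨f, g, h0, h1, hg, rfl⟩ := h
    exact ⟨⟨_, _, (ρ.dn_UG h0 h1 hg).1, (ρ.dn_UG h0 h1 hg).2, rfl⟩, ρ.reg_dn h0 h1 hg⟩
  | zero => exact ⟨0, by rw [map_zero]; rfl⟩
  | add a b _ _ ha hb =>
    obtain ⟨v, hv⟩ := ha
    obtain ⟨w, hw⟩ := hb
    exact ⟨v + w, by rw [map_add, hv, hw, ← map_add]; rfl⟩
  | smul q a _ ha =>
    obtain ⟨v, hv⟩ := ha
    exact ⟨q • v, by rw [map_smul, hv, ← map_smul]; rfl⟩

/-- **The regulator as a linear functional.** -/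
theorem exists_Pi : ∃ P : HK F →ₗ[ℚ] ℝ,
    (∀ f g : F, f ≠ 0 → f ≠ 1 → g ≠ 0 → P (hk (sy f) (lg g)) = ∫ s, dn (ρ.r f) (ρ.r g) s) ∧
    ∀ z, P z = 0 ↔ ρ.reg z = 0 := by
  obtain ⟨Λ, hΛ⟩ := exists_Lam
  refine ⟨Λ ∘ₗ ρ.reg, fun f g h0 h1 hg => ?_, fun z => ⟨fun hz => ?_, fun hz => by
    rw [LinearMap.comp_apply, hz, map_zero]⟩⟩
  · rw [LinearMap.comp_apply, ρ.reg_dn h0 h1 hg]
    have h := ρ.dn_UG h0 h1 hg
    exact (hΛ ⟨_, _, h.1, h.2, rfl⟩).trans (IG_apply _ rfl)
  · obtain ⟨v, hv⟩ := ρ.reg_mem z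
    rw [LinearMap.comp_apply, hv, hΛ, IG_ker] at hz
    rw [hv]
    exact (Submodule.Quotient.mk_eq_zero _).mpr hz

end RealF

end Pool.Agent.K4N
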