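import Pool.Agent.Lib_helper2.K4N.Mer

set_option autoImplicit false

/-!
A parametrisation of the unbounded component of the real points of a Weierstrass curve.
-/

namespace Pool.Agent.K4N

open Filter Topology

/-- the square root is analytic at positive reals -/
lemma analyticAt_sqrt {a : ℝ} (ha : 0 < a) : AnalyticAt ℝ Real.sqrt a := by
  have h : AnalyticAt ℝ (fun x : ℝ => Real.exp (Real.log x / 2)) a :=
    ((analyticAt_log ha).div_const).rexp'
  refine h.congr ?_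
  filter_upwards [lt_mem_nhds ha] with x hx
  rw [Real.exp_half, Real.exp_log hx]

section

variable (a1 a2 a3 a4 a6 x0 α β : ℝ)

/-- the coordinate `x` -/
noncomputable def Xp (s : ℝ) : ℝ := x0 + s ^ 2

/-- the square root -/
noncomputable def Sp (s : ℝ) : ℝ := √(4 * Xp x0 s ^ 2 + α * Xp x0 s + β)

/-- the coordinate `y` -/
noncomputable def Yp (s : ℝ) : ℝ := (s * Sp x0 α β s - a1 * Xp x0 s - a3) / 2

variable (hP : ∀ x : ℝ, 4 * x ^ 3 + (a1 ^ 2 + 4 * a2) * x ^ 2 + 2 * (2 * a4 + a1 * a3) * x +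
    (a3 ^ 2 + 4 * a6) = (x - x0) * (4 * x ^ 2 + α * x + β))
  (hq : ∀ x : ℝ, x0 ≤ x → 0 < 4 * x ^ 2 + α * x + β)

include hq

lemma qpos (s : ℝ) : 0 < 4 * Xp x0 s ^ 2 + α * Xp x0 s + β :=
  hq _ (by unfold Xp; nlinarith [sq_nonneg s])

lemma Sp_pos (s : ℝ) : 0 < Sp x0 α β s := Real.sqrt_pos.mpr (qpos x0 α β hq s)

lemma Sp_sq (s : ℝ) : Sp x0 α β s ^ 2 = 4 * Xp x0 s ^ 2 + α * Xp x0 s + β :=
  Real.sq_sqrt (qpos x0 α β hq s).le

omit hq in
lemma Yp_psi (s : ℝ) : 2 * Yp a1 a3 x0 α β s + a1 * Xp x0 s + a3 = s * Sp x0 α β s := by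
  unfold Yp; ring

include hP in
lemma Yp_eqn (s : ℝ) : Yp a1 a3 x0 α β s ^ 2 + a1 * Xp x0 s * Yp a1 a3 x0 α β s +
    a3 * Yp a1 a3 x0 α β s = Xp x0 s ^ 3 + a2 * Xp x0 s ^ 2 + a4 * Xp x0 s + a6 := by
  have h1 := Yp_psi a1 a3 x0 α β s
  have h2 := Sp_sq x0 α β hq s
  have h3 := hP (Xp x0 s)
  have h4 : Xp x0 s - x0 = s ^ 2 := by unfold Xp; ring
  rw [h4, ← h2] at h3
  have h5 : (2 * Yp a1 a3 x0 α β s + a1 * Xp x0 s + a3) ^ 2 = s ^ 2 * Sp x0 α β s ^ 2 := by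
    rw [h1]; ring
  linear_combination (1 / 4) * h5 - (1 / 4) * h3

omit hq in
lemma Xp_deriv (s : ℝ) : HasDerivAt (Xp x0) (2 * s) s := by
  have := ((hasDerivAt_id s).pow 2).const_add x0
  refine this.congr_deriv ?_
  simp

lemma Sp_deriv (s : ℝ) : HasDerivAt (Sp x0 α β) ((8 * Xp x0 s + α) * s / Sp x0 α β s) s := by
  have h1 := Xp_deriv x0 s
  have h2 : HasDerivAt (fun t => 4 * Xp x0 t ^ 2 + α * Xp x0 t + β)
      (4 * (2 * Xp x0 s * (2 * s)) + α * (2 * s)) s := by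
    have := (((h1.pow 2).const_mul 4).add (h1.const_mul α)).add_const β
    refine this.congr_deriv ?_
    simp
  have h3 := h2.sqrt (qpos x0 α β hq s).ne'
  have h4 : √(4 * Xp x0 s ^ 2 + α * Xp x0 s + β) ≠ 0 := (Sp_pos x0 α β hq s).ne'
  refine h3.congr_deriv ?_
  unfold Sp
  field_simp
  ring

/-- the positive function `dx / (2y + a₁x + a₃) / ds` -/
noncomputable def cp (s : ℝ) : ℝ := 2 / Sp x0 α β s

lemma cp_pos (s : ℝ) : 0 < cp x0 α β s := div_pos two_pos (Sp_pos x0 α β hq s)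

lemma Xp_deriv' (s : ℝ) : HasDerivAt (Xp x0)
    ((2 * Yp a1 a3 x0 α β s + a1 * Xp x0 s + a3) * cp x0 α β s) s := by
  refine (Xp_deriv x0 s).congr_deriv ?_
  have h4 : Sp x0 α β s ≠ 0 := (Sp_pos x0 α β hq s).ne'
  rw [Yp_psi a1 a3 x0 α β, cp]
  field_simp

include hP in
lemma Yp_deriv' (s : ℝ) : HasDerivAt (Yp a1 a3 x0 α β)
    ((3 * Xp x0 s ^ 2 + 2 * a2 * Xp x0 s + a4 - a1 * Yp a1 a3 x0 α β s) * cp x0 α β s) s := by
  have h4 : Sp x0 α β s ≠ 0 := (Sp_pos x0 α β hq s).ne'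
  have h1 : HasDerivAt (fun t => (t * Sp x0 α β t - a1 * Xp x0 t - a3) / 2)
      ((1 * Sp x0 α β s + s * ((8 * Xp x0 s + α) * s / Sp x0 α β s) - a1 * (2 * s)) / 2) s :=
    (((((hasDerivAt_id s).mul (Sp_deriv x0 α β hq s)).sub
      ((Xp_deriv x0 s).const_mul a1)).sub_const a3).div_const 2)
  refine h1.congr_deriv ?_
  have h5 := Sp_sq x0 α β hq s
  have h6 : Xp x0 s = x0 + s ^ 2 := rfl
  have h7 := Yp_psi a1 a3 x0 α β s
  -- the derivative of the polynomial identity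
  have hd : 12 * Xp x0 s ^ 2 + 2 * (a1 ^ 2 + 4 * a2) * Xp x0 s + 2 * (2 * a4 + a1 * a3) =
      (4 * Xp x0 s ^ 2 + α * Xp x0 s + β) + (Xp x0 s - x0) * (8 * Xp x0 s + α) := by
    have p0 := hP 0
    have p1 := hP 1
    have p2 := hP (-1)
    have b2 : a1 ^ 2 + 4 * a2 = α - 4 * x0 := by linear_combination (p1 + p2) / 2 - p0
    have b4 : 2 * (2 * a4 + a1 * a3) = β - α * x0 := by linear_combination (p1 - p2) / 2
    linear_combination 2 * Xp x0 s * b2 + b4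
  have key : Sp x0 α β s ^ 2 + s ^ 2 * (8 * Xp x0 s + α) - 2 * a1 * (s * Sp x0 α β s) =
      4 * (3 * Xp x0 s ^ 2 + 2 * a2 * Xp x0 s + a4 - a1 * Yp a1 a3 x0 α β s) := by
    rw [h5, ← h7]
    have h8 : s ^ 2 = Xp x0 s - x0 := by rw [h6]; ring
    rw [h8]
    linear_combination -hd
  have e1 : (1 * Sp x0 α β s + s * ((8 * Xp x0 s + α) * s / Sp x0 α β s) - a1 * (2 * s)) / 2 =
      (Sp x0 α β s ^ 2 + s ^ 2 * (8 * Xp x0 s + α) - 2 * a1 * (s * Sp x0 α β s)) /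
        (2 * Sp x0 α β s) := by
    field_simp
  rw [e1, key, cp]
  field_simp
  ring

omit hq in
lemma Xp_mer : Mer (Xp x0) := (Mer.const x0).add (Mer.id.pow 2)

lemma Sp_mer : Mer (Sp x0 α β) := by
  refine ⟨fun s => ?_, ?_⟩
  · have h1 : AnalyticAt ℝ (fun t => 4 * Xp x0 t ^ 2 + α * Xp x0 t + β) s := by
      unfold Xp
      fun_prop
    exact (AnalyticAt.fun_comp (f := fun t => 4 * Xp x0 t ^ 2 + α * Xp x0 t + β)
      (analyticAt_sqrt (qpos x0 α β hq s)) h1).meromorphicAt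
  · set Q : ℝ → ℝ := fun w => 4 * (x0 * w ^ 2 + 1) ^ 2 + α * w ^ 2 * (x0 * w ^ 2 + 1) + β * w ^ 4
      with hQ
    have hQ0 : 0 < Q 0 := by simp [hQ]
    have h1 : AnalyticAt ℝ Q 0 := by
      rw [hQ]
      fun_prop
    have h2 : MeromorphicAt (fun w => √(Q w)) 0 := ((analyticAt_sqrt hQ0).comp h1).meromorphicAt
    have h3 : MeromorphicAt (fun w : ℝ => (w⁻¹) ^ 2 * √(Q w)) 0 :=
      ((MeromorphicAt.id 0).inv.pow 2).mul h2
    refine h3.congr ?_
    filter_upwards [self_mem_nhdsWithin] with w hw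
    have hw0 : w ≠ 0 := hw
    have h4 : 0 ≤ (w⁻¹) ^ 2 := sq_nonneg _
    rw [← Real.sqrt_sq h4, ← Real.sqrt_mul (sq_nonneg _)]
    unfold Sp Xp
    congr 1
    rw [hQ]
    field_simp

lemma Yp_mer : Mer (Yp a1 a3 x0 α β) := by
  have h1 := (Mer.id.mul (Sp_mer x0 α β hq)).add
    (((Xp_mer x0).mul (Mer.const (-a1))).add (Mer.const (-a3)))
  have h2 := h1.mul (Mer.const (1 / 2))
  refine ⟨fun s => (h2.1 s).congr ?_, h2.2.congr ?_⟩
  · refine Eventually.of_forall fun t => ?_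
    simp only [Yp]
    ring
  · refine Eventually.of_forall fun t => ?_
    simp only [Yp]
    ring

omit hq in
lemma Xp_fin (a : ℝ) : ∀ᶠ s in cofinite, Xp x0 s ≠ a := by
  have hfin : {s : ℝ | s ^ 2 = a - x0}.Finite := by
    rcases lt_or_ge (a - x0) 0 with h | h
    · convert Set.finite_empty
      ext s
      simp only [Set.mem_ofPred_eq, Set.mem_empty_iff_false, iff_false]
      intro hs
      have := sq_nonneg s
      rw [hs] at this
      exact absurd this (not_le.mpr h)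
    · refine Set.Finite.subset ((Set.finite_singleton (√(a - x0))).insert (-√(a - x0))) ?_
      intro s hs
      have hs' : s ^ 2 = √(a - x0) ^ 2 := by rw [Real.sq_sqrt h]; exact hs
      rcases sq_eq_sq_iff_eq_or_eq_neg.mp hs' with h | h
      · right; exact h
      · left; exact h
  refine hfin.subset ?_
  intro s hs
  have : Xp x0 s = a := not_not.mp hs
  show s ^ 2 = a - x0
  rw [← this]
  unfold Xp
  ring

end

end Pool.Agent.K4N
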