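import Pool.Agent.Lib_helper2.K4N.Reg
import Pool.Agent.Lib_helper24.TN.B

set_option autoImplicit false

/-!
The field of functions of a Weierstrass curve as a field of meromorphic functions on a circle.
-/

namespace Pool.Agent.K4N

open Filter Topology Polynomial Pool.Agent.TN WeierstrassCurve.Affine

lemma Mer.eval₂ {k : Type*} [Field k] (φ : k →+* ℝ) {X : ℝ → ℝ} (hX : Mer X) (p : k[X]) :
    Mer (fun s => p.eval₂ φ (X s)) := by
  induction p using Polynomial.induction_on' with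
  | add p q hp hq =>
    simp only [eval₂_add]
    exact hp.add hq
  | monomial n a =>
    simp only [eval₂_monomial]
    exact (Mer.const _).mul (hX.pow n)

lemma isUnit_vg {ψ : ℝ → ℝ} (h : ∀ᶠ s in cofinite, ψ s ≠ 0) : IsUnit (ψ : VG) := by
  refine IsUnit.of_mul_eq_one ((fun s => (ψ s)⁻¹ : ℝ → ℝ) : VG) ?_
  rw [← Germ.coe_mul]
  refine Germ.coe_eq.mpr ?_
  filter_upwards [h] with s hs
  exact mul_inv_cancel₀ hs

/-- the constants -/
noncomputable def i1 {k : Type*} [Field k] (φ : k →+* ℝ) : k →+* VG :=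
  (Germ.coeRingHom (cofinite : Filter ℝ)).comp ((Pi.constRingHom ℝ ℝ).comp φ)

lemma i1_apply {k : Type*} [Field k] (φ : k →+* ℝ) (c : k) :
    i1 φ c = ((fun _ => φ c : ℝ → ℝ) : VG) := rfl

lemma eval₂_vg {k : Type*} [Field k] (φ : k →+* ℝ) (X : ℝ → ℝ) (p : k[X]) :
    p.eval₂ (i1 φ) (X : VG) = ((fun s => p.eval₂ φ (X s) : ℝ → ℝ) : VG) := by
  have h1 := Polynomial.hom_eval₂ p ((Pi.constRingHom ℝ ℝ).comp φ)
    (Germ.coeRingHom (cofinite : Filter ℝ)) X
  have h2 : p.eval₂ ((Pi.constRingHom ℝ ℝ).comp φ) X = fun s => p.eval₂ φ (X s) := by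
    funext s
    exact Polynomial.hom_eval₂ p ((Pi.constRingHom ℝ ℝ).comp φ) (Pi.evalRingHom (fun _ => ℝ) s) X
  rw [h2] at h1
  exact h1.symm

section

variable {k F : Type*} [Field k] [Field F] [Algebra k F] {W : WeierstrassCurve.Affine k}
  (φ : k →+* ℝ) {X Y : ℝ → ℝ}

lemma eqn_vg (hXY : ∀ s, Eqn W φ (X s) (Y s)) : Eqn W (i1 φ) (X : VG) (Y : VG) := by
  unfold Eqn
  simp only [i1_apply, ← Germ.coe_mul, ← Germ.coe_pow, ← Germ.coe_add]
  congr 1
  funext s
  exact hXY s

/-- nonzero functions are units -/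
lemma unit_homR (hXY : ∀ s, Eqn W φ (X s) (Y s)) (hfin : ∀ a : ℝ, ∀ᶠ s in cofinite, X s ≠ a)
    {r : W.CoordinateRing} (hr : r ≠ 0) :
    IsUnit (homR (i1 φ) (X : VG) (Y : VG) (eqn_vg φ hXY) r) := by
  obtain ⟨p, q, rfl⟩ := CoordinateRing.exists_smul_basis_eq r
  set N := Algebra.norm k[X] (p • (1 : W.CoordinateRing) + q • CoordinateRing.mk W Polynomial.X) with hN
  have hN0 : N ≠ 0 := by
    intro h
    apply hr
    apply D_eq_bot.mp
    unfold D
    rw [← hN, h, degree_zero]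
  have hNe : N.eval₂ (i1 φ) (X : VG) =
      (p.eval₂ (i1 φ) (X : VG) + q.eval₂ (i1 φ) (X : VG) * (Y : VG)) *
      (p.eval₂ (i1 φ) (X : VG) - q.eval₂ (i1 φ) (X : VG) * (Y : VG) -
        q.eval₂ (i1 φ) (X : VG) * (i1 φ W.a₁ * (X : VG) + i1 φ W.a₃)) := by
    have h := eqn_vg φ hXY
    unfold Eqn at h
    rw [hN, CoordinateRing.norm_smul_basis]
    simp only [eval₂_sub, eval₂_add, eval₂_mul, eval₂_pow, eval₂_X, eval₂_C]
    linear_combination (q.eval₂ (i1 φ) (X : VG)) ^ 2 * h
  have hu : IsUnit (N.eval₂ (i1 φ) (X : VG)) := by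
    rw [eval₂_vg]
    apply isUnit_vg
    have hN1 : N.map φ ≠ 0 := (Polynomial.map_ne_zero_iff φ.injective).mpr hN0
    have h1 : ∀ a ∈ (N.map φ).roots.toFinset, ∀ᶠ s in cofinite, X s ≠ a := fun a _ => hfin a
    have h2 := ((N.map φ).roots.toFinset.eventually_all).mpr h1
    filter_upwards [h2] with s hs h0
    refine hs (X s) ?_ rfl
    rw [Multiset.mem_toFinset, mem_roots hN1, IsRoot.def, eval_map]
    exact h0
  rw [homR_basis]
  rw [hNe] at hu
  exact isUnit_of_mul_isUnit_left hu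

lemma mer_homR (mX : Mer X) (mY : Mer Y) (hXY : ∀ s, Eqn W φ (X s) (Y s))
    (r : W.CoordinateRing) :
    ∃ ψ : ℝ → ℝ, Mer ψ ∧ homR (i1 φ) (X : VG) (Y : VG) (eqn_vg φ hXY) r = (ψ : VG) := by
  obtain ⟨p, q, rfl⟩ := CoordinateRing.exists_smul_basis_eq r
  refine ⟨_, (mX.eval₂ φ p).add ((mX.eval₂ φ q).mul mY), ?_⟩
  rw [homR_basis, eval₂_vg, eval₂_vg, ← Germ.coe_mul, ← Germ.coe_add]
  rfl

variable {x y : F}

/-- **The function field of a Weierstrass curve is a field of meromorphic functions on every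
circle of real points.** -/
theorem exists_real (hE : Eqn W (algebraMap k F) x y) (hx : Transcendental k x)
    (htop : IntermediateField.adjoin k {x, y} = ⊤) (mX : Mer X) (mY : Mer Y)
    (hXY : ∀ s, Eqn W φ (X s) (Y s)) (hfin : ∀ a : ℝ, ∀ᶠ s in cofinite, X s ≠ a) :
    ∃ (R : F →+* VG) (ρ : RealF F), (∀ f, R f = (ρ.r f : VG)) ∧ R x = (X : VG) ∧
      R y = (Y : VG) ∧ ∀ c : k, R (algebraMap k F c) = ((fun _ => φ c : ℝ → ℝ) : VG) := by
  have hinj : Function.Injective (homR (W := W) (algebraMap k F) x y hE) := by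
    apply homR_injective
    intro p hp
    by_contra h0
    exact hx ⟨p, h0, hp⟩
  let _ : Algebra W.CoordinateRing F := (homR (W := W) (algebraMap k F) x y hE).toAlgebra
  have hal : ∀ r : W.CoordinateRing, algebraMap W.CoordinateRing F r =
      homR (W := W) (algebraMap k F) x y hE r := fun _ => rfl
  have : FaithfulSMul W.CoordinateRing F :=
    (faithfulSMul_iff_algebraMap_injective _ _).mpr hinj
  have hadj : ∀ z ∈ Algebra.adjoin k ({x, y} : Set F), ∃ r : W.CoordinateRing,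
      algebraMap W.CoordinateRing F r = z := by
    intro z hz
    induction hz using Algebra.adjoin_induction with
    | mem z hz =>
      rcases hz with rfl | hz
      · exact ⟨xR, homR_x _ _ _ _⟩
      · rw [Set.mem_singleton_iff] at hz
        subst hz
        exact ⟨yR, homR_y _ _ _ _⟩
    | algebraMap c => exact ⟨cR c, homR_c _ _ _ _ _⟩
    | add a b _ _ ha hb =>
      obtain ⟨r, rfl⟩ := ha
      obtain ⟨s, rfl⟩ := hb
      exact ⟨r + s, map_add _ _ _⟩
    | mul a b _ _ ha hb =>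
      obtain ⟨r, rfl⟩ := ha
      obtain ⟨s, rfl⟩ := hb
      exact ⟨r * s, map_mul _ _ _⟩
  have : IsFractionRing W.CoordinateRing F := by
    refine IsFractionRing.of_field _ _ fun z => ?_
    have hz : z ∈ IntermediateField.adjoin k ({x, y} : Set F) := by
      rw [htop]; exact IntermediateField.mem_top
    obtain ⟨r, hr, s, hs, e⟩ := IntermediateField.mem_adjoin_iff_div.mp hz
    obtain ⟨a, rfl⟩ := hadj r hr
    obtain ⟨b, rfl⟩ := hadj s hs
    exact ⟨a, b, e⟩
  set g := homR (i1 φ) (X : VG) (Y : VG) (eqn_vg φ hXY) with hg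
  have hgu : ∀ r : nonZeroDivisors W.CoordinateRing, IsUnit (g r) := fun r =>
    unit_homR φ hXY hfin (nonZeroDivisors.ne_zero r.2)
  let R : F →+* VG := IsLocalization.lift hgu
  have hRg : ∀ r : W.CoordinateRing, R (algebraMap W.CoordinateRing F r) = g r := fun r =>
    IsLocalization.lift_eq hgu r
  have hmer : ∀ f : F, ∃ ψ : ℝ → ℝ, Mer ψ ∧ R f = (ψ : VG) := by
    intro f
    obtain ⟨a, b, hb, rfl⟩ := IsFractionRing.div_surjective (A := W.CoordinateRing) f
    have hb0 : b ≠ 0 := nonZeroDivisors.ne_zero hb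
    obtain ⟨A, mA, hA⟩ := mer_homR φ mX mY hXY a
    obtain ⟨B, mB, hB⟩ := mer_homR φ mX mY hXY b
    have hbF : algebraMap W.CoordinateRing F b ≠ 0 := fun h => hb0 (hinj (by
      rw [map_zero]; exact h))
    have h1 : R (algebraMap W.CoordinateRing F b) * R (algebraMap W.CoordinateRing F b)⁻¹ = 1 := by
      rw [← map_mul, mul_inv_cancel₀ hbF, map_one]
    have hA' : R (algebraMap W.CoordinateRing F a) = (A : VG) := (hRg a).trans hA
    have hB' : R (algebraMap W.CoordinateRing F b) = (B : VG) := (hRg b).trans hB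
    have hv : R (algebraMap W.CoordinateRing F b)⁻¹ = ((fun s => (B s)⁻¹ : ℝ → ℝ) : VG) := by
      rw [hB'] at h1
      induction hc : R (algebraMap W.CoordinateRing F b)⁻¹ using Germ.inductionOn with
      | _ χ =>
        rw [hc, ← Germ.coe_mul] at h1
        have h2 := Germ.coe_eq.mp h1
        refine Germ.coe_eq.mpr ?_
        filter_upwards [h2] with s hs
        exact eq_inv_of_mul_eq_one_right hs
    refine ⟨fun s => A s * (B s)⁻¹, mA.mul mB.inv, ?_⟩
    rw [div_eq_mul_inv, map_mul, hA', hv, ← Germ.coe_mul]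
    rfl
  choose r hr using hmer
  refine ⟨R, ⟨r, fun f => (hr f).1, ?_, ?_, ?_⟩, fun f => (hr f).2, ?_, ?_, ?_⟩
  · intro f g
    have := map_mul R f g
    rw [(hr f).2, (hr g).2, (hr (f * g)).2, ← Germ.coe_mul] at this
    exact Germ.coe_eq.mp this
  · intro f
    have := map_sub R 1 f
    rw [map_one, (hr f).2, (hr (1 - f)).2, ← Germ.coe_one, ← Germ.coe_sub] at this
    exact Germ.coe_eq.mp this
  · intro f hf
    have := map_mul R f f⁻¹
    rw [mul_inv_cancel₀ hf, map_one, (hr f).2, (hr f⁻¹).2, ← Germ.coe_mul] at this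
    filter_upwards [Germ.coe_eq.mp this] with s hs h0
    simp only [Pi.mul_apply, Pi.one_apply] at hs
    rw [h0, zero_mul] at hs
    exact one_ne_zero hs
  · have h1 : algebraMap W.CoordinateRing F xR = x := homR_x _ _ _ _
    rw [← h1, hRg]
    exact homR_x _ _ _ _
  · have h1 : algebraMap W.CoordinateRing F yR = y := homR_y _ _ _ _
    rw [← h1, hRg]
    exact homR_y _ _ _ _
  · intro c
    have h1 : algebraMap W.CoordinateRing F (cR c) = algebraMap k F c := homR_c _ _ _ _ _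
    rw [← h1, hRg]
    exact homR_c _ _ _ _ _

end

end Pool.Agent.K4N
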