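import Pool.Agent.Lib_helper2.K4N.Za
import Pool.Agent.Lib_helper2.K4N.RF
import Pool.Agent.Lib_helper2.K4N.Par

set_option autoImplicit false

/-!
The nonvanishing of the class on `X₁(11)`.
-/

namespace Pool.Agent.K4N

open Filter Topology Pool.Agent.K4C
open scoped TensorProduct

section rep

variable {F : Type*} [Field F] {R : F →+* VG} {ρ : RealF F} (h : ∀ f, R f = (ρ.r f : VG))

include h

lemma rep_of {f : F} {ψ : ℝ → ℝ} (hf : R f = (ψ : VG)) : ∀ᶠ s in cofinite, ρ.r f s = ψ s := by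
  rw [h f] at hf
  exact Germ.coe_eq.mp hf

lemma of_rep {f : F} {ψ : ℝ → ℝ} (hf : ∀ᶠ s in cofinite, ρ.r f s = ψ s) : R f = (ψ : VG) := by
  rw [h f]
  exact Germ.coe_eq.mpr hf

lemma R_inv {f : F} {ψ : ℝ → ℝ} (hf : R f = (ψ : VG)) :
    R f⁻¹ = ((fun s => (ψ s)⁻¹ : ℝ → ℝ) : VG) := by
  by_cases h0 : f = 0
  · subst h0
    rw [map_zero] at hf
    rw [inv_zero, map_zero]
    have h1 := Germ.coe_eq.mp hf
    refine Germ.coe_eq.mpr ?_
    filter_upwards [h1] with s hs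
    rw [← hs]
    simp
  · have h1 : R f * R f⁻¹ = 1 := by rw [← map_mul, mul_inv_cancel₀ h0, map_one]
    rw [hf, h f⁻¹, ← Germ.coe_mul] at h1
    rw [h f⁻¹]
    have h2 := Germ.coe_eq.mp h1
    refine Germ.coe_eq.mpr ?_
    filter_upwards [h2] with s hs
    exact eq_inv_of_mul_eq_one_right hs

lemma R_div {f g : F} {ψ χ : ℝ → ℝ} (hf : R f = (ψ : VG)) (hg : R g = (χ : VG)) :
    R (f / g) = ((fun s => ψ s / χ s : ℝ → ℝ) : VG) := by
  rw [div_eq_mul_inv, map_mul, hf, R_inv h hg, ← Germ.coe_mul]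
  congr 1
  
omit h in
lemma R_mul {f g : F} {ψ χ : ℝ → ℝ} (hf : R f = (ψ : VG)) (hg : R g = (χ : VG)) :
    R (f * g) = ((fun s => ψ s * χ s : ℝ → ℝ) : VG) := by
  rw [map_mul, hf, hg, ← Germ.coe_mul]
  rfl

omit h in
lemma R_add {f g : F} {ψ χ : ℝ → ℝ} (hf : R f = (ψ : VG)) (hg : R g = (χ : VG)) :
    R (f + g) = ((fun s => ψ s + χ s : ℝ → ℝ) : VG) := by
  rw [map_add, hf, hg, ← Germ.coe_add]
  rfl

omit h in
lemma R_neg {f : F} {ψ : ℝ → ℝ} (hf : R f = (ψ : VG)) :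
    R (-f) = ((fun s => -ψ s : ℝ → ℝ) : VG) := by
  rw [map_neg, hf, ← Germ.coe_neg]
  rfl

omit h in
lemma R_sub_one {f : F} {ψ : ℝ → ℝ} (hf : R f = (ψ : VG)) :
    R (f - 1) = ((fun s => ψ s - 1 : ℝ → ℝ) : VG) := by
  rw [map_sub, hf, map_one, ← Germ.coe_one, ← Germ.coe_sub]
  rfl

omit h in
lemma R_pow {f : F} {ψ : ℝ → ℝ} (hf : R f = (ψ : VG)) (n : ℕ) :
    R (f ^ n) = ((fun s => ψ s ^ n : ℝ → ℝ) : VG) := by
  rw [map_pow, hf, ← Germ.coe_pow]
  rfl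

lemma R_tx {x y : F} {X Y : ℝ → ℝ} (hx : R x = (X : VG)) (hy : R y = (Y : VG)) (i : Fin 5) :
    R (tx x y i) = ((fun s => tx (X s) (Y s) i : ℝ → ℝ) : VG) := by
  fin_cases i
  · exact hx
  · exact R_div h (R_neg hy) (R_pow hx 2)
  · exact R_div h (R_mul hx (R_add hx hy)) (R_mul (R_sub_one hx) hy)
  · exact R_div h hy (R_add hx hy)
  · exact R_div h (R_sub_one hx) hy

end rep

section pos

variable {X Y : ℝ} (hE : Y ^ 2 + Y = X ^ 3 - X ^ 2) (hx : X ≠ 0) (hx1 : X - 1 ≠ 0) (hy : Y ≠ 0)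
  (hxy : X + Y ≠ 0)

include hE hx hx1 hy hxy

/-- the summands are not negative -/
lemma term_nonneg {c : ℝ} (hc : 0 < c) (i : Fin 5) :
    0 ≤ -(Rf (tx X Y i)) * (c * (tx X Y i ^ 2 * (tx X Y (i - 1) - tx X Y (i + 1)))) *
      Real.log (tx X Y (i + 1) / tx X Y (i - 1)) ∧
    (tx X Y (i - 1) ≠ tx X Y (i + 1) →
    0 < -(Rf (tx X Y i)) * (c * (tx X Y i ^ 2 * (tx X Y (i - 1) - tx X Y (i + 1)))) *
      Real.log (tx X Y (i + 1) / tx X Y (i - 1))) := by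
  have h := tx_ne hx hx1 hy hxy
  have h2 := tx_I2 hE hx hx1 hy hxy i
  have hR := Rf_pos (h i) (tx_ne_one hE hx hx1 hy hxy i)
  have hsq : 0 < tx X Y i ^ 2 := by
    have := h i
    positivity
  have hab : 0 < tx X Y (i - 1) + tx X Y (i + 1) := by
    by_contra hh
    push Not at hh
    have : tx X Y i ^ 2 * (tx X Y (i - 1) + tx X Y (i + 1)) ≤ 0 :=
      mul_nonpos_of_nonneg_of_nonpos hsq.le hh
    rw [h2] at this
    exact absurd this (by norm_num)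
  have h3 := log_diff_nonneg (h (i - 1)) (h (i + 1)) hab
  have e : -(Rf (tx X Y i)) * (c * (tx X Y i ^ 2 * (tx X Y (i - 1) - tx X Y (i + 1)))) *
      Real.log (tx X Y (i + 1) / tx X Y (i - 1)) =
      (Rf (tx X Y i) * c * tx X Y i ^ 2) * ((tx X Y (i - 1) - tx X Y (i + 1)) *
        (Real.log (tx X Y (i - 1)) - Real.log (tx X Y (i + 1)))) := by
    rw [Real.log_div (h _) (h _)]
    ring
  rw [e]
  have hp : 0 < Rf (tx X Y i) * c * tx X Y i ^ 2 := by positivity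
  exact ⟨mul_nonneg hp.le h3.1, fun hne => mul_pos hp (h3.2 hne)⟩

end pos

/-- a real root of `4x³ - 4x² + 1` -/
lemma exists_root : ∃ x0 : ℝ, 4 * x0 ^ 3 - 4 * x0 ^ 2 + 1 = 0 ∧ x0 < -1 / 3 := by
  have hc : ContinuousOn (fun x : ℝ => 4 * x ^ 3 - 4 * x ^ 2 + 1) (Set.Icc (-1 / 2) (-1 / 3)) := by
    fun_prop
  have h := intermediate_value_Icc (by norm_num : (-1 / 2 : ℝ) ≤ -1 / 3) hc
  have h0 : (0 : ℝ) ∈ Set.Icc ((fun x : ℝ => 4 * x ^ 3 - 4 * x ^ 2 + 1) (-1 / 2))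
      ((fun x : ℝ => 4 * x ^ 3 - 4 * x ^ 2 + 1) (-1 / 3)) := by
    constructor <;> norm_num
  obtain ⟨x0, hx0, hx1⟩ := h h0
  refine ⟨x0, hx1, lt_of_le_of_ne hx0.2 ?_⟩
  rintro rfl
  norm_num at hx1

/-- the real points of `y² + y = x³ - x²` -/
lemma exists_circle : ∃ X Y c : ℝ → ℝ, Mer X ∧ Mer Y ∧
    (∀ s, Y s ^ 2 + Y s = X s ^ 3 - X s ^ 2) ∧ (∀ a, ∀ᶠ s in cofinite, X s ≠ a) ∧
    (∀ s, 0 < c s) ∧ (∀ s, HasDerivAt X ((2 * Y s + 1) * c s) s) ∧
    (∀ s, HasDerivAt Y ((3 * X s ^ 2 - 2 * X s) * c s) s) ∧ ∀ s, s ≠ 0 → 2 * Y s + 1 ≠ 0 := by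
  obtain ⟨x0, h0, h1⟩ := exists_root
  have hP : ∀ x : ℝ, 4 * x ^ 3 + ((0 : ℝ) ^ 2 + 4 * (-1)) * x ^ 2 + 2 * (2 * 0 + 0 * 1) * x +
      (1 ^ 2 + 4 * 0) = (x - x0) * (4 * x ^ 2 + (4 * (x0 - 1)) * x + 4 * (x0 ^ 2 - x0)) := by
    intro x
    linear_combination h0
  have hq : ∀ x : ℝ, x0 ≤ x → 0 < 4 * x ^ 2 + (4 * (x0 - 1)) * x + 4 * (x0 ^ 2 - x0) := by
    intro x _
    have e : 4 * x ^ 2 + (4 * (x0 - 1)) * x + 4 * (x0 ^ 2 - x0) =
        (2 * x + (x0 - 1)) ^ 2 + (-(3 * x0 + 1)) * (1 - x0) := by ring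
    rw [e]
    have h3 : 0 < (-(3 * x0 + 1)) * (1 - x0) := mul_pos (by linarith) (by linarith)
    have h4 := sq_nonneg (2 * x + (x0 - 1))
    linarith
  refine ⟨Xp x0, Yp 0 1 x0 _ _, cp x0 _ _, Xp_mer x0, Yp_mer 0 1 x0 _ _ hq, ?_, Xp_fin x0,
    cp_pos x0 _ _ hq, ?_, ?_, ?_⟩
  · intro s
    have := Yp_eqn 0 (-1) 1 0 0 x0 _ _ hP hq s
    linear_combination this
  · intro s
    refine (Xp_deriv' 0 1 x0 _ _ hq s).congr_deriv ?_
    ring
  · intro s
    refine (Yp_deriv' 0 (-1) 1 0 0 x0 _ _ hP hq s).congr_deriv ?_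
    ring
  · intro s hs h
    have h5 := Yp_psi 0 1 x0 (4 * (x0 - 1)) (4 * (x0 ^ 2 - x0)) s
    have h6 := (Sp_pos x0 _ _ hq s).ne'
    have h7 : s * Sp x0 (4 * (x0 - 1)) (4 * (x0 ^ 2 - x0)) s = 0 := by
      rw [← h5]
      linear_combination h
    rcases mul_eq_zero.mp h7 with h8 | h8
    · exact hs h8
    · exact h6 h8

section final

variable {k F : Type*} [Field k] [Field F] [Algebra k F] {x y : F}

/-- **The closed element `za` is not in the span of the `{c} ⊗ u`.** -/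
theorem za_not_mem (φ : k →+* ℝ) (hE : y ^ 2 + y = x ^ 3 - x ^ 2) (hx : Transcendental k x)
    (htop : IntermediateField.adjoin k {x, y} = ⊤) :
    za x y ∉ Submodule.span ℚ {z : K4M.HK F | ∃ (c : k) (u : K4M.FT F),
      z = K4M.hk (K4M.sy (algebraMap k F c)) u} := by
  have h0 := x_ne hx
  have h1 := x1_ne hx
  have h2 := y_ne hE hx
  have h3 := xy_ne hE hx
  obtain ⟨X, Y, c, mX, mY, hXY, hfin, hc, hX, hY, hpsi⟩ := exists_circle
  let W : WeierstrassCurve.Affine k := ⟨0, -1, 1, 0, 0⟩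
  have hEF : TN.Eqn W (algebraMap k F) x y := by
    show y ^ 2 + algebraMap k F 0 * x * y + algebraMap k F 1 * y =
      x ^ 3 + algebraMap k F (-1) * x ^ 2 + algebraMap k F 0 * x + algebraMap k F 0
    simp only [map_zero, map_one, map_neg]
    linear_combination hE
  have hER : ∀ s, TN.Eqn W φ (X s) (Y s) := by
    intro s
    show Y s ^ 2 + φ 0 * X s * Y s + φ 1 * Y s =
      X s ^ 3 + φ (-1) * X s ^ 2 + φ 0 * X s + φ 0
    simp only [map_zero, map_one, map_neg]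
    linear_combination hXY s
  obtain ⟨R, ρ, hR, hRx, hRy, hRc⟩ := exists_real φ hEF hx htop mX mY hER hfin
  intro hmem
  -- the regulator vanishes
  have hz : ρ.reg (za x y) = 0 := by
    have : Submodule.span ℚ {z : K4M.HK F | ∃ (c : k) (u : K4M.FT F),
        z = K4M.hk (K4M.sy (algebraMap k F c)) u} ≤ LinearMap.ker ρ.reg := by
      rw [Submodule.span_le]
      rintro z ⟨c, u, rfl⟩
      rw [SetLike.mem_coe, LinearMap.mem_ker]
      exact ρ.reg_const u ⟨φ c, rep_of hR (hRc c)⟩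
    exact this hmem
  -- the regulator is represented by a positive function
  have ht := tx_ne h0 h1 h2 h3
  have hrep : ∀ i, ∀ᶠ s in cofinite, ρ.r (tx x y i) s = tx (X s) (Y s) i := fun i =>
    rep_of hR (R_tx hR hRx hRy i)
  have hrep2 : ∀ i, ∀ᶠ s in cofinite, ρ.r (tx x y (i + 1) / tx x y (i - 1)) s =
      tx (X s) (Y s) (i + 1) / tx (X s) (Y s) (i - 1) := fun i =>
    rep_of hR (R_div hR (R_tx hR hRx hRy _) (R_tx hR hRx hRy _))
  have hterm : ∀ i, ρ.reg (K4M.hk (K4M.sy (tx x y i))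
      (K4M.lg (tx x y (i + 1) / tx x y (i - 1)))) = WG.mkQ
      ((fun s => -(Rf (tx (X s) (Y s) i)) * deriv (fun t => tx (X t) (Y t) i) s *
        Real.log (tx (X s) (Y s) (i + 1) / tx (X s) (Y s) (i - 1)) : ℝ → ℝ) : VG) := fun i =>
    ρ.reg_sy (ht i) (tx_ne_one hE h0 h1 h2 h3 i) (div_ne_zero (ht _) (ht _)) (hrep i) (hrep2 i)
  have hsum : ρ.reg (za x y) = WG.mkQ
      ((fun s => ∑ i : Fin 5, -(Rf (tx (X s) (Y s) i)) * deriv (fun t => tx (X t) (Y t) i) s *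
        Real.log (tx (X s) (Y s) (i + 1) / tx (X s) (Y s) (i - 1)) : ℝ → ℝ) : VG) := by
    unfold za
    rw [map_sum]
    simp only [hterm]
    rw [← map_sum]
    congr 1
  rw [hsum, Submodule.mkQ_apply, Submodule.Quotient.mk_eq_zero] at hz
  refine WG_not_pos hz ?_
  have gx : ∀ᶠ s in cofinite, X s ≠ 0 := hfin 0
  have gx1 : ∀ᶠ s in cofinite, X s ≠ 1 := hfin 1
  have gy : ∀ᶠ s in cofinite, Y s ≠ 0 := by
    filter_upwards [gx, gx1] with s a b h
    have := hXY s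
    rw [h] at this
    have h' : X s ^ 2 * (X s - 1) = 0 := by linear_combination -this
    rcases mul_eq_zero.mp h' with h' | h'
    · exact a (pow_eq_zero_iff two_ne_zero |>.mp h')
    · exact b (sub_eq_zero.mp h')
  have gxy : ∀ᶠ s in cofinite, X s + Y s ≠ 0 := by
    filter_upwards [gx, gx1] with s a b h
    have := hXY s
    have e : Y s = - X s := by linear_combination h
    rw [e] at this
    have h' : X s * (X s - 1) ^ 2 = 0 := by linear_combination -this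
    rcases mul_eq_zero.mp h' with h' | h'
    · exact a h'
    · exact b (sub_eq_zero.mp (pow_eq_zero_iff two_ne_zero |>.mp h'))
  have g0 : ∀ᶠ s : ℝ in cofinite, s ≠ 0 := (Set.finite_singleton (0 : ℝ)).subset
    fun s hs => not_not.mp hs
  have gn : ∀ᶠ s in cofinite, tx (X s) (Y s) (0 - 1) ≠ tx (X s) (Y s) (0 + 1) := by
    filter_upwards [gx, gx1, gy, gxy, g0] with s a b d e g0 h
    apply hpsi s g0
    have b' : X s - 1 ≠ 0 := sub_ne_zero.mpr b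
    have h' : (X s - 1) / Y s = -Y s / X s ^ 2 := h
    rw [div_eq_div_iff d (pow_ne_zero _ a)] at h'
    have h9 : Y s * (2 * Y s + 1) = 0 := by linear_combination hXY s + h'
    rcases mul_eq_zero.mp h9 with h9 | h9
    · exact absurd h9 d
    · exact h9
  filter_upwards [gx, gx1, gy, gxy, gn] with s a b d e n
  have b' : X s - 1 ≠ 0 := sub_ne_zero.mpr b
  have hd : ∀ i, deriv (fun t => tx (X t) (Y t) i) s =
      c s * (tx (X s) (Y s) i ^ 2 * (tx (X s) (Y s) (i - 1) - tx (X s) (Y s) (i + 1))) := fun i =>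
    (tx_deriv (hXY s) (hX s) (hY s) a b' d e i).deriv
  simp only [hd]
  refine Finset.sum_pos' (fun i _ => (term_nonneg (hXY s) a b' d e (hc s) i).1)
    ⟨0, Finset.mem_univ _, (term_nonneg (hXY s) a b' d e (hc s) 0).2 n⟩

end final

end Pool.Agent.K4N
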