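import Pool.Agent.Lib_helper2.K4N.DefsR
import Pool.Agent.Lib_helper2.K4N.Int3
import Pool.Agent.Lib_helper2.K4N.Nv

set_option autoImplicit false

/-!
The regulator of the function field of a Weierstrass curve.
-/

namespace Pool.Agent.K4N

open Filter Topology Polynomial Pool.Agent.TN WeierstrassCurve.Affine

section

variable {k F : Type*} [Field k] [Field F] [Algebra k F]
  {W : WeierstrassCurve.Affine k} (φ : k →+* ℝ) {X Y : ℝ → ℝ} {x y : F}

lemma val_aeval {R : F →+* VG} (hRx : R x = (X : VG)) (hRy : R y = (Y : VG))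
    (hRc : ∀ c : k, R (algebraMap k F c) = ((fun _ => φ c : ℝ → ℝ) : VG))
    (A : MvPolynomial (Fin 2) k) : R (MvPolynomial.aeval ![x, y] A) =
      ((fun s => MvPolynomial.eval₂ φ ![X s, Y s] A : ℝ → ℝ) : VG) := by
  induction A using MvPolynomial.induction_on with
  | C a =>
    simp only [MvPolynomial.aeval_C, MvPolynomial.eval₂_C]
    exact hRc a
  | add p q hp hq =>
    rw [map_add, map_add, hp, hq]
    simp only [MvPolynomial.eval₂_add]
    rfl
  | mul_X p i hp =>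
    rw [map_mul, map_mul, hp]
    simp only [MvPolynomial.aeval_X, MvPolynomial.eval₂_mul, MvPolynomial.eval₂_X]
    fin_cases i
    · show _ * R x = _
      rw [hRx]; rfl
    · show _ * R y = _
      rw [hRy]; rfl

lemma val_rep {R : F →+* VG} {ρ : RealF F} (hR : ∀ f, R f = (ρ.r f : VG))
    (hRx : R x = (X : VG)) (hRy : R y = (Y : VG))
    (hRc : ∀ c : k, R (algebraMap k F c) = ((fun _ => φ c : ℝ → ℝ) : VG)) {f : F} {ψ : ℝ → ℝ}
    (h : FK4.Val φ x y X Y f ψ) : ρ.r f =ᶠ[cofinite] ψ := by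
  obtain ⟨A, B, -, rfl, hs⟩ := h
  have h1 := R_div hR (val_aeval φ hRx hRy hRc A) (val_aeval φ hRx hRy hRc B)
  have h2 := rep_of hR h1
  filter_upwards [h2] with s a
  rw [a, hs]

lemma den_congr {f g φ ψ : ℝ → ℝ} (hf : f =ᶠ[cofinite] φ) (hg : g =ᶠ[cofinite] ψ) :
    dn f g =ᶠ[cofinite] FK4.den φ ψ := by
  filter_upwards [nhds_of_cofinite hf, hg] with s a b
  show Real.log (g s) * wf f s = Real.log (ψ s) * wf φ s
  rw [b, wf_congr a]

lemma ae_of_cof {f g : ℝ → ℝ} (h : f =ᶠ[cofinite] g) : f =ᵐ[MeasureTheory.volume] g := by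
  have : {s | f s = g s}ᶜ.Finite := h
  exact this.measure_zero _

/-- the regulator of a field of functions on a circle of real points -/
theorem exists_reg (hE : Eqn W (algebraMap k F) x y) (hx : Transcendental k x)
    (htop : IntermediateField.adjoin k {x, y} = ⊤) (mX : Mer X) (mY : Mer Y)
    (hXY : ∀ s, Eqn W φ (X s) (Y s)) (hfin : ∀ a : ℝ, ∀ᶠ s in cofinite, X s ≠ a) :
    ∃ (R : F →+* VG) (ρ : RealF F) (P : K4M.HK F →ₗ[ℚ] ℝ), (∀ f, R f = (ρ.r f : VG)) ∧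
      R x = (X : VG) ∧ R y = (Y : VG) ∧
      (∀ c : k, R (algebraMap k F c) = ((fun _ => φ c : ℝ → ℝ) : VG)) ∧
      FK4.IsReg φ x y X Y P ∧ ∀ z, P z = 0 ↔ ρ.reg z = 0 := by
  obtain ⟨R, ρ, hR, hRx, hRy, hRc⟩ := exists_real φ hE hx htop mX mY hXY hfin
  obtain ⟨P, hP, hP0⟩ := ρ.exists_Pi
  refine ⟨R, ρ, P, hR, hRx, hRy, hRc, ?_, hP0⟩
  intro f g α β hg hα hβ
  have a := val_rep φ hR hRx hRy hRc hα
  have b := val_rep φ hR hRx hRy hRc hβ
  have e := den_congr a b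
  by_cases h0 : f = 0
  · have hα0 : FK4.den α β =ᶠ[cofinite] fun _ => 0 := by
      have : α =ᶠ[cofinite] fun _ => 0 := by
        have h1 : R f = ((fun _ => 0 : ℝ → ℝ) : VG) := by rw [h0, map_zero]; rfl
        exact a.symm.trans (rep_of hR h1)
      filter_upwards [nhds_of_cofinite this] with s hs
      have h2 : α =ᶠ[𝓝 s] fun _ => 0 := hs
      unfold FK4.den
      rw [h2.deriv_eq, deriv_const]
      ring
    refine ⟨(MeasureTheory.integrable_zero ℝ ℝ _).congr (ae_of_cof hα0.symm), ?_⟩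
    have h3 : P (K4M.hk (K4M.sy f) (K4M.lg g)) = 0 := by
      rw [h0, K4M.sy_zero]
      have : K4M.hk (0 : K4M.B2 F) (K4M.lg g) = 0 := by
        have := hk_smul_l (0 : ℚ) (0 : K4M.B2 F) (K4M.lg g)
        rwa [zero_smul, zero_smul] at this
      rw [this, map_zero]
    refine h3.trans ?_
    rw [integral_congr_cof hα0, MeasureTheory.integral_zero]
  by_cases h1 : f = 1
  · have hα0 : FK4.den α β =ᶠ[cofinite] fun _ => 0 := by
      have : α =ᶠ[cofinite] fun _ => 1 := by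
        have h1 : R f = ((fun _ => 1 : ℝ → ℝ) : VG) := by rw [h1, map_one]; rfl
        exact a.symm.trans (rep_of hR h1)
      filter_upwards [nhds_of_cofinite this] with s hs
      have h2 : α =ᶠ[𝓝 s] fun _ => 1 := hs
      unfold FK4.den
      rw [h2.deriv_eq, deriv_const]
      ring
    refine ⟨(MeasureTheory.integrable_zero ℝ ℝ _).congr (ae_of_cof hα0.symm), ?_⟩
    have h3 : P (K4M.hk (K4M.sy f) (K4M.lg g)) = 0 := by
      rw [h1, K4M.sy_one]
      have : K4M.hk (0 : K4M.B2 F) (K4M.lg g) = 0 := by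
        have := hk_smul_l (0 : ℚ) (0 : K4M.B2 F) (K4M.lg g)
        rwa [zero_smul, zero_smul] at this
      rw [this, map_zero]
    refine h3.trans ?_
    rw [integral_congr_cof hα0, MeasureTheory.integral_zero]
  · refine ⟨(ρ.dn_UG h0 h1 hg).1.congr (ae_of_cof e), ?_⟩
    exact (hP f g h0 h1 hg).trans (integral_congr_cof e)

end

section RZ

variable {k F : Type*} [Field k] [Field F] [Algebra k F]

/-- the span of the symbols of constants -/
noncomputable def KK (k F : Type*) [Field k] [Field F] [Algebra k F] : Submodule ℚ (K4M.HK F) :=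
  Submodule.span ℚ {z : K4M.HK F | ∃ (c : k) (u : K4M.FT F),
    z = K4M.hk (K4M.sy (algebraMap k F c)) u}

/-- the regulator of `z` on the circle is not zero -/
def RZ (φ : k →+* ℝ) (x y : F) (X Y : ℝ → ℝ) (z : K4M.HK F) : Prop :=
  ∃ P : K4M.HK F →ₗ[ℚ] ℝ, FK4.IsReg φ x y X Y P ∧ (∀ c ∈ KK k F, P c = 0) ∧ P z ≠ 0

variable {φ : k →+* ℝ} {x y : F} {X Y : ℝ → ℝ}

lemma RZ.not_mem {z : K4M.HK F} (h : RZ φ x y X Y z) :
    z ∉ Submodule.span ℚ {z : K4M.HK F | ∃ (c : k) (u : K4M.FT F),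
      z = K4M.hk (K4M.sy (algebraMap k F c)) u} := by
  obtain ⟨P, -, h1, h2⟩ := h
  exact fun hz => h2 (h1 z hz)

/-- the regulator of a class of which `z` is a multiple -/
lemma RZ.of_smul {z ξ : K4M.HK F} (h : RZ φ x y X Y z) (r : ℚ) (hr : z - r • ξ ∈ KK k F) :
    RZ φ x y X Y ξ := by
  obtain ⟨P, h0, h1, h2⟩ := h
  refine ⟨P, h0, h1, fun h3 => h2 ?_⟩
  have := h1 _ hr
  rw [map_sub, map_smul, h3, smul_zero, sub_zero] at this
  exact this

lemma RZ.of_eq {z ξ : K4M.HK F} (h : RZ φ x y X Y z) (hr : ξ = z) : RZ φ x y X Y ξ := hr ▸ h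

lemma RZ.of_neg {z ξ : K4M.HK F} (h : RZ φ x y X Y z) (hr : ξ = -z) : RZ φ x y X Y ξ := by
  refine h.of_smul (-1) ?_
  rw [hr, neg_smul, one_smul, neg_neg, sub_self]
  exact Submodule.zero_mem _

lemma RealF.KK_le {φ : k →+* ℝ} (ρ : RealF F) {R : F →+* VG} (hR : ∀ f, R f = (ρ.r f : VG))
    (hRc : ∀ c : k, R (algebraMap k F c) = ((fun _ => φ c : ℝ → ℝ) : VG)) :
    ∀ z ∈ KK k F, ρ.reg z = 0 := by
  have : KK k F ≤ LinearMap.ker ρ.reg := by
    unfold KK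
    rw [Submodule.span_le]
    rintro z ⟨c, u, rfl⟩
    rw [SetLike.mem_coe, LinearMap.mem_ker]
    exact ρ.reg_const u ⟨φ c, rep_of hR (hRc c)⟩
  exact fun z hz => this hz

end RZ

/-- the criterion -/
theorem reg_ne {F : Type*} [Field F] (ρ : RealF F)
    {ι : Type*} [Fintype ι] (f u : ι → F) (hf0 : ∀ i, f i ≠ 0) (hf1 : ∀ i, f i ≠ 1)
    (hu : ∀ i, u i ≠ 0) (φ ψ : ι → ℝ → ℝ) (hφ : ∀ i, ∀ᶠ s in cofinite, ρ.r (f i) s = φ i s)
    (hψ : ∀ i, ∀ᶠ s in cofinite, ρ.r (u i) s = ψ i s) (E : ℝ → ℝ) (hE : Ex E)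
    (hpos : ∀ᶠ s in cofinite, 0 < E s +
      ∑ i, -(Rf (φ i s)) * deriv (φ i) s * Real.log (ψ i s)) :
    ρ.reg (∑ i, K4M.hk (K4M.sy (f i)) (K4M.lg (u i))) ≠ 0 := by
  intro hz
  have hterm : ∀ i, ρ.reg (K4M.hk (K4M.sy (f i)) (K4M.lg (u i))) = WG.mkQ
      ((fun s => -(Rf (φ i s)) * deriv (φ i) s * Real.log (ψ i s) : ℝ → ℝ) : VG) := fun i =>
    ρ.reg_sy (hf0 i) (hf1 i) (hu i) (hφ i) (hψ i)
  have hsum : ρ.reg (∑ i, K4M.hk (K4M.sy (f i)) (K4M.lg (u i))) = WG.mkQ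
      ((fun s => ∑ i, -(Rf (φ i s)) * deriv (φ i) s * Real.log (ψ i s) : ℝ → ℝ) : VG) := by
    rw [map_sum]
    simp only [hterm]
    rw [← map_sum]
    congr 1
    have h1 := map_sum (Germ.coeRingHom (cofinite : Filter ℝ))
      (fun i => (fun s => -(Rf (φ i s)) * deriv (φ i) s * Real.log (ψ i s) : ℝ → ℝ)) Finset.univ
    refine (h1.symm).trans ?_
    show ((_ : ℝ → ℝ) : VG) = _
    congr 1
    funext s
    rw [Finset.sum_apply]
  rw [hsum, Submodule.mkQ_apply, Submodule.Quotient.mk_eq_zero] at hz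
  have h2 : ((fun s => E s + ∑ i, -(Rf (φ i s)) * deriv (φ i) s * Real.log (ψ i s) : ℝ → ℝ) :
      VG) ∈ WG := by
    have := WG.add_mem (⟨E, hE, rfl⟩ : (E : VG) ∈ WG) hz
    rw [← Germ.coe_add] at this
    exact this
  exact WG_not_pos h2 hpos

end Pool.Agent.K4N
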