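import Pool.Agent.Lib_helper2.K4N.Eng2
import Pool.Agent.Lib_helper2.K4N.Int4
import Pool.Agent.Lib_helper24.TN.KA

set_option autoImplicit false

/-!
The engines for the regulator.
-/

namespace Pool.Agent.K4N

open Filter Topology Pool.Agent.TN
open scoped TensorProduct

section engineR

variable {k F : Type*} [Field k] [Field F] [Algebra k F] {x y : F}

/-- **The engine with separate translates, for the regulator.** -/
theorem eng2R [CharZero k] [CharZero F] (φ : k →+* ℝ) (b c : ℚ) (hb : b ≠ 0)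
    (h : Gen (b : k) (c : k) x y)
    (htop : IntermediateField.adjoin k {x, y} = ⊤)
    (C : ℕ → ℝ → ℝ → Prop) (circ : Circ (b : ℝ) (c : ℝ) (C 0))
    {ι : Type*} [Fintype ι] (f u : ι → Q2) (j l : ι → ℕ) (nz : List Q2)
    (hnz : ∀ x' y' : F, Gen (b : k) (c : k) x' y' → ∀ e ∈ nz, e.ev x' y' ≠ 0)
    (hfu : ∀ x' y' : F, Gen (b : k) (c : k) x' y' → ∀ i, (f i).ev x' y' ≠ 0 ∧
      (f i).ev x' y' ≠ 1 ∧ (u i).ev x' y' ≠ 0)
    (hok : ∀ i, ∀ U V : ℝ, (∀ e ∈ nz, e.ev U V ≠ 0) → (f i).ok U V)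
    (hC : ∀ n, ∀ U V : ℝ, V ^ 2 + (1 - (c : ℝ)) * U * V - b * V = U ^ 3 - b * U ^ 2 → U ≠ 0 →
      (∀ e ∈ nz, e.ev U V ≠ 0) → C n U V → C (n + 1) (b * V / U ^ 2) (b ^ 2 * (U ^ 2 - V) / U ^ 3))
    (hge : ∀ i, ∀ U V U' V' : ℝ,
      V ^ 2 + (1 - (c : ℝ)) * U * V - b * V = U ^ 3 - b * U ^ 2 → U ≠ 0 →
      (∀ e ∈ nz, e.ev U V ≠ 0) → C (j i) U V →
      V' ^ 2 + (1 - (c : ℝ)) * U' * V' - b * V' = U' ^ 3 - b * U' ^ 2 → U' ≠ 0 →
      (∀ e ∈ nz, e.ev U' V' ≠ 0) → C (l i) U' V' → (j i = l i → U' = U ∧ V' = V) →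
      (f i).dv (b : ℝ) c U V * Real.log ((u i).ev U' V') ≤ 0)
    (i0 : ι) (hi0 : l i0 = j i0)
    (hgt : ∀ U V : ℝ, V ^ 2 + (1 - (c : ℝ)) * U * V - b * V = U ^ 3 - b * U ^ 2 → U ≠ 0 →
      (∀ e ∈ nz, e.ev U V ≠ 0) → C (j i0) U V →
      (f i0).dv (b : ℝ) c U V * Real.log ((u i0).ev U V) < 0) :
    RZ φ x y circ.X circ.Y
      (∑ i, K4M.hk (K4M.sy ((f i).ev (It (b : F) (j i) (x, y)).1 (It (b : F) (j i) (x, y)).2))
        (K4M.lg ((u i).ev (It (b : F) (l i) (x, y)).1 (It (b : F) (l i) (x, y)).2))) := by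
  obtain ⟨X, Y, κ, mX, mY, hfin, hκ, hOK, hcomp⟩ := circ
  have eb : algebraMap k F (b : k) = (b : F) := map_ratCast _ b
  have hbk : (b : k) ≠ 0 := by exact_mod_cast hb
  have hg : ∀ n, Gen (b : k) (c : k) (It (b : F) n (x, y)).1 (It (b : F) n (x, y)).2 := by
    intro n
    have := gen_It hbk h n
    rwa [eb] at this
  have hER : ∀ s, TN.Eqn (TN.Wt (b : k) (c : k)) φ (X s) (Y s) := by
    intro s
    show Y s ^ 2 + φ (1 - c) * X s * Y s + φ (-b) * Y s =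
      X s ^ 3 + φ (-b) * X s ^ 2 + φ 0 * X s + φ 0
    simp only [map_zero, map_one, map_neg, map_sub, map_ratCast]
    linear_combination (hOK s).eq
  obtain ⟨R, ρ, P, hR, hRx, hRy, hRc, hP, hP0⟩ := exists_reg φ h.eqn ((TN.Tr_iff x).mp h.tr) htop
    mX mY hER hfin
  -- the iterates
  have hIt : ∀ n, R (It (b : F) n (x, y)).1 = ((fun s => (It (b : ℝ) n (X s, Y s)).1 : ℝ → ℝ) : VG) ∧
      R (It (b : F) n (x, y)).2 = ((fun s => (It (b : ℝ) n (X s, Y s)).2 : ℝ → ℝ) : VG) := by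
    intro n
    induction n with
    | zero => exact ⟨hRx, hRy⟩
    | succ n ih =>
      obtain ⟨i1, i2⟩ := ih
      have hRb : R (b : F) = ((fun _ => (b : ℝ) : ℝ → ℝ) : VG) := Q2.R_rat R b
      constructor
      · have := R_div hR (R_mul hRb i2) (R_pow i1 2)
        simp only [It_succ]
        exact this
      · have e1 : R ((It (b : F) n (x, y)).1 ^ 2 - (It (b : F) n (x, y)).2) =
            ((fun s => (It (b : ℝ) n (X s, Y s)).1 ^ 2 - (It (b : ℝ) n (X s, Y s)).2 : ℝ → ℝ) :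
              VG) := by
          rw [map_sub, R_pow i1 2, i2, ← Germ.coe_sub]
          rfl
        have := R_div hR (R_mul (R_pow hRb 2) e1) (R_pow i1 3)
        simp only [It_succ]
        exact this
  -- nonvanishing
  have hn0 : ∀ n, ∀ᶠ s in cofinite, (It (b : ℝ) n (X s, Y s)).1 ≠ 0 := by
    intro n
    have h1 := rep_of hR (hIt n).1
    filter_upwards [ρ.ne _ (hg n).x_ne, h1] with s a b
    rwa [← b]
  have hn : ∀ n, ∀ᶠ s in cofinite, ∀ e ∈ nz,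
      e.ev (It (b : ℝ) n (X s, Y s)).1 (It (b : ℝ) n (X s, Y s)).2 ≠ 0 := by
    intro n
    have key : ∀ l : List Q2, (∀ e ∈ l, e ∈ nz) → ∀ᶠ s in cofinite, ∀ e ∈ l,
        e.ev (It (b : ℝ) n (X s, Y s)).1 (It (b : ℝ) n (X s, Y s)).2 ≠ 0 := by
      intro l
      induction l with
      | nil =>
        intro _
        exact Eventually.of_forall fun s e he => absurd he (List.not_mem_nil)
      | cons e l ih =>
        intro hl
        have h1 := ih fun e' he' => hl e' (List.mem_cons_of_mem _ he')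
        have h2 := Q2.ev_ne hR (hIt n).1 (hIt n).2
          (hnz _ _ (hg n) e (hl e List.mem_cons_self))
        filter_upwards [h1, h2] with s a b e' he'
        rcases List.mem_cons.mp he' with rfl | he'
        · exact b
        · exact a e' he'
    exact key nz fun _ h => h
  -- all indices up to a bound
  set N := (Finset.univ.sup j) + (Finset.univ.sup l) + 1 with hN
  have hjN : ∀ i, j i < N := fun i => Nat.lt_succ_of_le
    ((Finset.le_sup (f := j) (Finset.mem_univ i)).trans (Nat.le_add_right _ _))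
  have hlN : ∀ i, l i < N := fun i => Nat.lt_succ_of_le
    ((Finset.le_sup (f := l) (Finset.mem_univ i)).trans (Nat.le_add_left _ _))
  have hall : ∀ᶠ s in cofinite, ∀ n ∈ Finset.range N, ((It (b : ℝ) n (X s, Y s)).1 ≠ 0 ∧
      ∀ e ∈ nz, e.ev (It (b : ℝ) n (X s, Y s)).1 (It (b : ℝ) n (X s, Y s)).2 ≠ 0) := by
    rw [Finset.eventually_all]
    intro n _
    filter_upwards [hn0 n, hn n] with s a b
    exact ⟨a, b⟩
  refine ⟨P, hP, fun c hc => (hP0 c).mpr (ρ.KK_le hR hRc c hc), fun hz => ?_⟩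
  refine reg_ne ρ
    (fun i => (f i).ev (It (b : F) (j i) (x, y)).1 (It (b : F) (j i) (x, y)).2)
    (fun i => (u i).ev (It (b : F) (l i) (x, y)).1 (It (b : F) (l i) (x, y)).2)
    (fun i => (hfu _ _ (hg _) i).1) (fun i => (hfu _ _ (hg _) i).2.1)
    (fun i => (hfu _ _ (hg _) i).2.2)
    (fun i s => (f i).ev (It (b : ℝ) (j i) (X s, Y s)).1 (It (b : ℝ) (j i) (X s, Y s)).2)
    (fun i s => (u i).ev (It (b : ℝ) (l i) (X s, Y s)).1 (It (b : ℝ) (l i) (X s, Y s)).2)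
    (fun i => rep_of hR (Q2.R_ev hR (hIt _).1 (hIt _).2 _))
    (fun i => rep_of hR (Q2.R_ev hR (hIt _).1 (hIt _).2 _)) (fun _ => 0) Ex.zero ?_ ((hP0 _).mp hz)
  have hf01 : ∀ᶠ s in cofinite, ∀ i ∈ (Finset.univ : Finset ι),
      ((f i).ev (It (b : ℝ) (j i) (X s, Y s)).1 (It (b : ℝ) (j i) (X s, Y s)).2 ≠ 0 ∧
       (f i).ev (It (b : ℝ) (j i) (X s, Y s)).1 (It (b : ℝ) (j i) (X s, Y s)).2 ≠ 1) := by
    rw [Finset.eventually_all]
    intro i _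
    have h1 := rep_of hR (Q2.R_ev hR (hIt (j i)).1 (hIt (j i)).2 (f i))
    filter_upwards [ρ.ne _ (hfu _ _ (hg (j i)) i).1, ρ.ne_one (hfu _ _ (hg (j i)) i).2.1, h1]
      with s a b d
    rw [← d]
    exact ⟨a, b⟩
  filter_upwards [hall, hcomp, hf01] with s hs hc hf
  -- the point, its translates
  have hOKn : ∀ n, n < N → OKp (b : ℝ) c (κ s) (fun t => (It (b : ℝ) n (X t, Y t)).1)
      (fun t => (It (b : ℝ) n (X t, Y t)).2) s := by
    intro n hn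
    exact OK_It (hOK s) n fun i hi => (hs i (Finset.mem_range.mpr (hi.trans hn))).1
  have hCn : ∀ n, n < N → C n (It (b : ℝ) n (X s, Y s)).1 (It (b : ℝ) n (X s, Y s)).2 := by
    intro n
    induction n with
    | zero => intro _; exact hc
    | succ n ih =>
      intro hn
      have hn' : n < N := by omega
      have h1 := hs n (Finset.mem_range.mpr hn')
      have h2 := hC n _ _ (hOKn n hn').eq h1.1 h1.2 (ih hn')
      rw [It_succ]
      exact h2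
  have hterm : ∀ i, 0 ≤ -(Rf ((f i).ev (It (b : ℝ) (j i) (X s, Y s)).1
      (It (b : ℝ) (j i) (X s, Y s)).2)) *
      deriv (fun s => (f i).ev (It (b : ℝ) (j i) (X s, Y s)).1
        (It (b : ℝ) (j i) (X s, Y s)).2) s *
      Real.log ((u i).ev (It (b : ℝ) (l i) (X s, Y s)).1 (It (b : ℝ) (l i) (X s, Y s)).2) ∧
      (i = i0 → 0 < -(Rf ((f i).ev (It (b : ℝ) (j i) (X s, Y s)).1
      (It (b : ℝ) (j i) (X s, Y s)).2)) *
      deriv (fun s => (f i).ev (It (b : ℝ) (j i) (X s, Y s)).1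
        (It (b : ℝ) (j i) (X s, Y s)).2) s *
      Real.log ((u i).ev (It (b : ℝ) (l i) (X s, Y s)).1 (It (b : ℝ) (l i) (X s, Y s)).2)) := by
    intro i
    have h1 := hs (j i) (Finset.mem_range.mpr (hjN i))
    have g1 := hs (l i) (Finset.mem_range.mpr (hlN i))
    have h2 := Q2.deriv_ev (hOKn (j i) (hjN i)) (f i) (hok i _ _ h1.2)
    have h3 := hCn (j i) (hjN i)
    have g3 := hCn (l i) (hlN i)
    have h4 := (hOKn (j i) (hjN i)).eq
    have g4 := (hOKn (l i) (hlN i)).eq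
    have h5 := hf i (Finset.mem_univ i)
    rw [h2.deriv]
    have hR := Rf_pos h5.1 h5.2
    have e : ∀ r d κ l : ℝ, -r * (d * κ) * l = (r * κ) * (-(d * l)) := by
      intro r d κ l; ring
    rw [e]
    have hp := mul_pos hR (hκ s)
    constructor
    · exact mul_nonneg hp.le (neg_nonneg.mpr (hge i _ _ _ _ h4 h1.1 h1.2 h3 g4 g1.1 g1.2 g3
        fun hjl => by rw [hjl]; exact ⟨rfl, rfl⟩))
    · rintro rfl
      rw [hi0]
      exact mul_pos hp (neg_pos.mpr (hgt _ _ h4 h1.1 h1.2 h3))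
  rw [zero_add]
  exact Finset.sum_pos' (fun i _ => (hterm i).1) ⟨i0, Finset.mem_univ _, (hterm i0).2 rfl⟩

/-- the engine with weights, for the regulator -/
theorem eng3R [CharZero k] [CharZero F] (φ : k →+* ℝ) (b c : ℚ) (hb : b ≠ 0)
    (h : Gen (b : k) (c : k) x y)
    (htop : IntermediateField.adjoin k {x, y} = ⊤)
    (C : ℕ → ℝ → ℝ → Prop) (circ : Circ (b : ℝ) (c : ℝ) (C 0))
    {ι : Type*} [Fintype ι] (f u : ι → Q2) (j l : ι → ℕ) (w : ι → ℕ) (nz : List Q2)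
    (hnz : ∀ x' y' : F, Gen (b : k) (c : k) x' y' → ∀ e ∈ nz, e.ev x' y' ≠ 0)
    (hfu : ∀ x' y' : F, Gen (b : k) (c : k) x' y' → ∀ i, (f i).ev x' y' ≠ 0 ∧
      (f i).ev x' y' ≠ 1 ∧ (u i).ev x' y' ≠ 0)
    (hok : ∀ i, ∀ U V : ℝ, (∀ e ∈ nz, e.ev U V ≠ 0) → (f i).ok U V)
    (hC : ∀ n, ∀ U V : ℝ, V ^ 2 + (1 - (c : ℝ)) * U * V - b * V = U ^ 3 - b * U ^ 2 → U ≠ 0 →
      (∀ e ∈ nz, e.ev U V ≠ 0) → C n U V → C (n + 1) (b * V / U ^ 2) (b ^ 2 * (U ^ 2 - V) / U ^ 3))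
    (hge : ∀ i, ∀ U V U' V' : ℝ,
      V ^ 2 + (1 - (c : ℝ)) * U * V - b * V = U ^ 3 - b * U ^ 2 → U ≠ 0 →
      (∀ e ∈ nz, e.ev U V ≠ 0) → C (j i) U V →
      V' ^ 2 + (1 - (c : ℝ)) * U' * V' - b * V' = U' ^ 3 - b * U' ^ 2 → U' ≠ 0 →
      (∀ e ∈ nz, e.ev U' V' ≠ 0) → C (l i) U' V' → (j i = l i → U' = U ∧ V' = V) →
      (f i).dv (b : ℝ) c U V * Real.log ((u i).ev U' V') ≤ 0)
    (i0 : ι) (hi0 : l i0 = j i0) (hw : 0 < w i0)
    (hgt : ∀ U V : ℝ, V ^ 2 + (1 - (c : ℝ)) * U * V - b * V = U ^ 3 - b * U ^ 2 → U ≠ 0 →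
      (∀ e ∈ nz, e.ev U V ≠ 0) → C (j i0) U V →
      (f i0).dv (b : ℝ) c U V * Real.log ((u i0).ev U V) < 0) :
    RZ φ x y circ.X circ.Y
      (∑ i, (w i) • K4M.hk (K4M.sy ((f i).ev (It (b : F) (j i) (x, y)).1
        (It (b : F) (j i) (x, y)).2))
        (K4M.lg ((u i).ev (It (b : F) (l i) (x, y)).1 (It (b : F) (l i) (x, y)).2))) := by
  have key := eng2R φ b c hb h htop C circ (ι := Σ i : ι, Fin (w i)) (fun i => f i.1)
    (fun i => u i.1) (fun i => j i.1) (fun i => l i.1) nz hnz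
    (fun x' y' hg i => hfu x' y' hg i.1) (fun i => hok i.1) hC (fun i => hge i.1)
    ⟨i0, ⟨0, hw⟩⟩ hi0 hgt
  rw [Fintype.sum_sigma] at key
  simp only [Finset.sum_const, Finset.card_univ, Fintype.card_fin] at key
  exact key

/-- the engine, for the regulator -/
theorem engR [CharZero k] [CharZero F] (φ : k →+* ℝ) (b c : ℚ) (hb : b ≠ 0)
    (h : Gen (b : k) (c : k) x y)
    (htop : IntermediateField.adjoin k {x, y} = ⊤)
    (C : ℕ → ℝ → ℝ → Prop) (circ : Circ (b : ℝ) (c : ℝ) (C 0))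
    {ι : Type*} [Fintype ι] (f u : ι → Q2) (j : ι → ℕ) (nz : List Q2)
    (hnz : ∀ x' y' : F, Gen (b : k) (c : k) x' y' → ∀ e ∈ nz, e.ev x' y' ≠ 0)
    (hfu : ∀ x' y' : F, Gen (b : k) (c : k) x' y' → ∀ i, (f i).ev x' y' ≠ 0 ∧
      (f i).ev x' y' ≠ 1 ∧ (u i).ev x' y' ≠ 0)
    (hok : ∀ i, ∀ U V : ℝ, (∀ e ∈ nz, e.ev U V ≠ 0) → (f i).ok U V)
    (hC : ∀ n, ∀ U V : ℝ, V ^ 2 + (1 - (c : ℝ)) * U * V - b * V = U ^ 3 - b * U ^ 2 → U ≠ 0 →
      (∀ e ∈ nz, e.ev U V ≠ 0) → C n U V → C (n + 1) (b * V / U ^ 2) (b ^ 2 * (U ^ 2 - V) / U ^ 3))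
    (hge : ∀ i, ∀ U V : ℝ, V ^ 2 + (1 - (c : ℝ)) * U * V - b * V = U ^ 3 - b * U ^ 2 → U ≠ 0 →
      (∀ e ∈ nz, e.ev U V ≠ 0) → C (j i) U V →
      (f i).dv (b : ℝ) c U V * Real.log ((u i).ev U V) ≤ 0)
    (i0 : ι)
    (hgt : ∀ U V : ℝ, V ^ 2 + (1 - (c : ℝ)) * U * V - b * V = U ^ 3 - b * U ^ 2 → U ≠ 0 →
      (∀ e ∈ nz, e.ev U V ≠ 0) → C (j i0) U V →
      (f i0).dv (b : ℝ) c U V * Real.log ((u i0).ev U V) < 0) :
    RZ φ x y circ.X circ.Y
      (∑ i, K4M.hk (K4M.sy ((f i).ev (It (b : F) (j i) (x, y)).1 (It (b : F) (j i) (x, y)).2))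
        (K4M.lg ((u i).ev (It (b : F) (j i) (x, y)).1 (It (b : F) (j i) (x, y)).2))) :=
  eng2R φ b c hb h htop C circ f u j j nz hnz hfu hok hC
    (fun i U V U' V' h1 h2 h3 h4 _ _ _ _ h9 => by
      obtain ⟨rfl, rfl⟩ := h9 rfl
      exact hge i _ _ h1 h2 h3 h4) i0 rfl hgt

/-- the circle as a loop -/
lemma Circ.loop [CharZero k] (φ : k →+* ℝ) {b c : ℚ} {C : ℝ → ℝ → Prop}
    (circ : Circ (b : ℝ) (c : ℝ) C) (hX : Tendsto circ.X (cocompact ℝ) atTop) :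
    FK4.Loop (TN.Wt (b : k) (c : k)) φ circ.X circ.Y := by
  refine ⟨fun s => ?_, ⟨circ.κ, fun s => ⟨circ.pos s, ?_, ?_⟩⟩, hX⟩
  · show circ.Y s ^ 2 + φ (1 - c) * circ.X s * circ.Y s + φ (-b) * circ.Y s =
      circ.X s ^ 3 + φ (-b) * circ.X s ^ 2 + φ 0 * circ.X s + φ 0
    simp only [map_zero, map_one, map_neg, map_sub, map_ratCast]
    linear_combination (circ.ok s).eq
  · refine (circ.ok s).dX.congr_deriv ?_
    show _ = circ.κ s * (2 * circ.Y s + φ (1 - c) * circ.X s + φ (-b))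
    simp only [map_one, map_neg, map_sub, map_ratCast]
    ring
  · refine (circ.ok s).dY.congr_deriv ?_
    show _ = circ.κ s * (3 * circ.X s ^ 2 + 2 * φ (-b) * circ.X s + φ 0 - φ (1 - c) * circ.Y s)
    simp only [map_zero, map_one, map_neg, map_sub, map_ratCast]
    ring

lemma RZ.regNe_of_loop {φ : k →+* ℝ} {W : WeierstrassCurve.Affine k} {X Y : ℝ → ℝ}
    {ξ : MK4.HK F} (hz : RZ φ x y X Y ξ) (hW : FK4.Generic W x y)
    (htop : IntermediateField.adjoin k {x, y} = ⊤) (hL : FK4.Loop W φ X Y) : FK4.RegNe φ ξ := by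
  obtain ⟨P, hP, -, h0⟩ := hz
  exact ⟨W, x, y, X, Y, P, hW, htop, hL, hP, h0⟩

/-- the nonvanishing of the regulator, in the form of the statement -/
lemma RZ.regNe [CharZero k] {φ : k →+* ℝ} {b c : ℚ} {C : ℝ → ℝ → Prop}
    {circ : Circ (b : ℝ) (c : ℝ) C} {ξ : MK4.HK F} (hz : RZ φ x y circ.X circ.Y ξ)
    (hX : Tendsto circ.X (cocompact ℝ) atTop) (h : Gen (b : k) (c : k) x y)
    (htop : IntermediateField.adjoin k {x, y} = ⊤) : FK4.RegNe φ ξ := by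
  obtain ⟨P, hP, -, h0⟩ := hz
  exact ⟨TN.Wt (b : k) (c : k), x, y, circ.X, circ.Y, P, ⟨h.eqn, (TN.Tr_iff x).mp h.tr⟩, htop,
    circ.loop φ hX, hP, h0⟩

lemma Xp_tendsto (x0 : ℝ) : Tendsto (Xp x0) (cocompact ℝ) atTop := by
  have h : Tendsto (fun s : ℝ => ‖s‖ ^ 2) (cocompact ℝ) atTop :=
    (tendsto_pow_atTop two_ne_zero).comp (tendsto_norm_cocompact_atTop (E := ℝ))
  have h2 : Tendsto (fun s : ℝ => x0 + ‖s‖ ^ 2) (cocompact ℝ) atTop :=
    tendsto_atTop_add_const_left _ x0 h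
  refine h2.congr fun s => ?_
  rw [Real.norm_eq_abs, sq_abs]
  rfl

lemma mem_span_of_KC {z : K4M.HK F} (h : (z : MK4.HK F) ∈ TN.KC k F) :
    z ∈ Submodule.span ℚ {z : K4M.HK F | ∃ (c : k) (u : K4M.FT F),
      z = K4M.hk (K4M.sy (algebraMap k F c)) u} := by
  refine (Submodule.span_mono ?_) h
  rintro z ⟨c, u, rfl⟩
  exact ⟨c, u, rfl⟩

end engineR

end Pool.Agent.K4N
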