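import Pool.Agent.Lib_helper2.K4N.EngR

set_option autoImplicit false

/-!
The engine for the regulator with a condition on the sum of the densities only.
-/

namespace Pool.Agent.K4N

open Filter Topology Pool.Agent.TN
open scoped TensorProduct

section engineT

variable {k F : Type*} [Field k] [Field F] [Algebra k F] {x y : F}

/-- a path on the curve near `s`, all translates being in general position -/
structure Path (b c : ℝ) (nz : List Q2) (N : ℕ) (X Y κ : ℝ → ℝ) (s : ℝ) : Prop where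
  pos : 0 < κ s
  ok : ∀ᶠ t in 𝓝 s, ∀ n < N, OKp b c (κ t) (fun t => (It b n (X t, Y t)).1)
    (fun t => (It b n (X t, Y t)).2) t
  ne : ∀ᶠ t in 𝓝 s, ∀ n < N, (It b n (X t, Y t)).1 ≠ 0 ∧
    ∀ e ∈ nz, e.ev (It b n (X t, Y t)).1 (It b n (X t, Y t)).2 ≠ 0

lemma eventually_nhds_of_cofinite {p : ℝ → Prop} (h : ∀ᶠ t in cofinite, p t) :
    ∀ᶠ s in cofinite, ∀ᶠ t in 𝓝 s, p t := by
  have h1 : {t | ¬ p t}.Finite := h
  refine h.mono fun s hs => ?_
  have h2 : IsOpen {t | ¬ p t}ᶜ := h1.isClosed.isOpen_compl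
  have h3 : {t | ¬ p t}ᶜ ∈ 𝓝 s := h2.mem_nhds (fun hn => hn hs)
  filter_upwards [h3] with t ht
  exact not_not.mp ht

/-- **The engine for the total density.** -/
theorem engT [CharZero k] [CharZero F] (φ : k →+* ℝ) (b c : ℚ) (hb : b ≠ 0)
    (h : Gen (b : k) (c : k) x y)
    (htop : IntermediateField.adjoin k {x, y} = ⊤)
    {C : ℝ → ℝ → Prop} (circ : Circ (b : ℝ) (c : ℝ) C)
    {ι : Type*} [Fintype ι] (f u : ι → Q2) (j : ι → ℕ) (nz : List Q2) (N : ℕ)
    (hnz : ∀ x' y' : F, Gen (b : k) (c : k) x' y' → ∀ e ∈ nz, e.ev x' y' ≠ 0)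
    (hfu : ∀ x' y' : F, Gen (b : k) (c : k) x' y' → ∀ i, (f i).ev x' y' ≠ 0 ∧
      (f i).ev x' y' ≠ 1 ∧ (u i).ev x' y' ≠ 0)
    (hpos : ∀ (X Y κ : ℝ → ℝ) (s : ℝ), Path (b : ℝ) c nz N X Y κ s →
      0 < ∑ i, -(Rf ((f i).ev (It (b : ℝ) (j i) (X s, Y s)).1
        (It (b : ℝ) (j i) (X s, Y s)).2)) *
        deriv (fun t => (f i).ev (It (b : ℝ) (j i) (X t, Y t)).1
          (It (b : ℝ) (j i) (X t, Y t)).2) s *
        Real.log ((u i).ev (It (b : ℝ) (j i) (X s, Y s)).1 (It (b : ℝ) (j i) (X s, Y s)).2)) :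
    RZ φ x y circ.X circ.Y
      (∑ i, K4M.hk (K4M.sy ((f i).ev (It (b : F) (j i) (x, y)).1 (It (b : F) (j i) (x, y)).2))
        (K4M.lg ((u i).ev (It (b : F) (j i) (x, y)).1 (It (b : F) (j i) (x, y)).2))) := by
  obtain ⟨X, Y, κ, mX, mY, hfin, hκ, hOK, hcomp⟩ := circ
  have eb : algebraMap k F (b : k) = (b : F) := map_ratCast _ b
  have hbk : (b : k) ≠ 0 := by exact_mod_cast hb
  have hg : ∀ n, Gen (b : k) (c : k) (It (b : F) n (x, y)).1 (It (b : F) n (x, y)).2 := by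
    intro n
    have := gen_It hbk h n
    rwa [eb] at this
  have hER : ∀ s, TN.Eqn (TN.Wt (b : k) (c : k)) φ (X s) (Y s) := by
    intro s
    show Y s ^ 2 + φ (1 - c) * X s * Y s + φ (-b) * Y s =
      X s ^ 3 + φ (-b) * X s ^ 2 + φ 0 * X s + φ 0
    simp only [map_zero, map_one, map_neg, map_sub, map_ratCast]
    linear_combination (hOK s).eq
  obtain ⟨R, ρ, P, hR, hRx, hRy, hRc, hP, hP0⟩ := exists_reg φ h.eqn ((TN.Tr_iff x).mp h.tr) htop
    mX mY hER hfin
  -- the iterates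
  have hIt : ∀ n, R (It (b : F) n (x, y)).1 = ((fun s => (It (b : ℝ) n (X s, Y s)).1 : ℝ → ℝ) : VG) ∧
      R (It (b : F) n (x, y)).2 = ((fun s => (It (b : ℝ) n (X s, Y s)).2 : ℝ → ℝ) : VG) := by
    intro n
    induction n with
    | zero => exact ⟨hRx, hRy⟩
    | succ n ih =>
      obtain ⟨i1, i2⟩ := ih
      have hRb : R (b : F) = ((fun _ => (b : ℝ) : ℝ → ℝ) : VG) := Q2.R_rat R b
      constructor
      · have := R_div hR (R_mul hRb i2) (R_pow i1 2)
        simp only [It_succ]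
        exact this
      · have e1 : R ((It (b : F) n (x, y)).1 ^ 2 - (It (b : F) n (x, y)).2) =
            ((fun s => (It (b : ℝ) n (X s, Y s)).1 ^ 2 - (It (b : ℝ) n (X s, Y s)).2 : ℝ → ℝ) :
              VG) := by
          rw [map_sub, R_pow i1 2, i2, ← Germ.coe_sub]
          rfl
        have := R_div hR (R_mul (R_pow hRb 2) e1) (R_pow i1 3)
        simp only [It_succ]
        exact this
  -- nonvanishing
  have hn0 : ∀ n, ∀ᶠ s in cofinite, (It (b : ℝ) n (X s, Y s)).1 ≠ 0 := by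
    intro n
    have h1 := rep_of hR (hIt n).1
    filter_upwards [ρ.ne _ (hg n).x_ne, h1] with s a b
    rwa [← b]
  have hn : ∀ n, ∀ᶠ s in cofinite, ∀ e ∈ nz,
      e.ev (It (b : ℝ) n (X s, Y s)).1 (It (b : ℝ) n (X s, Y s)).2 ≠ 0 := by
    intro n
    have key : ∀ l : List Q2, (∀ e ∈ l, e ∈ nz) → ∀ᶠ s in cofinite, ∀ e ∈ l,
        e.ev (It (b : ℝ) n (X s, Y s)).1 (It (b : ℝ) n (X s, Y s)).2 ≠ 0 := by
      intro l
      induction l with
      | nil =>
        intro _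
        exact Eventually.of_forall fun s e he => absurd he (List.not_mem_nil)
      | cons e j ih =>
        intro hl
        have h1 := ih fun e' he' => hl e' (List.mem_cons_of_mem _ he')
        have h2 := Q2.ev_ne hR (hIt n).1 (hIt n).2
          (hnz _ _ (hg n) e (hl e List.mem_cons_self))
        filter_upwards [h1, h2] with s a b e' he'
        rcases List.mem_cons.mp he' with rfl | he'
        · exact b
        · exact a e' he'
    exact key nz fun _ h => h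
  have hall : ∀ᶠ s in cofinite, ∀ n ∈ Finset.range N, ((It (b : ℝ) n (X s, Y s)).1 ≠ 0 ∧
      ∀ e ∈ nz, e.ev (It (b : ℝ) n (X s, Y s)).1 (It (b : ℝ) n (X s, Y s)).2 ≠ 0) := by
    rw [Finset.eventually_all]
    intro n _
    filter_upwards [hn0 n, hn n] with s a b
    exact ⟨a, b⟩
  refine ⟨P, hP, fun c hc => (hP0 c).mpr (ρ.KK_le hR hRc c hc), fun hz => ?_⟩
  refine reg_ne ρ
    (fun i => (f i).ev (It (b : F) (j i) (x, y)).1 (It (b : F) (j i) (x, y)).2)
    (fun i => (u i).ev (It (b : F) (j i) (x, y)).1 (It (b : F) (j i) (x, y)).2)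
    (fun i => (hfu _ _ (hg _) i).1) (fun i => (hfu _ _ (hg _) i).2.1)
    (fun i => (hfu _ _ (hg _) i).2.2)
    (fun i s => (f i).ev (It (b : ℝ) (j i) (X s, Y s)).1 (It (b : ℝ) (j i) (X s, Y s)).2)
    (fun i s => (u i).ev (It (b : ℝ) (j i) (X s, Y s)).1 (It (b : ℝ) (j i) (X s, Y s)).2)
    (fun i => rep_of hR (Q2.R_ev hR (hIt _).1 (hIt _).2 _))
    (fun i => rep_of hR (Q2.R_ev hR (hIt _).1 (hIt _).2 _)) (fun _ => 0) Ex.zero ?_ ((hP0 _).mp hz)
  filter_upwards [eventually_nhds_of_cofinite hall] with s hs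
  rw [zero_add]
  refine hpos X Y κ s ⟨hκ s, ?_, ?_⟩
  · filter_upwards [hs] with t ht n hn
    exact OK_It (hOK t) n fun i hi => (ht i (Finset.mem_range.mpr (hi.trans hn))).1
  · filter_upwards [hs] with t ht n hn
    exact ht n (Finset.mem_range.mpr hn)

end engineT

end Pool.Agent.K4N
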