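import Mathlib

set_option autoImplicit false

/-!
Exact functions on the projective line `P¹(ℝ)`.
-/

namespace Pool.Agent.K4N

open Filter Topology

/-- `φ` is, off a finite set, the derivative of a continuous function with equal limits at
`+∞` and `-∞` -/
def Ex (φ : ℝ → ℝ) : Prop :=
  ∃ Φ : ℝ → ℝ, Continuous Φ ∧ (∀ᶠ s in cofinite, HasDerivAt Φ (φ s) s) ∧
    ∃ l, Tendsto Φ atTop (𝓝 l) ∧ Tendsto Φ atBot (𝓝 l)

lemma Ex.zero : Ex (fun _ => 0) :=
  ⟨fun _ => 0, continuous_const, Eventually.of_forall fun s => hasDerivAt_const s 0,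
    0, tendsto_const_nhds, tendsto_const_nhds⟩

lemma Ex.add {φ ψ : ℝ → ℝ} (hφ : Ex φ) (hψ : Ex ψ) : Ex (fun s => φ s + ψ s) := by
  obtain ⟨Φ, c1, d1, l1, t1, b1⟩ := hφ
  obtain ⟨Ψ, c2, d2, l2, t2, b2⟩ := hψ
  exact ⟨fun s => Φ s + Ψ s, c1.add c2, by filter_upwards [d1, d2] with s h1 h2 using h1.add h2,
    l1 + l2, t1.add t2, b1.add b2⟩

lemma Ex.smul {φ : ℝ → ℝ} (c : ℝ) (hφ : Ex φ) : Ex (fun s => c * φ s) := by
  obtain ⟨Φ, c1, d1, l1, t1, b1⟩ := hφ
  exact ⟨fun s => c * Φ s, continuous_const.mul c1,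
    by filter_upwards [d1] with s h1 using h1.const_mul c,
    c * l1, t1.const_mul c, b1.const_mul c⟩

lemma Ex.congr {φ ψ : ℝ → ℝ} (hφ : Ex φ) (h : φ =ᶠ[cofinite] ψ) : Ex ψ := by
  obtain ⟨Φ, c1, d1, l1⟩ := hφ
  exact ⟨Φ, c1, by filter_upwards [d1, h] with s h1 h2 using h2 ▸ h1, l1⟩

lemma strictMono_cofinite {Φ φ : ℝ → ℝ} (hc : Continuous Φ)
    (h : ∀ᶠ s in cofinite, HasDerivAt Φ (φ s) s ∧ 0 < φ s) : StrictMono Φ := by
  set T : Set ℝ := {s | ¬ (HasDerivAt Φ (φ s) s ∧ 0 < φ s)} with hT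
  have hfin : T.Finite := h
  have key : ∀ n : ℕ, ∀ a b : ℝ, a < b → (T ∩ Set.Ioo a b).ncard = n → Φ a < Φ b := by
    intro n
    induction n using Nat.strong_induction_on with
    | _ n ih =>
      intro a b hab hn
      have hf : (T ∩ Set.Ioo a b).Finite := hfin.subset Set.inter_subset_left
      rcases (T ∩ Set.Ioo a b).eq_empty_or_nonempty with he | ⟨t, htT, htI⟩
      · have := strictMonoOn_of_deriv_pos (convex_Icc a b) hc.continuousOn (fun x hx => by
          rw [interior_Icc] at hx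
          have hxT : x ∉ T := fun hxT => by
            have : x ∈ T ∩ Set.Ioo a b := ⟨hxT, hx⟩
            rw [he] at this
            exact this
          simp only [hT, Set.mem_ofPred_eq, not_not] at hxT
          rw [hxT.1.deriv]
          exact hxT.2)
        exact this (Set.left_mem_Icc.mpr hab.le) (Set.right_mem_Icc.mpr hab.le) hab
      · have h1 : (T ∩ Set.Ioo a t).ncard < n := by
          rw [← hn]
          refine Set.ncard_lt_ncard ⟨?_, ?_⟩ hf
          · rintro x ⟨h1, h2⟩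
            exact ⟨h1, h2.1, h2.2.trans htI.2⟩
          · intro hh
            exact lt_irrefl _ (hh ⟨htT, htI⟩).2.2
        have h2 : (T ∩ Set.Ioo t b).ncard < n := by
          rw [← hn]
          refine Set.ncard_lt_ncard ⟨?_, ?_⟩ hf
          · rintro x ⟨h1, h2⟩
            exact ⟨h1, htI.1.trans h2.1, h2.2⟩
          · intro hh
            exact lt_irrefl _ (hh ⟨htT, htI⟩).2.1
        exact (ih _ h1 a t htI.1 rfl).trans (ih _ h2 t b htI.2 rfl)
  intro a b hab
  exact key _ a b hab rfl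

/-- an exact function is not positive -/
lemma Ex.not_pos {φ : ℝ → ℝ} (hφ : Ex φ) : ¬ ∀ᶠ s in cofinite, 0 < φ s := by
  intro hp
  obtain ⟨Φ, c, d, l, t, b⟩ := hφ
  have hm : StrictMono Φ := strictMono_cofinite c (by
    filter_upwards [d, hp] with s h1 h2 using ⟨h1, h2⟩)
  have h1 : Φ 1 ≤ l := hm.monotone.ge_of_tendsto t 1
  have h2 : l ≤ Φ 0 := hm.monotone.le_of_tendsto b 0
  have h3 : Φ 0 < Φ 1 := hm one_pos
  linarith

lemma cofinite_of_local {p : ℝ → Prop} (h : ∀ s, ∀ᶠ t in 𝓝[≠] s, p t)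
    (h' : ∀ᶠ t in Bornology.cobounded ℝ, p t) : ∀ᶠ t in cofinite, p t := by
  obtain ⟨R, hR⟩ : ∃ R : ℝ, ∀ t, t ∉ Metric.closedBall (0 : ℝ) R → p t := by
    have := (Metric.hasBasis_cobounded_compl_closedBall (0 : ℝ)).eventually_iff.mp h'
    obtain ⟨R, -, hR⟩ := this
    exact ⟨R, fun t ht => hR ht⟩
  have hU : ∀ s : ℝ, ∃ U ∈ 𝓝 s, ∀ t ∈ U, t ≠ s → p t := by
    intro s
    have := h s
    rw [eventually_nhdsWithin_iff] at this
    exact ⟨_, this, fun t ht hts => ht hts⟩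
  choose U hU1 hU2 using hU
  obtain ⟨T, -, hT⟩ := (isCompact_closedBall (0 : ℝ) R).elim_nhds_subcover U (fun s _ => hU1 s)
  refine (T.finite_toSet).subset ?_
  intro t ht
  by_contra hh
  apply ht
  show p t
  by_cases hb : t ∈ Metric.closedBall (0 : ℝ) R
  · have := hT hb
    simp only [Set.mem_iUnion] at this
    obtain ⟨s, hs, hts⟩ := this
    exact hU2 s t hts (fun h => hh (by rw [h]; exact hs))
  · exact hR t hb

end Pool.Agent.K4N
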