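import Pool.Agent.Lib_helper2.K4N.Nv
import Pool.Agent.Lib_helper2.K4C.Final

set_option autoImplicit false

/-!
The class `ξ(P,3P)` is not a combination of symbols of constants.
-/

namespace Pool.Agent.K4N

open Pool.Agent.MK4 Pool.Agent.K4C Pool.Agent.K4CC
open scoped TensorProduct

section

variable {k F : Type*} [Field k] [Field F] [Algebra k F] {x y : F}

/-- the closed element, in the sealed group -/
noncomputable def zaM (x y : F) : MK4.HK F := za x y

lemma za_mem_Cusp (hE : y ^ 2 + y = x ^ 3 - x ^ 2) (hx : Transcendental k x) :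
    zaM x y ∈ Cusp k x y := by
  have h0 := x_ne hx
  have h1 := x1_ne hx
  have h2 := y_ne hE hx
  have h3 := xy_ne hE hx
  have e : zaM x y = ∑ i : Fin 5, MK4.hk (MK4.sy (tx x y i))
      (MK4.lg (tx x y (i + 1) / tx x y (i - 1))) := rfl
  rw [e]
  refine Submodule.sum_mem _ fun i _ => Submodule.subset_span ⟨tx x y i, _, ?_, ?_, rfl⟩
  · exact (MU_isCR hE hx (isCR_tx hE h0 h1 h2 h3 i)).1
  · exact (MU_isCR hE hx (isCR_tx hE h0 h1 h2 h3 i)).2

/-- if every closed element built on cuspidal units is a multiple of `ξ` modulo constants, then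
`ξ` is not a combination of symbols of constants, over a real field -/
theorem not_mem_Cst [CharZero F] (φ : k →+* ℝ) (hE : y ^ 2 + y = x ^ 3 - x ^ 2)
    (hx : Transcendental k x) (htop : IntermediateField.adjoin k {x, y} = ⊤) (ξ : MK4.HK F)
    (hC : Complete k x y ξ) : ξ ∉ Cst k F := by
  intro h
  have h0 := x_ne hx
  have h1 := x1_ne hx
  have h2 := y_ne hE hx
  have h3 := xy_ne hE hx
  obtain ⟨r, hr⟩ := hC (zaM x y) (za_mem_Cusp hE hx)
    ((closed_iff _).mpr (za_closed hE h0 h1 h2 h3))
  have h4 : zaM x y ∈ Cst k F := by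
    have e : zaM x y = (zaM x y - r • ξ) + r • ξ := by
      rw [sub_add_cancel]
    rw [e]
    exact Submodule.add_mem _ hr (Submodule.smul_mem _ _ h)
  refine za_not_mem φ hE hx htop ?_
  refine (Submodule.span_mono ?_) h4
  rintro z ⟨c, u, rfl⟩
  exact ⟨c, MK4.lg u, rfl⟩

end

end Pool.Agent.K4N
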