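import Pool.Agent.Lib_helper2.K4N.LA
import Pool.Agent.Lib_helper2.K4N.EngT

set_option autoImplicit false

/-!
Densities of sums of terms in terms of the logarithms of the units.
-/

namespace Pool.Agent.K4N

open Filter Topology

namespace LA

lemma hasDerivAt_lin {L : List (ℝ → ℝ)} {D : List ℝ} {s : ℝ}
    (h : List.Forall₂ (fun f d => HasDerivAt f d s) L D) (v : List ℤ) :
    HasDerivAt (fun t => lin v (L.map fun f => f t)) (lin v D) s := by
  induction h generalizing v with
  | nil =>
    simp only [List.map_nil, lin_nil']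
    exact hasDerivAt_const s (0 : ℝ)
  | cons h _ ih =>
    cases v with
    | nil =>
      simp only [lin_nil]
      exact hasDerivAt_const s (0 : ℝ)
    | cons n v => exact (h.const_mul (n : ℝ)).add (ih v)

lemma lin_zeros (v : List ℤ) (m : ℕ) : lin v (List.replicate m 0) = 0 := by
  induction m generalizing v with
  | zero => simp
  | succ m ih =>
    cases v with
    | nil => simp
    | cons n v => rw [List.replicate_succ, lin_cons, mul_zero, zero_add, ih]

lemma lin_smul (K : ℝ) (v : List ℤ) (a : List ℝ) : lin v (a.map (K * ·)) = K * lin v a := by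
  induction a generalizing v with
  | nil => simp
  | cons x a ih =>
    cases v with
    | nil => simp
    | cons n v =>
      rw [List.map_cons, lin_cons, lin_cons, ih]
      ring

/-- the derivative from the logarithm -/
lemma log_deriv {F ℓ : ℝ → ℝ} {F' φ s : ℝ} (hF : HasDerivAt F F' s) (h0 : F s ≠ 0)
    (hℓ : HasDerivAt ℓ φ s) (e : ∀ᶠ t in 𝓝 s, Real.log (F t) = ℓ t) : φ = F' / F s := by
  have h1 := hF.log h0
  have h2 : HasDerivAt ℓ (F' / F s) s := h1.congr_of_eventuallyEq (e.mono fun t ht => ht.symm)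
  exact hℓ.unique h2

/-- the density of a term -/
lemma dens {F : ℝ → ℝ} {F' s : ℝ} (hF : HasDerivAt F F' s) (h0 : F s ≠ 0) (h1 : F s ≠ 1)
    {ℓ m : ℝ → ℝ} {φ γ : ℝ} (hℓ : HasDerivAt ℓ φ s) (hm : HasDerivAt m γ s)
    (e : ∀ᶠ t in 𝓝 s, Real.log (F t) = ℓ t) (e' : ∀ᶠ t in 𝓝 s, Real.log (1 - F t) = m t) :
    -(Rf (F s)) * F' = m s * φ - ℓ s * γ := by
  have h1' : 1 - F s ≠ 0 := sub_ne_zero.mpr (Ne.symm h1)
  have a := log_deriv hF h0 hℓ e
  have b := log_deriv (F := fun t => 1 - F t) (hF.const_sub 1) h1' hm e'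
  rw [← e.self_of_nhds, ← e'.self_of_nhds, a, b]
  unfold Rf
  field_simp
  ring

lemma sum_orb (A : List (List ℤ)) (a d : ℕ → List ℝ) (n : ℕ)
    (h : ∀ j, j + 1 < n → Rel A (a j) (d j) (a (j + 1)) (d (j + 1))) (L : List Tm) :
    ((orb A n L).map fun t => t.tri (a 0) (d 0)).sum =
      ∑ j ∈ Finset.range n, (L.map fun t => t.tri (a j) (d j)).sum := by
  induction n generalizing L with
  | zero => simp [orb]
  | succ n ih =>
    rw [show orb A (n + 1) L = L ++ orb A n (L.map (Tm.act A)) from rfl, List.map_append,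
      List.sum_append, ih (fun j hj => h j (by omega)), Finset.sum_range_succ', add_comm]
    congr 1
    refine Finset.sum_congr rfl fun j hj => ?_
    rw [List.map_map]
    congr 1
    refine List.map_congr_left fun t _ => ?_
    exact ((h j (by simpa using hj)).tri t).symm

lemma sum_move (A : List (List ℤ)) (a d : ℕ → List ℝ) (n : ℕ)
    (h : ∀ j, j < n → Rel A (a j) (d j) (a (j + 1)) (d (j + 1))) {L : List Tm} {m : ℕ}
    (hL : L.map (Tm.act A) = L.rotate m) :
    (L.map fun t => t.tri (a n) (d n)).sum = (L.map fun t => t.tri (a 0) (d 0)).sum := by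
  induction n with
  | zero => rfl
  | succ n ih =>
    rw [(h n (Nat.lt_succ_self n)).sum hL]
    exact ih fun j hj => h j (by omega)

/-- the sign of a class -/
lemma pair_pos {φ γ F G : ℝ} (hF : 0 < F) (hG : 0 < G) (hs : F + G = 1)
    (rel : F * φ + G * γ = 0) (hφ : φ < 0) : 0 < Real.log G * φ - Real.log F * γ := by
  have h1 : Real.log F < 0 := Real.log_neg hF (by linarith)
  have h2 : Real.log G < 0 := Real.log_neg hG (by linarith)
  have h3 : 0 < γ := by
    by_contra hh
    push Not at hh
    have := mul_nonpos_of_nonneg_of_nonpos hG.le hh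
    have := mul_neg_of_pos_of_neg hF hφ
    linarith
  have h4 := mul_pos_of_neg_of_neg h2 hφ
  have h5 := mul_neg_of_neg_of_pos h1 h3
  linarith

lemma dec_cases {φ γ F G : ℝ} (hF : 0 < F) (hG : 0 < G) (rel : F * φ + G * γ = 0)
    (h : φ < 0 ∨ -γ < 0 ∨ φ - γ < 0) : φ < 0 := by
  rcases h with h | h | h
  · exact h
  · by_contra hh
    push Not at hh
    have := mul_nonneg hF.le hh
    have := mul_pos hG (by linarith : 0 < γ)
    linarith
  · by_contra hh
    push Not at hh
    have h1 := mul_nonneg hF.le hh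
    have h2 := mul_pos hG (by linarith : 0 < γ)
    linarith

lemma lin_pos {co : List ℤ} {U : List ℝ} (hl : co.length = U.length) (h0 : ∀ x ∈ co, 0 ≤ x)
    (hU : ∀ y ∈ U, 0 < y) (h1 : ∃ x ∈ co, 0 < x) : 0 < lin co U := by
  have hnn : ∀ (co : List ℤ) (U : List ℝ), (∀ x ∈ co, 0 ≤ x) → (∀ y ∈ U, 0 < y) →
      0 ≤ lin co U := by
    intro co
    induction co with
    | nil => intro U _ _; simp
    | cons n co ih =>
      intro U h0 hU
      cases U with
      | nil => simp
      | cons y U =>
        rw [lin_cons]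
        have a : (0 : ℝ) ≤ n := by exact_mod_cast h0 n List.mem_cons_self
        exact add_nonneg (mul_nonneg a (hU y List.mem_cons_self).le)
          (ih U (fun x hx => h0 x (List.mem_cons_of_mem _ hx))
            fun y hy => hU y (List.mem_cons_of_mem _ hy))
  induction co generalizing U with
  | nil =>
    obtain ⟨x, hx, _⟩ := h1
    exact absurd hx List.not_mem_nil
  | cons n co ih =>
    cases U with
    | nil => simp at hl
    | cons y U =>
      rw [lin_cons]
      have a : (0 : ℝ) ≤ n := by exact_mod_cast h0 n List.mem_cons_self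
      have hy := hU y List.mem_cons_self
      have h0' : ∀ x ∈ co, 0 ≤ x := fun x hx => h0 x (List.mem_cons_of_mem _ hx)
      have hU' : ∀ y ∈ U, 0 < y := fun y hy => hU y (List.mem_cons_of_mem _ hy)
      obtain ⟨x, hx, hx0⟩ := h1
      rcases List.mem_cons.mp hx with rfl | hx
      · have : (0 : ℝ) < x := by exact_mod_cast hx0
        exact add_pos_of_pos_of_nonneg (mul_pos this hy) (hnn _ _ h0' hU')
      · exact add_pos_of_nonneg_of_pos (mul_nonneg a hy.le)
          (ih (by simpa using hl) h0' hU' ⟨x, hx, hx0⟩)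

lemma list_sum_pos {L : List ℝ} (h : ∀ x ∈ L, 0 < x) (hne : L ≠ []) : 0 < L.sum := by
  cases L with
  | nil => exact absurd rfl hne
  | cons x L =>
    rw [List.sum_cons]
    refine add_pos_of_pos_of_nonneg (h x List.mem_cons_self) (List.sum_nonneg fun y hy => ?_)
    exact (h y (List.mem_cons_of_mem _ hy)).le

end LA

end Pool.Agent.K4N
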