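import Pool.Agent.Lib_helper2.K4N.Exact
import Pool.Agent.Lib_helper2.K4N.Rpos

set_option autoImplicit false

/-!
Inequalities for the curve `y² + xy - y = x³ - x²`.
-/

namespace Pool.Agent.K4N

open Real Filter Topology

/-- `R ≥ 2` between `0` and `1` -/
lemma Rf_ge_two {f : ℝ} (h0 : 0 < f) (h1 : f < 1) : 2 ≤ Rf f := by
  unfold Rf
  have a1 : log (1 - f) ≤ -f := by
    have := log_le_sub_one_of_pos (sub_pos.mpr h1)
    linarith
  have a2 : log f ≤ -(1 - f) := by
    have := log_le_sub_one_of_pos h0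
    linarith
  have b1 : log (1 - f) / f ≤ -1 := by
    rw [div_le_iff₀ h0]; linarith
  have b2 : log f / (1 - f) ≤ -1 := by
    rw [div_le_iff₀ (sub_pos.mpr h1)]; linarith
  linarith

/-- a lower bound at negative arguments -/
lemma Rf_neg_ge {a : ℝ} (h0 : 0 < a) (h1 : a < 1) :
    2 / (2 + a) + (1 - a) / (1 + a) ≤ Rf (-a) := by
  unfold Rf
  have a1 : 2 * a / (a + 2) ≤ log (1 + a) := le_log_one_add_of_nonneg h0.le
  have a2 : log a ≤ -(1 - a) := by
    have := log_le_sub_one_of_pos h0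
    linarith
  rw [log_neg_eq_log, sub_neg_eq_add]
  have b1 : 2 / (2 + a) ≤ log (1 + a) / a := by
    rw [le_div_iff₀ h0]
    have : 2 / (2 + a) * a = 2 * a / (a + 2) := by
      rw [add_comm a 2]; ring
    rw [this]; exact a1
  have b2 : (1 - a) / (1 + a) ≤ -(log a / (1 + a)) := by
    rw [← neg_div]
    exact div_le_div_of_nonneg_right (by linarith) (by linarith)
  have e : log (1 + a) / -a = -(log (1 + a) / a) := by rw [div_neg]
  rw [e]
  linarith

/-- the bound with the factor -/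
lemma Rf_neg_factor {a r : ℝ} (h0 : 0 < a) (h1 : a ≤ 13 / 20) (hr0 : 0 ≤ r)
    (hr : 3 / 5 < a → 2 / 5 ≤ r) : 1 ≤ Rf (-a) * (1 + r) := by
  have h := Rf_neg_ge h0 (by linarith)
  rcases le_or_gt a (3 / 5) with h2 | h2
  · have h3 : 1 ≤ 2 / (2 + a) + (1 - a) / (1 + a) := by
      rw [div_add_div _ _ (by linarith) (by linarith), le_div_iff₀ (by positivity)]
      nlinarith
    have h4 : 1 ≤ Rf (-a) := h3.trans h
    nlinarith
  · have h5 := hr h2
    have h3 : 9 / 10 ≤ 2 / (2 + a) + (1 - a) / (1 + a) := by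
      rw [div_add_div _ _ (by linarith) (by linarith), le_div_iff₀ (by positivity)]
      nlinarith
    have h4 : 9 / 10 ≤ Rf (-a) := h3.trans h
    nlinarith

/-- the entropy bound -/
lemma ent_bound {X : ℝ} (hX : 1 < X) : (X - 1) * Rf X ≤ log 2 := by
  have h0 : 0 < X := by linarith
  have h := binEntropy_le_log_two (p := X⁻¹)
  unfold binEntropy at h
  have e1 : (1 : ℝ) - X⁻¹ = (X - 1) / X := by field_simp
  rw [inv_inv, e1, log_inv, log_div (by linarith) (by linarith)] at h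
  have e2 : log (1 - X) = log (X - 1) := by
    rw [← log_neg_eq_log]; congr 1; ring
  have e3 : (X - 1) * Rf X = X⁻¹ * log X + (X - 1) / X * -(log (X - 1) - log X) := by
    unfold Rf
    rw [e2]
    have : (1 - X : ℝ) ≠ 0 := by linarith
    have h' : (X - 1 : ℝ) ≠ 0 := by linarith
    have e4 : (1 - X : ℝ) = -(X - 1) := by ring
    rw [e4]
    field_simp
    ring
  rw [e3]
  exact h

section curve

variable {s S : ℝ} (hS : 0 < S) (hS2 : S ^ 2 = 4 * (1 + s ^ 2) ^ 2 + s ^ 2)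

include hS hS2

lemma S_ge : 2 * (1 + s ^ 2) ≤ S := by
  have : (2 * (1 + s ^ 2)) ^ 2 ≤ S ^ 2 := by rw [hS2]; nlinarith [sq_nonneg s]
  exact abs_le_of_sq_le_sq' this hS.le |>.2

lemma S_le : S ≤ 21 / 10 * (1 + s ^ 2) := by
  have h1 : S ^ 2 ≤ (21 / 10 * (1 + s ^ 2)) ^ 2 := by
    rw [hS2]
    have : 4 * s ^ 2 ≤ (1 + s ^ 2) ^ 2 := by nlinarith [sq_nonneg (1 - s ^ 2)]
    nlinarith [sq_nonneg (1 + s ^ 2)]
  exact abs_le_of_sq_le_sq' h1 (by positivity) |>.2

omit hS hS2 in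
lemma abs_s_le : |s| ≤ (1 + s ^ 2) / 2 := by
  rw [abs_le]
  constructor <;> nlinarith [sq_nonneg (1 - s), sq_nonneg (1 + s)]

/-- the first bound: `v₀ (1+s²) < 2` -/
lemma v0_bound (hs : 0 < s) :
    2 * s * Rf (1 + s ^ 2) * log ((S + s) / (S - s)) * (1 + s ^ 2) < 2 := by
  have hX : (1 : ℝ) < 1 + s ^ 2 := by nlinarith
  have h1 := S_ge hS hS2
  have h2 : s ≤ (1 + s ^ 2) / 2 := by nlinarith [sq_nonneg (1 - s)]
  have h3 : 3 / 2 * (1 + s ^ 2) ≤ S - s := by linarith
  have h4 : 0 < S - s := by linarith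
  have hl : log ((S + s) / (S - s)) ≤ 4 / 3 * s / (1 + s ^ 2) := by
    have h5 := log_le_sub_one_of_pos (div_pos (by linarith : 0 < S + s) h4)
    have h6 : (S + s) / (S - s) - 1 = 2 * s / (S - s) := by field_simp; ring
    rw [h6] at h5
    refine h5.trans ?_
    rw [div_le_div_iff₀ h4 (by linarith)]
    nlinarith
  have hR : 0 < Rf (1 + s ^ 2) := Rf_pos (by linarith) (by nlinarith)
  have h7 : 2 * s * Rf (1 + s ^ 2) * log ((S + s) / (S - s)) * (1 + s ^ 2) ≤
      2 * s * Rf (1 + s ^ 2) * (4 / 3 * s / (1 + s ^ 2)) * (1 + s ^ 2) := by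
    apply mul_le_mul_of_nonneg_right _ (by linarith)
    apply mul_le_mul_of_nonneg_left hl
    positivity
  have h8 : 2 * s * Rf (1 + s ^ 2) * (4 / 3 * s / (1 + s ^ 2)) * (1 + s ^ 2) =
      8 / 3 * ((1 + s ^ 2 - 1) * Rf (1 + s ^ 2)) := by
    field_simp
    ring
  have h9 := ent_bound hX
  have h10 := Real.log_two_lt_d9
  linarith

/-- the second bound -/
lemma B_bound (hs : s ≠ 0) :
    2 ≤ Rf (s * (S - s) / (2 * (1 + s ^ 2) ^ 2)) * ((S - s) ^ 2 / (S * (1 + s ^ 2))) := by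
  have h1 := S_ge hS hS2
  have h2 := S_le hS hS2
  have hX : (0 : ℝ) < 1 + s ^ 2 := by positivity
  have h3 := abs_le.mp (abs_s_le (s := s))
  rcases lt_or_gt_of_ne hs with h | h
  · -- negative
    have ha : s * (S - s) / (2 * (1 + s ^ 2) ^ 2) =
        -(-s * (S - s) / (2 * (1 + s ^ 2) ^ 2)) := by ring
    rw [ha]
    have a0 : 0 < -s * (S - s) / (2 * (1 + s ^ 2) ^ 2) := by
      apply div_pos (mul_pos (by linarith) (by linarith)) (by positivity)
    have hSs : S - s ≤ 26 / 10 * (1 + s ^ 2) := by linarith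
    have a1 : -s * (S - s) / (2 * (1 + s ^ 2) ^ 2) ≤ 13 / 20 := by
      rw [div_le_iff₀ (by positivity)]
      nlinarith
    have key := Rf_neg_factor a0 a1 (r := -s / (1 + s ^ 2)) (div_nonneg (by linarith) hX.le) (by
      intro h5
      rw [lt_div_iff₀ (by positivity)] at h5
      rw [le_div_iff₀ hX]
      nlinarith)
    have hf : 2 * (1 + -s / (1 + s ^ 2)) ≤ (S - s) ^ 2 / (S * (1 + s ^ 2)) := by
      rw [le_div_iff₀ (by positivity)]
      have e : 2 * (1 + -s / (1 + s ^ 2)) * (S * (1 + s ^ 2)) = 2 * S * (1 + s ^ 2 - s) := by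
        field_simp
        ring
      rw [e]
      nlinarith [sq_nonneg s]
    have hR := Rf_pos (f := -(-s * (S - s) / (2 * (1 + s ^ 2) ^ 2))) (by linarith [neg_lt_zero.mpr a0])
      (by linarith)
    calc (2 : ℝ) ≤ 2 * (Rf (-(-s * (S - s) / (2 * (1 + s ^ 2) ^ 2))) * (1 + -s / (1 + s ^ 2))) := by
          linarith
      _ = Rf (-(-s * (S - s) / (2 * (1 + s ^ 2) ^ 2))) * (2 * (1 + -s / (1 + s ^ 2))) := by ring
      _ ≤ _ := mul_le_mul_of_nonneg_left hf hR.le
  · have f0 : 0 < s * (S - s) / (2 * (1 + s ^ 2) ^ 2) :=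
      div_pos (mul_pos h (by linarith)) (by positivity)
    have f1 : s * (S - s) / (2 * (1 + s ^ 2) ^ 2) < 1 := by
      rw [div_lt_one (by positivity)]
      nlinarith
    have hR := Rf_ge_two f0 f1
    have hf : 1 ≤ (S - s) ^ 2 / (S * (1 + s ^ 2)) := by
      rw [le_div_iff₀ (by positivity)]
      nlinarith
    nlinarith

end curve

end Pool.Agent.K4N
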