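import Pool.Agent.Lib_helper2.K4N.Mer
import Pool.Agent.Lib_helper2.K4N.Rpos

set_option autoImplicit false

/-!
Local integrability of the regulator density.
-/

namespace Pool.Agent.K4N

open Real Filter Topology MeasureTheory

/-- bounded by a multiple of `1 + |log|t - s||` near `s` -/
def LogB (h : ℝ → ℝ) (s : ℝ) : Prop :=
  ∃ C : ℝ, ∀ᶠ t in 𝓝[≠] s, |h t| ≤ C * (1 + |log (t - s)|)

lemma LogB.congr {h h' : ℝ → ℝ} {s : ℝ} (H : LogB h s) (e : h =ᶠ[𝓝[≠] s] h') : LogB h' s := by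
  obtain ⟨C, hC⟩ := H
  refine ⟨C, ?_⟩
  filter_upwards [hC, e] with t h1 h2
  rwa [← h2]

lemma LogB.add {h h' : ℝ → ℝ} {s : ℝ} (H : LogB h s) (H' : LogB h' s) :
    LogB (fun t => h t + h' t) s := by
  obtain ⟨C, hC⟩ := H
  obtain ⟨C', hC'⟩ := H'
  refine ⟨C + C', ?_⟩
  filter_upwards [hC, hC'] with t h1 h2
  calc |h t + h' t| ≤ |h t| + |h' t| := abs_add_le _ _
    _ ≤ _ := by rw [add_mul]; exact add_le_add h1 h2

lemma LogB.neg {h : ℝ → ℝ} {s : ℝ} (H : LogB h s) : LogB (fun t => -h t) s := by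
  obtain ⟨C, hC⟩ := H
  exact ⟨C, by filter_upwards [hC] with t h1; rwa [abs_neg]⟩

/-- a bounded function -/
lemma LogB.of_bdd {h : ℝ → ℝ} {s B : ℝ} (H : ∀ᶠ t in 𝓝[≠] s, |h t| ≤ B) : LogB h s := by
  refine ⟨B, ?_⟩
  filter_upwards [H] with t h1
  have hB : 0 ≤ B := (abs_nonneg _).trans h1
  nlinarith [abs_nonneg (log (t - s))]

lemma bdd_of_cont {h : ℝ → ℝ} {s : ℝ} (H : ContinuousAt h s) :
    ∃ B, 0 ≤ B ∧ ∀ᶠ t in 𝓝[≠] s, |h t| ≤ B := by
  have h1 : ContinuousAt (fun t => |h t|) s := H.abs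
  have h2 : ∀ᶠ t in 𝓝 s, |h t| < |h s| + 1 := h1.eventually_lt_const (by simp)
  exact ⟨|h s| + 1, by positivity, (h2.filter_mono nhdsWithin_le_nhds).mono fun t ht => ht.le⟩

lemma LogB.of_cont {h : ℝ → ℝ} {s : ℝ} (H : ContinuousAt h s) : LogB h s := by
  obtain ⟨B, -, hB⟩ := bdd_of_cont H
  exact LogB.of_bdd hB

/-- times a bounded function -/
lemma LogB.mul_bdd {h g : ℝ → ℝ} {s B : ℝ} (H : LogB h s) (hg : ∀ᶠ t in 𝓝[≠] s, |g t| ≤ B) :
    LogB (fun t => h t * g t) s := by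
  obtain ⟨C, hC⟩ := H
  refine ⟨C * B, ?_⟩
  filter_upwards [hC, hg] with t h1 h2
  rw [abs_mul]
  have hB : 0 ≤ B := (abs_nonneg _).trans h2
  calc |h t| * |g t| ≤ (C * (1 + |log (t - s)|)) * B :=
        mul_le_mul h1 h2 (abs_nonneg _) ((abs_nonneg _).trans h1)
    _ = _ := by ring

lemma LogB.mul_cont {h g : ℝ → ℝ} {s : ℝ} (H : LogB h s) (hg : ContinuousAt g s) :
    LogB (fun t => h t * g t) s := by
  obtain ⟨B, -, hB⟩ := bdd_of_cont hg
  exact H.mul_bdd hB

/-- the logarithm of a power times a function without zero -/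
lemma LogB.log_zpow {u : ℝ → ℝ} {s : ℝ} (n : ℤ) (hu : ContinuousAt u s) (h0 : u s ≠ 0) :
    LogB (fun t => log ((t - s) ^ n * u t)) s := by
  have h1 : LogB (fun t => (n : ℝ) * log (t - s)) s := by
    refine ⟨|(n : ℝ)|, Eventually.of_forall fun t => ?_⟩
    rw [abs_mul]
    nlinarith [abs_nonneg (n : ℝ), abs_nonneg (log (t - s))]
  have h2 : LogB (fun t => log (u t)) s := LogB.of_cont (hu.log h0)
  refine (h1.add h2).congr ?_
  filter_upwards [self_mem_nhdsWithin, (hu.eventually_ne h0).filter_mono nhdsWithin_le_nhds]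
    with t ht h3
  have ht0 : t - s ≠ 0 := sub_ne_zero.mpr ht
  rw [Real.log_mul (zpow_ne_zero n ht0) h3, Real.log_zpow]

/-- the logarithm of a meromorphic function -/
lemma LogB.log_mer {g : ℝ → ℝ} {s : ℝ} (hg : MeromorphicAt g s) (h0 : ∀ᶠ t in 𝓝[≠] s, g t ≠ 0) :
    LogB (fun t => log (g t)) s := by
  have hne : meromorphicOrderAt g s ≠ ⊤ := by
    intro h
    have h1 := (meromorphicOrderAt_eq_top_iff).mp h
    obtain ⟨t, h2, h3⟩ := (h1.and h0).exists
    exact h3 h2
  obtain ⟨u, hu, hu0, e⟩ := (meromorphicOrderAt_ne_top_iff hg).mp hne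
  refine (LogB.log_zpow (meromorphicOrderAt g s).untop₀ hu.continuousAt hu0).congr ?_
  filter_upwards [e] with t ht
  rw [ht, smul_eq_mul]

/-- `log|1-f| f'/f + log|f| f'/(1-f)` -/
noncomputable def wf (f : ℝ → ℝ) (t : ℝ) : ℝ :=
  log (1 - f t) * (deriv f t / f t) + log (f t) * (deriv f t / (1 - f t))

lemma wf_congr {f g : ℝ → ℝ} {t : ℝ} (h : f =ᶠ[𝓝 t] g) : wf f t = wf g t := by
  unfold wf
  rw [h.deriv_eq, h.eq_of_nhds]

lemma wf_congr_nhdsNE {f g : ℝ → ℝ} {s : ℝ} (h : f =ᶠ[𝓝[≠] s] g) : wf f =ᶠ[𝓝[≠] s] wf g := by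
  have h1 := eventually_eventually_nhdsWithin.mpr h
  filter_upwards [h1, self_mem_nhdsWithin] with t ht hts
  refine wf_congr ?_
  rw [eventually_nhdsWithin_iff] at ht
  filter_upwards [ht, isOpen_compl_singleton.mem_nhds hts] with u h2 h3 using h2 h3

lemma wf_one_sub (f : ℝ → ℝ) (t : ℝ) : wf (fun u => 1 - f u) t = - wf f t := by
  unfold wf
  rw [deriv_const_sub]
  simp only [sub_sub_cancel]
  ring

lemma wf_inv {f : ℝ → ℝ} {t : ℝ} (hd : DifferentiableAt ℝ f t) (h0 : f t ≠ 0) (h1 : f t ≠ 1) :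
    wf (fun u => (f u)⁻¹) t = - wf f t := by
  have e : deriv (fun u => (f u)⁻¹) t = - deriv f t / f t ^ 2 := by
    exact (hd.hasDerivAt.inv h0).deriv
  have h1' : 1 - f t ≠ 0 := sub_ne_zero.mpr h1.symm
  have h1'' : f t - 1 ≠ 0 := sub_ne_zero.mpr h1
  have e1 : log (1 - (f t)⁻¹) = log (1 - f t) - log (f t) := by
    rw [show 1 - (f t)⁻¹ = -(1 - f t) / f t by field_simp; ring,
      log_div (neg_ne_zero.mpr h1') h0, log_neg_eq_log]
  unfold wf
  rw [e, e1, log_inv]
  have e2 : (1 - (f t)⁻¹) = (f t - 1) / f t := by field_simp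
  rw [e2]
  field_simp
  ring

/-- the zero case -/
lemma LogB.wf_zero {F : ℝ → ℝ} {s : ℝ} (hF : AnalyticAt ℝ F s) (hs : F s = 0)
    (h0 : ∀ᶠ t in 𝓝[≠] s, F t ≠ 0) : LogB (wf F) s := by
  have hc : ContinuousAt F s := hF.continuousAt
  have hd : ContinuousAt (deriv F) s := hF.deriv.continuousAt
  have hsm : ∀ᶠ t in 𝓝[≠] s, |F t| < 1 / 2 := by
    have : ContinuousAt (fun t => |F t|) s := hc.abs
    exact (this.eventually_lt_const (by simp [hs])).filter_mono nhdsWithin_le_nhds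
  obtain ⟨B, hB0, hB⟩ := bdd_of_cont hd
  have h1 : LogB (fun t => log (1 - F t) * (deriv F t / F t)) s := by
    refine LogB.of_bdd (B := 2 * B) ?_
    filter_upwards [hsm, hB, h0] with t a b c
    have l := Real.abs_log_sub_add_sum_range_le (x := F t) (by linarith) 0
    simp only [Finset.range_zero, Finset.sum_empty, zero_add, pow_one] at l
    have l2 : |log (1 - F t)| ≤ 2 * |F t| := by
      refine l.trans ?_
      rw [div_le_iff₀ (by linarith)]
      nlinarith [abs_nonneg (F t)]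
    have hFt : 0 < |F t| := abs_pos.mpr c
    rw [abs_mul, abs_div]
    calc |log (1 - F t)| * (|deriv F t| / |F t|) ≤ (2 * |F t|) * (B / |F t|) := by
          apply mul_le_mul l2 _ (by positivity) (by positivity)
          exact div_le_div_of_nonneg_right b hFt.le
      _ = 2 * B := by field_simp
  have h2 : LogB (fun t => log (F t) * (deriv F t / (1 - F t))) s := by
    refine (LogB.log_mer hF.meromorphicAt h0).mul_cont ?_
    exact hd.div (continuousAt_const.sub hc) (by rw [hs]; norm_num)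
  exact h1.add h2

/-- **The form is bounded by a logarithm.** -/
theorem LogB.wf_mer {f : ℝ → ℝ} {s : ℝ} (hf : MeromorphicAt f s)
    (h0 : ∀ᶠ t in 𝓝[≠] s, f t ≠ 0) (h1 : ∀ᶠ t in 𝓝[≠] s, f t ≠ 1) : LogB (wf f) s := by
  -- nonnegative order
  have key : ∀ g : ℝ → ℝ, MeromorphicAt g s → (∀ᶠ t in 𝓝[≠] s, g t ≠ 0) →
      (∀ᶠ t in 𝓝[≠] s, g t ≠ 1) → 0 ≤ meromorphicOrderAt g s → LogB (wf g) s := by
    intro g hg g0 g1 ho
    have hne : meromorphicOrderAt g s ≠ ⊤ := by
      intro h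
      obtain ⟨t, h2, h3⟩ := (((meromorphicOrderAt_eq_top_iff).mp h).and g0).exists
      exact h3 h2
    obtain ⟨u, hu, hu0, e⟩ := (meromorphicOrderAt_ne_top_iff hg).mp hne
    set n := (meromorphicOrderAt g s).untop₀ with hn
    have hn0 : 0 ≤ n := by
      have : ((n : ℤ) : WithTop ℤ) = meromorphicOrderAt g s := WithTop.coe_untop₀_of_ne_top hne
      rw [← this] at ho
      exact_mod_cast ho
    obtain ⟨m, hm⟩ := Int.eq_ofNat_of_zero_le hn0
    set F : ℝ → ℝ := fun t => (t - s) ^ m * u t with hF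
    have hFa : AnalyticAt ℝ F s := ((analyticAt_id.sub analyticAt_const).pow m).mul hu
    have eF : g =ᶠ[𝓝[≠] s] F := by
      filter_upwards [e] with t ht
      rw [ht, hm, smul_eq_mul, hF]
      simp
    have F0 : ∀ᶠ t in 𝓝[≠] s, F t ≠ 0 := by
      filter_upwards [eF, g0] with t a b; rwa [← a]
    have F1 : ∀ᶠ t in 𝓝[≠] s, F t ≠ 1 := by
      filter_upwards [eF, g1] with t a b; rwa [← a]
    refine LogB.congr ?_ (wf_congr_nhdsNE eF).symm
    by_cases c0 : F s = 0
    · exact LogB.wf_zero hFa c0 F0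
    by_cases c1 : F s = 1
    · have hG : AnalyticAt ℝ (fun t => 1 - F t) s := analyticAt_const.sub hFa
      have := LogB.wf_zero hG (by simp [c1]) (by
        filter_upwards [F1] with t a b; exact a (by linarith))
      refine this.neg.congr (Eventually.of_forall fun t => ?_)
      show -wf (fun u => 1 - F u) t = wf F t
      rw [wf_one_sub, neg_neg]
    · have hc : ContinuousAt F s := hFa.continuousAt
      have hd : ContinuousAt (deriv F) s := hFa.deriv.continuousAt
      have c1' : 1 - F s ≠ 0 := sub_ne_zero.mpr (Ne.symm c1)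
      refine LogB.of_cont ?_
      exact (((continuousAt_const.sub hc).log c1').mul (hd.div hc c0)).add
        ((hc.log c0).mul (hd.div (continuousAt_const.sub hc) c1'))
  rcases lt_or_ge (meromorphicOrderAt f s) 0 with ho | ho
  · have hi : 0 ≤ meromorphicOrderAt (f⁻¹) s := by
      rw [meromorphicOrderAt_inv]
      have hne : meromorphicOrderAt f s ≠ ⊤ := ho.ne_top
      lift meromorphicOrderAt f s to ℤ using hne with n hn
      have : n < 0 := by exact_mod_cast ho
      have : (0 : ℤ) ≤ -n := by omega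
      exact_mod_cast this
    have := key f⁻¹ hf.inv (by filter_upwards [h0] with t a; exact inv_ne_zero a)
      (by filter_upwards [h1] with t a b; exact a (inv_eq_one.mp b)) hi
    refine this.neg.congr ?_
    filter_upwards [h0, h1, hf.eventually_analyticAt] with t a b c
    show -wf (fun u => (f u)⁻¹) t = wf f t
    rw [wf_inv c.differentiableAt a b, neg_neg]
  · exact key f hf h0 h1 ho

end Pool.Agent.K4N
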