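import Pool.Agent.Lib_helper2.K4N.Int1

set_option autoImplicit false

/-!
Integrability of the regulator density on the projective line `P¹(ℝ)`.
-/

namespace Pool.Agent.K4N

open Real Filter Topology MeasureTheory

/-- `log|g| (log|1-f| dlog|f| - log|f| dlog|1-f|)` -/
noncomputable def dn (f g : ℝ → ℝ) (t : ℝ) : ℝ := log (g t) * wf f t

/-! ### the square of the logarithm -/

lemma logsq_int01 : IntervalIntegrable (fun x : ℝ => log x ^ 2) volume 0 1 := by
  have hc : Continuous fun x : ℝ => x * log x ^ 2 - 2 * (x * log x) + 2 * x :=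
    (cont_h.sub (continuous_const.mul Real.continuous_mul_log)).add
      (continuous_const.mul continuous_id)
  refine intervalIntegral.intervalIntegrable_deriv_of_nonneg (g := fun x : ℝ => x * log x ^ 2 -
    2 * (x * log x) + 2 * x) hc.continuousOn ?_ ?_
  · intro x hx
    have hx0 : x ≠ 0 := by
      have := hx.1
      rw [min_eq_left zero_le_one] at this
      exact this.ne'
    have h1 := Real.hasDerivAt_log hx0
    have h2 := (((hasDerivAt_id x).mul (h1.pow 2)).sub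
      (((hasDerivAt_id x).mul h1).const_mul 2)).add ((hasDerivAt_id x).const_mul 2)
    refine h2.congr_deriv ?_
    simp only [id_eq, Nat.cast_ofNat, Pi.pow_apply]
    field_simp
    ring
  · intro x _
    positivity

lemma logsq_int {δ : ℝ} (hδ : 0 ≤ δ) (h1 : δ ≤ 1) :
    IntervalIntegrable (fun x : ℝ => log x ^ 2) volume (-δ) δ := by
  have a : IntervalIntegrable (fun x : ℝ => log x ^ 2) volume 0 δ :=
    logsq_int01.mono_set (by
      rw [Set.uIcc_of_le hδ, Set.uIcc_of_le zero_le_one]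
      exact Set.Icc_subset_Icc le_rfl h1)
  have b : IntervalIntegrable (fun x : ℝ => log x ^ 2) volume (-δ) 0 := by
    have := a.comp_sub_left 0
    simp only [zero_sub, sub_zero, log_neg_eq_log] at this
    exact this.symm
  exact b.trans a

lemma kern_int (C s : ℝ) {δ : ℝ} (hδ : 0 < δ) (h1 : δ ≤ 1) :
    IntegrableOn (fun t => C * (1 + |log (t - s)|) ^ 2) (Set.Ioo (s - δ) (s + δ)) volume := by
  have a := logsq_int hδ.le h1
  have b : IntervalIntegrable (fun x : ℝ => log (x - s) ^ 2) volume (s - δ) (s + δ) := by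
    have := a.comp_sub_right s
    have e1 : -δ + s = s - δ := by ring
    have e2 : δ + s = s + δ := by ring
    rwa [e1, e2] at this
  have c : IntervalIntegrable (fun x : ℝ => log (x - s)) volume (s - δ) (s + δ) := by
    have : IntervalIntegrable (fun x : ℝ => log x) volume (-δ) δ :=
      intervalIntegral.intervalIntegrable_log'
    have := this.comp_sub_right s
    have e1 : -δ + s = s - δ := by ring
    have e2 : δ + s = s + δ := by ring
    rwa [e1, e2] at this
  have d : IntervalIntegrable (fun t => C * (1 + |log (t - s)|) ^ 2) volume (s - δ) (s + δ) := by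
    have := ((intervalIntegrable_const (c := (1 : ℝ))).add ((c.abs).const_mul 2)).add b |>.const_mul C
    refine this.congr ?_
    intro t _
    simp only [Pi.add_apply]
    have : log (t - s) ^ 2 = |log (t - s)| ^ 2 := (sq_abs _).symm
    rw [this]
    ring
  rw [intervalIntegrable_iff_integrableOn_Ioo_of_le (by linarith)] at d
  exact d

/-! ### measurability -/

lemma aesm_of_cont {h : ℝ → ℝ} (H : ∀ᶠ s in cofinite, ContinuousAt h s) :
    AEStronglyMeasurable h volume := by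
  have hfin : {s | ContinuousAt h s}ᶜ.Finite := H
  have hop : IsOpen {s | ContinuousAt h s} := by
    rw [← isClosed_compl_iff]; exact hfin.isClosed
  have h1 : ContinuousOn h {s | ContinuousAt h s} := fun s hs => hs.continuousWithinAt
  have h2 := h1.aestronglyMeasurable (μ := volume) hop.measurableSet
  have h3 : volume.restrict {s | ContinuousAt h s} = (volume : Measure ℝ) := by
    rw [Measure.restrict_eq_self_of_ae_mem]
    exact hfin.measure_zero volume
  rwa [h3] at h2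

lemma ne_local {f : ℝ → ℝ} {a : ℝ} (h : ∀ᶠ s in cofinite, f s ≠ a) (s : ℝ) :
    ∀ᶠ t in 𝓝[≠] s, f t ≠ a :=
  h.filter_mono (nhdsNE_le_cofinite s)

lemma wf_contAt {f : ℝ → ℝ} {s : ℝ} (hf : AnalyticAt ℝ f s) (h0 : f s ≠ 0) (h1 : f s ≠ 1) :
    ContinuousAt (wf f) s := by
  have h1' : 1 - f s ≠ 0 := sub_ne_zero.mpr h1.symm
  have hc : ContinuousAt f s := hf.continuousAt
  have hd : ContinuousAt (deriv f) s := hf.deriv.continuousAt
  exact (((continuousAt_const.sub hc).log h1').mul (hd.div hc h0)).add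
    ((hc.log h0).mul (hd.div (continuousAt_const.sub hc) h1'))

lemma dn_contAt {f g : ℝ → ℝ} {s : ℝ} (hf : AnalyticAt ℝ f s) (h0 : f s ≠ 0) (h1 : f s ≠ 1)
    (hg : AnalyticAt ℝ g s) (hg0 : g s ≠ 0) : ContinuousAt (dn f g) s :=
  (hg.continuousAt.log hg0).mul (wf_contAt hf h0 h1)

/-! ### the local statement -/

lemma dn_local {f g : ℝ → ℝ} {s : ℝ} (hf : MeromorphicAt f s)
    (h0 : ∀ᶠ t in 𝓝[≠] s, f t ≠ 0) (h1 : ∀ᶠ t in 𝓝[≠] s, f t ≠ 1) (hg : MeromorphicAt g s)
    (hg0 : ∀ᶠ t in 𝓝[≠] s, g t ≠ 0) :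
    ∃ δ : ℝ, 0 < δ ∧ IntegrableOn (dn f g) (Set.Ioo (s - δ) (s + δ)) volume := by
  obtain ⟨C, hC⟩ := LogB.wf_mer hf h0 h1
  obtain ⟨D, hD⟩ := LogB.log_mer hg hg0
  have hall : ∀ᶠ t in 𝓝[≠] s, |wf f t| ≤ C * (1 + |log (t - s)|) ∧
      |log (g t)| ≤ D * (1 + |log (t - s)|) ∧ AnalyticAt ℝ f t ∧ f t ≠ 0 ∧ f t ≠ 1 ∧
      AnalyticAt ℝ g t ∧ g t ≠ 0 := by
    filter_upwards [hC, hD, hf.eventually_analyticAt, h0, h1, hg.eventually_analyticAt, hg0]
      with t a b c d e f g using ⟨a, b, c, d, e, f, g⟩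
  rw [eventually_nhdsWithin_iff, Metric.eventually_nhds_iff] at hall
  obtain ⟨ε, hε, hall⟩ := hall
  set δ := min ε 1 with hδ
  have hδ0 : 0 < δ := lt_min hε one_pos
  refine ⟨δ, hδ0, ?_⟩
  have hin : ∀ t ∈ Set.Ioo (s - δ) (s + δ), dist t s < ε := by
    intro t ht
    rw [Real.dist_eq, abs_lt]
    have : δ ≤ ε := min_le_left _ _
    exact ⟨by linarith [ht.1], by linarith [ht.2]⟩
  set U := Set.Ioo (s - δ) (s + δ) \ {s} with hU
  have hUo : IsOpen U := isOpen_Ioo.sdiff isClosed_singleton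
  have hcont : ContinuousOn (dn f g) U := by
    intro t ht
    obtain ⟨-, -, a, b, c, d, e⟩ := hall (hin t ht.1) ht.2
    exact (dn_contAt a b c d e).continuousWithinAt
  have hae : (volume : Measure ℝ).restrict (Set.Ioo (s - δ) (s + δ)) = volume.restrict U := by
    refine Measure.restrict_congr_set ?_
    have : U =ᵐ[volume] Set.Ioo (s - δ) (s + δ) := by
      rw [hU]
      exact sdiff_null_ae_eq_self (by simp)
    exact this.symm
  have hm : AEStronglyMeasurable (dn f g) (volume.restrict (Set.Ioo (s - δ) (s + δ))) := by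
    rw [hae]
    exact hcont.aestronglyMeasurable hUo.measurableSet
  refine Integrable.mono' (kern_int (C * D) s hδ0 (min_le_right _ _)) hm ?_
  rw [hae, ae_restrict_iff' hUo.measurableSet]
  refine Eventually.of_forall fun t ht => ?_
  obtain ⟨a, b, -⟩ := hall (hin t ht.1) ht.2
  rw [Real.norm_eq_abs, dn, abs_mul]
  have hL : 0 ≤ 1 + |log (t - s)| := by positivity
  calc |log (g t)| * |wf f t| ≤ (D * (1 + |log (t - s)|)) * (C * (1 + |log (t - s)|)) :=
        mul_le_mul b a (abs_nonneg _) ((abs_nonneg _).trans b)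
    _ = _ := by ring

/-! ### infinity -/

lemma wf_comp_inv {f : ℝ → ℝ} {w : ℝ} (hw : w ≠ 0)
    (hd : DifferentiableAt ℝ (fun w => f w⁻¹) w) :
    wf (fun w => f w⁻¹) w = -((w ^ 2)⁻¹ * wf f w⁻¹) := by
  have hw' : w⁻¹ ≠ 0 := inv_ne_zero hw
  have h1 : HasDerivAt (fun t : ℝ => t⁻¹) (-((w⁻¹) ^ 2)⁻¹) w⁻¹ := hasDerivAt_inv hw'
  have h2 : HasDerivAt (fun w => f w⁻¹) (deriv (fun w => f w⁻¹) w) ((w⁻¹)⁻¹) := by
    rw [inv_inv]; exact hd.hasDerivAt
  have h3 := h2.comp w⁻¹ h1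
  have e : ((fun w => f w⁻¹) ∘ fun t : ℝ => t⁻¹) = f := by
    funext t; simp
  rw [e] at h3
  have h4 : deriv (fun w => f w⁻¹) w = -((w ^ 2)⁻¹ * deriv f w⁻¹) := by
    rw [h3.deriv]
    field_simp
  unfold wf
  rw [h4]
  ring

lemma dn_comp_inv {f g : ℝ → ℝ} {w : ℝ} (hw : w ≠ 0)
    (hd : DifferentiableAt ℝ (fun w => f w⁻¹) w) :
    dn (fun w => f w⁻¹) (fun w => g w⁻¹) w = -((w ^ 2)⁻¹ * dn f g w⁻¹) := by
  unfold dn
  rw [wf_comp_inv hw hd]
  ring

lemma ne_inv {f : ℝ → ℝ} {a : ℝ} (h : ∀ᶠ s in cofinite, f s ≠ a) :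
    ∀ᶠ w in 𝓝[≠] (0 : ℝ), f w⁻¹ ≠ a := by
  have h1 : ∀ᶠ t in Bornology.cobounded ℝ, f t ≠ a := by
    have hb : Bornology.IsBounded {s | f s ≠ a}ᶜ := Set.Finite.isBounded h
    have := Bornology.isBounded_def.mp hb
    rwa [compl_compl] at this
  exact tendsto_inv₀_nhdsNE_zero.eventually h1

/-- **The regulator density is integrable.** -/
theorem dn_integrable {f g : ℝ → ℝ} (hf : Mer f) (h0 : ∀ᶠ s in cofinite, f s ≠ 0)
    (h1 : ∀ᶠ s in cofinite, f s ≠ 1) (hg : Mer g) (hg0 : ∀ᶠ s in cofinite, g s ≠ 0) :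
    Integrable (dn f g) volume := by
  obtain ⟨δ, hδ, hI⟩ := dn_local hf.2 (ne_inv h0) (ne_inv h1) hg.2 (ne_inv hg0)
  rw [zero_sub, zero_add] at hI
  have han : ∀ᶠ w in 𝓝[≠] (0 : ℝ), DifferentiableAt ℝ (fun w => f w⁻¹) w := by
    filter_upwards [hf.2.eventually_analyticAt] with w hw using hw.differentiableAt
  rw [eventually_nhdsWithin_iff, Metric.eventually_nhds_iff] at han
  obtain ⟨ε, hε, han⟩ := han
  set η := min δ ε with hη
  have hη0 : 0 < η := lt_min hδ hε
  have key : ∀ S : Set ℝ, MeasurableSet S → S ⊆ Set.Ioo (-η) η → (0 : ℝ) ∉ S →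
      IntegrableOn (dn f g) ((fun w : ℝ => w⁻¹) '' S) volume := by
    intro S hS hSI hS0
    have hne : ∀ w ∈ S, w ≠ 0 := fun w hw h => hS0 (h ▸ hw)
    rw [integrableOn_image_iff_integrableOn_abs_deriv_smul (f' := fun w => -(w ^ 2)⁻¹) hS
      (fun w hw => (hasDerivAt_inv (hne w hw)).hasDerivWithinAt)
      (fun a _ b _ h => inv_injective h)]
    have h2 : IntegrableOn (dn (fun w => f w⁻¹) (fun w => g w⁻¹)) S volume :=
      hI.mono_set (hSI.trans (Set.Ioo_subset_Ioo (neg_le_neg (min_le_left _ _)) (min_le_left _ _)))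
    refine h2.neg.congr ?_
    rw [EventuallyEq, ae_restrict_iff' hS]
    refine Eventually.of_forall fun w hw => ?_
    have hd : DifferentiableAt ℝ (fun w => f w⁻¹) w := by
      refine han ?_ (hne w hw)
      rw [Real.dist_eq, sub_zero, abs_lt]
      have h3 := hSI hw
      have : η ≤ ε := min_le_right _ _
      exact ⟨by linarith [h3.1], by linarith [h3.2]⟩
    rw [Pi.neg_apply, dn_comp_inv (hne w hw) hd, neg_neg, abs_neg, abs_of_nonneg (by positivity),
      smul_eq_mul]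
  rw [integrable_iff_integrableAtFilter_atBot_atTop]
  refine ⟨⟨?_, ?_⟩, ?_⟩
  · refine ⟨_, ?_, key (Set.Ioo (-η) 0) measurableSet_Ioo
      (Set.Ioo_subset_Ioo le_rfl hη0.le) (fun h => lt_irrefl _ h.2)⟩
    have : (fun w : ℝ => w⁻¹) '' Set.Ioo (-η) 0 = Set.Iio (-η)⁻¹ := by
      rw [← Set.inv_Ioo_0_right (neg_lt_zero.mpr hη0)]
      exact Set.image_inv_eq_inv
    rw [this]
    exact Iio_mem_atBot _
  · refine ⟨_, ?_, key (Set.Ioo 0 η) measurableSet_Ioo
      (Set.Ioo_subset_Ioo (neg_nonpos.mpr hη0.le) le_rfl) (fun h => lt_irrefl _ h.1)⟩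
    have : (fun w : ℝ => w⁻¹) '' Set.Ioo 0 η = Set.Ioi η⁻¹ := by
      rw [← Set.inv_Ioo_0_left hη0]
      exact Set.image_inv_eq_inv
    rw [this]
    exact Ioi_mem_atTop _
  · intro s
    obtain ⟨δ, hδ, hI⟩ := dn_local (hf.1 s) (ne_local h0 s) (ne_local h1 s) (hg.1 s)
      (ne_local hg0 s)
    exact ⟨_, Ioo_mem_nhds (by linarith) (by linarith), hI⟩

end Pool.Agent.K4N
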