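import Mathlib

set_option autoImplicit false

/-!
Monomials, their logarithms, and alternating trilinear forms, with exponent vectors as lists.
-/

namespace Pool.Agent.K4N.LA

open Real

/-- the linear form -/
def lin : List ℤ → List ℝ → ℝ
  | n :: ns, a :: as => n * a + lin ns as
  | _, _ => 0

/-- the linear form with natural coefficients -/
def linN : List ℕ → List ℝ → ℝ
  | n :: ns, a :: as => n * a + linN ns as
  | _, _ => 0

/-- the monomial -/
def monN {K : Type*} [Field K] : List ℕ → List K → K
  | n :: ns, b :: bs => b ^ n * monN ns bs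
  | _, _ => 1

/-- the difference of the exponents -/
def sub : List ℕ → List ℕ → List ℤ
  | a :: as, c :: cs => ((a : ℤ) - (c : ℤ)) :: sub as cs
  | _, _ => []

@[simp] lemma lin_cons (n : ℤ) (ns : List ℤ) (a : ℝ) (as : List ℝ) :
    lin (n :: ns) (a :: as) = n * a + lin ns as := rfl

@[simp] lemma lin_nil (as : List ℝ) : lin [] as = 0 := by cases as <;> rfl

@[simp] lemma lin_nil' (ns : List ℤ) : lin ns [] = 0 := by cases ns <;> rfl

@[simp] lemma linN_cons (n : ℕ) (ns : List ℕ) (a : ℝ) (as : List ℝ) :
    linN (n :: ns) (a :: as) = n * a + linN ns as := rfl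

@[simp] lemma linN_nil (as : List ℝ) : linN [] as = 0 := by cases as <;> rfl

@[simp] lemma linN_nil' (ns : List ℕ) : linN ns [] = 0 := by cases ns <;> rfl

@[simp] lemma monN_cons {K : Type*} [Field K] (n : ℕ) (ns : List ℕ) (b : K) (bs : List K) :
    monN (n :: ns) (b :: bs) = b ^ n * monN ns bs := rfl

@[simp] lemma monN_nil {K : Type*} [Field K] (bs : List K) : monN [] bs = 1 := by
  cases bs <;> rfl

@[simp] lemma monN_nil' {K : Type*} [Field K] (ns : List ℕ) : monN ns ([] : List K) = 1 := by
  cases ns <;> rfl

lemma monN_ne {K : Type*} [Field K] (v : List ℕ) {B : List K} (hB : ∀ b ∈ B, b ≠ 0) :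
    monN v B ≠ 0 := by
  induction v generalizing B with
  | nil => simp
  | cons n ns ih =>
    cases B with
    | nil => simp
    | cons b bs =>
      rw [monN_cons]
      exact mul_ne_zero (pow_ne_zero _ (hB b List.mem_cons_self))
        (ih fun b' h' => hB b' (List.mem_cons_of_mem _ h'))

lemma monN_pos (v : List ℕ) {B : List ℝ} (hB : ∀ b ∈ B, 0 < b) : 0 < monN v B := by
  induction v generalizing B with
  | nil => simp
  | cons n ns ih =>
    cases B with
    | nil => simp
    | cons b bs =>
      rw [monN_cons]
      exact mul_pos (pow_pos (hB b List.mem_cons_self) _)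
        (ih fun b' h' => hB b' (List.mem_cons_of_mem _ h'))

lemma log_monN (v : List ℕ) {B : List ℝ} (hB : ∀ b ∈ B, b ≠ 0) :
    log (monN v B) = linN v (B.map log) := by
  induction v generalizing B with
  | nil => simp
  | cons n ns ih =>
    cases B with
    | nil => simp
    | cons b bs =>
      have h2 : ∀ b' ∈ bs, b' ≠ 0 := fun b' h' => hB b' (List.mem_cons_of_mem _ h')
      rw [monN_cons, log_mul (pow_ne_zero _ (hB b List.mem_cons_self)) (monN_ne ns h2), log_pow,
        ih h2, List.map_cons, linN_cons]

lemma lin_sub : ∀ (v w : List ℕ) (_ : v.length = w.length) (a : List ℝ),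
    lin (sub v w) a = linN v a - linN w a
  | [], [], _, a => by simp [sub]
  | n :: v, m :: w, h, [] => by simp
  | n :: v, m :: w, h, a :: as => by
    have ih := lin_sub v w (by simpa using h) as
    show (((n : ℤ) - (m : ℤ) : ℤ) : ℝ) * a + lin (sub v w) as = _
    rw [ih, linN_cons, linN_cons]
    push_cast
    ring
  | [], _ :: _, h, _ => by simp at h
  | _ :: _, [], h, _ => by simp at h

/-- the logarithm of a quotient of monomials -/
lemma log_quot {v w : List ℕ} (h : v.length = w.length) {B : List ℝ} (hB : ∀ b ∈ B, b ≠ 0) :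
    log (monN v B / monN w B) = lin (sub v w) (B.map log) := by
  rw [log_div (monN_ne v hB) (monN_ne w hB), log_monN v hB, log_monN w hB, lin_sub v w h]

lemma lin_append (v : List ℤ) (a b : List ℝ) :
    lin v (a ++ b) = lin v a + lin (v.drop a.length) b := by
  induction a generalizing v with
  | nil => simp
  | cons x a ih =>
    cases v with
    | nil => simp
    | cons n v =>
      rw [List.cons_append, lin_cons, lin_cons, ih, List.length_cons, List.drop_succ_cons]
      ring

lemma lin_take (v : List ℤ) (a : List ℝ) (n : ℕ) (h : a.length ≤ n) :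
    lin (v.take n) a = lin v a := by
  induction n generalizing v a with
  | zero =>
    have : a = [] := by
      rw [← List.length_eq_zero_iff]
      omega
    subst this
    simp
  | succ n ih =>
    cases v with
    | nil => simp
    | cons m v =>
      cases a with
      | nil => simp
      | cons x a =>
        rw [List.take_succ_cons, lin_cons, lin_cons, ih v a (by simpa using h)]

/-! addition and multiplication of vectors -/

/-- multiple -/
def scl (n : ℤ) (v : List ℤ) : List ℤ := v.map (n * ·)

/-- sum -/
def padd : List ℤ → List ℤ → List ℤ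
  | [], w => w
  | a :: v, [] => a :: v
  | a :: v, b :: w => (a + b) :: padd v w

/-- vector times matrix -/
def vm : List ℤ → List (List ℤ) → List ℤ
  | n :: ns, r :: rs => padd (scl n r) (vm ns rs)
  | _, _ => []

lemma lin_scl (n : ℤ) (v : List ℤ) (a : List ℝ) : lin (scl n v) a = n * lin v a := by
  induction v generalizing a with
  | nil => simp [scl]
  | cons m v ih =>
    cases a with
    | nil => simp
    | cons x a =>
      have := ih a
      show ((n * m : ℤ) : ℝ) * x + lin (scl n v) a = _
      rw [this, lin_cons]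
      push_cast
      ring

lemma lin_padd : ∀ (v w : List ℤ) (a : List ℝ), lin (padd v w) a = lin v a + lin w a
  | [], w, a => by simp [padd]
  | n :: v, [], a => by simp [padd]
  | n :: v, m :: w, [] => by simp
  | n :: v, m :: w, x :: a => by
    show ((n + m : ℤ) : ℝ) * x + lin (padd v w) a = _
    rw [lin_padd v w a, lin_cons, lin_cons]
    push_cast
    ring

lemma lin_vm : ∀ (v : List ℤ) (M : List (List ℤ)) (a : List ℝ),
    lin (vm v M) a = lin v (M.map fun r => lin r a)
  | [], M, a => by
    show lin [] a = lin [] _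
    simp
  | n :: v, [], a => by
    show lin [] a = lin (n :: v) []
    simp
  | n :: v, r :: M, a => by
    show lin (padd (scl n r) (vm v M)) a = _
    rw [lin_padd, lin_scl, lin_vm v M a, List.map_cons, lin_cons]

/-! the tables of trilinear forms -/

/-- the bilinear form of a table -/
def ev2 : List (List ℤ) → List ℝ → List ℝ → ℝ
  | r :: rs, a :: as, d => a * lin r d + ev2 rs as d
  | _, _, _ => 0

/-- multiple -/
def scl2 (n : ℤ) (M : List (List ℤ)) : List (List ℤ) := M.map (scl n)

/-- sum -/
def padd2 : List (List ℤ) → List (List ℤ) → List (List ℤ)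
  | [], w => w
  | a :: v, [] => a :: v
  | a :: v, b :: w => padd a b :: padd2 v w

/-- product -/
def o2 (g f : List ℤ) : List (List ℤ) := g.map fun n => scl n f

lemma ev2_nil (a d : List ℝ) : ev2 [] a d = 0 := by cases a <;> rfl

lemma ev2_nil' (M : List (List ℤ)) (d : List ℝ) : ev2 M [] d = 0 := by cases M <;> rfl

lemma ev2_cons (r : List ℤ) (M : List (List ℤ)) (x : ℝ) (a d : List ℝ) :
    ev2 (r :: M) (x :: a) d = x * lin r d + ev2 M a d := rfl

lemma ev2_scl (n : ℤ) (M : List (List ℤ)) (a d : List ℝ) :
    ev2 (scl2 n M) a d = n * ev2 M a d := by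
  induction M generalizing a with
  | nil => simp [scl2, ev2_nil]
  | cons r M ih =>
    cases a with
    | nil => simp [ev2_nil']
    | cons x a =>
      have := ih a
      show x * lin (scl n r) d + ev2 (scl2 n M) a d = _
      rw [this, lin_scl, ev2_cons]
      ring

lemma ev2_padd : ∀ (v w : List (List ℤ)) (a d : List ℝ),
    ev2 (padd2 v w) a d = ev2 v a d + ev2 w a d
  | [], w, a, d => by simp [padd2, ev2_nil]
  | n :: v, [], a, d => by simp [padd2, ev2_nil]
  | n :: v, m :: w, [], d => by simp [ev2_nil']
  | n :: v, m :: w, x :: a, d => by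
    show x * lin (padd n m) d + ev2 (padd2 v w) a d = _
    rw [ev2_padd v w a, ev2_cons, ev2_cons, lin_padd]
    ring

lemma ev2_o2 (g f : List ℤ) (a d : List ℝ) : ev2 (o2 g f) a d = lin g a * lin f d := by
  induction g generalizing a with
  | nil => simp [o2, ev2_nil]
  | cons n g ih =>
    cases a with
    | nil => simp [ev2_nil']
    | cons x a =>
      have := ih a
      show x * lin (scl n f) d + ev2 (o2 g f) a d = _
      rw [this, lin_scl, lin_cons]
      ring

/-- the trilinear form of a table -/
def ev3 : List (List (List ℤ)) → List ℝ → List ℝ → List ℝ → ℝ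
  | M :: Ms, x :: as, a, d => x * ev2 M a d + ev3 Ms as a d
  | _, _, _, _ => 0

/-- multiple -/
def scl3 (n : ℤ) (M : List (List (List ℤ))) : List (List (List ℤ)) := M.map (scl2 n)

/-- sum -/
def padd3 : List (List (List ℤ)) → List (List (List ℤ)) → List (List (List ℤ))
  | [], w => w
  | a :: v, [] => a :: v
  | a :: v, b :: w => padd2 a b :: padd3 v w

/-- product -/
def o3 (u : List ℤ) (M : List (List ℤ)) : List (List (List ℤ)) := u.map fun n => scl2 n M

lemma ev3_nil (b a d : List ℝ) : ev3 [] b a d = 0 := by cases b <;> rfl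

lemma ev3_nil' (M : List (List (List ℤ))) (a d : List ℝ) : ev3 M [] a d = 0 := by
  cases M <;> rfl

lemma ev3_cons (r : List (List ℤ)) (M : List (List (List ℤ))) (x : ℝ) (b a d : List ℝ) :
    ev3 (r :: M) (x :: b) a d = x * ev2 r a d + ev3 M b a d := rfl

lemma ev3_scl (n : ℤ) (M : List (List (List ℤ))) (b a d : List ℝ) :
    ev3 (scl3 n M) b a d = n * ev3 M b a d := by
  induction M generalizing b with
  | nil => simp [scl3, ev3_nil]
  | cons r M ih =>
    cases b with
    | nil => simp [ev3_nil']
    | cons x b =>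
      have := ih b
      show x * ev2 (scl2 n r) a d + ev3 (scl3 n M) b a d = _
      rw [this, ev2_scl, ev3_cons]
      ring

lemma ev3_padd : ∀ (v w : List (List (List ℤ))) (b a d : List ℝ),
    ev3 (padd3 v w) b a d = ev3 v b a d + ev3 w b a d
  | [], w, b, a, d => by simp [padd3, ev3_nil]
  | n :: v, [], b, a, d => by simp [padd3, ev3_nil]
  | n :: v, m :: w, [], a, d => by simp [ev3_nil']
  | n :: v, m :: w, x :: b, a, d => by
    show x * ev2 (padd2 n m) a d + ev3 (padd3 v w) b a d = _
    rw [ev3_padd v w b, ev3_cons, ev3_cons, ev2_padd]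
    ring

lemma ev3_o3 (u : List ℤ) (M : List (List ℤ)) (b a d : List ℝ) :
    ev3 (o3 u M) b a d = lin u b * ev2 M a d := by
  induction u generalizing b with
  | nil => simp [o3, ev3_nil]
  | cons n u ih =>
    cases b with
    | nil => simp [ev3_nil']
    | cons x b =>
      have := ih b
      show x * ev2 (scl2 n M) a d + ev3 (o3 u M) b a d = _
      rw [this, ev2_scl, lin_cons]
      ring

/-- a term: the exponents of `f`, of `1 - f`, of `u` -/
structure Tm where
  f : List ℤ
  g : List ℤ
  u : List ℤ
deriving DecidableEq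

/-- its density -/
def Tm.tri (t : Tm) (a d : List ℝ) : ℝ :=
  (lin t.g a * lin t.f d - lin t.f a * lin t.g d) * lin t.u a

/-- its table, with `r` derivatives -/
def Tm.tab (r : ℕ) (t : Tm) : List (List (List ℤ)) :=
  o3 t.u (padd2 (o2 t.g (t.f.take r)) (scl2 (-1) (o2 t.f (t.g.take r))))

lemma ev3_tab (r : ℕ) (t : Tm) {a d : List ℝ} (hd : d.length ≤ r) :
    ev3 (t.tab r) a a d = t.tri a d := by
  unfold Tm.tab Tm.tri
  rw [ev3_o3, ev2_padd, ev2_scl, ev2_o2, ev2_o2, lin_take _ _ _ hd, lin_take _ _ _ hd]
  push_cast
  ring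

/-- the sum of the tables -/
def sumTab (r : ℕ) : List Tm → List (List (List ℤ))
  | [] => []
  | t :: L => padd3 (t.tab r) (sumTab r L)

lemma ev3_sumTab (r : ℕ) (L : List Tm) {a d : List ℝ} (hd : d.length ≤ r) :
    ev3 (sumTab r L) a a d = (L.map fun t => t.tri a d).sum := by
  induction L with
  | nil => simp [sumTab, ev3_nil]
  | cons t L ih =>
    show ev3 (padd3 (t.tab r) (sumTab r L)) a a d = _
    rw [ev3_padd, ih, ev3_tab r t hd, List.map_cons, List.sum_cons]

/-- **equality of trilinear forms** -/
theorem sum_eq_of_tab {r : ℕ} {L L' : List Tm} {n : ℤ}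
    (h : scl3 n (sumTab r L) = sumTab r L') {a d : List ℝ} (hd : d.length ≤ r) :
    n * (L.map fun t => t.tri a d).sum = (L'.map fun t => t.tri a d).sum := by
  rw [← ev3_sumTab r L hd, ← ev3_scl, h, ev3_sumTab r L' hd]

/-- the action of a matrix on a term -/
def Tm.act (A : List (List ℤ)) (t : Tm) : Tm := ⟨vm t.f A, vm t.g A, vm t.u A⟩

/-- `(a', d')` is the image of `(a, d)` -/
def Rel (A : List (List ℤ)) (a d a' d' : List ℝ) : Prop :=
  (∀ v, lin v a' = lin (vm v A) a) ∧ ∀ v, lin v d' = lin (vm v A) d

lemma Rel.tri {A : List (List ℤ)} {a d a' d' : List ℝ} (h : Rel A a d a' d') (t : Tm) :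
    t.tri a' d' = (t.act A).tri a d := by
  unfold Tm.tri
  rw [h.1, h.1, h.1, h.2, h.2]
  rfl

/-- the sum of the translates does not change -/
lemma Rel.sum {A : List (List ℤ)} {a d a' d' : List ℝ} (h : Rel A a d a' d') {L : List Tm}
    {m : ℕ} (hL : L.map (Tm.act A) = L.rotate m) :
    (L.map fun t => t.tri a' d').sum = (L.map fun t => t.tri a d).sum := by
  have e : (L.map fun t => t.tri a' d') = (L.map (Tm.act A)).map fun t => t.tri a d := by
    rw [List.map_map]
    exact List.map_congr_left fun t _ => h.tri t
  rw [e, hL]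
  exact ((List.rotate_perm L m).map _).sum_eq

/-- all translates -/
def orb (A : List (List ℤ)) : ℕ → List Tm → List Tm
  | 0, _ => []
  | n + 1, L => L ++ orb A n (L.map (Tm.act A))

end Pool.Agent.K4N.LA
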