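import Mathlib

set_option autoImplicit false

/-!
A continuous function `Λ` on `P¹(ℝ)` with `Λ' = log|s| (log|1-s|/s + log|s|/(1-s))`.
-/

namespace Pool.Agent.K4N

open Real Filter Topology MeasureTheory

/-- `log|s|·log|1-s|/s` -/
noncomputable def mf (t : ℝ) : ℝ := log t * (log (1 - t) / t)

lemma hasDerivAt_log1 {s : ℝ} (h1 : s ≠ 1) :
    HasDerivAt (fun t : ℝ => log (1 - t)) (-(1 - s)⁻¹) s := by
  have h : HasDerivAt (fun t : ℝ => 1 - t) (-1) s := by
    simpa using (hasDerivAt_id s).const_sub 1
  have := (Real.hasDerivAt_log (sub_ne_zero.mpr h1.symm)).comp s h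
  have e : (-(1 - s)⁻¹ : ℝ) = (1 - s)⁻¹ * -1 := by ring
  rw [e]
  exact this

lemma log1_dslope (s : ℝ) : log (1 - s) = s * dslope (fun t : ℝ => log (1 - t)) 0 s := by
  have := sub_smul_dslope (fun t : ℝ => log (1 - t)) 0 s
  simp only [sub_zero, smul_eq_mul, log_one] at this
  exact this.symm

lemma log_dslope (s : ℝ) : log s = (s - 1) * dslope log 1 s := by
  have := sub_smul_dslope log 1 s
  simp only [smul_eq_mul, log_one, sub_zero] at this
  exact this.symm

lemma continuousAt_dslope1 {s : ℝ} (h1 : s ≠ 1) :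
    ContinuousAt (dslope (fun t : ℝ => log (1 - t)) 0) s := by
  by_cases h : s = 0
  · subst h
    rw [continuousAt_dslope_same]
    exact (hasDerivAt_log1 (by norm_num)).differentiableAt
  · rw [continuousAt_dslope_of_ne h]
    exact (hasDerivAt_log1 h1).continuousAt

lemma mf_eq1 (t : ℝ) : mf t = log t * dslope (fun t : ℝ => log (1 - t)) 0 t := by
  unfold mf
  by_cases h : t = 0
  · subst h; simp
  · congr 1
    rw [div_eq_iff h, log1_dslope t]
    ring

lemma mf_eq2 (t : ℝ) : mf t = log (1 - t) * (log t / t) := by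
  unfold mf; ring

lemma mf_left {a : ℝ} (ha : a ≤ 1 / 2) : IntervalIntegrable mf volume a (1 / 2) := by
  have e : mf = fun t => log t * dslope (fun t : ℝ => log (1 - t)) 0 t := funext mf_eq1
  rw [e]
  refine (intervalIntegral.intervalIntegrable_log').mul_continuousOn ?_
  intro t ht
  rw [Set.uIcc_of_le ha] at ht
  exact (continuousAt_dslope1 (by have := ht.2; intro h; rw [h] at this; norm_num at this)).continuousWithinAt

lemma mf_right {b : ℝ} (hb : 1 / 2 ≤ b) : IntervalIntegrable mf volume (1 / 2) b := by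
  have e : mf = fun t => log (1 - t) * (log t / t) := funext mf_eq2
  rw [e]
  have h1 : IntervalIntegrable (fun t : ℝ => log (1 - t)) volume (1 / 2) b := by
    have := (intervalIntegral.intervalIntegrable_log' (a := 1 - 1 / 2) (b := 1 - b)).comp_sub_left 1
    simpa using this
  refine h1.mul_continuousOn ?_
  intro t ht
  rw [Set.uIcc_of_le hb] at ht
  have h0 : t ≠ 0 := by have := ht.1; intro h; rw [h] at this; norm_num at this
  exact ((continuousAt_log h0).div continuousAt_id h0).continuousWithinAt

lemma mf_half (a : ℝ) : IntervalIntegrable mf volume a (1 / 2) := by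
  rcases le_total a (1 / 2) with h | h
  · exact mf_left h
  · exact (mf_right h).symm

lemma mf_int (a b : ℝ) : IntervalIntegrable mf volume a b :=
  (mf_half a).trans (mf_half b).symm

/-- the primitive of `mf` -/
noncomputable def Mf (s : ℝ) : ℝ := ∫ t in (0 : ℝ)..s, mf t

lemma Mf_cont : Continuous Mf := intervalIntegral.continuous_primitive mf_int 0

lemma mf_cont {s : ℝ} (h0 : s ≠ 0) (h1 : s ≠ 1) : ContinuousAt mf s := by
  have h2 : ContinuousAt (fun t : ℝ => log (1 - t)) s := (hasDerivAt_log1 h1).continuousAt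
  exact (continuousAt_log h0).mul (h2.div continuousAt_id h0)

lemma Mf_deriv {s : ℝ} (h0 : s ≠ 0) (h1 : s ≠ 1) : HasDerivAt Mf (mf s) s := by
  refine intervalIntegral.integral_hasDerivAt_right (mf_int 0 s) ?_ (mf_cont h0 h1)
  refine ContinuousOn.stronglyMeasurableAtFilter (s := {0}ᶜ ∩ {1}ᶜ)
    (isOpen_compl_singleton.inter isOpen_compl_singleton) ?_ s ⟨h0, h1⟩
  intro t ht
  exact (mf_cont ht.1 ht.2).continuousWithinAt

/-- `s·log²|s|` is continuous -/
lemma cont_h : Continuous fun s : ℝ => s * log s ^ 2 := by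
  rw [continuous_iff_continuousAt]
  intro s
  by_cases h : s = 0
  · subst h
    unfold ContinuousAt
    simp only [zero_mul]
    rw [tendsto_zero_iff_abs_tendsto_zero]
    have e : (abs ∘ fun s : ℝ => s * log s ^ 2) =
        fun s : ℝ => 4 * (√|s| * log √|s|) ^ 2 := by
      funext s
      simp only [Function.comp_apply]
      rw [abs_mul, abs_of_nonneg (sq_nonneg (log s)), mul_pow, Real.sq_sqrt (abs_nonneg s),
        Real.log_sqrt (abs_nonneg s), log_abs]
      ring
    rw [e]
    have hc : Continuous fun s : ℝ => 4 * (√|s| * log √|s|) ^ 2 := by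
      have h1 : Continuous fun s : ℝ => √|s| := Real.continuous_sqrt.comp continuous_abs
      exact continuous_const.mul ((Real.continuous_mul_log.comp h1).pow 2)
    have := hc.tendsto 0
    simpa using this
  · exact continuousAt_id.mul ((continuousAt_log h).pow 2)

/-- `log²|s|·log|1-s|` -/
noncomputable def Pf (s : ℝ) : ℝ := log s ^ 2 * log (1 - s)

lemma Pf_cont : Continuous Pf := by
  rw [continuous_iff_continuousAt]
  intro s
  by_cases h : s = 1
  · subst h
    have e : Pf = fun s : ℝ => -(dslope log 1 s ^ 2 * (s - 1) * ((1 - s) * log (1 - s))) := by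
      funext s
      unfold Pf
      have := log_dslope s
      calc log s ^ 2 * log (1 - s) = ((s - 1) * dslope log 1 s) ^ 2 * log (1 - s) := by
            rw [← this]
        _ = _ := by ring
    rw [e]
    have h1 : ContinuousAt (dslope log 1) 1 := by
      rw [continuousAt_dslope_same]
      exact (Real.hasDerivAt_log one_ne_zero).differentiableAt
    have h2 : Continuous fun s : ℝ => (1 - s) * log (1 - s) :=
      Real.continuous_mul_log.comp (continuous_const.sub continuous_id)
    exact (((h1.pow 2).mul (continuousAt_id.sub continuousAt_const)).mul h2.continuousAt).neg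
  · have e : Pf = fun s : ℝ => s * log s ^ 2 * dslope (fun t : ℝ => log (1 - t)) 0 s := by
      funext s
      unfold Pf
      have := log1_dslope s
      calc log s ^ 2 * log (1 - s) = log s ^ 2 * (s * dslope (fun t : ℝ => log (1 - t)) 0 s) := by
            rw [← this]
        _ = _ := by ring
    rw [e]
    exact cont_h.continuousAt.mul (continuousAt_dslope1 h)

/-- the continuous function -/
noncomputable def Lam (s : ℝ) : ℝ := 3 * Mf s - Pf s

lemma Lam_cont : Continuous Lam := (continuous_const.mul Mf_cont).sub Pf_cont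

/-- its derivative -/
noncomputable def lam (s : ℝ) : ℝ := log s * (log (1 - s) / s + log s / (1 - s))

lemma Lam_deriv {s : ℝ} (h0 : s ≠ 0) (h1 : s ≠ 1) : HasDerivAt Lam (lam s) s := by
  have h1' : (1 - s : ℝ) ≠ 0 := sub_ne_zero.mpr h1.symm
  have a := (Mf_deriv h0 h1).const_mul 3
  have b := ((Real.hasDerivAt_log h0).pow 2).mul (hasDerivAt_log1 h1)
  have c := a.sub b
  refine c.congr_deriv ?_
  unfold mf lam
  simp only [Pi.pow_apply, Nat.cast_ofNat]
  field_simp
  ring

lemma lam_inv {s : ℝ} (h0 : s ≠ 0) (h1 : s ≠ 1) : lam s⁻¹ * (-(s ^ 2)⁻¹) = lam s := by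
  have h1' : (1 - s : ℝ) ≠ 0 := sub_ne_zero.mpr h1.symm
  have hs1 : (s - 1 : ℝ) ≠ 0 := sub_ne_zero.mpr h1
  unfold lam
  have e1 : log (1 - s⁻¹) = log (1 - s) - log s := by
    rw [show (1 - s⁻¹ : ℝ) = -(1 - s) / s by field_simp; ring, log_div (neg_ne_zero.mpr h1') h0,
      log_neg_eq_log]
  rw [e1, log_inv]
  have e2 : (1 - s⁻¹ : ℝ) = (s - 1) / s := by field_simp
  rw [e2]
  field_simp
  ring

lemma Lam_inv {s : ℝ} (h0 : s ≠ 0) : Lam s⁻¹ = Lam s := by
  have key : ∀ e : ℝ, e ≠ 0 → e⁻¹ = e → 0 < e * s → Lam s⁻¹ = Lam s := by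
    intro e he hei hes
    have hpos : ∀ x ∈ Set.uIcc e s, 0 < e * x := by
      intro x hx
      rcases lt_or_gt_of_ne he with h | h
      · have hs : s < 0 := by
          by_contra hh
          push Not at hh
          exact absurd hes (not_lt.mpr (mul_nonpos_of_nonpos_of_nonneg h.le hh))
        have : x ≤ max e s := hx.2
        have hx0 : x < 0 := lt_of_le_of_lt this (max_lt h hs)
        exact mul_pos_of_neg_of_neg h hx0
      · have hs : 0 < s := by
          by_contra hh
          push Not at hh
          exact absurd hes (not_lt.mpr (mul_nonpos_of_nonneg_of_nonpos h.le hh))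
        have : min e s ≤ x := hx.1
        have hx0 : 0 < x := lt_of_lt_of_le (lt_min h hs) this
        exact mul_pos h hx0
    have hne : ∀ x ∈ Set.uIcc e s, x ≠ 0 := by
      intro x hx h
      have := hpos x hx
      rw [h, mul_zero] at this
      exact lt_irrefl _ this
    have := MeasureTheory.integral_eq_of_hasDerivAt_off_countable
      (f := fun x : ℝ => Lam x⁻¹ - Lam x) (f' := fun _ => (0 : ℝ)) (a := e) (b := s)
      (s := {(1 : ℝ)}) (Set.countable_singleton 1) ?_ ?_ (by simp)
    · rw [intervalIntegral.integral_zero] at this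
      rw [hei] at this
      linarith
    · intro x hx
      have hx0 := hne x hx
      exact ((Lam_cont.continuousAt.comp (continuousAt_inv₀ hx0)).sub
        Lam_cont.continuousAt).continuousWithinAt
    · intro x hx
      have hx0 : x ≠ 0 := hne x ⟨hx.1.1.le, hx.1.2.le⟩
      have hx1 : x ≠ 1 := fun h => hx.2 h
      have hi1 : x⁻¹ ≠ 1 := fun h => hx1 (inv_eq_one.mp h)
      have a := (Lam_deriv (inv_ne_zero hx0) hi1).comp x (hasDerivAt_inv hx0)
      have b := a.sub (Lam_deriv hx0 hx1)
      refine b.congr_deriv ?_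
      rw [lam_inv hx0 hx1, sub_self]
  rcases lt_or_gt_of_ne h0 with h | h
  · exact key (-1) (by norm_num) (by norm_num) (by linarith)
  · exact key 1 one_ne_zero inv_one (by linarith)

lemma Lam_cob : Tendsto Lam (Bornology.cobounded ℝ) (𝓝 (Lam 0)) := by
  have h1 : Tendsto (fun s : ℝ => Lam s⁻¹) (Bornology.cobounded ℝ) (𝓝 (Lam 0)) :=
    (Lam_cont.tendsto 0).comp tendsto_inv₀_cobounded
  refine h1.congr' ?_
  have : ∀ᶠ s : ℝ in Bornology.cobounded ℝ, s ≠ 0 := Bornology.eventually_ne_cobounded 0
  filter_upwards [this] with s hs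
  exact Lam_inv hs

end Pool.Agent.K4N
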