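import Pool.Agent.Lib_helper2.K4N.Lam
import Pool.Agent.Lib_helper2.K4N.Exact

set_option autoImplicit false

/-!
Meromorphic functions on the projective line `P¹(ℝ)`.
-/

namespace Pool.Agent.K4N

open Filter Topology

/-- meromorphic on `ℝ` and at infinity -/
def Mer (f : ℝ → ℝ) : Prop := (∀ s, MeromorphicAt f s) ∧ MeromorphicAt (fun w => f w⁻¹) 0

lemma Mer.const (c : ℝ) : Mer (fun _ => c) :=
  ⟨fun s => MeromorphicAt.const c s, MeromorphicAt.const c 0⟩

lemma Mer.id : Mer (fun s => s) :=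
  ⟨fun s => MeromorphicAt.id s, (MeromorphicAt.id 0).inv⟩

lemma Mer.add {f g : ℝ → ℝ} (hf : Mer f) (hg : Mer g) : Mer (fun s => f s + g s) :=
  ⟨fun s => (hf.1 s).add (hg.1 s), hf.2.add hg.2⟩

lemma Mer.mul {f g : ℝ → ℝ} (hf : Mer f) (hg : Mer g) : Mer (fun s => f s * g s) :=
  ⟨fun s => (hf.1 s).mul (hg.1 s), hf.2.mul hg.2⟩

lemma Mer.inv {f : ℝ → ℝ} (hf : Mer f) : Mer (fun s => (f s)⁻¹) :=
  ⟨fun s => (hf.1 s).inv, hf.2.inv⟩

lemma Mer.pow {f : ℝ → ℝ} (hf : Mer f) (n : ℕ) : Mer (fun s => f s ^ n) :=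
  ⟨fun s => (hf.1 s).pow n, hf.2.pow n⟩

lemma Mer.analytic {f : ℝ → ℝ} (hf : Mer f) : ∀ᶠ s in cofinite, AnalyticAt ℝ f s := by
  refine cofinite_of_local (fun s => (hf.1 s).eventually_analyticAt) ?_
  have h1 := hf.2.eventually_analyticAt
  have h2 : Tendsto (fun s : ℝ => s⁻¹) (Bornology.cobounded ℝ) (𝓝[≠] 0) :=
    tendsto_inv₀_cobounded'
  filter_upwards [h2.eventually h1, Bornology.eventually_ne_cobounded (0 : ℝ)] with s hs h0
  have h3 : AnalyticAt ℝ (fun t : ℝ => t⁻¹) s := analyticAt_inv h0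
  have h4 : AnalyticAt ℝ ((fun w => f w⁻¹) ∘ fun t : ℝ => t⁻¹) s := hs.comp h3
  have e : ((fun w => f w⁻¹) ∘ fun t : ℝ => t⁻¹) = f := by
    funext t
    simp
  rwa [e] at h4

/-- the limit of `Λ ∘ f` -/
lemma Lam_limit {f : ℝ → ℝ} {s : ℝ} (hf : MeromorphicAt f s) :
    ∃ l, Tendsto (fun t => Lam (f t)) (𝓝[≠] s) (𝓝 l) := by
  rcases lt_or_ge (meromorphicOrderAt f s) 0 with ho | ho
  · exact ⟨Lam 0, Lam_cob.comp (tendsto_cobounded_of_meromorphicOrderAt_neg ho)⟩
  · obtain ⟨c, hc⟩ := tendsto_nhds_of_meromorphicOrderAt_nonneg hf ho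
    exact ⟨Lam c, (Lam_cont.tendsto c).comp hc⟩

/-- **The form of `{f}₂ ⊗ f` is exact.** -/
theorem Mer.exact {f : ℝ → ℝ} (hf : Mer f) (h0 : ∀ᶠ s in cofinite, f s ≠ 0)
    (h1 : ∀ᶠ s in cofinite, f s ≠ 1) : Ex (fun s => lam (f s) * deriv f s) := by
  have han := hf.analytic
  set A : Set ℝ := {s | AnalyticAt ℝ f s ∧ f s ≠ 0 ∧ f s ≠ 1} with hA
  have hfin : Aᶜ.Finite := by
    have : ∀ᶠ s in cofinite, AnalyticAt ℝ f s ∧ f s ≠ 0 ∧ f s ≠ 1 := by
      filter_upwards [han, h0, h1] with s a b c using ⟨a, b, c⟩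
    exact this
  have hopen : IsOpen A := by
    rw [← isClosed_compl_iff]
    exact hfin.isClosed
  have hdense : Dense A := by
    have := hfin.countable.dense_compl ℝ
    rwa [compl_compl] at this
  set h : ℝ → ℝ := fun t => Lam (f t) with hh
  have hc : ContinuousOn h A := fun s hs =>
    (Lam_cont.continuousAt.comp hs.1.continuousAt).continuousWithinAt
  have hlim : ∀ s, ∃ l, Tendsto h (𝓝[A] s) (𝓝 l) := by
    intro s
    by_cases hs : s ∈ A
    · exact ⟨h s, hc s hs⟩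
    · obtain ⟨l, hl⟩ := Lam_limit (hf.1 s)
      refine ⟨l, hl.mono_left (nhdsWithin_mono s ?_)⟩
      intro t ht hts
      exact hs (hts ▸ ht)
  have hext : ∀ s ∈ A, extendFrom A h s = h s := by
    intro s hs
    exact extendFrom_extends hc s hs
  refine ⟨extendFrom A h, continuous_extendFrom hdense hlim, ?_, ?_⟩
  · have hmem : ∀ᶠ s in cofinite, s ∈ A := hfin
    filter_upwards [hmem] with s hs
    have hd : HasDerivAt h (lam (f s) * deriv f s) s :=
      (Lam_deriv hs.2.1 hs.2.2).comp s hs.1.differentiableAt.hasDerivAt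
    refine hd.congr_of_eventuallyEq ?_
    filter_upwards [hopen.mem_nhds hs] with t ht
    exact hext t ht
  · obtain ⟨l, hl⟩ := Lam_limit hf.2
    have hcob : Tendsto h (Bornology.cobounded ℝ) (𝓝 l) := by
      have h2 : Tendsto (fun s : ℝ => s⁻¹) (Bornology.cobounded ℝ) (𝓝[≠] 0) :=
        tendsto_inv₀_cobounded'
      have h3 := hl.comp h2
      refine h3.congr fun t => ?_
      simp [hh]
    have hcobE : Tendsto (extendFrom A h) (Bornology.cobounded ℝ) (𝓝 l) := by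
      refine hcob.congr' ?_
      have hb : Bornology.IsBounded Aᶜ := hfin.isBounded
      have : ∀ᶠ t in Bornology.cobounded ℝ, t ∈ A := by
        have := Bornology.isBounded_def.mp hb
        rwa [compl_compl] at this
      filter_upwards [this] with t ht
      exact (hext t ht).symm
    exact ⟨l, hcobE.mono_left IsOrderBornology.atTop_le_cobounded,
      hcobE.mono_left IsOrderBornology.atBot_le_cobounded⟩

end Pool.Agent.K4N
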