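import Pool.Agent.Lib_helper2.K4N.EngR

set_option autoImplicit false

/-!
The regulator of the class on `X₁(11)`.
-/

namespace Pool.Agent.K4N

open Filter Topology Pool.Agent.K4C
open scoped TensorProduct

/-- the real points of `y² + y = x³ - x²` -/
lemma exists_circle' : ∃ X Y c : ℝ → ℝ, Mer X ∧ Mer Y ∧
    (∀ s, Y s ^ 2 + Y s = X s ^ 3 - X s ^ 2) ∧ (∀ a, ∀ᶠ s in cofinite, X s ≠ a) ∧
    (∀ s, 0 < c s) ∧ (∀ s, HasDerivAt X ((2 * Y s + 1) * c s) s) ∧
    (∀ s, HasDerivAt Y ((3 * X s ^ 2 - 2 * X s) * c s) s) ∧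
    (∀ s, s ≠ 0 → 2 * Y s + 1 ≠ 0) ∧ Tendsto X (cocompact ℝ) atTop := by
  obtain ⟨x0, h0, h1⟩ := exists_root
  have hP : ∀ x : ℝ, 4 * x ^ 3 + ((0 : ℝ) ^ 2 + 4 * (-1)) * x ^ 2 + 2 * (2 * 0 + 0 * 1) * x +
      (1 ^ 2 + 4 * 0) = (x - x0) * (4 * x ^ 2 + (4 * (x0 - 1)) * x + 4 * (x0 ^ 2 - x0)) := by
    intro x
    linear_combination h0
  have hq : ∀ x : ℝ, x0 ≤ x → 0 < 4 * x ^ 2 + (4 * (x0 - 1)) * x + 4 * (x0 ^ 2 - x0) := by
    intro x _
    have e : 4 * x ^ 2 + (4 * (x0 - 1)) * x + 4 * (x0 ^ 2 - x0) =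
        (2 * x + (x0 - 1)) ^ 2 + (-(3 * x0 + 1)) * (1 - x0) := by ring
    rw [e]
    have h3 : 0 < (-(3 * x0 + 1)) * (1 - x0) := mul_pos (by linarith) (by linarith)
    have h4 := sq_nonneg (2 * x + (x0 - 1))
    linarith
  refine ⟨Xp x0, Yp 0 1 x0 _ _, cp x0 _ _, Xp_mer x0, Yp_mer 0 1 x0 _ _ hq, ?_, Xp_fin x0,
    cp_pos x0 _ _ hq, ?_, ?_, ?_, Xp_tendsto x0⟩
  · intro s
    have := Yp_eqn 0 (-1) 1 0 0 x0 _ _ hP hq s
    linear_combination this
  · intro s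
    refine (Xp_deriv' 0 1 x0 _ _ hq s).congr_deriv ?_
    ring
  · intro s
    refine (Yp_deriv' 0 (-1) 1 0 0 x0 _ _ hP hq s).congr_deriv ?_
    ring
  · intro s hs h
    have h5 := Yp_psi 0 1 x0 (4 * (x0 - 1)) (4 * (x0 ^ 2 - x0)) s
    have h6 := (Sp_pos x0 _ _ hq s).ne'
    have h7 : s * Sp x0 (4 * (x0 - 1)) (4 * (x0 ^ 2 - x0)) s = 0 := by
      rw [← h5]
      linear_combination h
    rcases mul_eq_zero.mp h7 with h8 | h8
    · exact hs h8
    · exact h6 h8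

section final

variable {k F : Type*} [Field k] [Field F] [Algebra k F] {x y : F}

/-- **The regulator of the closed element `za` is not zero.** -/
theorem za_rz (φ : k →+* ℝ) (hE : y ^ 2 + y = x ^ 3 - x ^ 2) (hx : Transcendental k x)
    (htop : IntermediateField.adjoin k {x, y} = ⊤) :
    ∃ X Y : ℝ → ℝ, FK4.Loop (⟨0, -1, 1, 0, 0⟩ : WeierstrassCurve.Affine k) φ X Y ∧
      RZ φ x y X Y (za x y) := by
  have h0 := x_ne hx
  have h1 := x1_ne hx
  have h2 := y_ne hE hx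
  have h3 := xy_ne hE hx
  obtain ⟨X, Y, c, mX, mY, hXY, hfin, hc, hX, hY, hpsi, hlim⟩ := exists_circle'
  let W : WeierstrassCurve.Affine k := ⟨0, -1, 1, 0, 0⟩
  have hEF : TN.Eqn W (algebraMap k F) x y := by
    show y ^ 2 + algebraMap k F 0 * x * y + algebraMap k F 1 * y =
      x ^ 3 + algebraMap k F (-1) * x ^ 2 + algebraMap k F 0 * x + algebraMap k F 0
    simp only [map_zero, map_one, map_neg]
    linear_combination hE
  have hER : ∀ s, TN.Eqn W φ (X s) (Y s) := by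
    intro s
    show Y s ^ 2 + φ 0 * X s * Y s + φ 1 * Y s =
      X s ^ 3 + φ (-1) * X s ^ 2 + φ 0 * X s + φ 0
    simp only [map_zero, map_one, map_neg]
    linear_combination hXY s
  obtain ⟨R, ρ, P, hR, hRx, hRy, hRc, hP, hP0⟩ := exists_reg φ hEF hx htop mX mY hER hfin
  refine ⟨X, Y, ⟨hER, ⟨c, fun s => ⟨hc s, (hX s).congr_deriv ?_, (hY s).congr_deriv ?_⟩⟩, hlim⟩,
    P, hP, fun c hc => (hP0 c).mpr (ρ.KK_le hR hRc c hc), fun hzP => ?_⟩
  · show _ = c s * (2 * Y s + φ 0 * X s + φ 1)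
    simp only [map_zero, map_one]
    ring
  · show _ = c s * (3 * X s ^ 2 + 2 * φ (-1) * X s + φ 0 - φ 0 * Y s)
    simp only [map_zero, map_one, map_neg]
    ring
  have hz : ρ.reg (za x y) = 0 := (hP0 _).mp hzP
  -- the regulator is represented by a positive function
  have ht := tx_ne h0 h1 h2 h3
  have hrep : ∀ i, ∀ᶠ s in cofinite, ρ.r (tx x y i) s = tx (X s) (Y s) i := fun i =>
    rep_of hR (R_tx hR hRx hRy i)
  have hrep2 : ∀ i, ∀ᶠ s in cofinite, ρ.r (tx x y (i + 1) / tx x y (i - 1)) s =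
      tx (X s) (Y s) (i + 1) / tx (X s) (Y s) (i - 1) := fun i =>
    rep_of hR (R_div hR (R_tx hR hRx hRy _) (R_tx hR hRx hRy _))
  have hterm : ∀ i, ρ.reg (K4M.hk (K4M.sy (tx x y i))
      (K4M.lg (tx x y (i + 1) / tx x y (i - 1)))) = WG.mkQ
      ((fun s => -(Rf (tx (X s) (Y s) i)) * deriv (fun t => tx (X t) (Y t) i) s *
        Real.log (tx (X s) (Y s) (i + 1) / tx (X s) (Y s) (i - 1)) : ℝ → ℝ) : VG) := fun i =>
    ρ.reg_sy (ht i) (tx_ne_one hE h0 h1 h2 h3 i) (div_ne_zero (ht _) (ht _)) (hrep i) (hrep2 i)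
  have hsum : ρ.reg (za x y) = WG.mkQ
      ((fun s => ∑ i : Fin 5, -(Rf (tx (X s) (Y s) i)) * deriv (fun t => tx (X t) (Y t) i) s *
        Real.log (tx (X s) (Y s) (i + 1) / tx (X s) (Y s) (i - 1)) : ℝ → ℝ) : VG) := by
    unfold za
    rw [map_sum]
    simp only [hterm]
    rw [← map_sum]
    congr 1
  rw [hsum, Submodule.mkQ_apply, Submodule.Quotient.mk_eq_zero] at hz
  refine WG_not_pos hz ?_
  have gx : ∀ᶠ s in cofinite, X s ≠ 0 := hfin 0
  have gx1 : ∀ᶠ s in cofinite, X s ≠ 1 := hfin 1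
  have gy : ∀ᶠ s in cofinite, Y s ≠ 0 := by
    filter_upwards [gx, gx1] with s a b h
    have := hXY s
    rw [h] at this
    have h' : X s ^ 2 * (X s - 1) = 0 := by linear_combination -this
    rcases mul_eq_zero.mp h' with h' | h'
    · exact a (pow_eq_zero_iff two_ne_zero |>.mp h')
    · exact b (sub_eq_zero.mp h')
  have gxy : ∀ᶠ s in cofinite, X s + Y s ≠ 0 := by
    filter_upwards [gx, gx1] with s a b h
    have := hXY s
    have e : Y s = - X s := by linear_combination h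
    rw [e] at this
    have h' : X s * (X s - 1) ^ 2 = 0 := by linear_combination -this
    rcases mul_eq_zero.mp h' with h' | h'
    · exact a h'
    · exact b (sub_eq_zero.mp (pow_eq_zero_iff two_ne_zero |>.mp h'))
  have g0 : ∀ᶠ s : ℝ in cofinite, s ≠ 0 := (Set.finite_singleton (0 : ℝ)).subset
    fun s hs => not_not.mp hs
  have gn : ∀ᶠ s in cofinite, tx (X s) (Y s) (0 - 1) ≠ tx (X s) (Y s) (0 + 1) := by
    filter_upwards [gx, gx1, gy, gxy, g0] with s a b d e g0 h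
    apply hpsi s g0
    have b' : X s - 1 ≠ 0 := sub_ne_zero.mpr b
    have h' : (X s - 1) / Y s = -Y s / X s ^ 2 := h
    rw [div_eq_div_iff d (pow_ne_zero _ a)] at h'
    have h9 : Y s * (2 * Y s + 1) = 0 := by linear_combination hXY s + h'
    rcases mul_eq_zero.mp h9 with h9 | h9
    · exact absurd h9 d
    · exact h9
  filter_upwards [gx, gx1, gy, gxy, gn] with s a b d e n
  have b' : X s - 1 ≠ 0 := sub_ne_zero.mpr b
  have hd : ∀ i, deriv (fun t => tx (X t) (Y t) i) s =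
      c s * (tx (X s) (Y s) i ^ 2 * (tx (X s) (Y s) (i - 1) - tx (X s) (Y s) (i + 1))) := fun i =>
    (tx_deriv (hXY s) (hX s) (hY s) a b' d e i).deriv
  simp only [hd]
  refine Finset.sum_pos' (fun i _ => (term_nonneg (hXY s) a b' d e (hc s) i).1)
    ⟨0, Finset.mem_univ _, (term_nonneg (hXY s) a b' d e (hc s) 0).2 n⟩

end final

end Pool.Agent.K4N
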