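import Pool.Agent.Lib_helper2.K4N.Q8
import Pool.Agent.Lib_helper2.K4N.EngR

set_option autoImplicit false
set_option linter.unusedSimpArgs false
set_option linter.unusedSectionVars false

/-!
The class for points of order ten at `t = 2` (`b = 24`, `c = 6`), and its nonvanishing.
-/

namespace Pool.Agent.K4N

open Filter Topology Pool.Agent.TN
open scoped TensorProduct

namespace Q10

/-- the component: even multiples on the identity component, odd ones on the oval -/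
def C10 (n : ℕ) (U _V : ℝ) : Prop := (Even n → 11 ≤ U) ∧ (¬ Even n → U ≤ 8)

/-- a real root of `4x³ - 71x² + 240x + 576` -/
lemma exists_root : ∃ x0 : ℝ, 4 * x0 ^ 2 - 39 * x0 - 72 = 0 ∧ 11 ≤ x0 := by
  have hc : ContinuousOn (fun x : ℝ => 4 * x ^ 2 - 39 * x - 72) (Set.Icc 11 12) := by
    fun_prop
  have h := intermediate_value_Icc (by norm_num : (11 : ℝ) ≤ 12) hc
  have h0 : (0 : ℝ) ∈ Set.Icc ((fun x : ℝ => 4 * x ^ 2 - 39 * x - 72) 11)
      ((fun x : ℝ => 4 * x ^ 2 - 39 * x - 72) 12) := by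
    constructor <;> norm_num
  obtain ⟨x0, hx0, hx1⟩ := h h0
  exact ⟨x0, hx1, hx0.1⟩

/-- the circle -/
noncomputable def circ10 : Circ ((24 : ℚ) : ℝ) ((6 : ℚ) : ℝ) (C10 0) := by
  refine mkCirc _ _ exists_root.choose (-71 + 4 * exists_root.choose)
    (240 - 71 * exists_root.choose + 4 * exists_root.choose ^ 2) _ ?_ ?_ ?_
  · intro x
    have h := exists_root.choose_spec.1
    push_cast
    generalize exists_root.choose = r at *
    linear_combination (r - 8) * h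
  · intro x hx
    obtain ⟨h1, h2⟩ := exists_root.choose_spec
    generalize exists_root.choose = r at *
    nlinarith [mul_nonneg (sub_nonneg.mpr hx) (sub_nonneg.mpr hx),
      mul_nonneg (sub_nonneg.mpr hx) (sub_nonneg.mpr h2)]
  · intro s _ V _
    refine ⟨fun _ => ?_, fun h => absurd (Even.zero) h⟩
    have := sq_nonneg s
    have h2 := exists_root.choose_spec.2
    linarith

section real

variable {U V : ℝ}

lemma psi10 (he : V ^ 2 - 5 * U * V - 24 * V = U ^ 3 - 24 * U ^ 2) :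
    (2 * V - 5 * U - 24) ^ 2 = (U - 8) * (4 * U ^ 2 - 39 * U - 72) := by
  linear_combination 4 * he

/-- the oval -/
lemma oval10 (he : V ^ 2 - 5 * U * V - 24 * V = U ^ 3 - 24 * U ^ 2) (h : U ≤ 8) :
    -8 / 5 ≤ U := by
  have h1 := psi10 he
  have h2 := sq_nonneg (2 * V - 5 * U - 24)
  rw [h1] at h2
  by_contra hh
  push Not at hh
  have : 0 < 4 * U ^ 2 - 39 * U - 72 := by nlinarith
  have h3 : U - 8 < 0 := by linarith
  have := mul_neg_of_neg_of_pos h3 this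
  linarith

lemma not_between (he : V ^ 2 - 5 * U * V - 24 * V = U ^ 3 - 24 * U ^ 2) (h : 8 < U) :
    11 ≤ U := by
  have h1 := psi10 he
  have h2 := sq_nonneg (2 * V - 5 * U - 24)
  rw [h1] at h2
  by_contra hh
  push Not at hh
  have : 4 * U ^ 2 - 39 * U - 72 < 0 := by nlinarith
  have h3 : 0 < U - 8 := by linarith
  have := mul_neg_of_pos_of_neg h3 this
  linarith

/-- the translate of a point of the curve is on the curve -/
lemma curve_T (he : V ^ 2 - 5 * U * V - 24 * V = U ^ 3 - 24 * U ^ 2) (hU : U ≠ 0) :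
    (24 ^ 2 * (U ^ 2 - V) / U ^ 3) ^ 2 - 5 * (24 * V / U ^ 2) * (24 ^ 2 * (U ^ 2 - V) / U ^ 3) -
      24 * (24 ^ 2 * (U ^ 2 - V) / U ^ 3) = (24 * V / U ^ 2) ^ 3 - 24 * (24 * V / U ^ 2) ^ 2 := by
  have e : (24 ^ 2 * (U ^ 2 - V) / U ^ 3) ^ 2 -
      5 * (24 * V / U ^ 2) * (24 ^ 2 * (U ^ 2 - V) / U ^ 3) -
      24 * (24 ^ 2 * (U ^ 2 - V) / U ^ 3) - ((24 * V / U ^ 2) ^ 3 - 24 * (24 * V / U ^ 2) ^ 2) =
      24 ^ 3 * (U ^ 2 - V) / U ^ 6 *
        (V ^ 2 - 5 * U * V - 24 * V - (U ^ 3 - 24 * U ^ 2)) := by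
    field_simp
    ring
  rw [he, sub_self, mul_zero] at e
  linarith

lemma comp10 {n : ℕ} (he : V ^ 2 - 5 * U * V - 24 * V = U ^ 3 - 24 * U ^ 2) (hU : U ≠ 0)
    (h : C10 n U V) : C10 (n + 1) (24 * V / U ^ 2) (24 ^ 2 * (U ^ 2 - V) / U ^ 3) := by
  have hU2 : 0 < U ^ 2 := by positivity
  have key : (1 / 3 * U ^ 2 - V) * (1 / 3 * U ^ 2 - (24 + 5 * U - V)) =
      U ^ 2 * (1 / 3 * U - 4) ^ 2 := by
    linear_combination (-1) * he
  have hnn : 0 ≤ U ^ 2 * (1 / 3 * U - 4) ^ 2 := by positivity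
  refine ⟨fun hn => ?_, fun hn => ?_⟩
  · have hlt : U ≤ 8 := h.2 fun h' => by
      rw [Nat.even_add_one] at hn
      exact hn h'
    have hge := oval10 he hlt
    refine not_between (curve_T he hU) ?_
    rw [lt_div_iff₀ hU2]
    by_contra hh
    push Not at hh
    have h1 : 0 ≤ 1 / 3 * U ^ 2 - V := by linarith
    have h2 : 1 / 3 * U ^ 2 - (24 + 5 * U - V) < 0 := by nlinarith
    have h3 : 0 < U ^ 2 * (1 / 3 * U - 4) ^ 2 := by
      have : (1 / 3 * U - 4) ^ 2 ≠ 0 := by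
        apply pow_ne_zero
        intro e
        linarith
      positivity
    have := mul_nonpos_of_nonneg_of_nonpos h1 h2.le
    linarith
  · have hge : 11 ≤ U := h.1 (by
      by_contra h'
      exact hn (Nat.even_add_one.mpr h'))
    rw [div_le_iff₀ hU2]
    by_contra hh
    push Not at hh
    have h1 : 1 / 3 * U ^ 2 - V < 0 := by linarith
    have h2 : 0 < 1 / 3 * U ^ 2 - (24 + 5 * U - V) := by nlinarith
    have := mul_neg_of_neg_of_pos h1 h2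
    linarith

/-- the numerator of the odd unit -/
lemma numA (he : V ^ 2 - 5 * U * V - 24 * V = U ^ 3 - 24 * U ^ 2) :
    (24 + 5 * U - V) * (24 - U - V) ^ 2 * (V - 3 * U) ^ 3 * (V - 4 * U) ^ 2 =
      (U ^ 4 * (U - 24) * (U - 12) ^ 2 * (U - 8)) *
        ((5184 + 324 * U - 639 / 2 * U ^ 2 + 33 * U ^ 3 - U ^ 4) +
          (216 - 45 / 2 * U) * (2 * V - 5 * U - 24)) := by
  linear_combination ((124416) * U ^ 4 + (-98496) * U ^ 5 + (18648) * U ^ 6 + (-1599) * U ^ 7 +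
    (65) * U ^ 8 + (-1) * U ^ 9 + (222912) * U ^ 3 * V + (-32976) * U ^ 4 * V + (3963) * U ^ 5 *
    V + (-226) * U ^ 6 * V + (5) * U ^ 7 * V + (-66240) * U ^ 2 * V ^ 2 + (-3264) * U ^ 3 * V ^
    2 + (-205) * U ^ 4 * V ^ 2 + (16) * U ^ 5 * V ^ 2 + (-1) * U ^ 6 * V ^ 2 + (9792) * U * V ^
    3 + (4128) * U ^ 2 * V ^ 3 + (-42) * U ^ 3 * V ^ 3 + (10) * U ^ 4 * V ^ 3 + (-576) * V ^ 4 +
    (-768) * U * V ^ 4 + (-58) * U ^ 2 * V ^ 4 + (-1) * U ^ 3 * V ^ 4 + (48) * V ^ 5 + (15) * U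
    * V ^ 5 + (-1) * V ^ 6) * he

/-- its reflection -/
lemma numB (he : V ^ 2 - 5 * U * V - 24 * V = U ^ 3 - 24 * U ^ 2) :
    V * (V - 6 * U) ^ 2 * (24 + 2 * U - V) ^ 3 * (24 + U - V) ^ 2 =
      (U ^ 4 * (U - 24) * (U - 12) ^ 2 * (U - 8)) *
        ((5184 + 324 * U - 639 / 2 * U ^ 2 + 33 * U ^ 3 - U ^ 4) -
          (216 - 45 / 2 * U) * (2 * V - 5 * U - 24)) := by
  linear_combination ((-11943936) * U ^ 2 + (2488320) * U ^ 3 + (456192) * U ^ 4 + (-200448) * U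
    ^ 5 + (26928) * U ^ 6 + (-1824) * U ^ 7 + (65) * U ^ 8 + (-1) * U ^ 9 + (3981312) * U * V +
    (2156544) * U ^ 2 * V + (-200448) * U ^ 3 * V + (14976) * U ^ 4 * V + (1344) * U ^ 5 * V +
    (-136) * U ^ 6 * V + (5) * U ^ 7 * V + (-331776) * V ^ 2 + (-705024) * U * V ^ 2 + (-150912)
    * U ^ 2 * V ^ 2 + (3456) * U ^ 3 * V ^ 2 + (-880) * U ^ 4 * V ^ 2 + (16) * U ^ 5 * V ^ 2 +
    (-1) * U ^ 6 * V ^ 2 + (55296) * V ^ 3 + (46656) * U * V ^ 3 + (4800) * U ^ 2 * V ^ 3 + (48)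
    * U ^ 3 * V ^ 3 + (10) * U ^ 4 * V ^ 3 + (-3456) * V ^ 4 + (-1368) * U * V ^ 4 + (-58) * U ^
    2 * V ^ 4 + (-1) * U ^ 3 * V ^ 4 + (96) * V ^ 5 + (15) * U * V ^ 5 + (-1) * V ^ 6) * he

lemma pq_pos (h : 11 ≤ U ∨ (-8 / 5 ≤ U ∧ U ≤ 8)) :
    0 < (5184 + 324 * U - 639 / 2 * U ^ 2 + 33 * U ^ 3 - U ^ 4) * (216 - 45 / 2 * U) := by
  rcases h with h | ⟨h1, h2⟩
  · have e : 5184 + 324 * U - 639 / 2 * U ^ 2 + 33 * U ^ 3 - U ^ 4 =
        -(1259 / 2 + (U - 11) ^ 4 + (U - 11) * (11 * (U - 11) ^ 2 - 87 / 2 * (U - 11) + 50)) := by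
      ring
    have h3 : 0 ≤ U - 11 := by linarith
    have h4 : 0 ≤ 11 * (U - 11) ^ 2 - 87 / 2 * (U - 11) + 50 := by
      nlinarith [sq_nonneg (U - 11 - 87 / 44)]
    have h5 := mul_nonneg h3 h4
    have h6 : 0 ≤ (U - 11) ^ 4 := by positivity
    apply mul_pos_of_neg_of_neg
    · rw [e]; linarith
    · linarith
  · have e : 5184 + 324 * U - 639 / 2 * U ^ 2 + 33 * U ^ 3 - U ^ 4 =
        128 + (8 - U) * (U ^ 3 - 25 * U ^ 2 + 239 / 2 * U + 632) := by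
      ring
    have h3 : 0 ≤ U ^ 3 - 25 * U ^ 2 + 239 / 2 * U + 632 := by
      have e2 : (48 / 5) ^ 3 * (U ^ 3 - 25 * U ^ 2 + 239 / 2 * U + 632) = 46588 / 125 * (8 - U) ^ 3 +
          77676 / 25 * (U + 8 / 5) * (8 - U) ^ 2 + 11748 / 5 * (U + 8 / 5) ^ 2 * (8 - U) +
          500 * (U + 8 / 5) ^ 3 := by ring
      have a1 : 0 ≤ 8 - U := by linarith
      have a2 : 0 ≤ U + 8 / 5 := by linarith
      have a3 : 0 ≤ (48 / 5 : ℝ) ^ 3 * (U ^ 3 - 25 * U ^ 2 + 239 / 2 * U + 632) := by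
        rw [e2]; positivity
      exact nonneg_of_mul_nonneg_right a3 (by norm_num)
    have h4 := mul_nonneg (sub_nonneg.mpr h2) h3
    apply mul_pos
    · rw [e]; linarith
    · linarith

/-- the sign of the odd unit -/
lemma tA (he : V ^ 2 - 5 * U * V - 24 * V = U ^ 3 - 24 * U ^ 2)
    (h : 11 ≤ U ∨ (-8 / 5 ≤ U ∧ U ≤ 8)) :
    0 ≤ (2 * V - 5 * U - 24) * Real.log (((24 + 5 * U - V) * (24 - U - V) ^ 2 *
      (V - 3 * U) ^ 3 * (V - 4 * U) ^ 2) / (V * (V - 6 * U) ^ 2 * (24 + 2 * U - V) ^ 3 *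
      (24 + U - V) ^ 2)) := by
  have hp := pq_pos h
  rw [numA he, numB he]
  generalize 5184 + 324 * U - 639 / 2 * U ^ 2 + 33 * U ^ 3 - U ^ 4 = p at *
  generalize 216 - 45 / 2 * U = q at *
  generalize U ^ 4 * (U - 24) * (U - 12) ^ 2 * (U - 8) = X at *
  have k := psi_log_nonpos (ψ := -(2 * V - 5 * U - 24))
    (A := X * (p + q * (2 * V - 5 * U - 24))) (B := X * (p - q * (2 * V - 5 * U - 24)))
    (E := 4 * X ^ 2 * (p * q)) (by positivity) (by ring)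
  linarith

/-- the sign of the derivative of the slope -/
lemma lam10 (he : V ^ 2 - 5 * U * V - 24 * V = U ^ 3 - 24 * U ^ 2) (h : 11 ≤ U) :
    0 < U ^ 3 - 24 * V ∧ 0 < U ^ 3 - 24 * (24 + 5 * U - V) := by
  have i5 : (U ^ 3 - 24 * V) * (U ^ 3 - 24 * (24 + 5 * U - V)) =
      U ^ 2 * (U ^ 4 - 120 * U ^ 2 - 1152 * U + 13824) := by
    linear_combination (-576) * he
  have a1 : 0 ≤ U - 11 := by linarith
  have h1 : 0 < U ^ 2 * (U ^ 4 - 120 * U ^ 2 - 1152 * U + 13824) := by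
    have e : U ^ 4 - 120 * U ^ 2 - 1152 * U + 13824 =
        1273 + 1532 * (U - 11) + 606 * (U - 11) ^ 2 + 44 * (U - 11) ^ 3 + (U - 11) ^ 4 := by ring
    rw [e]
    have : 0 < U := by linarith
    positivity
  have h2 : 0 < (U ^ 3 - 24 * V) + (U ^ 3 - 24 * (24 + 5 * U - V)) := by
    have e : (U ^ 3 - 24 * V) + (U ^ 3 - 24 * (24 + 5 * U - V)) =
      766 + 606 * (U - 11) + 66 * (U - 11) ^ 2 + 2 * (U - 11) ^ 3 := by ring
    rw [e]
    positivity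
  rw [← i5] at h1
  generalize U ^ 3 - 24 * V = A at *
  generalize U ^ 3 - 24 * (24 + 5 * U - V) = B at *
  constructor
  · by_contra hc
    push Not at hc
    have hB : 0 < B := by linarith
    have := mul_nonpos_of_nonpos_of_nonneg hc hB.le
    linarith
  · by_contra hc
    push Not at hc
    have hA : 0 < A := by linarith
    have := mul_nonpos_of_nonneg_of_nonpos hA.le hc
    linarith

/-- the two units on the identity component -/
lemma un10 (h : 11 ≤ U) :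
    ((U - 24) * (U - 12) ^ 4) ^ 2 ≤ (3 * (U - 6) ^ 3 * (U - 8) ^ 3) ^ 2 ∧
    ((U - 12) ^ 5) ^ 2 < (3 * (U - 6) ^ 3 * (U - 8) ^ 2) ^ 2 := by
  have h6 : 0 < U - 6 := by linarith
  have h8 : 0 < U - 8 := by linarith
  have k1 : |U - 12| ≤ U - 6 := abs_le.mpr ⟨by linarith, by linarith⟩
  have k2 : |U - 12| ≤ U - 8 := abs_le.mpr ⟨by linarith, by linarith⟩
  have k3 : |U - 24| ≤ 3 * ((U - 6) * (U - 8)) := abs_le.mpr ⟨by nlinarith, by nlinarith⟩
  constructor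
  · rw [sq_le_sq, abs_mul, abs_pow, abs_of_pos (by positivity : 0 < 3 * (U - 6) ^ 3 * (U - 8) ^ 3)]
    calc |U - 24| * |U - 12| ^ 4 = |U - 24| * (|U - 12| ^ 2 * |U - 12| ^ 2) := by ring
      _ ≤ (3 * ((U - 6) * (U - 8))) * ((U - 6) ^ 2 * (U - 8) ^ 2) := by gcongr
      _ = 3 * (U - 6) ^ 3 * (U - 8) ^ 3 := by ring
  · rw [sq_lt_sq, abs_pow, abs_of_pos (by positivity : 0 < 3 * (U - 6) ^ 3 * (U - 8) ^ 2)]
    calc |U - 12| ^ 5 = |U - 12| ^ 3 * |U - 12| ^ 2 := by ring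
      _ ≤ (U - 6) ^ 3 * (U - 8) ^ 2 := by gcongr
      _ < 3 * (U - 6) ^ 3 * (U - 8) ^ 2 := by
        have : 0 < (U - 6) ^ 3 * (U - 8) ^ 2 := by positivity
        linarith

end real

end Q10

end Pool.Agent.K4N
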