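import Pool.Agent.Lib_helper2.K4N.Q10BT

set_option autoImplicit false
set_option linter.unusedVariables false

/-!
The classes on the arc: the identities `f + (1 - f) = 1` and the signs of the derivatives.
-/

namespace Pool.Agent.K4N.Q10B

open LA

/-- the units -/
def Bs {K : Type*} [Field K] (X Y : K) : List K :=
  [X, X + 6, X - 30, X - 6, X + 10, Y, Y - 6 * X, Y + 6 * X, Y - 2 * X, 2, 3, 5]

/-- a point of the arc -/
structure Arc (X Y : ℝ) : Prop where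
  eq : Y ^ 2 - X * Y + 30 * Y = X ^ 3 + 6 * X ^ 2
  hX : 30 < X
  hY : 180 < Y
  h6 : 0 < Y - 6 * X
  h2 : 0 < Y - 2 * X
  hp : 0 < 2 * Y - X + 30

/-- the logarithmic derivatives of the units -/
structure Dv (X Y d0 d1 d2 d3 d4 d5 d6 d7 d8 : ℝ) : Prop where
  e0 : d0 * X = 2 * Y - X + 30
  e1 : d1 * (X + 6) = 2 * Y - X + 30
  e2 : d2 * (X - 30) = 2 * Y - X + 30
  e3 : d3 * (X - 6) = 2 * Y - X + 30
  e4 : d4 * (X + 10) = 2 * Y - X + 30
  e5 : d5 * Y = 3 * X ^ 2 + 12 * X + Y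
  e6 : d6 * (Y - 6 * X) = 3 * X ^ 2 + 12 * X + Y - 6 * (2 * Y - X + 30)
  e7 : d7 * (Y + 6 * X) = 3 * X ^ 2 + 12 * X + Y + 6 * (2 * Y - X + 30)
  e8 : d8 * (Y - 2 * X) = 3 * X ^ 2 + 12 * X + Y - 2 * (2 * Y - X + 30)

lemma ngl {S P Z : ℝ} (hP : 0 < P) (h : S * P = -Z) (hZ : 0 < Z) : S < 0 := by
  by_contra hh
  push Not at hh
  have := mul_nonneg hh hP.le
  linarith

lemma pos_nt {R R' : ℝ} (h1 : 0 < R * R') (h2 : 0 < R + R') : 0 < R := by
  by_contra hh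
  push Not at hh
  have : 0 < R' := by linarith
  have := mul_nonpos_of_nonpos_of_nonneg hh this.le
  linarith

lemma pos_nb {R R' : ℝ} (h1 : R * R' < 0) (h2 : 0 < R - R') : 0 < R := by
  by_contra hh
  push Not at hh
  have : R' ≤ 0 := by linarith
  have := mul_nonneg_of_nonpos_of_nonpos hh this
  linarith

/-- `f` decreases, or `1 - f` increases, or `f / (1 - f)` decreases -/
def Cl.Dec (w : Cl) (ds : List ℝ) : Prop :=
  lin (sub w.al w.c) ds < 0 ∨ lin (sub w.c w.be) ds < 0 ∨ lin (sub w.al w.be) ds < 0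

/-- the identity `f + (1 - f) = 1` -/
def Cl.Sum (w : Cl) (X Y : ℝ) : Prop :=
  monN w.al (Bs X Y) + monN w.be (Bs X Y) = monN w.c (Bs X Y)

section

variable {X Y : ℝ}

/-- class 154 -/
def w154 : Cl := ⟨[1, 1, 0, 2, 0, 0, 0, 2, 0, 0, 0, 1], [0, 0, 2, 2, 0, 1, 1, 0, 0, 0, 0, 0],
  [0, 1, 0, 0, 0, 0, 0, 2, 2, 1, 1, 0], []⟩

/-- class 187 -/
def w187 : Cl := ⟨[0, 0, 0, 0, 2, 0, 0, 1, 2, 0, 2, 0], [1, 0, 1, 2, 2, 1, 0, 0, 0, 0, 0, 0],
  [0, 0, 0, 0, 0, 0, 0, 1, 4, 0, 0, 0], []⟩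

theorem id5 (he : Y ^ 2 - X * Y + 30 * Y = X ^ 3 + 6 * X ^ 2) : w5.Sum X Y := by
  simp only [Cl.Sum, w5, Bs, monN_cons, monN_nil']
  linear_combination ((2) * X) * he

theorem id7 (he : Y ^ 2 - X * Y + 30 * Y = X ^ 3 + 6 * X ^ 2) : w7.Sum X Y := by
  simp only [Cl.Sum, w7, Bs, monN_cons, monN_nil']
  linear_combination ((6) * X) * he

theorem id8 (he : Y ^ 2 - X * Y + 30 * Y = X ^ 3 + 6 * X ^ 2) : w8.Sum X Y := by
  simp only [Cl.Sum, w8, Bs, monN_cons, monN_nil']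
  linear_combination ((-1)) * he

theorem id18 (he : Y ^ 2 - X * Y + 30 * Y = X ^ 3 + 6 * X ^ 2) : w18.Sum X Y := by
  simp only [Cl.Sum, w18, Bs, monN_cons, monN_nil']
  linear_combination ((180) + (-6) * Y + (6) * X) * he

theorem id22 (he : Y ^ 2 - X * Y + 30 * Y = X ^ 3 + 6 * X ^ 2) : w22.Sum X Y := by
  simp only [Cl.Sum, w22, Bs, monN_cons, monN_nil']
  linear_combination ((-2160) * Y + (180) * Y ^ 2 + (144) * X * Y + (-4320) * X ^ 2 + (24) * X *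
    Y ^ 2 + (228) * X ^ 2 * Y + (144) * X ^ 3 + (-1) * X ^ 2 * Y ^ 2) * he

theorem id26 (he : Y ^ 2 - X * Y + 30 * Y = X ^ 3 + 6 * X ^ 2) : w26.Sum X Y := by
  simp only [Cl.Sum, w26, Bs, monN_cons, monN_nil']
  linear_combination ((-1440) * X * Y + (8640) * X ^ 2 + (-24) * X * Y ^ 2 + (-96) * X ^ 2 * Y +
    (-864) * X ^ 3 + (-4) * X ^ 2 * Y ^ 2 + (24) * X ^ 3 * Y) * he

theorem id32 (he : Y ^ 2 - X * Y + 30 * Y = X ^ 3 + 6 * X ^ 2) : w32.Sum X Y := by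
  simp only [Cl.Sum, w32, Bs, monN_cons, monN_nil']
  linear_combination ((-360) * Y + (12) * Y ^ 2 + (48) * X * Y + (-288) * X ^ 2 + (2) * X * Y ^
    2 + (18) * X ^ 2 * Y) * he

theorem id39 (he : Y ^ 2 - X * Y + 30 * Y = X ^ 3 + 6 * X ^ 2) : w39.Sum X Y := by
  simp only [Cl.Sum, w39, Bs, monN_cons, monN_nil']
  linear_combination ((4320) * Y ^ 2 + (-103680) * X * Y + (-144) * Y ^ 3 + (1008) * X * Y ^ 2 +
    (20736) * X ^ 2 * Y + (-20736) * X ^ 3 + (-48) * X * Y ^ 3 + (-24) * X ^ 2 * Y ^ 2 + (2880)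
    * X ^ 3 * Y + (-3456) * X ^ 4 + (-4) * X ^ 2 * Y ^ 3 + (-12) * X ^ 3 * Y ^ 2) * he

theorem id44 (he : Y ^ 2 - X * Y + 30 * Y = X ^ 3 + 6 * X ^ 2) : w44.Sum X Y := by
  simp only [Cl.Sum, w44, Bs, monN_cons, monN_nil']
  linear_combination ((60) * Y + (-360) * X + (10) * X * Y + (-12) * X ^ 2) * he

theorem id45 (he : Y ^ 2 - X * Y + 30 * Y = X ^ 3 + 6 * X ^ 2) : w45.Sum X Y := by
  simp only [Cl.Sum, w45, Bs, monN_cons, monN_nil']
  linear_combination ((21600) * Y ^ 2 + (-129600) * X * Y + (-720) * Y ^ 3 + (-1440) * X * Y ^ 2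
    + (38880) * X ^ 2 * Y + (-25920) * X ^ 3 + (-132) * X * Y ^ 3 + (-768) * X ^ 2 * Y ^ 2 +
    (3168) * X ^ 3 * Y + (-4320) * X ^ 4 + (-2) * X ^ 2 * Y ^ 3 + (12) * X ^ 3 * Y ^ 2) * he

theorem id48 (he : Y ^ 2 - X * Y + 30 * Y = X ^ 3 + 6 * X ^ 2) : w48.Sum X Y := by
  simp only [Cl.Sum, w48, Bs, monN_cons, monN_nil']
  linear_combination ((-24) * X + (2) * X * Y) * he

theorem id53 (he : Y ^ 2 - X * Y + 30 * Y = X ^ 3 + 6 * X ^ 2) : w53.Sum X Y := by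
  simp only [Cl.Sum, w53, Bs, monN_cons, monN_nil']
  linear_combination ((2)) * he

theorem id56 (he : Y ^ 2 - X * Y + 30 * Y = X ^ 3 + 6 * X ^ 2) : w56.Sum X Y := by
  simp only [Cl.Sum, w56, Bs, monN_cons, monN_nil']
  linear_combination ((12) + (-1) * Y) * he

theorem id57 (he : Y ^ 2 - X * Y + 30 * Y = X ^ 3 + 6 * X ^ 2) : w57.Sum X Y := by
  simp only [Cl.Sum, w57, Bs, monN_cons, monN_nil']
  linear_combination ((8) * X) * he

theorem id58 (he : Y ^ 2 - X * Y + 30 * Y = X ^ 3 + 6 * X ^ 2) : w58.Sum X Y := by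
  simp only [Cl.Sum, w58, Bs, monN_cons, monN_nil']
  linear_combination ((720) * Y + (-24) * Y ^ 2 + (192) * X * Y + (-576) * X ^ 2 + (-4) * X * Y
    ^ 2 + (12) * X ^ 2 * Y) * he

theorem id63 (he : Y ^ 2 - X * Y + 30 * Y = X ^ 3 + 6 * X ^ 2) : w63.Sum X Y := by
  simp only [Cl.Sum, w63, Bs, monN_cons, monN_nil']
  linear_combination ((32) * X) * he

theorem id74 (he : Y ^ 2 - X * Y + 30 * Y = X ^ 3 + 6 * X ^ 2) : w74.Sum X Y := by
  simp only [Cl.Sum, w74, Bs, monN_cons, monN_nil']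
  linear_combination ((6) * Y + (-72) * X + (1) * X * Y) * he

theorem id78 (he : Y ^ 2 - X * Y + 30 * Y = X ^ 3 + 6 * X ^ 2) : w78.Sum X Y := by
  simp only [Cl.Sum, w78, Bs, monN_cons, monN_nil']
  linear_combination ((-60) + (1) * Y) * he

theorem id82 (he : Y ^ 2 - X * Y + 30 * Y = X ^ 3 + 6 * X ^ 2) : w82.Sum X Y := by
  simp only [Cl.Sum, w82, Bs, monN_cons, monN_nil']
  linear_combination ((60) * Y + (-360) * X + (-2) * Y ^ 2 + (2) * X * Y + (12) * X ^ 2) * he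

theorem id91 (he : Y ^ 2 - X * Y + 30 * Y = X ^ 3 + 6 * X ^ 2) : w91.Sum X Y := by
  simp only [Cl.Sum, w91, Bs, monN_cons, monN_nil']
  linear_combination (0) * he

theorem id92 (he : Y ^ 2 - X * Y + 30 * Y = X ^ 3 + 6 * X ^ 2) : w92.Sum X Y := by
  simp only [Cl.Sum, w92, Bs, monN_cons, monN_nil']
  linear_combination (0) * he

theorem id101 (he : Y ^ 2 - X * Y + 30 * Y = X ^ 3 + 6 * X ^ 2) : w101.Sum X Y := by
  simp only [Cl.Sum, w101, Bs, monN_cons, monN_nil']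
  linear_combination ((-1)) * he

theorem id102 (he : Y ^ 2 - X * Y + 30 * Y = X ^ 3 + 6 * X ^ 2) : w102.Sum X Y := by
  simp only [Cl.Sum, w102, Bs, monN_cons, monN_nil']
  linear_combination ((180) + (-6) * Y + (-6) * X) * he

theorem id114 (he : Y ^ 2 - X * Y + 30 * Y = X ^ 3 + 6 * X ^ 2) : w114.Sum X Y := by
  simp only [Cl.Sum, w114, Bs, monN_cons, monN_nil']
  linear_combination (0) * he

theorem id115 (he : Y ^ 2 - X * Y + 30 * Y = X ^ 3 + 6 * X ^ 2) : w115.Sum X Y := by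
  simp only [Cl.Sum, w115, Bs, monN_cons, monN_nil']
  linear_combination (0) * he

theorem id119 (he : Y ^ 2 - X * Y + 30 * Y = X ^ 3 + 6 * X ^ 2) : w119.Sum X Y := by
  simp only [Cl.Sum, w119, Bs, monN_cons, monN_nil']
  linear_combination (0) * he

theorem id124 (he : Y ^ 2 - X * Y + 30 * Y = X ^ 3 + 6 * X ^ 2) : w124.Sum X Y := by
  simp only [Cl.Sum, w124, Bs, monN_cons, monN_nil']
  linear_combination ((-40)) * he

theorem id125 (he : Y ^ 2 - X * Y + 30 * Y = X ^ 3 + 6 * X ^ 2) : w125.Sum X Y := by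
  simp only [Cl.Sum, w125, Bs, monN_cons, monN_nil']
  linear_combination ((4)) * he

theorem id133 (he : Y ^ 2 - X * Y + 30 * Y = X ^ 3 + 6 * X ^ 2) : w133.Sum X Y := by
  simp only [Cl.Sum, w133, Bs, monN_cons, monN_nil']
  linear_combination (0) * he

theorem id152 (he : Y ^ 2 - X * Y + 30 * Y = X ^ 3 + 6 * X ^ 2) : w152.Sum X Y := by
  simp only [Cl.Sum, w152, Bs, monN_cons, monN_nil']
  linear_combination ((-360) * Y + (12) * Y ^ 2 + (-36) * X * Y + (-72) * X ^ 2 + (36) * X ^ 3)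
    * he

theorem id167 (he : Y ^ 2 - X * Y + 30 * Y = X ^ 3 + 6 * X ^ 2) : w167.Sum X Y := by
  simp only [Cl.Sum, w167, Bs, monN_cons, monN_nil']
  linear_combination ((-64) * X) * he

theorem id177 (he : Y ^ 2 - X * Y + 30 * Y = X ^ 3 + 6 * X ^ 2) : w177.Sum X Y := by
  simp only [Cl.Sum, w177, Bs, monN_cons, monN_nil']
  linear_combination ((-36)) * he

theorem id183 (he : Y ^ 2 - X * Y + 30 * Y = X ^ 3 + 6 * X ^ 2) : w183.Sum X Y := by
  simp only [Cl.Sum, w183, Bs, monN_cons, monN_nil']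
  linear_combination ((648000) * X * Y ^ 2 + (1080) * Y ^ 4 + (-15120) * X * Y ^ 3 + (-38880) *
    X ^ 2 * Y ^ 2 + (-103680) * X ^ 3 * Y + (-36) * Y ^ 5 + (396) * X * Y ^ 4 + (144) * X ^ 2 *
    Y ^ 3 + (-29520) * X ^ 3 * Y ^ 2 + (41472) * X ^ 4 * Y + (-20736) * X ^ 5 + (-12) * X * Y ^
    5 + (42) * X ^ 2 * Y ^ 4 + (696) * X ^ 3 * Y ^ 3 + (-1992) * X ^ 4 * Y ^ 2 + (6336) * X ^ 5
    * Y + (-3456) * X ^ 6 + (-1) * X ^ 2 * Y ^ 5 + (1) * X ^ 3 * Y ^ 4 + (52) * X ^ 4 * Y ^ 3 +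
    (-1) * X ^ 5 * Y ^ 3) * he

theorem id185 (he : Y ^ 2 - X * Y + 30 * Y = X ^ 3 + 6 * X ^ 2) : w185.Sum X Y := by
  simp only [Cl.Sum, w185, Bs, monN_cons, monN_nil']
  linear_combination ((10800) * Y + (-360) * Y ^ 2 + (-2880) * X * Y + (2160) * X ^ 2 + (12) * Y
    ^ 3 + (84) * X * Y ^ 2 + (-132) * X ^ 2 * Y + (-288) * X ^ 3 + (12) * X ^ 3 * Y + (36) * X ^
    4) * he

theorem id189 (he : Y ^ 2 - X * Y + 30 * Y = X ^ 3 + 6 * X ^ 2) : w189.Sum X Y := by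
  simp only [Cl.Sum, w189, Bs, monN_cons, monN_nil']
  linear_combination ((-180) * Y ^ 2 + (720) * X * Y + (6) * Y ^ 3 + (-36) * X * Y ^ 2 + (12) *
    X ^ 2 * Y + (-96) * X ^ 3 + (1) * X * Y ^ 3 + (-1) * X ^ 2 * Y ^ 2 + (-4) * X ^ 3 * Y + (1)
    * X ^ 4 * Y) * he

theorem id203 (he : Y ^ 2 - X * Y + 30 * Y = X ^ 3 + 6 * X ^ 2) : w203.Sum X Y := by
  simp only [Cl.Sum, w203, Bs, monN_cons, monN_nil']
  linear_combination ((-25920) * X * Y + (144) * X * Y ^ 2 + (864) * X ^ 2 * Y + (-31104) * X ^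
    3 + (24) * X ^ 2 * Y ^ 2) * he

theorem id206 (he : Y ^ 2 - X * Y + 30 * Y = X ^ 3 + 6 * X ^ 2) : w206.Sum X Y := by
  simp only [Cl.Sum, w206, Bs, monN_cons, monN_nil']
  linear_combination ((1920) * Y ^ 2 + (-69120) * X ^ 2 + (896) * X * Y ^ 2 + (1024) * X ^ 2 * Y
    + (-1536) * X ^ 3 + (-32) * X ^ 2 * Y ^ 2 + (512) * X ^ 3 * Y + (128) * X ^ 4) * he

theorem id210 (he : Y ^ 2 - X * Y + 30 * Y = X ^ 3 + 6 * X ^ 2) : w210.Sum X Y := by
  simp only [Cl.Sum, w210, Bs, monN_cons, monN_nil']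
  linear_combination (0) * he

theorem id213 (he : Y ^ 2 - X * Y + 30 * Y = X ^ 3 + 6 * X ^ 2) : w213.Sum X Y := by
  simp only [Cl.Sum, w213, Bs, monN_cons, monN_nil']
  linear_combination (0) * he

theorem id217 (he : Y ^ 2 - X * Y + 30 * Y = X ^ 3 + 6 * X ^ 2) : w217.Sum X Y := by
  simp only [Cl.Sum, w217, Bs, monN_cons, monN_nil']
  linear_combination (0) * he

theorem id154 (he : Y ^ 2 - X * Y + 30 * Y = X ^ 3 + 6 * X ^ 2) : w154.Sum X Y := by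
  simp only [Cl.Sum, w154, Bs, monN_cons, monN_nil']
  linear_combination ((1080) * Y + (-6480) * X + (-36) * Y ^ 2 + (-144) * X * Y + (3024) * X ^ 2
    + (-6) * X * Y ^ 2 + (-54) * X ^ 2 * Y + (-180) * X ^ 3) * he

theorem id187 (he : Y ^ 2 - X * Y + 30 * Y = X ^ 3 + 6 * X ^ 2) : w187.Sum X Y := by
  simp only [Cl.Sum, w187, Bs, monN_cons, monN_nil']
  linear_combination ((-3600) * X + (30) * Y ^ 2 + (180) * X * Y + (-120) * X ^ 2 + (-1) * Y ^ 3
    + (1) * X * Y ^ 2 + (28) * X ^ 2 * Y + (-1) * X ^ 3 * Y) * he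

theorem der5 {d0 d1 d2 d3 d4 d5 d6 d7 d8 : ℝ} (h : Arc X Y)
    (k : Dv X Y d0 d1 d2 d3 d4 d5 d6 d7 d8) : w5.Dec [d0, d1, d2, d3, d4, d5, d6, d7, d8] := by
  obtain ⟨he, hX, hY, h6, h2, hp⟩ := h
  have hs : 0 < X - 30 := by linarith
  have ht : 0 < Y - 180 := by linarith
  have p3 : 0 < X - 6 := by linarith
  have pX : 0 < X := by linarith
  have pY : 0 < Y := by linarith
  have hR : 0 < (60) * Y + (-180) * X + (5) * X * Y := by
    have e : (60) * Y + (-180) * X + (5) * X * Y = 32400 + 720 * (X - 30) + 210 * (Y - 180) + 5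
      * (X - 30) * (Y - 180) := by ring
    rw [e]
    positivity
  have e : sub w5.c w5.be = [2, 1, 0, 0, 0, -1, -1, 0, 0, 1, 0, 0] := rfl
  refine (fun h => Or.inr (Or.inl h)) ?_
  rw [e]
  simp only [lin_cons, lin_nil']
  push_cast
  refine ngl (P := X * (X + 6) * Y * (Y - 6 * X)) (Z := ((60) * Y + (-180) * X + (5) * X * Y) *
    ((X + 6) * Y)) (by positivity) ?_ (mul_pos hR (by positivity))
  linear_combination (2) * ((X + 6) * Y * (Y - 6 * X)) * k.e0 + (1) * (X * Y * (Y - 6 * X)) *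
    k.e1 + (-1) * (X * (X + 6) * (Y - 6 * X)) * k.e5 + (-1) * (X * (X + 6) * Y) * k.e6 + ((24) *
    Y + (-72) * X + (6) * X * Y + (-18) * X ^ 2) * he

theorem der7 {d0 d1 d2 d3 d4 d5 d6 d7 d8 : ℝ} (h : Arc X Y)
    (k : Dv X Y d0 d1 d2 d3 d4 d5 d6 d7 d8) : w7.Dec [d0, d1, d2, d3, d4, d5, d6, d7, d8] := by
  obtain ⟨he, hX, hY, h6, h2, hp⟩ := h
  have hs : 0 < X - 30 := by linarith
  have ht : 0 < Y - 180 := by linarith
  have p3 : 0 < X - 6 := by linarith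
  have pX : 0 < X := by linarith
  have pY : 0 < Y := by linarith
  have hR : 0 < (-12960) * Y + (-6480) * X + (864) * X * Y + (648) * X ^ 2 + (72) * X ^ 2 * Y +
    (324) * X ^ 3 + (6) * X ^ 4 := by
    have e : (-12960) * Y + (-6480) * X + (864) * X * Y + (648) * X ^ 2 + (72) * X ^ 2 * Y +
      (324) * X ^ 3 + (6) * X ^ 4 = 27993600 + 2488320 * (X - 30) + 75168 * (X - 30) ^ 2 + 1044
      * (X - 30) ^ 3 + 6 * (X - 30) ^ 4 + 77760 * (Y - 180) + 5184 * (X - 30) * (Y - 180) + 72 *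
      (X - 30) ^ 2 * (Y - 180) := by ring
    rw [e]
    positivity
  have e : sub w7.al w7.be = [0, 1, -1, 0, 0, -1, 0, 1, 0, 0, 0, 1] := rfl
  refine (fun h => Or.inr (Or.inr h)) ?_
  rw [e]
  simp only [lin_cons, lin_nil']
  push_cast
  refine ngl (P := (X + 6) * (X - 30) * Y * (Y + 6 * X)) (Z := ((-12960) * Y + (-6480) * X +
    (864) * X * Y + (648) * X ^ 2 + (72) * X ^ 2 * Y + (324) * X ^ 3 + (6) * X ^ 4) * (X)) (by
    positivity) ?_ (mul_pos hR (by positivity))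
  linear_combination (1) * ((X - 30) * Y * (Y + 6 * X)) * k.e1 + (-1) * ((X + 6) * Y * (Y + 6 *
    X)) * k.e2 + (-1) * ((X + 6) * (X - 30) * (Y + 6 * X)) * k.e5 + (1) * ((X + 6) * (X - 30) *
    Y) * k.e7 + ((-1080) + (-72) * Y + (-756) * X + (12) * X ^ 2) * he

theorem der8 {d0 d1 d2 d3 d4 d5 d6 d7 d8 : ℝ} (h : Arc X Y)
    (k : Dv X Y d0 d1 d2 d3 d4 d5 d6 d7 d8) : w8.Dec [d0, d1, d2, d3, d4, d5, d6, d7, d8] := by
  obtain ⟨he, hX, hY, h6, h2, hp⟩ := h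
  have hs : 0 < X - 30 := by linarith
  have ht : 0 < Y - 180 := by linarith
  have p3 : 0 < X - 6 := by linarith
  have pX : 0 < X := by linarith
  have pY : 0 < Y := by linarith
  have hR : 0 < (-60) * Y + (1) * X * Y + (12) * X ^ 2 + (1) * X ^ 3 := by
    refine pos_nt (R' := (12 * X ^ 2 + 1 * X ^ 3) + ((-60) + 1 * X) * (X - 30 - Y)) ?_ ?_
    · have e : ((-60) * Y + (1) * X * Y + (12) * X ^ 2 + (1) * X ^ 3) * ((12 * X ^ 2 + 1 * X ^
        3) + ((-60) + 1 * X) * (X - 30 - Y)) = 1399680000 + 256608000 * (X - 30) + 19407600 * (X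
        - 30) ^ 2 + 775440 * (X - 30) ^ 3 + 17280 * (X - 30) ^ 4 + 204 * (X - 30) ^ 5 + 1 * (X -
        30) ^ 6 := by
        linear_combination ((-3600) + 120 * X + (-1) * X ^ 2) * he
      rw [e]
      positivity
    · have e : ((-60) * Y + (1) * X * Y + (12) * X ^ 2 + (1) * X ^ 3) + ((12 * X ^ 2 + 1 * X ^
        3) + ((-60) + 1 * X) * (X - 30 - Y)) = 75600 + 6810 * (X - 30) + 205 * (X - 30) ^ 2 + 2
        * (X - 30) ^ 3 := by ring
      rw [e]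
      positivity
  have e : sub w8.al w8.be = [-2, 0, 0, 0, 0, 1, 0, 0, 0, 0, 0, 0] := rfl
  refine (fun h => Or.inr (Or.inr h)) ?_
  rw [e]
  simp only [lin_cons, lin_nil']
  push_cast
  refine ngl (P := X * Y) (Z := ((-60) * Y + (1) * X * Y + (12) * X ^ 2 + (1) * X ^ 3) * (1))
    (by positivity) ?_ (mul_pos hR (by positivity))
  linear_combination (-2) * (Y) * k.e0 + (1) * (X) * k.e5 + ((-4)) * he

theorem der18 {d0 d1 d2 d3 d4 d5 d6 d7 d8 : ℝ} (h : Arc X Y)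
    (k : Dv X Y d0 d1 d2 d3 d4 d5 d6 d7 d8) : w18.Dec [d0, d1, d2, d3, d4, d5, d6, d7, d8] := by
  obtain ⟨he, hX, hY, h6, h2, hp⟩ := h
  have hs : 0 < X - 30 := by linarith
  have ht : 0 < Y - 180 := by linarith
  have p3 : 0 < X - 6 := by linarith
  have pX : 0 < X := by linarith
  have pY : 0 < Y := by linarith
  have hR : 0 < (900) * Y + (150) * X * Y + (-180) * X ^ 2 + (12) * X ^ 2 * Y + (-66) * X ^ 3 +
    (6) * X ^ 4 := by
    have e : (900) * Y + (150) * X * Y + (-180) * X ^ 2 + (12) * X ^ 2 * Y + (-66) * X ^ 3 + (6)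
      * X ^ 4 = 5832000 + 615600 * (X - 30) + 28440 * (X - 30) ^ 2 + 654 * (X - 30) ^ 3 + 6 * (X
      - 30) ^ 4 + 16200 * (Y - 180) + 870 * (X - 30) * (Y - 180) + 12 * (X - 30) ^ 2 * (Y - 180)
      := by ring
    rw [e]
    positivity
  have e : sub w18.al w18.be = [-1, 1, 0, 0, 0, 1, -1, 0, 0, 0, 0, 1] := rfl
  refine (fun h => Or.inr (Or.inr h)) ?_
  rw [e]
  simp only [lin_cons, lin_nil']
  push_cast
  refine ngl (P := X * (X + 6) * Y * (Y - 6 * X)) (Z := ((900) * Y + (150) * X * Y + (-180) * X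
    ^ 2 + (12) * X ^ 2 * Y + (-66) * X ^ 3 + (6) * X ^ 4) * ((X + 6))) (by positivity) ?_
    (mul_pos hR (by positivity))
  linear_combination (-1) * ((X + 6) * Y * (Y - 6 * X)) * k.e0 + (1) * (X * Y * (Y - 6 * X)) *
    k.e1 + (1) * (X * (X + 6) * (Y - 6 * X)) * k.e5 + (-1) * (X * (X + 6) * Y) * k.e6 + ((180) +
    (-12) * Y + (138) * X + (12) * X ^ 2) * he

theorem der22 {d0 d1 d2 d3 d4 d5 d6 d7 d8 : ℝ} (h : Arc X Y)
    (k : Dv X Y d0 d1 d2 d3 d4 d5 d6 d7 d8) : w22.Dec [d0, d1, d2, d3, d4, d5, d6, d7, d8] := by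
  obtain ⟨he, hX, hY, h6, h2, hp⟩ := h
  have hs : 0 < X - 30 := by linarith
  have ht : 0 < Y - 180 := by linarith
  have p3 : 0 < X - 6 := by linarith
  have pX : 0 < X := by linarith
  have pY : 0 < Y := by linarith
  have hR : 0 < (150) * Y + (-5) * X * Y + (-30) * X ^ 2 + (1) * X ^ 2 * Y + (7) * X ^ 3 := by
    have e : (150) * Y + (-5) * X * Y + (-30) * X ^ 2 + (1) * X ^ 2 * Y + (7) * X ^ 3 = 324000 +
      27000 * (X - 30) + 780 * (X - 30) ^ 2 + 7 * (X - 30) ^ 3 + 900 * (Y - 180) + 55 * (X - 30)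
      * (Y - 180) + 1 * (X - 30) ^ 2 * (Y - 180) := by ring
    rw [e]
    positivity
  have e : sub w22.al w22.be = [0, -1, -1, 0, 0, -1, 1, 1, 0, 0, 2, 0] := rfl
  refine (fun h => Or.inr (Or.inr h)) ?_
  rw [e]
  simp only [lin_cons, lin_nil']
  push_cast
  refine ngl (P := (X + 6) * (X - 30) * Y * (Y - 6 * X) * (Y + 6 * X)) (Z := ((150) * Y + (-5) *
    X * Y + (-30) * X ^ 2 + (1) * X ^ 2 * Y + (7) * X ^ 3) * ((X + 6) * (X - 30) * (Y - 6 * X)))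
    (by positivity) ?_ (mul_pos hR (by positivity))
  linear_combination (-1) * ((X - 30) * Y * (Y - 6 * X) * (Y + 6 * X)) * k.e1 + (-1) * ((X + 6)
    * Y * (Y - 6 * X) * (Y + 6 * X)) * k.e2 + (-1) * ((X + 6) * (X - 30) * (Y - 6 * X) * (Y + 6
    * X)) * k.e5 + (1) * ((X + 6) * (X - 30) * Y * (Y + 6 * X)) * k.e6 + (1) * ((X + 6) * (X -
    30) * Y * (Y - 6 * X)) * k.e7 + ((-900) * Y + (18360) * X + (48) * Y ^ 2 + (60) * X * Y +
    (1368) * X ^ 2 + (-4) * X * Y ^ 2 + (-1) * X ^ 2 * Y + (-66) * X ^ 3) * he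

theorem der26 {d0 d1 d2 d3 d4 d5 d6 d7 d8 : ℝ} (h : Arc X Y)
    (k : Dv X Y d0 d1 d2 d3 d4 d5 d6 d7 d8) : w26.Dec [d0, d1, d2, d3, d4, d5, d6, d7, d8] := by
  obtain ⟨he, hX, hY, h6, h2, hp⟩ := h
  have hs : 0 < X - 30 := by linarith
  have ht : 0 < Y - 180 := by linarith
  have p3 : 0 < X - 6 := by linarith
  have pX : 0 < X := by linarith
  have pY : 0 < Y := by linarith
  have hR : 0 < (5400) + (900) * X + (24) * X * Y + (18) * X ^ 2 + (3) * X ^ 3 := by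
    have e : (5400) + (900) * X + (24) * X * Y + (18) * X ^ 2 + (3) * X ^ 3 = 259200 + 14400 *
      (X - 30) + 288 * (X - 30) ^ 2 + 3 * (X - 30) ^ 3 + 720 * (Y - 180) + 24 * (X - 30) * (Y -
      180) := by ring
    rw [e]
    positivity
  have e : sub w26.c w26.be = [-1, 1, -1, -1, -1, -1, 0, 1, 2, -2, 0, 1] := rfl
  refine (fun h => Or.inr (Or.inl h)) ?_
  rw [e]
  simp only [lin_cons, lin_nil']
  push_cast
  refine ngl (P := X * (X + 6) * (X - 30) * (X - 6) * (X + 10) * Y * (Y + 6 * X) * (Y - 2 * X))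
    (Z := ((5400) + (900) * X + (24) * X * Y + (18) * X ^ 2 + (3) * X ^ 3) * ((X - 6) * (X + 10)
    * Y ^ 2 * (Y + 6 * X))) (by positivity) ?_ (mul_pos hR (by positivity))
  linear_combination (-1) * ((X + 6) * (X - 30) * (X - 6) * (X + 10) * Y * (Y + 6 * X) * (Y - 2
    * X)) * k.e0 + (1) * (X * (X - 30) * (X - 6) * (X + 10) * Y * (Y + 6 * X) * (Y - 2 * X)) *
    k.e1 + (-1) * (X * (X + 6) * (X - 6) * (X + 10) * Y * (Y + 6 * X) * (Y - 2 * X)) * k.e2 +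
    (-1) * (X * (X + 6) * (X - 30) * (X + 10) * Y * (Y + 6 * X) * (Y - 2 * X)) * k.e3 + (-1) *
    (X * (X + 6) * (X - 30) * (X - 6) * Y * (Y + 6 * X) * (Y - 2 * X)) * k.e4 + (-1) * (X * (X +
    6) * (X - 30) * (X - 6) * (X + 10) * (Y + 6 * X) * (Y - 2 * X)) * k.e5 + (1) * (X * (X + 6)
    * (X - 30) * (X - 6) * (X + 10) * Y * (Y - 2 * X)) * k.e7 + (2) * (X * (X + 6) * (X - 30) *
    (X - 6) * (X + 10) * Y * (Y + 6 * X)) * k.e8 + ((-21600) * Y ^ 2 + (-86400) * X * Y +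
    (-259200) * X ^ 2 + (2880) * X * Y ^ 2 + (-720) * X ^ 2 * Y + (-38880) * X ^ 3 + (1392) * X
    ^ 2 * Y ^ 2 + (3720) * X ^ 3 * Y + (10224) * X ^ 4 + (80) * X ^ 3 * Y ^ 2 + (420) * X ^ 4 *
    Y + (792) * X ^ 5 + (-6) * X ^ 4 * Y ^ 2 + (-18) * X ^ 5 * Y + (-36) * X ^ 6) * he

theorem der32 {d0 d1 d2 d3 d4 d5 d6 d7 d8 : ℝ} (h : Arc X Y)
    (k : Dv X Y d0 d1 d2 d3 d4 d5 d6 d7 d8) : w32.Dec [d0, d1, d2, d3, d4, d5, d6, d7, d8] := by
  obtain ⟨he, hX, hY, h6, h2, hp⟩ := h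
  have hs : 0 < X - 30 := by linarith
  have ht : 0 < Y - 180 := by linarith
  have p3 : 0 < X - 6 := by linarith
  have pX : 0 < X := by linarith
  have pY : 0 < Y := by linarith
  have hR : 0 < (27000) * Y + (-12600) * X * Y + (-5400) * X ^ 2 + (750) * X ^ 2 * Y + (1440) *
    X ^ 3 + (60) * X ^ 3 * Y + (210) * X ^ 4 + (6) * X ^ 5 := by
    have e : (27000) * Y + (-12600) * X * Y + (-5400) * X ^ 2 + (750) * X ^ 2 * Y + (1440) * X ^
      3 + (60) * X ^ 3 * Y + (210) * X ^ 4 + (6) * X ^ 5 = 699840000 + 85536000 * (X - 30) +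
      3985200 * (X - 30) ^ 2 + 91440 * (X - 30) ^ 3 + 1110 * (X - 30) ^ 4 + 6 * (X - 30) ^ 5 +
      1944000 * (Y - 180) + 194400 * (X - 30) * (Y - 180) + 6150 * (X - 30) ^ 2 * (Y - 180) + 60
      * (X - 30) ^ 3 * (Y - 180) := by ring
    rw [e]
    positivity
  have e : sub w32.c w32.be = [1, 0, -1, 0, 0, -1, 0, 1, 0, 0, 1, 0] := rfl
  refine (fun h => Or.inr (Or.inl h)) ?_
  rw [e]
  simp only [lin_cons, lin_nil']
  push_cast
  refine ngl (P := X * (X - 30) * Y * (Y + 6 * X)) (Z := ((27000) * Y + (-12600) * X * Y +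
    (-5400) * X ^ 2 + (750) * X ^ 2 * Y + (1440) * X ^ 3 + (60) * X ^ 3 * Y + (210) * X ^ 4 +
    (6) * X ^ 5) * (1)) (by positivity) ?_ (mul_pos hR (by positivity))
  linear_combination (1) * ((X - 30) * Y * (Y + 6 * X)) * k.e0 + (-1) * (X * Y * (Y + 6 * X)) *
    k.e2 + (-1) * (X * (X - 30) * (Y + 6 * X)) * k.e5 + (1) * (X * (X - 30) * Y) * k.e7 + ((900)
    + (-60) * Y + (-750) * X + (12) * X ^ 2) * he

theorem der39 {d0 d1 d2 d3 d4 d5 d6 d7 d8 : ℝ} (h : Arc X Y)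
    (k : Dv X Y d0 d1 d2 d3 d4 d5 d6 d7 d8) : w39.Dec [d0, d1, d2, d3, d4, d5, d6, d7, d8] := by
  obtain ⟨he, hX, hY, h6, h2, hp⟩ := h
  have hs : 0 < X - 30 := by linarith
  have ht : 0 < Y - 180 := by linarith
  have p3 : 0 < X - 6 := by linarith
  have pX : 0 < X := by linarith
  have pY : 0 < Y := by linarith
  have hR : 0 < (1080) * Y + (396) * X * Y + (1512) * X ^ 2 + (72) * X ^ 2 * Y + (108) * X ^ 3 +
    (12) * X ^ 4 := by
    have e : (1080) * Y + (396) * X * Y + (1512) * X ^ 2 + (72) * X ^ 2 * Y + (108) * X ^ 3 +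
      (12) * X ^ 4 = 27993600 + 2527200 * (X - 30) + 88992 * (X - 30) ^ 2 + 1548 * (X - 30) ^ 3
      + 12 * (X - 30) ^ 4 + 77760 * (Y - 180) + 4716 * (X - 30) * (Y - 180) + 72 * (X - 30) ^ 2
      * (Y - 180) := by ring
    rw [e]
    positivity
  have e : sub w39.al w39.be = [0, 1, -1, 0, 0, 0, -1, 1, 0, 0, 1, 0] := rfl
  refine (fun h => Or.inr (Or.inr h)) ?_
  rw [e]
  simp only [lin_cons, lin_nil']
  push_cast
  refine ngl (P := (X + 6) * (X - 30) * (Y - 6 * X) * (Y + 6 * X)) (Z := ((1080) * Y + (396) * X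
    * Y + (1512) * X ^ 2 + (72) * X ^ 2 * Y + (108) * X ^ 3 + (12) * X ^ 4) * ((X - 30))) (by
    positivity) ?_ (mul_pos hR (by positivity))
  linear_combination (1) * ((X - 30) * (Y - 6 * X) * (Y + 6 * X)) * k.e1 + (-1) * ((X + 6) * (Y
    - 6 * X) * (Y + 6 * X)) * k.e2 + (-1) * ((X + 6) * (X - 30) * (Y + 6 * X)) * k.e6 + (1) *
    ((X + 6) * (X - 30) * (Y - 6 * X)) * k.e7 + ((-3240) + (-72) * Y + (-612) * X + (24) * X ^
    2) * he

theorem der44 {d0 d1 d2 d3 d4 d5 d6 d7 d8 : ℝ} (h : Arc X Y)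
    (k : Dv X Y d0 d1 d2 d3 d4 d5 d6 d7 d8) : w44.Dec [d0, d1, d2, d3, d4, d5, d6, d7, d8] := by
  obtain ⟨he, hX, hY, h6, h2, hp⟩ := h
  have hs : 0 < X - 30 := by linarith
  have ht : 0 < Y - 180 := by linarith
  have p3 : 0 < X - 6 := by linarith
  have pX : 0 < X := by linarith
  have pY : 0 < Y := by linarith
  have hR : 0 < (1) * Y + (2) * X := by
    have e : (1) * Y + (2) * X = 240 + 2 * (X - 30) + 1 * (Y - 180) := by ring
    rw [e]
    positivity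
  have e : sub w44.al w44.c = [-1, 0, 0, 0, -1, 0, 0, 0, 1, 1, 0, 1] := rfl
  refine (Or.inl) ?_
  rw [e]
  simp only [lin_cons, lin_nil']
  push_cast
  refine ngl (P := X * (X + 10) * (Y - 2 * X)) (Z := ((1) * Y + (2) * X) * ((X + 10) * (Y - 6 *
    X))) (by positivity) ?_ (mul_pos hR (by positivity))
  linear_combination (-1) * ((X + 10) * (Y - 2 * X)) * k.e0 + (-1) * (X * (Y - 2 * X)) * k.e4 +
    (1) * (X * (X + 10)) * k.e8 + ((-10) + (-3) * X) * he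

theorem der45 {d0 d1 d2 d3 d4 d5 d6 d7 d8 : ℝ} (h : Arc X Y)
    (k : Dv X Y d0 d1 d2 d3 d4 d5 d6 d7 d8) : w45.Dec [d0, d1, d2, d3, d4, d5, d6, d7, d8] := by
  obtain ⟨he, hX, hY, h6, h2, hp⟩ := h
  have hs : 0 < X - 30 := by linarith
  have ht : 0 < Y - 180 := by linarith
  have p3 : 0 < X - 6 := by linarith
  have pX : 0 < X := by linarith
  have pY : 0 < Y := by linarith
  have hR : 0 < (540) + (72) * Y + (144) * X + (9) * X ^ 2 := by
    have e : (540) + (72) * Y + (144) * X + (9) * X ^ 2 = 25920 + 684 * (X - 30) + 9 * (X - 30)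
      ^ 2 + 72 * (Y - 180) := by ring
    rw [e]
    positivity
  have e : sub w45.c w45.be = [0, 2, -2, -2, -1, -2, 0, 2, 2, -1, 0, 1] := rfl
  refine (fun h => Or.inr (Or.inl h)) ?_
  rw [e]
  simp only [lin_cons, lin_nil']
  push_cast
  refine ngl (P := (X + 6) * (X - 30) * (X - 6) * (X + 10) * Y * (Y + 6 * X) * (Y - 2 * X)) (Z
    := ((540) + (72) * Y + (144) * X + (9) * X ^ 2) * ((X - 6) * (X + 10) * Y * (Y + 6 * X) * (Y
    - 2 * X))) (by positivity) ?_ (mul_pos hR (by positivity))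
  linear_combination (2) * ((X - 30) * (X - 6) * (X + 10) * Y * (Y + 6 * X) * (Y - 2 * X)) *
    k.e1 + (-2) * ((X + 6) * (X - 6) * (X + 10) * Y * (Y + 6 * X) * (Y - 2 * X)) * k.e2 + (-2) *
    ((X + 6) * (X - 30) * (X + 10) * Y * (Y + 6 * X) * (Y - 2 * X)) * k.e3 + (-1) * ((X + 6) *
    (X - 30) * (X - 6) * Y * (Y + 6 * X) * (Y - 2 * X)) * k.e4 + (-2) * ((X + 6) * (X - 30) * (X
    - 6) * (X + 10) * (Y + 6 * X) * (Y - 2 * X)) * k.e5 + (2) * ((X + 6) * (X - 30) * (X - 6) *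
    (X + 10) * Y * (Y - 2 * X)) * k.e7 + (2) * ((X + 6) * (X - 30) * (X - 6) * (X + 10) * Y * (Y
    + 6 * X)) * k.e8 + ((86400) * Y + (-518400) * X + (9360) * Y ^ 2 + (20160) * X * Y +
    (-77760) * X ^ 2 + (1464) * X * Y ^ 2 + (-480) * X ^ 2 * Y + (20448) * X ^ 3 + (44) * X ^ 2
    * Y ^ 2 + (144) * X ^ 3 * Y + (1584) * X ^ 4 + (-6) * X ^ 3 * Y ^ 2 + (-72) * X ^ 5) * he

theorem der48 {d0 d1 d2 d3 d4 d5 d6 d7 d8 : ℝ} (h : Arc X Y)
    (k : Dv X Y d0 d1 d2 d3 d4 d5 d6 d7 d8) : w48.Dec [d0, d1, d2, d3, d4, d5, d6, d7, d8] := by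
  obtain ⟨he, hX, hY, h6, h2, hp⟩ := h
  have hs : 0 < X - 30 := by linarith
  have ht : 0 < Y - 180 := by linarith
  have p3 : 0 < X - 6 := by linarith
  have pX : 0 < X := by linarith
  have pY : 0 < Y := by linarith
  have hR : 0 < (-6480) + (-360) * Y + (1080) * X + (120) * X * Y + (468) * X ^ 2 + (6) * X ^ 2
    * Y + (18) * X ^ 3 := by
    have e : (-6480) + (-360) * Y + (1080) * X + (120) * X * Y + (468) * X ^ 2 + (6) * X ^ 2 * Y
      + (18) * X ^ 3 = 2488320 + 164160 * (X - 30) + 3168 * (X - 30) ^ 2 + 18 * (X - 30) ^ 3 +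
      8640 * (Y - 180) + 480 * (X - 30) * (Y - 180) + 6 * (X - 30) ^ 2 * (Y - 180) := by ring
    rw [e]
    positivity
  have e : sub w48.al w48.be = [0, 1, 0, -1, 0, -1, 0, 1, 0, 0, 0, 0] := rfl
  refine (fun h => Or.inr (Or.inr h)) ?_
  rw [e]
  simp only [lin_cons, lin_nil']
  push_cast
  refine ngl (P := (X + 6) * (X - 6) * Y * (Y + 6 * X)) (Z := ((-6480) + (-360) * Y + (1080) * X
    + (120) * X * Y + (468) * X ^ 2 + (6) * X ^ 2 * Y + (18) * X ^ 3) * (Y)) (by positivity) ?_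
    (mul_pos hR (by positivity))
  linear_combination (1) * ((X - 6) * Y * (Y + 6 * X)) * k.e1 + (-1) * ((X + 6) * Y * (Y + 6 *
    X)) * k.e3 + (-1) * ((X + 6) * (X - 6) * (Y + 6 * X)) * k.e5 + (1) * ((X + 6) * (X - 6) * Y)
    * k.e7 + ((-432) + (-24) * Y + (-36) * X + (18) * X ^ 2) * he

theorem der53 {d0 d1 d2 d3 d4 d5 d6 d7 d8 : ℝ} (h : Arc X Y)
    (k : Dv X Y d0 d1 d2 d3 d4 d5 d6 d7 d8) : w53.Dec [d0, d1, d2, d3, d4, d5, d6, d7, d8] := by
  obtain ⟨he, hX, hY, h6, h2, hp⟩ := h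
  have hs : 0 < X - 30 := by linarith
  have ht : 0 < Y - 180 := by linarith
  have p3 : 0 < X - 6 := by linarith
  have pX : 0 < X := by linarith
  have pY : 0 < Y := by linarith
  have hR : 0 < (1) * Y + (2) * X := by
    have e : (1) * Y + (2) * X = 240 + 2 * (X - 30) + 1 * (Y - 180) := by ring
    rw [e]
    positivity
  have e : sub w53.al w53.be = [-1, 0, 0, 0, -1, 0, 0, 0, 1, 1, 0, 0] := rfl
  refine (fun h => Or.inr (Or.inr h)) ?_
  rw [e]
  simp only [lin_cons, lin_nil']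
  push_cast
  refine ngl (P := X * (X + 10) * (Y - 2 * X)) (Z := ((1) * Y + (2) * X) * ((X + 10) * (Y - 6 *
    X))) (by positivity) ?_ (mul_pos hR (by positivity))
  linear_combination (-1) * ((X + 10) * (Y - 2 * X)) * k.e0 + (-1) * (X * (Y - 2 * X)) * k.e4 +
    (1) * (X * (X + 10)) * k.e8 + ((-10) + (-3) * X) * he

theorem der56 {d0 d1 d2 d3 d4 d5 d6 d7 d8 : ℝ} (h : Arc X Y)
    (k : Dv X Y d0 d1 d2 d3 d4 d5 d6 d7 d8) : w56.Dec [d0, d1, d2, d3, d4, d5, d6, d7, d8] := by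
  obtain ⟨he, hX, hY, h6, h2, hp⟩ := h
  have hs : 0 < X - 30 := by linarith
  have ht : 0 < Y - 180 := by linarith
  have p3 : 0 < X - 6 := by linarith
  have pX : 0 < X := by linarith
  have pY : 0 < Y := by linarith
  have hR : 0 < (1) * Y + (2) * X := by
    have e : (1) * Y + (2) * X = 240 + 2 * (X - 30) + 1 * (Y - 180) := by ring
    rw [e]
    positivity
  have e : sub w56.al w56.be = [0, 0, 0, -1, -1, -1, 0, 0, 2, 0, 1, 0] := rfl
  refine (fun h => Or.inr (Or.inr h)) ?_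
  rw [e]
  simp only [lin_cons, lin_nil']
  push_cast
  refine ngl (P := (X - 6) * (X + 10) * Y * (Y - 2 * X)) (Z := ((1) * Y + (2) * X) * ((X + 10) *
    (Y - 6 * X) * (Y - 2 * X))) (by positivity) ?_ (mul_pos hR (by positivity))
  linear_combination (-1) * ((X + 10) * Y * (Y - 2 * X)) * k.e3 + (-1) * ((X - 6) * Y * (Y - 2 *
    X)) * k.e4 + (-1) * ((X - 6) * (X + 10) * (Y - 2 * X)) * k.e5 + (2) * ((X - 6) * (X + 10) *
    Y) * k.e8 + ((240) + (2) * Y + (-36) * X + (-3) * X * Y + (-6) * X ^ 2) * he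

theorem der57 {d0 d1 d2 d3 d4 d5 d6 d7 d8 : ℝ} (h : Arc X Y)
    (k : Dv X Y d0 d1 d2 d3 d4 d5 d6 d7 d8) : w57.Dec [d0, d1, d2, d3, d4, d5, d6, d7, d8] := by
  obtain ⟨he, hX, hY, h6, h2, hp⟩ := h
  have hs : 0 < X - 30 := by linarith
  have ht : 0 < Y - 180 := by linarith
  have p3 : 0 < X - 6 := by linarith
  have pX : 0 < X := by linarith
  have pY : 0 < Y := by linarith
  have hR : 0 < (6480) * Y + (2160) * X * Y + (2160) * X ^ 2 + (468) * X ^ 2 * Y + (-1728) * X ^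
    3 + (24) * X ^ 3 * Y + (-180) * X ^ 4 + (4) * X ^ 5 := by
    have e : (6480) * Y + (2160) * X * Y + (2160) * X ^ 2 + (468) * X ^ 2 * Y + (-1728) * X ^ 3
      + (24) * X ^ 3 * Y + (-180) * X ^ 4 + (4) * X ^ 5 = 111974400 + 9331200 * (X - 30) +
      427680 * (X - 30) ^ 2 + 16992 * (X - 30) ^ 3 + 420 * (X - 30) ^ 4 + 4 * (X - 30) ^ 5 +
      1140480 * (Y - 180) + 95040 * (X - 30) * (Y - 180) + 2628 * (X - 30) ^ 2 * (Y - 180) + 24
      * (X - 30) ^ 3 * (Y - 180) := by ring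
    rw [e]
    positivity
  have e : sub w57.al w57.be = [0, 1, 0, -1, 0, 0, -1, 0, 1, 0, 0, 0] := rfl
  refine (fun h => Or.inr (Or.inr h)) ?_
  rw [e]
  simp only [lin_cons, lin_nil']
  push_cast
  refine ngl (P := (X + 6) * (X - 6) * (Y - 6 * X) * (Y - 2 * X)) (Z := ((6480) * Y + (2160) * X
    * Y + (2160) * X ^ 2 + (468) * X ^ 2 * Y + (-1728) * X ^ 3 + (24) * X ^ 3 * Y + (-180) * X ^
    4 + (4) * X ^ 5) * (1)) (by positivity) ?_ (mul_pos hR (by positivity))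
  linear_combination (1) * ((X - 6) * (Y - 6 * X) * (Y - 2 * X)) * k.e1 + (-1) * ((X + 6) * (Y -
    6 * X) * (Y - 2 * X)) * k.e3 + (-1) * ((X + 6) * (X - 6) * (Y - 2 * X)) * k.e6 + (1) * ((X +
    6) * (X - 6) * (Y - 6 * X)) * k.e8 + ((72) + (-24) * Y + (180) * X + (8) * X ^ 2) * he

theorem der58 {d0 d1 d2 d3 d4 d5 d6 d7 d8 : ℝ} (h : Arc X Y)
    (k : Dv X Y d0 d1 d2 d3 d4 d5 d6 d7 d8) : w58.Dec [d0, d1, d2, d3, d4, d5, d6, d7, d8] := by
  obtain ⟨he, hX, hY, h6, h2, hp⟩ := h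
  have hs : 0 < X - 30 := by linarith
  have ht : 0 < Y - 180 := by linarith
  have p3 : 0 < X - 6 := by linarith
  have pX : 0 < X := by linarith
  have pY : 0 < Y := by linarith
  have hR : 0 < (6480) * Y + (2160) * X * Y + (2160) * X ^ 2 + (468) * X ^ 2 * Y + (-1728) * X ^
    3 + (24) * X ^ 3 * Y + (-180) * X ^ 4 + (4) * X ^ 5 := by
    have e : (6480) * Y + (2160) * X * Y + (2160) * X ^ 2 + (468) * X ^ 2 * Y + (-1728) * X ^ 3
      + (24) * X ^ 3 * Y + (-180) * X ^ 4 + (4) * X ^ 5 = 111974400 + 9331200 * (X - 30) +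
      427680 * (X - 30) ^ 2 + 16992 * (X - 30) ^ 3 + 420 * (X - 30) ^ 4 + 4 * (X - 30) ^ 5 +
      1140480 * (Y - 180) + 95040 * (X - 30) * (Y - 180) + 2628 * (X - 30) ^ 2 * (Y - 180) + 24
      * (X - 30) ^ 3 * (Y - 180) := by ring
    rw [e]
    positivity
  have e : sub w58.al w58.be = [0, 1, 0, -1, 0, 0, -1, 0, 1, 0, 1, 0] := rfl
  refine (fun h => Or.inr (Or.inr h)) ?_
  rw [e]
  simp only [lin_cons, lin_nil']
  push_cast
  refine ngl (P := (X + 6) * (X - 6) * (Y - 6 * X) * (Y - 2 * X)) (Z := ((6480) * Y + (2160) * X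
    * Y + (2160) * X ^ 2 + (468) * X ^ 2 * Y + (-1728) * X ^ 3 + (24) * X ^ 3 * Y + (-180) * X ^
    4 + (4) * X ^ 5) * (1)) (by positivity) ?_ (mul_pos hR (by positivity))
  linear_combination (1) * ((X - 6) * (Y - 6 * X) * (Y - 2 * X)) * k.e1 + (-1) * ((X + 6) * (Y -
    6 * X) * (Y - 2 * X)) * k.e3 + (-1) * ((X + 6) * (X - 6) * (Y - 2 * X)) * k.e6 + (1) * ((X +
    6) * (X - 6) * (Y - 6 * X)) * k.e8 + ((72) + (-24) * Y + (180) * X + (8) * X ^ 2) * he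

theorem der63 {d0 d1 d2 d3 d4 d5 d6 d7 d8 : ℝ} (h : Arc X Y)
    (k : Dv X Y d0 d1 d2 d3 d4 d5 d6 d7 d8) : w63.Dec [d0, d1, d2, d3, d4, d5, d6, d7, d8] := by
  obtain ⟨he, hX, hY, h6, h2, hp⟩ := h
  have hs : 0 < X - 30 := by linarith
  have ht : 0 < Y - 180 := by linarith
  have p3 : 0 < X - 6 := by linarith
  have pX : 0 < X := by linarith
  have pY : 0 < Y := by linarith
  have hR : 0 < (-10800) * Y + (360) * X * Y + (2160) * X ^ 2 + (48) * X ^ 2 * Y + (-24) * X ^ 3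
    + (8) * X ^ 4 := by
    have e : (-10800) * Y + (360) * X * Y + (2160) * X ^ 2 + (48) * X ^ 2 * Y + (-24) * X ^ 3 +
      (8) * X ^ 4 = 15552000 + 1512000 * (X - 30) + 51840 * (X - 30) ^ 2 + 936 * (X - 30) ^ 3 +
      8 * (X - 30) ^ 4 + 43200 * (Y - 180) + 3240 * (X - 30) * (Y - 180) + 48 * (X - 30) ^ 2 *
      (Y - 180) := by ring
    rw [e]
    positivity
  have e : sub w63.al w63.be = [0, 0, -1, 1, 0, 0, 0, 1, -1, 0, 0, 0] := rfl
  refine (fun h => Or.inr (Or.inr h)) ?_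
  rw [e]
  simp only [lin_cons, lin_nil']
  push_cast
  refine ngl (P := (X - 30) * (X - 6) * (Y + 6 * X) * (Y - 2 * X)) (Z := ((-10800) * Y + (360) *
    X * Y + (2160) * X ^ 2 + (48) * X ^ 2 * Y + (-24) * X ^ 3 + (8) * X ^ 4) * ((X - 6))) (by
    positivity) ?_ (mul_pos hR (by positivity))
  linear_combination (-1) * ((X - 6) * (Y + 6 * X) * (Y - 2 * X)) * k.e2 + (1) * ((X - 30) * (Y
    + 6 * X) * (Y - 2 * X)) * k.e3 + (1) * ((X - 30) * (X - 6) * (Y - 2 * X)) * k.e7 + (-1) *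
    ((X - 30) * (X - 6) * (Y + 6 * X)) * k.e8 + ((3600) + (-48) * Y + (-792) * X + (16) * X ^ 2)
    * he

theorem der74 {d0 d1 d2 d3 d4 d5 d6 d7 d8 : ℝ} (h : Arc X Y)
    (k : Dv X Y d0 d1 d2 d3 d4 d5 d6 d7 d8) : w74.Dec [d0, d1, d2, d3, d4, d5, d6, d7, d8] := by
  obtain ⟨he, hX, hY, h6, h2, hp⟩ := h
  have hs : 0 < X - 30 := by linarith
  have ht : 0 < Y - 180 := by linarith
  have p3 : 0 < X - 6 := by linarith
  have pX : 0 < X := by linarith
  have pY : 0 < Y := by linarith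
  have hR : 0 < (1) * Y + (2) * X := by
    have e : (1) * Y + (2) * X = 240 + 2 * (X - 30) + 1 * (Y - 180) := by ring
    rw [e]
    positivity
  have e : sub w74.al w74.c = [-1, 0, 0, 0, -1, 0, 0, 0, 1, 0, 0, 0] := rfl
  refine (Or.inl) ?_
  rw [e]
  simp only [lin_cons, lin_nil']
  push_cast
  refine ngl (P := X * (X + 10) * (Y - 2 * X)) (Z := ((1) * Y + (2) * X) * ((X + 10) * (Y - 6 *
    X))) (by positivity) ?_ (mul_pos hR (by positivity))
  linear_combination (-1) * ((X + 10) * (Y - 2 * X)) * k.e0 + (-1) * (X * (Y - 2 * X)) * k.e4 +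
    (1) * (X * (X + 10)) * k.e8 + ((-10) + (-3) * X) * he

theorem der78 {d0 d1 d2 d3 d4 d5 d6 d7 d8 : ℝ} (h : Arc X Y)
    (k : Dv X Y d0 d1 d2 d3 d4 d5 d6 d7 d8) : w78.Dec [d0, d1, d2, d3, d4, d5, d6, d7, d8] := by
  obtain ⟨he, hX, hY, h6, h2, hp⟩ := h
  have hs : 0 < X - 30 := by linarith
  have ht : 0 < Y - 180 := by linarith
  have p3 : 0 < X - 6 := by linarith
  have pX : 0 < X := by linarith
  have pY : 0 < Y := by linarith
  have hR : 0 < (450) * Y + (-15) * X * Y + (-90) * X ^ 2 + (10) * X ^ 2 * Y + (-15) * X ^ 3 +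
    (1) * X ^ 4 := by
    have e : (450) * Y + (-15) * X * Y + (-90) * X ^ 2 + (10) * X ^ 2 * Y + (-15) * X ^ 3 + (1)
      * X ^ 4 = 1944000 + 167400 * (X - 30) + 5760 * (X - 30) ^ 2 + 105 * (X - 30) ^ 3 + 1 * (X
      - 30) ^ 4 + 9000 * (Y - 180) + 585 * (X - 30) * (Y - 180) + 10 * (X - 30) ^ 2 * (Y - 180)
      := by ring
    rw [e]
    positivity
  have e : sub w78.al w78.c = [0, 0, 0, -1, -1, -1, 0, 1, 1, 0, 0, 0] := rfl
  refine (Or.inl) ?_
  rw [e]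
  simp only [lin_cons, lin_nil']
  push_cast
  refine ngl (P := (X - 6) * (X + 10) * Y * (Y + 6 * X) * (Y - 2 * X)) (Z := ((450) * Y + (-15)
    * X * Y + (-90) * X ^ 2 + (10) * X ^ 2 * Y + (-15) * X ^ 3 + (1) * X ^ 4) * ((X - 6) ^ 2 *
    (X + 10))) (by positivity) ?_ (mul_pos hR (by positivity))
  linear_combination (-1) * ((X + 10) * Y * (Y + 6 * X) * (Y - 2 * X)) * k.e3 + (-1) * ((X - 6)
    * Y * (Y + 6 * X) * (Y - 2 * X)) * k.e4 + (-1) * ((X - 6) * (X + 10) * (Y + 6 * X) * (Y - 2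
    * X)) * k.e5 + (1) * ((X - 6) * (X + 10) * Y * (Y - 2 * X)) * k.e7 + (1) * ((X - 6) * (X +
    10) * Y * (Y + 6 * X)) * k.e8 + ((5400) + (-420) * Y + (180) * X + (-8) * Y ^ 2 + (60) * X *
    Y + (-66) * X ^ 2 + (-4) * X * Y ^ 2 + (-9) * X ^ 2 * Y + (-13) * X ^ 3 + (-1) * X ^ 4) * he

theorem der82 {d0 d1 d2 d3 d4 d5 d6 d7 d8 : ℝ} (h : Arc X Y)
    (k : Dv X Y d0 d1 d2 d3 d4 d5 d6 d7 d8) : w82.Dec [d0, d1, d2, d3, d4, d5, d6, d7, d8] := by
  obtain ⟨he, hX, hY, h6, h2, hp⟩ := h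
  have hs : 0 < X - 30 := by linarith
  have ht : 0 < Y - 180 := by linarith
  have p3 : 0 < X - 6 := by linarith
  have pX : 0 < X := by linarith
  have pY : 0 < Y := by linarith
  have hR : 0 < (600) + (5) * Y + (10) * X := by
    have e : (600) + (5) * Y + (10) * X = 1800 + 10 * (X - 30) + 5 * (Y - 180) := by ring
    rw [e]
    positivity
  have e : sub w82.c w82.be = [0, 0, -1, -1, -1, 0, 0, 1, 1, 1, 0, 0] := rfl
  refine (fun h => Or.inr (Or.inl h)) ?_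
  rw [e]
  simp only [lin_cons, lin_nil']
  push_cast
  refine ngl (P := (X - 30) * (X - 6) * (X + 10) * (Y + 6 * X) * (Y - 2 * X)) (Z := ((600) + (5)
    * Y + (10) * X) * ((X - 6) ^ 2 * (X + 10) * (Y + 6 * X))) (by positivity) ?_ (mul_pos hR (by
    positivity))
  linear_combination (-1) * ((X - 6) * (X + 10) * (Y + 6 * X) * (Y - 2 * X)) * k.e2 + (-1) * ((X
    - 30) * (X + 10) * (Y + 6 * X) * (Y - 2 * X)) * k.e3 + (-1) * ((X - 30) * (X - 6) * (Y + 6 *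
    X) * (Y - 2 * X)) * k.e4 + (1) * ((X - 30) * (X - 6) * (X + 10) * (Y - 2 * X)) * k.e7 + (1)
    * ((X - 30) * (X - 6) * (X + 10) * (Y + 6 * X)) * k.e8 + ((14400) + (360) * Y + (-2160) * X
    + (104) * X * Y + (288) * X ^ 2 + (-6) * X ^ 2 * Y + (-12) * X ^ 3) * he

theorem der91 {d0 d1 d2 d3 d4 d5 d6 d7 d8 : ℝ} (h : Arc X Y)
    (k : Dv X Y d0 d1 d2 d3 d4 d5 d6 d7 d8) : w91.Dec [d0, d1, d2, d3, d4, d5, d6, d7, d8] := by
  obtain ⟨he, hX, hY, h6, h2, hp⟩ := h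
  have hs : 0 < X - 30 := by linarith
  have ht : 0 < Y - 180 := by linarith
  have p3 : 0 < X - 6 := by linarith
  have pX : 0 < X := by linarith
  have pY : 0 < Y := by linarith
  have hR : 0 < (1200) + (80) * Y + (-40) * X := by
    refine pos_nb (R' := (1200 + (-40) * X) + (80) * (X - 30 - Y)) ?_ ?_
    · have e : ((1200) + (80) * Y + (-40) * X) * ((1200 + (-40) * X) + (80) * (X - 30 - Y)) =
        -(207360000 + 19584000 * (X - 30) + 616000 * (X - 30) ^ 2 + 6400 * (X - 30) ^ 3) := by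
        linear_combination ((-6400)) * he
      rw [e]
      refine neg_neg_of_pos ?_
      positivity
    · have e : ((1200) + (80) * Y + (-40) * X) - ((1200 + (-40) * X) + (80) * (X - 30 - Y)) =
        (80) * (2 * Y - X + 30) := by ring
      rw [e]
      positivity
  have e : sub w91.al w91.be = [0, 0, -1, 0, 1, 0, 0, 0, 0, -1, 1, 0] := rfl
  refine (fun h => Or.inr (Or.inr h)) ?_
  rw [e]
  simp only [lin_cons, lin_nil']
  push_cast
  refine ngl (P := (X - 30) * (X + 10)) (Z := ((1200) + (80) * Y + (-40) * X) * (1)) (by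
    positivity) ?_ (mul_pos hR (by positivity))
  linear_combination (-1) * ((X + 10)) * k.e2 + (1) * ((X - 30)) * k.e4 + (0) * he

theorem der92 {d0 d1 d2 d3 d4 d5 d6 d7 d8 : ℝ} (h : Arc X Y)
    (k : Dv X Y d0 d1 d2 d3 d4 d5 d6 d7 d8) : w92.Dec [d0, d1, d2, d3, d4, d5, d6, d7, d8] := by
  obtain ⟨he, hX, hY, h6, h2, hp⟩ := h
  have hs : 0 < X - 30 := by linarith
  have ht : 0 < Y - 180 := by linarith
  have p3 : 0 < X - 6 := by linarith
  have pX : 0 < X := by linarith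
  have pY : 0 < Y := by linarith
  have hR : 0 < (480) + (32) * Y + (-16) * X := by
    refine pos_nb (R' := (480 + (-16) * X) + (32) * (X - 30 - Y)) ?_ ?_
    · have e : ((480) + (32) * Y + (-16) * X) * ((480 + (-16) * X) + (32) * (X - 30 - Y)) =
        -(33177600 + 3133440 * (X - 30) + 98560 * (X - 30) ^ 2 + 1024 * (X - 30) ^ 3) := by
        linear_combination ((-1024)) * he
      rw [e]
      refine neg_neg_of_pos ?_
      positivity
    · have e : ((480) + (32) * Y + (-16) * X) - ((480 + (-16) * X) + (32) * (X - 30 - Y)) = (32)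
        * (2 * Y - X + 30) := by ring
      rw [e]
      positivity
  have e : sub w92.al w92.be = [0, 0, 0, -1, 1, 0, 0, 0, 0, 0, 1, 0] := rfl
  refine (fun h => Or.inr (Or.inr h)) ?_
  rw [e]
  simp only [lin_cons, lin_nil']
  push_cast
  refine ngl (P := (X - 6) * (X + 10)) (Z := ((480) + (32) * Y + (-16) * X) * (1)) (by
    positivity) ?_ (mul_pos hR (by positivity))
  linear_combination (-1) * ((X + 10)) * k.e3 + (1) * ((X - 6)) * k.e4 + (0) * he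

theorem der101 {d0 d1 d2 d3 d4 d5 d6 d7 d8 : ℝ} (h : Arc X Y)
    (k : Dv X Y d0 d1 d2 d3 d4 d5 d6 d7 d8) : w101.Dec [d0, d1, d2, d3, d4, d5, d6, d7, d8] := by
  obtain ⟨he, hX, hY, h6, h2, hp⟩ := h
  have hs : 0 < X - 30 := by linarith
  have ht : 0 < Y - 180 := by linarith
  have p3 : 0 < X - 6 := by linarith
  have pX : 0 < X := by linarith
  have pY : 0 < Y := by linarith
  have hR : 0 < (180) * Y + (-60) * X * Y + (180) * X ^ 2 + (13) * X ^ 2 * Y + (12) * X ^ 3 +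
    (1) * X ^ 4 := by
    have e : (180) * Y + (-60) * X * Y + (180) * X ^ 2 + (13) * X ^ 2 * Y + (12) * X ^ 3 + (1) *
      X ^ 4 = 3110400 + 280800 * (X - 30) + 9000 * (X - 30) ^ 2 + 132 * (X - 30) ^ 3 + 1 * (X -
      30) ^ 4 + 10080 * (Y - 180) + 720 * (X - 30) * (Y - 180) + 13 * (X - 30) ^ 2 * (Y - 180)
      := by ring
    rw [e]
    positivity
  have e : sub w101.al w101.be = [-1, 0, 0, -1, 0, 0, 0, 1, 0, 0, 0, 0] := rfl
  refine (fun h => Or.inr (Or.inr h)) ?_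
  rw [e]
  simp only [lin_cons, lin_nil']
  push_cast
  refine ngl (P := X * (X - 6) * (Y + 6 * X)) (Z := ((180) * Y + (-60) * X * Y + (180) * X ^ 2 +
    (13) * X ^ 2 * Y + (12) * X ^ 3 + (1) * X ^ 4) * (1)) (by positivity) ?_ (mul_pos hR (by
    positivity))
  linear_combination (-1) * ((X - 6) * (Y + 6 * X)) * k.e0 + (-1) * (X * (Y + 6 * X)) * k.e3 +
    (1) * (X * (X - 6)) * k.e7 + ((12) + (-4) * X) * he

theorem der102 {d0 d1 d2 d3 d4 d5 d6 d7 d8 : ℝ} (h : Arc X Y)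
    (k : Dv X Y d0 d1 d2 d3 d4 d5 d6 d7 d8) : w102.Dec [d0, d1, d2, d3, d4, d5, d6, d7, d8] := by
  obtain ⟨he, hX, hY, h6, h2, hp⟩ := h
  have hs : 0 < X - 30 := by linarith
  have ht : 0 < Y - 180 := by linarith
  have p3 : 0 < X - 6 := by linarith
  have pX : 0 < X := by linarith
  have pY : 0 < Y := by linarith
  have hR : 0 < (5400) * Y + (-2520) * X * Y + (-1080) * X ^ 2 + (294) * X ^ 2 * Y + (288) * X ^
    3 + (12) * X ^ 3 * Y + (42) * X ^ 4 + (6) * X ^ 5 := by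
    have e : (5400) * Y + (-2520) * X * Y + (-1080) * X ^ 2 + (294) * X ^ 2 * Y + (288) * X ^ 3
      + (12) * X ^ 3 * Y + (42) * X ^ 4 + (6) * X ^ 5 = 279936000 + 38102400 * (X - 30) +
      2118960 * (X - 30) ^ 2 + 61488 * (X - 30) ^ 3 + 942 * (X - 30) ^ 4 + 6 * (X - 30) ^ 5 +
      518400 * (Y - 180) + 47520 * (X - 30) * (Y - 180) + 1374 * (X - 30) ^ 2 * (Y - 180) + 12 *
      (X - 30) ^ 3 * (Y - 180) := by ring
    rw [e]
    positivity
  have e : sub w102.al w102.be = [1, 0, 0, -1, 0, -1, 0, 1, 0, 0, 0, -1] := rfl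
  refine (fun h => Or.inr (Or.inr h)) ?_
  rw [e]
  simp only [lin_cons, lin_nil']
  push_cast
  refine ngl (P := X * (X - 6) * Y * (Y + 6 * X)) (Z := ((5400) * Y + (-2520) * X * Y + (-1080)
    * X ^ 2 + (294) * X ^ 2 * Y + (288) * X ^ 3 + (12) * X ^ 3 * Y + (42) * X ^ 4 + (6) * X ^ 5)
    * (1)) (by positivity) ?_ (mul_pos hR (by positivity))
  linear_combination (1) * ((X - 6) * Y * (Y + 6 * X)) * k.e0 + (-1) * (X * Y * (Y + 6 * X)) *
    k.e3 + (-1) * (X * (X - 6) * (Y + 6 * X)) * k.e5 + (1) * (X * (X - 6) * Y) * k.e7 + ((180) +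
    (-12) * Y + (-150) * X + (12) * X ^ 2) * he

theorem der114 {d0 d1 d2 d3 d4 d5 d6 d7 d8 : ℝ} (h : Arc X Y)
    (k : Dv X Y d0 d1 d2 d3 d4 d5 d6 d7 d8) : w114.Dec [d0, d1, d2, d3, d4, d5, d6, d7, d8] := by
  obtain ⟨he, hX, hY, h6, h2, hp⟩ := h
  have hs : 0 < X - 30 := by linarith
  have ht : 0 < Y - 180 := by linarith
  have p3 : 0 < X - 6 := by linarith
  have pX : 0 < X := by linarith
  have pY : 0 < Y := by linarith
  have hR : 0 < (360) * Y + (12) * X ^ 3 := by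
    have e : (360) * Y + (12) * X ^ 3 = 388800 + 32400 * (X - 30) + 1080 * (X - 30) ^ 2 + 12 *
      (X - 30) ^ 3 + 360 * (Y - 180) := by ring
    rw [e]
    positivity
  have e : sub w114.al w114.be = [0, 0, 0, 0, 0, 0, -1, 1, 0, -1, 0, 0] := rfl
  refine (fun h => Or.inr (Or.inr h)) ?_
  rw [e]
  simp only [lin_cons, lin_nil']
  push_cast
  refine ngl (P := (Y - 6 * X) * (Y + 6 * X)) (Z := ((360) * Y + (12) * X ^ 3) * (1)) (by
    positivity) ?_ (mul_pos hR (by positivity))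
  linear_combination (-1) * ((Y + 6 * X)) * k.e6 + (1) * ((Y - 6 * X)) * k.e7 + ((24)) * he

theorem der115 {d0 d1 d2 d3 d4 d5 d6 d7 d8 : ℝ} (h : Arc X Y)
    (k : Dv X Y d0 d1 d2 d3 d4 d5 d6 d7 d8) : w115.Dec [d0, d1, d2, d3, d4, d5, d6, d7, d8] := by
  obtain ⟨he, hX, hY, h6, h2, hp⟩ := h
  have hs : 0 < X - 30 := by linarith
  have ht : 0 < Y - 180 := by linarith
  have p3 : 0 < X - 6 := by linarith
  have pX : 0 < X := by linarith
  have pY : 0 < Y := by linarith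
  have hR : 0 < (240) * Y + (8) * X ^ 3 := by
    have e : (240) * Y + (8) * X ^ 3 = 259200 + 21600 * (X - 30) + 720 * (X - 30) ^ 2 + 8 * (X -
      30) ^ 3 + 240 * (Y - 180) := by ring
    rw [e]
    positivity
  have e : sub w115.al w115.be = [0, 0, 0, 0, 0, 0, 0, 1, -1, 0, -1, 0] := rfl
  refine (fun h => Or.inr (Or.inr h)) ?_
  rw [e]
  simp only [lin_cons, lin_nil']
  push_cast
  refine ngl (P := (Y + 6 * X) * (Y - 2 * X)) (Z := ((240) * Y + (8) * X ^ 3) * (1)) (by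
    positivity) ?_ (mul_pos hR (by positivity))
  linear_combination (1) * ((Y - 2 * X)) * k.e7 + (-1) * ((Y + 6 * X)) * k.e8 + ((16)) * he

theorem der119 {d0 d1 d2 d3 d4 d5 d6 d7 d8 : ℝ} (h : Arc X Y)
    (k : Dv X Y d0 d1 d2 d3 d4 d5 d6 d7 d8) : w119.Dec [d0, d1, d2, d3, d4, d5, d6, d7, d8] := by
  obtain ⟨he, hX, hY, h6, h2, hp⟩ := h
  have hs : 0 < X - 30 := by linarith
  have ht : 0 < Y - 180 := by linarith
  have p3 : 0 < X - 6 := by linarith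
  have pX : 0 < X := by linarith
  have pY : 0 < Y := by linarith
  have hR : 0 < (30) * Y + (1) * X ^ 3 := by
    have e : (30) * Y + (1) * X ^ 3 = 32400 + 2700 * (X - 30) + 90 * (X - 30) ^ 2 + 1 * (X - 30)
      ^ 3 + 30 * (Y - 180) := by ring
    rw [e]
    positivity
  have e : sub w119.al w119.be = [1, 0, 0, 0, 0, 0, 0, 0, -1, 1, 0, 0] := rfl
  refine (fun h => Or.inr (Or.inr h)) ?_
  rw [e]
  simp only [lin_cons, lin_nil']
  push_cast
  refine ngl (P := X * (Y - 2 * X)) (Z := ((30) * Y + (1) * X ^ 3) * (1)) (by positivity) ?_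
    (mul_pos hR (by positivity))
  linear_combination (1) * ((Y - 2 * X)) * k.e0 + (-1) * (X) * k.e8 + ((2)) * he

theorem der124 {d0 d1 d2 d3 d4 d5 d6 d7 d8 : ℝ} (h : Arc X Y)
    (k : Dv X Y d0 d1 d2 d3 d4 d5 d6 d7 d8) : w124.Dec [d0, d1, d2, d3, d4, d5, d6, d7, d8] := by
  obtain ⟨he, hX, hY, h6, h2, hp⟩ := h
  have hs : 0 < X - 30 := by linarith
  have ht : 0 < Y - 180 := by linarith
  have p3 : 0 < X - 6 := by linarith
  have pX : 0 < X := by linarith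
  have pY : 0 < Y := by linarith
  have hR : 0 < (20) * Y + (1) * X * Y + (2) * X ^ 2 := by
    have e : (20) * Y + (1) * X * Y + (2) * X ^ 2 = 10800 + 300 * (X - 30) + 2 * (X - 30) ^ 2 +
      50 * (Y - 180) + 1 * (X - 30) * (Y - 180) := by ring
    rw [e]
    positivity
  have e : sub w124.al w124.be = [0, 0, 0, 0, 1, 1, 0, 0, -2, 2, 0, 0] := rfl
  refine (fun h => Or.inr (Or.inr h)) ?_
  rw [e]
  simp only [lin_cons, lin_nil']
  push_cast
  refine ngl (P := (X + 10) * Y * (Y - 2 * X)) (Z := ((20) * Y + (1) * X * Y + (2) * X ^ 2) * (X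
    * (X + 10))) (by positivity) ?_ (mul_pos hR (by positivity))
  linear_combination (1) * (Y * (Y - 2 * X)) * k.e4 + (1) * ((X + 10) * (Y - 2 * X)) * k.e5 +
    (-2) * ((X + 10) * Y) * k.e8 + ((40) + (2) * Y + (4) * X) * he

theorem der125 {d0 d1 d2 d3 d4 d5 d6 d7 d8 : ℝ} (h : Arc X Y)
    (k : Dv X Y d0 d1 d2 d3 d4 d5 d6 d7 d8) : w125.Dec [d0, d1, d2, d3, d4, d5, d6, d7, d8] := by
  obtain ⟨he, hX, hY, h6, h2, hp⟩ := h
  have hs : 0 < X - 30 := by linarith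
  have ht : 0 < Y - 180 := by linarith
  have p3 : 0 < X - 6 := by linarith
  have pX : 0 < X := by linarith
  have pY : 0 < Y := by linarith
  have hR : 0 < (20) * Y + (1) * X * Y + (2) * X ^ 2 := by
    have e : (20) * Y + (1) * X * Y + (2) * X ^ 2 = 10800 + 300 * (X - 30) + 2 * (X - 30) ^ 2 +
      50 * (Y - 180) + 1 * (X - 30) * (Y - 180) := by ring
    rw [e]
    positivity
  have e : sub w125.al w125.c = [0, 0, 0, 0, 1, 1, 0, 0, -2, 1, 0, 0] := rfl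
  refine (Or.inl) ?_
  rw [e]
  simp only [lin_cons, lin_nil']
  push_cast
  refine ngl (P := (X + 10) * Y * (Y - 2 * X)) (Z := ((20) * Y + (1) * X * Y + (2) * X ^ 2) * (X
    * (X + 10))) (by positivity) ?_ (mul_pos hR (by positivity))
  linear_combination (1) * (Y * (Y - 2 * X)) * k.e4 + (1) * ((X + 10) * (Y - 2 * X)) * k.e5 +
    (-2) * ((X + 10) * Y) * k.e8 + ((40) + (2) * Y + (4) * X) * he

theorem der133 {d0 d1 d2 d3 d4 d5 d6 d7 d8 : ℝ} (h : Arc X Y)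
    (k : Dv X Y d0 d1 d2 d3 d4 d5 d6 d7 d8) : w133.Dec [d0, d1, d2, d3, d4, d5, d6, d7, d8] := by
  obtain ⟨he, hX, hY, h6, h2, hp⟩ := h
  have hs : 0 < X - 30 := by linarith
  have ht : 0 < Y - 180 := by linarith
  have p3 : 0 < X - 6 := by linarith
  have pX : 0 < X := by linarith
  have pY : 0 < Y := by linarith
  have hR : 0 < (30) * Y + (1) * X ^ 3 := by
    have e : (30) * Y + (1) * X ^ 3 = 32400 + 2700 * (X - 30) + 90 * (X - 30) ^ 2 + 1 * (X - 30)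
      ^ 3 + 30 * (Y - 180) := by ring
    rw [e]
    positivity
  have e : sub w133.al w133.be = [1, 0, 0, 0, 0, -1, 0, 0, 0, 1, 1, 0] := rfl
  refine (fun h => Or.inr (Or.inr h)) ?_
  rw [e]
  simp only [lin_cons, lin_nil']
  push_cast
  refine ngl (P := X * Y) (Z := ((30) * Y + (1) * X ^ 3) * (1)) (by positivity) ?_ (mul_pos hR
    (by positivity))
  linear_combination (1) * (Y) * k.e0 + (-1) * (X) * k.e5 + ((2)) * he

theorem der152 {d0 d1 d2 d3 d4 d5 d6 d7 d8 : ℝ} (h : Arc X Y)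
    (k : Dv X Y d0 d1 d2 d3 d4 d5 d6 d7 d8) : w152.Dec [d0, d1, d2, d3, d4, d5, d6, d7, d8] := by
  obtain ⟨he, hX, hY, h6, h2, hp⟩ := h
  have hs : 0 < X - 30 := by linarith
  have ht : 0 < Y - 180 := by linarith
  have p3 : 0 < X - 6 := by linarith
  have pX : 0 < X := by linarith
  have pY : 0 < Y := by linarith
  have hR : 0 < (1800) * Y + (-600) * X * Y + (-360) * X ^ 2 + (24) * X ^ 2 * Y + (48) * X ^ 3
    := by
    have e : (1800) * Y + (-600) * X * Y + (-360) * X ^ 2 + (24) * X ^ 2 * Y + (48) * X ^ 3 =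
      1944000 + 259200 * (X - 30) + 8280 * (X - 30) ^ 2 + 48 * (X - 30) ^ 3 + 5400 * (Y - 180) +
      840 * (X - 30) * (Y - 180) + 24 * (X - 30) ^ 2 * (Y - 180) := by ring
    rw [e]
    positivity
  have e : sub w152.c w152.be = [-2, 1, 1, 0, 0, 2, -1, -1, 0, 0, 0, 0] := rfl
  refine (fun h => Or.inr (Or.inl h)) ?_
  rw [e]
  simp only [lin_cons, lin_nil']
  push_cast
  refine ngl (P := X * (X + 6) * (X - 30) * Y * (Y - 6 * X) * (Y + 6 * X)) (Z := ((1800) * Y +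
    (-600) * X * Y + (-360) * X ^ 2 + (24) * X ^ 2 * Y + (48) * X ^ 3) * ((X + 6) * (X - 30) *
    (Y - 6 * X))) (by positivity) ?_ (mul_pos hR (by positivity))
  linear_combination (-2) * ((X + 6) * (X - 30) * Y * (Y - 6 * X) * (Y + 6 * X)) * k.e0 + (1) *
    (X * (X - 30) * Y * (Y - 6 * X) * (Y + 6 * X)) * k.e1 + (1) * (X * (X + 6) * Y * (Y - 6 * X)
    * (Y + 6 * X)) * k.e2 + (2) * (X * (X + 6) * (X - 30) * (Y - 6 * X) * (Y + 6 * X)) * k.e5 +
    (-1) * (X * (X + 6) * (X - 30) * Y * (Y + 6 * X)) * k.e6 + (-1) * (X * (X + 6) * (X - 30) *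
    Y * (Y - 6 * X)) * k.e7 + ((-10800) * Y + (64800) * X + (720) * Y ^ 2 + (-360) * X * Y +
    (-36720) * X ^ 2 + (48) * X * Y ^ 2 + (24) * X ^ 2 * Y + (-5328) * X ^ 3 + (216) * X ^ 4) *
    he

theorem der167 {d0 d1 d2 d3 d4 d5 d6 d7 d8 : ℝ} (h : Arc X Y)
    (k : Dv X Y d0 d1 d2 d3 d4 d5 d6 d7 d8) : w167.Dec [d0, d1, d2, d3, d4, d5, d6, d7, d8] := by
  obtain ⟨he, hX, hY, h6, h2, hp⟩ := h
  have hs : 0 < X - 30 := by linarith
  have ht : 0 < Y - 180 := by linarith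
  have p3 : 0 < X - 6 := by linarith
  have pX : 0 < X := by linarith
  have pY : 0 < Y := by linarith
  have hR : 0 < (-10800) * Y + (-600) * X * Y + (-2160) * X ^ 2 + (80) * X ^ 2 * Y + (-120) * X
    ^ 3 + (16) * X ^ 4 := by
    have e : (-10800) * Y + (-600) * X * Y + (-2160) * X ^ 2 + (80) * X ^ 2 * Y + (-120) * X ^ 3
      + (16) * X ^ 4 = 15552000 + 2030400 * (X - 30) + 87840 * (X - 30) ^ 2 + 1800 * (X - 30) ^
      3 + 16 * (X - 30) ^ 4 + 43200 * (Y - 180) + 4200 * (X - 30) * (Y - 180) + 80 * (X - 30) ^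
      2 * (Y - 180) := by ring
    rw [e]
    positivity
  have e : sub w167.al w167.be = [0, 0, -1, 0, 1, 0, 0, 2, -2, 0, 0, 0] := rfl
  refine (fun h => Or.inr (Or.inr h)) ?_
  rw [e]
  simp only [lin_cons, lin_nil']
  push_cast
  refine ngl (P := (X - 30) * (X + 10) * (Y + 6 * X) * (Y - 2 * X)) (Z := ((-10800) * Y + (-600)
    * X * Y + (-2160) * X ^ 2 + (80) * X ^ 2 * Y + (-120) * X ^ 3 + (16) * X ^ 4) * ((X + 10)))
    (by positivity) ?_ (mul_pos hR (by positivity))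
  linear_combination (-1) * ((X + 10) * (Y + 6 * X) * (Y - 2 * X)) * k.e2 + (1) * ((X - 30) * (Y
    + 6 * X) * (Y - 2 * X)) * k.e4 + (2) * ((X - 30) * (X + 10) * (Y - 2 * X)) * k.e7 + (-2) *
    ((X - 30) * (X + 10) * (Y + 6 * X)) * k.e8 + ((-8400) + (-80) * Y + (-1000) * X + (32) * X ^
    2) * he

theorem der177 {d0 d1 d2 d3 d4 d5 d6 d7 d8 : ℝ} (h : Arc X Y)
    (k : Dv X Y d0 d1 d2 d3 d4 d5 d6 d7 d8) : w177.Dec [d0, d1, d2, d3, d4, d5, d6, d7, d8] := by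
  obtain ⟨he, hX, hY, h6, h2, hp⟩ := h
  have hs : 0 < X - 30 := by linarith
  have ht : 0 < Y - 180 := by linarith
  have p3 : 0 < X - 6 := by linarith
  have pX : 0 < X := by linarith
  have pY : 0 < Y := by linarith
  have hR : 0 < (1) * Y + (12) * X + (3) * X ^ 2 := by
    have e : (1) * Y + (12) * X + (3) * X ^ 2 = 3240 + 192 * (X - 30) + 3 * (X - 30) ^ 2 + 1 *
      (Y - 180) := by ring
    rw [e]
    positivity
  have e : sub w177.al w177.be = [0, 0, 0, 0, 0, -1, 0, 0, 0, 2, 2, 0] := rfl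
  refine (fun h => Or.inr (Or.inr h)) ?_
  rw [e]
  simp only [lin_cons, lin_nil']
  push_cast
  refine ngl (P := Y) (Z := ((1) * Y + (12) * X + (3) * X ^ 2) * (1)) (by positivity) ?_
    (mul_pos hR (by positivity))
  linear_combination (-1) * (1) * k.e5 + (0) * he

theorem der183 {d0 d1 d2 d3 d4 d5 d6 d7 d8 : ℝ} (h : Arc X Y)
    (k : Dv X Y d0 d1 d2 d3 d4 d5 d6 d7 d8) : w183.Dec [d0, d1, d2, d3, d4, d5, d6, d7, d8] := by
  obtain ⟨he, hX, hY, h6, h2, hp⟩ := h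
  have hs : 0 < X - 30 := by linarith
  have ht : 0 < Y - 180 := by linarith
  have p3 : 0 < X - 6 := by linarith
  have pX : 0 < X := by linarith
  have pY : 0 < Y := by linarith
  have hR : 0 < (360) + (-12) * Y + (96) * X + (2) * X * Y + (6) * X ^ 2 := by
    have e : (360) + (-12) * Y + (96) * X + (2) * X * Y + (6) * X ^ 2 = 17280 + 816 * (X - 30) +
      6 * (X - 30) ^ 2 + 48 * (Y - 180) + 2 * (X - 30) * (Y - 180) := by ring
    rw [e]
    positivity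
  have e : sub w183.al w183.c = [0, -2, 0, 2, 2, 2, 0, 0, -4, 0, 2, 0] := rfl
  refine (Or.inl) ?_
  rw [e]
  simp only [lin_cons, lin_nil']
  push_cast
  refine ngl (P := (X + 6) * (X - 6) * (X + 10) * Y * (Y - 2 * X)) (Z := ((360) + (-12) * Y +
    (96) * X + (2) * X * Y + (6) * X ^ 2) * ((X + 10) * Y * (Y - 2 * X))) (by positivity) ?_
    (mul_pos hR (by positivity))
  linear_combination (-2) * ((X - 6) * (X + 10) * Y * (Y - 2 * X)) * k.e1 + (2) * ((X + 6) * (X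
    + 10) * Y * (Y - 2 * X)) * k.e3 + (2) * ((X + 6) * (X - 6) * Y * (Y - 2 * X)) * k.e4 + (2) *
    ((X + 6) * (X - 6) * (X + 10) * (Y - 2 * X)) * k.e5 + (-4) * ((X + 6) * (X - 6) * (X + 10) *
    Y) * k.e8 + ((-2880) + (216) * Y + (-528) * X + (56) * X * Y + (96) * X ^ 2 + (6) * X ^ 2 *
    Y + (12) * X ^ 3) * he

theorem der185 {d0 d1 d2 d3 d4 d5 d6 d7 d8 : ℝ} (h : Arc X Y)
    (k : Dv X Y d0 d1 d2 d3 d4 d5 d6 d7 d8) : w185.Dec [d0, d1, d2, d3, d4, d5, d6, d7, d8] := by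
  obtain ⟨he, hX, hY, h6, h2, hp⟩ := h
  have hs : 0 < X - 30 := by linarith
  have ht : 0 < Y - 180 := by linarith
  have p3 : 0 < X - 6 := by linarith
  have pX : 0 < X := by linarith
  have pY : 0 < Y := by linarith
  have hR : 0 < (54000) * Y + (-25200) * X * Y + (-10800) * X ^ 2 + (1500) * X ^ 2 * Y + (2880)
    * X ^ 3 + (120) * X ^ 3 * Y + (420) * X ^ 4 + (12) * X ^ 5 := by
    have e : (54000) * Y + (-25200) * X * Y + (-10800) * X ^ 2 + (1500) * X ^ 2 * Y + (2880) * X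
      ^ 3 + (120) * X ^ 3 * Y + (420) * X ^ 4 + (12) * X ^ 5 = 1399680000 + 171072000 * (X - 30)
      + 7970400 * (X - 30) ^ 2 + 182880 * (X - 30) ^ 3 + 2220 * (X - 30) ^ 4 + 12 * (X - 30) ^ 5
      + 3888000 * (Y - 180) + 388800 * (X - 30) * (Y - 180) + 12300 * (X - 30) ^ 2 * (Y - 180) +
      120 * (X - 30) ^ 3 * (Y - 180) := by ring
    rw [e]
    positivity
  have e : sub w185.c w185.be = [2, 0, -2, 0, 0, -2, 0, 2, 0, 0, 0, 0] := rfl
  refine (fun h => Or.inr (Or.inl h)) ?_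
  rw [e]
  simp only [lin_cons, lin_nil']
  push_cast
  refine ngl (P := X * (X - 30) * Y * (Y + 6 * X)) (Z := ((54000) * Y + (-25200) * X * Y +
    (-10800) * X ^ 2 + (1500) * X ^ 2 * Y + (2880) * X ^ 3 + (120) * X ^ 3 * Y + (420) * X ^ 4 +
    (12) * X ^ 5) * (1)) (by positivity) ?_ (mul_pos hR (by positivity))
  linear_combination (2) * ((X - 30) * Y * (Y + 6 * X)) * k.e0 + (-2) * (X * Y * (Y + 6 * X)) *
    k.e2 + (-2) * (X * (X - 30) * (Y + 6 * X)) * k.e5 + (2) * (X * (X - 30) * Y) * k.e7 +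
    ((1800) + (-120) * Y + (-1500) * X + (24) * X ^ 2) * he

theorem der189 {d0 d1 d2 d3 d4 d5 d6 d7 d8 : ℝ} (h : Arc X Y)
    (k : Dv X Y d0 d1 d2 d3 d4 d5 d6 d7 d8) : w189.Dec [d0, d1, d2, d3, d4, d5, d6, d7, d8] := by
  obtain ⟨he, hX, hY, h6, h2, hp⟩ := h
  have hs : 0 < X - 30 := by linarith
  have ht : 0 < Y - 180 := by linarith
  have p3 : 0 < X - 6 := by linarith
  have pX : 0 < X := by linarith
  have pY : 0 < Y := by linarith
  have hR : 0 < (-2160) + (-120) * Y + (360) * X + (40) * X * Y + (156) * X ^ 2 + (2) * X ^ 2 *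
    Y + (6) * X ^ 3 := by
    have e : (-2160) + (-120) * Y + (360) * X + (40) * X * Y + (156) * X ^ 2 + (2) * X ^ 2 * Y +
      (6) * X ^ 3 = 829440 + 54720 * (X - 30) + 1056 * (X - 30) ^ 2 + 6 * (X - 30) ^ 3 + 2880 *
      (Y - 180) + 160 * (X - 30) * (Y - 180) + 2 * (X - 30) ^ 2 * (Y - 180) := by ring
    rw [e]
    positivity
  have e : sub w189.al w189.be = [0, -1, 0, 1, 2, 1, 0, -1, -2, 0, 2, 0] := rfl
  refine (fun h => Or.inr (Or.inr h)) ?_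
  rw [e]
  simp only [lin_cons, lin_nil']
  push_cast
  refine ngl (P := (X + 6) * (X - 6) * (X + 10) * Y * (Y + 6 * X) * (Y - 2 * X)) (Z := ((-2160)
    + (-120) * Y + (360) * X + (40) * X * Y + (156) * X ^ 2 + (2) * X ^ 2 * Y + (6) * X ^ 3) *
    (X * (X - 6) * (X + 10) * Y)) (by positivity) ?_ (mul_pos hR (by positivity))
  linear_combination (-1) * ((X - 6) * (X + 10) * Y * (Y + 6 * X) * (Y - 2 * X)) * k.e1 + (1) *
    ((X + 6) * (X + 10) * Y * (Y + 6 * X) * (Y - 2 * X)) * k.e3 + (2) * ((X + 6) * (X - 6) * Y *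
    (Y + 6 * X) * (Y - 2 * X)) * k.e4 + (1) * ((X + 6) * (X - 6) * (X + 10) * (Y + 6 * X) * (Y -
    2 * X)) * k.e5 + (-1) * ((X + 6) * (X - 6) * (X + 10) * Y * (Y - 2 * X)) * k.e7 + (-2) * ((X
    + 6) * (X - 6) * (X + 10) * Y * (Y + 6 * X)) * k.e8 + ((720) * Y + (-8640) * X + (96) * Y ^
    2 + (288) * X * Y + (-1584) * X ^ 2 + (24) * X * Y ^ 2 + (-12) * X ^ 2 * Y + (288) * X ^ 3 +
    (4) * X ^ 2 * Y ^ 2 + (12) * X ^ 3 * Y + (36) * X ^ 4) * he

theorem der203 {d0 d1 d2 d3 d4 d5 d6 d7 d8 : ℝ} (h : Arc X Y)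
    (k : Dv X Y d0 d1 d2 d3 d4 d5 d6 d7 d8) : w203.Dec [d0, d1, d2, d3, d4, d5, d6, d7, d8] := by
  obtain ⟨he, hX, hY, h6, h2, hp⟩ := h
  have hs : 0 < X - 30 := by linarith
  have ht : 0 < Y - 180 := by linarith
  have p3 : 0 < X - 6 := by linarith
  have pX : 0 < X := by linarith
  have pY : 0 < Y := by linarith
  have hR : 0 < (-4320) * Y + (-1440) * X * Y + (-30240) * X ^ 2 + (-696) * X ^ 2 * Y + (-576) *
    X ^ 3 + (48) * X ^ 3 * Y + (24) * X ^ 4 + (24) * X ^ 5 := by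
    have e : (-4320) * Y + (-1440) * X * Y + (-30240) * X ^ 2 + (-696) * X ^ 2 * Y + (-576) * X
      ^ 3 + (48) * X ^ 3 * Y + (24) * X ^ 4 + (24) * X ^ 5 = 671846400 + 111974400 * (X - 30) +
      7179840 * (X - 30) ^ 2 + 226944 * (X - 30) ^ 3 + 3624 * (X - 30) ^ 4 + 24 * (X - 30) ^ 5 +
      622080 * (Y - 180) + 86400 * (X - 30) * (Y - 180) + 3624 * (X - 30) ^ 2 * (Y - 180) + 48 *
      (X - 30) ^ 3 * (Y - 180) := by ring
    rw [e]
    positivity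
  have e : sub w203.c w203.be = [0, 2, 0, -2, 0, 0, -2, 2, 0, 0, 0, 0] := rfl
  refine (fun h => Or.inr (Or.inl h)) ?_
  rw [e]
  simp only [lin_cons, lin_nil']
  push_cast
  refine ngl (P := (X + 6) * (X - 6) * (Y - 6 * X) * (Y + 6 * X)) (Z := ((-4320) * Y + (-1440) *
    X * Y + (-30240) * X ^ 2 + (-696) * X ^ 2 * Y + (-576) * X ^ 3 + (48) * X ^ 3 * Y + (24) * X
    ^ 4 + (24) * X ^ 5) * (1)) (by positivity) ?_ (mul_pos hR (by positivity))
  linear_combination (2) * ((X - 6) * (Y - 6 * X) * (Y + 6 * X)) * k.e1 + (-2) * ((X + 6) * (Y -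
    6 * X) * (Y + 6 * X)) * k.e3 + (-2) * ((X + 6) * (X - 6) * (Y + 6 * X)) * k.e6 + (2) * ((X +
    6) * (X - 6) * (Y - 6 * X)) * k.e7 + ((-1008) + (-48) * Y + (-24) * X + (48) * X ^ 2) * he

theorem der206 {d0 d1 d2 d3 d4 d5 d6 d7 d8 : ℝ} (h : Arc X Y)
    (k : Dv X Y d0 d1 d2 d3 d4 d5 d6 d7 d8) : w206.Dec [d0, d1, d2, d3, d4, d5, d6, d7, d8] := by
  obtain ⟨he, hX, hY, h6, h2, hp⟩ := h
  have hs : 0 < X - 30 := by linarith
  have ht : 0 < Y - 180 := by linarith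
  have p3 : 0 < X - 6 := by linarith
  have pX : 0 < X := by linarith
  have pY : 0 < Y := by linarith
  have hR : 0 < (64) * Y + (288) * X + (16) * X ^ 2 := by
    have e : (64) * Y + (288) * X + (16) * X ^ 2 = 34560 + 1248 * (X - 30) + 16 * (X - 30) ^ 2 +
      64 * (Y - 180) := by ring
    rw [e]
    positivity
  have e : sub w206.c w206.be = [0, 0, 0, -2, 2, 0, 0, 2, -2, 0, 0, 0] := rfl
  refine (fun h => Or.inr (Or.inl h)) ?_
  rw [e]
  simp only [lin_cons, lin_nil']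
  push_cast
  refine ngl (P := (X - 6) * (X + 10) * (Y + 6 * X) * (Y - 2 * X)) (Z := ((64) * Y + (288) * X +
    (16) * X ^ 2) * (X * (X - 6) * (X + 10))) (by positivity) ?_ (mul_pos hR (by positivity))
  linear_combination (-2) * ((X + 10) * (Y + 6 * X) * (Y - 2 * X)) * k.e3 + (2) * ((X - 6) * (Y
    + 6 * X) * (Y - 2 * X)) * k.e4 + (2) * ((X - 6) * (X + 10) * (Y - 2 * X)) * k.e7 + (-2) *
    ((X - 6) * (X + 10) * (Y + 6 * X)) * k.e8 + ((-960) + (-64) * Y + (-160) * X + (32) * X ^ 2)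
    * he

theorem der210 {d0 d1 d2 d3 d4 d5 d6 d7 d8 : ℝ} (h : Arc X Y)
    (k : Dv X Y d0 d1 d2 d3 d4 d5 d6 d7 d8) : w210.Dec [d0, d1, d2, d3, d4, d5, d6, d7, d8] := by
  obtain ⟨he, hX, hY, h6, h2, hp⟩ := h
  have hs : 0 < X - 30 := by linarith
  have ht : 0 < Y - 180 := by linarith
  have p3 : 0 < X - 6 := by linarith
  have pX : 0 < X := by linarith
  have pY : 0 < Y := by linarith
  have hR : 0 < (360) * Y + (12) * X ^ 3 := by
    have e : (360) * Y + (12) * X ^ 3 = 388800 + 32400 * (X - 30) + 1080 * (X - 30) ^ 2 + 12 *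
      (X - 30) ^ 3 + 360 * (Y - 180) := by ring
    rw [e]
    positivity
  have e : sub w210.c w210.be = [0, 0, 0, 0, 0, 2, -2, 0, 0, 2, 0, 0] := rfl
  refine (fun h => Or.inr (Or.inl h)) ?_
  rw [e]
  simp only [lin_cons, lin_nil']
  push_cast
  refine ngl (P := Y * (Y - 6 * X)) (Z := ((360) * Y + (12) * X ^ 3) * (1)) (by positivity) ?_
    (mul_pos hR (by positivity))
  linear_combination (2) * ((Y - 6 * X)) * k.e5 + (-2) * (Y) * k.e6 + ((24)) * he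

theorem der213 {d0 d1 d2 d3 d4 d5 d6 d7 d8 : ℝ} (h : Arc X Y)
    (k : Dv X Y d0 d1 d2 d3 d4 d5 d6 d7 d8) : w213.Dec [d0, d1, d2, d3, d4, d5, d6, d7, d8] := by
  obtain ⟨he, hX, hY, h6, h2, hp⟩ := h
  have hs : 0 < X - 30 := by linarith
  have ht : 0 < Y - 180 := by linarith
  have p3 : 0 < X - 6 := by linarith
  have pX : 0 < X := by linarith
  have pY : 0 < Y := by linarith
  have hR : 0 < (720) * Y + (24) * X ^ 3 := by
    have e : (720) * Y + (24) * X ^ 3 = 777600 + 64800 * (X - 30) + 2160 * (X - 30) ^ 2 + 24 *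
      (X - 30) ^ 3 + 720 * (Y - 180) := by ring
    rw [e]
    positivity
  have e : sub w213.c w213.be = [0, 0, 0, 0, 0, 0, -2, 2, 0, 0, 0, 0] := rfl
  refine (fun h => Or.inr (Or.inl h)) ?_
  rw [e]
  simp only [lin_cons, lin_nil']
  push_cast
  refine ngl (P := (Y - 6 * X) * (Y + 6 * X)) (Z := ((720) * Y + (24) * X ^ 3) * (1)) (by
    positivity) ?_ (mul_pos hR (by positivity))
  linear_combination (-2) * ((Y + 6 * X)) * k.e6 + (2) * ((Y - 6 * X)) * k.e7 + ((48)) * he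

theorem der217 {d0 d1 d2 d3 d4 d5 d6 d7 d8 : ℝ} (h : Arc X Y)
    (k : Dv X Y d0 d1 d2 d3 d4 d5 d6 d7 d8) : w217.Dec [d0, d1, d2, d3, d4, d5, d6, d7, d8] := by
  obtain ⟨he, hX, hY, h6, h2, hp⟩ := h
  have hs : 0 < X - 30 := by linarith
  have ht : 0 < Y - 180 := by linarith
  have p3 : 0 < X - 6 := by linarith
  have pX : 0 < X := by linarith
  have pY : 0 < Y := by linarith
  have hR : 0 < (60) + (4) * Y + (-2) * X := by
    refine pos_nb (R' := (60 + (-2) * X) + (4) * (X - 30 - Y)) ?_ ?_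
    · have e : ((60) + (4) * Y + (-2) * X) * ((60 + (-2) * X) + (4) * (X - 30 - Y)) = -(518400 +
        48960 * (X - 30) + 1540 * (X - 30) ^ 2 + 16 * (X - 30) ^ 3) := by
        linear_combination ((-16)) * he
      rw [e]
      refine neg_neg_of_pos ?_
      positivity
    · have e : ((60) + (4) * Y + (-2) * X) - ((60 + (-2) * X) + (4) * (X - 30 - Y)) = (4) * (2 *
        Y - X + 30) := by ring
      rw [e]
      positivity
  have e : sub w217.al w217.c = [-2, 0, 0, 0, 0, 0, 0, 0, 0, 2, 2, 0] := rfl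
  refine (Or.inl) ?_
  rw [e]
  simp only [lin_cons, lin_nil']
  push_cast
  refine ngl (P := X) (Z := ((60) + (4) * Y + (-2) * X) * (1)) (by positivity) ?_ (mul_pos hR
    (by positivity))
  linear_combination (-2) * (1) * k.e0 + (0) * he

end

end Pool.Agent.K4N.Q10B
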