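import Pool.Agent.Lib_helper2.K4N.EngR

set_option autoImplicit false

/-!
The class for points of order ten at `t = -1` (`b = -6/25`, `c = 6/5`).
-/

namespace Pool.Agent.K4N

open Pool.Agent.TN

section

variable {F : Type*} [Field F]

/-- the terms at every translate -/
noncomputable def term10c (x y : F) : MK4.HK F :=
  MK4.hk (MK4.sy (2 * x ^ 2 * (x + 6 / 25) / (y * (y - 6 / 5 * x))))
      (MK4.lg (24 * (x - 6 / 5) ^ 2 * (x - 6 / 25) * (y + 6 / 5 * x) ^ 3 /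
        (15625 * (x + 6 / 25) ^ 4 * (x + 2 / 5) ^ 2 * y ^ 2 * (y - 2 / 5 * x)))) +
    (6 : ℚ) • MK4.hk (MK4.sy (x ^ 2 / y))
      (MK4.lg (46875 * (x + 6 / 25) ^ 5 * (x + 2 / 5) ^ 3 * y * (y - 6 / 5 * x) ^ 2 *
        (y - 2 / 5 * x) ^ 3 /
        (4 * (x - 6 / 5) ^ 5 * (x - 6 / 25) ^ 3 * (y + 6 / 5 * x) ^ 4))) +
    MK4.hk (MK4.sy (6 * x ^ 3 / (5 * y ^ 2)))
      (MK4.lg ((x + 6 / 25) * (x + 2 / 5) ^ 2 * (y + 6 / 5 * x) ^ 22 /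
        (135000 * y ^ 12 * (y - 6 / 5 * x) * (y - 2 / 5 * x) ^ 13))) -
    MK4.hk (MK4.sy (6 * y ^ 2 / (5 * x * (x + 6 / 25) ^ 2)))
      (MK4.lg ((x - 6 / 5) ^ 21 * (x - 6 / 25) ^ 9 * y ^ 12 * (y - 6 / 5 * x) *
        (y - 2 / 5 * x) ^ 13 /
        (135000 * x ^ 16 * (x + 6 / 25) ^ 12 * (x + 2 / 5) ^ 11 * (y + 6 / 5 * x) ^ 22)))

/-- the sum over the translates by the multiples of `P` -/
noncomputable def xi10b (x y : F) : MK4.HK F :=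
  ∑ j : Fin 10, term10c (It (-6 / 25 : F) j.val (x, y)).1 (It (-6 / 25 : F) j.val (x, y)).2

end

end Pool.Agent.K4N
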