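import Pool.Agent.Lib_helper2.K4N.Q10BP

set_option autoImplicit false

/-!
The total density of the class at `t = -1` is positive at every real point.
-/

namespace Pool.Agent.K4N.Q10B

open LA Filter Topology

/-- the logarithms of the units -/
noncomputable def aL (p : ℝ × ℝ) : List ℝ := (Bs (25 * p.1) (125 * p.2)).map Real.log

/-- the logarithmic derivatives of the units -/
noncomputable def dl (X Y : ℝ) : List ℝ :=
  [(2 * Y - X + 30) / X, (2 * Y - X + 30) / (X + 6), (2 * Y - X + 30) / (X - 30),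
   (2 * Y - X + 30) / (X - 6), (2 * Y - X + 30) / (X + 10), (3 * X ^ 2 + 12 * X + Y) / Y,
   (3 * X ^ 2 + 12 * X + Y - 6 * (2 * Y - X + 30)) / (Y - 6 * X),
   (3 * X ^ 2 + 12 * X + Y + 6 * (2 * Y - X + 30)) / (Y + 6 * X),
   (3 * X ^ 2 + 12 * X + Y - 2 * (2 * Y - X + 30)) / (Y - 2 * X)]

/-- the same along a path -/
noncomputable def dL (K : ℝ) (p : ℝ × ℝ) : List ℝ := (dl (25 * p.1) (125 * p.2)).map (K * ·)

lemma dv_of {X Y : ℝ} (hB : ∀ b ∈ Bs X Y, b ≠ 0) :
    Dv X Y ((2 * Y - X + 30) / X) ((2 * Y - X + 30) / (X + 6)) ((2 * Y - X + 30) / (X - 30))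
      ((2 * Y - X + 30) / (X - 6)) ((2 * Y - X + 30) / (X + 10)) ((3 * X ^ 2 + 12 * X + Y) / Y)
      ((3 * X ^ 2 + 12 * X + Y - 6 * (2 * Y - X + 30)) / (Y - 6 * X))
      ((3 * X ^ 2 + 12 * X + Y + 6 * (2 * Y - X + 30)) / (Y + 6 * X))
      ((3 * X ^ 2 + 12 * X + Y - 2 * (2 * Y - X + 30)) / (Y - 2 * X)) := by
  simp only [Bs, List.forall_mem_cons] at hB
  obtain ⟨h0, h1, h2, h3, h4, h5, h6, h7, h8, -⟩ := hB
  exact ⟨div_mul_cancel₀ _ h0, div_mul_cancel₀ _ h1, div_mul_cancel₀ _ h2, div_mul_cancel₀ _ h3,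
    div_mul_cancel₀ _ h4, div_mul_cancel₀ _ h5, div_mul_cancel₀ _ h6, div_mul_cancel₀ _ h7,
    div_mul_cancel₀ _ h8⟩

/-- `b` and `c` -/
abbrev bb : ℝ := ((-6 / 25 : ℚ) : ℝ)
/-- `c` -/
abbrev cc : ℝ := ((6 / 5 : ℚ) : ℝ)

lemma bb_eq : bb = -6 / 25 := by
  unfold bb
  push_cast
  norm_num

lemma cc_eq : cc = 6 / 5 := by
  unfold cc
  push_cast
  norm_num

lemma curve {U V : ℝ} (h : V ^ 2 + (1 - cc) * U * V - bb * V = U ^ 3 - bb * U ^ 2) :
    (125 * V) ^ 2 - 25 * U * (125 * V) + 30 * (125 * V) = (25 * U) ^ 3 + 6 * (25 * U) ^ 2 := by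
  rw [bb_eq, cc_eq] at h
  linear_combination 15625 * h

section path

variable {X Y κ : ℝ → ℝ} {s : ℝ}

lemma der_logs {P : ℝ → ℝ × ℝ} (h : OKp bb cc (κ s) (fun t => (P t).1) (fun t => (P t).2) s)
    (hB : ∀ b ∈ Bs (25 * (P s).1) (125 * (P s).2), b ≠ 0) (v : List ℤ) :
    HasDerivAt (fun t => lin v (aL (P t))) (lin v (dL (κ s / 5) (P s))) s := by
  have dX : HasDerivAt (fun t => 25 * (P t).1)
      (κ s / 5 * (2 * (125 * (P s).2) - 25 * (P s).1 + 30)) s := by
    refine (h.dX.const_mul 25).congr_deriv ?_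
    rw [bb_eq, cc_eq]
    ring
  have dY : HasDerivAt (fun t => 125 * (P t).2)
      (κ s / 5 * (3 * (25 * (P s).1) ^ 2 + 12 * (25 * (P s).1) + 125 * (P s).2)) s := by
    refine (h.dY.const_mul 125).congr_deriv ?_
    rw [bb_eq, cc_eq]
    ring
  simp only [Bs, List.forall_mem_cons] at hB
  obtain ⟨h0, h1, h2, h3, h4, h5, h6, h7, h8, -⟩ := hB
  have key : List.Forall₂ (fun (f : ℝ → ℝ) d => HasDerivAt f d s)
      [fun t => Real.log (25 * (P t).1), fun t => Real.log (25 * (P t).1 + 6),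
       fun t => Real.log (25 * (P t).1 - 30), fun t => Real.log (25 * (P t).1 - 6),
       fun t => Real.log (25 * (P t).1 + 10), fun t => Real.log (125 * (P t).2),
       fun t => Real.log (125 * (P t).2 - 6 * (25 * (P t).1)),
       fun t => Real.log (125 * (P t).2 + 6 * (25 * (P t).1)),
       fun t => Real.log (125 * (P t).2 - 2 * (25 * (P t).1)),
       fun _ => Real.log 2, fun _ => Real.log 3, fun _ => Real.log 5]
      (dL (κ s / 5) (P s) ++ List.replicate 3 0) := by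
    unfold dL dl
    simp only [List.map_cons, List.map_nil, List.cons_append, List.nil_append,
      List.replicate_succ, List.replicate_zero]
    refine .cons ?_ (.cons ?_ (.cons ?_ (.cons ?_ (.cons ?_ (.cons ?_ (.cons ?_ (.cons ?_
      (.cons ?_ (.cons (hasDerivAt_const _ _) (.cons (hasDerivAt_const _ _)
      (.cons (hasDerivAt_const _ _) .nil)))))))))))
    · exact (dX.log h0).congr_deriv (by ring)
    · exact ((dX.add_const 6).log h1).congr_deriv (by ring)
    · exact ((dX.sub_const 30).log h2).congr_deriv (by ring)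
    · exact ((dX.sub_const 6).log h3).congr_deriv (by ring)
    · exact ((dX.add_const 10).log h4).congr_deriv (by ring)
    · exact (dY.log h5).congr_deriv (by ring)
    · exact ((dY.sub (dX.const_mul 6)).log h6).congr_deriv (by simp only [Pi.sub_apply]; ring)
    · exact ((dY.add (dX.const_mul 6)).log h7).congr_deriv (by simp only [Pi.add_apply]; ring)
    · exact ((dY.sub (dX.const_mul 2)).log h8).congr_deriv (by simp only [Pi.sub_apply]; ring)
  have h9 := hasDerivAt_lin key v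
  rw [lin_append, lin_zeros, add_zero] at h9
  exact h9

/-- the translates -/
noncomputable def PP (X Y : ℝ → ℝ) (n : ℕ) (t : ℝ) : ℝ × ℝ := It bb n (X t, Y t)

/-- good points -/
structure Good (p : ℝ × ℝ) : Prop where
  he : (125 * p.2) ^ 2 - 25 * p.1 * (125 * p.2) + 30 * (125 * p.2) =
    (25 * p.1) ^ 3 + 6 * (25 * p.1) ^ 2
  hB : ∀ b ∈ Bs (25 * p.1) (125 * p.2), b ≠ 0
  h0 : p.1 ≠ 0

lemma good_of (h : Path bb cc BsQ 10 X Y κ s) : ∀ᶠ t in 𝓝 s, ∀ n < 10, Good (PP X Y n t) := by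
  filter_upwards [h.ok, h.ne] with t h1 h2 n hn
  refine ⟨curve (h1 n hn).eq, ?_, (h2 n hn).1⟩
  rw [← BsQ_ev]
  intro b hb
  obtain ⟨e, he, rfl⟩ := List.mem_map.mp hb
  exact (h2 n hn).2 e he

lemma step_eqs {p : ℝ × ℝ} (h0 : p.1 ≠ 0) :
    25 * (Tn bb p).1 * (25 * p.1) ^ 2 = -30 * (125 * p.2) ∧
      125 * (Tn bb p).2 * (25 * p.1) ^ 3 = 180 * ((25 * p.1) ^ 2 - 5 * (125 * p.2)) := by
  unfold Tn
  rw [bb_eq]
  constructor
  · field_simp
    ring
  · field_simp
    ring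

lemma PP_succ (n : ℕ) (t : ℝ) : PP X Y (n + 1) t = Tn bb (PP X Y n t) := It_succ _ _ _

lemma step_aL {n : ℕ} {t : ℝ} (h : Good (PP X Y n t)) :
    aL (PP X Y (n + 1) t) = A10.map fun r => lin r (aL (PP X Y n t)) := by
  obtain ⟨e1, e2⟩ := step_eqs h.h0
  rw [PP_succ]
  exact step_log h.hB h.he e1 e2

lemma step_sg {n : ℕ} {t : ℝ} (h : Good (PP X Y n t)) :
    (Bs (25 * (PP X Y (n + 1) t).1) (125 * (PP X Y (n + 1) t).2)).map sb =
      Tsg ((Bs (25 * (PP X Y n t).1) (125 * (PP X Y n t).2)).map sb) := by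
  obtain ⟨e1, e2⟩ := step_eqs h.h0
  rw [PP_succ]
  exact step_sb h.hB h.he e1 e2

variable (h : Path bb cc BsQ 10 X Y κ s)

include h

lemma okp {n : ℕ} (hn : n < 10) :
    OKp bb cc (κ s) (fun t => (PP X Y n t).1) (fun t => (PP X Y n t).2) s :=
  h.ok.self_of_nhds n hn

lemma der_aL {n : ℕ} (hn : n < 10) (v : List ℤ) :
    HasDerivAt (fun t => lin v (aL (PP X Y n t))) (lin v (dL (κ s / 5) (PP X Y n s))) s :=
  der_logs (okp h hn) ((good_of h).self_of_nhds n hn).hB v

lemma rel {n : ℕ} (hn : n + 1 < 10) :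
    Rel A10 (aL (PP X Y n s)) (dL (κ s / 5) (PP X Y n s)) (aL (PP X Y (n + 1) s))
      (dL (κ s / 5) (PP X Y (n + 1) s)) := by
  have hev : ∀ v, ∀ᶠ t in 𝓝 s, lin v (aL (PP X Y (n + 1) t)) = lin (vm v A10) (aL (PP X Y n t)) := by
    intro v
    filter_upwards [good_of h] with t ht
    rw [step_aL (ht n (by omega)), lin_vm]
  refine ⟨fun v => (hev v).self_of_nhds, fun v => ?_⟩
  have h1 := der_aL h hn v
  have h2 := (der_aL h (by omega : n < 10) (vm v A10)).congr_of_eventuallyEq (hev v)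
  exact h1.unique h2

lemma exists_arc : ∃ n < 10, Arc (25 * (PP X Y n s).1) (125 * (PP X Y n s).2) := by
  have hg := (good_of h).self_of_nhds
  have h0 := hg 0 (by norm_num)
  obtain ⟨n, hn, h1⟩ := pats_reach _ (pat_mem h0.hB h0.he)
  rw [List.mem_range] at hn
  have key : ∀ m < 10, (Bs (25 * (PP X Y m s).1) (125 * (PP X Y m s).2)).map sb =
      Tsg^[m] ((Bs (25 * (PP X Y 0 s).1) (125 * (PP X Y 0 s).2)).map sb) := by
    intro m
    induction m with
    | zero => intro _; rfl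
    | succ m ih =>
      intro hm
      rw [step_sg (hg m (by omega)), ih (by omega), Function.iterate_succ_apply']
  exact ⟨n, hn, arc_of (hg n hn).he (hg n hn).hB ((key n hn).trans h1)⟩

lemma ev_arc {n : ℕ} (hn : n < 10) (ha : Arc (25 * (PP X Y n s).1) (125 * (PP X Y n s).2)) :
    ∀ᶠ t in 𝓝 s, Arc (25 * (PP X Y n t).1) (125 * (PP X Y n t).2) := by
  have hk := okp h hn
  have cX : ContinuousAt (fun t => 25 * (PP X Y n t).1) s := (hk.dX.continuousAt).const_mul 25
  have cY : ContinuousAt (fun t => 125 * (PP X Y n t).2) s := (hk.dY.continuousAt).const_mul 125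
  have e1 := cX.eventually (lt_mem_nhds ha.hX)
  have e2 := cY.eventually (lt_mem_nhds ha.hY)
  have e3 := (cY.sub (cX.const_mul 6)).eventually (lt_mem_nhds ha.h6)
  have e4 := (cY.sub (cX.const_mul 2)).eventually (lt_mem_nhds ha.h2)
  have e5 := (((cY.const_mul 2).sub cX).add_const 30).eventually (lt_mem_nhds ha.hp)
  filter_upwards [good_of h, e1, e2, e3, e4, e5] with t g a b c d e
  exact ⟨(g n hn).he, a, b, c, d, e⟩

lemma class_pos {n : ℕ} (hn : n < 10) (ha : Arc (25 * (PP X Y n s).1) (125 * (PP X Y n s).2))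
    {w : Cl} (hw : w ∈ W10) :
    0 < w.tm.tri (aL (PP X Y n s)) (dL (κ s / 5) (PP X Y n s)) := by
  have hK : 0 < κ s / 5 := by have := h.pos; positivity
  obtain ⟨l1, l2⟩ := all_len w hw
  have hpos := pos_Bs ha
  have hB : ∀ b ∈ Bs (25 * (PP X Y n s).1) (125 * (PP X Y n s).2), b ≠ 0 :=
    fun b hb => (hpos b hb).ne'
  -- the values
  set F : ℝ → ℝ := fun t => monN w.al (Bs (25 * (PP X Y n t).1) (125 * (PP X Y n t).2)) /
    monN w.c (Bs (25 * (PP X Y n t).1) (125 * (PP X Y n t).2)) with hF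
  set G : ℝ → ℝ := fun t => monN w.be (Bs (25 * (PP X Y n t).1) (125 * (PP X Y n t).2)) /
    monN w.c (Bs (25 * (PP X Y n t).1) (125 * (PP X Y n t).2)) with hG
  have hev := ev_arc h hn ha
  have F0 : 0 < F s := div_pos (monN_pos _ hpos) (monN_pos _ hpos)
  have G0 : 0 < G s := div_pos (monN_pos _ hpos) (monN_pos _ hpos)
  have hsum : ∀ᶠ t in 𝓝 s, F t + G t = 1 := by
    filter_upwards [hev] with t ht
    have hp := pos_Bs ht
    have h1 := all_id ht.eq w hw
    unfold Cl.Sum at h1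
    show _ / _ + _ / _ = _
    rw [← add_div, h1, div_self (monN_pos _ hp).ne']
  have lF : ∀ᶠ t in 𝓝 s, F t = Real.exp (lin (sub w.al w.c) (aL (PP X Y n t))) := by
    filter_upwards [hev] with t ht
    have hp := pos_Bs ht
    unfold aL
    rw [← log_quot l1 (fun b hb => (hp b hb).ne'),
      Real.exp_log (div_pos (monN_pos _ hp) (monN_pos _ hp))]
  have lG : ∀ᶠ t in 𝓝 s, G t = Real.exp (lin (sub w.be w.c) (aL (PP X Y n t))) := by
    filter_upwards [hev] with t ht
    have hp := pos_Bs ht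
    unfold aL
    rw [← log_quot l2 (fun b hb => (hp b hb).ne'),
      Real.exp_log (div_pos (monN_pos _ hp) (monN_pos _ hp))]
  have dF := (der_aL h hn (sub w.al w.c)).exp.congr_of_eventuallyEq lF
  have dG := (der_aL h hn (sub w.be w.c)).exp.congr_of_eventuallyEq lG
  have dS : HasDerivAt (fun t => F t + G t) 0 s :=
    (hasDerivAt_const s (1 : ℝ)).congr_of_eventuallyEq hsum
  have rel0 := (dF.add dG).unique dS
  rw [← lF.self_of_nhds, ← lG.self_of_nhds] at rel0
  have hD := all_der ha (dv_of hB) w hw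
  have hφ : lin (sub w.al w.c) (dL (κ s / 5) (PP X Y n s)) < 0 := by
    refine dec_cases F0 G0 rel0 ?_
    unfold dL
    rw [lin_smul, lin_smul]
    have neg_of : ∀ {z : ℝ}, z < 0 → κ s / 5 * z < 0 := fun hz => mul_neg_of_pos_of_neg hK hz
    rcases hD with hD | hD | hD
    · exact Or.inl (neg_of hD)
    · refine Or.inr (Or.inl ?_)
      have e : lin (sub w.c w.be) (dl (25 * (PP X Y n s).1) (125 * (PP X Y n s).2)) =
          -lin (sub w.be w.c) (dl (25 * (PP X Y n s).1) (125 * (PP X Y n s).2)) := by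
        rw [lin_sub _ _ l2, lin_sub _ _ l2.symm]
        ring
      have := neg_of (e ▸ hD : -lin (sub w.be w.c)
        (dl (25 * (PP X Y n s).1) (125 * (PP X Y n s).2)) < 0)
      linarith
    · refine Or.inr (Or.inr ?_)
      have e : lin (sub w.al w.be) (dl (25 * (PP X Y n s).1) (125 * (PP X Y n s).2)) =
          lin (sub w.al w.c) (dl (25 * (PP X Y n s).1) (125 * (PP X Y n s).2)) -
            lin (sub w.be w.c) (dl (25 * (PP X Y n s).1) (125 * (PP X Y n s).2)) := by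
        rw [lin_sub _ _ l2, lin_sub _ _ l1, lin_sub _ _ (l1.trans l2.symm)]
        ring
      have := neg_of (e ▸ hD : lin (sub w.al w.c)
        (dl (25 * (PP X Y n s).1) (125 * (PP X Y n s).2)) - lin (sub w.be w.c)
        (dl (25 * (PP X Y n s).1) (125 * (PP X Y n s).2)) < 0)
      linarith
  have key := pair_pos F0 G0 hsum.self_of_nhds rel0 hφ
  have e1 : Real.log (F s) = lin (sub w.al w.c) (aL (PP X Y n s)) := log_quot l1 hB
  have e2 : Real.log (G s) = lin (sub w.be w.c) (aL (PP X Y n s)) := log_quot l2 hB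
  rw [e1, e2] at key
  exact mul_pos key (v_pos ha w hw)

/-- the density of one term -/
lemma term_dens {n : ℕ} (hn : n < 10) (i : Fin 4) :
    -(Rf ((T10 i).fq.ev (PP X Y n s).1 (PP X Y n s).2)) *
      deriv (fun t => (T10 i).fq.ev (PP X Y n t).1 (PP X Y n t).2) s *
      Real.log ((T10 i).uq.ev (PP X Y n s).1 (PP X Y n s).2) =
    (T10 i).tm.tri (aL (PP X Y n s)) (dL (κ s / 5) (PP X Y n s)) := by
  have hg := (good_of h).self_of_nhds n hn
  have hok : (T10 i).fq.ok (PP X Y n s).1 (PP X Y n s).2 := by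
    refine ⟨trivial, ok_monQ _ _ _ _ (BsQ_ok _ _), ok_monQ _ _ _ _ (BsQ_ok _ _), ?_⟩
    rw [ev_monQ, BsQ_ev]
    exact monN_ne _ hg.hB
  have hd := Q2.deriv_ev (okp h hn) (T10 i).fq hok
  have q1 := quo_f hg.hB i
  have q2 := quo_g hg.hB i (T10_ok hg.he i)
  have q3 := quo_u hg.hB i
  have e1 : ∀ᶠ t in 𝓝 s, Real.log ((T10 i).fq.ev (PP X Y n t).1 (PP X Y n t).2) =
      lin (sub (T10 i).al (T10 i).c) (aL (PP X Y n t)) := by
    filter_upwards [good_of h] with t ht
    exact (quo_f (ht n hn).hB i).log (ht n hn).hB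
  have e2 : ∀ᶠ t in 𝓝 s, Real.log (1 - (T10 i).fq.ev (PP X Y n t).1 (PP X Y n t).2) =
      lin (sub (T10 i).be (T10 i).c) (aL (PP X Y n t)) := by
    filter_upwards [good_of h] with t ht
    exact (quo_g (ht n hn).hB i (T10_ok (ht n hn).he i)).log (ht n hn).hB
  have h1 : (T10 i).fq.ev (PP X Y n s).1 (PP X Y n s).2 ≠ 1 := fun h1 => by
    have := q2.ne hg.hB
    rw [h1, sub_self] at this
    exact this rfl
  have key := dens hd (q1.ne hg.hB) h1 (der_aL h hn _) (der_aL h hn _) e1 e2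
  rw [hd.deriv, key, q3.log hg.hB]
  rfl

/-- **The total density is positive.** -/
theorem total_pos : 0 < ∑ i : Fin 10 × Fin 4,
    -(Rf ((T10 i.2).fq.ev (It bb i.1.val (X s, Y s)).1 (It bb i.1.val (X s, Y s)).2)) *
      deriv (fun t => (T10 i.2).fq.ev (It bb i.1.val (X t, Y t)).1
        (It bb i.1.val (X t, Y t)).2) s *
      Real.log ((T10 i.2).uq.ev (It bb i.1.val (X s, Y s)).1 (It bb i.1.val (X s, Y s)).2) := by
  have e : ∀ i : Fin 10 × Fin 4,
    -(Rf ((T10 i.2).fq.ev (It bb i.1.val (X s, Y s)).1 (It bb i.1.val (X s, Y s)).2)) *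
      deriv (fun t => (T10 i.2).fq.ev (It bb i.1.val (X t, Y t)).1
        (It bb i.1.val (X t, Y t)).2) s *
      Real.log ((T10 i.2).uq.ev (It bb i.1.val (X s, Y s)).1 (It bb i.1.val (X s, Y s)).2) =
    (T10 i.2).tm.tri (aL (PP X Y i.1.val s)) (dL (κ s / 5) (PP X Y i.1.val s)) :=
    fun i => term_dens h i.1.2 i.2
  rw [Finset.sum_congr rfl fun i _ => e i, Fintype.sum_prod_type]
  have e3 : ∀ n : ℕ, ∑ q : Fin 4, (T10 q).tm.tri (aL (PP X Y n s)) (dL (κ s / 5) (PP X Y n s)) =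
      (tm0.map fun t => t.tri (aL (PP X Y n s)) (dL (κ s / 5) (PP X Y n s))).sum := by
    intro n
    rw [T10_tm]
    simp only [Fin.sum_univ_succ, Fin.sum_univ_zero, List.map_cons, List.map_nil, List.sum_cons,
      List.sum_nil]
    rfl
  have e4 : ∑ j : Fin 10, ∑ q : Fin 4, (T10 q).tm.tri (aL (PP X Y j.val s))
      (dL (κ s / 5) (PP X Y j.val s)) = ∑ j ∈ Finset.range 10,
        (tm0.map fun t => t.tri (aL (PP X Y j s)) (dL (κ s / 5) (PP X Y j s))).sum := by
    rw [Finset.sum_range]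
    exact Finset.sum_congr rfl fun j _ => e3 j.val
  rw [e4, ← sum_orb A10 (fun n => aL (PP X Y n s)) (fun n => dL (κ s / 5) (PP X Y n s)) 10
    (fun j hj => rel h hj) tm0]
  obtain ⟨n, hn, ha⟩ := exists_arc h
  have e5 := sum_move A10 (fun n => aL (PP X Y n s)) (fun n => dL (κ s / 5) (PP X Y n s)) n
    (fun j hj => rel h (by omega)) L1_rot
  have hlen : (dL (κ s / 5) (PP X Y n s)).length ≤ 9 := by
    unfold dL dl
    simp
  have e6 := sum_eq_of_tab tab_eq (a := aL (PP X Y n s)) hlen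
  have e7 : 0 < ((W10.map Cl.tm).map fun t => t.tri (aL (PP X Y n s))
      (dL (κ s / 5) (PP X Y n s))).sum := by
    refine list_sum_pos ?_ ?_
    · intro x hx
      obtain ⟨t, ht, rfl⟩ := List.mem_map.mp hx
      obtain ⟨w, hw, rfl⟩ := List.mem_map.mp ht
      exact class_pos h hn ha hw
    · simp [W10]
  rw [← e6, e5] at e7
  push_cast at e7
  have e8 : (orb A10 10 tm0) = L1 := rfl
  rw [e8]
  by_contra hh
  push Not at hh
  linarith

end path

end Pool.Agent.K4N.Q10B
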