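import Pool.Agent.Lib_helper2.K4N.Q10BW

set_option autoImplicit false
set_option linter.unusedVariables false
set_option linter.unusedSimpArgs false

/-!
Translation by `P` on the units and on their signs; every point has a translate on the arc.
-/

namespace Pool.Agent.K4N

namespace LA

open Real

/-- the sign -/
noncomputable def sb (b : ℝ) : Bool := decide (b < 0)

/-- the sign of a monomial -/
def par : List ℕ → List Bool → Bool
  | n :: ns, s :: ss => xor (decide (n % 2 = 1) && s) (par ns ss)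
  | _, _ => false

lemma sb_of_pos {b : ℝ} (h : 0 < b) : sb b = false := decide_eq_false (not_lt.mpr h.le)

lemma sb_of_neg {b : ℝ} (h : b < 0) : sb b = true := decide_eq_true h

lemma sb_mul {a b : ℝ} (ha : a ≠ 0) (hb : b ≠ 0) : sb (a * b) = xor (sb a) (sb b) := by
  rcases lt_or_gt_of_ne ha with h | h <;> rcases lt_or_gt_of_ne hb with h' | h'
  · rw [sb_of_pos (mul_pos_of_neg_of_neg h h'), sb_of_neg h, sb_of_neg h']; rfl
  · rw [sb_of_neg (mul_neg_of_neg_of_pos h h'), sb_of_neg h, sb_of_pos h']; rfl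
  · rw [sb_of_neg (mul_neg_of_pos_of_neg h h'), sb_of_pos h, sb_of_neg h']; rfl
  · rw [sb_of_pos (mul_pos h h'), sb_of_pos h, sb_of_pos h']; rfl

lemma sb_pow {b : ℝ} (hb : b ≠ 0) (n : ℕ) : sb (b ^ n) = (decide (n % 2 = 1) && sb b) := by
  rcases lt_or_gt_of_ne hb with h | h
  · rw [sb_of_neg h, Bool.and_true]
    by_cases hn : n % 2 = 1
    · rw [decide_eq_true hn]
      exact sb_of_neg (Odd.pow_neg (Nat.odd_iff.mpr hn) h)
    · rw [decide_eq_false hn]
      exact sb_of_pos (Even.pow_pos (Nat.not_odd_iff_even.mp fun h' => hn (Nat.odd_iff.mp h')) hb)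
  · rw [sb_of_pos h, Bool.and_false]
    exact sb_of_pos (pow_pos h n)

lemma sb_monN (v : List ℕ) {B : List ℝ} (hB : ∀ b ∈ B, b ≠ 0) :
    sb (monN v B) = par v (B.map sb) := by
  induction v generalizing B with
  | nil =>
    rw [monN_nil]
    exact sb_of_pos one_pos
  | cons n ns ih =>
    cases B with
    | nil =>
      rw [monN_nil']
      exact sb_of_pos one_pos
    | cons b bs =>
      have h2 : ∀ b' ∈ bs, b' ≠ 0 := fun b' h' => hB b' (List.mem_cons_of_mem _ h')
      rw [monN_cons, sb_mul (pow_ne_zero _ (hB b List.mem_cons_self)) (monN_ne ns h2),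
        sb_pow (hB b List.mem_cons_self), ih h2]
      rfl

lemma sb_neg {b : ℝ} (hb : b ≠ 0) : sb (-b) = !(sb b) := by
  rcases lt_or_gt_of_ne hb with h | h
  · rw [sb_of_pos (neg_pos.mpr h), sb_of_neg h]; rfl
  · rw [sb_of_neg (neg_lt_zero.mpr h), sb_of_pos h]; rfl

/-- `b` is the quotient of monomials, with a sign -/
def Quo (B : List ℝ) (b : ℝ) (r : Bool × List ℕ × List ℕ) : Prop :=
  r.2.1.length = r.2.2.length ∧ b * monN r.2.2 B = (if r.1 then -1 else 1) * monN r.2.1 B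

lemma Quo.ne {B : List ℝ} {b : ℝ} {r : Bool × List ℕ × List ℕ} (hB : ∀ b ∈ B, b ≠ 0)
    (h : Quo B b r) : b ≠ 0 := by
  intro h0
  have h1 := h.2
  rw [h0, zero_mul] at h1
  have h2 := monN_ne r.2.1 hB
  have h3 : ((if r.1 then -1 else 1) : ℝ) ≠ 0 := by split <;> norm_num
  exact (mul_ne_zero h3 h2) h1.symm

lemma Quo.log {B : List ℝ} {b : ℝ} {r : Bool × List ℕ × List ℕ} (hB : ∀ b ∈ B, b ≠ 0)
    (h : Quo B b r) : Real.log b = lin (sub r.2.1 r.2.2) (B.map Real.log) := by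
  obtain ⟨hl, h1⟩ := h
  rw [← log_quot hl hB]
  rcases hr : r.1 with _ | _
  · rw [hr] at h1
    rw [show b = monN r.2.1 B / monN r.2.2 B from by
      rw [eq_div_iff (monN_ne _ hB)]
      simpa using h1]
  · rw [hr] at h1
    rw [show b = -(monN r.2.1 B / monN r.2.2 B) from by
      rw [← neg_div, eq_div_iff (monN_ne _ hB)]
      simpa using h1, Real.log_neg_eq_log]

lemma Quo.sb {B : List ℝ} {b : ℝ} {r : Bool × List ℕ × List ℕ} (hB : ∀ b ∈ B, b ≠ 0)
    (h : Quo B b r) : sb b = xor r.1 (xor (par r.2.1 (B.map sb)) (par r.2.2 (B.map sb))) := by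
  have hb := h.ne hB
  obtain ⟨hl, h1⟩ := h
  have h2 := congrArg LA.sb h1
  rw [sb_mul hb (monN_ne _ hB), sb_monN _ hB] at h2
  rcases hr : r.1 with _ | _
  · rw [hr] at h2
    rw [show ((if false = true then -1 else 1) : ℝ) * monN r.2.1 B = monN r.2.1 B from by simp,
      sb_monN _ hB] at h2
    rw [← h2]
    cases LA.sb b <;> cases par r.2.2 (B.map LA.sb) <;> rfl
  · rw [hr] at h2
    rw [show ((if true = true then -1 else 1) : ℝ) * monN r.2.1 B = -monN r.2.1 B from by simp,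
      sb_neg (monN_ne _ hB), sb_monN _ hB] at h2
    rcases h3 : LA.sb b <;> rcases h4 : par r.2.2 (B.map LA.sb) <;>
      rcases h5 : par r.2.1 (B.map LA.sb) <;> rw [h3, h4, h5] at h2 <;> first | rfl | (simp at h2)

lemma Forall₂.logs {B B' : List ℝ} {R : List (Bool × List ℕ × List ℕ)} (hB : ∀ b ∈ B, b ≠ 0)
    (h : List.Forall₂ (fun b r => Quo B b r) B' R) :
    B'.map Real.log = R.map fun r => lin (sub r.2.1 r.2.2) (B.map Real.log) := by
  induction h with
  | nil => rfl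
  | cons h _ ih => rw [List.map_cons, List.map_cons, h.log hB, ih]

lemma Forall₂.sbs {B B' : List ℝ} {R : List (Bool × List ℕ × List ℕ)} (hB : ∀ b ∈ B, b ≠ 0)
    (h : List.Forall₂ (fun b r => Quo B b r) B' R) :
    B'.map LA.sb = R.map fun r => xor r.1 (xor (par r.2.1 (B.map LA.sb)) (par r.2.2 (B.map LA.sb))) := by
  induction h with
  | nil => rfl
  | cons h _ ih => rw [List.map_cons, List.map_cons, h.sb hB, ih]

end LA

namespace Q10B

open LA

/-- translation by `P`: signs and monomials -/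
def R10 : List (Bool × List ℕ × List ℕ) :=
  [(true, [0, 0, 0, 0, 0, 1, 0, 0, 0, 1, 1, 1], [2, 0, 0, 0, 0, 0, 0, 0, 0, 0, 0, 0]),
   (false, [0, 0, 0, 0, 0, 1, 1, 0, 0, 1, 1, 0], [2, 1, 0, 0, 0, 0, 0, 0, 0, 0, 0, 0]),
   (true, [0, 0, 0, 0, 0, 0, 1, 1, 0, 1, 1, 1], [2, 0, 1, 0, 0, 0, 0, 0, 0, 0, 0, 0]),
   (true, [0, 0, 0, 0, 0, 0, 0, 1, 1, 1, 1, 0], [2, 0, 0, 1, 0, 0, 0, 0, 0, 0, 0, 0]),
   (false, [0, 0, 0, 0, 0, 0, 0, 0, 2, 1, 0, 1], [2, 0, 0, 0, 1, 0, 0, 0, 0, 0, 0, 0]),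
   (false, [0, 0, 0, 0, 0, 1, 1, 0, 0, 2, 2, 1], [3, 1, 0, 0, 0, 0, 0, 0, 0, 0, 0, 0]),
   (false, [0, 0, 0, 0, 0, 1, 1, 1, 0, 2, 2, 1], [3, 1, 1, 0, 0, 0, 0, 0, 0, 0, 0, 0]),
   (true, [0, 0, 0, 0, 0, 0, 1, 1, 1, 2, 2, 1], [3, 0, 1, 1, 0, 0, 0, 0, 0, 0, 0, 0]),
   (false, [0, 0, 0, 0, 0, 0, 0, 1, 2, 2, 1, 1], [3, 0, 0, 1, 1, 0, 0, 0, 0, 0, 0, 0]),
   (false, [0, 0, 0, 0, 0, 0, 0, 0, 0, 1, 0, 0], [0, 0, 0, 0, 0, 0, 0, 0, 0, 0, 0, 0]),
   (false, [0, 0, 0, 0, 0, 0, 0, 0, 0, 0, 1, 0], [0, 0, 0, 0, 0, 0, 0, 0, 0, 0, 0, 0]),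
   (false, [0, 0, 0, 0, 0, 0, 0, 0, 0, 0, 0, 1], [0, 0, 0, 0, 0, 0, 0, 0, 0, 0, 0, 0])]

theorem A10_eq : A10 = R10.map fun r => sub r.2.1 r.2.2 := by decide +kernel

/-- the translation on the signs -/
def Tsg (S : List Bool) : List Bool := R10.map fun r => xor r.1 (xor (par r.2.1 S) (par r.2.2 S))

section

variable {X Y X' Y' : ℝ}

lemma st0 (he : Y ^ 2 - X * Y + 30 * Y = X ^ 3 + 6 * X ^ 2) (hX : X' * X ^ 2 = -30 * Y) (hY : Y'
    * X ^ 3 = 180 * (X ^ 2 - 5 * Y)) : Quo (Bs X Y) (X') (true, [0, 0, 0, 0, 0, 1, 0, 0, 0, 1,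
    1, 1], [2, 0, 0, 0, 0, 0, 0, 0, 0, 0, 0, 0]) := by
  refine ⟨rfl, ?_⟩
  simp only [Bs, monN_cons, monN_nil', if_true, Bool.false_eq_true, if_false]
  linear_combination ((1)) * hX + (0) * he

lemma st1 (he : Y ^ 2 - X * Y + 30 * Y = X ^ 3 + 6 * X ^ 2) (hX : X' * X ^ 2 = -30 * Y) (hY : Y'
    * X ^ 3 = 180 * (X ^ 2 - 5 * Y)) : Quo (Bs X Y) (X' + 6) (false, [0, 0, 0, 0, 0, 1, 1, 0, 0,
    1, 1, 0], [2, 1, 0, 0, 0, 0, 0, 0, 0, 0, 0, 0]) := by
  refine ⟨rfl, ?_⟩
  simp only [Bs, monN_cons, monN_nil', if_true, Bool.false_eq_true, if_false]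
  linear_combination ((6) + (1) * X) * hX + ((-6)) * he

lemma st2 (he : Y ^ 2 - X * Y + 30 * Y = X ^ 3 + 6 * X ^ 2) (hX : X' * X ^ 2 = -30 * Y) (hY : Y'
    * X ^ 3 = 180 * (X ^ 2 - 5 * Y)) : Quo (Bs X Y) (X' - 30) (true, [0, 0, 0, 0, 0, 0, 1, 1, 0,
    1, 1, 1], [2, 0, 1, 0, 0, 0, 0, 0, 0, 0, 0, 0]) := by
  refine ⟨rfl, ?_⟩
  simp only [Bs, monN_cons, monN_nil', if_true, Bool.false_eq_true, if_false]
  linear_combination ((-30) + (1) * X) * hX + ((30)) * he

lemma st3 (he : Y ^ 2 - X * Y + 30 * Y = X ^ 3 + 6 * X ^ 2) (hX : X' * X ^ 2 = -30 * Y) (hY : Y'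
    * X ^ 3 = 180 * (X ^ 2 - 5 * Y)) : Quo (Bs X Y) (X' - 6) (true, [0, 0, 0, 0, 0, 0, 0, 1, 1,
    1, 1, 0], [2, 0, 0, 1, 0, 0, 0, 0, 0, 0, 0, 0]) := by
  refine ⟨rfl, ?_⟩
  simp only [Bs, monN_cons, monN_nil', if_true, Bool.false_eq_true, if_false]
  linear_combination ((-6) + (1) * X) * hX + ((6)) * he

lemma st4 (he : Y ^ 2 - X * Y + 30 * Y = X ^ 3 + 6 * X ^ 2) (hX : X' * X ^ 2 = -30 * Y) (hY : Y'
    * X ^ 3 = 180 * (X ^ 2 - 5 * Y)) : Quo (Bs X Y) (X' + 10) (false, [0, 0, 0, 0, 0, 0, 0, 0,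
    2, 1, 0, 1], [2, 0, 0, 0, 1, 0, 0, 0, 0, 0, 0, 0]) := by
  refine ⟨rfl, ?_⟩
  simp only [Bs, monN_cons, monN_nil', if_true, Bool.false_eq_true, if_false]
  linear_combination ((10) + (1) * X) * hX + ((-10)) * he

lemma st5 (he : Y ^ 2 - X * Y + 30 * Y = X ^ 3 + 6 * X ^ 2) (hX : X' * X ^ 2 = -30 * Y) (hY : Y'
    * X ^ 3 = 180 * (X ^ 2 - 5 * Y)) : Quo (Bs X Y) (Y') (false, [0, 0, 0, 0, 0, 1, 1, 0, 0, 2,
    2, 1], [3, 1, 0, 0, 0, 0, 0, 0, 0, 0, 0, 0]) := by
  refine ⟨rfl, ?_⟩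
  simp only [Bs, monN_cons, monN_nil', if_true, Bool.false_eq_true, if_false]
  linear_combination ((6) + (1) * X) * hY + ((-180)) * he

lemma st6 (he : Y ^ 2 - X * Y + 30 * Y = X ^ 3 + 6 * X ^ 2) (hX : X' * X ^ 2 = -30 * Y) (hY : Y'
    * X ^ 3 = 180 * (X ^ 2 - 5 * Y)) : Quo (Bs X Y) (Y' - 6 * X') (false, [0, 0, 0, 0, 0, 1, 1,
    1, 0, 2, 2, 1], [3, 1, 1, 0, 0, 0, 0, 0, 0, 0, 0, 0]) := by
  refine ⟨rfl, ?_⟩
  simp only [Bs, monN_cons, monN_nil', if_true, Bool.false_eq_true, if_false]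
  linear_combination ((-180) + (-24) * X + (1) * X ^ 2) * hY + (-6) * ((-180) * X + (-24) * X ^
    2 + (1) * X ^ 3) * hX + ((5400) + (-180) * Y + (-180) * X) * he

lemma st7 (he : Y ^ 2 - X * Y + 30 * Y = X ^ 3 + 6 * X ^ 2) (hX : X' * X ^ 2 = -30 * Y) (hY : Y'
    * X ^ 3 = 180 * (X ^ 2 - 5 * Y)) : Quo (Bs X Y) (Y' + 6 * X') (true, [0, 0, 0, 0, 0, 0, 1,
    1, 1, 2, 2, 1], [3, 0, 1, 1, 0, 0, 0, 0, 0, 0, 0, 0]) := by
  refine ⟨rfl, ?_⟩
  simp only [Bs, monN_cons, monN_nil', if_true, Bool.false_eq_true, if_false]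
  linear_combination ((180) + (-36) * X + (1) * X ^ 2) * hY + (6) * ((180) * X + (-36) * X ^ 2 +
    (1) * X ^ 3) * hX + ((-5400) + (180) * Y + (-180) * X) * he

lemma st8 (he : Y ^ 2 - X * Y + 30 * Y = X ^ 3 + 6 * X ^ 2) (hX : X' * X ^ 2 = -30 * Y) (hY : Y'
    * X ^ 3 = 180 * (X ^ 2 - 5 * Y)) : Quo (Bs X Y) (Y' - 2 * X') (false, [0, 0, 0, 0, 0, 0, 0,
    1, 2, 2, 1, 1], [3, 0, 0, 1, 1, 0, 0, 0, 0, 0, 0, 0]) := by
  refine ⟨rfl, ?_⟩
  simp only [Bs, monN_cons, monN_nil', if_true, Bool.false_eq_true, if_false]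
  linear_combination ((-60) + (4) * X + (1) * X ^ 2) * hY + (-2) * ((-60) * X + (4) * X ^ 2 +
    (1) * X ^ 3) * hX + ((1800) + (-60) * Y + (-180) * X) * he

lemma st9 : Quo (Bs X Y) (2) (false, [0, 0, 0, 0, 0, 0, 0, 0, 0, 1, 0, 0], [0, 0, 0, 0, 0, 0, 0, 0, 0, 0, 0, 0]) := by
  refine ⟨rfl, ?_⟩
  simp only [Bs, monN_cons, monN_nil', Bool.false_eq_true, if_false]
  ring

lemma st10 : Quo (Bs X Y) (3) (false, [0, 0, 0, 0, 0, 0, 0, 0, 0, 0, 1, 0], [0, 0, 0, 0, 0, 0, 0, 0, 0, 0, 0, 0]) := by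
  refine ⟨rfl, ?_⟩
  simp only [Bs, monN_cons, monN_nil', Bool.false_eq_true, if_false]
  ring

lemma st11 : Quo (Bs X Y) (5) (false, [0, 0, 0, 0, 0, 0, 0, 0, 0, 0, 0, 1], [0, 0, 0, 0, 0, 0, 0, 0, 0, 0, 0, 0]) := by
  refine ⟨rfl, ?_⟩
  simp only [Bs, monN_cons, monN_nil', Bool.false_eq_true, if_false]
  ring

theorem step (he : Y ^ 2 - X * Y + 30 * Y = X ^ 3 + 6 * X ^ 2) (hX : X' * X ^ 2 = -30 * Y)
    (hY : Y' * X ^ 3 = 180 * (X ^ 2 - 5 * Y)) :
    List.Forall₂ (fun b r => Quo (Bs X Y) b r) (Bs X' Y') R10 :=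
  .cons (st0 he hX hY) (.cons (st1 he hX hY) (.cons (st2 he hX hY) (.cons (st3 he hX hY)
    (.cons (st4 he hX hY) (.cons (st5 he hX hY) (.cons (st6 he hX hY) (.cons (st7 he hX hY)
    (.cons (st8 he hX hY) (.cons st9 (.cons st10 (.cons st11 .nil)))))))))))

theorem step_log (hB : ∀ b ∈ Bs X Y, b ≠ 0) (he : Y ^ 2 - X * Y + 30 * Y = X ^ 3 + 6 * X ^ 2)
    (hX : X' * X ^ 2 = -30 * Y) (hY : Y' * X ^ 3 = 180 * (X ^ 2 - 5 * Y)) :
    (Bs X' Y').map Real.log = A10.map fun r => lin r ((Bs X Y).map Real.log) := by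
  rw [Forall₂.logs hB (step he hX hY), A10_eq, List.map_map]
  rfl

theorem step_sb (hB : ∀ b ∈ Bs X Y, b ≠ 0) (he : Y ^ 2 - X * Y + 30 * Y = X ^ 3 + 6 * X ^ 2)
    (hX : X' * X ^ 2 = -30 * Y) (hY : Y' * X ^ 3 = 180 * (X ^ 2 - 5 * Y)) :
    (Bs X' Y').map sb = Tsg ((Bs X Y).map sb) :=
  Forall₂.sbs hB (step he hX hY)

/-- the ten patterns -/
def pats : List (List Bool) :=
  [[true, true, true, true, false, true, false, true, false, false, false, false],
   [true, true, true, true, false, true, false, true, true, false, false, false],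
   [true, false, true, true, false, false, false, true, false, false, false, false],
   [true, false, true, true, false, true, true, true, true, false, false, false],
   [false, false, true, true, false, false, true, false, true, false, false, false],
   [false, false, true, true, false, true, true, true, true, false, false, false],
   [false, false, true, false, false, false, true, false, false, false, false, false],
   [false, false, true, false, false, true, true, false, true, false, false, false],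
   [false, false, false, false, false, false, false, false, false, false, false, false],
   [false, false, false, false, false, true, true, true, true, false, false, false]]

theorem pats_reach : ∀ S ∈ pats, ∃ n ∈ List.range 10, Tsg^[n] S = List.replicate 12 false := by
  decide +kernel

lemma psi_sq (he : Y ^ 2 - X * Y + 30 * Y = X ^ 3 + 6 * X ^ 2) :
    (2 * Y - X + 30) ^ 2 = (X + 10) * (4 * X ^ 2 - 15 * X + 90) := by
  linear_combination 4 * he

lemma X_gt (hB : ∀ b ∈ Bs X Y, b ≠ 0) (he : Y ^ 2 - X * Y + 30 * Y = X ^ 3 + 6 * X ^ 2) :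
    -10 < X ∧ 2 * Y - X + 30 ≠ 0 := by
  have h1 : X + 10 ≠ 0 := hB _ (by simp [Bs])
  have h2 := psi_sq he
  have h3 : 0 < 4 * X ^ 2 - 15 * X + 90 := by nlinarith [sq_nonneg (8 * X - 15)]
  have h4 : 0 ≤ X + 10 := by
    by_contra hh
    push Not at hh
    have := mul_neg_of_neg_of_pos hh h3
    have := sq_nonneg (2 * Y - X + 30)
    linarith
  refine ⟨by linarith [lt_of_le_of_ne h4 (Ne.symm h1)], fun h5 => ?_⟩
  rw [h5] at h2
  exact (mul_ne_zero h1 h3.ne') (by linarith)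

lemma neg_nt {R R' : ℝ} (h1 : 0 < R * R') (h2 : R + R' < 0) : R < 0 := by
  have := pos_nt (R := -R) (R' := -R') (by linarith [neg_mul_neg R R']) (by linarith)
  linarith

lemma neg_nb {R R' : ℝ} (h1 : R * R' < 0) (h2 : R - R' < 0) : R < 0 := by
  have := pos_nb (R := -R) (R' := -R') (by linarith [neg_mul_neg R R']) (by linarith)
  linarith

lemma pat0u (he : Y ^ 2 - X * Y + 30 * Y = X ^ 3 + 6 * X ^ 2) (h1 : -10 < X) (h2 : X < -6) (hp :
    0 < 2 * Y - X + 30) : (Bs X Y).map sb = [true, true, true, true, false, true, false, true,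
    false, false, false, false] := by
  have b0 : X < 0 := by linarith
  have b1 : X + 6 < 0 := by linarith
  have b2 : X - 30 < 0 := by linarith
  have b3 : X - 6 < 0 := by linarith
  have b4 : 0 < X + 10 := by linarith
  have q5 : 0 < (0 - X) * (0 - X) * (-6 - X) := by
    refine mul_pos (mul_pos ?_ ?_) ?_ <;> linarith
  have n5 : Y * (X - 30 - Y - (0) * X) = ((0 - X) * (0 - X) * (-6 - X)) := by
    linear_combination (-1) * he
  have b5 : Y < 0 := neg_nt (R' := X - 30 - Y - (0) * X) (by rw [n5]; linarith) (by linarith)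
  have q6 : 0 < (0 - X) * (30 - X) * (-6 - X) := by
    refine mul_pos (mul_pos ?_ ?_) ?_ <;> linarith
  have n6 : (Y - 6 * X) * (X - 30 - Y - (6) * X) = ((0 - X) * (30 - X) * (-6 - X)) := by
    linear_combination (-1) * he
  have b6 : 0 < Y - 6 * X := pos_nt (R' := X - 30 - Y - (6) * X) (by rw [n6]; linarith) (by linarith)
  have q7 : 0 < (0 - X) * (6 - X) * (30 - X) := by
    refine mul_pos (mul_pos ?_ ?_) ?_ <;> linarith
  have n7 : (Y + 6 * X) * (X - 30 - Y - (-6) * X) = ((0 - X) * (6 - X) * (30 - X)) := by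
    linear_combination (-1) * he
  have b7 : Y + 6 * X < 0 := neg_nt (R' := X - 30 - Y - (-6) * X) (by rw [n7]; linarith) (by linarith)
  have q8 : 0 < (0 - X) * (X + 10) * (6 - X) := by
    refine mul_pos (mul_pos ?_ ?_) ?_ <;> linarith
  have n8 : (Y - 2 * X) * (X - 30 - Y - (2) * X) = -((0 - X) * (X + 10) * (6 - X)) := by
    linear_combination (-1) * he
  have b8 : 0 < Y - 2 * X := pos_nb (R' := X - 30 - Y - (2) * X) (by rw [n8]; linarith) (by linarith)
  simp only [Bs, List.map_cons, List.map_nil]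
  rw [sb_of_neg b0, sb_of_neg b1, sb_of_neg b2, sb_of_neg b3, sb_of_pos b4,
    sb_of_neg b5, sb_of_pos b6, sb_of_neg b7, sb_of_pos b8,
    sb_of_pos (by norm_num : (0 : ℝ) < 2), sb_of_pos (by norm_num : (0 : ℝ) < 3),
    sb_of_pos (by norm_num : (0 : ℝ) < 5)]

lemma pat0l (he : Y ^ 2 - X * Y + 30 * Y = X ^ 3 + 6 * X ^ 2) (h1 : -10 < X) (h2 : X < -6) (hp :
    2 * Y - X + 30 < 0) : (Bs X Y).map sb = [true, true, true, true, false, true, false, true,
    true, false, false, false] := by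
  have b0 : X < 0 := by linarith
  have b1 : X + 6 < 0 := by linarith
  have b2 : X - 30 < 0 := by linarith
  have b3 : X - 6 < 0 := by linarith
  have b4 : 0 < X + 10 := by linarith
  have q5 : 0 < (0 - X) * (0 - X) * (-6 - X) := by
    refine mul_pos (mul_pos ?_ ?_) ?_ <;> linarith
  have n5 : Y * (X - 30 - Y - (0) * X) = ((0 - X) * (0 - X) * (-6 - X)) := by
    linear_combination (-1) * he
  have b5 : Y < 0 := neg_nt (R' := X - 30 - Y - (0) * X) (by rw [n5]; linarith) (by linarith)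
  have q6 : 0 < (0 - X) * (30 - X) * (-6 - X) := by
    refine mul_pos (mul_pos ?_ ?_) ?_ <;> linarith
  have n6 : (Y - 6 * X) * (X - 30 - Y - (6) * X) = ((0 - X) * (30 - X) * (-6 - X)) := by
    linear_combination (-1) * he
  have b6 : 0 < Y - 6 * X := pos_nt (R' := X - 30 - Y - (6) * X) (by rw [n6]; linarith) (by linarith)
  have q7 : 0 < (0 - X) * (6 - X) * (30 - X) := by
    refine mul_pos (mul_pos ?_ ?_) ?_ <;> linarith
  have n7 : (Y + 6 * X) * (X - 30 - Y - (-6) * X) = ((0 - X) * (6 - X) * (30 - X)) := by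
    linear_combination (-1) * he
  have b7 : Y + 6 * X < 0 := neg_nt (R' := X - 30 - Y - (-6) * X) (by rw [n7]; linarith) (by linarith)
  have q8 : 0 < (0 - X) * (X + 10) * (6 - X) := by
    refine mul_pos (mul_pos ?_ ?_) ?_ <;> linarith
  have n8 : (Y - 2 * X) * (X - 30 - Y - (2) * X) = -((0 - X) * (X + 10) * (6 - X)) := by
    linear_combination (-1) * he
  have b8 : Y - 2 * X < 0 := neg_nb (R' := X - 30 - Y - (2) * X) (by rw [n8]; linarith) (by linarith)
  simp only [Bs, List.map_cons, List.map_nil]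
  rw [sb_of_neg b0, sb_of_neg b1, sb_of_neg b2, sb_of_neg b3, sb_of_pos b4,
    sb_of_neg b5, sb_of_pos b6, sb_of_neg b7, sb_of_neg b8,
    sb_of_pos (by norm_num : (0 : ℝ) < 2), sb_of_pos (by norm_num : (0 : ℝ) < 3),
    sb_of_pos (by norm_num : (0 : ℝ) < 5)]

lemma pat1u (he : Y ^ 2 - X * Y + 30 * Y = X ^ 3 + 6 * X ^ 2) (h1 : -6 < X) (h2 : X < 0) (hp : 0
    < 2 * Y - X + 30) : (Bs X Y).map sb = [true, false, true, true, false, false, false, true,
    false, false, false, false] := by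
  have b0 : X < 0 := by linarith
  have b1 : 0 < X + 6 := by linarith
  have b2 : X - 30 < 0 := by linarith
  have b3 : X - 6 < 0 := by linarith
  have b4 : 0 < X + 10 := by linarith
  have q5 : 0 < (0 - X) * (0 - X) * (X + 6) := by
    refine mul_pos (mul_pos ?_ ?_) ?_ <;> linarith
  have n5 : Y * (X - 30 - Y - (0) * X) = -((0 - X) * (0 - X) * (X + 6)) := by
    linear_combination (-1) * he
  have b5 : 0 < Y := pos_nb (R' := X - 30 - Y - (0) * X) (by rw [n5]; linarith) (by linarith)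
  have q6 : 0 < (0 - X) * (30 - X) * (X + 6) := by
    refine mul_pos (mul_pos ?_ ?_) ?_ <;> linarith
  have n6 : (Y - 6 * X) * (X - 30 - Y - (6) * X) = -((0 - X) * (30 - X) * (X + 6)) := by
    linear_combination (-1) * he
  have b6 : 0 < Y - 6 * X := pos_nb (R' := X - 30 - Y - (6) * X) (by rw [n6]; linarith) (by linarith)
  have q7 : 0 < (0 - X) * (6 - X) * (30 - X) := by
    refine mul_pos (mul_pos ?_ ?_) ?_ <;> linarith
  have n7 : (Y + 6 * X) * (X - 30 - Y - (-6) * X) = ((0 - X) * (6 - X) * (30 - X)) := by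
    linear_combination (-1) * he
  have b7 : Y + 6 * X < 0 := neg_nt (R' := X - 30 - Y - (-6) * X) (by rw [n7]; linarith) (by linarith)
  have q8 : 0 < (0 - X) * (X + 10) * (6 - X) := by
    refine mul_pos (mul_pos ?_ ?_) ?_ <;> linarith
  have n8 : (Y - 2 * X) * (X - 30 - Y - (2) * X) = -((0 - X) * (X + 10) * (6 - X)) := by
    linear_combination (-1) * he
  have b8 : 0 < Y - 2 * X := pos_nb (R' := X - 30 - Y - (2) * X) (by rw [n8]; linarith) (by linarith)
  simp only [Bs, List.map_cons, List.map_nil]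
  rw [sb_of_neg b0, sb_of_pos b1, sb_of_neg b2, sb_of_neg b3, sb_of_pos b4,
    sb_of_pos b5, sb_of_pos b6, sb_of_neg b7, sb_of_pos b8,
    sb_of_pos (by norm_num : (0 : ℝ) < 2), sb_of_pos (by norm_num : (0 : ℝ) < 3),
    sb_of_pos (by norm_num : (0 : ℝ) < 5)]

lemma pat1l (he : Y ^ 2 - X * Y + 30 * Y = X ^ 3 + 6 * X ^ 2) (h1 : -6 < X) (h2 : X < 0) (hp : 2
    * Y - X + 30 < 0) : (Bs X Y).map sb = [true, false, true, true, false, true, true, true,
    true, false, false, false] := by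
  have b0 : X < 0 := by linarith
  have b1 : 0 < X + 6 := by linarith
  have b2 : X - 30 < 0 := by linarith
  have b3 : X - 6 < 0 := by linarith
  have b4 : 0 < X + 10 := by linarith
  have q5 : 0 < (0 - X) * (0 - X) * (X + 6) := by
    refine mul_pos (mul_pos ?_ ?_) ?_ <;> linarith
  have n5 : Y * (X - 30 - Y - (0) * X) = -((0 - X) * (0 - X) * (X + 6)) := by
    linear_combination (-1) * he
  have b5 : Y < 0 := neg_nb (R' := X - 30 - Y - (0) * X) (by rw [n5]; linarith) (by linarith)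
  have q6 : 0 < (0 - X) * (30 - X) * (X + 6) := by
    refine mul_pos (mul_pos ?_ ?_) ?_ <;> linarith
  have n6 : (Y - 6 * X) * (X - 30 - Y - (6) * X) = -((0 - X) * (30 - X) * (X + 6)) := by
    linear_combination (-1) * he
  have b6 : Y - 6 * X < 0 := neg_nb (R' := X - 30 - Y - (6) * X) (by rw [n6]; linarith) (by linarith)
  have q7 : 0 < (0 - X) * (6 - X) * (30 - X) := by
    refine mul_pos (mul_pos ?_ ?_) ?_ <;> linarith
  have n7 : (Y + 6 * X) * (X - 30 - Y - (-6) * X) = ((0 - X) * (6 - X) * (30 - X)) := by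
    linear_combination (-1) * he
  have b7 : Y + 6 * X < 0 := neg_nt (R' := X - 30 - Y - (-6) * X) (by rw [n7]; linarith) (by linarith)
  have q8 : 0 < (0 - X) * (X + 10) * (6 - X) := by
    refine mul_pos (mul_pos ?_ ?_) ?_ <;> linarith
  have n8 : (Y - 2 * X) * (X - 30 - Y - (2) * X) = -((0 - X) * (X + 10) * (6 - X)) := by
    linear_combination (-1) * he
  have b8 : Y - 2 * X < 0 := neg_nb (R' := X - 30 - Y - (2) * X) (by rw [n8]; linarith) (by linarith)
  simp only [Bs, List.map_cons, List.map_nil]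
  rw [sb_of_neg b0, sb_of_pos b1, sb_of_neg b2, sb_of_neg b3, sb_of_pos b4,
    sb_of_neg b5, sb_of_neg b6, sb_of_neg b7, sb_of_neg b8,
    sb_of_pos (by norm_num : (0 : ℝ) < 2), sb_of_pos (by norm_num : (0 : ℝ) < 3),
    sb_of_pos (by norm_num : (0 : ℝ) < 5)]

lemma pat2u (he : Y ^ 2 - X * Y + 30 * Y = X ^ 3 + 6 * X ^ 2) (h1 : 0 < X) (h2 : X < 6) (hp : 0
    < 2 * Y - X + 30) : (Bs X Y).map sb = [false, false, true, true, false, false, true, false,
    true, false, false, false] := by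
  have b0 : 0 < X := by linarith
  have b1 : 0 < X + 6 := by linarith
  have b2 : X - 30 < 0 := by linarith
  have b3 : X - 6 < 0 := by linarith
  have b4 : 0 < X + 10 := by linarith
  have q5 : 0 < X * X * (X + 6) := by
    refine mul_pos (mul_pos ?_ ?_) ?_ <;> linarith
  have n5 : Y * (X - 30 - Y - (0) * X) = -(X * X * (X + 6)) := by
    linear_combination (-1) * he
  have b5 : 0 < Y := pos_nb (R' := X - 30 - Y - (0) * X) (by rw [n5]; linarith) (by linarith)
  have q6 : 0 < X * (30 - X) * (X + 6) := by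
    refine mul_pos (mul_pos ?_ ?_) ?_ <;> linarith
  have n6 : (Y - 6 * X) * (X - 30 - Y - (6) * X) = (X * (30 - X) * (X + 6)) := by
    linear_combination (-1) * he
  have b6 : Y - 6 * X < 0 := neg_nt (R' := X - 30 - Y - (6) * X) (by rw [n6]; linarith) (by linarith)
  have q7 : 0 < X * (6 - X) * (30 - X) := by
    refine mul_pos (mul_pos ?_ ?_) ?_ <;> linarith
  have n7 : (Y + 6 * X) * (X - 30 - Y - (-6) * X) = -(X * (6 - X) * (30 - X)) := by
    linear_combination (-1) * he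
  have b7 : 0 < Y + 6 * X := pos_nb (R' := X - 30 - Y - (-6) * X) (by rw [n7]; linarith) (by linarith)
  have q8 : 0 < X * (X + 10) * (6 - X) := by
    refine mul_pos (mul_pos ?_ ?_) ?_ <;> linarith
  have n8 : (Y - 2 * X) * (X - 30 - Y - (2) * X) = (X * (X + 10) * (6 - X)) := by
    linear_combination (-1) * he
  have b8 : Y - 2 * X < 0 := neg_nt (R' := X - 30 - Y - (2) * X) (by rw [n8]; linarith) (by linarith)
  simp only [Bs, List.map_cons, List.map_nil]
  rw [sb_of_pos b0, sb_of_pos b1, sb_of_neg b2, sb_of_neg b3, sb_of_pos b4,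
    sb_of_pos b5, sb_of_neg b6, sb_of_pos b7, sb_of_neg b8,
    sb_of_pos (by norm_num : (0 : ℝ) < 2), sb_of_pos (by norm_num : (0 : ℝ) < 3),
    sb_of_pos (by norm_num : (0 : ℝ) < 5)]

lemma pat2l (he : Y ^ 2 - X * Y + 30 * Y = X ^ 3 + 6 * X ^ 2) (h1 : 0 < X) (h2 : X < 6) (hp : 2
    * Y - X + 30 < 0) : (Bs X Y).map sb = [false, false, true, true, false, true, true, true,
    true, false, false, false] := by
  have b0 : 0 < X := by linarith
  have b1 : 0 < X + 6 := by linarith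
  have b2 : X - 30 < 0 := by linarith
  have b3 : X - 6 < 0 := by linarith
  have b4 : 0 < X + 10 := by linarith
  have q5 : 0 < X * X * (X + 6) := by
    refine mul_pos (mul_pos ?_ ?_) ?_ <;> linarith
  have n5 : Y * (X - 30 - Y - (0) * X) = -(X * X * (X + 6)) := by
    linear_combination (-1) * he
  have b5 : Y < 0 := neg_nb (R' := X - 30 - Y - (0) * X) (by rw [n5]; linarith) (by linarith)
  have q6 : 0 < X * (30 - X) * (X + 6) := by
    refine mul_pos (mul_pos ?_ ?_) ?_ <;> linarith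
  have n6 : (Y - 6 * X) * (X - 30 - Y - (6) * X) = (X * (30 - X) * (X + 6)) := by
    linear_combination (-1) * he
  have b6 : Y - 6 * X < 0 := neg_nt (R' := X - 30 - Y - (6) * X) (by rw [n6]; linarith) (by linarith)
  have q7 : 0 < X * (6 - X) * (30 - X) := by
    refine mul_pos (mul_pos ?_ ?_) ?_ <;> linarith
  have n7 : (Y + 6 * X) * (X - 30 - Y - (-6) * X) = -(X * (6 - X) * (30 - X)) := by
    linear_combination (-1) * he
  have b7 : Y + 6 * X < 0 := neg_nb (R' := X - 30 - Y - (-6) * X) (by rw [n7]; linarith) (by linarith)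
  have q8 : 0 < X * (X + 10) * (6 - X) := by
    refine mul_pos (mul_pos ?_ ?_) ?_ <;> linarith
  have n8 : (Y - 2 * X) * (X - 30 - Y - (2) * X) = (X * (X + 10) * (6 - X)) := by
    linear_combination (-1) * he
  have b8 : Y - 2 * X < 0 := neg_nt (R' := X - 30 - Y - (2) * X) (by rw [n8]; linarith) (by linarith)
  simp only [Bs, List.map_cons, List.map_nil]
  rw [sb_of_pos b0, sb_of_pos b1, sb_of_neg b2, sb_of_neg b3, sb_of_pos b4,
    sb_of_neg b5, sb_of_neg b6, sb_of_neg b7, sb_of_neg b8,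
    sb_of_pos (by norm_num : (0 : ℝ) < 2), sb_of_pos (by norm_num : (0 : ℝ) < 3),
    sb_of_pos (by norm_num : (0 : ℝ) < 5)]

lemma pat3u (he : Y ^ 2 - X * Y + 30 * Y = X ^ 3 + 6 * X ^ 2) (h1 : 6 < X) (h2 : X < 30) (hp : 0
    < 2 * Y - X + 30) : (Bs X Y).map sb = [false, false, true, false, false, false, true, false,
    false, false, false, false] := by
  have b0 : 0 < X := by linarith
  have b1 : 0 < X + 6 := by linarith
  have b2 : X - 30 < 0 := by linarith
  have b3 : 0 < X - 6 := by linarith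
  have b4 : 0 < X + 10 := by linarith
  have q5 : 0 < X * X * (X + 6) := by
    refine mul_pos (mul_pos ?_ ?_) ?_ <;> linarith
  have n5 : Y * (X - 30 - Y - (0) * X) = -(X * X * (X + 6)) := by
    linear_combination (-1) * he
  have b5 : 0 < Y := pos_nb (R' := X - 30 - Y - (0) * X) (by rw [n5]; linarith) (by linarith)
  have q6 : 0 < X * (30 - X) * (X + 6) := by
    refine mul_pos (mul_pos ?_ ?_) ?_ <;> linarith
  have n6 : (Y - 6 * X) * (X - 30 - Y - (6) * X) = (X * (30 - X) * (X + 6)) := by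
    linear_combination (-1) * he
  have b6 : Y - 6 * X < 0 := neg_nt (R' := X - 30 - Y - (6) * X) (by rw [n6]; linarith) (by linarith)
  have q7 : 0 < X * (X - 6) * (30 - X) := by
    refine mul_pos (mul_pos ?_ ?_) ?_ <;> linarith
  have n7 : (Y + 6 * X) * (X - 30 - Y - (-6) * X) = (X * (X - 6) * (30 - X)) := by
    linear_combination (-1) * he
  have b7 : 0 < Y + 6 * X := pos_nt (R' := X - 30 - Y - (-6) * X) (by rw [n7]; linarith) (by linarith)
  have q8 : 0 < X * (X + 10) * (X - 6) := by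
    refine mul_pos (mul_pos ?_ ?_) ?_ <;> linarith
  have n8 : (Y - 2 * X) * (X - 30 - Y - (2) * X) = -(X * (X + 10) * (X - 6)) := by
    linear_combination (-1) * he
  have b8 : 0 < Y - 2 * X := pos_nb (R' := X - 30 - Y - (2) * X) (by rw [n8]; linarith) (by linarith)
  simp only [Bs, List.map_cons, List.map_nil]
  rw [sb_of_pos b0, sb_of_pos b1, sb_of_neg b2, sb_of_pos b3, sb_of_pos b4,
    sb_of_pos b5, sb_of_neg b6, sb_of_pos b7, sb_of_pos b8,
    sb_of_pos (by norm_num : (0 : ℝ) < 2), sb_of_pos (by norm_num : (0 : ℝ) < 3),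
    sb_of_pos (by norm_num : (0 : ℝ) < 5)]

lemma pat3l (he : Y ^ 2 - X * Y + 30 * Y = X ^ 3 + 6 * X ^ 2) (h1 : 6 < X) (h2 : X < 30) (hp : 2
    * Y - X + 30 < 0) : (Bs X Y).map sb = [false, false, true, false, false, true, true, false,
    true, false, false, false] := by
  have b0 : 0 < X := by linarith
  have b1 : 0 < X + 6 := by linarith
  have b2 : X - 30 < 0 := by linarith
  have b3 : 0 < X - 6 := by linarith
  have b4 : 0 < X + 10 := by linarith
  have q5 : 0 < X * X * (X + 6) := by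
    refine mul_pos (mul_pos ?_ ?_) ?_ <;> linarith
  have n5 : Y * (X - 30 - Y - (0) * X) = -(X * X * (X + 6)) := by
    linear_combination (-1) * he
  have b5 : Y < 0 := neg_nb (R' := X - 30 - Y - (0) * X) (by rw [n5]; linarith) (by linarith)
  have q6 : 0 < X * (30 - X) * (X + 6) := by
    refine mul_pos (mul_pos ?_ ?_) ?_ <;> linarith
  have n6 : (Y - 6 * X) * (X - 30 - Y - (6) * X) = (X * (30 - X) * (X + 6)) := by
    linear_combination (-1) * he
  have b6 : Y - 6 * X < 0 := neg_nt (R' := X - 30 - Y - (6) * X) (by rw [n6]; linarith) (by linarith)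
  have q7 : 0 < X * (X - 6) * (30 - X) := by
    refine mul_pos (mul_pos ?_ ?_) ?_ <;> linarith
  have n7 : (Y + 6 * X) * (X - 30 - Y - (-6) * X) = (X * (X - 6) * (30 - X)) := by
    linear_combination (-1) * he
  have b7 : 0 < Y + 6 * X := pos_nt (R' := X - 30 - Y - (-6) * X) (by rw [n7]; linarith) (by linarith)
  have q8 : 0 < X * (X + 10) * (X - 6) := by
    refine mul_pos (mul_pos ?_ ?_) ?_ <;> linarith
  have n8 : (Y - 2 * X) * (X - 30 - Y - (2) * X) = -(X * (X + 10) * (X - 6)) := by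
    linear_combination (-1) * he
  have b8 : Y - 2 * X < 0 := neg_nb (R' := X - 30 - Y - (2) * X) (by rw [n8]; linarith) (by linarith)
  simp only [Bs, List.map_cons, List.map_nil]
  rw [sb_of_pos b0, sb_of_pos b1, sb_of_neg b2, sb_of_pos b3, sb_of_pos b4,
    sb_of_neg b5, sb_of_neg b6, sb_of_pos b7, sb_of_neg b8,
    sb_of_pos (by norm_num : (0 : ℝ) < 2), sb_of_pos (by norm_num : (0 : ℝ) < 3),
    sb_of_pos (by norm_num : (0 : ℝ) < 5)]

lemma pat4u (he : Y ^ 2 - X * Y + 30 * Y = X ^ 3 + 6 * X ^ 2) (h1 : 30 < X) (hp : 0 < 2 * Y - X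
    + 30) : (Bs X Y).map sb = [false, false, false, false, false, false, false, false, false,
    false, false, false] := by
  have b0 : 0 < X := by linarith
  have b1 : 0 < X + 6 := by linarith
  have b2 : 0 < X - 30 := by linarith
  have b3 : 0 < X - 6 := by linarith
  have b4 : 0 < X + 10 := by linarith
  have q5 : 0 < X * X * (X + 6) := by
    refine mul_pos (mul_pos ?_ ?_) ?_ <;> linarith
  have n5 : Y * (X - 30 - Y - (0) * X) = -(X * X * (X + 6)) := by
    linear_combination (-1) * he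
  have b5 : 0 < Y := pos_nb (R' := X - 30 - Y - (0) * X) (by rw [n5]; linarith) (by linarith)
  have q6 : 0 < X * (X - 30) * (X + 6) := by
    refine mul_pos (mul_pos ?_ ?_) ?_ <;> linarith
  have n6 : (Y - 6 * X) * (X - 30 - Y - (6) * X) = -(X * (X - 30) * (X + 6)) := by
    linear_combination (-1) * he
  have b6 : 0 < Y - 6 * X := pos_nb (R' := X - 30 - Y - (6) * X) (by rw [n6]; linarith) (by linarith)
  have q7 : 0 < X * (X - 6) * (X - 30) := by
    refine mul_pos (mul_pos ?_ ?_) ?_ <;> linarith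
  have n7 : (Y + 6 * X) * (X - 30 - Y - (-6) * X) = -(X * (X - 6) * (X - 30)) := by
    linear_combination (-1) * he
  have b7 : 0 < Y + 6 * X := pos_nb (R' := X - 30 - Y - (-6) * X) (by rw [n7]; linarith) (by linarith)
  have q8 : 0 < X * (X + 10) * (X - 6) := by
    refine mul_pos (mul_pos ?_ ?_) ?_ <;> linarith
  have n8 : (Y - 2 * X) * (X - 30 - Y - (2) * X) = -(X * (X + 10) * (X - 6)) := by
    linear_combination (-1) * he
  have b8 : 0 < Y - 2 * X := pos_nb (R' := X - 30 - Y - (2) * X) (by rw [n8]; linarith) (by linarith)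
  simp only [Bs, List.map_cons, List.map_nil]
  rw [sb_of_pos b0, sb_of_pos b1, sb_of_pos b2, sb_of_pos b3, sb_of_pos b4,
    sb_of_pos b5, sb_of_pos b6, sb_of_pos b7, sb_of_pos b8,
    sb_of_pos (by norm_num : (0 : ℝ) < 2), sb_of_pos (by norm_num : (0 : ℝ) < 3),
    sb_of_pos (by norm_num : (0 : ℝ) < 5)]

lemma pat4l (he : Y ^ 2 - X * Y + 30 * Y = X ^ 3 + 6 * X ^ 2) (h1 : 30 < X) (hp : 2 * Y - X + 30
    < 0) : (Bs X Y).map sb = [false, false, false, false, false, true, true, true, true, false,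
    false, false] := by
  have b0 : 0 < X := by linarith
  have b1 : 0 < X + 6 := by linarith
  have b2 : 0 < X - 30 := by linarith
  have b3 : 0 < X - 6 := by linarith
  have b4 : 0 < X + 10 := by linarith
  have q5 : 0 < X * X * (X + 6) := by
    refine mul_pos (mul_pos ?_ ?_) ?_ <;> linarith
  have n5 : Y * (X - 30 - Y - (0) * X) = -(X * X * (X + 6)) := by
    linear_combination (-1) * he
  have b5 : Y < 0 := neg_nb (R' := X - 30 - Y - (0) * X) (by rw [n5]; linarith) (by linarith)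
  have q6 : 0 < X * (X - 30) * (X + 6) := by
    refine mul_pos (mul_pos ?_ ?_) ?_ <;> linarith
  have n6 : (Y - 6 * X) * (X - 30 - Y - (6) * X) = -(X * (X - 30) * (X + 6)) := by
    linear_combination (-1) * he
  have b6 : Y - 6 * X < 0 := neg_nb (R' := X - 30 - Y - (6) * X) (by rw [n6]; linarith) (by linarith)
  have q7 : 0 < X * (X - 6) * (X - 30) := by
    refine mul_pos (mul_pos ?_ ?_) ?_ <;> linarith
  have n7 : (Y + 6 * X) * (X - 30 - Y - (-6) * X) = -(X * (X - 6) * (X - 30)) := by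
    linear_combination (-1) * he
  have b7 : Y + 6 * X < 0 := neg_nb (R' := X - 30 - Y - (-6) * X) (by rw [n7]; linarith) (by linarith)
  have q8 : 0 < X * (X + 10) * (X - 6) := by
    refine mul_pos (mul_pos ?_ ?_) ?_ <;> linarith
  have n8 : (Y - 2 * X) * (X - 30 - Y - (2) * X) = -(X * (X + 10) * (X - 6)) := by
    linear_combination (-1) * he
  have b8 : Y - 2 * X < 0 := neg_nb (R' := X - 30 - Y - (2) * X) (by rw [n8]; linarith) (by linarith)
  simp only [Bs, List.map_cons, List.map_nil]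
  rw [sb_of_pos b0, sb_of_pos b1, sb_of_pos b2, sb_of_pos b3, sb_of_pos b4,
    sb_of_neg b5, sb_of_neg b6, sb_of_neg b7, sb_of_neg b8,
    sb_of_pos (by norm_num : (0 : ℝ) < 2), sb_of_pos (by norm_num : (0 : ℝ) < 3),
    sb_of_pos (by norm_num : (0 : ℝ) < 5)]

theorem pat_mem (hB : ∀ b ∈ Bs X Y, b ≠ 0) (he : Y ^ 2 - X * Y + 30 * Y = X ^ 3 + 6 * X ^ 2) :
    (Bs X Y).map sb ∈ pats := by
  obtain ⟨h0, hp⟩ := X_gt hB he
  have b0 : X ≠ 0 := hB _ (by simp [Bs])
  have b1 : X + 6 ≠ 0 := hB _ (by simp [Bs])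
  have b2 : X - 30 ≠ 0 := hB _ (by simp [Bs])
  have b3 : X - 6 ≠ 0 := hB _ (by simp [Bs])
  unfold pats
  rcases lt_or_gt_of_ne b1 with h1 | h1
  · rcases lt_or_gt_of_ne hp with h | h
    · rw [pat0l he h0 (by linarith) h]; simp
    · rw [pat0u he h0 (by linarith) h]; simp
  rcases lt_or_gt_of_ne b0 with h2 | h2
  · rcases lt_or_gt_of_ne hp with h | h
    · rw [pat1l he (by linarith) h2 h]; simp
    · rw [pat1u he (by linarith) h2 h]; simp
  rcases lt_or_gt_of_ne b3 with h3 | h3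
  · rcases lt_or_gt_of_ne hp with h | h
    · rw [pat2l he h2 (by linarith) h]; simp
    · rw [pat2u he h2 (by linarith) h]; simp
  rcases lt_or_gt_of_ne b2 with h4 | h4
  · rcases lt_or_gt_of_ne hp with h | h
    · rw [pat3l he (by linarith) (by linarith) h]; simp
    · rw [pat3u he (by linarith) (by linarith) h]; simp
  · rcases lt_or_gt_of_ne hp with h | h
    · rw [pat4l he (by linarith) h]; simp
    · rw [pat4u he (by linarith) h]; simp

/-- the point with positive units is on the arc -/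
theorem arc_of (he : Y ^ 2 - X * Y + 30 * Y = X ^ 3 + 6 * X ^ 2) (hB : ∀ b ∈ Bs X Y, b ≠ 0)
    (h : (Bs X Y).map sb = List.replicate 12 false) : Arc X Y := by
  have hpos : ∀ b ∈ Bs X Y, 0 < b := by
    intro b hb
    have h1 : sb b ∈ (Bs X Y).map sb := List.mem_map_of_mem hb
    rw [h] at h1
    have h2 := List.eq_of_mem_replicate h1
    rcases lt_or_gt_of_ne (hB b hb) with h3 | h3
    · rw [sb_of_neg h3] at h2
      exact absurd h2 (by decide)
    · exact h3
  have hX : 0 < X - 30 := hpos _ (by simp [Bs])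
  have hY : 0 < Y := hpos _ (by simp [Bs])
  refine ⟨he, by linarith, ?_, hpos _ (by simp [Bs]), hpos _ (by simp [Bs]), ?_⟩
  · by_contra hh
    push Not at hh
    have h1 : Y ^ 2 ≤ 180 * 180 := by nlinarith
    have h2 : 0 ≤ (X - 30) * Y := mul_nonneg hX.le hY.le
    have h3 : 0 < (X - 30) ^ 3 + 96 * (X - 30) ^ 2 + 3060 * (X - 30) := by positivity
    nlinarith
  · by_contra hh
    push Not at hh
    have h1 : Y ≤ (X - 30) / 2 := by linarith
    have h2 : Y * (Y - (X - 30)) ≤ 0 := mul_nonpos_of_nonneg_of_nonpos hY.le (by linarith)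
    have h3 : 0 < X ^ 3 + 6 * X ^ 2 := by
      have : 0 < X := by linarith
      positivity
    nlinarith

end

end Q10B

end Pool.Agent.K4N
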