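import Pool.Agent.Lib_helper2.K4N.LA

set_option autoImplicit false
set_option maxRecDepth 100000

/-!
The exponent vectors of the class at `t = -1`, order ten, and its decomposition.
-/

namespace Pool.Agent.K4N.Q10B

open LA

/-- the translation by `P` on the exponents -/
def A10 : List (List ℤ) :=
  [[-2, 0, 0, 0, 0, 1, 0, 0, 0, 1, 1, 1],
   [-2, -1, 0, 0, 0, 1, 1, 0, 0, 1, 1, 0],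
   [-2, 0, -1, 0, 0, 0, 1, 1, 0, 1, 1, 1],
   [-2, 0, 0, -1, 0, 0, 0, 1, 1, 1, 1, 0],
   [-2, 0, 0, 0, -1, 0, 0, 0, 2, 1, 0, 1],
   [-3, -1, 0, 0, 0, 1, 1, 0, 0, 2, 2, 1],
   [-3, -1, -1, 0, 0, 1, 1, 1, 0, 2, 2, 1],
   [-3, 0, -1, -1, 0, 0, 1, 1, 1, 2, 2, 1],
   [-3, 0, 0, -1, -1, 0, 0, 1, 2, 2, 1, 1],
   [0, 0, 0, 0, 0, 0, 0, 0, 0, 1, 0, 0],
   [0, 0, 0, 0, 0, 0, 0, 0, 0, 0, 1, 0],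
   [0, 0, 0, 0, 0, 0, 0, 0, 0, 0, 0, 1]]

/-- the four terms -/
def tm0 : List Tm :=
  [⟨[2, 1, 0, 0, 0, -1, -1, 0, 0, 1, 0, 0], [0, 1, 0, -1, 0, -1, -1, 1, 1, 0, 0, 0], [0, 4, -2, -1,
    2, 2, 0, -3, 1, -3, -1, 0]⟩,
   ⟨[2, 0, 0, 0, 0, -1, 0, 0, 0, 0, 0, -1], [0, -1, 0, 0, 0, 0, 1, 0, 0, 0, 0, -1], [0, -30, 30,
    18, -18, -6, -12, 24, -18, 12, -6, 0]⟩,
   ⟨[3, 0, 0, 0, 0, -2, 0, 0, 0, 1, 1, -1], [0, -1, 1, 0, 0, -1, 1, 0, 0, 0, 0, -1], [0, -1, 0, 0,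
    -2, 12, 1, -22, 13, 3, 3, -2]⟩,
   ⟨[-1, -2, 0, 0, 0, 2, 0, 0, 0, 1, 1, -1], [-1, -1, 2, 0, 0, 1, -1, 0, 0, 0, 0, -1], [-16, -12,
    21, 9, -11, 12, 1, -22, 13, -3, -3, 2]⟩]

/-- the forty terms -/
def L1 : List Tm := orb A10 10 tm0

/-- the forty terms, explicitly -/
def L1e : List Tm :=
  [⟨[2, 1, 0, 0, 0, -1, -1, 0, 0, 1, 0, 0], [0, 1, 0, -1, 0, -1, -1, 1, 1, 0, 0, 0], [0, 4, -2,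
   -1, 2, 2, 0, -3, 1, -3, -1, 0]⟩,
   ⟨[2, 0, 0, 0, 0, -1, 0, 0, 0, 0, 0, -1], [0, -1, 0, 0, 0, 0, 1, 0, 0, 0, 0, -1], [0, -30, 30,
   18, -18, -6, -12, 24, -18, 12, -6, 0]⟩,
   ⟨[3, 0, 0, 0, 0, -2, 0, 0, 0, 1, 1, -1], [0, -1, 1, 0, 0, -1, 1, 0, 0, 0, 0, -1], [0, -1, 0, 0,
   -2, 12, 1, -22, 13, 3, 3, -2]⟩,
   ⟨[-1, -2, 0, 0, 0, 2, 0, 0, 0, 1, 1, -1], [-1, -1, 2, 0, 0, 1, -1, 0, 0, 0, 0, -1], [-16, -12,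
   21, 9, -11, 12, 1, -22, 13, -3, -3, 2]⟩,
   ⟨[0, 1, 1, 0, 0, 1, -1, -1, 0, 0, -1, 0], [0, 1, 0, -1, -1, -1, 0, 0, 2, 0, -1, 0], [-6, -6, 5,
   3, -3, 6, 1, -5, 2, 0, -1, 0]⟩,
   ⟨[-1, 1, 0, 0, 0, 1, -1, 0, 0, 0, 0, 0], [-1, 0, -1, 0, 0, 0, 0, 1, 0, 1, 1, 0], [36, 48, -42,
   -24, 36, -48, 6, 42, -30, -12, 6, 0]⟩,
   ⟨[0, 2, 0, 0, 0, 1, -2, 0, 0, 0, 0, 0], [0, 1, -2, 0, 0, -1, 0, 2, 0, 0, 0, 0], [-6, -12, 21, 9,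
   -11, 12, -10, -8, 0, 8, -3, 0]⟩,
   ⟨[0, 0, 0, 0, 0, -1, 0, 0, 0, 2, 2, 0], [0, 1, -1, 0, 0, -2, 1, 1, 0, 0, 0, 0], [6, -1, 0, 0,
   -2, -15, 0, 22, -9, -4, -6, 0]⟩,
   ⟨[-1, -1, 1, 1, 0, 1, 1, -1, -1, 0, -1, 0], [-1, 0, 0, -1, -1, 0, 0, 1, 1, 1, -1, 0], [2, -1,
   -1, 0, 1, -5, 1, 6, -4, 1, 1, 0]⟩,
   ⟨[0, -1, 1, 0, 0, 0, 1, -1, 0, 0, 0, -1], [1, 0, 0, -1, 0, -1, 0, 0, 1, 1, 1, -1], [-18, -6, -6,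
   12, -6, 42, 6, -48, 30, -18, -6, 0]⟩,
   ⟨[-1, -1, 2, 0, 0, 1, 1, -2, 0, 0, 0, -1], [-1, 0, 0, -2, 0, 0, 0, 0, 2, 1, 1, -1], [16, 10, -3,
   -1, 11, -16, 3, 12, -21, -3, -3, -2]⟩,
   ⟨[3, 1, 0, 0, 0, -1, -1, 0, 0, 0, 0, -1], [0, 0, -1, -1, 0, 0, 0, 1, 1, 0, 0, -1], [0, 16, -22,
   -13, 11, -10, 6, 13, 0, -5, 4, 2]⟩,
   ⟨[0, -1, -1, 1, 1, 0, 1, 1, -2, 0, 0, 0], [0, 0, -1, -1, 0, -1, 1, 1, 0, 2, 0, 0], [4, 5, -6,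
   -2, 3, -3, 0, 2, 0, -2, 1, 0]⟩,
   ⟨[0, 0, -1, 1, 0, 0, 0, 1, -1, 0, 0, 0], [0, 1, 0, 0, -1, 0, -1, 0, 1, 1, 0, 0], [-42, -42, 48,
   6, -24, 24, -12, -6, 12, 18, 6, 0]⟩,
   ⟨[0, -1, -1, 2, 0, 0, 1, 1, -2, 0, 0, 0], [0, 0, 0, 0, -2, -1, 0, 0, 2, 2, 0, 0], [0, 3, -12,
   10, 10, 13, 6, -10, -9, -14, -4, 0]⟩,
   ⟨[-2, 1, 1, 0, 0, 2, -1, -1, 0, 0, 0, 0], [-2, 0, 0, -1, -1, 0, 0, 0, 2, 2, 1, 0], [-11, -12, 3,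
   0, -11, 12, 3, -16, 22, 5, 3, 0]⟩,
   ⟨[0, 0, -1, 0, 1, 0, 0, 0, 0, 0, 1, 0], [1, 0, -1, 0, 0, 0, 0, 0, 0, 2, 0, 0], [-5, -2, 4, 0,
   -3, 6, -2, -6, 6, 0, 0, 0]⟩,
   ⟨[0, 0, 0, -1, 1, 0, 0, 0, 0, 0, 1, -1], [0, 0, 1, -1, 0, 0, 0, 0, 0, 1, 0, -1], [54, 30, -30,
   -12, 12, -72, 12, 48, -24, 0, 0, 0]⟩,
   ⟨[0, 0, -1, -1, 2, 0, 0, 1, -1, 0, 2, -1], [1, 1, 0, -2, 0, -1, -1, 2, 0, 2, 0, -1], [-22, -22,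
   16, 9, -1, 22, 0, -15, 2, -3, 6, -2]⟩,
   ⟨[0, -2, 1, 1, 0, 0, 2, -1, -1, 0, 0, -1], [2, 0, 0, -1, -1, -2, 0, 1, 1, 2, 0, -1], [-1, -3,
   10, -6, -11, -8, -10, 12, 6, 16, 3, 2]⟩,
   ⟨[0, 0, 1, 0, -1, 0, -1, -1, 2, 0, 0, 0], [0, 0, 1, 0, 0, 1, -1, -1, 0, 2, 0, 0], [0, -2, 4, 0,
   -3, -3, 0, 2, 0, 2, -1, 0]⟩,
   ⟨[0, 0, 0, 1, -1, 0, 0, -1, 1, 0, 0, 0], [0, 0, -1, 1, 0, 0, 1, 0, -1, 1, 0, 0], [0, 30, -30,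
   -12, 12, 24, -12, -6, 12, -18, -6, 0]⟩,
   ⟨[0, 0, 0, 1, -1, 0, 0, -2, 2, 0, 1, 0], [0, 1, -1, 0, 0, 0, 1, -1, 0, 2, 0, 0], [13, 0, -1, 4,
   -1, -22, 1, 12, -4, -5, 3, 0]⟩,
   ⟨[0, 0, -2, 1, 1, 0, 0, 2, -2, 0, 1, 0], [0, 2, -1, -1, 0, 0, -1, 1, 0, 2, 0, 0], [22, 21, -12,
   -12, 5, -22, 1, 12, -4, 5, -3, 0]⟩,
   ⟨[0, 1, 1, -1, -1, -1, -1, 1, 1, 0, -1, 0], [1, 0, 1, 1, 0, 0, 0, -1, -1, 1, -1, 0], [5, 5, -6,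
   -2, 3, -5, 1, 6, -4, -1, -1, 0]⟩,
   ⟨[0, 0, 1, -1, 0, 0, -1, 1, 0, 0, 0, -1], [0, -1, 0, 0, 1, 1, 0, 0, -1, 1, 1, -1], [-54, -42,
   48, 6, -24, 42, 6, -48, 30, 18, 6, 0]⟩,
   ⟨[0, 0, 2, -1, -1, 0, -2, 1, 1, 0, 0, -1], [0, -2, 1, 1, 0, 2, 0, -1, -1, 2, 0, -1], [9, 21,
   -12, -12, 5, -8, -10, 12, 6, -16, -3, -2]⟩,
   ⟨[0, 0, 0, -1, 1, 0, 0, -1, 1, 0, 2, -1], [0, -1, 1, 0, 0, 1, 1, -2, 0, 2, 0, -1], [-9, 0, -1,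
   4, -1, 22, 0, -15, 2, 3, -6, 2]⟩,
   ⟨[0, 1, -1, -1, 0, -1, 1, 1, 0, 0, -1, 0], [0, 0, 0, 1, 1, 1, 0, 0, -2, 0, -1, 0], [-4, -1, -1,
   0, 1, 6, 1, -5, 2, 0, 1, 0]⟩,
   ⟨[0, 1, -1, 0, 0, -1, 1, 0, 0, 0, 0, 0], [0, 0, 0, 1, 0, 0, 0, -1, 0, 1, 1, 0], [42, -6, -6, 12,
   -6, -48, 6, 42, -30, 12, -6, 0]⟩,
   ⟨[0, 2, -1, -1, 0, -2, 1, 1, 0, 0, 0, 0], [0, 0, 0, 1, 1, 0, 0, 0, -2, 2, 1, 0], [-22, -3, 10,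
   -6, -11, 12, 3, -16, 22, -5, -3, 0]⟩,
   ⟨[0, 0, 1, 1, -2, 0, -1, -1, 2, 0, 0, 0], [0, -1, 0, 2, 0, 1, 0, 0, -2, 2, 0, 0], [-13, -22, 16,
   9, -1, 13, 6, -10, -9, 14, 4, 0]⟩,
   ⟨[-1, -1, -1, 0, 0, 1, 1, 0, 0, 1, 0, 0], [-1, -1, 0, 1, 1, 1, 1, -1, -1, 0, 0, 0], [-2, -6, 5,
   3, -3, 2, 0, -3, 1, 3, 1, 0]⟩,
   ⟨[0, -1, 0, 0, 0, 1, 0, 0, 0, 0, 0, -1], [1, 0, 1, 0, 0, 0, -1, 0, 0, 0, 0, -1], [18, 48, -42,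
   -24, 36, -6, -12, 24, -18, -12, 6, 0]⟩,
   ⟨[0, -1, -1, 0, 0, 1, 1, 0, 0, 0, 0, -1], [2, 0, 0, 1, 1, 0, 0, -1, -1, 0, 0, -1], [1, -12, 3,
   0, -11, -10, 6, 13, 0, 5, -4, -2]⟩,
   ⟨[0, 1, 1, -2, 0, -1, -1, 2, 0, 0, 0, -1], [1, 0, 0, 0, 2, 0, 0, 0, -2, 1, 1, -1], [22, 3, -12,
   10, 10, -16, 3, 12, -21, 3, 3, 2]⟩,
   ⟨[0, -1, 0, 0, 0, 0, 0, 0, 0, 2, 1, 0], [0, -1, 0, 1, 0, 0, 0, 0, 0, 0, 0, 0], [6, 4, -2, -1, 2,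
   -6, -2, 6, -4, 0, 0, 0]⟩,
   ⟨[-1, 0, 0, 0, 0, 0, 0, 0, 0, 1, 1, 0], [-1, 1, 0, 0, 0, 0, 0, 0, 0, 0, 0, 0], [-36, -30, 30,
   18, -18, 48, 12, -72, 36, 0, 0, 0]⟩,
   ⟨[-2, -1, 0, 0, 0, 1, 0, 0, 0, 2, 2, 0], [-2, 0, 1, 1, 0, 2, -1, -1, 0, 0, 0, 0], [11, 16, -22,
   -13, 11, -15, 0, 22, -9, 4, 6, 0]⟩,
   ⟨[0, 1, -2, 0, 0, -1, 2, 0, 0, 0, 0, 0], [0, 0, 0, 2, 0, 1, 0, -2, 0, 0, 0, 0], [0, 10, -3, -1,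
   11, 12, -10, -8, 0, -8, 3, 0]⟩]

theorem L1_eq : L1 = L1e := by decide +kernel

theorem L1e_rot : L1e.map (Tm.act A10) = L1e.rotate 4 := by decide +kernel

theorem L1_rot : L1.map (Tm.act A10) = L1.rotate 4 := by rw [L1_eq]; exact L1e_rot

/-- the table of the forty terms -/
def TA : List (List (List ℤ)) :=
  [[[0, 3, -28, -23, -36, 21, -57, 77, 23], [-3, 0, -33, -13, -26, 8, -6, 47, 21], [28, 33, 0,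
   -54, 32, -41, 7, -14, 16], [23, 13, 54, 0, 13, -7, -41, -14, -10], [36, 26, -32, -13, 0, -10,
   -38, 51, -3], [-21, -8, 41, 7, 10, 0, 30, -83, 35], [57, 6, -7, 41, 38, -30, 0, 33, -99], [-77,
   -47, 14, 14, -51, 83, -33, 0, 46], [-23, -21, -16, 10, 3, -35, 99, -46, 0], [-20, 9, -1, 17, -5,
   27, 1, -13, -15], [16, 31, -33, -4, 5, -13, 3, 10, -10], [0, 0, 20, 10, 0, 0, 0, -10, -10]],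
   [[0, -94, 54, 93, -32, 56, 16, -39, -47], [94, 0, -30, 24, -38, -46, 15, 3, 26], [-54, 30, 0,
   -94, 40, -5, -15, 47, 7], [-93, -24, 94, 0, -4, 65, -35, -47, 4], [32, 38, -40, 4, 0, -29, 1,
   18, -2], [-56, 46, 5, -65, 29, 0, -12, -6, 28], [-16, -15, 15, 35, -1, 12, 0, -12, -20], [39,
   -3, -47, 47, -18, 6, 12, 0, 6], [47, -26, -7, -4, 2, -28, 20, -6, 0], [7, 24, -22, -20, 11, -28,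
   2, 78, -52], [39, 43, -42, -18, 11, -42, -1, 43, -22], [8, 12, 10, -8, -10, -12, -12, 8, 8]],
   [[0, 87, -50, -73, 42, -53, -15, 37, 27], [-87, 0, 30, -20, 44, 47, -15, -5, -34], [50, -30, 0,
   92, -48, 3, 15, -46, 2], [73, 20, -92, 0, -14, -63, 36, 46, 14], [-42, -44, 48, 14, 0, 42, -2,
   -31, -7], [53, -47, -3, 63, -42, 0, 12, 6, -24], [15, 15, -15, -36, 2, -12, 0, 12, 20], [-37, 5,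
   46, -46, 31, -6, -12, 0, -10], [-27, 34, -2, -14, 7, 24, -20, 10, 0], [2, -20, 19, 10, -11, 10,
   -8, -44, 42], [-40, -42, 43, 17, -11, 43, -1, -42, 22], [-12, -10, -12, 0, 4, 10, 10, 0, 0]],
   [[0, 106, -19, -101, 23, -44, -64, 65, 37], [-106, 0, 74, -60, -30, 30, -37, -7, 60], [19, -74,
   0, 70, -46, 14, 37, -35, 11], [101, 60, -70, 0, 60, -47, 5, 35, -60], [-23, 30, 46, -60, 0, -2,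
   -38, 7, 30], [44, -30, -14, 47, 2, 0, 55, -71, 2], [64, 37, -37, -5, 38, -55, 0, 56, -58], [-65,
   7, 35, -35, -7, 71, -56, 0, 10], [-37, -60, -11, 60, -30, -2, 58, -10, 0], [3, -38, -2, 42, -5,
   18, 22, -70, 30], [-20, -23, 21, 12, -5, 10, 3, -13, 10], [-2, -8, 0, 12, 10, 8, 8, -12, -12]],
   [[0, -6, 10, 10, 10, 28, -48, 32, -28], [6, 0, 4, -26, -8, -12, -2, 11, 21], [-10, -4, 0, -32,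
   -28, -16, 2, 16, 44], [-10, 26, 32, 0, -20, 3, -29, -16, 20], [-10, 8, 28, 20, 0, 18, -18, -24,
   -10], [-28, 12, 16, -3, -18, 0, 44, -77, 49], [48, 2, -2, 29, 18, -44, 0, 43, -77], [-32, -11,
   -16, 16, 24, 77, -43, 0, -4], [28, -21, -44, -20, 10, -49, 77, 4, 0], [8, -3, -14, 3, 6, 3, -33,
   57, -27], [-2, 1, 0, 13, 6, 10, -2, -8, -12], [4, 10, 4, -10, -8, -10, -10, 10, 10]],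
   [[0, 48, -12, -37, 38, 14, 6, -53, 19], [-48, 0, 52, -35, 17, 13, -13, -17, -16], [12, -52, 0,
   77, -58, 19, 11, -11, 9], [37, 35, -77, 0, 5, 1, 32, -30, 30], [-38, -17, 58, -5, 0, -5, 21,
   -30, 0], [-14, -13, -19, -1, 5, 0, 26, 12, -10], [-6, 13, -11, -32, -21, -26, 0, 22, 42], [53,
   17, 11, 30, 30, -12, -22, 0, -60], [-19, 16, -9, -30, 0, 10, -42, 60, 0], [23, -60, -2, 24, 15,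
   0, 0, 0, 0], [-15, -42, 43, 14, 0, 0, 0, 0, 0], [12, 0, -18, 0, 6, 0, 0, 0, 0]],
   [[0, 22, -22, -23, -10, -24, 2, 23, 23], [-22, 0, 0, -2, -3, -1, 1, -1, 24], [22, 0, 0, 1, 4,
   -1, 1, -1, -23], [23, 2, -1, 0, 9, -23, 0, 24, -24], [10, 3, -4, -9, 0, -23, -1, 24, 0], [24, 1,
   1, 23, 23, 0, -2, 0, -46], [-2, -1, -1, 0, 1, 2, 0, 2, -2], [-23, 1, 1, -24, -24, 0, -2, 0, 48],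
   [-23, -24, 23, 24, 0, 46, 2, -48, 0], [-9, 38, -34, -10, 15, 0, 0, 0, 0], [1, -1, -1, 1, 0, 0,
   0, 0, 0], [-8, 0, 2, 0, 6, 0, 0, 0, 0]],
   [[0, -86, 51, 79, -19, 30, -10, 11, -61], [86, 0, -52, 40, -7, -11, 11, 19, -28], [-51, 52, 0,
   -81, 47, -17, -13, 13, 33], [-79, -40, 81, 0, -23, 41, -32, -14, 14], [19, 7, -47, 23, 0, 47,
   -19, -14, 0], [-30, 11, 17, -41, -47, 0, -22, -12, 94], [10, -11, 13, 32, 19, 22, 0, -26, -38],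
   [-11, -19, -13, 14, 14, 12, 26, 0, -28], [61, 28, -33, -14, 0, -94, 38, 28, 0], [-5, 0, 48, -8,
   -35, 0, 0, 0, 0], [14, 43, -42, -15, 0, 0, 0, 0, 0], [2, 0, 12, 0, -14, 0, 0, 0, 0]],
   [[0, -68, 11, 47, -25, -16, 122, -107, 17], [68, 0, -41, 56, 23, -44, 44, -34, -28], [-11, 41,
   0, -3, 51, 33, -43, 43, -81], [-47, -56, 3, 0, -10, 28, 34, 4, -4], [25, -23, -51, 10, 0, -49,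
   77, 4, 0], [16, 44, -33, -28, 49, 0, -88, 154, -98], [-122, -44, 43, -34, -77, 88, 0, -86, 154],
   [107, 34, -43, -4, -4, -154, 86, 0, 8], [-17, 28, 81, 4, 0, 98, -154, -8, 0], [-19, 36, 4, -36,
   15, 0, 0, 0, 0], [6, -10, 10, -6, 0, 0, 0, 0, 0], [2, 0, -8, 0, 6, 0, 0, 0, 0]],
   [[0, 2, -3, 14, -13, 4, 10, -8, 4], [-2, 0, -2, 18, 14, 32, -36, 78, -88], [3, 2, 0, 12, 3, 12,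
   26, -92, 38], [-14, -18, -12, 0, -8, -6, 32, -62, 66], [13, -14, -3, 8, 0, -12, -48, 92, -42],
   [-4, -32, -12, 6, 12, 0, 0, 0, 0], [-10, 36, -26, -32, 48, 0, 0, 0, 0], [8, -78, 92, 62, -92, 0,
   0, 0, 0], [-4, 88, -38, -66, 42, 0, 0, 0, 0], [10, -6, -8, 6, -2, -20, 32, -16, 4], [23, 36,
   -25, -38, -2, -50, -22, 72, 4], [-6, -4, -2, 0, 0, 4, 4, 0, 0]],
   [[0, -8, 7, 16, 7, 2, 2, -4, -16], [8, 0, 0, 5, 10, 0, 0, 0, -12], [-7, 0, 0, -4, -11, 0, 0, 0,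
   12], [-16, -5, 4, 0, -18, -4, 2, 2, 16], [-7, -10, 11, 18, 0, 10, -2, -8, -12], [-2, 0, 0, 4,
   -10, 0, 0, 0, 0], [-2, 0, 0, -2, 2, 0, 0, 0, 0], [4, 0, 0, -2, 8, 0, 0, 0, 0], [16, 12, -12,
   -16, 12, 0, 0, 0, 0], [6, 12, -6, -12, 0, -12, -12, 24, 0], [-1, 1, 1, -1, 0, 2, -4, 2, 0], [-2,
   4, -2, -8, -4, -4, -4, 8, 8]],
   [[0, -8, 32, 12, -4, -12, 8, -12, -12], [8, 0, 20, 0, -20, -12, -12, 8, 8], [-32, -20, 0, 0, 0,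
   28, 8, -12, 8], [-12, 0, 0, 0, 20, 8, 8, -12, -12], [4, 20, 0, -20, 0, -16, -16, 24, 4], [12,
   12, -28, -8, 16, 0, 0, 0, 0], [-8, 12, -8, -8, 16, 0, 0, 0, 0], [12, -8, 12, 12, -24, 0, 0, 0,
   0], [12, -8, -8, 12, -4, 0, 0, 0, 0], [4, -4, -4, 4, 0, -8, 16, -8, 0], [8, 12, -8, -12, 0, -16,
   -8, 24, 0], [0, 0, 0, 0, 0, 0, 0, 0, 0]]]

theorem tabA : sumTab 9 L1e = TA := by decide +kernel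

end Pool.Agent.K4N.Q10B
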