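import Pool.Agent.Lib_helper2.K4N.Q10BC
import Pool.Agent.Lib_helper2.K4N.GL

set_option autoImplicit false

/-!
The weights: they are combinations with nonnegative coefficients of positive logarithms.
-/

namespace Pool.Agent.K4N.Q10B

open LA

/-- the vectors of positive logarithms -/
def U10 : List (List ℤ) :=
  [sub w7.c w7.al, sub w8.c w8.be, sub w18.c w18.al, sub w22.c w22.be, sub w32.c w32.al, sub w44.c
   w44.al, sub w45.c w45.al, sub w53.c w53.be, sub w74.c w74.be, sub w91.c w91.al, sub w152.c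
   w152.be, sub w154.c w154.al, sub w177.c w177.be, sub w187.c w187.be, sub w189.c w189.be, sub
   w203.c w203.al, sub w210.c w210.al, sub w217.c w217.be, [0, 0, 0, 0, 0, 0, 0, 0, 0, 0, 3,
   -2], [0, 0, 0, 0, 0, 0, 0, 0, 0, -3, -1, 2], [0, 0, 0, 0, 0, 0, 0, 0, 0, 7, 0, -3]]

/-- the check -/
def chk (w : Cl) (e : ℤ × List ℤ) : Bool :=
  decide (scl e.1 w.v = vm e.2 U10) && decide (0 < e.1) && e.2.all (fun x => decide (0 ≤ x)) &&
    e.2.any (fun x => decide (0 < x)) && decide (e.2.length = U10.length)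

theorem co5 : chk w5 (21, [0, 164988144, 0, 18176, 14568, 12768, 0, 0, 0, 0, 30197040, 57848232,
    0, 151140528, 220847380, 0, 23508, 14331044, 6288, 5844, 0]) = true := by
  decide +kernel

theorem co7 : chk w7 (9, [0, 2816040, 5221000, 44128000, 73505320, 6840, 0, 15304640, 46277800,
    34029040, 54652200, 0, 0, 34141680, 0, 0, 18760720, 0, 0, 0, 10726480]) = true := by
  decide +kernel

theorem co8 : chk w8 (3, [0, 0, 42433867, 10724485, 16031918, 0, 0, 0, 21129475, 105647528,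
    44396160, 58070713, 0, 120, 0, 1894596, 0, 6523544, 9522872, 5145686, 0]) = true := by
  decide +kernel

theorem co18 : chk w18 (1, [0, 4917220, 0, 3905720, 0, 0, 0, 0, 12524860, 0, 31909210, 8200,
    38006650, 10044000, 6407860, 937220, 0, 29898280, 1037780, 0, 18120]) = true := by
  decide +kernel

theorem co22 : chk w22 (13, [87138600, 0, 0, 30435552, 0, 15487176, 112227016, 0, 0, 0, 9550476,
    0, 2795876, 3016, 56581168, 39884504, 21272800, 0, 18361952, 57790816, 0]) = true := by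
  decide +kernel

theorem co26 : chk w26 (1, [0, 0, 0, 3547340, 0, 82020, 1326840, 0, 0, 0, 14178450, 4345540,
    19171450, 4308280, 7160660, 1861380, 1127020, 13872420, 0, 2123020, 0]) = true := by
  decide +kernel

theorem co32 : chk w32 (53, [931948536, 0, 0, 3166962952, 900299520, 1309915352, 2281504948, 0,
    245148544, 641877136, 2655362980, 0, 0, 1005401096, 2270772696, 0, 513616084, 0, 0, 0,
    6792372]) = true := by
  decide +kernel

theorem co39 : chk w39 (13, [24350907, 0, 0, 31538909, 155919859, 99399196, 147639350, 0,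
    43753503, 102823389, 94739116, 100242560, 0, 14169168, 0, 0, 12080061, 0, 0, 40266982, 0]) =
    true := by
  decide +kernel

theorem co44 : chk w44 (3, [0, 6144820, 0, 0, 0, 20620, 0, 0, 0, 0, 32550, 16168900, 31532130,
    5521200, 8496340, 10326080, 6865920, 13457140, 309520, 2887220, 0]) = true := by
  decide +kernel

theorem co45 : chk w45 (7, [0, 0, 15680365, 4280, 16660725, 8985, 0, 2185, 0, 11786570, 4615, 0,
    0, 11437440, 0, 12938635, 925, 0, 160, 0, 8156900]) = true := by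
  decide +kernel

theorem co48 : chk w48 (15, [31946836, 0, 0, 123042348, 182942028, 78640020, 259429756, 0, 0, 0,
    135087240, 27878716, 0, 43737960, 0, 0, 35725652, 57852088, 11374908, 21234416, 0]) = true
    := by
  decide +kernel

theorem co53 : chk w53 (3, [1910, 0, 0, 0, 33875615, 52342805, 79080340, 0, 0, 3100, 14640,
    11770405, 0, 10005480, 0, 6482155, 7798115, 0, 3263460, 4080, 0]) = true := by
  decide +kernel

theorem co56 : chk w56 (6, [1910874, 0, 0, 100880708, 0, 44847732, 27253812, 0, 0, 0, 164765955,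
    43433886, 106267425, 59311824, 59285908, 3073188, 0, 90839336, 0, 0, 5801016]) = true := by
  decide +kernel

theorem co57 : chk w57 (9, [73106784, 0, 0, 22314704, 0, 7056, 9696, 0, 0, 0, 105538392, 0,
    84703560, 45061920, 4264, 0, 6984, 41829032, 24361680, 68930520, 0]) = true := by
  decide +kernel

theorem co58 : chk w58 (3, [69806148, 0, 0, 102730972, 0, 0, 0, 108031212, 0, 0, 57404118, 0,
    35292738, 27169440, 83973476, 4116, 32016, 16556104, 0, 135891672, 62450700]) = true := by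
  decide +kernel

theorem co63 : chk w63 (9, [0, 27661752, 0, 20759024, 0, 40271472, 63688728, 0, 0, 0, 171500148,
    63871272, 261126564, 79945632, 65925496, 0, 0, 201726872, 10920648, 11521320, 0]) = true :=
    by
  decide +kernel

theorem co74 : chk w74 (2, [5058885, 0, 0, 1153825, 29401490, 24396905, 468030, 0, 13968735,
    79415065, 16872620, 51562645, 0, 2884720, 0, 159815, 0, 0, 0, 5665470, 0]) = true := by
  decide +kernel

theorem co78 : chk w78 (3, [0, 37390512, 0, 2540, 0, 5436, 0, 0, 0, 0, 10094346, 21447084,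
    130745346, 40348056, 55585312, 21417612, 12074952, 73415432, 0, 3784128, 0]) = true := by
  decide +kernel

theorem co82 : chk w82 (1, [0, 301968, 0, 672, 13297320, 4972080, 14980016, 16, 0, 208, 344, 0,
    0, 1703960, 0, 0, 1588688, 0, 144, 0, 152]) = true := by
  decide +kernel

theorem co91 : chk w91 (3, [0, 6472920, 0, 25357600, 0, 0, 0, 0, 4993380, 0, 72798600, 13282380,
    80696580, 29826600, 44311580, 6579180, 0, 60567640, 0, 4917600, 1759020]) = true := by
  decide +kernel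

theorem co92 : chk w92 (1, [0, 17374808, 0, 9230656, 0, 0, 0, 0, 28060572, 0, 61782844, 6516,
    89698128, 16192728, 6763532, 788, 0, 67839848, 0, 5336, 2255588]) = true := by
  decide +kernel

theorem co101 : chk w101 (21, [0, 71445408, 0, 14144, 0, 7008, 0, 0, 0, 0, 13776, 0, 558828864,
    237350568, 549876388, 97200816, 10452, 187274108, 7296, 120303084, 0]) = true := by
  decide +kernel

theorem co102 : chk w102 (9, [14104620, 0, 0, 48464680, 0, 31890600, 54164040, 0, 0, 0,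
    142377750, 36462060, 154492050, 38774520, 67939040, 0, 0, 114749440, 5631720, 24932280, 0])
    = true := by
  decide +kernel

theorem co114 : chk w114 (1, [190, 0, 0, 0, 35029813, 4635, 976900, 0, 1078, 20394786, 4518,
    38743181, 0, 232, 0, 16860769, 5383553, 0, 0, 1600, 0]) = true := by
  decide +kernel

theorem co115 : chk w115 (34, [396334837, 0, 0, 1722425471, 306084611, 436477312, 764395983, 0,
    0, 0, 1475811066, 253943789, 0, 565194240, 1134039334, 0, 363273406, 0, 153800680, 0,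
    4976671]) = true := by
  decide +kernel

theorem co119 : chk w119 (13, [0, 627932, 261939712, 7084, 5212, 23276, 0, 0, 0, 216001064,
    19812, 55756076, 0, 3016, 0, 48063672, 0, 0, 7244976, 0, 9457824]) = true := by
  decide +kernel

theorem co124 : chk w124 (3, [1054, 0, 0, 0, 6339775, 12781, 31960052, 0, 0, 1946276, 11016,
    26150909, 0, 552, 0, 10195763, 10472587, 0, 10845132, 7149960, 0]) = true := by
  decide +kernel

theorem co125 : chk w125 (5, [0, 8044, 78938540, 0, 36100800, 17912, 69495756, 0, 6140,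
    27971752, 0, 9956, 9096, 1529560, 0, 13493908, 0, 0, 0, 0, 5378900]) = true := by
  decide +kernel

theorem co133 : chk w133 (45, [0, 954347832, 0, 712349632, 1239158368, 74160, 651041544, 0,
    872104516, 1258535212, 270602060, 686487940, 0, 5400, 0, 0, 262403512, 0, 0, 0, 189005032])
    = true := by
  decide +kernel

theorem co152 : chk w152 (27, [78394428, 0, 0, 828059204, 790684580, 120795192, 525584184, 0,
    150744488, 41947736, 583314868, 3407756, 0, 240278400, 0, 0, 194463716, 0, 0, 0, 96539024])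
    = true := by
  decide +kernel

theorem co167 : chk w167 (7, [0, 0, 0, 3348, 3274, 9490, 0, 3016, 0, 4656, 2796, 1830, 0,
    3977960, 0, 29551902, 1298, 0, 480, 0, 688]) = true := by
  decide +kernel

theorem co177 : chk w177 (1, [0, 140760, 0, 1200, 0, 1280, 0, 0, 0, 0, 6836580, 0, 5013940,
    8330920, 3559200, 249560, 1360, 6559920, 2321600, 0, 188200]) = true := by
  decide +kernel

theorem co183 : chk w183 (8, [21915971, 0, 0, 84631975, 0, 5735771, 37048811, 0, 0, 12708424,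
    52560864, 0, 11228418, 14707680, 68819874, 2865877, 18897467, 0, 0, 0, 1421575]) = true :=
    by
  decide +kernel

theorem co185 : chk w185 (61, [16982760, 0, 0, 97926040, 301061640, 48800, 387699000, 0, 0,
    294162240, 136654360, 532411520, 0, 14640, 0, 0, 65485440, 0, 144122560, 219189480, 0]) =
    true := by
  decide +kernel

theorem co189 : chk w189 (5, [24712026, 0, 0, 82710750, 0, 5889050, 38578206, 0, 0, 4214274,
    51122798, 0, 6482398, 18062640, 62207962, 7096080, 17857102, 0, 2522252, 0, 0]) = true := by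
  decide +kernel

theorem co203 : chk w203 (1, [4036552, 0, 0, 8440312, 0, 0, 7169208, 0, 0, 1997368, 7904946, 0,
    260202, 2871016, 13417340, 1592552, 1999584, 0, 997848, 2205556, 0]) = true := by
  decide +kernel

theorem co206 : chk w206 (3, [0, 2834880, 0, 12828920, 0, 0, 0, 0, 0, 0, 20702580, 6825480,
    32151540, 7504920, 10461880, 658560, 1518600, 21470960, 0, 5746680, 4104360]) = true := by
  decide +kernel

theorem co210 : chk w210 (30, [2860848, 0, 0, 12121826, 0, 38595486, 0, 0, 0, 0, 135533487,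
    152086002, 51031323, 107218560, 72269920, 29399454, 0, 92124824, 88842096, 48980124, 0]) =
    true := by
  decide +kernel

theorem co213 : chk w213 (1, [0, 1736, 0, 0, 2262, 155638, 0, 0, 0, 0, 8588, 7714454, 0,
    4096928, 2547870, 3175722, 3108028, 5866, 4476976, 2929054, 0]) = true := by
  decide +kernel

theorem co217 : chk w217 (45, [0, 38202534, 0, 304853294, 503401106, 55290150, 261045258, 0,
    17875832, 88933244, 184079440, 69010250, 0, 190001340, 0, 0, 110948054, 0, 0, 0, 69446594])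
    = true := by
  decide +kernel

theorem all_chk : ∀ w ∈ W10, ∃ e, chk w e = true := by
  simp only [W10, List.forall_mem_cons]
  exact ⟨⟨_, co5⟩, ⟨_, co7⟩, ⟨_, co8⟩, ⟨_, co18⟩, ⟨_, co22⟩, ⟨_, co26⟩, ⟨_, co32⟩, ⟨_, co39⟩,
    ⟨_, co44⟩, ⟨_, co45⟩, ⟨_, co48⟩, ⟨_, co53⟩, ⟨_, co56⟩, ⟨_, co57⟩, ⟨_, co58⟩, ⟨_, co63⟩, ⟨_,
    co74⟩, ⟨_, co78⟩, ⟨_, co82⟩, ⟨_, co91⟩, ⟨_, co92⟩, ⟨_, co101⟩, ⟨_, co102⟩, ⟨_, co114⟩, ⟨_,
    co115⟩, ⟨_, co119⟩, ⟨_, co124⟩, ⟨_, co125⟩, ⟨_, co133⟩, ⟨_, co152⟩, ⟨_, co167⟩, ⟨_, co177⟩,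
    ⟨_, co183⟩, ⟨_, co185⟩, ⟨_, co189⟩, ⟨_, co203⟩, ⟨_, co206⟩, ⟨_, co210⟩, ⟨_, co213⟩, ⟨_,
    co217⟩, by simp⟩

theorem all_id {X Y : ℝ} (he : Y ^ 2 - X * Y + 30 * Y = X ^ 3 + 6 * X ^ 2) :
    ∀ w ∈ W10, w.Sum X Y := by
  simp only [W10, List.forall_mem_cons]
  exact ⟨id5 he, id7 he, id8 he, id18 he, id22 he, id26 he, id32 he, id39 he, id44 he, id45 he,
    id48 he, id53 he, id56 he, id57 he, id58 he, id63 he, id74 he, id78 he, id82 he, id91 he,
    id92 he, id101 he, id102 he, id114 he, id115 he, id119 he, id124 he, id125 he, id133 he,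
    id152 he, id167 he, id177 he, id183 he, id185 he, id189 he, id203 he, id206 he, id210 he,
    id213 he, id217 he, by simp⟩

theorem all_der {X Y d0 d1 d2 d3 d4 d5 d6 d7 d8 : ℝ} (h : Arc X Y)
    (k : Dv X Y d0 d1 d2 d3 d4 d5 d6 d7 d8) :
    ∀ w ∈ W10, w.Dec [d0, d1, d2, d3, d4, d5, d6, d7, d8] := by
  simp only [W10, List.forall_mem_cons]
  exact ⟨der5 h k, der7 h k, der8 h k, der18 h k, der22 h k, der26 h k, der32 h k, der39 h k,
    der44 h k, der45 h k, der48 h k, der53 h k, der56 h k, der57 h k, der58 h k, der63 h k,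
    der74 h k, der78 h k, der82 h k, der91 h k, der92 h k, der101 h k, der102 h k, der114 h k,
    der115 h k, der119 h k, der124 h k, der125 h k, der133 h k, der152 h k, der167 h k, der177 h
    k, der183 h k, der185 h k, der189 h k, der203 h k, der206 h k, der210 h k, der213 h k,
    der217 h k, by simp⟩

theorem all_len : ∀ w ∈ W10, w.al.length = w.c.length ∧ w.be.length = w.c.length := by
  simp only [W10, List.forall_mem_cons]
  exact ⟨⟨rfl, rfl⟩, ⟨rfl, rfl⟩, ⟨rfl, rfl⟩, ⟨rfl, rfl⟩, ⟨rfl, rfl⟩, ⟨rfl, rfl⟩, ⟨rfl, rfl⟩,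
    ⟨rfl, rfl⟩, ⟨rfl, rfl⟩, ⟨rfl, rfl⟩, ⟨rfl, rfl⟩, ⟨rfl, rfl⟩, ⟨rfl, rfl⟩, ⟨rfl, rfl⟩, ⟨rfl,
    rfl⟩, ⟨rfl, rfl⟩, ⟨rfl, rfl⟩, ⟨rfl, rfl⟩, ⟨rfl, rfl⟩, ⟨rfl, rfl⟩, ⟨rfl, rfl⟩, ⟨rfl, rfl⟩,
    ⟨rfl, rfl⟩, ⟨rfl, rfl⟩, ⟨rfl, rfl⟩, ⟨rfl, rfl⟩, ⟨rfl, rfl⟩, ⟨rfl, rfl⟩, ⟨rfl, rfl⟩, ⟨rfl,
    rfl⟩, ⟨rfl, rfl⟩, ⟨rfl, rfl⟩, ⟨rfl, rfl⟩, ⟨rfl, rfl⟩, ⟨rfl, rfl⟩, ⟨rfl, rfl⟩, ⟨rfl, rfl⟩,
    ⟨rfl, rfl⟩, ⟨rfl, rfl⟩, ⟨rfl, rfl⟩, by simp⟩

lemma pos_Bs {X Y : ℝ} (h : Arc X Y) : ∀ b ∈ Bs X Y, 0 < b := by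
  obtain ⟨he, hX, hY, h6, h2, hp⟩ := h
  simp only [Bs, List.forall_mem_cons, List.not_mem_nil, false_imp_iff, implies_true, and_true]
  refine ⟨?_, ?_, ?_, ?_, ?_, ?_, h6, ?_, h2, by norm_num, by norm_num, by norm_num⟩ <;> linarith

lemma val_lt {X Y : ℝ} (h : Arc X Y) {w : Cl} (hw : w.Sum X Y) :
    Real.log (monN w.al (Bs X Y)) < Real.log (monN w.c (Bs X Y)) ∧
      Real.log (monN w.be (Bs X Y)) < Real.log (monN w.c (Bs X Y)) := by
  have hb := pos_Bs h
  have h1 := monN_pos w.al hb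
  have h2 := monN_pos w.be hb
  unfold Cl.Sum at hw
  exact ⟨Real.log_lt_log h1 (by linarith), Real.log_lt_log h2 (by linarith)⟩

lemma pos_al {X Y : ℝ} (h : Arc X Y) {w : Cl} (hw : w.Sum X Y) (hl : w.al.length = w.c.length) :
    0 < lin (sub w.c w.al) ((Bs X Y).map Real.log) := by
  have hb : ∀ b ∈ Bs X Y, b ≠ 0 := fun b hb => (pos_Bs h b hb).ne'
  rw [lin_sub _ _ hl.symm, ← log_monN _ hb, ← log_monN _ hb]
  have := (val_lt h hw).1
  linarith

lemma pos_be {X Y : ℝ} (h : Arc X Y) {w : Cl} (hw : w.Sum X Y) (hl : w.be.length = w.c.length) :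
    0 < lin (sub w.c w.be) ((Bs X Y).map Real.log) := by
  have hb : ∀ b ∈ Bs X Y, b ≠ 0 := fun b hb => (pos_Bs h b hb).ne'
  rw [lin_sub _ _ hl.symm, ← log_monN _ hb, ← log_monN _ hb]
  have := (val_lt h hw).2
  linarith

lemma pos_const {X Y : ℝ} {a b : ℕ} (m n : List ℕ) (e : List ℤ) (he : e = sub m n)
    (hl : m.length = n.length) (hb : ∀ b ∈ Bs X Y, b ≠ 0) (h1 : monN m (Bs X Y) = a)
    (h2 : monN n (Bs X Y) = b) (h : b < a) (h0 : 0 < b) :
    0 < lin e ((Bs X Y).map Real.log) := by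
  rw [he, lin_sub _ _ hl, ← log_monN _ hb, ← log_monN _ hb, h1, h2]
  have h3 : (0 : ℝ) < b := by exact_mod_cast h0
  have h4 : (b : ℝ) < a := by exact_mod_cast h
  have := Real.log_lt_log h3 h4
  linarith

theorem U10_pos {X Y : ℝ} (h : Arc X Y) : ∀ u ∈ U10, 0 < lin u ((Bs X Y).map Real.log) := by
  have hb : ∀ b ∈ Bs X Y, b ≠ 0 := fun b hb => (pos_Bs h b hb).ne'
  have he := h.eq
  simp only [U10, List.forall_mem_cons]
  exact ⟨pos_al (w := w7) h (id7 he) rfl,
    pos_be (w := w8) h (id8 he) rfl,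
    pos_al (w := w18) h (id18 he) rfl,
    pos_be (w := w22) h (id22 he) rfl,
    pos_al (w := w32) h (id32 he) rfl,
    pos_al (w := w44) h (id44 he) rfl,
    pos_al (w := w45) h (id45 he) rfl,
    pos_be (w := w53) h (id53 he) rfl,
    pos_be (w := w74) h (id74 he) rfl,
    pos_al (w := w91) h (id91 he) rfl,
    pos_be (w := w152) h (id152 he) rfl,
    pos_al (w := w154) h (id154 he) rfl,
    pos_be (w := w177) h (id177 he) rfl,
    pos_be (w := w187) h (id187 he) rfl,
    pos_be (w := w189) h (id189 he) rfl,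
    pos_al (w := w203) h (id203 he) rfl,
    pos_al (w := w210) h (id210 he) rfl,
    pos_be (w := w217) h (id217 he) rfl,
    pos_const (a := 27) (b := 25) [0, 0, 0, 0, 0, 0, 0, 0, 0, 0, 3, 0] [0, 0, 0, 0, 0, 0, 0, 0, 0, 0, 0, 2] _ rfl rfl hb
      (by simp only [Bs, monN_cons, monN_nil']; norm_num)
      (by simp only [Bs, monN_cons, monN_nil']; norm_num) (by norm_num) (by norm_num),
    pos_const (a := 25) (b := 24) [0, 0, 0, 0, 0, 0, 0, 0, 0, 0, 0, 2] [0, 0, 0, 0, 0, 0, 0, 0, 0, 3, 1, 0] _ rfl rfl hb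
      (by simp only [Bs, monN_cons, monN_nil']; norm_num)
      (by simp only [Bs, monN_cons, monN_nil']; norm_num) (by norm_num) (by norm_num),
    pos_const (a := 128) (b := 125) [0, 0, 0, 0, 0, 0, 0, 0, 0, 7, 0, 0] [0, 0, 0, 0, 0, 0, 0, 0, 0, 0, 0, 3] _ rfl rfl hb
      (by simp only [Bs, monN_cons, monN_nil']; norm_num)
      (by simp only [Bs, monN_cons, monN_nil']; norm_num) (by norm_num) (by norm_num), by simp⟩

/-- the weights are positive -/
theorem v_pos {X Y : ℝ} (h : Arc X Y) : ∀ w ∈ W10, 0 < lin w.v ((Bs X Y).map Real.log) := by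
  intro w hw
  obtain ⟨e, he⟩ := all_chk w hw
  simp only [chk, Bool.and_eq_true, decide_eq_true_eq, List.all_eq_true, List.any_eq_true] at he
  obtain ⟨⟨⟨⟨h1, h2⟩, h3⟩, h4⟩, h5⟩ := he
  have key : 0 < lin e.2 (U10.map fun u => lin u ((Bs X Y).map Real.log)) := by
    refine lin_pos (by rw [List.length_map]; exact h5) h3 ?_ h4
    intro y hy
    obtain ⟨u, hu, rfl⟩ := List.mem_map.mp hy
    exact U10_pos h u hu
  rw [← lin_vm, ← h1, lin_scl] at key
  have h6 : (0 : ℝ) < e.1 := by exact_mod_cast h2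
  by_contra hh
  push Not at hh
  have := mul_nonpos_of_nonneg_of_nonpos h6.le hh
  linarith

end Pool.Agent.K4N.Q10B
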