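import Pool.Agent.Lib_helper2.K4N.Q10BM
import Pool.Agent.Lib_helper2.K4N.Q10BD

set_option autoImplicit false
set_option linter.unusedSectionVars false

/-!
The regulator of the class for points of order ten at `t = -1` is not zero.
-/

namespace Pool.Agent.K4N

open Filter Topology Pool.Agent.TN
open scoped TensorProduct

namespace Q10B

open LA

/-- the circle -/
noncomputable def circ10b : Circ ((-6 / 25 : ℚ) : ℝ) ((6 / 5 : ℚ) : ℝ) (fun _ _ => True) := by
  refine mkCirc _ _ (-2 / 5) (-3 / 5) (18 / 125) _ ?_ ?_ ?_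
  · intro x
    push_cast
    ring
  · intro x _
    nlinarith [sq_nonneg (8 * x - 3 / 5)]
  · intro s _ V _
    trivial

variable {k F : Type*} [Field k] [Field F] [Algebra k F] {x y : F}

lemma gen_units [CharZero k] [CharZero F] (h : Gen ((-6 / 25 : ℚ) : k) ((6 / 5 : ℚ) : k) x y) :
    ∀ e ∈ BsQ, e.ev x y ≠ 0 := by
  have h1 := h.xc_ne (-6 / 25)
  have h2 := h.xc_ne (6 / 5)
  have h3 := h.xc_ne (6 / 25)
  have h4 := h.xc_ne (-2 / 5)
  have h5 := h.yab_ne (-6 / 5) 0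
  have h6 := h.yab_ne (6 / 5) 0
  have h7 := h.yab_ne (-2 / 5) 0
  simp only [map_neg, map_one, map_zero, map_ofNat, map_div₀] at h1 h2 h3 h4 h5 h6 h7
  simp only [BsQ, List.forall_mem_cons, Q2.ev_sub, Q2.ev_add, Q2.ev_mul, Q2.ev_c,
    Q2.ev_x, Q2.ev_y, Rat.cast_ofNat]
  have n25 : (25 : F) ≠ 0 := by norm_num
  have n125 : (125 : F) ≠ 0 := by norm_num
  refine ⟨mul_ne_zero n25 h.x_ne, fun e => h1 ?_, fun e => h2 ?_, fun e => h3 ?_, fun e => h4 ?_,
    mul_ne_zero n125 h.y_ne, fun e => h5 ?_, fun e => h6 ?_, fun e => h7 ?_,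
    two_ne_zero, three_ne_zero, by norm_num, by simp⟩
  · linear_combination (1 / 25) * e
  · linear_combination (1 / 25) * e
  · linear_combination (1 / 25) * e
  · linear_combination (1 / 25) * e
  · linear_combination (1 / 125) * e
  · linear_combination (1 / 125) * e
  · linear_combination (1 / 125) * e

lemma gen_Bs [CharZero k] [CharZero F] (h : Gen ((-6 / 25 : ℚ) : k) ((6 / 5 : ℚ) : k) x y) :
    ∀ b ∈ Bs (25 * x) (125 * y), b ≠ 0 := by
  rw [← BsQ_ev]
  intro b hb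
  obtain ⟨e, he, rfl⟩ := List.mem_map.mp hb
  exact gen_units h e he

lemma gen_curve [CharZero k] [CharZero F] (h : Gen ((-6 / 25 : ℚ) : k) ((6 / 5 : ℚ) : k) x y) :
    (125 * y) ^ 2 - 25 * x * (125 * y) + 30 * (125 * y) = (25 * x) ^ 3 + 6 * (25 * x) ^ 2 := by
  have := h.eq
  simp only [map_ratCast] at this
  push_cast at this
  linear_combination 15625 * this

lemma gen_ok [CharZero k] [CharZero F] (h : Gen ((-6 / 25 : ℚ) : k) ((6 / 5 : ℚ) : k) x y)
    (i : Fin 4) : (T10 i).fq.ev x y ≠ 0 ∧ (T10 i).fq.ev x y ≠ 1 ∧ (T10 i).uq.ev x y ≠ 0 := by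
  have hB := gen_Bs h
  have hs : ∀ b : Bool, ((if b then -1 else 1) : F) ≠ 0 := by
    intro b
    cases b <;> simp
  refine ⟨?_, fun h1 => ?_, ?_⟩
  · rw [ev_fq]
    exact mul_ne_zero (hs _) (div_ne_zero (monN_ne _ hB) (monN_ne _ hB))
  · have h2 := ev_fq' (T10 i) x y hB (T10_ok (gen_curve h) i)
    rw [h1, sub_self] at h2
    exact (mul_ne_zero (hs _) (div_ne_zero (monN_ne _ hB) (monN_ne _ hB))) h2.symm
  · rw [ev_uq]
    exact div_ne_zero (monN_ne _ hB) (monN_ne _ hB)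

/-- the engine -/
theorem rz10b0 [CharZero k] (φ : k →+* ℝ) (h : Gen ((-6 / 25 : ℚ) : k) ((6 / 5 : ℚ) : k) x y)
    (htop : IntermediateField.adjoin k {x, y} = ⊤) [CharZero F] :
    RZ φ x y circ10b.X circ10b.Y
      (∑ i : Fin 10 × Fin 4, K4M.hk (K4M.sy ((T10 i.2).fq.ev
          (It ((-6 / 25 : ℚ) : F) i.1.val (x, y)).1 (It ((-6 / 25 : ℚ) : F) i.1.val (x, y)).2))
        (K4M.lg ((T10 i.2).uq.ev (It ((-6 / 25 : ℚ) : F) i.1.val (x, y)).1
          (It ((-6 / 25 : ℚ) : F) i.1.val (x, y)).2))) :=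
  engT φ (-6 / 25) (6 / 5) (by norm_num) h htop circ10b (fun i : Fin 10 × Fin 4 => (T10 i.2).fq)
    (fun i => (T10 i.2).uq) (fun i => i.1.val) BsQ 10
    (fun x' y' hg e he => gen_units hg e he) (fun x' y' hg i => gen_ok hg i.2)
    fun _ _ _ _ hp => total_pos hp

end Q10B

end Pool.Agent.K4N
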