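import Pool.Agent.Lib_helper2.K4N.Q10BX

set_option autoImplicit false
set_option linter.unusedSectionVars false

/-!
The regulator of `xi10b` is not zero.
-/

namespace Pool.Agent.K4N

open Filter Topology Pool.Agent.TN
open scoped TensorProduct

namespace Q10B

open LA

variable {F : Type*} [Field F] [CharZero F] {x y : F}

lemma Bs_eq (x y : F) : Bs (25 * x) (125 * y) =
    [25 * x, 25 * (x + 6 / 25), 25 * (x - 6 / 5), 25 * (x - 6 / 25), 25 * (x + 2 / 5),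
     125 * y, 125 * (y - 6 / 5 * x), 125 * (y + 6 / 5 * x), 125 * (y - 2 / 5 * x), 2, 3, 5] := by
  unfold Bs
  congr 1
  congr 1
  · ring
  congr 1
  · ring
  congr 1
  · ring
  congr 1
  · ring
  congr 1
  congr 1
  · ring
  congr 1
  · ring
  congr 1
  · ring

/-- the units are not zero -/
structure Nz (x y : F) : Prop where
  h0 : x ≠ 0
  h1 : x + 6 / 25 ≠ 0
  h2 : x - 6 / 5 ≠ 0
  h3 : x - 6 / 25 ≠ 0
  h4 : x + 2 / 5 ≠ 0
  h5 : y ≠ 0
  h6 : y - 6 / 5 * x ≠ 0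
  h7 : y + 6 / 5 * x ≠ 0
  h8 : y - 2 / 5 * x ≠ 0

lemma Nz.of (hB : ∀ b ∈ Bs (25 * x) (125 * y), b ≠ 0) : Nz x y := by
  rw [Bs_eq] at hB
  simp only [List.forall_mem_cons] at hB
  obtain ⟨h0, h1, h2, h3, h4, h5, h6, h7, h8, -⟩ := hB
  exact ⟨right_ne_zero_of_mul h0, right_ne_zero_of_mul h1, right_ne_zero_of_mul h2,
    right_ne_zero_of_mul h3, right_ne_zero_of_mul h4, right_ne_zero_of_mul h5,
    right_ne_zero_of_mul h6, right_ne_zero_of_mul h7, right_ne_zero_of_mul h8⟩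

lemma f0_eq (hB : ∀ b ∈ Bs (25 * x) (125 * y), b ≠ 0) :
    t0.fq.ev x y = 2 * x ^ 2 * (x + 6 / 25) / (y * (y - 6 / 5 * x)) := by
  have n := Nz.of hB
  have hc := monN_ne t0.c hB
  rw [ev_fq]
  simp only [Bs_eq, t0, monN_cons, monN_nil', Bool.false_eq_true, if_false, one_mul] at hc ⊢
  rw [div_eq_div_iff hc (mul_ne_zero n.h5 n.h6)]
  generalize x + 6 / 25 = B
  generalize x - 6 / 5 = C
  generalize x - 6 / 25 = D
  generalize x + 2 / 5 = E
  generalize y - 6 / 5 * x = H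
  generalize y + 6 / 5 * x = I
  generalize y - 2 / 5 * x = J
  ring

lemma f1_eq (hB : ∀ b ∈ Bs (25 * x) (125 * y), b ≠ 0) :
    t1.fq.ev x y = x ^ 2 / y := by
  have n := Nz.of hB
  have hc := monN_ne t1.c hB
  rw [ev_fq]
  simp only [Bs_eq, t1, monN_cons, monN_nil', Bool.false_eq_true, if_false, one_mul] at hc ⊢
  rw [div_eq_div_iff hc (n.h5)]
  generalize x + 6 / 25 = B
  generalize x - 6 / 5 = C
  generalize x - 6 / 25 = D
  generalize x + 2 / 5 = E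
  generalize y - 6 / 5 * x = H
  generalize y + 6 / 5 * x = I
  generalize y - 2 / 5 * x = J
  ring

lemma f2_eq (hB : ∀ b ∈ Bs (25 * x) (125 * y), b ≠ 0) :
    t2.fq.ev x y = 6 * x ^ 3 / (5 * y ^ 2) := by
  have n := Nz.of hB
  have hc := monN_ne t2.c hB
  rw [ev_fq]
  simp only [Bs_eq, t2, monN_cons, monN_nil', Bool.false_eq_true, if_false, one_mul] at hc ⊢
  rw [div_eq_div_iff hc (mul_ne_zero (by norm_num) (pow_ne_zero 2 n.h5))]
  generalize x + 6 / 25 = B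
  generalize x - 6 / 5 = C
  generalize x - 6 / 25 = D
  generalize x + 2 / 5 = E
  generalize y - 6 / 5 * x = H
  generalize y + 6 / 5 * x = I
  generalize y - 2 / 5 * x = J
  ring

lemma f3_eq (hB : ∀ b ∈ Bs (25 * x) (125 * y), b ≠ 0) :
    t3.fq.ev x y = 6 * y ^ 2 / (5 * x * (x + 6 / 25) ^ 2) := by
  have n := Nz.of hB
  have hc := monN_ne t3.c hB
  rw [ev_fq]
  simp only [Bs_eq, t3, monN_cons, monN_nil', Bool.false_eq_true, if_false, one_mul] at hc ⊢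
  rw [div_eq_div_iff hc (mul_ne_zero (mul_ne_zero (by norm_num) n.h0) (pow_ne_zero 2 n.h1))]
  generalize x + 6 / 25 = B
  generalize x - 6 / 5 = C
  generalize x - 6 / 25 = D
  generalize x + 2 / 5 = E
  generalize y - 6 / 5 * x = H
  generalize y + 6 / 5 * x = I
  generalize y - 2 / 5 * x = J
  ring

/-- the numerator -/
def nu0 (x y : F) : F := 24 * (x - 6 / 5) ^ 2 * (x - 6 / 25) * (y + 6 / 5 * x) ^ 3
/-- the denominator -/
def du0 (x y : F) : F := 15625 * (x + 6 / 25) ^ 4 * (x + 2 / 5) ^ 2 * y ^ 2 * (y - 2 / 5 * x)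

lemma nu0_ne (n : Nz x y) : nu0 x y ≠ 0 := (mul_ne_zero (mul_ne_zero (mul_ne_zero (by norm_num)
      (pow_ne_zero 2 n.h2)) n.h3) (pow_ne_zero 3 n.h7))

lemma du0_ne (n : Nz x y) : du0 x y ≠ 0 := (mul_ne_zero (mul_ne_zero (mul_ne_zero (mul_ne_zero
      (by norm_num) (pow_ne_zero 4 n.h1)) (pow_ne_zero 2 n.h4)) (pow_ne_zero 2 n.h5)) n.h8)

/-- the numerator -/
def nu1 (x y : F) : F := 46875 * (x + 6 / 25) ^ 5 * (x + 2 / 5) ^ 3 * y * (y - 6 / 5 * x) ^ 2 * (y - 2 / 5 * x) ^ 3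
/-- the denominator -/
def du1 (x y : F) : F := 4 * (x - 6 / 5) ^ 5 * (x - 6 / 25) ^ 3 * (y + 6 / 5 * x) ^ 4

lemma nu1_ne (n : Nz x y) : nu1 x y ≠ 0 := (mul_ne_zero (mul_ne_zero (mul_ne_zero (mul_ne_zero
      (mul_ne_zero (by norm_num) (pow_ne_zero 5 n.h1)) (pow_ne_zero 3 n.h4)) n.h5) (pow_ne_zero
      2 n.h6)) (pow_ne_zero 3 n.h8))

lemma du1_ne (n : Nz x y) : du1 x y ≠ 0 := (mul_ne_zero (mul_ne_zero (mul_ne_zero (by norm_num)
      (pow_ne_zero 5 n.h2)) (pow_ne_zero 3 n.h3)) (pow_ne_zero 4 n.h7))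

/-- the numerator -/
def nu2 (x y : F) : F := (x + 6 / 25) * (x + 2 / 5) ^ 2 * (y + 6 / 5 * x) ^ 22
/-- the denominator -/
def du2 (x y : F) : F := 135000 * y ^ 12 * (y - 6 / 5 * x) * (y - 2 / 5 * x) ^ 13

lemma nu2_ne (n : Nz x y) : nu2 x y ≠ 0 := (mul_ne_zero (mul_ne_zero n.h1 (pow_ne_zero 2 n.h4))
      (pow_ne_zero 22 n.h7))

lemma du2_ne (n : Nz x y) : du2 x y ≠ 0 := (mul_ne_zero (mul_ne_zero (mul_ne_zero (by norm_num)
      (pow_ne_zero 12 n.h5)) n.h6) (pow_ne_zero 13 n.h8))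

/-- the numerator -/
def nu3 (x y : F) : F := (x - 6 / 5) ^ 21 * (x - 6 / 25) ^ 9 * y ^ 12 * (y - 6 / 5 * x) * (y - 2 / 5 * x) ^ 13
/-- the denominator -/
def du3 (x y : F) : F := 135000 * x ^ 16 * (x + 6 / 25) ^ 12 * (x + 2 / 5) ^ 11 * (y + 6 / 5 * x) ^ 22

lemma nu3_ne (n : Nz x y) : nu3 x y ≠ 0 := (mul_ne_zero (mul_ne_zero (mul_ne_zero (mul_ne_zero
      (pow_ne_zero 21 n.h2) (pow_ne_zero 9 n.h3)) (pow_ne_zero 12 n.h5)) n.h6) (pow_ne_zero 13
      n.h8))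

lemma du3_ne (n : Nz x y) : du3 x y ≠ 0 := (mul_ne_zero (mul_ne_zero (mul_ne_zero (mul_ne_zero
      (by norm_num) (pow_ne_zero 16 n.h0)) (pow_ne_zero 12 n.h1)) (pow_ne_zero 11 n.h4))
      (pow_ne_zero 22 n.h7))

lemma u0_eq (hB : ∀ b ∈ Bs (25 * x) (125 * y), b ≠ 0) :
    t0.uq.ev x y = du0 x y / nu0 x y := by
  have n := Nz.of hB
  have hc := monN_ne t0.uc hB
  rw [ev_uq]
  rw [div_eq_div_iff hc (nu0_ne n)]
  simp only [Bs_eq, t0, monN_cons, monN_nil', nu0, du0]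
  generalize x + 6 / 25 = B
  generalize x - 6 / 5 = C
  generalize x - 6 / 25 = D
  generalize x + 2 / 5 = E
  generalize y - 6 / 5 * x = H
  generalize y + 6 / 5 * x = I
  generalize y - 2 / 5 * x = J
  ring

lemma u1_eq (hB : ∀ b ∈ Bs (25 * x) (125 * y), b ≠ 0) :
    t1.uq.ev x y = (du1 x y / nu1 x y) ^ 6 := by
  have n := Nz.of hB
  have hc := monN_ne t1.uc hB
  rw [ev_uq, div_pow]
  rw [div_eq_div_iff hc (pow_ne_zero 6 (nu1_ne n))]
  simp only [Bs_eq, t1, monN_cons, monN_nil', nu1, du1]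
  generalize x + 6 / 25 = B
  generalize x - 6 / 5 = C
  generalize x - 6 / 25 = D
  generalize x + 2 / 5 = E
  generalize y - 6 / 5 * x = H
  generalize y + 6 / 5 * x = I
  generalize y - 2 / 5 * x = J
  ring

lemma u2_eq (hB : ∀ b ∈ Bs (25 * x) (125 * y), b ≠ 0) :
    t2.uq.ev x y = du2 x y / nu2 x y := by
  have n := Nz.of hB
  have hc := monN_ne t2.uc hB
  rw [ev_uq]
  rw [div_eq_div_iff hc (nu2_ne n)]
  simp only [Bs_eq, t2, monN_cons, monN_nil', nu2, du2]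
  generalize x + 6 / 25 = B
  generalize x - 6 / 5 = C
  generalize x - 6 / 25 = D
  generalize x + 2 / 5 = E
  generalize y - 6 / 5 * x = H
  generalize y + 6 / 5 * x = I
  generalize y - 2 / 5 * x = J
  ring

lemma u3_eq (hB : ∀ b ∈ Bs (25 * x) (125 * y), b ≠ 0) :
    t3.uq.ev x y = nu3 x y / du3 x y := by
  have n := Nz.of hB
  have hc := monN_ne t3.uc hB
  rw [ev_uq]
  rw [div_eq_div_iff hc (du3_ne n)]
  simp only [Bs_eq, t3, monN_cons, monN_nil', nu3, du3]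
  generalize x + 6 / 25 = B
  generalize x - 6 / 5 = C
  generalize x - 6 / 25 = D
  generalize x + 2 / 5 = E
  generalize y - 6 / 5 * x = H
  generalize y + 6 / 5 * x = I
  generalize y - 2 / 5 * x = J
  ring

/-- the four terms -/
lemma sum_terms (hB : ∀ b ∈ Bs (25 * x) (125 * y), b ≠ 0) :
    ∑ q : Fin 4, MK4.hk (MK4.sy ((T10 q).fq.ev x y)) (MK4.lg ((T10 q).uq.ev x y)) =
      -term10c x y := by
  have n := Nz.of hB
  have e : ∑ q : Fin 4, MK4.hk (MK4.sy ((T10 q).fq.ev x y)) (MK4.lg ((T10 q).uq.ev x y)) =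
      MK4.hk (MK4.sy (t0.fq.ev x y)) (MK4.lg (t0.uq.ev x y)) +
      (MK4.hk (MK4.sy (t1.fq.ev x y)) (MK4.lg (t1.uq.ev x y)) +
      (MK4.hk (MK4.sy (t2.fq.ev x y)) (MK4.lg (t2.uq.ev x y)) +
      (MK4.hk (MK4.sy (t3.fq.ev x y)) (MK4.lg (t3.uq.ev x y)) + 0))) := by
    simp only [Fin.sum_univ_succ, Fin.sum_univ_zero]
    rfl
  rw [e, f0_eq hB, f1_eq hB, f2_eq hB, f3_eq hB, u0_eq hB, u1_eq hB, u2_eq hB, u3_eq hB]
  have l0 : MK4.lg (du0 x y / nu0 x y) = -MK4.lg (nu0 x y / du0 x y) := by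
    rw [TN.lgdiv (du0_ne n) (nu0_ne n), TN.lgdiv (nu0_ne n) (du0_ne n), neg_sub]
  have l1 : MK4.lg ((du1 x y / nu1 x y) ^ 6) = -((6 : ℚ) • MK4.lg (nu1 x y / du1 x y)) := by
    rw [TN.lgpow (div_ne_zero (du1_ne n) (nu1_ne n)), TN.lgdiv (du1_ne n) (nu1_ne n),
      TN.lgdiv (nu1_ne n) (du1_ne n), ← smul_neg, neg_sub]
    norm_num
  have l2 : MK4.lg (du2 x y / nu2 x y) = -MK4.lg (nu2 x y / du2 x y) := by
    rw [TN.lgdiv (du2_ne n) (nu2_ne n), TN.lgdiv (nu2_ne n) (du2_ne n), neg_sub]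
  rw [l0, l1, l2, TN.hk_neg_right, TN.hk_neg_right, TN.hk_neg_right, TN.hk_smul_right]
  unfold term10c nu0 du0 nu1 du1 nu2 du2 nu3 du3
  abel

end Q10B

section

open Q10B

variable {k F : Type*} [Field k] [Field F] [Algebra k F] {x y : F}

/-- **The regulator of the class is not zero.** -/
theorem rz10bx [CharZero k] (φ : k →+* ℝ) (h : Gen (-6 / 25 : k) (6 / 5) x y)
    (htop : IntermediateField.adjoin k {x, y} = ⊤) :
    RZ φ x y circ10b.X circ10b.Y (xi10b x y) := by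
  have : CharZero F := charZero_of_injective_algebraMap (algebraMap k F).injective
  have ebk : ((-6 / 25 : ℚ) : k) = -6 / 25 := by push_cast; rfl
  have eck : ((6 / 5 : ℚ) : k) = 6 / 5 := by push_cast; rfl
  have ebF : ((-6 / 25 : ℚ) : F) = -6 / 25 := by push_cast; rfl
  have h' : Gen ((-6 / 25 : ℚ) : k) ((6 / 5 : ℚ) : k) x y := by
    rw [ebk, eck]
    exact h
  have key := rz10b0 φ h' htop
  refine key.of_neg ?_
  rw [ebF, Fintype.sum_prod_type, xi10b, ← Finset.sum_neg_distrib]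
  refine Finset.sum_congr rfl fun j _ => ?_
  have hg : Gen ((-6 / 25 : ℚ) : k) ((6 / 5 : ℚ) : k) (It (-6 / 25 : F) j.val (x, y)).1
      (It (-6 / 25 : F) j.val (x, y)).2 := by
    have h1 := gen_It (b := ((-6 / 25 : ℚ) : k)) (by
      rw [ebk]
      norm_num) h' j.val
    have e : algebraMap k F ((-6 / 25 : ℚ) : k) = -6 / 25 := by rw [map_ratCast, ebF]
    rw [e] at h1
    exact h1
  have h2 := sum_terms (gen_Bs hg)
  rw [eq_neg_iff_add_eq_zero, add_comm, ← eq_neg_iff_add_eq_zero]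
  exact h2

/-- **The regulator of the class is not zero.** -/
theorem rz_xi10b [CharZero k] (φ : k →+* ℝ) (h : Gen (-6 / 25 : k) (6 / 5) x y)
    (htop : IntermediateField.adjoin k {x, y} = ⊤) : FK4.RegNe φ (xi10b x y) := by
  have h' : Gen ((-6 / 25 : ℚ) : k) ((6 / 5 : ℚ) : k) x y := by
    push_cast
    exact h
  exact (rz10bx φ h htop).regNe (Xp_tendsto _) h' htop

/-- **The class is not a combination of symbols of constants.** -/
theorem nv_xi10b [CharZero k] (φ : k →+* ℝ) (h : Gen (-6 / 25 : k) (6 / 5) x y)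
    (htop : IntermediateField.adjoin k {x, y} = ⊤) : xi10b x y ∉ TN.KC k F :=
  fun hm => (rz10bx φ h htop).not_mem (mem_span_of_KC hm)

end

end Pool.Agent.K4N
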