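import Pool.Agent.Lib_helper2.K4N.Q10

set_option autoImplicit false
set_option linter.unusedSimpArgs false
set_option linter.unusedSectionVars false

/-!
The nonvanishing of the class for points of order ten at `t = 2` (`b = 24`, `c = 6`).
-/

namespace Pool.Agent.K4N

open Filter Topology Pool.Agent.TN
open scoped TensorProduct

namespace Q10

/-- the reflected ordinate -/
def yb : Q2 := .c 24 + .c 5 * .x - .y
/-- `x/(3(x-8))` -/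
def fA : Q2 := .x / (.c 3 * (.x - .c 8))
/-- the odd unit -/
def uA : Q2 := ((yb * ((.c 24 - .x - .y) * (.c 24 - .x - .y))) * ((.y - .c 3 * .x) *
  (.y - .c 3 * .x) * (.y - .c 3 * .x)) * ((.y - .c 4 * .x) * (.y - .c 4 * .x))) /
  ((.y * ((.y - .c 6 * .x) * (.y - .c 6 * .x))) * ((.c 24 + .c 2 * .x - .y) *
  (.c 24 + .c 2 * .x - .y) * (.c 24 + .c 2 * .x - .y)) * ((.c 24 + .x - .y) * (.c 24 + .x - .y)))
/-- `y/x - 3` -/
def l3 : Q2 := (.y - .c 3 * .x) / .x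
/-- `ȳ/x - 3` -/
def l3b : Q2 := (.c 24 + .c 2 * .x - .y) / .x
/-- `(y/x - 4)/2` -/
def l4 : Q2 := (.y - .c 4 * .x) / (.c 2 * .x)
/-- `(ȳ/x - 4)/2` -/
def l4b : Q2 := (.c 24 + .x - .y) / (.c 2 * .x)
/-- the numerator of the first even unit -/
def vn : Q2 := .c 3 * ((.x - .c 6) * (.x - .c 6) * (.x - .c 6)) *
  ((.x - .c 8) * (.x - .c 8) * (.x - .c 8))
/-- the denominator of the first even unit -/
def vd : Q2 := (.x - .c 24) * (((.x - .c 12) * (.x - .c 12)) * ((.x - .c 12) * (.x - .c 12)))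
/-- the numerator of the second even unit -/
def wn : Q2 := .c 3 * ((.x - .c 6) * (.x - .c 6) * (.x - .c 6)) * ((.x - .c 8) * (.x - .c 8))
/-- the denominator of the second even unit -/
def wd : Q2 := (.x - .c 12) * (((.x - .c 12) * (.x - .c 12)) * ((.x - .c 12) * (.x - .c 12)))

section ev
variable {K : Type*} [Field K] [CharZero K] (u v : K)

lemma ev_yb : yb.ev u v = 24 + 5 * u - v := by
  simp only [yb, Q2.ev_sub, Q2.ev_add, Q2.ev_mul, Q2.ev_c, Q2.ev_x, Q2.ev_y]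
  push_cast
  rfl
lemma ev_fA : fA.ev u v = u / (3 * (u - 8)) := by
  simp only [fA, Q2.ev_sub, Q2.ev_mul, Q2.ev_div, Q2.ev_c, Q2.ev_x]
  push_cast
  rfl
lemma ev_uA : uA.ev u v = ((24 + 5 * u - v) * (24 - u - v) ^ 2 * (v - 3 * u) ^ 3 *
    (v - 4 * u) ^ 2) / (v * (v - 6 * u) ^ 2 * (24 + 2 * u - v) ^ 3 * (24 + u - v) ^ 2) := by
  simp only [uA, ev_yb, Q2.ev_sub, Q2.ev_add, Q2.ev_mul, Q2.ev_div, Q2.ev_c, Q2.ev_x, Q2.ev_y]
  push_cast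
  congr 1 <;> ring
lemma ev_l3 : l3.ev u v = (v - 3 * u) / u := by
  simp only [l3, Q2.ev_sub, Q2.ev_mul, Q2.ev_div, Q2.ev_c, Q2.ev_x, Q2.ev_y]
  push_cast
  rfl
lemma ev_l3b : l3b.ev u v = (24 + 2 * u - v) / u := by
  simp only [l3b, Q2.ev_sub, Q2.ev_add, Q2.ev_mul, Q2.ev_div, Q2.ev_c, Q2.ev_x, Q2.ev_y]
  push_cast
  rfl
lemma ev_l4 : l4.ev u v = (v - 4 * u) / (2 * u) := by
  simp only [l4, Q2.ev_sub, Q2.ev_mul, Q2.ev_div, Q2.ev_c, Q2.ev_x, Q2.ev_y]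
  push_cast
  rfl
lemma ev_l4b : l4b.ev u v = (24 + u - v) / (2 * u) := by
  simp only [l4b, Q2.ev_sub, Q2.ev_add, Q2.ev_mul, Q2.ev_div, Q2.ev_c, Q2.ev_x, Q2.ev_y]
  push_cast
  rfl
lemma ev_vn : vn.ev u v = 3 * (u - 6) ^ 3 * (u - 8) ^ 3 := by
  simp only [vn, Q2.ev_sub, Q2.ev_mul, Q2.ev_c, Q2.ev_x]
  push_cast
  ring
lemma ev_vd : vd.ev u v = (u - 24) * (u - 12) ^ 4 := by
  simp only [vd, Q2.ev_sub, Q2.ev_mul, Q2.ev_c, Q2.ev_x]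
  push_cast
  ring
lemma ev_wn : wn.ev u v = 3 * (u - 6) ^ 3 * (u - 8) ^ 2 := by
  simp only [wn, Q2.ev_sub, Q2.ev_mul, Q2.ev_c, Q2.ev_x]
  push_cast
  ring
lemma ev_wd : wd.ev u v = (u - 12) ^ 5 := by
  simp only [wd, Q2.ev_sub, Q2.ev_mul, Q2.ev_c, Q2.ev_x]
  push_cast
  ring

end ev

section dv

variable {U V : ℝ}

lemma d_A : Q2.dv ((24 : ℚ) : ℝ) ((6 : ℚ) : ℝ) fA U V =
    -(24 * (2 * V - 5 * U - 24) / (3 * (U - 8)) ^ 2) := by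
  simp only [fA, Q2.dv_div, Q2.dv_sub, Q2.dv_mul, Q2.dv_c, Q2.dv_x, Q2.ev_sub, Q2.ev_mul,
    Q2.ev_c, Q2.ev_x]
  push_cast
  rw [← neg_div]
  congr 1
  ring

lemma d_l3 (he : V ^ 2 - 5 * U * V - 24 * V = U ^ 3 - 24 * U ^ 2) :
    Q2.dv ((24 : ℚ) : ℝ) ((6 : ℚ) : ℝ) l3 U V = 1 * (U ^ 3 - 24 * V) / U ^ 2 := by
  simp only [l3, Q2.dv_div, Q2.dv_sub, Q2.dv_add, Q2.dv_mul, Q2.dv_c, Q2.dv_x, Q2.dv_y,
    Q2.ev_sub, Q2.ev_add, Q2.ev_mul, Q2.ev_c, Q2.ev_x, Q2.ev_y]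
  push_cast
  congr 1
  linear_combination (-2) * he

lemma d_l3b (he : V ^ 2 - 5 * U * V - 24 * V = U ^ 3 - 24 * U ^ 2) :
    Q2.dv ((24 : ℚ) : ℝ) ((6 : ℚ) : ℝ) l3b U V =
      -(1 * (U ^ 3 - 24 * (24 + 5 * U - V)) / U ^ 2) := by
  simp only [l3b, Q2.dv_div, Q2.dv_sub, Q2.dv_add, Q2.dv_mul, Q2.dv_c, Q2.dv_x, Q2.dv_y,
    Q2.ev_sub, Q2.ev_add, Q2.ev_mul, Q2.ev_c, Q2.ev_x, Q2.ev_y]
  push_cast
  rw [← neg_div]
  congr 1
  linear_combination 2 * he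

lemma d_l4 (he : V ^ 2 - 5 * U * V - 24 * V = U ^ 3 - 24 * U ^ 2) :
    Q2.dv ((24 : ℚ) : ℝ) ((6 : ℚ) : ℝ) l4 U V = 2 * (U ^ 3 - 24 * V) / (2 * U) ^ 2 := by
  simp only [l4, Q2.dv_div, Q2.dv_sub, Q2.dv_add, Q2.dv_mul, Q2.dv_c, Q2.dv_x, Q2.dv_y,
    Q2.ev_sub, Q2.ev_add, Q2.ev_mul, Q2.ev_c, Q2.ev_x, Q2.ev_y]
  push_cast
  congr 1
  linear_combination (-4) * he

lemma d_l4b (he : V ^ 2 - 5 * U * V - 24 * V = U ^ 3 - 24 * U ^ 2) :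
    Q2.dv ((24 : ℚ) : ℝ) ((6 : ℚ) : ℝ) l4b U V =
      -(2 * (U ^ 3 - 24 * (24 + 5 * U - V)) / (2 * U) ^ 2) := by
  simp only [l4b, Q2.dv_div, Q2.dv_sub, Q2.dv_add, Q2.dv_mul, Q2.dv_c, Q2.dv_x, Q2.dv_y,
    Q2.ev_sub, Q2.ev_add, Q2.ev_mul, Q2.ev_c, Q2.ev_x, Q2.ev_y]
  push_cast
  rw [← neg_div]
  congr 1
  linear_combination 4 * he

end dv

section fam

/-- the functions -/
def f10 : Fin 6 → Q2 := ![fA, fA, l3b, l3, l4b, l4]
/-- the units -/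
def u10 : Fin 6 → Q2 := ![uA, uA, vn / vd, vd / vn, wn / wd, wd / wn]
/-- the translates -/
def a10 : Fin 6 → ℕ := ![0, 1, 0, 0, 0, 0]

/-- the nonvanishing functions -/
def nz10 : List Q2 := [.x, .x - .c 8, .x - .c 12]

variable {k F : Type*} [Field k] [Field F] [Algebra k F] {x y : F}

lemma nz10_ne [CharZero k] [CharZero F] (h : Gen (((24 : ℚ)) : k) ((6 : ℚ) : k) x y) :
    x ≠ 0 ∧ x - 8 ≠ 0 ∧ x - 12 ≠ 0 := by
  have h1 := h.xc_ne 8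
  have h2 := h.xc_ne 12
  simp only [map_ofNat] at h1 h2
  exact ⟨h.x_ne, h1, h2⟩

lemma nz10_ne' [CharZero k] [CharZero F] (h : Gen (((24 : ℚ)) : k) ((6 : ℚ) : k) x y) :
    (x - 24 ≠ 0 ∧ x - 6 ≠ 0) ∧ (y ≠ 0 ∧ y - 6 * x ≠ 0 ∧ y - 3 * x ≠ 0 ∧ y - 4 * x ≠ 0) ∧
    (24 + 5 * x - y ≠ 0 ∧ 24 - x - y ≠ 0 ∧ 24 + 2 * x - y ≠ 0 ∧ 24 + x - y ≠ 0) := by
  have h1 := h.xc_ne 24
  have h2 := h.xc_ne 6
  have h3 := h.yab_ne (-6) 0
  have h4 := h.yab_ne (-3) 0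
  have h5 := h.yab_ne (-4) 0
  have h6 := h.yab_ne (-5) (-24)
  have h7 := h.yab_ne 1 (-24)
  have h8 := h.yab_ne (-2) (-24)
  have h9 := h.yab_ne (-1) (-24)
  simp only [map_neg, map_one, map_zero, map_ofNat, map_div₀] at h1 h2 h3 h4 h5 h6 h7 h8 h9
  refine ⟨⟨h1, h2⟩, ⟨h.y_ne, fun e => h3 ?_, fun e => h4 ?_, fun e => h5 ?_⟩,
    ⟨fun e => h6 ?_, fun e => h7 ?_, fun e => h8 ?_, fun e => h9 ?_⟩⟩
  · linear_combination e
  · linear_combination e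
  · linear_combination e
  · linear_combination -e
  · linear_combination -e
  · linear_combination -e
  · linear_combination -e

lemma real10 (U V : ℝ) (hnz : ∀ e ∈ nz10, e.ev U V ≠ 0) :
    U ≠ 0 ∧ U - 8 ≠ 0 ∧ U - 12 ≠ 0 := by
  simp only [nz10, List.mem_cons, List.not_mem_nil, or_false, forall_eq_or_imp, forall_eq,
    Q2.ev_x, Q2.ev_c, Q2.ev_sub] at hnz
  push_cast at hnz
  exact hnz

/-- a product of signs -/
lemma sg {κ ψ D L : ℝ} (hκ : 0 ≤ κ) (h : ψ * L ≤ 0) : κ * ψ / D ^ 2 * L ≤ 0 := by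
  have e : κ * ψ / D ^ 2 * L = κ / D ^ 2 * (ψ * L) := by ring
  rw [e]
  exact mul_nonpos_of_nonneg_of_nonpos (div_nonneg hκ (sq_nonneg D)) h

lemma sg' {κ ψ D L : ℝ} (hκ : 0 ≤ κ) (h : 0 ≤ ψ * L) : -(κ * ψ / D ^ 2) * L ≤ 0 := by
  have e : -(κ * ψ / D ^ 2) * L = -(κ / D ^ 2 * (ψ * L)) := by ring
  rw [e, neg_nonpos]
  exact mul_nonneg (div_nonneg hκ (sq_nonneg D)) h

theorem rz10a [CharZero k] (φ : k →+* ℝ) (h : Gen (24 : k) 6 x y)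
    (htop : IntermediateField.adjoin k {x, y} = ⊤) : RZ φ x y circ10.X circ10.Y (
    ∑ i : Fin 5 × Fin 6, (1 : ℕ) • K4M.hk (K4M.sy ((f10 i.2).ev
        (It (24 : F) (2 * i.1.val + a10 i.2) (x, y)).1
        (It (24 : F) (2 * i.1.val + a10 i.2) (x, y)).2))
      (K4M.lg ((u10 i.2).ev (It (24 : F) (2 * i.1.val + a10 i.2) (x, y)).1
        (It (24 : F) (2 * i.1.val + a10 i.2) (x, y)).2))) := by
  have : CharZero F := charZero_of_injective_algebraMap (algebraMap k F).injective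
  have e24k : ((24 : ℚ) : k) = 24 := by norm_num
  have e6k : ((6 : ℚ) : k) = 6 := by norm_num
  have e24F : ((24 : ℚ) : F) = 24 := by norm_num
  have e24R : ((24 : ℚ) : ℝ) = 24 := by norm_num
  have e6R : ((6 : ℚ) : ℝ) = 6 := by norm_num
  have h' : Gen ((24 : ℚ) : k) ((6 : ℚ) : k) x y := by rw [e24k, e6k]; exact h
  have heq : ∀ {U V : ℝ}, V ^ 2 + (1 - ((6 : ℚ) : ℝ)) * U * V - ((24 : ℚ) : ℝ) * V =
      U ^ 3 - ((24 : ℚ) : ℝ) * U ^ 2 → V ^ 2 - 5 * U * V - 24 * V = U ^ 3 - 24 * U ^ 2 := by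
    intro U V he
    rw [e24R, e6R] at he
    linear_combination he
  have key := eng3R φ 24 6 (by norm_num) h' htop C10 circ10
    (fun i : Fin 5 × Fin 6 => f10 i.2) (fun i => u10 i.2) (fun i => 2 * i.1.val + a10 i.2)
    (fun i => 2 * i.1.val + a10 i.2) (fun _ => 1) nz10 ?_ ?_ ?_ ?_ ?_
    (0, 4) rfl Nat.one_pos ?_
  · rw [e24F] at key
    exact key
  · intro x' y' hg
    simp only [nz10, List.mem_cons, List.not_mem_nil, or_false, forall_eq_or_imp, forall_eq,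
      Q2.ev_x, Q2.ev_c, Q2.ev_sub]
    have := nz10_ne hg
    push_cast
    exact this
  · intro x' y' hg i
    obtain ⟨a0, a1, a2⟩ := nz10_ne hg
    obtain ⟨⟨a3, a4⟩, ⟨b1, b2, b3, b4⟩, ⟨c1, c2, c3, c4⟩⟩ := nz10_ne' hg
    have n2 : (2 : F) ≠ 0 := two_ne_zero
    have n3 : (3 : F) ≠ 0 := three_ne_zero
    have cA : fA.ev x' y' ≠ 0 ∧ fA.ev x' y' ≠ 1 := by
      rw [ev_fA]
      refine ⟨div_ne_zero a0 (mul_ne_zero n3 a1), fun e => a2 ?_⟩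
      rw [div_eq_one_iff_eq (mul_ne_zero n3 a1)] at e
      linear_combination (-1 / 2) * e
    have cl3 : l3.ev x' y' ≠ 0 ∧ l3.ev x' y' ≠ 1 := by
      rw [ev_l3]
      refine ⟨div_ne_zero b3 a0, fun e => b4 ?_⟩
      rw [div_eq_one_iff_eq a0] at e
      linear_combination e
    have cl3b : l3b.ev x' y' ≠ 0 ∧ l3b.ev x' y' ≠ 1 := by
      rw [ev_l3b]
      refine ⟨div_ne_zero c3 a0, fun e => c4 ?_⟩
      rw [div_eq_one_iff_eq a0] at e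
      linear_combination e
    have cl4 : l4.ev x' y' ≠ 0 ∧ l4.ev x' y' ≠ 1 := by
      rw [ev_l4]
      refine ⟨div_ne_zero b4 (mul_ne_zero n2 a0), fun e => b2 ?_⟩
      rw [div_eq_one_iff_eq (mul_ne_zero n2 a0)] at e
      linear_combination e
    have cl4b : l4b.ev x' y' ≠ 0 ∧ l4b.ev x' y' ≠ 1 := by
      rw [ev_l4b]
      refine ⟨div_ne_zero c4 (mul_ne_zero n2 a0), fun e => c2 ?_⟩
      rw [div_eq_one_iff_eq (mul_ne_zero n2 a0)] at e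
      linear_combination e
    have tA : uA.ev x' y' ≠ 0 := by
      rw [ev_uA]
      exact div_ne_zero (mul_ne_zero (mul_ne_zero (mul_ne_zero c1 (pow_ne_zero 2 c2))
        (pow_ne_zero 3 b3)) (pow_ne_zero 2 b4)) (mul_ne_zero (mul_ne_zero (mul_ne_zero b1
        (pow_ne_zero 2 b2)) (pow_ne_zero 3 c3)) (pow_ne_zero 2 c4))
    have vn0 : vn.ev x' y' ≠ 0 := by
      rw [ev_vn]
      exact mul_ne_zero (mul_ne_zero n3 (pow_ne_zero 3 a4)) (pow_ne_zero 3 a1)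
    have vd0 : vd.ev x' y' ≠ 0 := by
      rw [ev_vd]
      exact mul_ne_zero a3 (pow_ne_zero 4 a2)
    have wn0 : wn.ev x' y' ≠ 0 := by
      rw [ev_wn]
      exact mul_ne_zero (mul_ne_zero n3 (pow_ne_zero 3 a4)) (pow_ne_zero 2 a1)
    have wd0 : wd.ev x' y' ≠ 0 := by
      rw [ev_wd]
      exact pow_ne_zero 5 a2
    have tv : (vn / vd).ev x' y' ≠ 0 := by
      rw [Q2.ev_div]; exact div_ne_zero vn0 vd0
    have tv' : (vd / vn).ev x' y' ≠ 0 := by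
      rw [Q2.ev_div]; exact div_ne_zero vd0 vn0
    have tw : (wn / wd).ev x' y' ≠ 0 := by
      rw [Q2.ev_div]; exact div_ne_zero wn0 wd0
    have tw' : (wd / wn).ev x' y' ≠ 0 := by
      rw [Q2.ev_div]; exact div_ne_zero wd0 wn0
    obtain ⟨i, m⟩ := i
    fin_cases m
    · exact ⟨cA.1, cA.2, tA⟩
    · exact ⟨cA.1, cA.2, tA⟩
    · exact ⟨cl3b.1, cl3b.2, tv⟩
    · exact ⟨cl3.1, cl3.2, tv'⟩
    · exact ⟨cl4b.1, cl4b.2, tw⟩
    · exact ⟨cl4.1, cl4.2, tw'⟩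
  · intro i U V hnz
    obtain ⟨a0, a1, a2⟩ := real10 U V hnz
    have n2 : ((2 : ℚ) : ℝ) * U ≠ 0 := mul_ne_zero (by norm_num) a0
    have oA : fA.ok U V := by
      refine ⟨trivial, ⟨trivial, ⟨trivial, trivial⟩⟩, ?_⟩
      show ((3 : ℚ) : ℝ) * (U - ((8 : ℚ) : ℝ)) ≠ 0
      push_cast
      exact mul_ne_zero (by norm_num) a1
    have o3 : l3.ok U V := ⟨⟨trivial, ⟨trivial, trivial⟩⟩, trivial, a0⟩
    have o3b : l3b.ok U V := ⟨⟨⟨trivial, ⟨trivial, trivial⟩⟩, trivial⟩, trivial, a0⟩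
    have o4 : l4.ok U V := ⟨⟨trivial, ⟨trivial, trivial⟩⟩, ⟨trivial, trivial⟩, n2⟩
    have o4b : l4b.ok U V := ⟨⟨⟨trivial, trivial⟩, trivial⟩, ⟨trivial, trivial⟩, n2⟩
    obtain ⟨i, m⟩ := i
    fin_cases m
    · exact oA
    · exact oA
    · exact o3b
    · exact o3
    · exact o4b
    · exact o4
  · intro n U V he hU hnz hC
    have h1 := comp10 (heq he) hU hC
    rw [← e24R] at h1
    exact h1
  · intro i U V U' V' he hU hnz hC he' hU' hnz' hC' hjl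
    obtain ⟨rfl, rfl⟩ := hjl rfl
    replace he := heq he
    have even0 : ∀ (j : ℕ) {A B : ℝ}, C10 (2 * j + 0) A B → 11 ≤ A := fun j A B hc =>
      hc.1 (by rw [add_zero]; exact even_two_mul _)
    have odd : ∀ (j : ℕ) {A B : ℝ}, C10 (2 * j + 1) A B → A ≤ 8 := fun j A B hc =>
      hc.2 (by rw [Nat.even_add_one, not_not]; exact even_two_mul j)
    have T : (11 ≤ U' ∨ (-8 / 5 ≤ U' ∧ U' ≤ 8)) → fA.dv ((24 : ℚ) : ℝ) ((6 : ℚ) : ℝ) U' V' *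
        Real.log (uA.ev U' V') ≤ 0 := fun hh => by
      rw [d_A, ev_uA]
      exact sg' (by norm_num) (tA he hh)
    obtain ⟨⟨i, hi⟩, m⟩ := i
    fin_cases m
    · exact T (Or.inl (even0 i hC))
    · have h8 := odd i hC
      exact T (Or.inr ⟨oval10 he h8, h8⟩)
    · have h11 := even0 i hC
      show l3b.dv ((24 : ℚ) : ℝ) ((6 : ℚ) : ℝ) U' V' * Real.log ((vn / vd).ev U' V') ≤ 0
      rw [d_l3b he, Q2.ev_div, ev_vn, ev_vd]
      exact sg' (by norm_num) (mul_nonneg (lam10 he h11).2.le (log_div_nonneg (un10 h11).1))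
    · have h11 := even0 i hC
      show l3.dv ((24 : ℚ) : ℝ) ((6 : ℚ) : ℝ) U' V' * Real.log ((vd / vn).ev U' V') ≤ 0
      rw [d_l3 he, Q2.ev_div, ev_vn, ev_vd]
      exact sg (by norm_num) (mul_nonpos_of_nonneg_of_nonpos (lam10 he h11).1.le
        (log_div_nonpos (un10 h11).1))
    · have h11 := even0 i hC
      show l4b.dv ((24 : ℚ) : ℝ) ((6 : ℚ) : ℝ) U' V' * Real.log ((wn / wd).ev U' V') ≤ 0
      rw [d_l4b he, Q2.ev_div, ev_wn, ev_wd]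
      exact sg' (by norm_num) (mul_nonneg (lam10 he h11).2.le (log_div_nonneg (un10 h11).2.le))
    · have h11 := even0 i hC
      show l4.dv ((24 : ℚ) : ℝ) ((6 : ℚ) : ℝ) U' V' * Real.log ((wd / wn).ev U' V') ≤ 0
      rw [d_l4 he, Q2.ev_div, ev_wn, ev_wd]
      exact sg (by norm_num) (mul_nonpos_of_nonneg_of_nonpos (lam10 he h11).1.le
        (log_div_nonpos (un10 h11).2.le))
  · intro U V he hU hnz hC
    obtain ⟨a0, a1, a2⟩ := real10 U V hnz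
    replace he := heq he
    have h11 : 11 ≤ U := hC.1 (by decide)
    show l4b.dv ((24 : ℚ) : ℝ) ((6 : ℚ) : ℝ) U V * Real.log ((wn / wd).ev U V) < 0
    rw [d_l4b he, Q2.ev_div, ev_wn, ev_wd]
    have h1 := mul_pos (lam10 he h11).2 (log_div_pos (pow_ne_zero 5 a2) (un10 h11).2)
    have e : ∀ L : ℝ, -(2 * (U ^ 3 - 24 * (24 + 5 * U - V)) / (2 * U) ^ 2) * L =
        -(2 / (2 * U) ^ 2 * ((U ^ 3 - 24 * (24 + 5 * U - V)) * L)) := fun L => by ring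
    rw [e]
    exact neg_neg_of_pos (mul_pos (div_pos (by norm_num) (by positivity)) h1)

end fam

end Q10

end Pool.Agent.K4N
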