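import Pool.Agent.Lib_helper2.K4N.Q10N

set_option autoImplicit false
set_option linter.unusedSectionVars false
set_option linter.unusedSimpArgs false

/-!
The class for points of order ten at `t = 2` (`b = 24`, `c = 6`).
-/

namespace Pool.Agent.K4N

open Pool.Agent.TN
open scoped TensorProduct

section

variable {k F : Type*} [Field k] [Field F] [Algebra k F] {x y : F}

/-- the term at every translate -/
noncomputable def term10a (x y : F) : MK4.HK F :=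
  MK4.hk (MK4.sy (x / (3 * (x - 8)))) (MK4.lg ((x - 24) ^ 3 * (y - 3 * x) ^ 6 *
    (y - 4 * x) ^ 4 / (x * (x - 6) * (x - 12) ^ 5 * (x - 8) ^ 2 * y ^ 2 * (y - 6 * x) ^ 4)))

/-- the terms at an even translate -/
noncomputable def term10b (x y : F) : MK4.HK F :=
  MK4.hk (MK4.sy (-((x - 6) * (x - 12)) / (y - 3 * x)))
      (MK4.lg (3 * (x - 6) ^ 3 * (x - 8) ^ 3 / ((x - 24) * (x - 12) ^ 4))) -
    MK4.hk (MK4.sy ((y - 3 * x) / x))
      (MK4.lg (3 * (x - 6) ^ 3 * (x - 8) ^ 3 / ((x - 24) * (x - 12) ^ 4))) +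
    MK4.hk (MK4.sy (-((x - 12) * (x - 8)) / (2 * (y - 4 * x))))
      (MK4.lg (3 * (x - 6) ^ 3 * (x - 8) ^ 2 / (x - 12) ^ 5)) -
    MK4.hk (MK4.sy ((y - 4 * x) / (2 * x)))
      (MK4.lg (3 * (x - 6) ^ 3 * (x - 8) ^ 2 / (x - 12) ^ 5))

/-- the sum over the translates by the multiples of `P` -/
noncomputable def xi10a (x y : F) : MK4.HK F :=
  ∑ j : Fin 10, term10a (It (24 : F) j.val (x, y)).1 (It (24 : F) j.val (x, y)).2 +
  ∑ j : Fin 5, term10b (It (24 : F) (2 * j.val) (x, y)).1 (It (24 : F) (2 * j.val) (x, y)).2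

lemma nz10' [CharZero k] [CharZero F] (h : Gen ((24 : ℚ) : k) ((6 : ℚ) : k) x y) :
    y ^ 2 - 5 * x * y - 24 * y = x ^ 3 - 24 * x ^ 2 := by
  have := h.eq
  simp only [map_ratCast] at this
  push_cast at this
  linear_combination this

lemma lg10_yb (hx : x ≠ 0) (h3 : x - 24 ≠ 0) (hy : y ≠ 0) [CharZero F]
    (he : y ^ 2 - 5 * x * y - 24 * y = x ^ 3 - 24 * x ^ 2) :
    MK4.lg (24 + 5 * x - y) = (2 : ℚ) • MK4.lg x + MK4.lg (x - 24) - MK4.lg y := by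
  have e : 24 + 5 * x - y = -(x ^ 2 * (x - 24)) / y := by
    rw [eq_div_iff hy]; linear_combination -he
  rw [e, TN.lgdiv (neg_ne_zero.mpr (mul_ne_zero (pow_ne_zero 2 hx) h3)) hy, TN.lgneg,
    TN.lgmul (pow_ne_zero 2 hx) h3, TN.lgpow hx]
  push_cast
  rfl

lemma lg10_y6 (hx : x ≠ 0) (h1 : x - 24 ≠ 0) (h2 : x - 6 ≠ 0) (hy : y - 6 * x ≠ 0)
    [CharZero F] (he : y ^ 2 - 5 * x * y - 24 * y = x ^ 3 - 24 * x ^ 2) :
    MK4.lg (24 - x - y) = MK4.lg x + MK4.lg (x - 24) + MK4.lg (x - 6) -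
      MK4.lg (y - 6 * x) := by
  have e : 24 - x - y = -(x * (x - 24) * (x - 6)) / (y - 6 * x) := by
    rw [eq_div_iff hy]; linear_combination -he
  rw [e, TN.lgdiv (neg_ne_zero.mpr (mul_ne_zero (mul_ne_zero hx h1) h2)) hy, TN.lgneg,
    TN.lgmul (mul_ne_zero hx h1) h2, TN.lgmul hx h1]

lemma e10_y3 (hx : x ≠ 0) (hy : y - 3 * x ≠ 0)
    (he : y ^ 2 - 5 * x * y - 24 * y = x ^ 3 - 24 * x ^ 2) :
    (24 + 2 * x - y) / x = -((x - 6) * (x - 12)) / (y - 3 * x) := by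
  rw [div_eq_div_iff hx hy]; linear_combination -he

lemma e10_y4 [CharZero F] (hx : x ≠ 0) (hy : y - 4 * x ≠ 0)
    (he : y ^ 2 - 5 * x * y - 24 * y = x ^ 3 - 24 * x ^ 2) :
    (24 + x - y) / (2 * x) = -((x - 12) * (x - 8)) / (2 * (y - 4 * x)) := by
  have n2 : (2 : F) ≠ 0 := two_ne_zero
  rw [div_eq_div_iff (mul_ne_zero n2 hx) (mul_ne_zero n2 hy)]; linear_combination -2 * he

lemma lg10_y3 (hx : x ≠ 0) (h1 : x - 6 ≠ 0) (h2 : x - 12 ≠ 0) (hy : y - 3 * x ≠ 0)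
    [CharZero F] (he : y ^ 2 - 5 * x * y - 24 * y = x ^ 3 - 24 * x ^ 2) :
    MK4.lg (24 + 2 * x - y) = MK4.lg x + MK4.lg (x - 6) + MK4.lg (x - 12) -
      MK4.lg (y - 3 * x) := by
  have e : 24 + 2 * x - y = -(x * (x - 6) * (x - 12)) / (y - 3 * x) := by
    rw [eq_div_iff hy]; linear_combination -he
  rw [e, TN.lgdiv (neg_ne_zero.mpr (mul_ne_zero (mul_ne_zero hx h1) h2)) hy, TN.lgneg,
    TN.lgmul (mul_ne_zero hx h1) h2, TN.lgmul hx h1]

lemma lg10_y4 (hx : x ≠ 0) (h1 : x - 12 ≠ 0) (h2 : x - 8 ≠ 0) (hy : y - 4 * x ≠ 0)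
    [CharZero F] (he : y ^ 2 - 5 * x * y - 24 * y = x ^ 3 - 24 * x ^ 2) :
    MK4.lg (24 + x - y) = MK4.lg x + MK4.lg (x - 12) + MK4.lg (x - 8) -
      MK4.lg (y - 4 * x) := by
  have e : 24 + x - y = -(x * (x - 12) * (x - 8)) / (y - 4 * x) := by
    rw [eq_div_iff hy]; linear_combination -he
  rw [e, TN.lgdiv (neg_ne_zero.mpr (mul_ne_zero (mul_ne_zero hx h1) h2)) hy, TN.lgneg,
    TN.lgmul (mul_ne_zero hx h1) h2, TN.lgmul hx h1]

lemma term10a_eq [CharZero k] [CharZero F] (h : Gen ((24 : ℚ) : k) ((6 : ℚ) : k) x y) :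
    term10a x y = MK4.hk (MK4.sy (Q10.fA.ev x y)) (MK4.lg (Q10.uA.ev x y)) := by
  have he := nz10' h
  obtain ⟨hx, h8, h12⟩ := Q10.nz10_ne h
  obtain ⟨⟨h24, h6⟩, ⟨hy, hy6, hy3, hy4⟩, ⟨c1, c2, c3, c4⟩⟩ := Q10.nz10_ne' h
  have t : MK4.lg (Q10.uA.ev x y) = MK4.lg ((x - 24) ^ 3 * (y - 3 * x) ^ 6 *
    (y - 4 * x) ^ 4 / (x * (x - 6) * (x - 12) ^ 5 * (x - 8) ^ 2 * y ^ 2 * (y - 6 * x) ^ 4)) := by
    have m1 := mul_ne_zero (mul_ne_zero (mul_ne_zero c1 (pow_ne_zero 2 c2)) (pow_ne_zero 3 hy3))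
      (pow_ne_zero 2 hy4)
    have m2 := mul_ne_zero (mul_ne_zero (mul_ne_zero hy (pow_ne_zero 2 hy6)) (pow_ne_zero 3 c3))
      (pow_ne_zero 2 c4)
    rw [Q10.ev_uA, TN.lgdiv m1 m2, TN.lgmul (left_ne_zero_of_mul m1) (pow_ne_zero 2 hy4),
      TN.lgmul (left_ne_zero_of_mul (left_ne_zero_of_mul m1)) (pow_ne_zero 3 hy3),
      TN.lgmul c1 (pow_ne_zero 2 c2), TN.lgmul (left_ne_zero_of_mul m2) (pow_ne_zero 2 c4),
      TN.lgmul (left_ne_zero_of_mul (left_ne_zero_of_mul m2)) (pow_ne_zero 3 c3),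
      TN.lgmul hy (pow_ne_zero 2 hy6), TN.lgpow c2, TN.lgpow hy3, TN.lgpow hy4, TN.lgpow hy6,
      TN.lgpow c3, TN.lgpow c4, lg10_yb hx h24 hy he, lg10_y6 hx h24 h6 hy6 he,
      lg10_y3 hx h6 h12 hy3 he, lg10_y4 hx h12 h8 hy4 he]
    have q1 := mul_ne_zero (mul_ne_zero (pow_ne_zero 3 h24) (pow_ne_zero 6 hy3))
      (pow_ne_zero 4 hy4)
    have q2 := mul_ne_zero (mul_ne_zero (mul_ne_zero (mul_ne_zero (mul_ne_zero hx h6)
      (pow_ne_zero 5 h12)) (pow_ne_zero 2 h8)) (pow_ne_zero 2 hy)) (pow_ne_zero 4 hy6)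
    rw [TN.lgdiv q1 q2, TN.lgmul (left_ne_zero_of_mul q1) (pow_ne_zero 4 hy4),
      TN.lgmul (pow_ne_zero 3 h24) (pow_ne_zero 6 hy3),
      TN.lgmul (left_ne_zero_of_mul q2) (pow_ne_zero 4 hy6),
      TN.lgmul (left_ne_zero_of_mul (left_ne_zero_of_mul q2)) (pow_ne_zero 2 hy),
      TN.lgmul (left_ne_zero_of_mul (left_ne_zero_of_mul (left_ne_zero_of_mul q2)))
        (pow_ne_zero 2 h8),
      TN.lgmul (mul_ne_zero hx h6) (pow_ne_zero 5 h12), TN.lgmul hx h6,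
      TN.lgpow h24, TN.lgpow hy3, TN.lgpow hy4, TN.lgpow h12, TN.lgpow h8, TN.lgpow hy,
      TN.lgpow hy6]
    generalize MK4.lg x = A
    generalize MK4.lg (x - 24) = B
    generalize MK4.lg (x - 6) = C
    generalize MK4.lg (x - 12) = D
    generalize MK4.lg (x - 8) = E
    generalize MK4.lg y = G
    generalize MK4.lg (y - 6 * x) = H
    generalize MK4.lg (y - 3 * x) = I
    generalize MK4.lg (y - 4 * x) = J
    push_cast
    module
  rw [t, Q10.ev_fA, term10a]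

lemma term10b_eq [CharZero k] [CharZero F] (h : Gen ((24 : ℚ) : k) ((6 : ℚ) : k) x y) :
    term10b x y = MK4.hk (MK4.sy (Q10.l3b.ev x y)) (MK4.lg ((Q10.vn / Q10.vd).ev x y)) +
      MK4.hk (MK4.sy (Q10.l3.ev x y)) (MK4.lg ((Q10.vd / Q10.vn).ev x y)) +
      MK4.hk (MK4.sy (Q10.l4b.ev x y)) (MK4.lg ((Q10.wn / Q10.wd).ev x y)) +
      MK4.hk (MK4.sy (Q10.l4.ev x y)) (MK4.lg ((Q10.wd / Q10.wn).ev x y)) := by
  have he := nz10' h
  obtain ⟨hx, h8, h12⟩ := Q10.nz10_ne h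
  obtain ⟨⟨h24, h6⟩, ⟨hy, hy6, hy3, hy4⟩, ⟨c1, c2, c3, c4⟩⟩ := Q10.nz10_ne' h
  have n3 : (3 : F) ≠ 0 := three_ne_zero
  have vn0 : Q10.vn.ev x y ≠ 0 := by
    rw [Q10.ev_vn]
    exact mul_ne_zero (mul_ne_zero n3 (pow_ne_zero 3 h6)) (pow_ne_zero 3 h8)
  have vd0 : Q10.vd.ev x y ≠ 0 := by
    rw [Q10.ev_vd]
    exact mul_ne_zero h24 (pow_ne_zero 4 h12)
  have wn0 : Q10.wn.ev x y ≠ 0 := by
    rw [Q10.ev_wn]
    exact mul_ne_zero (mul_ne_zero n3 (pow_ne_zero 3 h6)) (pow_ne_zero 2 h8)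
  have wd0 : Q10.wd.ev x y ≠ 0 := by
    rw [Q10.ev_wd]
    exact pow_ne_zero 5 h12
  have t1 : MK4.lg ((Q10.vd / Q10.vn).ev x y) = -MK4.lg ((Q10.vn / Q10.vd).ev x y) := by
    rw [Q2.ev_div, Q2.ev_div, TN.lgdiv vd0 vn0, TN.lgdiv vn0 vd0, neg_sub]
  have t2 : MK4.lg ((Q10.wd / Q10.wn).ev x y) = -MK4.lg ((Q10.wn / Q10.wd).ev x y) := by
    rw [Q2.ev_div, Q2.ev_div, TN.lgdiv wd0 wn0, TN.lgdiv wn0 wd0, neg_sub]
  rw [t1, t2, Q2.ev_div, Q2.ev_div, Q10.ev_vn, Q10.ev_vd, Q10.ev_wn, Q10.ev_wd, Q10.ev_l3b,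
    Q10.ev_l3, Q10.ev_l4b, Q10.ev_l4, e10_y3 hx hy3 he, e10_y4 hx hy4 he, term10b,
    TN.hk_neg_right, TN.hk_neg_right]
  abel

/-- **The regulator of the class is not zero.** -/
theorem rz10ax [CharZero k] (φ : k →+* ℝ) (h : Gen (24 : k) 6 x y)
    (htop : IntermediateField.adjoin k {x, y} = ⊤) :
    RZ φ x y Q10.circ10.X Q10.circ10.Y (xi10a x y) := by
  have : CharZero F := charZero_of_injective_algebraMap (algebraMap k F).injective
  have key := Q10.rz10a φ h htop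
  have h24 : (24 : k) ≠ 0 := by norm_num
  have e24k : ((24 : ℚ) : k) = 24 := by norm_num
  have e6k : ((6 : ℚ) : k) = 6 := by norm_num
  have hg : ∀ n, Gen ((24 : ℚ) : k) ((6 : ℚ) : k) (It (24 : F) n (x, y)).1
      (It (24 : F) n (x, y)).2 := by
    intro n
    have := gen_It h24 h n
    rw [map_ofNat] at this
    rw [e24k, e6k]
    exact this
  have e : xi10a x y = ∑ j : Fin 5, ∑ m : Fin 6, (1 : ℕ) • MK4.hk (MK4.sy ((Q10.f10 m).ev
        (It (24 : F) (2 * j.val + Q10.a10 m) (x, y)).1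
        (It (24 : F) (2 * j.val + Q10.a10 m) (x, y)).2))
      (MK4.lg ((Q10.u10 m).ev (It (24 : F) (2 * j.val + Q10.a10 m) (x, y)).1
        (It (24 : F) (2 * j.val + Q10.a10 m) (x, y)).2)) := by
    have s10 : ∀ g : ℕ → MK4.HK F, ∑ j : Fin 10, g j.val =
        ∑ j : Fin 5, (g (2 * j.val) + g (2 * j.val + 1)) := by
      intro g
      simp only [Fin.sum_univ_succ, Fin.sum_univ_zero, Fin.val_zero, Fin.val_succ]
      abel
    unfold xi10a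
    rw [s10 fun n => term10a (It (24 : F) n (x, y)).1 (It (24 : F) n (x, y)).2,
      ← Finset.sum_add_distrib]
    refine Finset.sum_congr rfl fun j _ => ?_
    rw [term10a_eq (hg _), term10a_eq (hg _), term10b_eq (hg _)]
    simp only [Fin.sum_univ_succ, Fin.sum_univ_zero]
    show _ =
      (1 : ℕ) • MK4.hk (MK4.sy (Q10.fA.ev (It (24 : F) (2 * j.val) (x, y)).1
          (It (24 : F) (2 * j.val) (x, y)).2))
        (MK4.lg (Q10.uA.ev (It (24 : F) (2 * j.val) (x, y)).1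
          (It (24 : F) (2 * j.val) (x, y)).2)) +
      ((1 : ℕ) • MK4.hk (MK4.sy (Q10.fA.ev (It (24 : F) (2 * j.val + 1) (x, y)).1
          (It (24 : F) (2 * j.val + 1) (x, y)).2))
        (MK4.lg (Q10.uA.ev (It (24 : F) (2 * j.val + 1) (x, y)).1
          (It (24 : F) (2 * j.val + 1) (x, y)).2)) +
      ((1 : ℕ) • MK4.hk (MK4.sy (Q10.l3b.ev (It (24 : F) (2 * j.val) (x, y)).1
          (It (24 : F) (2 * j.val) (x, y)).2))
        (MK4.lg ((Q10.vn / Q10.vd).ev (It (24 : F) (2 * j.val) (x, y)).1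
          (It (24 : F) (2 * j.val) (x, y)).2)) +
      ((1 : ℕ) • MK4.hk (MK4.sy (Q10.l3.ev (It (24 : F) (2 * j.val) (x, y)).1
          (It (24 : F) (2 * j.val) (x, y)).2))
        (MK4.lg ((Q10.vd / Q10.vn).ev (It (24 : F) (2 * j.val) (x, y)).1
          (It (24 : F) (2 * j.val) (x, y)).2)) +
      ((1 : ℕ) • MK4.hk (MK4.sy (Q10.l4b.ev (It (24 : F) (2 * j.val) (x, y)).1
          (It (24 : F) (2 * j.val) (x, y)).2))
        (MK4.lg ((Q10.wn / Q10.wd).ev (It (24 : F) (2 * j.val) (x, y)).1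
          (It (24 : F) (2 * j.val) (x, y)).2)) +
      ((1 : ℕ) • MK4.hk (MK4.sy (Q10.l4.ev (It (24 : F) (2 * j.val) (x, y)).1
          (It (24 : F) (2 * j.val) (x, y)).2))
        (MK4.lg ((Q10.wd / Q10.wn).ev (It (24 : F) (2 * j.val) (x, y)).1
          (It (24 : F) (2 * j.val) (x, y)).2)) + 0)))))
    simp only [one_smul]
    abel
  have e2 := Fintype.sum_prod_type (fun i : Fin 5 × Fin 6 => ((1 : ℕ) •
    MK4.hk (MK4.sy ((Q10.f10 i.2).ev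
        (It (24 : F) (2 * i.1.val + Q10.a10 i.2) (x, y)).1
        (It (24 : F) (2 * i.1.val + Q10.a10 i.2) (x, y)).2))
      (MK4.lg ((Q10.u10 i.2).ev (It (24 : F) (2 * i.1.val + Q10.a10 i.2) (x, y)).1
        (It (24 : F) (2 * i.1.val + Q10.a10 i.2) (x, y)).2)) : MK4.HK F))
  rw [← e2] at e
  exact key.of_eq e

/-- **The regulator of the class is not zero.** -/
theorem rz_xi10a [CharZero k] (φ : k →+* ℝ) (h : Gen (24 : k) 6 x y)
    (htop : IntermediateField.adjoin k {x, y} = ⊤) : FK4.RegNe φ (xi10a x y) := by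
  have h' : Gen ((24 : ℚ) : k) ((6 : ℚ) : k) x y := by
    push_cast
    exact h
  exact (rz10ax φ h htop).regNe (Xp_tendsto _) h' htop

/-- **The class is not a combination of symbols of constants.** -/
theorem nv_xi10a [CharZero k] (φ : k →+* ℝ) (h : Gen (24 : k) 6 x y)
    (htop : IntermediateField.adjoin k {x, y} = ⊤) : xi10a x y ∉ TN.KC k F :=
  fun hm => (rz10ax φ h htop).not_mem (mem_span_of_KC hm)

end

end Pool.Agent.K4N
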