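import Pool.Agent.Lib_helper2.K4N.EngR
import Pool.Agent.Lib_helper2.K4N.Crit
import Pool.Agent.Lib_helper24.TN.N4K

set_option autoImplicit false

/-!
The nonvanishing of the class on `y² + xy + y = x³ + x²` (points of order four, `t = -1`).
-/

namespace Pool.Agent.K4N

open Filter Topology Pool.Agent.TN
open scoped TensorProduct

section real

variable {X Y c : ℝ}

/-- the derivative of `y/x²` -/
lemma d4m (hE : Y ^ 2 + X * Y + Y = X ^ 3 + X ^ 2) (hX : X ≠ 0) (hX1 : X + 1 ≠ 0) :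
    ((3 * X ^ 2 + 2 * X - Y) * c * X ^ 2 - Y * (2 * X * ((2 * Y + X + 1) * c))) / (X ^ 2) ^ 2 =
      -(c * (Y ^ 2 * (X + 2) / ((X + 1) * X ^ 3))) := by
  field_simp
  grind

end real

/-- the circle of real points -/
lemma circle4m : ∃ X Y c : ℝ → ℝ, Mer X ∧ Mer Y ∧
    (∀ s, Y s ^ 2 + X s * Y s + Y s = X s ^ 3 + X s ^ 2) ∧ (∀ a, ∀ᶠ s in cofinite, X s ≠ a) ∧
    (∀ s, 0 < c s) ∧ (∀ s, HasDerivAt X ((2 * Y s + X s + 1) * c s) s) ∧
    (∀ s, HasDerivAt Y ((3 * X s ^ 2 + 2 * X s - Y s) * c s) s) ∧ (∀ s, -1 ≤ X s) ∧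
    Tendsto X (cocompact ℝ) atTop := by
  have hP : ∀ x : ℝ, 4 * x ^ 3 + ((1 : ℝ) ^ 2 + 4 * 1) * x ^ 2 + 2 * (2 * 0 + 1 * 1) * x +
      (1 ^ 2 + 4 * 0) = (x - (-1)) * (4 * x ^ 2 + 1 * x + 1) := by
    intro x; ring
  have hq : ∀ x : ℝ, (-1 : ℝ) ≤ x → 0 < 4 * x ^ 2 + 1 * x + 1 := by
    intro x _
    nlinarith [sq_nonneg (8 * x + 1)]
  refine ⟨Xp (-1), Yp 1 1 (-1) 1 1, cp (-1) 1 1, Xp_mer _, Yp_mer 1 1 (-1) 1 1 hq, ?_, Xp_fin _,
    cp_pos (-1) 1 1 hq, ?_, ?_, ?_, Xp_tendsto _⟩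
  · intro s
    have := Yp_eqn 1 1 1 0 0 (-1) 1 1 hP hq s
    linear_combination this
  · intro s
    refine (Xp_deriv' 1 1 (-1) 1 1 hq s).congr_deriv ?_
    ring
  · intro s
    refine (Yp_deriv' 1 1 1 0 0 (-1) 1 1 hP hq s).congr_deriv ?_
    ring
  · intro s
    unfold Xp
    nlinarith [sq_nonneg s]

section final

variable {k F : Type*} [Field k] [Field F] [Algebra k F] {x y : F}

/-- **The regulator of the class is not zero.** -/
theorem rr4m [CharZero k] (φ : k →+* ℝ) (h : TN.Gen (-1 : k) 0 x y)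
    (htop : IntermediateField.adjoin k {x, y} = ⊤) : ∃ X Y : ℝ → ℝ,
    FK4.Loop (TN.Wt (-1 : k) 0) φ X Y ∧ RZ φ x y X Y (TN.N4.xi x y (algebraMap k F (-1))) := by
  have : CharZero F := charZero_of_injective_algebraMap (algebraMap k F).injective
  have hE : y ^ 2 + x * y + y = x ^ 3 + x ^ 2 := by
    have := h.eq
    simp only [map_neg, map_one, map_zero] at this
    linear_combination this
  have hx := h.x_ne
  have hy := h.y_ne
  have hx1 : x + 1 ≠ 0 := by
    have := h.xc_ne (-1)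
    simpa using this
  have hyb : -y - x - 1 ≠ 0 := by
    intro h0
    have h1 : y * (-y - x - 1) = -(x ^ 2 * (x + 1)) := by linear_combination -hE
    rw [h0, mul_zero] at h1
    exact mul_ne_zero (pow_ne_zero 2 hx) hx1 (neg_eq_zero.mp h1.symm)
  obtain ⟨X, Y, c, mX, mY, hXY, hfin, hc, hX, hY, hX1, hlim⟩ := circle4m
  have hER : ∀ s, TN.Eqn (TN.Wt (-1 : k) 0) φ (X s) (Y s) := by
    intro s
    show Y s ^ 2 + φ (1 - 0) * X s * Y s + φ (-(-1)) * Y s =
      X s ^ 3 + φ (-(-1)) * X s ^ 2 + φ 0 * X s + φ 0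
    simp only [map_zero, map_one, map_neg, sub_zero, neg_neg]
    linear_combination hXY s
  obtain ⟨R, ρ, P, hR, hRx, hRy, hRc, hP, hP0⟩ := exists_reg φ h.eqn ((TN.Tr_iff x).mp h.tr) htop
    mX mY hER hfin
  refine ⟨X, Y, ?_, ?_⟩
  · refine ⟨hER, ⟨c, fun s => ⟨hc s, (hX s).congr_deriv ?_, (hY s).congr_deriv ?_⟩⟩, hlim⟩
    · show _ = c s * (2 * Y s + φ (1 - 0) * X s + φ (-(-1)))
      simp only [map_zero, map_one, map_neg, sub_zero, neg_neg]
      ring
    · show _ = c s * (3 * X s ^ 2 + 2 * φ (-(-1)) * X s + φ 0 - φ (1 - 0) * Y s)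
      simp only [map_zero, map_one, map_neg, sub_zero, neg_neg]
      ring
  have hRone : R 1 = ((fun _ => (1 : ℝ) : ℝ → ℝ) : VG) := by rw [map_one]; rfl
  have hRx1 : R (x + 1) = ((fun s => X s + 1 : ℝ → ℝ) : VG) := R_add hRx hRone
  have hRyb : R (-y - x - 1) = ((fun s => -Y s - X s - 1 : ℝ → ℝ) : VG) := by
    rw [map_sub, map_sub, map_neg, hRx, hRy, map_one]
    rfl
  -- the element
  let f : Fin 2 → F := ![-x, y / x ^ 2]
  let u : Fin 2 → F := ![(-y - x - 1) / y, x + 1]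
  have n0 : -x ≠ 1 := by
    intro h0
    apply hx1
    linear_combination -h0
  have n1 : y / x ^ 2 ≠ 1 := by
    intro h'
    rw [div_eq_one_iff_eq (pow_ne_zero 2 hx)] at h'
    apply hy
    have : y ^ 2 = 0 := by rw [h'] at hE ⊢; linear_combination hE
    exact pow_eq_zero_iff (two_ne_zero) |>.mp this
  have key : RZ φ x y X Y (∑ i, K4M.hk (K4M.sy (f i)) (K4M.lg (u i))) := by
    refine ⟨P, hP, fun c hc => (hP0 c).mpr (ρ.KK_le hR hRc c hc), fun hz => ?_⟩
    refine reg_ne ρ f u ?_ ?_ ?_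
      ![fun s => -X s, fun s => Y s / X s ^ 2]
      ![fun s => (-Y s - X s - 1) / Y s, fun s => X s + 1] ?_ ?_ (fun _ => 0) Ex.zero ?_ ((hP0 _).mp hz)
    · intro i
      fin_cases i
      · exact neg_ne_zero.mpr hx
      · exact div_ne_zero hy (pow_ne_zero 2 hx)
    · intro i
      fin_cases i
      · exact n0
      · exact n1
    · intro i
      fin_cases i
      · exact div_ne_zero hyb hy
      · exact hx1
    · intro i
      fin_cases i
      · exact rep_of hR (R_neg hRx)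
      · exact rep_of hR (R_div hR hRy (R_pow hRx 2))
    · intro i
      fin_cases i
      · exact rep_of hR (R_div hR hRyb hRy)
      · exact rep_of hR hRx1
    · have gx : ∀ᶠ s in cofinite, X s ≠ 0 := hfin 0
      have gx1 : ∀ᶠ s in cofinite, X s ≠ -1 := hfin (-1)
      filter_upwards [gx, gx1] with s a b
      have b0 : X s + 1 ≠ 0 := fun h0 => b (by linear_combination h0)
      have b1 : 0 < X s + 1 := lt_of_le_of_ne (by linarith [hX1 s]) (Ne.symm b0)
      have hp : Y s * (-Y s - X s - 1) = -(X s ^ 2 * (X s + 1)) := by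
        linear_combination -hXY s
      have hpn : -(X s ^ 2 * (X s + 1)) ≠ 0 := neg_ne_zero.mpr (mul_ne_zero (pow_ne_zero 2 a) b0)
      rw [← hp] at hpn
      have dy : Y s ≠ 0 := left_ne_zero_of_mul hpn
      have dyb : -Y s - X s - 1 ≠ 0 := right_ne_zero_of_mul hpn
      rw [Fin.sum_univ_two, zero_add]
      have e0 : deriv (fun s => -X s) s = -((2 * Y s + X s + 1) * c s) := (hX s).neg.deriv
      have e1 : deriv (fun s => Y s / X s ^ 2) s =
          -(c s * (Y s ^ 2 * (X s + 2) / ((X s + 1) * X s ^ 3))) := by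
        have hd := (hY s).div ((hX s).pow 2) (pow_ne_zero 2 a)
        have := hd.deriv
        refine this.trans ?_
        rw [← d4m (hXY s) a b0]
        simp only [Nat.cast_ofNat, Nat.add_one_sub_one, pow_one, Pi.pow_apply]
      show 0 < -(Rf (-X s)) * deriv (fun s => -X s) s * Real.log ((-Y s - X s - 1) / Y s) +
        -(Rf (Y s / X s ^ 2)) * deriv (fun s => Y s / X s ^ 2) s * Real.log (X s + 1)
      rw [e0, e1, Real.log_div dyb dy]
      have t0 : 0 ≤ -(Rf (-X s)) * -((2 * Y s + X s + 1) * c s) *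
          (Real.log (-Y s - X s - 1) - Real.log (Y s)) := by
        have hR0 := Rf_pos (neg_ne_zero.mpr a) (fun h0 => b (by linear_combination -h0))
        have h3 := (log_diff_nonneg (a := -Y s) (b := Y s + X s + 1) (neg_ne_zero.mpr dy)
          (fun h0 => dyb (by linear_combination -h0)) (by linarith)).1
        rw [Real.log_neg_eq_log] at h3
        have e4 : Real.log (-Y s - X s - 1) = Real.log (Y s + X s + 1) := by
          rw [← Real.log_neg_eq_log]; congr 1; ring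
        rw [e4]
        have e5 : -(Rf (-X s)) * -((2 * Y s + X s + 1) * c s) *
          (Real.log (Y s + X s + 1) - Real.log (Y s)) = (Rf (-X s) * c s) *
          ((-Y s - (Y s + X s + 1)) * (Real.log (Y s) - Real.log (Y s + X s + 1))) := by ring
        rw [e5]
        exact mul_nonneg (mul_nonneg hR0.le (hc s).le) h3
      have t1 : 0 < -(Rf (Y s / X s ^ 2)) * -(c s * (Y s ^ 2 * (X s + 2) / ((X s + 1) *
          X s ^ 3))) * Real.log (X s + 1) := by
        have m1 : Y s / X s ^ 2 ≠ 1 := by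
          intro h'
          rw [div_eq_one_iff_eq (pow_ne_zero 2 a)] at h'
          apply dy
          have h5 := hXY s
          have : Y s ^ 2 = 0 := by rw [h'] at h5 ⊢; linear_combination h5
          exact pow_eq_zero_iff (two_ne_zero) |>.mp this
        have hR1 := Rf_pos (div_ne_zero dy (pow_ne_zero 2 a)) m1
        have hs : 0 < Real.log (X s + 1) / X s ^ 3 := by
          rcases lt_or_gt_of_ne a with h6 | h6
          · exact div_pos_of_neg_of_neg (Real.log_neg b1 (by linarith))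
              (Odd.pow_neg (by decide) h6)
          · exact div_pos (Real.log_pos (by linarith)) (by positivity)
        have e5 : -(Rf (Y s / X s ^ 2)) * -(c s * (Y s ^ 2 * (X s + 2) / ((X s + 1) *
          X s ^ 3))) * Real.log (X s + 1) = (Rf (Y s / X s ^ 2) * c s * (Y s ^ 2 * (X s + 2) /
          (X s + 1))) * (Real.log (X s + 1) / X s ^ 3) := by
          field_simp
        rw [e5]
        have h8 : 0 < X s + 2 := by linarith
        have h9 := hc s
        positivity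
      linarith
  -- compare with `ξ`
  have l1 : MK4.lg (-y - x - 1) = (2 : ℚ) • MK4.lg x + MK4.lg (x + 1) - MK4.lg y := by
    have e : -y - x - 1 = -(x ^ 2 * (x + 1)) / y := by
      rw [eq_div_iff hy]; linear_combination -hE
    rw [e, TN.lgdiv (neg_ne_zero.mpr (mul_ne_zero (pow_ne_zero 2 hx) hx1)) hy, TN.lgneg]
    have : MK4.lg (x ^ 2 * (x + 1)) = MK4.lg (x ^ 2) + MK4.lg (x + 1) :=
      K4M.lg_mul (pow_ne_zero 2 hx) hx1
    rw [this, TN.lgpow hx]
    push_cast
    rfl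
  have r0 : MK4.hk (MK4.sy (-x)) (MK4.lg (x + 1)) = 0 := by
    have := TN.hk_compl (neg_ne_zero.mpr hx) n0
    rwa [show (1 : F) - -x = x + 1 by ring] at this
  have r0' : MK4.hk (MK4.sy (-x)) (MK4.lg x) = 0 := by
    have := TN.hk_self (neg_ne_zero.mpr hx) n0
    rwa [TN.lgneg] at this
  have e1 : x ^ 2 - y = y ^ 2 / (x + 1) := by
    rw [eq_div_iff hx1]; linear_combination -hE
  have hyx : 1 - y / x ^ 2 = y ^ 2 / (x + 1) / x ^ 2 := by
    rw [← e1]; field_simp
  have r1 : MK4.hk (MK4.sy (y / x ^ 2)) ((2 : ℚ) • MK4.lg y - MK4.lg (x + 1) -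
      (2 : ℚ) • MK4.lg x) = 0 := by
    have := TN.hk_compl (div_ne_zero hy (pow_ne_zero 2 hx)) n1
    rw [hyx, TN.lgdiv (div_ne_zero (pow_ne_zero 2 hy) hx1) (pow_ne_zero 2 hx),
      TN.lgdiv (pow_ne_zero 2 hy) hx1, TN.lgpow hy, TN.lgpow hx] at this
    exact_mod_cast this
  have r1' : MK4.hk (MK4.sy (y / x ^ 2)) (MK4.lg y - (2 : ℚ) • MK4.lg x) = 0 := by
    have := TN.hk_self (div_ne_zero hy (pow_ne_zero 2 hx)) n1
    rw [TN.lgdiv hy (pow_ne_zero 2 hx), TN.lgpow hx] at this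
    exact_mod_cast this
  have hxi : TN.N4.xi x y (algebraMap k F (-1)) =
      MK4.hk (MK4.sy (-x)) (MK4.lg y) - MK4.hk (MK4.sy (y / x ^ 2)) (MK4.lg x) := by
    unfold TN.N4.xi
    rw [map_neg, map_one, div_neg, div_one]
  have hz : MK4.hk (MK4.sy (-x)) (MK4.lg ((-y - x - 1) / y)) +
      MK4.hk (MK4.sy (y / x ^ 2)) (MK4.lg (x + 1)) =
      (-2 : ℚ) • TN.N4.xi x y (algebraMap k F (-1)) := by
    rw [hxi, TN.lgdiv hyb hy, l1]
    simp only [sub_eq_add_neg, TN.hk_add_right, TN.hk_neg_right, TN.hk_smul_right] at *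
    rw [r0, r0']
    linear_combination (norm := module) (-1 : ℚ) • r1 + (2 : ℚ) • r1'
  have h11 : ∑ i, K4M.hk (K4M.sy (f i)) (K4M.lg (u i)) =
      (MK4.hk (MK4.sy (-x)) (MK4.lg ((-y - x - 1) / y)) +
      MK4.hk (MK4.sy (y / x ^ 2)) (MK4.lg (x + 1)) : MK4.HK F) := Fin.sum_univ_two _
  refine (key.of_eq h11.symm).of_smul (-2) ?_
  have : (MK4.hk (MK4.sy (-x)) (MK4.lg ((-y - x - 1) / y)) +
      MK4.hk (MK4.sy (y / x ^ 2)) (MK4.lg (x + 1)) : MK4.HK F) -
      (-2 : ℚ) • TN.N4.xi x y (algebraMap k F (-1)) ∈ TN.KC k F := by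
    rw [hz, sub_self]
    exact Submodule.zero_mem _
  exact mem_span_of_KC this

theorem rz4m [CharZero k] (φ : k →+* ℝ) (h : TN.Gen (-1 : k) 0 x y)
    (htop : IntermediateField.adjoin k {x, y} = ⊤) :
    FK4.RegNe φ (TN.N4.xi x y (algebraMap k F (-1))) := by
  obtain ⟨X, Y, hL, hz⟩ := rr4m φ h htop
  exact hz.regNe_of_loop ⟨h.eqn, (TN.Tr_iff x).mp h.tr⟩ htop hL

/-- **The class is not a combination of symbols of constants.** -/
theorem nv4m [CharZero k] (φ : k →+* ℝ) (h : TN.Gen (-1 : k) 0 x y)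
    (htop : IntermediateField.adjoin k {x, y} = ⊤) :
    TN.N4.xi x y (algebraMap k F (-1)) ∉ TN.KC k F := by
  obtain ⟨X, Y, -, hz⟩ := rr4m φ h htop
  exact fun hm => hz.not_mem (mem_span_of_KC hm)

end final

end Pool.Agent.K4N
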