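import Pool.Agent.Lib_helper2.K4N.EngR
import Pool.Agent.Lib_helper2.K4N.Q4m
import Pool.Agent.Lib_helper2.K4N.Ineq4

set_option autoImplicit false

/-!
The nonvanishing of the class on `y² + xy - y = x³ - x²` (points of order four, `t = 1`).
-/

namespace Pool.Agent.K4N

open Filter Topology Pool.Agent.TN
open scoped TensorProduct

section real

variable {X Y c : ℝ}

/-- the derivative of `y/x²` -/
lemma d4p (hE : Y ^ 2 + X * Y - Y = X ^ 3 - X ^ 2) (hX : X ≠ 0) (hX1 : X - 1 ≠ 0) :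
    ((3 * X ^ 2 - 2 * X - Y) * c * X ^ 2 - Y * (2 * X * ((2 * Y + X - 1) * c))) / (X ^ 2) ^ 2 =
      c * (Y ^ 2 * (2 - X) / ((X - 1) * X ^ 3)) := by
  field_simp
  grind

/-- the exact correction -/
noncomputable def E4 (s : ℝ) : ℝ :=
  2 / (1 + s ^ 2) - 2 * ((s ^ 2 - 1) * Real.log s / (1 + s ^ 2) ^ 2)

lemma tend4 : Tendsto (fun s : ℝ => 2 * (s * Real.log s / (1 + s ^ 2))) atTop (𝓝 0) := by
  have h1 : Tendsto (fun s : ℝ => Real.log s / s) atTop (𝓝 0) :=
    Real.isLittleO_log_id_atTop.tendsto_div_nhds_zero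
  have h2 : Tendsto (fun s : ℝ => s * Real.log s / (1 + s ^ 2)) atTop (𝓝 0) := by
    refine tendsto_of_tendsto_of_tendsto_of_le_of_le' tendsto_const_nhds h1 ?_ ?_
    · filter_upwards [eventually_ge_atTop (1 : ℝ)] with s hs
      have := Real.log_nonneg hs
      positivity
    · filter_upwards [eventually_ge_atTop (1 : ℝ)] with s hs
      have h3 := Real.log_nonneg hs
      rw [div_le_div_iff₀ (by positivity) (by linarith)]
      nlinarith
  simpa using h2.const_mul 2

lemma E4_ex : Ex E4 := by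
  refine ⟨fun s => 2 * (s * Real.log s / (1 + s ^ 2)), ?_, ?_, 0, tend4, ?_⟩
  · refine Continuous.mul continuous_const (Real.continuous_mul_log.div (by fun_prop) ?_)
    intro s
    positivity
  · have h0 : ∀ᶠ s : ℝ in cofinite, s ≠ 0 := by
      refine (Set.finite_singleton (0 : ℝ)).subset ?_
      intro s hs
      exact not_not.mp hs
    filter_upwards [h0] with s hs
    have h1 : HasDerivAt (fun s : ℝ => 1 + s ^ 2) (2 * s) s := by
      have := ((hasDerivAt_id s).pow 2).const_add 1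
      refine this.congr_deriv ?_
      simp
    have h2 := ((((hasDerivAt_id s).mul (Real.hasDerivAt_log hs)).div h1
      (by positivity)).const_mul 2)
    refine h2.congr_deriv ?_
    unfold E4
    have : (1 + s ^ 2 : ℝ) ≠ 0 := by positivity
    simp only [id, Pi.mul_apply]
    field_simp
    ring
  · have h3 : Tendsto (fun s : ℝ => -(2 * (s * Real.log s / (1 + s ^ 2)))) atTop (𝓝 0) := by
      simpa using tend4.neg
    have h4 := h3.comp tendsto_neg_atBot_atTop
    refine h4.congr ?_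
    intro s
    simp only [Function.comp_apply, Real.log_neg_eq_log]
    ring

end real

/-- the circle of real points -/
lemma circle4p : ∃ X Y c S : ℝ → ℝ, Mer X ∧ Mer Y ∧
    (∀ s, Y s ^ 2 + X s * Y s - Y s = X s ^ 3 - X s ^ 2) ∧ (∀ a, ∀ᶠ s in cofinite, X s ≠ a) ∧
    (∀ s, HasDerivAt X ((2 * Y s + X s - 1) * c s) s) ∧
    (∀ s, HasDerivAt Y ((3 * X s ^ 2 - 2 * X s - Y s) * c s) s) ∧
    (∀ s, 0 < S s) ∧ (∀ s, S s ^ 2 = 4 * (1 + s ^ 2) ^ 2 + s ^ 2) ∧ (∀ s, X s = 1 + s ^ 2) ∧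
    (∀ s, Y s = s * (S s - s) / 2) ∧ (∀ s, c s = 2 / S s) ∧
    Tendsto X (cocompact ℝ) atTop := by
  have hP : ∀ x : ℝ, 4 * x ^ 3 + ((1 : ℝ) ^ 2 + 4 * (-1)) * x ^ 2 + 2 * (2 * 0 + 1 * (-1)) * x +
      ((-1) ^ 2 + 4 * 0) = (x - 1) * (4 * x ^ 2 + 1 * x + (-1)) := by
    intro x; ring
  have hq : ∀ x : ℝ, (1 : ℝ) ≤ x → 0 < 4 * x ^ 2 + 1 * x + (-1) := by
    intro x hx
    nlinarith
  refine ⟨Xp 1, Yp 1 (-1) 1 1 (-1), cp 1 1 (-1), Sp 1 1 (-1), Xp_mer _,
    Yp_mer 1 (-1) 1 1 (-1) hq, ?_, Xp_fin _, ?_, ?_, Sp_pos 1 1 (-1) hq, ?_, fun _ => rfl, ?_,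
    fun _ => rfl, Xp_tendsto _⟩
  · intro s
    have := Yp_eqn 1 (-1) (-1) 0 0 1 1 (-1) hP hq s
    linear_combination this
  · intro s
    refine (Xp_deriv' 1 (-1) 1 1 (-1) hq s).congr_deriv ?_
    ring
  · intro s
    refine (Yp_deriv' 1 (-1) (-1) 0 0 1 1 (-1) hP hq s).congr_deriv ?_
    ring
  · intro s
    rw [Sp_sq 1 1 (-1) hq]
    unfold Xp
    ring
  · intro s
    unfold Yp Xp
    ring

/-- the positivity -/
lemma pos4p {s S : ℝ} (hS : 0 < S) (hS2 : S ^ 2 = 4 * (1 + s ^ 2) ^ 2 + s ^ 2) (hs : s ≠ 0) :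
    0 < E4 s + (-(Rf (1 + s ^ 2)) * (2 * s) * Real.log ((S + s) / (S - s)) +
      Rf (s * (S - s) / (2 * (1 + s ^ 2) ^ 2)) * ((S - s) ^ 2 / (S * (1 + s ^ 2))) *
        ((s ^ 2 - 1) * Real.log s / (1 + s ^ 2) ^ 2)) := by
  have hX : (0 : ℝ) < 1 + s ^ 2 := by positivity
  have hl : 0 ≤ (s ^ 2 - 1) * Real.log s := by
    have h1 : (s ^ 2 - 1) * Real.log s = (|s| + 1) * ((|s| - 1) * Real.log |s|) := by
      rw [Real.log_abs, ← sq_abs s]; ring
    rw [h1]
    refine mul_nonneg (by positivity) ?_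
    rcases le_or_gt 1 |s| with h | h
    · exact mul_nonneg (by linarith) (Real.log_nonneg h)
    · exact mul_nonneg_of_nonpos_of_nonpos (by linarith)
        (Real.log_nonpos (abs_nonneg s) h.le)
  have hl2 : 0 ≤ (s ^ 2 - 1) * Real.log s / (1 + s ^ 2) ^ 2 := div_nonneg hl (by positivity)
  have hB := mul_le_mul_of_nonneg_right (B_bound hS hS2 hs) hl2
  have hv : 2 * s * Rf (1 + s ^ 2) * Real.log ((S + s) / (S - s)) < 2 / (1 + s ^ 2) := by
    rw [lt_div_iff₀ hX]
    rcases lt_or_gt_of_ne hs with h | h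
    · have h1 := v0_bound hS (s := -s) (by rw [hS2]; ring) (by linarith)
      have h2 : Real.log ((S + -s) / (S - -s)) = -Real.log ((S + s) / (S - s)) := by
        rw [← Real.log_inv, inv_div]
        congr 1
        ring
      rw [h2] at h1
      have h3 : (-s) ^ 2 = s ^ 2 := by ring
      rw [h3] at h1
      linarith
    · exact v0_bound hS hS2 h
  unfold E4
  linarith

section final

variable {k F : Type*} [Field k] [Field F] [Algebra k F] {x y : F}

/-- **The regulator of the class is not zero.** -/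
theorem rr4p [CharZero k] (φ : k →+* ℝ) (h : TN.Gen (1 : k) 0 x y)
    (htop : IntermediateField.adjoin k {x, y} = ⊤) : ∃ X Y : ℝ → ℝ,
    FK4.Loop (TN.Wt (1 : k) 0) φ X Y ∧ RZ φ x y X Y (TN.N4.xi x y (algebraMap k F 1)) := by
  have : CharZero F := charZero_of_injective_algebraMap (algebraMap k F).injective
  have hE : y ^ 2 + x * y - y = x ^ 3 - x ^ 2 := by
    have := h.eq
    simp only [map_one, map_zero] at this
    linear_combination this
  have hx := h.x_ne
  have hy := h.y_ne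
  have hx1 : x - 1 ≠ 0 := by
    have := h.xc_ne 1
    simpa using this
  have hyb : -y - x + 1 ≠ 0 := by
    intro h0
    have h1 : y * (-y - x + 1) = -(x ^ 2 * (x - 1)) := by linear_combination -hE
    rw [h0, mul_zero] at h1
    exact mul_ne_zero (pow_ne_zero 2 hx) hx1 (neg_eq_zero.mp h1.symm)
  obtain ⟨X, Y, c, S, mX, mY, hXY, hfin, hX, hY, hS, hS2, hX', hY', hc', hlim⟩ := circle4p
  have hER : ∀ s, TN.Eqn (TN.Wt (1 : k) 0) φ (X s) (Y s) := by
    intro s
    show Y s ^ 2 + φ (1 - 0) * X s * Y s + φ (-1) * Y s =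
      X s ^ 3 + φ (-1) * X s ^ 2 + φ 0 * X s + φ 0
    simp only [map_zero, map_one, map_neg, sub_zero]
    linear_combination hXY s
  obtain ⟨R, ρ, P, hR, hRx, hRy, hRc, hP, hP0⟩ := exists_reg φ h.eqn ((TN.Tr_iff x).mp h.tr) htop
    mX mY hER hfin
  refine ⟨X, Y, ?_, ?_⟩
  · refine ⟨hER, ⟨c, fun s => ⟨by rw [hc' s]; exact div_pos two_pos (hS s), (hX s).congr_deriv ?_, (hY s).congr_deriv ?_⟩⟩, hlim⟩
    · show _ = c s * (2 * Y s + φ (1 - 0) * X s + φ (-1))
      simp only [map_zero, map_one, map_neg, sub_zero, neg_neg]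
      ring
    · show _ = c s * (3 * X s ^ 2 + 2 * φ (-1) * X s + φ 0 - φ (1 - 0) * Y s)
      simp only [map_zero, map_one, map_neg, sub_zero, neg_neg]
      ring
  have hRone : R 1 = ((fun _ => (1 : ℝ) : ℝ → ℝ) : VG) := by rw [map_one]; rfl
  have hRx1 : R (x - 1) = ((fun s => X s - 1 : ℝ → ℝ) : VG) := by
    rw [map_sub, hRx, map_one]
    rfl
  have hRyb : R (-y - x + 1) = ((fun s => -Y s - X s + 1 : ℝ → ℝ) : VG) := by
    rw [map_add, map_sub, map_neg, hRx, hRy, map_one]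
    rfl
  -- the element
  let f : Fin 2 → F := ![x, y / x ^ 2]
  let u : Fin 2 → F := ![(-y - x + 1) / y, x - 1]
  have n0 : x ≠ 1 := by
    intro h0
    apply hx1
    linear_combination h0
  have n1 : y / x ^ 2 ≠ 1 := by
    intro h'
    rw [div_eq_one_iff_eq (pow_ne_zero 2 hx)] at h'
    apply hy
    have : y ^ 2 = 0 := by rw [h'] at hE ⊢; linear_combination hE
    exact pow_eq_zero_iff (two_ne_zero) |>.mp this
  have key : RZ φ x y X Y (∑ i, K4M.hk (K4M.sy (f i)) (K4M.lg (u i))) := by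
    refine ⟨P, hP, fun c hc => (hP0 c).mpr (ρ.KK_le hR hRc c hc), fun hz => ?_⟩
    refine reg_ne ρ f u ?_ ?_ ?_
      ![fun s => X s, fun s => Y s / X s ^ 2]
      ![fun s => (-Y s - X s + 1) / Y s, fun s => X s - 1] ?_ ?_ E4 E4_ex ?_ ((hP0 _).mp hz)
    · intro i
      fin_cases i
      · exact hx
      · exact div_ne_zero hy (pow_ne_zero 2 hx)
    · intro i
      fin_cases i
      · exact n0
      · exact n1
    · intro i
      fin_cases i
      · exact div_ne_zero hyb hy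
      · exact hx1
    · intro i
      fin_cases i
      · exact rep_of hR hRx
      · exact rep_of hR (R_div hR hRy (R_pow hRx 2))
    · intro i
      fin_cases i
      · exact rep_of hR (R_div hR hRyb hRy)
      · exact rep_of hR hRx1
    · have g0 : ∀ᶠ s : ℝ in cofinite, s ≠ 0 := by
        refine (Set.finite_singleton (0 : ℝ)).subset ?_
        intro s hs
        exact not_not.mp hs
      filter_upwards [g0] with s hs
      have hXs := hX' s
      have hYs := hY' s
      have hcs := hc' s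
      have hS0 : S s ≠ 0 := (hS s).ne'
      have hge := S_ge (hS s) (hS2 s)
      have hab := abs_le.mp (abs_s_le (s := s))
      have hSm : S s - s ≠ 0 := by
        have : 0 < S s - s := by nlinarith [sq_nonneg s]
        exact this.ne'
      have hX0 : (1 + s ^ 2 : ℝ) ≠ 0 := by positivity
      have a : X s ≠ 0 := by rw [hXs]; exact hX0
      have b0 : X s - 1 ≠ 0 := by
        rw [hXs]
        simpa using hs
      rw [Fin.sum_univ_two]
      have e1 : deriv (fun s => Y s / X s ^ 2) s =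
          c s * (Y s ^ 2 * (2 - X s) / ((X s - 1) * X s ^ 3)) := by
        have hd := (hY s).div ((hX s).pow 2) (pow_ne_zero 2 a)
        have := hd.deriv
        refine this.trans ?_
        rw [← d4p (hXY s) a b0]
        simp only [Nat.cast_ofNat, Nat.add_one_sub_one, pow_one, Pi.pow_apply]
      show 0 < E4 s + (-(Rf (X s)) * deriv (fun s => X s) s * Real.log ((-Y s - X s + 1) / Y s) +
        -(Rf (Y s / X s ^ 2)) * deriv (fun s => Y s / X s ^ 2) s * Real.log (X s - 1))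
      rw [e1, (hX s).deriv]
      have t1 : Real.log ((-Y s - X s + 1) / Y s) = Real.log ((S s + s) / (S s - s)) := by
        rw [← Real.log_neg_eq_log ((-Y s - X s + 1) / Y s)]
        congr 1
        rw [hYs, hXs]
        field_simp
        ring
      have t2 : Real.log (X s - 1) = 2 * Real.log s := by
        rw [hXs, show (1 + s ^ 2 - 1 : ℝ) = s ^ 2 by ring, Real.log_pow]
        push_cast
        rfl
      have t3 : Y s / X s ^ 2 = s * (S s - s) / (2 * (1 + s ^ 2) ^ 2) := by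
        rw [hYs, hXs]
        field_simp
      have t4 : (2 * Y s + X s - 1) * c s = 2 * s := by
        rw [hYs, hXs, hcs]
        field_simp
        ring
      rw [t1, t2, t3, t4]
      have hp := pos4p (hS s) (hS2 s) hs
      have t5 : c s * (Y s ^ 2 * (2 - X s) / ((X s - 1) * X s ^ 3)) * (2 * Real.log s) =
          -(((S s - s) ^ 2 / (S s * (1 + s ^ 2))) *
            ((s ^ 2 - 1) * Real.log s / (1 + s ^ 2) ^ 2)) := by
        rw [hYs, hXs, hcs, show (1 + s ^ 2 - 1 : ℝ) = s ^ 2 by ring]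
        field_simp
        ring
      have t6 : -(Rf (s * (S s - s) / (2 * (1 + s ^ 2) ^ 2))) *
          (c s * (Y s ^ 2 * (2 - X s) / ((X s - 1) * X s ^ 3))) * (2 * Real.log s) =
          Rf (s * (S s - s) / (2 * (1 + s ^ 2) ^ 2)) * ((S s - s) ^ 2 / (S s * (1 + s ^ 2))) *
            ((s ^ 2 - 1) * Real.log s / (1 + s ^ 2) ^ 2) := by
        rw [mul_assoc, t5]
        ring
      rw [t6, hXs]
      exact hp
  -- compare with `ξ`
  have l1 : MK4.lg (-y - x + 1) = (2 : ℚ) • MK4.lg x + MK4.lg (x - 1) - MK4.lg y := by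
    have e : -y - x + 1 = -(x ^ 2 * (x - 1)) / y := by
      rw [eq_div_iff hy]; linear_combination -hE
    rw [e, TN.lgdiv (neg_ne_zero.mpr (mul_ne_zero (pow_ne_zero 2 hx) hx1)) hy, TN.lgneg]
    have : MK4.lg (x ^ 2 * (x - 1)) = MK4.lg (x ^ 2) + MK4.lg (x - 1) :=
      K4M.lg_mul (pow_ne_zero 2 hx) hx1
    rw [this, TN.lgpow hx]
    push_cast
    rfl
  have r0 : MK4.hk (MK4.sy x) (MK4.lg (x - 1)) = 0 := by
    have := TN.hk_compl hx n0
    rwa [show (1 : F) - x = -(x - 1) by ring, TN.lgneg] at this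
  have r0' : MK4.hk (MK4.sy x) (MK4.lg x) = 0 := TN.hk_self hx n0
  have e1 : x ^ 2 - y = y ^ 2 / (x - 1) := by
    rw [eq_div_iff hx1]; linear_combination -hE
  have hyx : 1 - y / x ^ 2 = y ^ 2 / (x - 1) / x ^ 2 := by
    rw [← e1]; field_simp
  have r1 : MK4.hk (MK4.sy (y / x ^ 2)) ((2 : ℚ) • MK4.lg y - MK4.lg (x - 1) -
      (2 : ℚ) • MK4.lg x) = 0 := by
    have := TN.hk_compl (div_ne_zero hy (pow_ne_zero 2 hx)) n1
    rw [hyx, TN.lgdiv (div_ne_zero (pow_ne_zero 2 hy) hx1) (pow_ne_zero 2 hx),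
      TN.lgdiv (pow_ne_zero 2 hy) hx1, TN.lgpow hy, TN.lgpow hx] at this
    exact_mod_cast this
  have r1' : MK4.hk (MK4.sy (y / x ^ 2)) (MK4.lg y - (2 : ℚ) • MK4.lg x) = 0 := by
    have := TN.hk_self (div_ne_zero hy (pow_ne_zero 2 hx)) n1
    rw [TN.lgdiv hy (pow_ne_zero 2 hx), TN.lgpow hx] at this
    exact_mod_cast this
  have hxi : TN.N4.xi x y (algebraMap k F 1) =
      MK4.hk (MK4.sy x) (MK4.lg y) - MK4.hk (MK4.sy (y / x ^ 2)) (MK4.lg x) := by
    unfold TN.N4.xi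
    rw [map_one, div_one]
  have hz : MK4.hk (MK4.sy x) (MK4.lg ((-y - x + 1) / y)) +
      MK4.hk (MK4.sy (y / x ^ 2)) (MK4.lg (x - 1)) =
      (-2 : ℚ) • TN.N4.xi x y (algebraMap k F 1) := by
    rw [hxi, TN.lgdiv hyb hy, l1]
    simp only [sub_eq_add_neg, TN.hk_add_right, TN.hk_neg_right, TN.hk_smul_right] at *
    rw [r0, r0']
    linear_combination (norm := module) (-1 : ℚ) • r1 + (2 : ℚ) • r1'
  have h11 : ∑ i, K4M.hk (K4M.sy (f i)) (K4M.lg (u i)) =
      (MK4.hk (MK4.sy x) (MK4.lg ((-y - x + 1) / y)) +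
      MK4.hk (MK4.sy (y / x ^ 2)) (MK4.lg (x - 1)) : MK4.HK F) := Fin.sum_univ_two _
  refine (key.of_eq h11.symm).of_smul (-2) ?_
  have : (MK4.hk (MK4.sy x) (MK4.lg ((-y - x + 1) / y)) +
      MK4.hk (MK4.sy (y / x ^ 2)) (MK4.lg (x - 1)) : MK4.HK F) -
      (-2 : ℚ) • TN.N4.xi x y (algebraMap k F 1) ∈ TN.KC k F := by
    rw [hz, sub_self]
    exact Submodule.zero_mem _
  exact mem_span_of_KC this

theorem rz4p [CharZero k] (φ : k →+* ℝ) (h : TN.Gen (1 : k) 0 x y)
    (htop : IntermediateField.adjoin k {x, y} = ⊤) :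
    FK4.RegNe φ (TN.N4.xi x y (algebraMap k F 1)) := by
  obtain ⟨X, Y, hL, hz⟩ := rr4p φ h htop
  exact hz.regNe_of_loop ⟨h.eqn, (TN.Tr_iff x).mp h.tr⟩ htop hL

/-- **The class is not a combination of symbols of constants.** -/
theorem nv4p [CharZero k] (φ : k →+* ℝ) (h : TN.Gen (1 : k) 0 x y)
    (htop : IntermediateField.adjoin k {x, y} = ⊤) :
    TN.N4.xi x y (algebraMap k F 1) ∉ TN.KC k F := by
  obtain ⟨X, Y, -, hz⟩ := rr4p φ h htop
  exact fun hm => hz.not_mem (mem_span_of_KC hm)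

end final

end Pool.Agent.K4N
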