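import Pool.Agent.Lib_helper2.K4N.NvR
import Pool.Agent.Lib_helper24.TN.N5F

set_option autoImplicit false

/-!
The nonvanishing of the class for points of order five at `t = 1` and `t = -1`.
-/

namespace Pool.Agent.K4N

open Pool.Agent.TN Pool.Agent.K4C
open scoped TensorProduct

section

variable {k F : Type*} [Field k] [Field F] [Algebra k F] {x y : F}

/-- the closed element, in the sealed group -/
noncomputable def zaS (x y : F) : MK4.HK F := za x y

lemma zaS_eq (x y : F) : zaS x y = ∑ i : Fin 5, MK4.hk (MK4.sy (tx x y i))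
    (MK4.lg (tx x y (i + 1) / tx x y (i - 1))) := rfl

lemma zaS_rz [CharZero F] (φ : k →+* ℝ) (hE : y ^ 2 + y = x ^ 3 - x ^ 2)
    (hx : Transcendental k x) (htop : IntermediateField.adjoin k {x, y} = ⊤) :
    ∃ X Y : ℝ → ℝ, FK4.Loop (⟨0, -1, 1, 0, 0⟩ : WeierstrassCurve.Affine k) φ X Y ∧
      RZ φ x y X Y (zaS x y) := za_rz φ hE hx htop

lemma zaS_closed [CharZero F] (hE : y ^ 2 + y = x ^ 3 - x ^ 2)
    (hx : Transcendental k x) : MK4.Closed (zaS x y) :=
  (MK4.closed_iff _).mpr (za_closed hE (x_ne hx) (x1_ne hx) (y_ne hE hx) (xy_ne hE hx))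

end

section plus

variable {k F : Type*} [Field k] [Field F] [Algebra k F] {x y : F}

lemma tx_p [CharZero k] (h : Gen (1 : k) 1 x y) (i : Fin 5) :
    tx x (-y) i = (N5.v (1 : k) x y (3 * i))⁻¹ := by
  have hx := h.x_ne
  have hx1 := h.xc_ne (1 : k)
  have hy := h.y_ne
  have hw := N5.Gen.w_ne h
  rw [map_one] at hx1 hw
  rw [one_mul] at hw
  fin_cases i
  · show x = (algebraMap k F 1 / x)⁻¹
    rw [map_one]
    field_simp
  · show -(-y) / x ^ 2 = (x ^ 2 / y)⁻¹
    field_simp
  · show x * (x + -y) / ((x - 1) * (-y)) = (y * (x - algebraMap k F 1) /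
      (x * (y - algebraMap k F 1 * x)))⁻¹
    rw [map_one, one_mul]
    have hw' : x + -y ≠ 0 := by
      intro h0
      apply hw
      linear_combination -h0
    field_simp
    ring
  · show -y / (x + -y) = ((y - algebraMap k F 1 * x) / y)⁻¹
    rw [map_one, one_mul]
    have hw' : x + -y ≠ 0 := by
      intro h0
      apply hw
      linear_combination -h0
    field_simp
    ring
  · show (x - 1) / -y = (-y / (x - algebraMap k F 1))⁻¹
    rw [map_one]
    field_simp

/-- **The regulator of the class is not zero.** -/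
theorem rr5p [CharZero k] (φ : k →+* ℝ) (h : Gen (1 : k) 1 x y)
    (htop : IntermediateField.adjoin k {x, y} = ⊤) : ∃ (x' y' : F) (X Y : ℝ → ℝ),
    FK4.Generic (⟨0, -1, 1, 0, 0⟩ : WeierstrassCurve.Affine k) x' y' ∧
    IntermediateField.adjoin k {x', y'} = ⊤ ∧
    FK4.Loop (⟨0, -1, 1, 0, 0⟩ : WeierstrassCurve.Affine k) φ X Y ∧
    RZ φ x' y' X Y (N5.Z1 (1 : k) x y) := by
  have : CharZero F := charZero_of_injective_algebraMap (algebraMap k F).injective
  have hE : (-y) ^ 2 + (-y) = x ^ 3 - x ^ 2 := by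
    have := h.eq
    simp only [map_one] at this
    linear_combination this
  have hx : Transcendental k x := (TN.Tr_iff x).mp h.tr
  have htop' : IntermediateField.adjoin k {x, -y} = ⊤ := by
    rw [eq_top_iff, ← htop, IntermediateField.adjoin_le_iff]
    rintro z (rfl | rfl)
    · exact IntermediateField.subset_adjoin _ _ (Set.mem_insert _ _)
    · have : (-z) ∈ IntermediateField.adjoin k {x, -z} :=
        IntermediateField.subset_adjoin _ _ (Set.mem_insert_of_mem _ rfl)
      simpa using neg_mem this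
  obtain ⟨X, Y, hL, hz⟩ := zaS_rz φ hE hx htop'
  have hcl := zaS_closed hE hx
  have ht : (1 : k) ≠ 0 := one_ne_zero
  have n := N5.v_ne ht h
  have hl : ∀ i : Fin 5, MK4.lg (tx x (-y) i) = -(N5.yv (1 : k) x y (3 * i)) := by
    intro i
    rw [tx_p h, TN.lginv]
    rfl
  have hs : ∀ i : Fin 5, MK4.sy (tx x (-y) i) = -(MK4.sy (N5.v (1 : k) x y (3 * i))) := by
    intro i
    rw [tx_p h, TN.syinv]
  have htx : ∀ i : Fin 5, tx x (-y) i ≠ 0 := by
    intro i
    rw [tx_p h]
    exact inv_ne_zero (n _)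
  have hzs : zaS x (-y) = ∑ j : Fin 5, MK4.hk (MK4.sy (N5.v (1 : k) x y j))
      (N5.yv (1 : k) x y (j + 3) - N5.yv (1 : k) x y (j + 2)) := by
    rw [zaS_eq]
    have e : ∀ i : Fin 5, MK4.hk (MK4.sy (tx x (-y) i))
        (MK4.lg (tx x (-y) (i + 1) / tx x (-y) (i - 1))) =
        MK4.hk (MK4.sy (N5.v (1 : k) x y (3 * i)))
          (N5.yv (1 : k) x y (3 * i + 3) - N5.yv (1 : k) x y (3 * i + 2)) := by
      intro i
      rw [TN.lgdiv (htx _) (htx _), hl, hl, hs, TN.hk_neg_left, ← TN.hk_neg_right]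
      have e1 : 3 * (i + 1) = 3 * i + 3 := (by decide : ∀ i : Fin 5, 3 * (i + 1) = 3 * i + 3) i
      have e2 : 3 * (i - 1) = 3 * i + 2 := (by decide : ∀ i : Fin 5, 3 * (i - 1) = 3 * i + 2) i
      rw [e1, e2]
      congr 1
      abel
    simp only [e]
    rw [Fin.sum_univ_five, Fin.sum_univ_five]
    have f0 : (3 : Fin 5) * 0 = 0 := rfl
    have f1 : (3 : Fin 5) * 1 = 3 := rfl
    have f2 : (3 : Fin 5) * 2 = 1 := rfl
    have f3 : (3 : Fin 5) * 3 = 4 := rfl
    have f4 : (3 : Fin 5) * 4 = 2 := rfl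
    rw [f0, f1, f2, f3, f4]
    abel
  have hc : MK4.Closed (∑ j, MK4.hk (MK4.sy (N5.v (1 : k) x y j))
      (N5.yv (1 : k) x y (j + 3) - N5.yv (1 : k) x y (j + 2)) +
      ∑ j, MK4.hk (MK4.sy (N5.sP (N5.v (1 : k) x y) j)) ((0 : Fin 5 → MK4.FT F) j) + 0) := by
    simp only [Pi.zero_apply, TN.hk_zero_right, Finset.sum_const_zero, add_zero]
    rw [← hzs]
    exact hcl
  obtain ⟨b1, hb⟩ := N5.closedP rfl h _ (0 : Fin 5 → MK4.FT F) (Submodule.zero_mem _) hc
  simp only [Pi.zero_apply, TN.hk_zero_right, Finset.sum_const_zero, add_zero] at hb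
  refine ⟨_, _, X, Y, ⟨?_, hx⟩, htop', hL, hz.of_smul b1 ?_⟩
  · show _ ^ 2 + algebraMap k F 0 * _ * _ + algebraMap k F 1 * _ =
      _ ^ 3 + algebraMap k F (-1) * _ ^ 2 + algebraMap k F 0 * _ + algebraMap k F 0
    simp only [map_zero, map_one, map_neg]
    linear_combination hE
  · have : zaS x (-y) - b1 • N5.Z1 (1 : k) x y ∈ TN.KC k F := by
      rw [hzs, hb]
      simp
    exact mem_span_of_KC this

theorem rz5p [CharZero k] (φ : k →+* ℝ) (h : Gen (1 : k) 1 x y)
    (htop : IntermediateField.adjoin k {x, y} = ⊤) : FK4.RegNe φ (N5.Z1 (1 : k) x y) := by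
  obtain ⟨x', y', X, Y, hG, ht, hL, hz⟩ := rr5p φ h htop
  exact hz.regNe_of_loop hG ht hL

/-- **The class is not a combination of symbols of constants.** -/
theorem nv5p [CharZero k] (φ : k →+* ℝ) (h : Gen (1 : k) 1 x y)
    (htop : IntermediateField.adjoin k {x, y} = ⊤) :
    N5.Z1 (1 : k) x y ∉ TN.KC k F := by
  obtain ⟨x', y', X, Y, -, -, -, hz⟩ := rr5p φ h htop
  exact fun hm => hz.not_mem (mem_span_of_KC hm)

end plus

section minus

variable {k F : Type*} [Field k] [Field F] [Algebra k F] {x y : F}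

lemma tx_m [CharZero k] (h : Gen (-1 : k) (-1) x y) (i : Fin 5) :
    tx (x + 1) (x + y) i = 1 - (N5.v (-1 : k) x y i)⁻¹ := by
  have hx := h.x_ne
  have hx1 := h.xc_ne (-1 : k)
  have hy := h.y_ne
  have hw := N5.Gen.w_ne h
  rw [map_neg, map_one] at hx1 hw
  have hx1' : x + 1 ≠ 0 := by
    intro h0; apply hx1; linear_combination h0
  have hw' : x + y ≠ 0 := by
    intro h0; apply hw; linear_combination h0
  have hyb : x + 1 + (x + y) ≠ 0 := by
    intro h0
    have h1 := h.eq
    rw [map_neg, map_one] at h1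
    have e : y = -2 * x - 1 := by linear_combination h0
    rw [e] at h1
    have h2 : x ^ 2 * (x + 1) = 0 := by linear_combination -h1
    exact mul_ne_zero (pow_ne_zero 2 hx) hx1' h2
  have hE : y ^ 2 + 2 * x * y + y = x ^ 3 + x ^ 2 := by
    have := h.eq
    simp only [map_neg, map_one] at this
    linear_combination this
  fin_cases i
  · show x + 1 = 1 - (algebraMap k F (-1) / x)⁻¹
    rw [map_neg, map_one]
    field_simp
    ring
  · show -(x + y) / (x + 1) ^ 2 = 1 - (y * (x - algebraMap k F (-1)) /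
      (x * (y - algebraMap k F (-1) * x)))⁻¹
    rw [map_neg, map_one, inv_div]
    have hw2 : y - -1 * x ≠ 0 := hw
    have e : x * (y - -1 * x) / (y * (x - -1)) = x * (x + y) / (y * (x + 1)) := by
      congr 1 <;> ring
    rw [e]
    field_simp
    grind
  · show (x + 1) * (x + 1 + (x + y)) / ((x + 1 - 1) * (x + y)) =
      1 - (-y / (x - algebraMap k F (-1)))⁻¹
    rw [map_neg, map_one, inv_div]
    have e : (x + 1 - 1) * (x + y) = x * (x + y) := by ring
    have e' : (x - -1) / -y = -(x + 1) / y := by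
      rw [div_neg, neg_div, sub_neg_eq_add]
    rw [e, e']
    field_simp
    grind
  · show (x + y) / (x + 1 + (x + y)) = 1 - (x ^ 2 / y)⁻¹
    rw [inv_div]
    field_simp
    grind
  · show (x + 1 - 1) / (x + y) = 1 - ((y - algebraMap k F (-1) * x) / y)⁻¹
    rw [map_neg, map_one, inv_div]
    have e' : y - -1 * x = x + y := by ring
    rw [e']
    field_simp
    ring

/-- **The regulator of the class is not zero.** -/
theorem rr5m [CharZero k] (φ : k →+* ℝ) (h : Gen (-1 : k) (-1) x y)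
    (htop : IntermediateField.adjoin k {x, y} = ⊤) : ∃ (x' y' : F) (X Y : ℝ → ℝ),
    FK4.Generic (⟨0, -1, 1, 0, 0⟩ : WeierstrassCurve.Affine k) x' y' ∧
    IntermediateField.adjoin k {x', y'} = ⊤ ∧
    FK4.Loop (⟨0, -1, 1, 0, 0⟩ : WeierstrassCurve.Affine k) φ X Y ∧
    RZ φ x' y' X Y (N5.Z1 (-1 : k) x y) := by
  have : CharZero F := charZero_of_injective_algebraMap (algebraMap k F).injective
  have hE : (x + y) ^ 2 + (x + y) = (x + 1) ^ 3 - (x + 1) ^ 2 := by
    have := h.eq
    simp only [map_neg, map_one] at this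
    linear_combination this
  have hx : Transcendental k (x + 1) := by
    have h1 := (TN.Tr_iff x).mp h.tr
    intro h2
    apply h1
    have := h2.sub (isAlgebraic_algebraMap (1 : k) : IsAlgebraic k (algebraMap k F 1))
    rwa [map_one, add_sub_cancel_right] at this
  have htop' : IntermediateField.adjoin k {x + 1, x + y} = ⊤ := by
    rw [eq_top_iff, ← htop, IntermediateField.adjoin_le_iff]
    have m1 : x + 1 ∈ IntermediateField.adjoin k {x + 1, x + y} :=
      IntermediateField.subset_adjoin _ _ (Set.mem_insert _ _)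
    have m2 : x + y ∈ IntermediateField.adjoin k {x + 1, x + y} :=
      IntermediateField.subset_adjoin _ _ (Set.mem_insert_of_mem _ rfl)
    have m3 : x ∈ IntermediateField.adjoin k {x + 1, x + y} := by
      have := sub_mem m1 (one_mem _)
      rwa [add_sub_cancel_right] at this
    rintro z (rfl | rfl)
    · exact m3
    · have := sub_mem m2 m3
      rwa [add_sub_cancel_left] at this
  obtain ⟨X, Y, hL, hz⟩ := zaS_rz φ hE hx htop'
  have hcl := zaS_closed hE hx
  have ht : (-1 : k) ≠ 0 := neg_ne_zero.mpr one_ne_zero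
  have n := N5.v_ne ht h
  have n1 := N5.v_ne1 ht h
  have pen := N5.v_penta ht h
  have hw : ∀ i : Fin 5, tx (x + 1) (x + y) i = -(N5.v (-1 : k) x y (i - 1) *
      N5.v (-1 : k) x y (i + 1)) / N5.v (-1 : k) x y i := by
    intro i
    rw [tx_m h, pen]
    have := n i
    field_simp
    ring
  have hl : ∀ i : Fin 5, MK4.lg (tx (x + 1) (x + y) i) = N5.yv (-1 : k) x y (i - 1) +
      N5.yv (-1 : k) x y (i + 1) - N5.yv (-1 : k) x y i := by
    intro i
    rw [hw, TN.lgdiv (neg_ne_zero.mpr (mul_ne_zero (n _) (n _))) (n _), TN.lgneg,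
      TN.lgmul (n _) (n _)]
    rfl
  have hs : ∀ i : Fin 5, MK4.sy (tx (x + 1) (x + y) i) = MK4.sy (N5.v (-1 : k) x y i) := by
    intro i
    rw [tx_m h, TN.sycompl, TN.syinv, neg_neg]
  have htx : ∀ i : Fin 5, tx (x + 1) (x + y) i ≠ 0 := by
    intro i
    rw [hw]
    exact div_ne_zero (neg_ne_zero.mpr (mul_ne_zero (n _) (n _))) (n _)
  have hzs : zaS (x + 1) (x + y) = ∑ j : Fin 5, MK4.hk (MK4.sy (N5.v (-1 : k) x y j))
      (N5.yv (-1 : k) x y (j + 2) - N5.yv (-1 : k) x y (j - 2) - N5.yv (-1 : k) x y (j + 1) +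
        N5.yv (-1 : k) x y (j - 1)) := by
    rw [zaS_eq]
    refine Finset.sum_congr rfl fun i _ => ?_
    rw [TN.lgdiv (htx _) (htx _), hl, hl, hs]
    have e1 : i + 1 - 1 = i := add_sub_cancel_right i 1
    have e2 : i - 1 + 1 = i := sub_add_cancel i 1
    have e3 : i + 1 + 1 = i + 2 := (by decide : ∀ i : Fin 5, i + 1 + 1 = i + 2) i
    have e4 : i - 1 - 1 = i - 2 := (by decide : ∀ i : Fin 5, i - 1 - 1 = i - 2) i
    rw [e1, e2, e3, e4]
    congr 1
    abel
  have hc : MK4.Closed (∑ j, MK4.hk (MK4.sy (N5.v (-1 : k) x y j))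
      (N5.yv (-1 : k) x y (j + 2) - N5.yv (-1 : k) x y (j - 2) - N5.yv (-1 : k) x y (j + 1) +
        N5.yv (-1 : k) x y (j - 1)) +
      ∑ j, MK4.hk (MK4.sy (N5.sM (N5.v (-1 : k) x y) j)) ((0 : Fin 5 → MK4.FT F) j) + 0) := by
    simp only [Pi.zero_apply, TN.hk_zero_right, Finset.sum_const_zero, add_zero]
    rw [← hzs]
    exact hcl
  obtain ⟨b1, hb⟩ := N5.closedM rfl h _ (0 : Fin 5 → MK4.FT F) (Submodule.zero_mem _) hc
  simp only [Pi.zero_apply, TN.hk_zero_right, Finset.sum_const_zero, add_zero] at hb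
  refine ⟨_, _, X, Y, ⟨?_, hx⟩, htop', hL, hz.of_smul b1 ?_⟩
  · show _ ^ 2 + algebraMap k F 0 * _ * _ + algebraMap k F 1 * _ =
      _ ^ 3 + algebraMap k F (-1) * _ ^ 2 + algebraMap k F 0 * _ + algebraMap k F 0
    simp only [map_zero, map_one, map_neg]
    linear_combination hE
  · have : zaS (x + 1) (x + y) - b1 • N5.Z1 (-1 : k) x y ∈ TN.KC k F := by
      rw [hzs, hb]
      simp
    exact mem_span_of_KC this

theorem rz5m [CharZero k] (φ : k →+* ℝ) (h : Gen (-1 : k) (-1) x y)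
    (htop : IntermediateField.adjoin k {x, y} = ⊤) : FK4.RegNe φ (N5.Z1 (-1 : k) x y) := by
  obtain ⟨x', y', X, Y, hG, ht, hL, hz⟩ := rr5m φ h htop
  exact hz.regNe_of_loop hG ht hL

/-- **The class is not a combination of symbols of constants.** -/
theorem nv5m [CharZero k] (φ : k →+* ℝ) (h : Gen (-1 : k) (-1) x y)
    (htop : IntermediateField.adjoin k {x, y} = ⊤) :
    N5.Z1 (-1 : k) x y ∉ TN.KC k F := by
  obtain ⟨x', y', X, Y, -, -, -, hz⟩ := rr5m φ h htop
  exact fun hm => hz.not_mem (mem_span_of_KC hm)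

end minus

end Pool.Agent.K4N
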