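import Pool.Agent.Lib_helper2.K4N.EngR

set_option autoImplicit false
set_option linter.unusedSimpArgs false

/-!
The nonvanishing of the classes for points of order six at `t = 1`, `t = -2` and `t = -1/2`.
-/

namespace Pool.Agent.K4N

open Filter Topology Pool.Agent.TN
open scoped TensorProduct

section logs

lemma log_div_nonpos {a b : ℝ} (h : a ^ 2 ≤ b ^ 2) : Real.log (a / b) ≤ 0 := by
  rcases eq_or_ne b 0 with rfl | hb
  · simp
  rw [← Real.log_abs]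
  apply Real.log_nonpos (abs_nonneg _)
  rw [abs_div, div_le_one (abs_pos.mpr hb)]
  exact sq_le_sq.mp h

lemma log_div_nonneg {a b : ℝ} (h : b ^ 2 ≤ a ^ 2) : 0 ≤ Real.log (a / b) := by
  have := log_div_nonpos h
  rw [← inv_div, Real.log_inv] at this
  linarith

lemma log_div_neg {a b : ℝ} (ha : a ≠ 0) (h : a ^ 2 < b ^ 2) : Real.log (a / b) < 0 := by
  have hb : b ≠ 0 := by
    rintro rfl
    have := sq_nonneg a
    nlinarith
  rw [← Real.log_abs]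
  apply Real.log_neg (abs_pos.mpr (div_ne_zero ha hb))
  rw [abs_div, div_lt_one (abs_pos.mpr hb)]
  exact sq_lt_sq.mp h

lemma log_div_pos {a b : ℝ} (hb : b ≠ 0) (h : b ^ 2 < a ^ 2) : 0 < Real.log (a / b) := by
  have := log_div_neg hb h
  rw [← inv_div, Real.log_inv] at this
  linarith

end logs

section field

variable {k F : Type*} [Field k] [Field F] [Algebra k F] {x : F}

lemma quad_ne (hx : Transcendental k x) (a b : k) :
    x ^ 2 + algebraMap k F a * x + algebraMap k F b ≠ 0 := by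
  intro h
  apply hx
  refine ⟨Polynomial.X ^ 2 + Polynomial.C a * Polynomial.X + Polynomial.C b, ?_, ?_⟩
  · intro h0
    have := congrArg (fun p => Polynomial.coeff p 2) h0
    simp [Polynomial.coeff_X, Polynomial.coeff_C] at this
  · simp only [map_add, map_mul, map_pow, Polynomial.aeval_X, Polynomial.aeval_C]
    exact h

end field

/-! ### `t = 1` -/

section A

/-- the component -/
def C6a (n : ℕ) (U _V : ℝ) : Prop := if n % 2 = 0 then 1 < U else U < 1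

/-- the circle -/
noncomputable def circ6a : Circ ((2 : ℚ) : ℝ) ((1 : ℚ) : ℝ) (C6a 0) := by
  have h5 : √5 ^ 2 = (5 : ℝ) := Real.sq_sqrt (by norm_num)
  have h5' : 2 < √5 := by
    rw [Real.lt_sqrt (by norm_num)]; norm_num
  refine mkCirc _ _ ((1 + √5) / 2) (4 * ((1 + √5) / 2 - 2)) (-4 * ((1 + √5) / 2 - 1)) _ ?_ ?_ ?_
  · intro x
    push_cast
    linear_combination (x - 1) * h5
  · intro x hx
    have e : 4 * x ^ 2 + 4 * ((1 + √5) / 2 - 2) * x + -4 * ((1 + √5) / 2 - 1) =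
        4 * ((x - 1) * (x - 1 + (1 + √5) / 2)) := by ring
    rw [e]
    have h1 : 0 < x - 1 := by linarith
    have h2 : 0 < x - 1 + (1 + √5) / 2 := by linarith
    positivity
  · intro s _ V _
    show (if 0 % 2 = 0 then 1 < (1 + √5) / 2 + s ^ 2 else (1 + √5) / 2 + s ^ 2 < 1)
    rw [if_pos rfl]
    have := sq_nonneg s
    linarith

/-- the functions -/
def f6a : Fin 3 → Q2 := ![.x / .c 2, .x, (.x + .y - .c 2) / (.y - .x)]

/-- the units -/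
def u6a : Fin 3 → Q2 := ![(.c 2 - .y) / .y, ((.c 2 - .y) * (.y - .x)) / ((.x + .y - .c 2) * .y),
  (.c 4 * ((.x - .c 1) * (.x - .c 1))) / (.x - .c 2)]

/-- the nonvanishing functions -/
def nz6a : List Q2 := [.y, .y - .x, .x - .c 1, .x - .c 2, .x + .y - .c 2, .c 2 - .y]

variable {k F : Type*} [Field k] [Field F] [Algebra k F] {x y : F}

lemma nz6a_ne [CharZero F] (h : Gen (((2 : ℚ)) : k) ((1 : ℚ) : k) x y) :
    y ≠ 0 ∧ y - x ≠ 0 ∧ x - 1 ≠ 0 ∧ x - 2 ≠ 0 ∧ x + y - 2 ≠ 0 ∧ 2 - y ≠ 0 := by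
  have h1 := h.yab_ne (-1) 0
  have h2 := h.xc_ne 1
  have h3 := h.xc_ne 2
  have h4 := h.yab_ne 1 (-2)
  have h5 := h.yab_ne 0 (-2)
  simp only [map_neg, map_one, map_zero, map_ofNat] at h1 h2 h3 h4 h5
  refine ⟨h.y_ne, fun e => h1 ?_, h2, h3, fun e => h4 ?_, fun e => h5 ?_⟩
  · linear_combination e
  · linear_combination e
  · linear_combination -e

lemma real6a (U V : ℝ) (hnz : ∀ e ∈ nz6a, e.ev U V ≠ 0) :
    V ≠ 0 ∧ V - U ≠ 0 ∧ U - 1 ≠ 0 ∧ U - 2 ≠ 0 ∧ U + V - 2 ≠ 0 ∧ 2 - V ≠ 0 := by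
  simp only [nz6a, List.mem_cons, List.not_mem_nil, or_false, forall_eq_or_imp, forall_eq,
    Q2.ev_x, Q2.ev_y, Q2.ev_c, Q2.ev_sub, Q2.ev_add] at hnz
  push_cast at hnz
  exact hnz

lemma str6a {U V : ℝ} (he : V ^ 2 + (1 - 1) * U * V - 2 * V = U ^ 3 - 2 * U ^ 2)
    (a2 : V - U ≠ 0) (a4 : U - 2 ≠ 0) (hU1 : 1 < U) :
    (((2 * V + (1 - 1) * U - 2) + (3 * U ^ 2 - 2 * 2 * U - (1 - 1) * V) - 0) * (V - U) -
      (U + V - 2) * ((3 * U ^ 2 - 2 * 2 * U - (1 - 1) * V) - (2 * V + (1 - 1) * U - 2))) /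
      (V - U) ^ 2 * Real.log ((4 * ((U - 1) * (U - 1))) / (U - 2)) < 0 := by
  have e : (((2 * V + (1 - 1) * U - 2) + (3 * U ^ 2 - 2 * 2 * U - (1 - 1) * V) - 0) * (V - U) -
      (U + V - 2) * ((3 * U ^ 2 - 2 * 2 * U - (1 - 1) * V) - (2 * V + (1 - 1) * U - 2))) =
      -(2 * (U - 1) * ((U - 1) ^ 2 + 1)) := by linear_combination 4 * he
  rw [e]
  have h1 : 0 < U - 1 := by linarith
  have h2 : 0 < (V - U) ^ 2 := by positivity
  have h3 : 0 ≤ U ^ 2 - U - 1 := by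
    have h4 : (V - 1) ^ 2 = (U - 1) * (U ^ 2 - U - 1) := by linear_combination he
    by_contra h5
    push Not at h5
    have := mul_neg_of_pos_of_neg h1 h5
    nlinarith [sq_nonneg (V - 1)]
  refine mul_neg_of_neg_of_pos (div_neg_of_neg_of_pos (neg_neg_of_pos (by positivity)) h2) ?_
  refine log_div_pos a4 ?_
  have h6 : (U - 2) ^ 2 ≤ ((U - 1) * (U - 1)) ^ 2 := by
    apply sq_le_sq'
    · nlinarith
    · nlinarith
  have h7 : 0 < ((U - 1) * (U - 1)) ^ 2 := by positivity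
  rw [mul_pow]
  linarith

theorem rz6a [CharZero k] (φ : k →+* ℝ) (h : Gen (2 : k) 1 x y)
    (htop : IntermediateField.adjoin k {x, y} = ⊤) : RZ φ x y circ6a.X circ6a.Y (
    ∑ i : Fin 3 × Fin 3, K4M.hk (K4M.sy ((f6a i.2).ev (It (2 : F) (2 * i.1.val) (x, y)).1
        (It (2 : F) (2 * i.1.val) (x, y)).2))
      (K4M.lg ((u6a i.2).ev (It (2 : F) (2 * i.1.val) (x, y)).1
        (It (2 : F) (2 * i.1.val) (x, y)).2))) := by
  have : CharZero F := charZero_of_injective_algebraMap (algebraMap k F).injective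
  have e2k : ((2 : ℚ) : k) = 2 := by norm_num
  have e1k : ((1 : ℚ) : k) = 1 := by norm_num
  have e2F : ((2 : ℚ) : F) = 2 := by norm_num
  have h' : Gen ((2 : ℚ) : k) ((1 : ℚ) : k) x y := by rw [e2k, e1k]; exact h
  have key := engR φ 2 1 (by norm_num) h' htop C6a circ6a
    (fun i : Fin 3 × Fin 3 => f6a i.2) (fun i => u6a i.2) (fun i => 2 * i.1.val) nz6a ?_ ?_ ?_ ?_ ?_
    (0, 2) ?_
  · rw [e2F] at key
    exact key
  · intro x' y' hg
    obtain ⟨a1, a2, a3, a4, a5, a6⟩ := nz6a_ne hg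
    simp only [nz6a, List.mem_cons, List.not_mem_nil, or_false, forall_eq_or_imp, forall_eq,
      Q2.ev_x, Q2.ev_y, Q2.ev_c, Q2.ev_sub, Q2.ev_add]
    push_cast
    exact ⟨a1, a2, a3, a4, a5, a6⟩
  · intro x' y' hg i
    obtain ⟨a1, a2, a3, a4, a5, a6⟩ := nz6a_ne hg
    have a0 := hg.x_ne
    have h2 : (2 : F) ≠ 0 := two_ne_zero
    have h4 : (4 : F) ≠ 0 := by norm_num
    obtain ⟨i, m⟩ := i
    fin_cases m
    · show x' / ((2 : ℚ) : F) ≠ 0 ∧ x' / ((2 : ℚ) : F) ≠ 1 ∧ (((2 : ℚ) : F) - y') / y' ≠ 0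
      rw [e2F]
      refine ⟨div_ne_zero a0 h2, fun e => a4 ?_, div_ne_zero a6 a1⟩
      rw [div_eq_one_iff_eq h2] at e
      rw [e, sub_self]
    · show x' ≠ 0 ∧ x' ≠ 1 ∧ ((((2 : ℚ) : F) - y') * (y' - x')) / ((x' + y' - ((2 : ℚ) : F)) * y') ≠ 0
      rw [e2F]
      refine ⟨a0, sub_ne_zero.mp a3, div_ne_zero (mul_ne_zero a6 a2) (mul_ne_zero a5 a1)⟩
    · show (x' + y' - ((2 : ℚ) : F)) / (y' - x') ≠ 0 ∧ (x' + y' - ((2 : ℚ) : F)) / (y' - x') ≠ 1 ∧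
        (((4 : ℚ) : F) * ((x' - ((1 : ℚ) : F)) * (x' - ((1 : ℚ) : F)))) / (x' - ((2 : ℚ) : F)) ≠ 0
      rw [e2F]
      push_cast
      refine ⟨div_ne_zero a5 a2, fun e => a3 ?_,
        div_ne_zero (mul_ne_zero h4 (mul_ne_zero a3 a3)) a4⟩
      rw [div_eq_one_iff_eq a2] at e
      have : 2 * (x' - 1) = 0 := by linear_combination e
      rcases mul_eq_zero.mp this with h9 | h9
      · exact absurd h9 h2
      · exact h9
  · intro i U V hnz
    obtain ⟨a1, a2, a3, a4, a5, a6⟩ := real6a U V hnz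
    obtain ⟨i, m⟩ := i
    fin_cases m
    · exact ⟨trivial, trivial, by show ((2 : ℚ) : ℝ) ≠ 0; norm_num⟩
    · exact trivial
    · exact ⟨⟨⟨trivial, trivial⟩, trivial⟩, ⟨trivial, trivial⟩, a2⟩
  · intro n U V he hU hnz hC
    obtain ⟨a1, a2, a3, a4, a5, a6⟩ := real6a U V hnz
    push_cast at he ⊢
    have hk : (U - 1) * (2 * V - U ^ 2) = -(V - U) ^ 2 := by linear_combination he
    have hs : 0 < (V - U) ^ 2 := by positivity
    have hU2 : 0 < U ^ 2 := by positivity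
    unfold C6a at hC ⊢
    rcases Nat.mod_two_eq_zero_or_one n with hn | hn
    · have hn' : (n + 1) % 2 ≠ 0 := by omega
      rw [if_pos hn] at hC
      rw [if_neg hn', div_lt_one hU2]
      nlinarith
    · have hn' : (n + 1) % 2 = 0 := by omega
      rw [if_neg (by omega)] at hC
      rw [if_pos hn', one_lt_div hU2]
      nlinarith
  · intro i U V he hU hnz hC
    obtain ⟨a1, a2, a3, a4, a5, a6⟩ := real6a U V hnz
    have hU1 : 1 < U := by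
      unfold C6a at hC
      rwa [if_pos (by omega)] at hC
    obtain ⟨i, m⟩ := i
    push_cast at he
    fin_cases m
    · show ((2 * V + (1 - ((1 : ℚ) : ℝ)) * U - ((2 : ℚ) : ℝ)) * ((2 : ℚ) : ℝ) - U * 0) /
        ((2 : ℚ) : ℝ) ^ 2 * Real.log ((((2 : ℚ) : ℝ) - V) / V) ≤ 0
      push_cast
      have e : ((2 * V + (1 - 1) * U - 2) * 2 - U * 0) / 2 ^ 2 = V - 1 := by ring
      rw [e]
      rcases le_total 1 V with h1 | h1
      · exact mul_nonpos_of_nonneg_of_nonpos (by linarith) (log_div_nonpos (by nlinarith))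
      · exact mul_nonpos_of_nonpos_of_nonneg (by linarith) (log_div_nonneg (by nlinarith))
    · show (2 * V + (1 - ((1 : ℚ) : ℝ)) * U - ((2 : ℚ) : ℝ)) *
        Real.log (((((2 : ℚ) : ℝ) - V) * (V - U)) / ((U + V - ((2 : ℚ) : ℝ)) * V)) ≤ 0
      push_cast
      have e : 2 * V + (1 - 1) * U - 2 = 2 * (V - 1) := by ring
      rw [e]
      have e1 : (U + V - 2) ^ 2 - (V - U) ^ 2 = 4 * ((V - 1) * (U - 1)) := by ring
      have e2 : V ^ 2 - (2 - V) ^ 2 = 4 * (V - 1) := by ring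
      rcases le_total 1 V with h1 | h1
      · refine mul_nonpos_of_nonneg_of_nonpos (by linarith) (log_div_nonpos ?_)
        rw [mul_pow, mul_pow, mul_comm ((U + V - 2) ^ 2)]
        have p1 : 0 ≤ (V - 1) * (U - 1) := mul_nonneg (by linarith) (by linarith)
        exact mul_le_mul (by linarith) (by linarith) (sq_nonneg _) (sq_nonneg _)
      · refine mul_nonpos_of_nonpos_of_nonneg (by linarith) (log_div_nonneg ?_)
        rw [mul_pow, mul_pow, mul_comm ((U + V - 2) ^ 2)]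
        have p1 : (V - 1) * (U - 1) ≤ 0 := mul_nonpos_of_nonpos_of_nonneg (by linarith) (by linarith)
        exact mul_le_mul (by linarith) (by linarith) (sq_nonneg _) (sq_nonneg _)
    · have := str6a he a2 a4 hU1
      show (((2 * V + (1 - ((1 : ℚ) : ℝ)) * U - ((2 : ℚ) : ℝ)) +
        (3 * U ^ 2 - 2 * ((2 : ℚ) : ℝ) * U - (1 - ((1 : ℚ) : ℝ)) * V) - 0) * (V - U) -
        (U + V - ((2 : ℚ) : ℝ)) * ((3 * U ^ 2 - 2 * ((2 : ℚ) : ℝ) * U -
        (1 - ((1 : ℚ) : ℝ)) * V) - (2 * V + (1 - ((1 : ℚ) : ℝ)) * U - ((2 : ℚ) : ℝ)))) /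
        (V - U) ^ 2 * Real.log ((((4 : ℚ) : ℝ) * ((U - ((1 : ℚ) : ℝ)) * (U - ((1 : ℚ) : ℝ)))) /
          (U - ((2 : ℚ) : ℝ))) ≤ 0
      push_cast
      exact this.le
  · intro U V he hU hnz hC
    obtain ⟨a1, a2, a3, a4, a5, a6⟩ := real6a U V hnz
    have hU1 : 1 < U := by
      unfold C6a at hC
      rwa [if_pos (by decide)] at hC
    push_cast at he
    have := str6a he a2 a4 hU1
    show (((2 * V + (1 - ((1 : ℚ) : ℝ)) * U - ((2 : ℚ) : ℝ)) +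
        (3 * U ^ 2 - 2 * ((2 : ℚ) : ℝ) * U - (1 - ((1 : ℚ) : ℝ)) * V) - 0) * (V - U) -
        (U + V - ((2 : ℚ) : ℝ)) * ((3 * U ^ 2 - 2 * ((2 : ℚ) : ℝ) * U -
        (1 - ((1 : ℚ) : ℝ)) * V) - (2 * V + (1 - ((1 : ℚ) : ℝ)) * U - ((2 : ℚ) : ℝ)))) /
        (V - U) ^ 2 * Real.log ((((4 : ℚ) : ℝ) * ((U - ((1 : ℚ) : ℝ)) * (U - ((1 : ℚ) : ℝ)))) /
          (U - ((2 : ℚ) : ℝ))) < 0
    push_cast
    exact this

theorem nv6a [CharZero k] (φ : k →+* ℝ) (h : Gen (2 : k) 1 x y)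
    (htop : IntermediateField.adjoin k {x, y} = ⊤) :
    ∑ i : Fin 3 × Fin 3, K4M.hk (K4M.sy ((f6a i.2).ev (It (2 : F) (2 * i.1.val) (x, y)).1
        (It (2 : F) (2 * i.1.val) (x, y)).2))
      (K4M.lg ((u6a i.2).ev (It (2 : F) (2 * i.1.val) (x, y)).1
        (It (2 : F) (2 * i.1.val) (x, y)).2)) ∉
      Submodule.span ℚ {z : K4M.HK F | ∃ (c : k) (u : K4M.FT F),
        z = K4M.hk (K4M.sy (algebraMap k F c)) u} :=
  (rz6a φ h htop).not_mem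

end A

/-! ### `t = -2` -/

section B

/-- the component -/
def C6b (n : ℕ) (U _V : ℝ) : Prop := if n % 2 = 0 then 1 < U else U < 1

/-- the circle -/
noncomputable def circ6b : Circ ((2 : ℚ) : ℝ) ((-2 : ℚ) : ℝ) (C6b 0) := by
  have h5 : √17 ^ 2 = (17 : ℝ) := Real.sq_sqrt (by norm_num)
  have h5' : 4 < √17 := by
    rw [Real.lt_sqrt (by norm_num)]; norm_num
  refine mkCirc _ _ ((7 + √17) / 8) (4 * (2 - (7 - √17) / 8)) (-8 * ((7 - √17) / 8)) _ ?_ ?_ ?_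
  · intro x
    push_cast
    linear_combination (x / 16 + 1 / 8) * h5
  · intro x hx
    have e : 4 * x ^ 2 + 4 * (2 - (7 - √17) / 8) * x + -8 * ((7 - √17) / 8) =
        4 * ((x + 2) * (x - (7 - √17) / 8)) := by ring
    rw [e]
    have h1 : 0 < x + 2 := by linarith
    have h2 : 0 < x - (7 - √17) / 8 := by linarith
    positivity
  · intro s _ V _
    show (if 0 % 2 = 0 then 1 < (7 + √17) / 8 + s ^ 2 else (7 + √17) / 8 + s ^ 2 < 1)
    rw [if_pos rfl]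
    have := sq_nonneg s
    linarith

/-- the functions -/
def f6b : Fin 3 → Q2 := ![.x / .c 2, .x / .c (-2), (.x + .y - .c 2) / (.y + .c 2 * .x)]

/-- the units -/
def u6b : Fin 3 → Q2 := ![(.x + .y - .c 2) / (.y + .c 2 * .x), (.y + .c 2 * .x) / (.x + .y - .c 2),
  (.x - .c 2) / (.x * .x)]

/-- the nonvanishing functions -/
def nz6b : List Q2 := [.y + .c 2 * .x, .x - .c 2, .x + .c 2, .x + .y - .c 2]

variable {k F : Type*} [Field k] [Field F] [Algebra k F] {x y : F}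

lemma nz6b_ne [CharZero F] (h : Gen (((2 : ℚ)) : k) ((-2 : ℚ) : k) x y) :
    y + 2 * x ≠ 0 ∧ x - 2 ≠ 0 ∧ x + 2 ≠ 0 ∧ x + y - 2 ≠ 0 := by
  have h1 := h.yab_ne 2 0
  have h2 := h.xc_ne 2
  have h3 := h.xc_ne (-2)
  have h4 := h.yab_ne 1 (-2)
  simp only [map_neg, map_one, map_zero, map_ofNat] at h1 h2 h3 h4
  refine ⟨fun e => h1 ?_, h2, fun e => h3 ?_, fun e => h4 ?_⟩
  · linear_combination e
  · linear_combination e
  · linear_combination e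

lemma real6b (U V : ℝ) (hnz : ∀ e ∈ nz6b, e.ev U V ≠ 0) :
    V + 2 * U ≠ 0 ∧ U - 2 ≠ 0 ∧ U + 2 ≠ 0 ∧ U + V - 2 ≠ 0 := by
  simp only [nz6b, List.mem_cons, List.not_mem_nil, or_false, forall_eq_or_imp, forall_eq,
    Q2.ev_x, Q2.ev_y, Q2.ev_c, Q2.ev_sub, Q2.ev_add, Q2.ev_mul] at hnz
  push_cast at hnz
  exact hnz

lemma str6b {U V : ℝ} (he : V ^ 2 + (1 - -2) * U * V - 2 * V = U ^ 3 - 2 * U ^ 2)
    (a1 : V + 2 * U ≠ 0) (a2 : U - 2 ≠ 0) (hU1 : 1 < U) :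
    (((2 * V + (1 - -2) * U - 2) + (3 * U ^ 2 - 2 * 2 * U - (1 - -2) * V) - 0) * (V + 2 * U) -
      (U + V - 2) * ((3 * U ^ 2 - 2 * 2 * U - (1 - -2) * V) +
        (0 * U + 2 * (2 * V + (1 - -2) * U - 2)))) /
      (V + 2 * U) ^ 2 * Real.log ((U - 2) / (U * U)) < 0 := by
  have e : (((2 * V + (1 - -2) * U - 2) + (3 * U ^ 2 - 2 * 2 * U - (1 - -2) * V) - 0) * (V + 2 * U) -
      (U + V - 2) * ((3 * U ^ 2 - 2 * 2 * U - (1 - -2) * V) +
        (0 * U + 2 * (2 * V + (1 - -2) * U - 2)))) =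
      (U + 2) * (U ^ 2 + 4 * U - 4) := by linear_combination -2 * he
  rw [e]
  have h2 : 0 < (V + 2 * U) ^ 2 := by positivity
  refine mul_neg_of_pos_of_neg (div_pos (mul_pos (by linarith) (by nlinarith)) h2) ?_
  refine log_div_neg a2 ?_
  apply sq_lt_sq'
  · nlinarith
  · nlinarith

theorem rz6b [CharZero k] (φ : k →+* ℝ) (h : Gen (2 : k) (-2) x y)
    (htop : IntermediateField.adjoin k {x, y} = ⊤) : RZ φ x y circ6b.X circ6b.Y (
    ∑ i : Fin 3 × Fin 3, K4M.hk (K4M.sy ((f6b i.2).ev (It (2 : F) (2 * i.1.val) (x, y)).1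
        (It (2 : F) (2 * i.1.val) (x, y)).2))
      (K4M.lg ((u6b i.2).ev (It (2 : F) (2 * i.1.val) (x, y)).1
        (It (2 : F) (2 * i.1.val) (x, y)).2))) := by
  have : CharZero F := charZero_of_injective_algebraMap (algebraMap k F).injective
  have e2k : ((2 : ℚ) : k) = 2 := by norm_num
  have e1k : ((-2 : ℚ) : k) = -2 := by norm_num
  have e2F : ((2 : ℚ) : F) = 2 := by norm_num
  have e2F' : ((-2 : ℚ) : F) = -2 := by norm_num
  have h' : Gen ((2 : ℚ) : k) ((-2 : ℚ) : k) x y := by rw [e2k, e1k]; exact h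
  have key := engR φ 2 (-2) (by norm_num) h' htop C6b circ6b
    (fun i : Fin 3 × Fin 3 => f6b i.2) (fun i => u6b i.2) (fun i => 2 * i.1.val) nz6b ?_ ?_ ?_ ?_ ?_
    (0, 2) ?_
  · rw [e2F] at key
    exact key
  · intro x' y' hg
    obtain ⟨a1, a2, a3, a4⟩ := nz6b_ne hg
    simp only [nz6b, List.mem_cons, List.not_mem_nil, or_false, forall_eq_or_imp, forall_eq,
      Q2.ev_x, Q2.ev_y, Q2.ev_c, Q2.ev_sub, Q2.ev_add, Q2.ev_mul]
    push_cast
    exact ⟨a1, a2, a3, a4⟩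
  · intro x' y' hg i
    obtain ⟨a1, a2, a3, a4⟩ := nz6b_ne hg
    have a0 := hg.x_ne
    have h2 : (2 : F) ≠ 0 := two_ne_zero
    have h2' : (-2 : F) ≠ 0 := neg_ne_zero.mpr h2
    obtain ⟨i, m⟩ := i
    fin_cases m
    · show x' / ((2 : ℚ) : F) ≠ 0 ∧ x' / ((2 : ℚ) : F) ≠ 1 ∧
        (x' + y' - ((2 : ℚ) : F)) / (y' + ((2 : ℚ) : F) * x') ≠ 0
      rw [e2F]
      refine ⟨div_ne_zero a0 h2, fun e => a2 ?_, div_ne_zero a4 a1⟩
      rw [div_eq_one_iff_eq h2] at e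
      rw [e, sub_self]
    · show x' / ((-2 : ℚ) : F) ≠ 0 ∧ x' / ((-2 : ℚ) : F) ≠ 1 ∧
        (y' + ((2 : ℚ) : F) * x') / (x' + y' - ((2 : ℚ) : F)) ≠ 0
      rw [e2F, e2F']
      refine ⟨div_ne_zero a0 h2', fun e => a3 ?_, div_ne_zero a1 a4⟩
      rw [div_eq_one_iff_eq h2'] at e
      rw [e]
      ring
    · show (x' + y' - ((2 : ℚ) : F)) / (y' + ((2 : ℚ) : F) * x') ≠ 0 ∧
        (x' + y' - ((2 : ℚ) : F)) / (y' + ((2 : ℚ) : F) * x') ≠ 1 ∧
        (x' - ((2 : ℚ) : F)) / (x' * x') ≠ 0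
      rw [e2F]
      refine ⟨div_ne_zero a4 a1, fun e => a3 ?_, div_ne_zero a2 (mul_ne_zero a0 a0)⟩
      rw [div_eq_one_iff_eq a1] at e
      linear_combination -e
  · intro i U V hnz
    obtain ⟨a1, a2, a3, a4⟩ := real6b U V hnz
    have e2R : ((2 : ℚ) : ℝ) = 2 := by norm_num
    obtain ⟨i, m⟩ := i
    fin_cases m
    · exact ⟨trivial, trivial, by show ((2 : ℚ) : ℝ) ≠ 0; norm_num⟩
    · exact ⟨trivial, trivial, by show ((-2 : ℚ) : ℝ) ≠ 0; norm_num⟩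
    · refine ⟨⟨⟨trivial, trivial⟩, trivial⟩, ⟨trivial, trivial, trivial⟩, ?_⟩
      show V + ((2 : ℚ) : ℝ) * U ≠ 0
      rw [e2R]
      exact a1
  · intro n U V he hU hnz hC
    push_cast at he ⊢
    have hU2 : 0 < U ^ 2 := by positivity
    have hk : (2 * V - U ^ 2) * (2 * V + U ^ 2 + 6 * U - 4) =
        -(U ^ 2 * (U ^ 2 + 2 * U + 4)) := by linear_combination 4 * he
    have hk0 : 0 < U ^ 2 * (U ^ 2 + 2 * U + 4) := by
      have : 0 < U ^ 2 + 2 * U + 4 := by nlinarith [sq_nonneg (U + 1)]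
      positivity
    unfold C6b at hC ⊢
    rcases Nat.mod_two_eq_zero_or_one n with hn | hn
    · have hn' : (n + 1) % 2 ≠ 0 := by omega
      rw [if_pos hn] at hC
      rw [if_neg hn', div_lt_one hU2]
      by_contra hh
      push Not at hh
      have h1 : 0 ≤ 2 * V + U ^ 2 + 6 * U - 4 := by nlinarith
      have := mul_nonneg (by linarith : 0 ≤ 2 * V - U ^ 2) h1
      linarith
    · have hn' : (n + 1) % 2 = 0 := by omega
      rw [if_neg (by omega)] at hC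
      rw [if_pos hn', one_lt_div hU2]
      have hpsi : (2 * V + 3 * U - 2) ^ 2 = (U + 2) * (4 * U ^ 2 - 7 * U + 2) := by
        linear_combination 4 * he
      have hr1 : -2 ≤ U := by
        by_contra hh
        push Not at hh
        have := mul_neg_of_neg_of_pos (by linarith : U + 2 < 0)
          (by nlinarith : 0 < 4 * U ^ 2 - 7 * U + 2)
        nlinarith [sq_nonneg (2 * V + 3 * U - 2)]
      have hr2 : U < 1 / 2 := by
        by_contra hh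
        push Not at hh
        have := mul_neg_of_pos_of_neg (by linarith : 0 < U + 2)
          (by nlinarith : 4 * U ^ 2 - 7 * U + 2 < 0)
        nlinarith [sq_nonneg (2 * V + 3 * U - 2)]
      by_contra hh
      push Not at hh
      have h1 : 2 * V + U ^ 2 + 6 * U - 4 ≤ 0 := by nlinarith
      have := mul_nonneg_of_nonpos_of_nonpos (by linarith : 2 * V - U ^ 2 ≤ 0) h1
      linarith
  · intro i U V he hU hnz hC
    obtain ⟨a1, a2, a3, a4⟩ := real6b U V hnz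
    have hU1 : 1 < U := by
      unfold C6b at hC
      rwa [if_pos (by omega)] at hC
    obtain ⟨i, m⟩ := i
    push_cast at he
    have e1 : (V + 2 * U) ^ 2 - (U + V - 2) ^ 2 = (2 * V + 3 * U - 2) * (U + 2) := by ring
    fin_cases m
    · show ((2 * V + (1 - ((-2 : ℚ) : ℝ)) * U - ((2 : ℚ) : ℝ)) * ((2 : ℚ) : ℝ) - U * 0) /
        ((2 : ℚ) : ℝ) ^ 2 * Real.log ((U + V - ((2 : ℚ) : ℝ)) / (V + ((2 : ℚ) : ℝ) * U)) ≤ 0
      push_cast
      have e : ((2 * V + (1 - -2) * U - 2) * 2 - U * 0) / 2 ^ 2 = (2 * V + 3 * U - 2) / 2 := by ring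
      rw [e]
      rcases le_total 0 (2 * V + 3 * U - 2) with h1 | h1
      · refine mul_nonpos_of_nonneg_of_nonpos (by linarith) (log_div_nonpos ?_)
        have := mul_nonneg h1 (by linarith : 0 ≤ U + 2)
        linarith
      · refine mul_nonpos_of_nonpos_of_nonneg (by linarith) (log_div_nonneg ?_)
        have := mul_nonpos_of_nonpos_of_nonneg h1 (by linarith : 0 ≤ U + 2)
        linarith
    · show ((2 * V + (1 - ((-2 : ℚ) : ℝ)) * U - ((2 : ℚ) : ℝ)) * ((-2 : ℚ) : ℝ) - U * 0) /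
        ((-2 : ℚ) : ℝ) ^ 2 * Real.log ((V + ((2 : ℚ) : ℝ) * U) / (U + V - ((2 : ℚ) : ℝ))) ≤ 0
      push_cast
      have e : ((2 * V + (1 - -2) * U - 2) * -2 - U * 0) / (-2) ^ 2 =
        -((2 * V + 3 * U - 2) / 2) := by ring
      rw [e]
      rcases le_total 0 (2 * V + 3 * U - 2) with h1 | h1
      · refine mul_nonpos_of_nonpos_of_nonneg (by linarith) (log_div_nonneg ?_)
        have := mul_nonneg h1 (by linarith : 0 ≤ U + 2)
        linarith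
      · refine mul_nonpos_of_nonneg_of_nonpos (by linarith) (log_div_nonpos ?_)
        have := mul_nonpos_of_nonpos_of_nonneg h1 (by linarith : 0 ≤ U + 2)
        linarith
    · have := str6b he a1 a2 hU1
      show (((2 * V + (1 - ((-2 : ℚ) : ℝ)) * U - ((2 : ℚ) : ℝ)) +
        (3 * U ^ 2 - 2 * ((2 : ℚ) : ℝ) * U - (1 - ((-2 : ℚ) : ℝ)) * V) - 0) *
        (V + ((2 : ℚ) : ℝ) * U) -
        (U + V - ((2 : ℚ) : ℝ)) * ((3 * U ^ 2 - 2 * ((2 : ℚ) : ℝ) * U -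
        (1 - ((-2 : ℚ) : ℝ)) * V) + (0 * U + ((2 : ℚ) : ℝ) *
          (2 * V + (1 - ((-2 : ℚ) : ℝ)) * U - ((2 : ℚ) : ℝ))))) /
        (V + ((2 : ℚ) : ℝ) * U) ^ 2 * Real.log ((U - ((2 : ℚ) : ℝ)) / (U * U)) ≤ 0
      push_cast
      exact this.le
  · intro U V he hU hnz hC
    obtain ⟨a1, a2, a3, a4⟩ := real6b U V hnz
    have hU1 : 1 < U := by
      unfold C6b at hC
      rwa [if_pos (by decide)] at hC
    push_cast at he
    have := str6b he a1 a2 hU1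
    show (((2 * V + (1 - ((-2 : ℚ) : ℝ)) * U - ((2 : ℚ) : ℝ)) +
        (3 * U ^ 2 - 2 * ((2 : ℚ) : ℝ) * U - (1 - ((-2 : ℚ) : ℝ)) * V) - 0) *
        (V + ((2 : ℚ) : ℝ) * U) -
        (U + V - ((2 : ℚ) : ℝ)) * ((3 * U ^ 2 - 2 * ((2 : ℚ) : ℝ) * U -
        (1 - ((-2 : ℚ) : ℝ)) * V) + (0 * U + ((2 : ℚ) : ℝ) *
          (2 * V + (1 - ((-2 : ℚ) : ℝ)) * U - ((2 : ℚ) : ℝ))))) /
        (V + ((2 : ℚ) : ℝ) * U) ^ 2 * Real.log ((U - ((2 : ℚ) : ℝ)) / (U * U)) < 0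
    push_cast
    exact this

theorem nv6b [CharZero k] (φ : k →+* ℝ) (h : Gen (2 : k) (-2) x y)
    (htop : IntermediateField.adjoin k {x, y} = ⊤) :
    ∑ i : Fin 3 × Fin 3, K4M.hk (K4M.sy ((f6b i.2).ev (It (2 : F) (2 * i.1.val) (x, y)).1
        (It (2 : F) (2 * i.1.val) (x, y)).2))
      (K4M.lg ((u6b i.2).ev (It (2 : F) (2 * i.1.val) (x, y)).1
        (It (2 : F) (2 * i.1.val) (x, y)).2)) ∉
      Submodule.span ℚ {z : K4M.HK F | ∃ (c : k) (u : K4M.FT F),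
        z = K4M.hk (K4M.sy (algebraMap k F c)) u} :=
  (rz6b φ h htop).not_mem

end B

/-! ### `t = -1/2` -/

section D

/-- the circle -/
noncomputable def circ6d : Circ ((-1 / 4 : ℚ) : ℝ) ((-1 / 2 : ℚ) : ℝ) (fun _ _ => True) := by
  refine mkCirc _ _ (-1 / 2) (5 / 4) (1 / 8) _ ?_ ?_ ?_
  · intro x
    push_cast
    ring
  · intro x hx
    nlinarith [sq_nonneg (x + 5 / 32)]
  · intro s _ V _
    trivial

/-- the functions -/
def f6d : Fin 1 → Q2 := ![(.x + .y + .c (1 / 4)) / (.y + .c (1 / 2) * .x)]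

/-- the units -/
def u6d : Fin 1 → Q2 := ![(.c 4 * ((.x + .c (1 / 4)) * (.x + .c (1 / 2)))) / .x]

/-- the nonvanishing functions -/
def nz6d : List Q2 := [.y + .c (1 / 2) * .x, .x + .c (1 / 4), .x + .c (1 / 2),
  .x + .y + .c (1 / 4), .x * .x + .x + .c (1 / 8)]

variable {k F : Type*} [Field k] [Field F] [Algebra k F] {x y : F}

lemma nz6d_ne [CharZero k] [CharZero F] (h : Gen (((-1 / 4 : ℚ)) : k) ((-1 / 2 : ℚ) : k) x y) :
    y + 1 / 2 * x ≠ 0 ∧ x + 1 / 4 ≠ 0 ∧ x + 1 / 2 ≠ 0 ∧ x + y + 1 / 4 ≠ 0 ∧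
      x * x + x + 1 / 8 ≠ 0 := by
  have h1 := h.yab_ne (1 / 2) 0
  have h2 := h.xc_ne (-1 / 4)
  have h3 := h.xc_ne (-1 / 2)
  have h4 := h.yab_ne 1 (1 / 4)
  have h5 := quad_ne ((TN.Tr_iff x).mp h.tr) 1 (1 / 8)
  simp only [map_neg, map_one, map_zero, map_ofNat, map_div₀] at h1 h2 h3 h4 h5
  refine ⟨fun e => h1 ?_, fun e => h2 ?_, fun e => h3 ?_, fun e => h4 ?_, fun e => h5 ?_⟩
  · linear_combination e
  · linear_combination e
  · linear_combination e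
  · linear_combination e
  · linear_combination e

lemma real6d (U V : ℝ) (hnz : ∀ e ∈ nz6d, e.ev U V ≠ 0) :
    V + 1 / 2 * U ≠ 0 ∧ U + 1 / 4 ≠ 0 ∧ U + 1 / 2 ≠ 0 ∧ U + V + 1 / 4 ≠ 0 ∧
      U * U + U + 1 / 8 ≠ 0 := by
  simp only [nz6d, List.mem_cons, List.not_mem_nil, or_false, forall_eq_or_imp, forall_eq,
    Q2.ev_x, Q2.ev_y, Q2.ev_c, Q2.ev_sub, Q2.ev_add, Q2.ev_mul] at hnz
  push_cast at hnz
  exact hnz

lemma str6d {U V : ℝ} (he : V ^ 2 + (1 - -1 / 2) * U * V - -1 / 4 * V = U ^ 3 - -1 / 4 * U ^ 2)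
    (hU : U ≠ 0) (a1 : V + 1 / 2 * U ≠ 0) (a2 : U + 1 / 4 ≠ 0) (a3 : U + 1 / 2 ≠ 0)
    (a5 : U * U + U + 1 / 8 ≠ 0) :
    (((2 * V + (1 - -1 / 2) * U - -1 / 4) +
      (3 * U ^ 2 - 2 * (-1 / 4) * U - (1 - -1 / 2) * V) + 0) * (V + 1 / 2 * U) -
      (U + V + 1 / 4) * ((3 * U ^ 2 - 2 * (-1 / 4) * U - (1 - -1 / 2) * V) +
        (0 * U + 1 / 2 * (2 * V + (1 - -1 / 2) * U - -1 / 4)))) /
      (V + 1 / 2 * U) ^ 2 * Real.log ((4 * ((U + 1 / 4) * (U + 1 / 2))) / U) < 0 := by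
  have e : (((2 * V + (1 - -1 / 2) * U - -1 / 4) +
      (3 * U ^ 2 - 2 * (-1 / 4) * U - (1 - -1 / 2) * V) + 0) * (V + 1 / 2 * U) -
      (U + V + 1 / 4) * ((3 * U ^ 2 - 2 * (-1 / 4) * U - (1 - -1 / 2) * V) +
        (0 * U + 1 / 2 * (2 * V + (1 - -1 / 2) * U - -1 / 4)))) =
      -(1 / 2 * ((U + 1 / 2) * (U * U + U + 1 / 8))) := by linear_combination he
  rw [e]
  have h2 : 0 < (V + 1 / 2 * U) ^ 2 := by positivity
  have hpsi : (2 * V + 3 / 2 * U + 1 / 4) ^ 2 = (U + 1 / 2) * (4 * U ^ 2 + 5 / 4 * U + 1 / 8) := by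
    linear_combination 4 * he
  have hq : 0 < 4 * U ^ 2 + 5 / 4 * U + 1 / 8 := by nlinarith [sq_nonneg (U + 5 / 32)]
  have hr : 0 < U + 1 / 2 := by
    by_contra hh
    push Not at hh
    have h3 : U + 1 / 2 < 0 := lt_of_le_of_ne hh a3
    have := mul_neg_of_neg_of_pos h3 hq
    nlinarith [sq_nonneg (2 * V + 3 / 2 * U + 1 / 4)]
  have e2 : (4 * ((U + 1 / 4) * (U + 1 / 2))) ^ 2 - U ^ 2 =
      16 * ((U * U + U + 1 / 8) * (U * U + 1 / 2 * U + 1 / 8)) := by ring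
  have hq2 : 0 < U * U + 1 / 2 * U + 1 / 8 := by nlinarith [sq_nonneg (U + 1 / 4)]
  rcases lt_or_gt_of_ne a5 with h | h
  · refine mul_neg_of_pos_of_neg (div_pos ?_ h2) (log_div_neg ?_ ?_)
    · have := mul_neg_of_pos_of_neg hr h
      linarith
    · exact mul_ne_zero (by norm_num) (mul_ne_zero a2 a3)
    · have := mul_neg_of_neg_of_pos h hq2
      linarith
  · refine mul_neg_of_neg_of_pos (div_neg_of_neg_of_pos ?_ h2) (log_div_pos hU ?_)
    · have := mul_pos hr h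
      linarith
    · have := mul_pos h hq2
      linarith

theorem rz6d [CharZero k] (φ : k →+* ℝ) (h : Gen (-1 / 4 : k) (-1 / 2) x y)
    (htop : IntermediateField.adjoin k {x, y} = ⊤) : RZ φ x y circ6d.X circ6d.Y (
    ∑ i : Fin 3 × Fin 1, K4M.hk (K4M.sy ((f6d i.2).ev (It (-1 / 4 : F) (2 * i.1.val) (x, y)).1
        (It (-1 / 4 : F) (2 * i.1.val) (x, y)).2))
      (K4M.lg ((u6d i.2).ev (It (-1 / 4 : F) (2 * i.1.val) (x, y)).1
        (It (-1 / 4 : F) (2 * i.1.val) (x, y)).2))) := by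
  have : CharZero F := charZero_of_injective_algebraMap (algebraMap k F).injective
  have e2k : ((-1 / 4 : ℚ) : k) = -1 / 4 := by push_cast; rfl
  have e1k : ((-1 / 2 : ℚ) : k) = -1 / 2 := by push_cast; rfl
  have e2F : ((-1 / 4 : ℚ) : F) = -1 / 4 := by push_cast; rfl
  have h' : Gen ((-1 / 4 : ℚ) : k) ((-1 / 2 : ℚ) : k) x y := by rw [e2k, e1k]; exact h
  have key := engR φ (-1 / 4) (-1 / 2) (by norm_num) h' htop (fun _ _ _ => True) circ6d
    (fun i : Fin 3 × Fin 1 => f6d i.2) (fun i => u6d i.2) (fun i => 2 * i.1.val) nz6d ?_ ?_ ?_ ?_ ?_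
    (0, 0) ?_
  · rw [e2F] at key
    exact key
  · intro x' y' hg
    obtain ⟨a1, a2, a3, a4, a5⟩ := nz6d_ne hg
    simp only [nz6d, List.mem_cons, List.not_mem_nil, or_false, forall_eq_or_imp, forall_eq,
      Q2.ev_x, Q2.ev_y, Q2.ev_c, Q2.ev_sub, Q2.ev_add, Q2.ev_mul]
    push_cast
    exact ⟨a1, a2, a3, a4, a5⟩
  · intro x' y' hg i
    obtain ⟨a1, a2, a3, a4, a5⟩ := nz6d_ne hg
    have a0 := hg.x_ne
    obtain ⟨i, m⟩ := i
    fin_cases m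
    show (x' + y' + ((1 / 4 : ℚ) : F)) / (y' + ((1 / 2 : ℚ) : F) * x') ≠ 0 ∧
        (x' + y' + ((1 / 4 : ℚ) : F)) / (y' + ((1 / 2 : ℚ) : F) * x') ≠ 1 ∧
        (((4 : ℚ) : F) * ((x' + ((1 / 4 : ℚ) : F)) * (x' + ((1 / 2 : ℚ) : F)))) / x' ≠ 0
    push_cast
    have h4 : (4 : F) ≠ 0 := by norm_num
    refine ⟨div_ne_zero a4 a1, fun e => a3 ?_,
      div_ne_zero (mul_ne_zero h4 (mul_ne_zero a2 a3)) a0⟩
    rw [div_eq_one_iff_eq a1] at e
    linear_combination 2 * e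
  · intro i U V hnz
    obtain ⟨a1, a2, a3, a4, a5⟩ := real6d U V hnz
    have e2R : ((1 / 2 : ℚ) : ℝ) = 1 / 2 := by norm_num
    obtain ⟨i, m⟩ := i
    fin_cases m
    refine ⟨⟨⟨trivial, trivial⟩, trivial⟩, ⟨trivial, trivial, trivial⟩, ?_⟩
    show V + ((1 / 2 : ℚ) : ℝ) * U ≠ 0
    rw [e2R]
    exact a1
  · intro n U V he hU hnz hC
    trivial
  · intro i U V he hU hnz hC
    obtain ⟨a1, a2, a3, a4, a5⟩ := real6d U V hnz
    obtain ⟨i, m⟩ := i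
    push_cast at he
    fin_cases m
    have := str6d he hU a1 a2 a3 a5
    show (((2 * V + (1 - ((-1 / 2 : ℚ) : ℝ)) * U - ((-1 / 4 : ℚ) : ℝ)) +
      (3 * U ^ 2 - 2 * ((-1 / 4 : ℚ) : ℝ) * U - (1 - ((-1 / 2 : ℚ) : ℝ)) * V) + 0) *
      (V + ((1 / 2 : ℚ) : ℝ) * U) -
      (U + V + ((1 / 4 : ℚ) : ℝ)) * ((3 * U ^ 2 - 2 * ((-1 / 4 : ℚ) : ℝ) * U -
        (1 - ((-1 / 2 : ℚ) : ℝ)) * V) +
        (0 * U + ((1 / 2 : ℚ) : ℝ) *
          (2 * V + (1 - ((-1 / 2 : ℚ) : ℝ)) * U - ((-1 / 4 : ℚ) : ℝ))))) /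
      (V + ((1 / 2 : ℚ) : ℝ) * U) ^ 2 * Real.log ((((4 : ℚ) : ℝ) *
        ((U + ((1 / 4 : ℚ) : ℝ)) * (U + ((1 / 2 : ℚ) : ℝ)))) / U) ≤ 0
    push_cast
    exact this.le
  · intro U V he hU hnz hC
    obtain ⟨a1, a2, a3, a4, a5⟩ := real6d U V hnz
    push_cast at he
    have := str6d he hU a1 a2 a3 a5
    show (((2 * V + (1 - ((-1 / 2 : ℚ) : ℝ)) * U - ((-1 / 4 : ℚ) : ℝ)) +
      (3 * U ^ 2 - 2 * ((-1 / 4 : ℚ) : ℝ) * U - (1 - ((-1 / 2 : ℚ) : ℝ)) * V) + 0) *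
      (V + ((1 / 2 : ℚ) : ℝ) * U) -
      (U + V + ((1 / 4 : ℚ) : ℝ)) * ((3 * U ^ 2 - 2 * ((-1 / 4 : ℚ) : ℝ) * U -
        (1 - ((-1 / 2 : ℚ) : ℝ)) * V) +
        (0 * U + ((1 / 2 : ℚ) : ℝ) *
          (2 * V + (1 - ((-1 / 2 : ℚ) : ℝ)) * U - ((-1 / 4 : ℚ) : ℝ))))) /
      (V + ((1 / 2 : ℚ) : ℝ) * U) ^ 2 * Real.log ((((4 : ℚ) : ℝ) *
        ((U + ((1 / 4 : ℚ) : ℝ)) * (U + ((1 / 2 : ℚ) : ℝ)))) / U) < 0
    push_cast
    exact this

theorem nv6d [CharZero k] (φ : k →+* ℝ) (h : Gen (-1 / 4 : k) (-1 / 2) x y)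
    (htop : IntermediateField.adjoin k {x, y} = ⊤) :
    ∑ i : Fin 3 × Fin 1, K4M.hk (K4M.sy ((f6d i.2).ev (It (-1 / 4 : F) (2 * i.1.val) (x, y)).1
        (It (-1 / 4 : F) (2 * i.1.val) (x, y)).2))
      (K4M.lg ((u6d i.2).ev (It (-1 / 4 : F) (2 * i.1.val) (x, y)).1
        (It (-1 / 4 : F) (2 * i.1.val) (x, y)).2)) ∉
      Submodule.span ℚ {z : K4M.HK F | ∃ (c : k) (u : K4M.FT F),
        z = K4M.hk (K4M.sy (algebraMap k F c)) u} :=
  (rz6d φ h htop).not_mem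

end D

end Pool.Agent.K4N
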