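import Pool.Agent.Lib_helper2.K4N.Q6
import Pool.Agent.Lib_helper24.TN.N5F

set_option autoImplicit false

/-!
The three classes for points of order six, in the sealed group.
-/

namespace Pool.Agent.K4N

open Pool.Agent.TN
open scoped TensorProduct

section

variable {k F : Type*} [Field k] [Field F] [Algebra k F] {x y : F}

/-- a sum over the translates of `(x, y)` by `0`, `2P`, `4P` -/
noncomputable def xiS {m : ℕ} (b x y : F) (f u : Fin m → Q2) : MK4.HK F :=
  ∑ i : Fin 3 × Fin m, MK4.hk (MK4.sy ((f i.2).ev (It b (2 * i.1.val) (x, y)).1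
      (It b (2 * i.1.val) (x, y)).2))
    (MK4.lg ((u i.2).ev (It b (2 * i.1.val) (x, y)).1 (It b (2 * i.1.val) (x, y)).2))

theorem rz6p1 [CharZero k] (φ : k →+* ℝ) (h : Gen (2 : k) 1 x y)
    (htop : IntermediateField.adjoin k {x, y} = ⊤) :
    RZ φ x y circ6a.X circ6a.Y (xiS (2 : F) x y f6a u6a) := rz6a φ h htop

/-- **`t = 1`.** -/
theorem nv6p1 [CharZero k] (φ : k →+* ℝ) (h : Gen (2 : k) 1 x y)
    (htop : IntermediateField.adjoin k {x, y} = ⊤) :
    xiS (2 : F) x y f6a u6a ∉ TN.KC k F := fun hm => nv6a φ h htop (mem_span_of_KC hm)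

theorem rz6m2 [CharZero k] (φ : k →+* ℝ) (h : Gen (2 : k) (-2) x y)
    (htop : IntermediateField.adjoin k {x, y} = ⊤) :
    RZ φ x y circ6b.X circ6b.Y (xiS (2 : F) x y f6b u6b) := rz6b φ h htop

/-- **`t = -2`.** -/
theorem nv6m2 [CharZero k] (φ : k →+* ℝ) (h : Gen (2 : k) (-2) x y)
    (htop : IntermediateField.adjoin k {x, y} = ⊤) :
    xiS (2 : F) x y f6b u6b ∉ TN.KC k F := fun hm => nv6b φ h htop (mem_span_of_KC hm)

theorem rz6mh [CharZero k] (φ : k →+* ℝ) (h : Gen (-1 / 4 : k) (-1 / 2) x y)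
    (htop : IntermediateField.adjoin k {x, y} = ⊤) :
    RZ φ x y circ6d.X circ6d.Y (xiS (-1 / 4 : F) x y f6d u6d) := rz6d φ h htop

/-- **`t = -1/2`.** -/
theorem nv6mh [CharZero k] (φ : k →+* ℝ) (h : Gen (-1 / 4 : k) (-1 / 2) x y)
    (htop : IntermediateField.adjoin k {x, y} = ⊤) :
    xiS (-1 / 4 : F) x y f6d u6d ∉ TN.KC k F := fun hm => nv6d φ h htop (mem_span_of_KC hm)

end

end Pool.Agent.K4N
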