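import Pool.Agent.Lib_helper2.K4N.Q6F
import Pool.Agent.Lib_helper54.FAM.Xi6

set_option autoImplicit false

/-!
The three classes for points of order six.
-/

namespace Pool.Agent.K4N

open Pool.Agent.TN Pool.Agent.FK4
open scoped TensorProduct

section

variable {k F : Type*} [Field k] [Field F] [Algebra k F] {x y : F}

lemma xiS_eq {m : ℕ} (b x y : F) (f u : Fin m → Q2) (t : F → F → MK4.HK F)
    (h : ∀ p q : F, t p q = -∑ i, MK4.hk (MK4.sy ((f i).ev p q)) (MK4.lg ((u i).ev p q))) :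
    sum6 b t x y = -xiS b x y f u := by
  have e : xiS b x y f u = ∑ j : Fin 3, ∑ i : Fin m,
      MK4.hk (MK4.sy ((f i).ev (It b (2 * j.val) (x, y)).1 (It b (2 * j.val) (x, y)).2))
      (MK4.lg ((u i).ev (It b (2 * j.val) (x, y)).1 (It b (2 * j.val) (x, y)).2)) :=
    Fintype.sum_prod_type _
  rw [e, Fin.sum_univ_three]
  have h0 := h (It b 0 (x, y)).1 (It b 0 (x, y)).2
  have h1 := h (It b 2 (x, y)).1 (It b 2 (x, y)).2
  have h2 := h (It b 4 (x, y)).1 (It b 4 (x, y)).2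
  have e0 : sum6 b t x y = t (It b 0 (x, y)).1 (It b 0 (x, y)).2 +
      t (It b 2 (x, y)).1 (It b 2 (x, y)).2 + t (It b 4 (x, y)).1 (It b 4 (x, y)).2 := rfl
  rw [e0, h0, h1, h2, neg_add, neg_add]
  rfl

theorem rz6ax [CharZero k] (φ : k →+* ℝ) (h : Gen (2 : k) 1 x y)
    (htop : IntermediateField.adjoin k {x, y} = ⊤) :
    RZ φ x y circ6a.X circ6a.Y (xi6a x y) := by
  have : CharZero F := charZero_of_injective_algebraMap (algebraMap k F).injective
  have e : xi6a x y = -xiS 2 x y f6a u6a := by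
    refine xiS_eq 2 x y f6a u6a term6a fun p q => ?_
    rw [Fin.sum_univ_three]
    show term6a p q = -(MK4.hk (MK4.sy (p / ((2 : ℚ) : F))) (MK4.lg ((((2 : ℚ) : F) - q) / q)) +
      MK4.hk (MK4.sy p) (MK4.lg (((((2 : ℚ) : F) - q) * (q - p)) / ((p + q - ((2 : ℚ) : F)) * q))) +
      MK4.hk (MK4.sy ((p + q - ((2 : ℚ) : F)) / (q - p)))
        (MK4.lg ((((4 : ℚ) : F) * ((p - ((1 : ℚ) : F)) * (p - ((1 : ℚ) : F)))) /
          (p - ((2 : ℚ) : F)))))
    push_cast
    unfold term6a psi6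
    have e1 : q / (2 - q) = ((2 - q) / q)⁻¹ := by rw [inv_div]
    have e2 : -((p + q - 2) / (q - 1 * p)) * q / (2 - q) =
        -(((2 - q) * (q - p)) / ((p + q - 2) * q))⁻¹ := by
      rw [inv_div, one_mul]
      simp only [div_eq_mul_inv, mul_inv]
      ring
    have e3 : (p - 2) / (4 * (p - 1) ^ 2) = ((4 * ((p - 1) * (p - 1))) / (p - 2))⁻¹ := by
      rw [inv_div, pow_two]
    rw [e1, e2, e3, TN.lgneg, TN.lginv, TN.lginv, TN.lginv, TN.hk_neg_right, TN.hk_neg_right,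
      TN.hk_neg_right, one_mul, neg_add, neg_add]
  exact (rz6p1 φ h htop).of_neg e

/-- **The regulator of the class is not zero.** -/
theorem rz_xi6a [CharZero k] (φ : k →+* ℝ) (h : Gen (2 : k) 1 x y)
    (htop : IntermediateField.adjoin k {x, y} = ⊤) : FK4.RegNe φ (xi6a x y) := by
  have h' : Gen ((2 : ℚ) : k) ((1 : ℚ) : k) x y := by
    push_cast
    exact h
  exact (rz6ax φ h htop).regNe (Xp_tendsto _) h' htop

theorem nv_xi6a [CharZero k] (φ : k →+* ℝ) (h : Gen (2 : k) 1 x y)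
    (htop : IntermediateField.adjoin k {x, y} = ⊤) : xi6a x y ∉ TN.KC k F :=
  fun hm => (rz6ax φ h htop).not_mem (mem_span_of_KC hm)

theorem rz6bx [CharZero k] (φ : k →+* ℝ) (h : Gen (2 : k) (-2) x y)
    (htop : IntermediateField.adjoin k {x, y} = ⊤) :
    RZ φ x y circ6b.X circ6b.Y (xi6b x y) := by
  have : CharZero F := charZero_of_injective_algebraMap (algebraMap k F).injective
  have e : xi6b x y = -xiS 2 x y f6b u6b := by
    refine xiS_eq 2 x y f6b u6b term6b fun p q => ?_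
    rw [Fin.sum_univ_three]
    show term6b p q = -(MK4.hk (MK4.sy (p / ((2 : ℚ) : F)))
        (MK4.lg ((p + q - ((2 : ℚ) : F)) / (q + ((2 : ℚ) : F) * p))) +
      MK4.hk (MK4.sy (p / ((-2 : ℚ) : F)))
        (MK4.lg ((q + ((2 : ℚ) : F) * p) / (p + q - ((2 : ℚ) : F)))) +
      MK4.hk (MK4.sy ((p + q - ((2 : ℚ) : F)) / (q + ((2 : ℚ) : F) * p)))
        (MK4.lg ((p - ((2 : ℚ) : F)) / (p * p))))
    push_cast
    unfold term6b psi6
    have e0 : q - -2 * p = q + 2 * p := by ring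
    have e1 : (p + q - 2) / (q + 2 * p) = ((q + 2 * p) / (p + q - 2))⁻¹ := by rw [inv_div]
    have e2 : p ^ 2 / (p - 2) = ((p - 2) / (p * p))⁻¹ := by rw [inv_div, pow_two]
    have e3 : p / (-2 : F) = -p / 2 := by rw [div_neg, neg_div]
    have e4 : MK4.lg ((q + 2 * p) / (p + q - 2)) = -MK4.lg ((p + q - 2) / (q + 2 * p)) := by
      rw [← TN.lginv, inv_div]
    rw [e0, e2, e3, TN.lginv, TN.lginv, e4, TN.hk_neg_right, TN.hk_neg_right, TN.hk_neg_right]
    abel
  exact (rz6m2 φ h htop).of_neg e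

/-- **The regulator of the class is not zero.** -/
theorem rz_xi6b [CharZero k] (φ : k →+* ℝ) (h : Gen (2 : k) (-2) x y)
    (htop : IntermediateField.adjoin k {x, y} = ⊤) : FK4.RegNe φ (xi6b x y) := by
  have h' : Gen ((2 : ℚ) : k) ((-2 : ℚ) : k) x y := by
    push_cast
    exact h
  exact (rz6bx φ h htop).regNe (Xp_tendsto _) h' htop

theorem nv_xi6b [CharZero k] (φ : k →+* ℝ) (h : Gen (2 : k) (-2) x y)
    (htop : IntermediateField.adjoin k {x, y} = ⊤) : xi6b x y ∉ TN.KC k F :=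
  fun hm => (rz6bx φ h htop).not_mem (mem_span_of_KC hm)

theorem rz6cx [CharZero k] (φ : k →+* ℝ) (h : Gen (-1 / 4 : k) (-1 / 2) x y)
    (htop : IntermediateField.adjoin k {x, y} = ⊤) :
    RZ φ x y circ6d.X circ6d.Y (xi6c x y) := by
  have : CharZero F := charZero_of_injective_algebraMap (algebraMap k F).injective
  have e : xi6c x y = -xiS (-1 / 4) x y f6d u6d := by
    refine xiS_eq (-1 / 4) x y f6d u6d term6c fun p q => ?_
    rw [Fin.sum_univ_one]
    show term6c p q = -(MK4.hk (MK4.sy ((p + q + ((1 / 4 : ℚ) : F)) / (q + ((1 / 2 : ℚ) : F) * p)))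
        (MK4.lg ((((4 : ℚ) : F) * ((p + ((1 / 4 : ℚ) : F)) * (p + ((1 / 2 : ℚ) : F)))) / p)))
    push_cast
    unfold term6c psi6
    have e0 : q - -1 / 2 * p = q + 1 / 2 * p := by ring
    have e0' : p + q - -1 / 4 = p + q + 1 / 4 := by ring
    have e1 : p / (4 * (p + 1 / 4) * (p + 1 / 2)) =
        ((4 * ((p + 1 / 4) * (p + 1 / 2))) / p)⁻¹ := by rw [inv_div, mul_assoc]
    rw [e0, e0', e1, TN.lginv, TN.hk_neg_right]
  exact (rz6mh φ h htop).of_neg e

/-- **The regulator of the class is not zero.** -/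
theorem rz_xi6c [CharZero k] (φ : k →+* ℝ) (h : Gen (-1 / 4 : k) (-1 / 2) x y)
    (htop : IntermediateField.adjoin k {x, y} = ⊤) : FK4.RegNe φ (xi6c x y) := by
  have h' : Gen ((-1 / 4 : ℚ) : k) ((-1 / 2 : ℚ) : k) x y := by
    push_cast
    exact h
  exact (rz6cx φ h htop).regNe (Xp_tendsto _) h' htop

theorem nv_xi6c [CharZero k] (φ : k →+* ℝ) (h : Gen (-1 / 4 : k) (-1 / 2) x y)
    (htop : IntermediateField.adjoin k {x, y} = ⊤) : xi6c x y ∉ TN.KC k F :=
  fun hm => (rz6cx φ h htop).not_mem (mem_span_of_KC hm)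

end

end Pool.Agent.K4N
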