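import Pool.Agent.Lib_helper2.K4N.Q6F

set_option autoImplicit false
set_option linter.unusedSimpArgs false

/-!
The nonvanishing of the class for points of order seven at `t = 2` (`b = 4`, `c = 2`).
-/

namespace Pool.Agent.K4N

open Filter Topology Pool.Agent.TN
open scoped TensorProduct

/-- a real root of `4x³ - 15x² + 8x + 16` -/
lemma exists_root7 : ∃ x0 : ℝ, 4 * x0 ^ 3 - 15 * x0 ^ 2 + 8 * x0 + 16 = 0 ∧ x0 < -7 / 10 ∧
    -3 / 4 ≤ x0 := by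
  have hc : ContinuousOn (fun x : ℝ => 4 * x ^ 3 - 15 * x ^ 2 + 8 * x + 16)
      (Set.Icc (-3 / 4) (-7 / 10)) := by
    fun_prop
  have h := intermediate_value_Icc (by norm_num : (-3 / 4 : ℝ) ≤ -7 / 10) hc
  have h0 : (0 : ℝ) ∈ Set.Icc ((fun x : ℝ => 4 * x ^ 3 - 15 * x ^ 2 + 8 * x + 16) (-3 / 4))
      ((fun x : ℝ => 4 * x ^ 3 - 15 * x ^ 2 + 8 * x + 16) (-7 / 10)) := by
    constructor <;> norm_num
  obtain ⟨x0, hx0, hx1⟩ := h h0
  refine ⟨x0, hx1, lt_of_le_of_ne hx0.2 ?_, hx0.1⟩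
  rintro rfl
  norm_num at hx1

/-- the circle -/
noncomputable def circ7 : Circ ((4 : ℚ) : ℝ) ((2 : ℚ) : ℝ) (fun _ _ => True) := by
  refine mkCirc _ _ exists_root7.choose (-15 + 4 * exists_root7.choose)
    (8 - 15 * exists_root7.choose + 4 * exists_root7.choose ^ 2) _ ?_ ?_ ?_
  · intro x
    have h := exists_root7.choose_spec.1
    push_cast
    linear_combination h
  · intro x hx
    obtain ⟨h1, h2, h3⟩ := exists_root7.choose_spec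
    generalize exists_root7.choose = r at *
    nlinarith [sq_nonneg (8 * x + (-15 + 4 * r))]
  · intro s _ V _
    trivial

/-- the functions -/
def f7 : Fin 5 → Q2 := ![.x / .c 4, .x / .c 4, .x / .c 4, .x / (.c 2 * (.x - .c 2)),
  .x / (.c 2 * (.x - .c 2))]

/-- the units -/
def u7 : Fin 5 → Q2 := ![(.x + .c 4 - .y) / .y,
  ((.x + .c 4 - .y) * (.y - .c 2 * .x)) / (.y * (.c 4 - .x - .y)),
  ((.c 4 - .y) * (.y - .c 2 * .x)) / ((.y - .x) * (.c 4 - .x - .y)),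
  (.y * (.c 4 - .x - .y)) / ((.x + .c 4 - .y) * (.y - .c 2 * .x)),
  (.y * (.c 4 - .x - .y)) / ((.x + .c 4 - .y) * (.y - .c 2 * .x))]

/-- the nonvanishing functions -/
def nz7 : List Q2 := [.y, .y - .c 2 * .x, .y - .x, .x + .c 4 - .y, .c 4 - .x - .y, .c 4 - .y,
  .x - .c 2, .x - .c 4, .c 2 * .y - .x - .c 4]

variable {k F : Type*} [Field k] [Field F] [Algebra k F] {x y : F}

lemma nz7_ne [CharZero k] [CharZero F] (h : Gen (((4 : ℚ)) : k) ((2 : ℚ) : k) x y) :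
    y ≠ 0 ∧ y - 2 * x ≠ 0 ∧ y - x ≠ 0 ∧ x + 4 - y ≠ 0 ∧ 4 - x - y ≠ 0 ∧ 4 - y ≠ 0 ∧
      x - 2 ≠ 0 ∧ x - 4 ≠ 0 ∧ 2 * y - x - 4 ≠ 0 := by
  have h1 := h.yab_ne (-2) 0
  have h2 := h.yab_ne (-1) 0
  have h3 := h.yab_ne (-1) (-4)
  have h4 := h.yab_ne 1 (-4)
  have h5 := h.yab_ne 0 (-4)
  have h6 := h.xc_ne 2
  have h7 := h.xc_ne 4
  have h8 := h.yab_ne (-1 / 2) (-2)
  simp only [map_neg, map_one, map_zero, map_ofNat, map_div₀] at h1 h2 h3 h4 h5 h6 h7 h8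
  refine ⟨h.y_ne, fun e => h1 ?_, fun e => h2 ?_, fun e => h3 ?_, fun e => h4 ?_, fun e => h5 ?_,
    h6, h7, fun e => h8 ?_⟩
  · linear_combination e
  · linear_combination e
  · linear_combination -e
  · linear_combination -e
  · linear_combination -e
  · linear_combination (1 / 2) * e

lemma real7 (U V : ℝ) (hnz : ∀ e ∈ nz7, e.ev U V ≠ 0) :
    V ≠ 0 ∧ V - 2 * U ≠ 0 ∧ V - U ≠ 0 ∧ U + 4 - V ≠ 0 ∧ 4 - U - V ≠ 0 ∧ 4 - V ≠ 0 ∧
      U - 2 ≠ 0 ∧ U - 4 ≠ 0 ∧ 2 * V - U - 4 ≠ 0 := by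
  simp only [nz7, List.mem_cons, List.not_mem_nil, or_false, forall_eq_or_imp, forall_eq,
    Q2.ev_x, Q2.ev_y, Q2.ev_c, Q2.ev_sub, Q2.ev_add, Q2.ev_mul] at hnz
  push_cast at hnz
  exact hnz

lemma range7 {U V : ℝ} (he : V ^ 2 + (1 - 2) * U * V - 4 * V = U ^ 3 - 4 * U ^ 2) : -1 < U := by
  have h : (2 * V - U - 4) ^ 2 = 4 * U ^ 3 - 15 * U ^ 2 + 8 * U + 16 := by
    linear_combination 4 * he
  by_contra hh
  push Not at hh
  have h2 := sq_nonneg (2 * V - U - 4)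
  rw [h] at h2
  nlinarith [sq_nonneg (U + 1), sq_nonneg U, mul_nonneg (sq_nonneg U) (by linarith : 0 ≤ -U - 1)]

/-- the sign of a logarithm -/
lemma psi_log_nonpos {ψ A B E : ℝ} (hE : 0 ≤ E) (h : A ^ 2 - B ^ 2 = -(ψ * E)) :
    ψ * Real.log (A / B) ≤ 0 := by
  rcases le_total 0 ψ with h1 | h1
  · refine mul_nonpos_of_nonneg_of_nonpos h1 (log_div_nonpos ?_)
    have := mul_nonneg h1 hE
    linarith
  · refine mul_nonpos_of_nonpos_of_nonneg h1 (log_div_nonneg ?_)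
    have := mul_nonpos_of_nonpos_of_nonneg h1 hE
    linarith

/-- the sign of a logarithm -/
lemma psi_log_pos {ψ A B E : ℝ} (hψ : ψ ≠ 0) (hA : A ≠ 0) (hB : B ≠ 0) (hE : 0 < E)
    (h : A ^ 2 - B ^ 2 = ψ * E) : 0 < ψ * Real.log (A / B) := by
  rcases lt_or_gt_of_ne hψ with h1 | h1
  · refine mul_pos_of_neg_of_neg h1 (log_div_neg hA ?_)
    have := mul_neg_of_neg_of_pos h1 hE
    linarith
  · refine mul_pos h1 (log_div_pos hB ?_)
    have := mul_pos h1 hE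
    linarith

lemma str7 {U V : ℝ} (he : V ^ 2 + (1 - 2) * U * V - 4 * V = U ^ 3 - 4 * U ^ 2) (hU : U ≠ 0)
    (a1 : V ≠ 0) (a2 : V - 2 * U ≠ 0) (a4 : U + 4 - V ≠ 0) (a5 : 4 - U - V ≠ 0) (a7 : U - 2 ≠ 0)
    (a9 : 2 * V - U - 4 ≠ 0) :
    ((2 * V + (1 - 2) * U - 4) * (2 * (U - 2)) -
      U * (0 * (U - 2) + 2 * ((2 * V + (1 - 2) * U - 4) - 0))) /
      (2 * (U - 2)) ^ 2 * Real.log ((V * (4 - U - V)) / ((U + 4 - V) * (V - 2 * U))) < 0 := by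
  have e : ((2 * V + (1 - 2) * U - 4) * (2 * (U - 2)) -
      U * (0 * (U - 2) + 2 * ((2 * V + (1 - 2) * U - 4) - 0))) /
      (2 * (U - 2)) ^ 2 = -((2 * V - U - 4) / (U - 2) ^ 2) := by
    field_simp
    ring
  rw [e]
  have h1 : 0 < (2 * V - U - 4) *
      Real.log ((V * (4 - U - V)) / ((U + 4 - V) * (V - 2 * U))) := by
    refine psi_log_pos (E := 4 * U ^ 2 * (U ^ 2 - 3 * U + 4)) a9 (mul_ne_zero a1 a5)
      (mul_ne_zero a4 a2) ?_ ?_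
    · have : 0 < U ^ 2 - 3 * U + 4 := by nlinarith [sq_nonneg (U - 3 / 2)]
      positivity
    · linear_combination (4 * U * (2 * V - U - 4)) * he
  have h2 : 0 < (U - 2) ^ 2 := by positivity
  have h3 : -((2 * V - U - 4) / (U - 2) ^ 2) *
      Real.log ((V * (4 - U - V)) / ((U + 4 - V) * (V - 2 * U))) =
      -(((2 * V - U - 4) * Real.log ((V * (4 - U - V)) / ((U + 4 - V) * (V - 2 * U)))) /
        (U - 2) ^ 2) := by ring
  rw [h3]
  exact neg_neg_of_pos (div_pos h1 h2)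

lemma non7 {U V : ℝ} (he : V ^ 2 + (1 - 2) * U * V - 4 * V = U ^ 3 - 4 * U ^ 2) :
    (2 * V - U - 4) * Real.log ((U + 4 - V) / V) ≤ 0 ∧
    (2 * V - U - 4) * Real.log (((U + 4 - V) * (V - 2 * U)) / (V * (4 - U - V))) ≤ 0 ∧
    (2 * V - U - 4) * Real.log (((4 - V) * (V - 2 * U)) / ((V - U) * (4 - U - V))) ≤ 0 := by
  have hr := range7 he
  refine ⟨?_, ?_, ?_⟩
  · refine psi_log_nonpos (E := U + 4) (by linarith) ?_
    ring
  · refine psi_log_nonpos (E := 4 * U ^ 2 * (U ^ 2 - 3 * U + 4)) ?_ ?_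
    · have : 0 < U ^ 2 - 3 * U + 4 := by nlinarith [sq_nonneg (U - 3 / 2)]
      positivity
    · linear_combination (-4 * U * (2 * V - U - 4)) * he
  · refine psi_log_nonpos (E := U ^ 2 * (2 * U ^ 2 - 9 * U + 12)) ?_ ?_
    · have : 0 < 2 * U ^ 2 - 9 * U + 12 := by nlinarith [sq_nonneg (U - 9 / 4)]
      positivity
    · linear_combination (-2 * U * (2 * V - U - 4)) * he

theorem rz7a [CharZero k] (φ : k →+* ℝ) (h : Gen (4 : k) 2 x y)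
    (htop : IntermediateField.adjoin k {x, y} = ⊤) : RZ φ x y circ7.X circ7.Y (
    ∑ i : Fin 7 × Fin 5, K4M.hk (K4M.sy ((f7 i.2).ev (It (4 : F) i.1.val (x, y)).1
        (It (4 : F) i.1.val (x, y)).2))
      (K4M.lg ((u7 i.2).ev (It (4 : F) i.1.val (x, y)).1
        (It (4 : F) i.1.val (x, y)).2))) := by
  have : CharZero F := charZero_of_injective_algebraMap (algebraMap k F).injective
  have e4k : ((4 : ℚ) : k) = 4 := by norm_num
  have e2k : ((2 : ℚ) : k) = 2 := by norm_num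
  have e4F : ((4 : ℚ) : F) = 4 := by norm_num
  have e2F : ((2 : ℚ) : F) = 2 := by norm_num
  have h' : Gen ((4 : ℚ) : k) ((2 : ℚ) : k) x y := by rw [e4k, e2k]; exact h
  have e2R : ((2 : ℚ) : ℝ) = 2 := by norm_num
  have e4R : ((4 : ℚ) : ℝ) = 4 := by norm_num
  have key := engR φ 4 2 (by norm_num) h' htop (fun _ _ _ => True) circ7
    (fun i : Fin 7 × Fin 5 => f7 i.2) (fun i => u7 i.2) (fun i => i.1.val) nz7 ?_ ?_ ?_ ?_ ?_
    (0, 3) ?_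
  · rw [e4F] at key
    exact key
  · intro x' y' hg
    simp only [nz7, List.mem_cons, List.not_mem_nil, or_false, forall_eq_or_imp, forall_eq,
      Q2.ev_x, Q2.ev_y, Q2.ev_c, Q2.ev_sub, Q2.ev_add, Q2.ev_mul]
    rw [e4F, e2F]
    exact nz7_ne hg
  · intro x' y' hg i
    obtain ⟨a1, a2, a3, a4, a5, a6, a7, a8, a9⟩ := nz7_ne hg
    have a0 := hg.x_ne
    have h2 : (2 : F) ≠ 0 := two_ne_zero
    have h4 : (4 : F) ≠ 0 := by norm_num
    have ff : x' / ((4 : ℚ) : F) ≠ 0 ∧ x' / ((4 : ℚ) : F) ≠ 1 := by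
      rw [e4F]
      refine ⟨div_ne_zero a0 h4, fun e => a8 ?_⟩
      rw [div_eq_one_iff_eq h4] at e
      rw [e, sub_self]
    have fg : x' / (((2 : ℚ) : F) * (x' - ((2 : ℚ) : F))) ≠ 0 ∧
        x' / (((2 : ℚ) : F) * (x' - ((2 : ℚ) : F))) ≠ 1 := by
      rw [e2F]
      refine ⟨div_ne_zero a0 (mul_ne_zero h2 a7), fun e => a8 ?_⟩
      rw [div_eq_one_iff_eq (mul_ne_zero h2 a7)] at e
      linear_combination -e
    have e1 : (y' * (((4 : ℚ) : F) - x' - y')) /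
        ((x' + ((4 : ℚ) : F) - y') * (y' - ((2 : ℚ) : F) * x')) ≠ 0 := by
      rw [e4F, e2F]
      exact div_ne_zero (mul_ne_zero a1 a5) (mul_ne_zero a4 a2)
    obtain ⟨i, m⟩ := i
    fin_cases m
    · refine ⟨ff.1, ff.2, ?_⟩
      show (x' + ((4 : ℚ) : F) - y') / y' ≠ 0
      rw [e4F]
      exact div_ne_zero a4 a1
    · refine ⟨ff.1, ff.2, ?_⟩
      show ((x' + ((4 : ℚ) : F) - y') * (y' - ((2 : ℚ) : F) * x')) /
        (y' * (((4 : ℚ) : F) - x' - y')) ≠ 0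
      rw [e4F, e2F]
      exact div_ne_zero (mul_ne_zero a4 a2) (mul_ne_zero a1 a5)
    · refine ⟨ff.1, ff.2, ?_⟩
      show ((((4 : ℚ) : F) - y') * (y' - ((2 : ℚ) : F) * x')) /
        ((y' - x') * (((4 : ℚ) : F) - x' - y')) ≠ 0
      rw [e4F, e2F]
      exact div_ne_zero (mul_ne_zero a6 a2) (mul_ne_zero a3 a5)
    · exact ⟨fg.1, fg.2, e1⟩
    · exact ⟨fg.1, fg.2, e1⟩
  · intro i U V hnz
    obtain ⟨a1, a2, a3, a4, a5, a6, a7, a8, a9⟩ := real7 U V hnz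
    have o1 : Q2.ok (.x / .c 4) U V := ⟨trivial, trivial, by
      show ((4 : ℚ) : ℝ) ≠ 0
      norm_num⟩
    have o2 : Q2.ok (.x / (.c 2 * (.x - .c 2))) U V := by
      refine ⟨trivial, ⟨trivial, trivial, trivial⟩, ?_⟩
      show ((2 : ℚ) : ℝ) * (U - ((2 : ℚ) : ℝ)) ≠ 0
      rw [e2R]
      exact mul_ne_zero (by norm_num) a7
    obtain ⟨i, m⟩ := i
    fin_cases m
    · exact o1
    · exact o1
    · exact o1
    · exact o2
    · exact o2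
  · intro n U V he hU hnz hC
    trivial
  · intro i U V he hU hnz hC
    obtain ⟨a1, a2, a3, a4, a5, a6, a7, a8, a9⟩ := real7 U V hnz
    rw [e4R, e2R] at he
    obtain ⟨n1, n2, n3⟩ := non7 he
    have s1 := str7 he hU a1 a2 a4 a5 a7 a9
    have d1 : ∀ L : ℝ, (2 * V - U - 4) * L ≤ 0 →
        ((2 * V + (1 - ((2 : ℚ) : ℝ)) * U - ((4 : ℚ) : ℝ)) * ((4 : ℚ) : ℝ) - U * 0) /
        ((4 : ℚ) : ℝ) ^ 2 * L ≤ 0 := by
      intro L hL
      rw [e4R, e2R]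
      have e : ((2 * V + (1 - 2) * U - 4) * 4 - U * 0) / 4 ^ 2 * L =
        ((2 * V - U - 4) * L) / 4 := by ring
      rw [e]
      linarith
    have d2 : ((2 * V + (1 - ((2 : ℚ) : ℝ)) * U - ((4 : ℚ) : ℝ)) *
        (((2 : ℚ) : ℝ) * (U - ((2 : ℚ) : ℝ))) -
        U * (0 * (U - ((2 : ℚ) : ℝ)) + ((2 : ℚ) : ℝ) *
          ((2 * V + (1 - ((2 : ℚ) : ℝ)) * U - ((4 : ℚ) : ℝ)) - 0))) /
        (((2 : ℚ) : ℝ) * (U - ((2 : ℚ) : ℝ))) ^ 2 *
        Real.log ((V * (((4 : ℚ) : ℝ) - U - V)) /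
          ((U + ((4 : ℚ) : ℝ) - V) * (V - ((2 : ℚ) : ℝ) * U))) ≤ 0 := by
      rw [e4R, e2R]
      exact s1.le
    obtain ⟨i, m⟩ := i
    fin_cases m
    · refine d1 (Real.log ((U + ((4 : ℚ) : ℝ) - V) / V)) ?_
      rw [e4R]
      exact n1
    · refine d1 (Real.log (((U + ((4 : ℚ) : ℝ) - V) * (V - ((2 : ℚ) : ℝ) * U)) /
        (V * (((4 : ℚ) : ℝ) - U - V)))) ?_
      rw [e4R, e2R]
      exact n2
    · refine d1 (Real.log (((((4 : ℚ) : ℝ) - V) * (V - ((2 : ℚ) : ℝ) * U)) /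
        ((V - U) * (((4 : ℚ) : ℝ) - U - V)))) ?_
      rw [e4R, e2R]
      exact n3
    · exact d2
    · exact d2
  · intro U V he hU hnz hC
    obtain ⟨a1, a2, a3, a4, a5, a6, a7, a8, a9⟩ := real7 U V hnz
    rw [e4R, e2R] at he
    have s1 := str7 he hU a1 a2 a4 a5 a7 a9
    show ((2 * V + (1 - ((2 : ℚ) : ℝ)) * U - ((4 : ℚ) : ℝ)) *
        (((2 : ℚ) : ℝ) * (U - ((2 : ℚ) : ℝ))) -
        U * (0 * (U - ((2 : ℚ) : ℝ)) + ((2 : ℚ) : ℝ) *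
          ((2 * V + (1 - ((2 : ℚ) : ℝ)) * U - ((4 : ℚ) : ℝ)) - 0))) /
        (((2 : ℚ) : ℝ) * (U - ((2 : ℚ) : ℝ))) ^ 2 *
        Real.log ((V * (((4 : ℚ) : ℝ) - U - V)) /
          ((U + ((4 : ℚ) : ℝ) - V) * (V - ((2 : ℚ) : ℝ) * U))) < 0
    rw [e4R, e2R]
    exact s1

theorem nv7a [CharZero k] (φ : k →+* ℝ) (h : Gen (4 : k) 2 x y)
    (htop : IntermediateField.adjoin k {x, y} = ⊤) :
    ∑ i : Fin 7 × Fin 5, K4M.hk (K4M.sy ((f7 i.2).ev (It (4 : F) i.1.val (x, y)).1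
        (It (4 : F) i.1.val (x, y)).2))
      (K4M.lg ((u7 i.2).ev (It (4 : F) i.1.val (x, y)).1
        (It (4 : F) i.1.val (x, y)).2)) ∉
      Submodule.span ℚ {z : K4M.HK F | ∃ (c : k) (u : K4M.FT F),
        z = K4M.hk (K4M.sy (algebraMap k F c)) u} :=
  (rz7a φ h htop).not_mem

end Pool.Agent.K4N
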