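import Pool.Agent.Lib_helper2.K4N.Q7

set_option autoImplicit false

/-!
The class for points of order seven at `t = 2` (`b = 4`, `c = 2`).
-/

namespace Pool.Agent.K4N

open Pool.Agent.TN
open scoped TensorProduct

section

variable {k F : Type*} [Field k] [Field F] [Algebra k F] {x y : F}

/-- the terms at a point -/
noncomputable def term7 (x y : F) : MK4.HK F :=
  MK4.hk (MK4.sy (x / 4)) (MK4.lg (x ^ 3 * (y - 2 * x) ^ 4 / (y ^ 4 * (y - x) ^ 2))) -
    (2 : ℚ) • MK4.hk (MK4.sy (x / (2 * (x - 2))))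
      (MK4.lg (x * (y - 2 * x) ^ 2 / (y ^ 2 * (x - 2))))

/-- the sum over the translates by the multiples of `P` -/
noncomputable def xi7 (x y : F) : MK4.HK F :=
  ∑ j : Fin 7, term7 (It (4 : F) j.val (x, y)).1 (It (4 : F) j.val (x, y)).2

lemma term7_eq [CharZero k] [CharZero F] (h : Gen ((4 : ℚ) : k) ((2 : ℚ) : k) x y) :
    term7 x y = ∑ m, MK4.hk (MK4.sy ((f7 m).ev x y)) (MK4.lg ((u7 m).ev x y)) := by
  obtain ⟨a1, a2, a3, a4, a5, a6, a7, a8, a9⟩ := nz7_ne h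
  have a0 := h.x_ne
  have he : y ^ 2 + (1 - 2) * x * y - 4 * y = x ^ 3 - 4 * x ^ 2 := by
    have := h.eq
    simp only [map_ratCast] at this
    push_cast at this
    exact this
  rw [Fin.sum_univ_five]
  show term7 x y = MK4.hk (MK4.sy (x / ((4 : ℚ) : F))) (MK4.lg ((x + ((4 : ℚ) : F) - y) / y)) +
    MK4.hk (MK4.sy (x / ((4 : ℚ) : F))) (MK4.lg (((x + ((4 : ℚ) : F) - y) *
      (y - ((2 : ℚ) : F) * x)) / (y * (((4 : ℚ) : F) - x - y)))) +
    MK4.hk (MK4.sy (x / ((4 : ℚ) : F))) (MK4.lg (((((4 : ℚ) : F) - y) *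
      (y - ((2 : ℚ) : F) * x)) / ((y - x) * (((4 : ℚ) : F) - x - y)))) +
    MK4.hk (MK4.sy (x / (((2 : ℚ) : F) * (x - ((2 : ℚ) : F)))))
      (MK4.lg ((y * (((4 : ℚ) : F) - x - y)) /
        ((x + ((4 : ℚ) : F) - y) * (y - ((2 : ℚ) : F) * x)))) +
    MK4.hk (MK4.sy (x / (((2 : ℚ) : F) * (x - ((2 : ℚ) : F)))))
      (MK4.lg ((y * (((4 : ℚ) : F) - x - y)) /
        ((x + ((4 : ℚ) : F) - y) * (y - ((2 : ℚ) : F) * x))))
  push_cast
  have l1 : MK4.lg (x + 4 - y) = (2 : ℚ) • MK4.lg x + MK4.lg (x - 4) - MK4.lg y := by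
    have e : x + 4 - y = -(x ^ 2 * (x - 4)) / y := by
      rw [eq_div_iff a1]; linear_combination -he
    rw [e, TN.lgdiv (neg_ne_zero.mpr (mul_ne_zero (pow_ne_zero 2 a0) a8)) a1, TN.lgneg,
      TN.lgmul (pow_ne_zero 2 a0) a8, TN.lgpow a0]
    push_cast
    rfl
  have l2 : MK4.lg (4 - x - y) = MK4.lg x + MK4.lg (x - 2) + MK4.lg (x - 4) -
      MK4.lg (y - 2 * x) := by
    have e : 4 - x - y = -(x * (x - 2) * (x - 4)) / (y - 2 * x) := by
      rw [eq_div_iff a2]; linear_combination -he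
    rw [e, TN.lgdiv (neg_ne_zero.mpr (mul_ne_zero (mul_ne_zero a0 a7) a8)) a2, TN.lgneg,
      TN.lgmul (mul_ne_zero a0 a7) a8, TN.lgmul a0 a7]
  have l3 : MK4.lg (4 - y) = MK4.lg x + (2 : ℚ) • MK4.lg (x - 2) - MK4.lg (y - x) := by
    have e : 4 - y = -(x * (x - 2) ^ 2) / (y - x) := by
      rw [eq_div_iff a3]; linear_combination -he
    rw [e, TN.lgdiv (neg_ne_zero.mpr (mul_ne_zero a0 (pow_ne_zero 2 a7))) a3, TN.lgneg,
      TN.lgmul a0 (pow_ne_zero 2 a7), TN.lgpow a7]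
    push_cast
    rfl
  unfold term7
  rw [TN.lgdiv (mul_ne_zero (pow_ne_zero 3 a0) (pow_ne_zero 4 a2))
      (mul_ne_zero (pow_ne_zero 4 a1) (pow_ne_zero 2 a3)),
    TN.lgmul (pow_ne_zero 3 a0) (pow_ne_zero 4 a2), TN.lgmul (pow_ne_zero 4 a1) (pow_ne_zero 2 a3),
    TN.lgpow a0, TN.lgpow a2, TN.lgpow a1, TN.lgpow a3,
    TN.lgdiv (mul_ne_zero a0 (pow_ne_zero 2 a2)) (mul_ne_zero (pow_ne_zero 2 a1) a7),
    TN.lgmul a0 (pow_ne_zero 2 a2), TN.lgmul (pow_ne_zero 2 a1) a7, TN.lgpow a2, TN.lgpow a1,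
    TN.lgdiv a4 a1, TN.lgdiv (mul_ne_zero a4 a2) (mul_ne_zero a1 a5), TN.lgmul a4 a2,
    TN.lgmul a1 a5, TN.lgdiv (mul_ne_zero a6 a2) (mul_ne_zero a3 a5), TN.lgmul a6 a2,
    TN.lgmul a3 a5, TN.lgdiv (mul_ne_zero a1 a5) (mul_ne_zero a4 a2), TN.lgmul a4 a2,
    TN.lgmul a1 a5, l1, l2, l3]
  generalize MK4.lg x = A
  generalize MK4.lg y = B
  generalize MK4.lg (x - 2) = C
  generalize MK4.lg (x - 4) = D
  generalize MK4.lg (y - 2 * x) = E
  generalize MK4.lg (y - x) = G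
  push_cast
  simp only [sub_eq_add_neg, TN.hk_add_right, TN.hk_neg_right, TN.hk_smul_right, neg_add, neg_neg]
  module

/-- **The regulator of the class is not zero.** -/
theorem rz7x [CharZero k] (φ : k →+* ℝ) (h : Gen (4 : k) 2 x y)
    (htop : IntermediateField.adjoin k {x, y} = ⊤) :
    RZ φ x y circ7.X circ7.Y (xi7 x y) := by
  have : CharZero F := charZero_of_injective_algebraMap (algebraMap k F).injective
  have key := rz7a φ h htop
  have h4 : (4 : k) ≠ 0 := by norm_num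
  have e4k : ((4 : ℚ) : k) = 4 := by norm_num
  have e2k : ((2 : ℚ) : k) = 2 := by norm_num
  have hg : ∀ n, Gen ((4 : ℚ) : k) ((2 : ℚ) : k) (It (4 : F) n (x, y)).1
      (It (4 : F) n (x, y)).2 := by
    intro n
    have := gen_It h4 h n
    rw [map_ofNat] at this
    rw [e4k, e2k]
    exact this
  have e : xi7 x y = ∑ j : Fin 7, ∑ m : Fin 5,
      MK4.hk (MK4.sy ((f7 m).ev (It (4 : F) j.val (x, y)).1 (It (4 : F) j.val (x, y)).2))
      (MK4.lg ((u7 m).ev (It (4 : F) j.val (x, y)).1 (It (4 : F) j.val (x, y)).2)) := by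
    unfold xi7
    exact Finset.sum_congr rfl fun j _ => term7_eq (hg _)
  have e2 := Fintype.sum_prod_type (fun i : Fin 7 × Fin 5 =>
    (MK4.hk (MK4.sy ((f7 i.2).ev (It (4 : F) i.1.val (x, y)).1 (It (4 : F) i.1.val (x, y)).2))
      (MK4.lg ((u7 i.2).ev (It (4 : F) i.1.val (x, y)).1 (It (4 : F) i.1.val (x, y)).2)) :
      MK4.HK F))
  rw [← e2] at e
  exact key.of_eq e

/-- **The regulator of the class is not zero.** -/
theorem rz_xi7 [CharZero k] (φ : k →+* ℝ) (h : Gen (4 : k) 2 x y)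
    (htop : IntermediateField.adjoin k {x, y} = ⊤) : FK4.RegNe φ (xi7 x y) := by
  have h' : Gen ((4 : ℚ) : k) ((2 : ℚ) : k) x y := by
    push_cast
    exact h
  exact (rz7x φ h htop).regNe (Xp_tendsto _) h' htop

/-- **The class is not a combination of symbols of constants.** -/
theorem nv_xi7 [CharZero k] (φ : k →+* ℝ) (h : Gen (4 : k) 2 x y)
    (htop : IntermediateField.adjoin k {x, y} = ⊤) : xi7 x y ∉ TN.KC k F :=
  fun hm => (rz7x φ h htop).not_mem (mem_span_of_KC hm)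

end

end Pool.Agent.K4N
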