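import Pool.Agent.Lib_helper2.K4N.Q7
import Pool.Agent.Lib_helper2.K4N.Eng2

set_option autoImplicit false
set_option linter.unusedSimpArgs false

/-!
The nonvanishing of the class for points of order eight at `d = 2` (`b = 3`, `c = 3 / 2`).
-/

namespace Pool.Agent.K4N

open Filter Topology Pool.Agent.TN
open scoped TensorProduct

section real

/-- the component: even multiples on the identity component, odd ones on the oval -/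
def C8 (n : ℕ) (U _V : ℝ) : Prop := (Even n → 2 ≤ U) ∧ (¬ Even n → U < 2)

/-- the circle -/
noncomputable def circ8 : Circ ((3 : ℚ) : ℝ) ((3 / 2 : ℚ) : ℝ) (C8 0) := by
  refine mkCirc _ _ 2 (-15 / 4) (-9 / 2) _ ?_ ?_ ?_
  · intro x
    push_cast
    ring
  · intro x hx
    nlinarith [mul_nonneg (sub_nonneg.mpr hx) (sub_nonneg.mpr hx)]
  · intro s _ V _
    refine ⟨fun _ => ?_, fun h => absurd (Even.zero) h⟩
    have := sq_nonneg s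
    linarith

variable {U V : ℝ}

lemma psi8 (he : V ^ 2 - 1 / 2 * U * V - 3 * V = U ^ 3 - 3 * U ^ 2) :
    (2 * V - 1 / 2 * U - 3) ^ 2 = (U - 2) * (4 * U ^ 2 - 15 / 4 * U - 9 / 2) := by
  linear_combination 4 * he

/-- the oval -/
lemma oval8 (he : V ^ 2 - 1 / 2 * U * V - 3 * V = U ^ 3 - 3 * U ^ 2) (h : U < 2) :
    -7 / 10 ≤ U ∧ U ≤ 5 / 3 ∧ 16 * U ^ 2 - 15 * U - 18 ≤ 0 := by
  have h1 := psi8 he
  have h2 := sq_nonneg (2 * V - 1 / 2 * U - 3)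
  rw [h1] at h2
  have h3 : 16 * U ^ 2 - 15 * U - 18 ≤ 0 := by
    by_contra hh
    push Not at hh
    have : 0 < (2 - U) * (4 * U ^ 2 - 15 / 4 * U - 9 / 2) := mul_pos (by linarith) (by linarith)
    linarith
  refine ⟨?_, ?_, h3⟩
  · by_contra hh
    push Not at hh
    nlinarith
  · by_contra hh
    push Not at hh
    nlinarith

lemma comp8 {n : ℕ} (he : V ^ 2 - 1 / 2 * U * V - 3 * V = U ^ 3 - 3 * U ^ 2) (hU : U ≠ 0)
    (h : C8 n U V) (V' : ℝ) : C8 (n + 1) (3 * V / U ^ 2) V' := by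
  have hU2 : 0 < U ^ 2 := by positivity
  have key : (V - 2 / 3 * U ^ 2) * (1 / 2 * U + 3 - V - 2 / 3 * U ^ 2) =
      U ^ 2 * (2 / 3 * U - 1) ^ 2 := by
    linear_combination (-1) * he
  refine ⟨fun hn => ?_, fun hn => ?_⟩
  · -- U < 2
    have hlt : U < 2 := h.2 fun h' => by
      rw [Nat.even_add_one] at hn
      exact hn h'
    obtain ⟨-, -, h3⟩ := oval8 he hlt
    rw [le_div_iff₀ hU2]
    by_contra hh
    push Not at hh
    have h1 : 0 ≤ U ^ 2 * (2 / 3 * U - 1) ^ 2 := by positivity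
    have h2 : V - 2 / 3 * U ^ 2 < 0 := by linarith
    have h4 : 1 / 2 * U + 3 - V - 2 / 3 * U ^ 2 ≤ 0 := by
      by_contra hc
      push Not at hc
      have := mul_neg_of_neg_of_pos h2 hc
      linarith
    nlinarith
  · have hge : 2 ≤ U := h.1 (by
      by_contra h'
      exact hn (Nat.even_add_one.mpr h'))
    rw [div_lt_iff₀ hU2]
    by_contra hh
    push Not at hh
    have h1 : 0 < U ^ 2 * (2 / 3 * U - 1) ^ 2 := by
      have : 0 < 2 / 3 * U - 1 := by linarith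
      positivity
    have h2 : 0 ≤ V - 2 / 3 * U ^ 2 := by linarith
    have h4 : 0 ≤ 1 / 2 * U + 3 - V - 2 / 3 * U ^ 2 := by
      by_contra hc
      push Not at hc
      have := mul_nonpos_of_nonneg_of_nonpos h2 hc.le
      linarith
    nlinarith

lemma G4_neg (h1 : -7 / 10 ≤ U) (h2 : U ≤ 5 / 3) :
    U ^ 4 + 15 / 4 * U ^ 3 - 423 / 16 * U ^ 2 + 81 / 2 * U - 81 / 4 < 0 := by
  rcases le_or_gt U 0 with h | h
  · have e : U ^ 4 + 15 / 4 * U ^ 3 - 423 / 16 * U ^ 2 + 81 / 2 * U - 81 / 4 =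
        -(81 / 4) - 81 / 2 * (-U) - U ^ 2 * (423 / 16 - U ^ 2) - 15 / 4 * (-U) ^ 3 := by ring
    have a1 : 0 ≤ -U := by linarith
    have a2 : 0 ≤ 423 / 16 - U ^ 2 := by nlinarith
    have a3 : 0 ≤ U ^ 2 * (423 / 16 - U ^ 2) := mul_nonneg (sq_nonneg U) a2
    have a4 : 0 ≤ (-U) ^ 3 := by positivity
    rw [e]
    linarith
  · rcases le_or_gt U 1 with h' | h'
    · have e : U ^ 4 + 15 / 4 * U ^ 3 - 423 / 16 * U ^ 2 + 81 / 2 * U - 81 / 4 =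
          -(81 / 4 * (1 - U) ^ 4 + 81 / 2 * U * (1 - U) ^ 3 + 423 / 16 * U ^ 2 * (1 - U) ^ 2 +
            69 / 8 * U ^ 3 * (1 - U) + 23 / 16 * U ^ 4) := by ring
      have a1 : 0 ≤ 1 - U := by linarith
      rw [e]
      have : 0 < 81 / 4 * (1 - U) ^ 4 + 81 / 2 * U * (1 - U) ^ 3 +
          423 / 16 * U ^ 2 * (1 - U) ^ 2 + 69 / 8 * U ^ 3 * (1 - U) + 23 / 16 * U ^ 4 := by
        positivity
      linarith
    · have e : (2 / 3) ^ 4 * (U ^ 4 + 15 / 4 * U ^ 3 - 423 / 16 * U ^ 2 + 81 / 2 * U - 81 / 4) =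
          -(23 / 16 * (5 / 3 - U) ^ 4 + 23 / 6 * (U - 1) * (5 / 3 - U) ^ 3 +
            167 / 24 * (U - 1) ^ 2 * (5 / 3 - U) ^ 2 +
            317 / 54 * (U - 1) ^ 3 * (5 / 3 - U) + 1439 / 1296 * (U - 1) ^ 4) := by ring
      have a1 : 0 ≤ 5 / 3 - U := by linarith
      have a2 : 0 < U - 1 := by linarith
      have : 0 < 23 / 16 * (5 / 3 - U) ^ 4 + 23 / 6 * (U - 1) * (5 / 3 - U) ^ 3 +
            167 / 24 * (U - 1) ^ 2 * (5 / 3 - U) ^ 2 +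
            317 / 54 * (U - 1) ^ 3 * (5 / 3 - U) + 1439 / 1296 * (U - 1) ^ 4 := by
        positivity
      have h3 : (2 / 3 : ℝ) ^ 4 * (U ^ 4 + 15 / 4 * U ^ 3 - 423 / 16 * U ^ 2 + 81 / 2 * U -
        81 / 4) < 0 := by
        rw [e]; linarith
      by_contra hc
      push Not at hc
      have : 0 ≤ (2 / 3 : ℝ) ^ 4 * (U ^ 4 + 15 / 4 * U ^ 3 - 423 / 16 * U ^ 2 + 81 / 2 * U -
        81 / 4) := mul_nonneg (by norm_num) hc
      linarith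

lemma H4_pos (h2 : U ≤ 5 / 3) :
    0 < 21 / 2 * U ^ 4 - 279 / 8 * U ^ 3 + 1377 / 32 * U ^ 2 - 81 / 2 * U + 243 / 8 := by
  rcases le_or_gt U 0 with h | h
  · have e : 21 / 2 * U ^ 4 - 279 / 8 * U ^ 3 + 1377 / 32 * U ^ 2 - 81 / 2 * U + 243 / 8 =
        21 / 2 * U ^ 4 + 279 / 8 * (-U) ^ 3 + 1377 / 32 * U ^ 2 + 81 / 2 * (-U) + 243 / 8 := by
      ring
    have a1 : 0 ≤ -U := by linarith
    rw [e]
    positivity
  · rcases le_or_gt U 1 with h' | h'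
    · have e : 21 / 2 * U ^ 4 - 279 / 8 * U ^ 3 + 1377 / 32 * U ^ 2 - 81 / 2 * U + 243 / 8 =
          243 / 8 * (1 - U) ^ 4 + 81 * U * (1 - U) ^ 3 + 3321 / 32 * U ^ 2 * (1 - U) ^ 2 +
            819 / 16 * U ^ 3 * (1 - U) + 273 / 32 * U ^ 4 := by ring
      have a1 : 0 ≤ 1 - U := by linarith
      rw [e]
      positivity
    · have e : (2 / 3) ^ 4 * (21 / 2 * U ^ 4 - 279 / 8 * U ^ 3 + 1377 / 32 * U ^ 2 -
            81 / 2 * U + 243 / 8) =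
          273 / 32 * (5 / 3 - U) ^ 4 + 91 / 4 * (U - 1) * (5 / 3 - U) ^ 3 +
            283 / 16 * (U - 1) ^ 2 * (5 / 3 - U) ^ 2 +
            121 / 36 * (U - 1) ^ 3 * (5 / 3 - U) + 1699 / 864 * (U - 1) ^ 4 := by ring
      have a1 : 0 ≤ 5 / 3 - U := by linarith
      have a2 : 0 < U - 1 := by linarith
      have h3 : 0 < (2 / 3 : ℝ) ^ 4 * (21 / 2 * U ^ 4 - 279 / 8 * U ^ 3 + 1377 / 32 * U ^ 2 -
            81 / 2 * U + 243 / 8) := by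
        rw [e]; positivity
      exact pos_of_mul_pos_right h3 (by norm_num)

lemma G3_pos (h1 : -7 / 10 ≤ U) (h2 : U ≤ 5 / 3) : 0 < U ^ 3 - 13 / 4 * U ^ 2 + 9 := by
  have e : (71 / 30) ^ 3 * (U ^ 3 - 13 / 4 * U ^ 2 + 9) =
      14129 / 2000 * (5 / 3 - U) ^ 3 + 42529 / 1200 * (U + 7 / 10) * (5 / 3 - U) ^ 2 +
        355 / 18 * (U + 7 / 10) ^ 2 * (5 / 3 - U) + 497 / 108 * (U + 7 / 10) ^ 3 := by ring
  have a1 : 0 ≤ 5 / 3 - U := by linarith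
  have a2 : 0 ≤ U + 7 / 10 := by linarith
  rcases eq_or_lt_of_le a1 with h | h
  · have : U = 5 / 3 := by linarith
    rw [this]; norm_num
  · have h3 : 0 < (71 / 30 : ℝ) ^ 3 * (U ^ 3 - 13 / 4 * U ^ 2 + 9) := by
      rw [e]; positivity
    exact pos_of_mul_pos_right h3 (by norm_num)

lemma H3_neg (h1 : -7 / 10 ≤ U) (h2 : U ≤ 5 / 3) :
    -(1 / 2) * U ^ 3 + 75 / 8 * U ^ 2 - 9 * U - 27 / 2 < 0 := by
  have e : (71 / 30) ^ 3 * (-(1 / 2) * U ^ 3 + 75 / 8 * U ^ 2 - 9 * U - 27 / 2) =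
      -(9739 / 4000 * (5 / 3 - U) ^ 3 + 1965 / 32 * (U + 7 / 10) * (5 / 3 - U) ^ 2 +
        3427 / 60 * (U + 7 / 10) ^ 2 * (5 / 3 - U) + 1031 / 216 * (U + 7 / 10) ^ 3) := by ring
  have a1 : 0 ≤ 5 / 3 - U := by linarith
  have a2 : 0 ≤ U + 7 / 10 := by linarith
  rcases eq_or_lt_of_le a1 with h | h
  · have : U = 5 / 3 := by linarith
    rw [this]; norm_num
  · have h4 : 0 < 9739 / 4000 * (5 / 3 - U) ^ 3 + 1965 / 32 * (U + 7 / 10) * (5 / 3 - U) ^ 2 +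
        3427 / 60 * (U + 7 / 10) ^ 2 * (5 / 3 - U) + 1031 / 216 * (U + 7 / 10) ^ 3 := by
      positivity
    by_contra hc
    push Not at hc
    have : 0 ≤ (71 / 30 : ℝ) ^ 3 * (-(1 / 2) * U ^ 3 + 75 / 8 * U ^ 2 - 9 * U - 27 / 2) :=
      mul_nonneg (by norm_num) hc
    rw [e] at this
    linarith

/-- the first term on the oval -/
lemma tB0 (he : V ^ 2 - 1 / 2 * U * V - 3 * V = U ^ 3 - 3 * U ^ 2) (h : U < 2) :
    (2 * V - 1 / 2 * U - 3) * Real.log (((3 + 1 / 2 * U - V) ^ 3 * (V - 3 / 2 * U) ^ 3 *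
      (V - U)) / (V ^ 3 * (3 - U - V) ^ 3 * (3 - 1 / 2 * U - V))) ≤ 0 := by
  obtain ⟨h1, h2, -⟩ := oval8 he h
  have hG := G4_neg h1 h2
  have hH := H4_pos h2
  have ea : (3 + 1 / 2 * U - V) * (V - 3 / 2 * U) =
      -(U * (U ^ 2 - 3 * U + 3 / 2 * (3 + 1 / 2 * U - V))) := by
    linear_combination (-1) * he
  have eb : V * (3 - U - V) = -(U * (U ^ 2 - 3 * U + 3 / 2 * V)) := by
    linear_combination (-1) * he
  have hN : V ^ 3 * (3 - U - V) ^ 3 * (3 - 1 / 2 * U - V) =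
      -(U ^ 3 * ((U ^ 2 - 3 * U + 3 / 2 * V) ^ 3 * (3 - 1 / 2 * U - V))) := by
    rw [← mul_pow, eb]; ring
  have hD : (3 + 1 / 2 * U - V) ^ 3 * (V - 3 / 2 * U) ^ 3 * (V - U) =
      -(U ^ 3 * ((U ^ 2 - 3 * U + 3 / 2 * (3 + 1 / 2 * U - V)) ^ 3 * (V - U))) := by
    rw [← mul_pow, ea]; ring
  have i1 : (U ^ 2 - 3 * U + 3 / 2 * V) ^ 3 * (3 - 1 / 2 * U - V) -
      (U ^ 2 - 3 * U + 3 / 2 * (3 + 1 / 2 * U - V)) ^ 3 * (V - U) =
      -((2 * V - 1 / 2 * U - 3) * (U * (U - 3 / 2)) *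
        (U ^ 4 + 15 / 4 * U ^ 3 - 423 / 16 * U ^ 2 + 81 / 2 * U - 81 / 4)) := by
    linear_combination ((243 / 8) + (-81 / 2) * U + (405 / 32) * U ^ 2 + (27 / 8) * U ^ 3 +
      (-81 / 4) * V + (243 / 8) * U * V + (-27 / 2) * U ^ 2 * V) * he
  have i2 : (U ^ 2 - 3 * U + 3 / 2 * V) ^ 3 * (3 - 1 / 2 * U - V) +
      (U ^ 2 - 3 * U + 3 / 2 * (3 + 1 / 2 * U - V)) ^ 3 * (V - U) =
      -((U - 2) * (U * (U - 3 / 2)) *
        (21 / 2 * U ^ 4 - 279 / 8 * U ^ 3 + 1377 / 32 * U ^ 2 - 81 / 2 * U + 243 / 8)) := by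
    linear_combination ((-243 / 8) + (81 / 4) * U + (-1161 / 32) * U ^ 2 + (243 / 8) * U ^ 3 +
      (-9) * U ^ 4 + (81 / 4) * V + (27 / 8) * U * V + (-27 / 4) * V ^ 2) * he
  rw [hN, hD]
  generalize (U ^ 2 - 3 * U + 3 / 2 * V) ^ 3 * (3 - 1 / 2 * U - V) = B at *
  generalize (U ^ 2 - 3 * U + 3 / 2 * (3 + 1 / 2 * U - V)) ^ 3 * (V - U) = A at *
  generalize U ^ 4 + 15 / 4 * U ^ 3 - 423 / 16 * U ^ 2 + 81 / 2 * U - 81 / 4 = G at *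
  generalize 21 / 2 * U ^ 4 - 279 / 8 * U ^ 3 + 1377 / 32 * U ^ 2 - 81 / 2 * U + 243 / 8 = H at *
  refine psi_log_nonpos (E := U ^ 6 * ((U * (U - 3 / 2)) ^ 2 * ((2 - U) * (-G) * H))) ?_ ?_
  · have a1 : 0 < 2 - U := by linarith
    have a2 : 0 < -G := by linarith
    positivity
  · have e : (-(U ^ 3 * A)) ^ 2 - (-(U ^ 3 * B)) ^ 2 = -(U ^ 6 * ((B - A) * (B + A))) := by ring
    rw [e, i1, i2]
    ring

/-- the second term on the oval -/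
lemma tB1 (he : V ^ 2 - 1 / 2 * U * V - 3 * V = U ^ 3 - 3 * U ^ 2) (h : U < 2)
    (hψ : 2 * V - 1 / 2 * U - 3 ≠ 0) (h1 : V ≠ 0) (h2 : V - U ≠ 0) (h3 : 3 + 1 / 2 * U - V ≠ 0)
    (h4 : 3 - 1 / 2 * U - V ≠ 0) :
    0 < (2 * V - 1 / 2 * U - 3) * Real.log ((V ^ 2 * (V - U)) /
      ((3 + 1 / 2 * U - V) ^ 2 * (3 - 1 / 2 * U - V))) := by
  obtain ⟨r1, r2, -⟩ := oval8 he h
  have hG := G3_pos r1 r2
  have hH := H3_neg r1 r2
  have i1 : V ^ 2 * (V - U) - (3 + 1 / 2 * U - V) ^ 2 * (3 - 1 / 2 * U - V) =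
      (2 * V - 1 / 2 * U - 3) * (U ^ 3 - 13 / 4 * U ^ 2 + 9) := by
    linear_combination ((-3) + (-1 / 2) * U + (2) * V) * he
  have i2 : V ^ 2 * (V - U) + (3 + 1 / 2 * U - V) ^ 2 * (3 - 1 / 2 * U - V) =
      (U - 2) * (-(1 / 2) * U ^ 3 + 75 / 8 * U ^ 2 - 9 * U - 27 / 2) := by
    linear_combination ((9) + (-1 / 2) * U) * he
  have hA : V ^ 2 * (V - U) ≠ 0 := mul_ne_zero (pow_ne_zero 2 h1) h2
  have hB : (3 + 1 / 2 * U - V) ^ 2 * (3 - 1 / 2 * U - V) ≠ 0 :=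
    mul_ne_zero (pow_ne_zero 2 h3) h4
  generalize V ^ 2 * (V - U) = A at *
  generalize (3 + 1 / 2 * U - V) ^ 2 * (3 - 1 / 2 * U - V) = B at *
  generalize U ^ 3 - 13 / 4 * U ^ 2 + 9 = G at *
  generalize -(1 / 2) * U ^ 3 + 75 / 8 * U ^ 2 - 9 * U - 27 / 2 = H at *
  refine psi_log_pos (E := G * ((2 - U) * (-H))) hψ hA hB ?_ ?_
  · have a1 : 0 < 2 - U := by linarith
    have a2 : 0 < -H := by linarith
    positivity
  · have e : A ^ 2 - B ^ 2 = (A - B) * (A + B) := by ring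
    rw [e, i1, i2]
    ring

/-- the sign of the derivative of the slope -/
lemma lam8 (he : V ^ 2 - 1 / 2 * U * V - 3 * V = U ^ 3 - 3 * U ^ 2) (h : 2 ≤ U) :
    0 ≤ U ^ 3 - 9 / 2 * U ^ 2 + 33 / 4 * U - 9 / 2 - 3 / 4 * V ∧
    0 ≤ U ^ 3 - 9 / 2 * U ^ 2 + 33 / 4 * U - 9 / 2 - 3 / 4 * (3 + 1 / 2 * U - V) := by
  have i5 : (U ^ 3 - 9 / 2 * U ^ 2 + 33 / 4 * U - 9 / 2 - 3 / 4 * V) *
      (U ^ 3 - 9 / 2 * U ^ 2 + 33 / 4 * U - 9 / 2 - 3 / 4 * (3 + 1 / 2 * U - V)) =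
      (U - 3 / 2) ^ 2 * (U ^ 4 - 6 * U ^ 3 + 129 / 8 * U ^ 2 - 45 / 2 * U + 27 / 2) := by
    linear_combination (-9 / 16) * he
  have a1 : 0 ≤ U - 2 := by linarith
  have h1 : 0 < (U - 3 / 2) ^ 2 *
      (U ^ 4 - 6 * U ^ 3 + 129 / 8 * U ^ 2 - 45 / 2 * U + 27 / 2) := by
    have e : U ^ 4 - 6 * U ^ 3 + 129 / 8 * U ^ 2 - 45 / 2 * U + 27 / 2 =
        1 + 2 * (U - 2) + 33 / 8 * (U - 2) ^ 2 + 2 * (U - 2) ^ 3 + (U - 2) ^ 4 := by ring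
    rw [e]
    have : 0 < U - 3 / 2 := by linarith
    positivity
  have h2 : 0 < (U ^ 3 - 9 / 2 * U ^ 2 + 33 / 4 * U - 9 / 2 - 3 / 4 * V) +
      (U ^ 3 - 9 / 2 * U ^ 2 + 33 / 4 * U - 9 / 2 - 3 / 4 * (3 + 1 / 2 * U - V)) := by
    have e : (U ^ 3 - 9 / 2 * U ^ 2 + 33 / 4 * U - 9 / 2 - 3 / 4 * V) +
      (U ^ 3 - 9 / 2 * U ^ 2 + 33 / 4 * U - 9 / 2 - 3 / 4 * (3 + 1 / 2 * U - V)) =
      1 + 33 / 8 * (U - 2) + 3 * (U - 2) ^ 2 + 2 * (U - 2) ^ 3 := by ring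
    rw [e]
    positivity
  rw [← i5] at h1
  generalize U ^ 3 - 9 / 2 * U ^ 2 + 33 / 4 * U - 9 / 2 - 3 / 4 * V = A at *
  generalize U ^ 3 - 9 / 2 * U ^ 2 + 33 / 4 * U - 9 / 2 - 3 / 4 * (3 + 1 / 2 * U - V) = B at *
  constructor
  · by_contra hc
    push Not at hc
    have : 0 < B := by linarith
    have := mul_neg_of_neg_of_pos hc this
    linarith
  · by_contra hc
    push Not at hc
    have : 0 < A := by linarith
    have := mul_neg_of_pos_of_neg this hc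
    linarith

/-- the two units on the identity component -/
lemma un8 (h : 2 ≤ U) : 0 ≤ Real.log (U / 2) ∧ Real.log (2 / U) ≤ 0 ∧
    0 ≤ Real.log ((2 * U - 3) / (U - 3)) ∧ Real.log ((U - 3) / (2 * U - 3)) ≤ 0 := by
  refine ⟨log_div_nonneg ?_, log_div_nonpos ?_, log_div_nonneg ?_, log_div_nonpos ?_⟩ <;>
  nlinarith

end real

end Pool.Agent.K4N
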