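import Pool.Agent.Lib_helper2.K4N.Q7X
import Pool.Agent.Lib_helper2.K4N.Eng2

set_option autoImplicit false
set_option linter.unusedSimpArgs false
set_option linter.unusedSectionVars false

/-!
The nonvanishing of the class for points of order eight at `d = 1 / 3` (`b = 2 / 9`, `c = 2 / 3`).
-/

namespace Pool.Agent.K4N

open Filter Topology Pool.Agent.TN
open scoped TensorProduct

namespace Q8b

/-- the circle -/
noncomputable def circ : Circ ((2 / 9 : ℚ) : ℝ) ((2 / 3 : ℚ) : ℝ) (fun _ _ => True) := by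
  refine mkCirc _ _ (-2 / 9) (-5 / 3) (2 / 9) _ ?_ ?_ ?_
  · intro x
    push_cast
    ring
  · intro x _
    nlinarith [sq_nonneg (8 * x - 5 / 3)]
  · intro s _ V _
    trivial

/-- the reflected ordinate -/
def yb : Q2 := .c (2 / 9) - .c (1 / 3) * .x - .y
/-- the first function -/
def f10 (Y : Q2) : Q2 := (Y + .c (4 / 3) * .x - .c (4 / 9)) / (.c 2 * (.x + Y - .c (2 / 9)))
/-- the second function -/
def f12 (Y : Q2) : Q2 := (Y + .c (2 / 3) * .x) / (.x + Y - .c (2 / 9))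
/-- the first unit -/
def r (Y : Q2) : Q2 := ((.x - .c (2 / 3)) * (.x - .c (2 / 3)) * (Y * Y)) /
  (.c 2 * (.x * .x) * ((Y - .c (2 / 3) * .x) * (Y - .c (2 / 3) * .x)))
/-- its inverse -/
def r' (Y : Q2) : Q2 := (.c 2 * (.x * .x) * ((Y - .c (2 / 3) * .x) * (Y - .c (2 / 3) * .x))) /
  ((.x - .c (2 / 3)) * (.x - .c (2 / 3)) * (Y * Y))
/-- the second unit -/
def t (Y : Q2) : Q2 := (.c 9 * ((.x - .c (2 / 3)) * (.x - .c (2 / 3))) *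
  ((.x + .c (2 / 9)) * (.x + .c (2 / 9)))) / (.c 8 * ((Y + .c (2 / 3) * .x) *
  (Y + .c (2 / 3) * .x)))
/-- its inverse -/
def t' (Y : Q2) : Q2 := (.c 8 * ((Y + .c (2 / 3) * .x) * (Y + .c (2 / 3) * .x))) /
  (.c 9 * ((.x - .c (2 / 3)) * (.x - .c (2 / 3))) * ((.x + .c (2 / 9)) * (.x + .c (2 / 9))))

section ev
variable {K : Type*} [Field K] [CharZero K] (u v : K) (Y : Q2)

lemma ev_yb : yb.ev u v = 2 / 9 - 1 / 3 * u - v := by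
  simp only [yb, Q2.ev_sub, Q2.ev_add, Q2.ev_mul, Q2.ev_c, Q2.ev_x, Q2.ev_y]
  push_cast
  rfl
lemma ev_f10 : (f10 Y).ev u v = (Y.ev u v + 4 / 3 * u - 4 / 9) /
    (2 * (u + Y.ev u v - 2 / 9)) := by
  simp only [f10, Q2.ev_sub, Q2.ev_add, Q2.ev_mul, Q2.ev_div, Q2.ev_c, Q2.ev_x, Q2.ev_y]
  push_cast
  rfl
lemma ev_f12 : (f12 Y).ev u v = (Y.ev u v + 2 / 3 * u) / (u + Y.ev u v - 2 / 9) := by
  simp only [f12, Q2.ev_sub, Q2.ev_add, Q2.ev_mul, Q2.ev_div, Q2.ev_c, Q2.ev_x, Q2.ev_y]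
  push_cast
  rfl
lemma ev_r : (r Y).ev u v = ((u - 2 / 3) ^ 2 * (Y.ev u v) ^ 2) /
    (2 * u ^ 2 * (Y.ev u v - 2 / 3 * u) ^ 2) := by
  simp only [r, Q2.ev_sub, Q2.ev_add, Q2.ev_mul, Q2.ev_div, Q2.ev_c, Q2.ev_x, Q2.ev_y]
  push_cast
  congr 1 <;> ring
lemma ev_r' : (r' Y).ev u v = (2 * u ^ 2 * (Y.ev u v - 2 / 3 * u) ^ 2) /
    ((u - 2 / 3) ^ 2 * (Y.ev u v) ^ 2) := by
  simp only [r', Q2.ev_sub, Q2.ev_add, Q2.ev_mul, Q2.ev_div, Q2.ev_c, Q2.ev_x, Q2.ev_y]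
  push_cast
  congr 1 <;> ring
lemma ev_t : (t Y).ev u v = (9 * (u - 2 / 3) ^ 2 * (u + 2 / 9) ^ 2) /
    (8 * (Y.ev u v + 2 / 3 * u) ^ 2) := by
  simp only [t, Q2.ev_sub, Q2.ev_add, Q2.ev_mul, Q2.ev_div, Q2.ev_c, Q2.ev_x, Q2.ev_y]
  push_cast
  congr 1 <;> ring
lemma ev_t' : (t' Y).ev u v = (8 * (Y.ev u v + 2 / 3 * u) ^ 2) /
    (9 * (u - 2 / 3) ^ 2 * (u + 2 / 9) ^ 2) := by
  simp only [t', Q2.ev_sub, Q2.ev_add, Q2.ev_mul, Q2.ev_div, Q2.ev_c, Q2.ev_x, Q2.ev_y]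
  push_cast
  congr 1 <;> ring

end ev

section dv

variable {U V : ℝ}

/-- the numerator of the derivative of the slope -/
noncomputable def La (U V : ℝ) : ℝ := U ^ 3 - 2 * U ^ 2 + 4 / 27 * U + 8 / 81 - 8 / 9 * V

lemma he_bar (he : V ^ 2 + 1 / 3 * U * V - 2 / 9 * V = U ^ 3 - 2 / 9 * U ^ 2) :
    (2 / 9 - 1 / 3 * U - V) ^ 2 + 1 / 3 * U * (2 / 9 - 1 / 3 * U - V) -
      2 / 9 * (2 / 9 - 1 / 3 * U - V) = U ^ 3 - 2 / 9 * U ^ 2 := by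
  linear_combination he

lemma d_f10 (he : V ^ 2 + 1 / 3 * U * V - 2 / 9 * V = U ^ 3 - 2 / 9 * U ^ 2) :
    Q2.dv ((2 / 9 : ℚ) : ℝ) ((2 / 3 : ℚ) : ℝ) (f10 .y) U V =
    -(2 / 3 * La U V / (2 * (U + V - 2 / 9)) ^ 2) := by
  simp only [f10, Q2.dv_div, Q2.dv_sub, Q2.dv_add, Q2.dv_mul, Q2.dv_c, Q2.dv_x, Q2.dv_y,
    Q2.ev_sub, Q2.ev_add, Q2.ev_mul, Q2.ev_c, Q2.ev_x, Q2.ev_y, La]
  push_cast
  rw [← neg_div]
  congr 1
  linear_combination (4 / 3) * he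

lemma d_f12 (he : V ^ 2 + 1 / 3 * U * V - 2 / 9 * V = U ^ 3 - 2 / 9 * U ^ 2) :
    Q2.dv ((2 / 9 : ℚ) : ℝ) ((2 / 3 : ℚ) : ℝ) (f12 .y) U V =
    1 / 3 * La U V / (U + V - 2 / 9) ^ 2 := by
  simp only [f12, Q2.dv_div, Q2.dv_sub, Q2.dv_add, Q2.dv_mul, Q2.dv_c, Q2.dv_x, Q2.dv_y,
    Q2.ev_sub, Q2.ev_add, Q2.ev_mul, Q2.ev_c, Q2.ev_x, Q2.ev_y, La]
  push_cast
  congr 1
  linear_combination (-2 / 3) * he

lemma d_g10 (he : V ^ 2 + 1 / 3 * U * V - 2 / 9 * V = U ^ 3 - 2 / 9 * U ^ 2) :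
    Q2.dv ((2 / 9 : ℚ) : ℝ) ((2 / 3 : ℚ) : ℝ) (f10 yb) U V =
    2 / 3 * La U (2 / 9 - 1 / 3 * U - V) / (2 * (U + (2 / 9 - 1 / 3 * U - V) - 2 / 9)) ^ 2 := by
  simp only [f10, yb, Q2.dv_div, Q2.dv_sub, Q2.dv_add, Q2.dv_mul, Q2.dv_c, Q2.dv_x, Q2.dv_y,
    Q2.ev_sub, Q2.ev_add, Q2.ev_mul, Q2.ev_c, Q2.ev_x, Q2.ev_y, La]
  push_cast
  congr 1
  linear_combination (-4 / 3) * he

lemma d_g12 (he : V ^ 2 + 1 / 3 * U * V - 2 / 9 * V = U ^ 3 - 2 / 9 * U ^ 2) :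
    Q2.dv ((2 / 9 : ℚ) : ℝ) ((2 / 3 : ℚ) : ℝ) (f12 yb) U V =
    -(1 / 3 * La U (2 / 9 - 1 / 3 * U - V) / (U + (2 / 9 - 1 / 3 * U - V) - 2 / 9) ^ 2) := by
  simp only [f12, yb, Q2.dv_div, Q2.dv_sub, Q2.dv_add, Q2.dv_mul, Q2.dv_c, Q2.dv_x, Q2.dv_y,
    Q2.ev_sub, Q2.ev_add, Q2.ev_mul, Q2.ev_c, Q2.ev_x, Q2.ev_y, La]
  push_cast
  rw [← neg_div]
  congr 1
  linear_combination (2 / 3) * he

lemma range8 (he : V ^ 2 + 1 / 3 * U * V - 2 / 9 * V = U ^ 3 - 2 / 9 * U ^ 2) :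
    0 ≤ U + 2 / 9 := by
  have h : (2 * V + 1 / 3 * U - 2 / 9) ^ 2 = (U + 2 / 9) * (4 * U ^ 2 - 5 / 3 * U + 2 / 9) := by
    linear_combination 4 * he
  have h2 := sq_nonneg (2 * V + 1 / 3 * U - 2 / 9)
  rw [h] at h2
  have h3 : 0 < 4 * U ^ 2 - 5 / 3 * U + 2 / 9 := by nlinarith [sq_nonneg (8 * U - 5 / 3)]
  exact nonneg_of_mul_nonneg_left h2 h3

/-- the sign of a product -/
lemma La_log_nonpos {ψ A B : ℝ} (hA : 0 ≤ A) (hB : 0 ≤ B) (h1 : 0 ≤ ψ → A ≤ B)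
    (h2 : ψ ≤ 0 → B ≤ A) : ψ * Real.log (A / B) ≤ 0 := by
  rcases le_total 0 ψ with h | h
  · exact mul_nonpos_of_nonneg_of_nonpos h (log_div_nonpos (by
      have := h1 h
      nlinarith))
  · exact mul_nonpos_of_nonpos_of_nonneg h (log_div_nonneg (by
      have := h2 h
      nlinarith))

lemma N1_eq (he : V ^ 2 + 1 / 3 * U * V - 2 / 9 * V = U ^ 3 - 2 / 9 * U ^ 2) :
    ((U - 2 / 3) ^ 2 * V ^ 2 - 2 * U ^ 2 * (V - 2 / 3 * U) ^ 2) * (V + 2 / 3 * U) ^ 2 =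
      -(La U V * (U + 2 / 9) * (U ^ 2 - V) ^ 2) := by
  unfold La
  linear_combination ((8 / 81) * U ^ 2 + (28 / 27) * U ^ 3 + (14 / 9) * U ^ 4 + (-1) * U ^ 5 +
    (-8 / 81) * V + (-20 / 27) * U * V + (-14 / 9) * U ^ 2 * V + (5 / 3) * U ^ 3 * V +
    (4 / 9) * V ^ 2 + (-4 / 3) * U * V ^ 2 + (-1) * U ^ 2 * V ^ 2) * he

lemma N2_eq (he : V ^ 2 + 1 / 3 * U * V - 2 / 9 * V = U ^ 3 - 2 / 9 * U ^ 2) :
    9 * (U - 2 / 3) ^ 2 * (U + 2 / 9) ^ 2 - 8 * (V + 2 / 3 * U) ^ 2 =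
      9 * (La U V * (U + 2 / 9)) := by
  unfold La
  linear_combination (-8) * he

lemma N1_cmp (he : V ^ 2 + 1 / 3 * U * V - 2 / 9 * V = U ^ 3 - 2 / 9 * U ^ 2)
    (h0 : V + 2 / 3 * U ≠ 0) :
    (0 ≤ La U V → (U - 2 / 3) ^ 2 * V ^ 2 ≤ 2 * U ^ 2 * (V - 2 / 3 * U) ^ 2) ∧
    (La U V ≤ 0 → 2 * U ^ 2 * (V - 2 / 3 * U) ^ 2 ≤ (U - 2 / 3) ^ 2 * V ^ 2) := by
  have e := N1_eq he
  have hr := range8 he
  have hp : 0 < (V + 2 / 3 * U) ^ 2 := by positivity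
  have hs := sq_nonneg (U ^ 2 - V)
  constructor
  · intro hL
    by_contra hc
    push Not at hc
    have h1 : 0 < ((U - 2 / 3) ^ 2 * V ^ 2 - 2 * U ^ 2 * (V - 2 / 3 * U) ^ 2) *
        (V + 2 / 3 * U) ^ 2 := mul_pos (by linarith) hp
    have h2 : 0 ≤ La U V * (U + 2 / 9) * (U ^ 2 - V) ^ 2 := mul_nonneg (mul_nonneg hL hr) hs
    linarith
  · intro hL
    by_contra hc
    push Not at hc
    have h1 : ((U - 2 / 3) ^ 2 * V ^ 2 - 2 * U ^ 2 * (V - 2 / 3 * U) ^ 2) *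
        (V + 2 / 3 * U) ^ 2 < 0 := mul_neg_of_neg_of_pos (by linarith) hp
    have h2 : La U V * (U + 2 / 9) * (U ^ 2 - V) ^ 2 ≤ 0 :=
      mul_nonpos_of_nonpos_of_nonneg (mul_nonpos_of_nonpos_of_nonneg hL hr) hs
    linarith

lemma N2_cmp (he : V ^ 2 + 1 / 3 * U * V - 2 / 9 * V = U ^ 3 - 2 / 9 * U ^ 2) :
    (0 ≤ La U V → 8 * (V + 2 / 3 * U) ^ 2 ≤ 9 * (U - 2 / 3) ^ 2 * (U + 2 / 9) ^ 2) ∧
    (La U V ≤ 0 → 9 * (U - 2 / 3) ^ 2 * (U + 2 / 9) ^ 2 ≤ 8 * (V + 2 / 3 * U) ^ 2) := by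
  have e := N2_eq he
  have hr := range8 he
  constructor
  · intro hL
    have := mul_nonneg hL hr
    linarith
  · intro hL
    have := mul_nonpos_of_nonpos_of_nonneg hL hr
    linarith

/-- the sign of the first unit -/
lemma s_r (he : V ^ 2 + 1 / 3 * U * V - 2 / 9 * V = U ^ 3 - 2 / 9 * U ^ 2)
    (h0 : V + 2 / 3 * U ≠ 0) :
    La U V * Real.log (((U - 2 / 3) ^ 2 * V ^ 2) / (2 * U ^ 2 * (V - 2 / 3 * U) ^ 2)) ≤ 0 ∧
    0 ≤ La U V * Real.log ((2 * U ^ 2 * (V - 2 / 3 * U) ^ 2) / ((U - 2 / 3) ^ 2 * V ^ 2)) := by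
  obtain ⟨h1, h2⟩ := N1_cmp he h0
  have k := La_log_nonpos (ψ := La U V) (A := (U - 2 / 3) ^ 2 * V ^ 2)
    (B := 2 * U ^ 2 * (V - 2 / 3 * U) ^ 2) (by positivity) (by positivity) h1 h2
  refine ⟨k, ?_⟩
  rw [← inv_div, Real.log_inv]
  linarith

/-- the sign of the second unit -/
lemma s_t (he : V ^ 2 + 1 / 3 * U * V - 2 / 9 * V = U ^ 3 - 2 / 9 * U ^ 2) :
    La U V * Real.log ((8 * (V + 2 / 3 * U) ^ 2) /
      (9 * (U - 2 / 3) ^ 2 * (U + 2 / 9) ^ 2)) ≤ 0 ∧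
    0 ≤ La U V * Real.log ((9 * (U - 2 / 3) ^ 2 * (U + 2 / 9) ^ 2) /
      (8 * (V + 2 / 3 * U) ^ 2)) := by
  obtain ⟨h1, h2⟩ := N2_cmp he
  have k := La_log_nonpos (ψ := La U V) (A := 8 * (V + 2 / 3 * U) ^ 2)
    (B := 9 * (U - 2 / 3) ^ 2 * (U + 2 / 9) ^ 2) (by positivity) (by positivity) h1 h2
  refine ⟨k, ?_⟩
  rw [← inv_div, Real.log_inv]
  linarith

lemma s_t_strict (he : V ^ 2 + 1 / 3 * U * V - 2 / 9 * V = U ^ 3 - 2 / 9 * U ^ 2)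
    (hL : La U V ≠ 0) (h1 : V + 2 / 3 * U ≠ 0) (h2 : U - 2 / 3 ≠ 0) (h3 : U + 2 / 9 ≠ 0) :
    La U V * Real.log ((8 * (V + 2 / 3 * U) ^ 2) /
      (9 * (U - 2 / 3) ^ 2 * (U + 2 / 9) ^ 2)) < 0 := by
  have e := N2_eq he
  have hr : 0 < U + 2 / 9 := lt_of_le_of_ne (range8 he) (Ne.symm h3)
  have hA : 8 * (V + 2 / 3 * U) ^ 2 ≠ 0 := by positivity
  have hB : 9 * (U - 2 / 3) ^ 2 * (U + 2 / 9) ^ 2 ≠ 0 := by positivity
  have pA : 0 < 8 * (V + 2 / 3 * U) ^ 2 := by positivity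
  have pB : 0 < 9 * (U - 2 / 3) ^ 2 * (U + 2 / 9) ^ 2 := by positivity
  generalize 8 * (V + 2 / 3 * U) ^ 2 = A at *
  generalize 9 * (U - 2 / 3) ^ 2 * (U + 2 / 9) ^ 2 = B at *
  rcases lt_or_gt_of_ne hL with h | h
  · refine mul_neg_of_neg_of_pos h (log_div_pos hB ?_)
    have := mul_neg_of_neg_of_pos h hr
    nlinarith
  · refine mul_neg_of_pos_of_neg h (log_div_neg hA ?_)
    have := mul_pos h hr
    nlinarith

end dv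

/-- a product of signs -/
lemma sg {κ ψ D L : ℝ} (hκ : 0 ≤ κ) (h : ψ * L ≤ 0) : κ * ψ / D ^ 2 * L ≤ 0 := by
  have e : κ * ψ / D ^ 2 * L = κ / D ^ 2 * (ψ * L) := by ring
  rw [e]
  exact mul_nonpos_of_nonneg_of_nonpos (div_nonneg hκ (sq_nonneg D)) h

lemma sg' {κ ψ D L : ℝ} (hκ : 0 ≤ κ) (h : 0 ≤ ψ * L) : -(κ * ψ / D ^ 2) * L ≤ 0 := by
  have e : -(κ * ψ / D ^ 2) * L = -(κ / D ^ 2 * (ψ * L)) := by ring
  rw [e, neg_nonpos]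
  exact mul_nonneg (div_nonneg hκ (sq_nonneg D)) h

/-- the functions -/
def f8 : Fin 6 → Q2 := ![f10 .y, f12 .y, f12 .y, f10 yb, f12 yb, f12 yb]
/-- the units -/
def u8 : Fin 6 → Q2 := ![r' .y, r .y, t' .y, r yb, r' yb, t yb]
/-- the multiplicities -/
def w8 : Fin 6 → ℕ := ![1, 4, 1, 1, 4, 1]

/-- the numerator of the derivative -/
def LQ : Q2 := .x * .x * .x - .c 2 * (.x * .x) + .c (4 / 27) * .x + .c (8 / 81) - .c (8 / 9) * .y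

/-- the nonvanishing functions -/
def nz8 : List Q2 := [.x + .y - .c (2 / 9), .c (2 / 3) * .x - .y, .y + .c (2 / 3) * .x,
  .c (2 / 9) + .c (1 / 3) * .x - .y, .x - .c (2 / 3), .x + .c (2 / 9), LQ]

variable {k F : Type*} [Field k] [Field F] [Algebra k F] {x y : F}

lemma LQ_ne [CharZero k] [CharZero F] (h : Gen (((2 / 9 : ℚ)) : k) ((2 / 3 : ℚ) : k) x y) :
    x ^ 3 - 2 * x ^ 2 + 4 / 27 * x + 8 / 81 - 8 / 9 * y ≠ 0 := by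
  intro e
  have he := h.eq
  simp only [map_ratCast] at he
  push_cast at he
  have ht := (TN.Tr_iff x).mp h.tr
  have e2 : (x - 2 / 3) ^ 2 * (x ^ 4 - 8 / 3 * x ^ 3 + 16 / 27 * x ^ 2 - 16 / 729) = 0 := by
    linear_combination (x ^ 3 - 2 * x ^ 2 + 4 / 27 * x + 8 / 81 - 8 / 9 * (2 / 9 - 1 / 3 * x - y)) *
      e + (64 / 81) * he
  have h1 := h.xc_ne (2 / 3)
  simp only [map_ofNat, map_div₀] at h1
  have e3 : x ^ 4 - 8 / 3 * x ^ 3 + 16 / 27 * x ^ 2 - 16 / 729 = 0 := by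
    rcases mul_eq_zero.mp e2 with h2 | h2
    · exact absurd (pow_eq_zero_iff (two_ne_zero) |>.mp h2) h1
    · exact h2
  rw [transcendental_iff] at ht
  have := ht (Polynomial.X ^ 4 - Polynomial.C (8 / 3) * Polynomial.X ^ 3 +
    Polynomial.C (16 / 27) * Polynomial.X ^ 2 - Polynomial.C (16 / 729)) (by
    simp only [map_sub, map_add, map_mul, map_pow, Polynomial.aeval_X, Polynomial.aeval_C,
      map_div₀, map_ofNat]
    exact e3)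
  have hc := congrArg (fun p => Polynomial.coeff p 4) this
  simp only [Polynomial.coeff_sub, Polynomial.coeff_add, Polynomial.coeff_X_pow,
    Polynomial.coeff_C_mul, Polynomial.coeff_C, Polynomial.coeff_zero] at hc
  norm_num at hc

lemma nz8_ne [CharZero k] [CharZero F] (h : Gen (((2 / 9 : ℚ)) : k) ((2 / 3 : ℚ) : k) x y) :
    x + y - 2 / 9 ≠ 0 ∧ 2 / 3 * x - y ≠ 0 ∧ y + 2 / 3 * x ≠ 0 ∧ 2 / 9 + 1 / 3 * x - y ≠ 0 ∧
    x - 2 / 3 ≠ 0 ∧ x + 2 / 9 ≠ 0 := by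
  have h1 := h.yab_ne 1 (-2 / 9)
  have h2 := h.yab_ne (-2 / 3) 0
  have h3 := h.yab_ne (2 / 3) 0
  have h4 := h.yab_ne (-1 / 3) (-2 / 9)
  have h5 := h.xc_ne (2 / 3)
  have h6 := h.xc_ne (-2 / 9)
  simp only [map_neg, map_one, map_zero, map_ofNat, map_div₀] at h1 h2 h3 h4 h5 h6
  refine ⟨fun e => h1 ?_, fun e => h2 ?_, fun e => h3 ?_, fun e => h4 ?_, h5, fun e => h6 ?_⟩
  · linear_combination e
  · linear_combination -e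
  · linear_combination e
  · linear_combination -e
  · linear_combination e

lemma nz8_ne' [CharZero k] [CharZero F] (h : Gen (((2 / 9 : ℚ)) : k) ((2 / 3 : ℚ) : k) x y) :
    y + 4 / 3 * x - 4 / 9 ≠ 0 ∧ y ≠ 0 ∧ y - 2 / 3 * x ≠ 0 ∧ 2 / 9 - 1 / 3 * x - y ≠ 0 ∧
    x - y - 2 / 9 ≠ 0 ∧ 2 / 9 - x - y ≠ 0 := by
  have h1 := h.yab_ne (4 / 3) (-4 / 9)
  have h3 := h.yab_ne (-2 / 3) 0
  have h4 := h.yab_ne (1 / 3) (-2 / 9)
  have h5 := h.yab_ne (-1) (2 / 9)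
  have h6 := h.yab_ne 1 (-2 / 9)
  simp only [map_neg, map_one, map_zero, map_ofNat, map_div₀] at h1 h3 h4 h5 h6
  refine ⟨fun e => h1 ?_, h.y_ne, fun e => h3 ?_, fun e => h4 ?_, fun e => h5 ?_, fun e => h6 ?_⟩
  · linear_combination e
  · linear_combination e
  · linear_combination -e
  · linear_combination -e
  · linear_combination -e

lemma real8 (U V : ℝ) (hnz : ∀ e ∈ nz8, e.ev U V ≠ 0) :
    U + V - 2 / 9 ≠ 0 ∧ 2 / 3 * U - V ≠ 0 ∧ V + 2 / 3 * U ≠ 0 ∧ 2 / 9 + 1 / 3 * U - V ≠ 0 ∧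
    U - 2 / 3 ≠ 0 ∧ U + 2 / 9 ≠ 0 ∧ La U V ≠ 0 := by
  simp only [nz8, LQ, List.mem_cons, List.not_mem_nil, or_false, forall_eq_or_imp, forall_eq,
    Q2.ev_x, Q2.ev_y, Q2.ev_c, Q2.ev_sub, Q2.ev_add, Q2.ev_mul] at hnz
  push_cast at hnz
  obtain ⟨a1, a2, a3, a4, a5, a6, a7⟩ := hnz
  refine ⟨a1, a2, a3, a4, a5, a6, fun e => a7 ?_⟩
  unfold La at e
  linear_combination e

theorem rz8b [CharZero k] (φ : k →+* ℝ) (h : Gen (2 / 9 : k) (2 / 3) x y)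
    (htop : IntermediateField.adjoin k {x, y} = ⊤) : RZ φ x y circ.X circ.Y (
    ∑ i : Fin 8 × Fin 6, w8 i.2 • K4M.hk (K4M.sy ((f8 i.2).ev
        (It (2 / 9 : F) i.1.val (x, y)).1 (It (2 / 9 : F) i.1.val (x, y)).2))
      (K4M.lg ((u8 i.2).ev (It (2 / 9 : F) i.1.val (x, y)).1
        (It (2 / 9 : F) i.1.val (x, y)).2))) := by
  have : CharZero F := charZero_of_injective_algebraMap (algebraMap k F).injective
  have e12k : ((2 / 9 : ℚ) : k) = 2 / 9 := by norm_num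
  have e4k : ((2 / 3 : ℚ) : k) = 2 / 3 := by norm_num
  have e12F : ((2 / 9 : ℚ) : F) = 2 / 9 := by norm_num
  have e12R : ((2 / 9 : ℚ) : ℝ) = 2 / 9 := by norm_num
  have e4R : ((2 / 3 : ℚ) : ℝ) = 2 / 3 := by norm_num
  have h' : Gen ((2 / 9 : ℚ) : k) ((2 / 3 : ℚ) : k) x y := by rw [e12k, e4k]; exact h
  have heq : ∀ {U V : ℝ}, V ^ 2 + (1 - ((2 / 3 : ℚ) : ℝ)) * U * V - ((2 / 9 : ℚ) : ℝ) * V =
      U ^ 3 - ((2 / 9 : ℚ) : ℝ) * U ^ 2 →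
      V ^ 2 + 1 / 3 * U * V - 2 / 9 * V = U ^ 3 - 2 / 9 * U ^ 2 := by
    intro U V he
    rw [e12R, e4R] at he
    linear_combination he
  have key := eng3R φ (2 / 9) (2 / 3) (by norm_num) h' htop (fun _ _ _ => True) circ
    (fun i : Fin 8 × Fin 6 => f8 i.2) (fun i => u8 i.2) (fun i => i.1.val)
    (fun i => i.1.val) (fun i => w8 i.2) nz8 ?_ ?_ ?_ ?_ ?_
    (0, 2) rfl (by decide) ?_
  · rw [e12F] at key
    exact key
  · intro x' y' hg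
    simp only [nz8, LQ, List.mem_cons, List.not_mem_nil, or_false, forall_eq_or_imp, forall_eq,
      Q2.ev_x, Q2.ev_y, Q2.ev_c, Q2.ev_sub, Q2.ev_add, Q2.ev_mul]
    obtain ⟨a1, a2, a3, a4, a5, a6⟩ := nz8_ne hg
    push_cast
    exact ⟨a1, a2, a3, a4, a5, a6, fun e => LQ_ne hg (by linear_combination e)⟩
  · intro x' y' hg i
    obtain ⟨a1, a2, a3, a4, a5, a6⟩ := nz8_ne hg
    obtain ⟨b1, b2, b3, b4, b5, b6⟩ := nz8_ne' hg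
    have a0 := hg.x_ne
    have n2 : (2 : F) ≠ 0 := two_ne_zero
    have n8 : (8 : F) ≠ 0 := by norm_num
    have n9 : (9 : F) ≠ 0 := by norm_num
    have a2' : x' + (2 / 9 - 1 / 3 * x' - y') - 2 / 9 ≠ 0 :=
      fun e => a2 (by linear_combination e)
    have a4' : (2 / 9 - 1 / 3 * x' - y') + 2 / 3 * x' ≠ 0 := fun e => a4 (by linear_combination e)
    have b6' : (2 / 9 - 1 / 3 * x' - y') - 2 / 3 * x' ≠ 0 := fun e => b6 (by linear_combination e)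
    have b5' : (2 / 9 - 1 / 3 * x' - y') + 4 / 3 * x' - 4 / 9 ≠ 0 :=
      fun e => b5 (by linear_combination e)
    have c1 : (f10 .y).ev x' y' ≠ 0 ∧ (f10 .y).ev x' y' ≠ 1 := by
      rw [ev_f10, Q2.ev_y]
      refine ⟨div_ne_zero b1 (mul_ne_zero n2 a1), fun e => a3 ?_⟩
      rw [div_eq_one_iff_eq (mul_ne_zero n2 a1)] at e
      linear_combination -e
    have c2 : (f12 .y).ev x' y' ≠ 0 ∧ (f12 .y).ev x' y' ≠ 1 := by
      rw [ev_f12, Q2.ev_y]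
      refine ⟨div_ne_zero a3 a1, fun e => a5 ?_⟩
      rw [div_eq_one_iff_eq a1] at e
      linear_combination -3 * e
    have c3 : (f10 yb).ev x' y' ≠ 0 ∧ (f10 yb).ev x' y' ≠ 1 := by
      rw [ev_f10, ev_yb]
      refine ⟨div_ne_zero b5' (mul_ne_zero n2 a2'), fun e => a4 ?_⟩
      rw [div_eq_one_iff_eq (mul_ne_zero n2 a2')] at e
      linear_combination -e
    have c4 : (f12 yb).ev x' y' ≠ 0 ∧ (f12 yb).ev x' y' ≠ 1 := by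
      rw [ev_f12, ev_yb]
      refine ⟨div_ne_zero a4' a2', fun e => a5 ?_⟩
      rw [div_eq_one_iff_eq a2'] at e
      linear_combination -3 * e
    have t1 : (r .y).ev x' y' ≠ 0 := by
      rw [ev_r, Q2.ev_y]
      exact div_ne_zero (mul_ne_zero (pow_ne_zero 2 a5) (pow_ne_zero 2 b2))
        (mul_ne_zero (mul_ne_zero n2 (pow_ne_zero 2 a0)) (pow_ne_zero 2 b3))
    have t1' : (r' .y).ev x' y' ≠ 0 := by
      rw [ev_r', Q2.ev_y]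
      exact div_ne_zero (mul_ne_zero (mul_ne_zero n2 (pow_ne_zero 2 a0)) (pow_ne_zero 2 b3))
        (mul_ne_zero (pow_ne_zero 2 a5) (pow_ne_zero 2 b2))
    have t2' : (t' .y).ev x' y' ≠ 0 := by
      rw [ev_t', Q2.ev_y]
      exact div_ne_zero (mul_ne_zero n8 (pow_ne_zero 2 a3))
        (mul_ne_zero (mul_ne_zero n9 (pow_ne_zero 2 a5)) (pow_ne_zero 2 a6))
    have t3 : (r yb).ev x' y' ≠ 0 := by
      rw [ev_r, ev_yb]
      exact div_ne_zero (mul_ne_zero (pow_ne_zero 2 a5) (pow_ne_zero 2 b4))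
        (mul_ne_zero (mul_ne_zero n2 (pow_ne_zero 2 a0)) (pow_ne_zero 2 b6'))
    have t3' : (r' yb).ev x' y' ≠ 0 := by
      rw [ev_r', ev_yb]
      exact div_ne_zero (mul_ne_zero (mul_ne_zero n2 (pow_ne_zero 2 a0)) (pow_ne_zero 2 b6'))
        (mul_ne_zero (pow_ne_zero 2 a5) (pow_ne_zero 2 b4))
    have t4 : (t yb).ev x' y' ≠ 0 := by
      rw [ev_t, ev_yb]
      exact div_ne_zero (mul_ne_zero (mul_ne_zero n9 (pow_ne_zero 2 a5)) (pow_ne_zero 2 a6))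
        (mul_ne_zero n8 (pow_ne_zero 2 a4'))
    obtain ⟨i, m⟩ := i
    fin_cases m
    · exact ⟨c1.1, c1.2, t1'⟩
    · exact ⟨c2.1, c2.2, t1⟩
    · exact ⟨c2.1, c2.2, t2'⟩
    · exact ⟨c3.1, c3.2, t3⟩
    · exact ⟨c4.1, c4.2, t3'⟩
    · exact ⟨c4.1, c4.2, t4⟩
  · intro i U V hnz
    obtain ⟨a1, a2, a3, a4, a5, a6, a7⟩ := real8 U V hnz
    have a2' : U + (2 / 9 - 1 / 3 * U - V) - 2 / 9 ≠ 0 :=
      fun e => a2 (by linear_combination e)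
    have o1 : (f10 .y).ok U V := by
      refine ⟨⟨⟨trivial, ⟨trivial, trivial⟩⟩, trivial⟩, ⟨trivial, ⟨⟨trivial, trivial⟩, trivial⟩⟩, ?_⟩
      show ((2 : ℚ) : ℝ) * (U + V - ((2 / 9 : ℚ) : ℝ)) ≠ 0
      rw [e12R]
      exact mul_ne_zero (by norm_num) a1
    have o2 : (f12 .y).ok U V := by
      refine ⟨⟨trivial, ⟨trivial, trivial⟩⟩, ⟨⟨trivial, trivial⟩, trivial⟩, ?_⟩
      show U + V - ((2 / 9 : ℚ) : ℝ) ≠ 0
      rw [e12R]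
      exact a1
    have oy : yb.ok U V := ⟨⟨trivial, ⟨trivial, trivial⟩⟩, trivial⟩
    have o3 : (f10 yb).ok U V := by
      refine ⟨⟨⟨oy, ⟨trivial, trivial⟩⟩, trivial⟩, ⟨trivial, ⟨⟨trivial, oy⟩, trivial⟩⟩, ?_⟩
      show ((2 : ℚ) : ℝ) * (U + yb.ev U V - ((2 / 9 : ℚ) : ℝ)) ≠ 0
      rw [e12R, ev_yb]
      exact mul_ne_zero (by norm_num) a2'
    have o4 : (f12 yb).ok U V := by
      refine ⟨⟨oy, ⟨trivial, trivial⟩⟩, ⟨⟨trivial, oy⟩, trivial⟩, ?_⟩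
      show U + yb.ev U V - ((2 / 9 : ℚ) : ℝ) ≠ 0
      rw [e12R, ev_yb]
      exact a2'
    obtain ⟨i, m⟩ := i
    fin_cases m
    · exact o1
    · exact o2
    · exact o2
    · exact o3
    · exact o4
    · exact o4
  · intro n U V he hU hnz hC
    trivial
  · intro i U V U' V' he hU hnz hC he' hU' hnz' hC' hjl
    obtain ⟨rfl, rfl⟩ := hjl rfl
    replace he := heq he
    have he2 := he_bar he
    obtain ⟨a1, a2, a3, a4, a5, a6, a7⟩ := real8 _ _ hnz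
    have a4' : (2 / 9 - 1 / 3 * U' - V') + 2 / 3 * U' ≠ 0 :=
      fun e => a4 (by linear_combination e)
    have S1 := s_r he a3
    have S2 := s_t he
    have R1 := s_r he2 a4'
    have R2 := s_t he2
    obtain ⟨i, m⟩ := i
    fin_cases m
    · show (f10 .y).dv ((2 / 9 : ℚ) : ℝ) ((2 / 3 : ℚ) : ℝ) _ _ * Real.log ((r' .y).ev _ _) ≤ 0
      rw [d_f10 he, ev_r', Q2.ev_y]
      exact sg' (by norm_num) S1.2
    · show (f12 .y).dv ((2 / 9 : ℚ) : ℝ) ((2 / 3 : ℚ) : ℝ) _ _ * Real.log ((r .y).ev _ _) ≤ 0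
      rw [d_f12 he, ev_r, Q2.ev_y]
      exact sg (by norm_num) S1.1
    · show (f12 .y).dv ((2 / 9 : ℚ) : ℝ) ((2 / 3 : ℚ) : ℝ) _ _ * Real.log ((t' .y).ev _ _) ≤ 0
      rw [d_f12 he, ev_t', Q2.ev_y]
      exact sg (by norm_num) S2.1
    · show (f10 yb).dv ((2 / 9 : ℚ) : ℝ) ((2 / 3 : ℚ) : ℝ) _ _ * Real.log ((r yb).ev _ _) ≤ 0
      rw [d_g10 he, ev_r, ev_yb]
      exact sg (by norm_num) R1.1
    · show (f12 yb).dv ((2 / 9 : ℚ) : ℝ) ((2 / 3 : ℚ) : ℝ) _ _ * Real.log ((r' yb).ev _ _) ≤ 0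
      rw [d_g12 he, ev_r', ev_yb]
      exact sg' (by norm_num) R1.2
    · show (f12 yb).dv ((2 / 9 : ℚ) : ℝ) ((2 / 3 : ℚ) : ℝ) _ _ * Real.log ((t yb).ev _ _) ≤ 0
      rw [d_g12 he, ev_t, ev_yb]
      exact sg' (by norm_num) R2.2
  · intro U V he hU hnz hC
    replace he := heq he
    obtain ⟨a1, a2, a3, a4, a5, a6, a7⟩ := real8 _ _ hnz
    have h1 := s_t_strict he a7 a3 a5 a6
    show (f12 .y).dv ((2 / 9 : ℚ) : ℝ) ((2 / 3 : ℚ) : ℝ) U V * Real.log ((t' .y).ev U V) < 0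
    rw [d_f12 he, ev_t', Q2.ev_y]
    have e : ∀ L : ℝ, 1 / 3 * La U V / (U + V - 2 / 9) ^ 2 * L =
        1 / 3 / (U + V - 2 / 9) ^ 2 * (La U V * L) := fun L => by ring
    rw [e]
    exact mul_neg_of_pos_of_neg (div_pos (by norm_num) (by positivity)) h1

theorem nv8b [CharZero k] (φ : k →+* ℝ) (h : Gen (2 / 9 : k) (2 / 3) x y)
    (htop : IntermediateField.adjoin k {x, y} = ⊤) :
    ∑ i : Fin 8 × Fin 6, w8 i.2 • K4M.hk (K4M.sy ((f8 i.2).ev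
        (It (2 / 9 : F) i.1.val (x, y)).1 (It (2 / 9 : F) i.1.val (x, y)).2))
      (K4M.lg ((u8 i.2).ev (It (2 / 9 : F) i.1.val (x, y)).1
        (It (2 / 9 : F) i.1.val (x, y)).2)) ∉
      Submodule.span ℚ {z : K4M.HK F | ∃ (c : k) (u : K4M.FT F),
        z = K4M.hk (K4M.sy (algebraMap k F c)) u} :=
  (rz8b φ h htop).not_mem

end Q8b

end Pool.Agent.K4N
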