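import Pool.Agent.Lib_helper2.K4N.Q8B

set_option autoImplicit false
set_option linter.unusedSectionVars false
set_option linter.unusedSimpArgs false

/-!
The class for points of order eight at `d = 1 / 3` (`b = 2 / 9`, `c = 2 / 3`).
-/

namespace Pool.Agent.K4N

open Pool.Agent.TN
open scoped TensorProduct

section

variable {k F : Type*} [Field k] [Field F] [Algebra k F] {x y : F}

/-- the terms at a point -/
noncomputable def term8b (x y : F) : MK4.HK F :=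
  -MK4.hk (MK4.sy ((y - 2 / 3 * x) * (y + 2 / 3 * x) ^ 2 /
      (2 * x * (x - 2 / 3) * (x + 2 / 9) * y)))
      (MK4.lg ((x - 2 / 3) ^ 2 * y ^ 2 / (2 * x ^ 2 * (y - 2 / 3 * x) ^ 2))) +
  (4 : ℚ) • MK4.hk (MK4.sy ((y - 2 / 3 * x) * (y + 2 / 3 * x) /
      (x * (x - 2 / 9) * (x - 2 / 3))))
      (MK4.lg ((x - 2 / 3) ^ 2 * y ^ 2 / (2 * x ^ 2 * (y - 2 / 3 * x) ^ 2))) -
  MK4.hk (MK4.sy ((y - 2 / 3 * x) * (y + 2 / 3 * x) / (x * (x - 2 / 9) * (x - 2 / 3))))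
      (MK4.lg (9 * (x - 2 / 3) ^ 2 * (x + 2 / 9) ^ 2 / (8 * (y + 2 / 3 * x) ^ 2))) +
  MK4.hk (MK4.sy ((x - 2 / 3) ^ 2 * (x + 2 / 9) * y /
      (2 * (y - 2 / 3 * x) * (y + 2 / 3 * x) ^ 2)))
      (MK4.lg ((y - 2 / 3 * x) ^ 2 / (2 * y ^ 2))) -
  (4 : ℚ) • MK4.hk (MK4.sy (x * (x - 2 / 3) * (x + 2 / 9) /
      ((y - 2 / 3 * x) * (y + 2 / 3 * x))))
      (MK4.lg ((y - 2 / 3 * x) ^ 2 / (2 * y ^ 2))) +
  MK4.hk (MK4.sy (x * (x - 2 / 3) * (x + 2 / 9) / ((y - 2 / 3 * x) * (y + 2 / 3 * x))))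
      (MK4.lg (9 * (y + 2 / 3 * x) ^ 2 / (8 * x ^ 2)))

/-- the sum over the translates by the multiples of `P` -/
noncomputable def xi8b (x y : F) : MK4.HK F :=
  ∑ j : Fin 8, term8b (It (2 / 9 : F) j.val (x, y)).1 (It (2 / 9 : F) j.val (x, y)).2

lemma nz8b' [CharZero k] [CharZero F] (h : Gen ((2 / 9 : ℚ) : k) ((2 / 3 : ℚ) : k) x y) :
    x ≠ 0 ∧ x - 2 / 9 ≠ 0 ∧ x - 2 / 3 ≠ 0 ∧ x + 2 / 9 ≠ 0 ∧ y ≠ 0 ∧ y - 2 / 3 * x ≠ 0 ∧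
      y + 2 / 3 * x ≠ 0 ∧ y ^ 2 + 1 / 3 * x * y - 2 / 9 * y = x ^ 3 - 2 / 9 * x ^ 2 := by
  obtain ⟨a1, a2, a3, a4, a5, a6⟩ := Q8b.nz8_ne h
  obtain ⟨b1, b2, b3, b4, b5, b6⟩ := Q8b.nz8_ne' h
  have h1 := h.xc_ne (2 / 9)
  simp only [map_ofNat, map_div₀] at h1
  refine ⟨h.x_ne, h1, a5, a6, b2, b3, a3, ?_⟩
  have := h.eq
  simp only [map_ratCast] at this
  push_cast at this
  linear_combination this

lemma term8b_eq [CharZero k] [CharZero F]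
    (h : Gen ((2 / 9 : ℚ) : k) ((2 / 3 : ℚ) : k) x y) :
    term8b x y = ∑ m, Q8b.w8 m • MK4.hk (MK4.sy ((Q8b.f8 m).ev x y))
      (MK4.lg ((Q8b.u8 m).ev x y)) := by
  obtain ⟨hx, hb, hc, hd, hy, hy2, hy3, he⟩ := nz8b' h
  obtain ⟨a1, a2, a3, a4, a5, a6⟩ := Q8b.nz8_ne h
  obtain ⟨b1, b2, b3, b4, b5, b6⟩ := Q8b.nz8_ne' h
  have n2 : (2 : F) ≠ 0 := two_ne_zero
  have n8 : (8 : F) ≠ 0 := by norm_num
  have n9 : (9 : F) ≠ 0 := by norm_num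
  have a2' : x + (2 / 9 - 1 / 3 * x - y) - 2 / 9 ≠ 0 := fun e => a2 (by linear_combination e)
  have a4' : (2 / 9 - 1 / 3 * x - y) + 2 / 3 * x ≠ 0 := fun e => a4 (by linear_combination e)
  have b6' : (2 / 9 - 1 / 3 * x - y) - 2 / 3 * x ≠ 0 := fun e => b6 (by linear_combination e)
  have F10 : (Q8b.f10 .y).ev x y = (y - 2 / 3 * x) * (y + 2 / 3 * x) ^ 2 /
      (2 * x * (x - 2 / 3) * (x + 2 / 9) * y) := by
    rw [Q8b.ev_f10, Q2.ev_y, div_eq_div_iff (mul_ne_zero n2 a1)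
      (mul_ne_zero (mul_ne_zero (mul_ne_zero (mul_ne_zero n2 hx) hc) hd) hy)]
    linear_combination ((-16 / 27) * x + (-8 / 3) * x * y + (-2) * y ^ 2) * he
  have F12 : (Q8b.f12 .y).ev x y = (y - 2 / 3 * x) * (y + 2 / 3 * x) /
      (x * (x - 2 / 9) * (x - 2 / 3)) := by
    rw [Q8b.ev_f12, Q2.ev_y, div_eq_div_iff a1 (mul_ne_zero (mul_ne_zero hx hb) hc)]
    linear_combination ((-2 / 3) * x + (-1) * y) * he
  have G10 : (Q8b.f10 Q8b.yb).ev x y = (x - 2 / 3) ^ 2 * (x + 2 / 9) * y /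
      (2 * (y - 2 / 3 * x) * (y + 2 / 3 * x) ^ 2) := by
    rw [Q8b.ev_f10, Q8b.ev_yb, div_eq_div_iff (mul_ne_zero n2 a2')
      (mul_ne_zero (mul_ne_zero n2 hy2) (pow_ne_zero 2 hy3))]
    linear_combination ((16 / 27) * x + (-8 / 9) * y + (4 / 3) * x * y + (-2) * y ^ 2) * he
  have G12 : (Q8b.f12 Q8b.yb).ev x y = x * (x - 2 / 3) * (x + 2 / 9) /
      ((y - 2 / 3 * x) * (y + 2 / 3 * x)) := by
    rw [Q8b.ev_f12, Q8b.ev_yb, div_eq_div_iff a2' (mul_ne_zero hy2 hy3)]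
    linear_combination ((2 / 3) * x + (-1) * y) * he
  have R1 : (Q8b.r .y).ev x y = (x - 2 / 3) ^ 2 * y ^ 2 / (2 * x ^ 2 * (y - 2 / 3 * x) ^ 2) := by
    rw [Q8b.ev_r, Q2.ev_y]
  have R1' : (Q8b.r' .y).ev x y =
      ((x - 2 / 3) ^ 2 * y ^ 2 / (2 * x ^ 2 * (y - 2 / 3 * x) ^ 2))⁻¹ := by
    rw [Q8b.ev_r', Q2.ev_y, inv_div]
  have T1' : (Q8b.t' .y).ev x y =
      (9 * (x - 2 / 3) ^ 2 * (x + 2 / 9) ^ 2 / (8 * (y + 2 / 3 * x) ^ 2))⁻¹ := by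
    rw [Q8b.ev_t', Q2.ev_y, inv_div]
  have k1 : (2 / 9 - 1 / 3 * x - y) ^ 2 * y ^ 2 = (x ^ 2 * (x - 2 / 9)) ^ 2 := by
    have : (2 / 9 - 1 / 3 * x - y) * y = -(x ^ 2 * (x - 2 / 9)) := by linear_combination -he
    rw [← mul_pow, this, neg_sq]
  have k2 : ((2 / 9 - 1 / 3 * x - y) - 2 / 3 * x) ^ 2 * (y - 2 / 3 * x) ^ 2 =
      (x * (x - 2 / 9) * (x - 2 / 3)) ^ 2 := by
    have : ((2 / 9 - 1 / 3 * x - y) - 2 / 3 * x) * (y - 2 / 3 * x) =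
        -(x * (x - 2 / 9) * (x - 2 / 3)) := by linear_combination -he
    rw [← mul_pow, this, neg_sq]
  have k3 : ((2 / 9 - 1 / 3 * x - y) + 2 / 3 * x) ^ 2 * (y + 2 / 3 * x) ^ 2 =
      (x * (x - 2 / 3) * (x + 2 / 9)) ^ 2 := by
    have : ((2 / 9 - 1 / 3 * x - y) + 2 / 3 * x) * (y + 2 / 3 * x) =
        -(x * (x - 2 / 3) * (x + 2 / 9)) := by linear_combination -he
    rw [← mul_pow, this, neg_sq]
  have R2 : (Q8b.r Q8b.yb).ev x y = (y - 2 / 3 * x) ^ 2 / (2 * y ^ 2) := by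
    rw [Q8b.ev_r, Q8b.ev_yb, div_eq_div_iff (mul_ne_zero (mul_ne_zero n2 (pow_ne_zero 2 hx))
      (pow_ne_zero 2 b6')) (mul_ne_zero n2 (pow_ne_zero 2 hy))]
    linear_combination 2 * (x - 2 / 3) ^ 2 * k1 - 2 * x ^ 2 * k2
  have R2' : (Q8b.r' Q8b.yb).ev x y = ((y - 2 / 3 * x) ^ 2 / (2 * y ^ 2))⁻¹ := by
    rw [← R2, Q8b.ev_r', Q8b.ev_r, inv_div]
  have T2 : (Q8b.t Q8b.yb).ev x y = 9 * (y + 2 / 3 * x) ^ 2 / (8 * x ^ 2) := by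
    rw [Q8b.ev_t, Q8b.ev_yb, div_eq_div_iff (mul_ne_zero n8 (pow_ne_zero 2 a4'))
      (mul_ne_zero n8 (pow_ne_zero 2 hx))]
    linear_combination (-72) * k3
  rw [Fin.sum_univ_six]
  show term8b x y =
    (1 : ℕ) • MK4.hk (MK4.sy ((Q8b.f10 .y).ev x y)) (MK4.lg ((Q8b.r' .y).ev x y)) +
    (4 : ℕ) • MK4.hk (MK4.sy ((Q8b.f12 .y).ev x y)) (MK4.lg ((Q8b.r .y).ev x y)) +
    (1 : ℕ) • MK4.hk (MK4.sy ((Q8b.f12 .y).ev x y)) (MK4.lg ((Q8b.t' .y).ev x y)) +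
    (1 : ℕ) • MK4.hk (MK4.sy ((Q8b.f10 Q8b.yb).ev x y)) (MK4.lg ((Q8b.r Q8b.yb).ev x y)) +
    (4 : ℕ) • MK4.hk (MK4.sy ((Q8b.f12 Q8b.yb).ev x y)) (MK4.lg ((Q8b.r' Q8b.yb).ev x y)) +
    (1 : ℕ) • MK4.hk (MK4.sy ((Q8b.f12 Q8b.yb).ev x y)) (MK4.lg ((Q8b.t Q8b.yb).ev x y))
  rw [F10, F12, G10, G12, R1', R1, T1', R2, R2', T2]
  have linv : ∀ z : F, MK4.lg z⁻¹ = -MK4.lg z := fun z => TN.lginv z
  rw [linv, linv, linv, term8b]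
  simp only [TN.hk_neg_right]
  module

/-- **The regulator of the class is not zero.** -/
theorem rz8bx [CharZero k] (φ : k →+* ℝ) (h : Gen (2 / 9 : k) (2 / 3) x y)
    (htop : IntermediateField.adjoin k {x, y} = ⊤) :
    RZ φ x y Q8b.circ.X Q8b.circ.Y (xi8b x y) := by
  have : CharZero F := charZero_of_injective_algebraMap (algebraMap k F).injective
  have key := Q8b.rz8b φ h htop
  have h12 : (2 / 9 : k) ≠ 0 := by norm_num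
  have e12k : ((2 / 9 : ℚ) : k) = 2 / 9 := by norm_num
  have e4k : ((2 / 3 : ℚ) : k) = 2 / 3 := by norm_num
  have hg : ∀ n, Gen ((2 / 9 : ℚ) : k) ((2 / 3 : ℚ) : k) (It (2 / 9 : F) n (x, y)).1
      (It (2 / 9 : F) n (x, y)).2 := by
    intro n
    have := gen_It h12 h n
    rw [map_div₀, map_ofNat, map_ofNat] at this
    rw [e12k, e4k]
    exact this
  have e : xi8b x y = ∑ j : Fin 8, ∑ m : Fin 6, Q8b.w8 m •
      MK4.hk (MK4.sy ((Q8b.f8 m).ev (It (2 / 9 : F) j.val (x, y)).1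
        (It (2 / 9 : F) j.val (x, y)).2))
      (MK4.lg ((Q8b.u8 m).ev (It (2 / 9 : F) j.val (x, y)).1
        (It (2 / 9 : F) j.val (x, y)).2)) := by
    unfold xi8b
    exact Finset.sum_congr rfl fun j _ => term8b_eq (hg _)
  have e2 := Fintype.sum_prod_type (fun i : Fin 8 × Fin 6 => (Q8b.w8 i.2 •
    MK4.hk (MK4.sy ((Q8b.f8 i.2).ev (It (2 / 9 : F) i.1.val (x, y)).1
      (It (2 / 9 : F) i.1.val (x, y)).2))
      (MK4.lg ((Q8b.u8 i.2).ev (It (2 / 9 : F) i.1.val (x, y)).1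
      (It (2 / 9 : F) i.1.val (x, y)).2)) : MK4.HK F))
  rw [← e2] at e
  exact key.of_eq e

/-- **The regulator of the class is not zero.** -/
theorem rz_xi8b [CharZero k] (φ : k →+* ℝ) (h : Gen (2 / 9 : k) (2 / 3) x y)
    (htop : IntermediateField.adjoin k {x, y} = ⊤) : FK4.RegNe φ (xi8b x y) := by
  have h' : Gen ((2 / 9 : ℚ) : k) ((2 / 3 : ℚ) : k) x y := by
    push_cast
    exact h
  exact (rz8bx φ h htop).regNe (Xp_tendsto _) h' htop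

/-- **The class is not a combination of symbols of constants.** -/
theorem nv_xi8b [CharZero k] (φ : k →+* ℝ) (h : Gen (2 / 9 : k) (2 / 3) x y)
    (htop : IntermediateField.adjoin k {x, y} = ⊤) : xi8b x y ∉ TN.KC k F :=
  fun hm => (rz8bx φ h htop).not_mem (mem_span_of_KC hm)

end

end Pool.Agent.K4N
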