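import Pool.Agent.Lib_helper2.K4N.Q8

set_option autoImplicit false
set_option linter.unusedSimpArgs false
set_option linter.unusedSectionVars false

/-!
The nonvanishing of the class for points of order eight at `d = 2` (`b = 3`, `c = 3 / 2`).
-/

namespace Pool.Agent.K4N

open Filter Topology Pool.Agent.TN
open scoped TensorProduct

namespace Q8

/-- the reflected ordinate -/
def yb : Q2 := .c 3 + .c (1 / 2) * .x - .y
/-- `3/(3-x)` -/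
def fB0 : Q2 := .c 3 / (.c 3 - .x)
/-- `x/(2x-3)` -/
def fB1 : Q2 := .x / (.c 2 * .x - .c 3)
/-- the degree two functions -/
def f10 : Q2 := (.c 4 * .x - .c 2 * .y - .c 3) / (.x + .y - .c 3)
/-- the degree two functions -/
def f12 : Q2 := (.y - .x) / (.x + .y - .c 3)
/-- the reflected functions -/
def g10 : Q2 := (.c 3 * .x + .c 2 * .y - .c 9) / (.c (3 / 2) * .x - .y)
/-- the reflected functions -/
def g12 : Q2 := (.c 3 - .c (1 / 2) * .x - .y) / (.c (3 / 2) * .x - .y)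
/-- the odd units -/
def uB0 : Q2 := ((yb * yb * yb) * ((.y - .c (3 / 2) * .x) * (.y - .c (3 / 2) * .x) *
  (.y - .c (3 / 2) * .x)) * (.y - .x)) / ((.y * .y * .y) * ((.c 3 - .x - .y) * (.c 3 - .x - .y) *
  (.c 3 - .x - .y)) * (.c 3 - .c (1 / 2) * .x - .y))
/-- the odd units -/
def uB1 : Q2 := ((.y * .y) * (.y - .x)) / ((yb * yb) * (.c 3 - .c (1 / 2) * .x - .y))
/-- `x/2` -/
def v1 : Q2 := .x / .c 2
/-- `2/x` -/
def v1' : Q2 := .c 2 / .x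
/-- `(2x-3)/(x-3)` -/
def v2 : Q2 := (.c 2 * .x - .c 3) / (.x - .c 3)
/-- `(x-3)/(2x-3)` -/
def v2' : Q2 := (.x - .c 3) / (.c 2 * .x - .c 3)

section ev
variable {K : Type*} [Field K] [CharZero K] (u v : K)

lemma ev_yb : yb.ev u v = 3 + 1 / 2 * u - v := by
  simp only [yb, Q2.ev_sub, Q2.ev_add, Q2.ev_mul, Q2.ev_c, Q2.ev_x, Q2.ev_y]
  push_cast
  rfl
lemma ev_fB0 : fB0.ev u v = 3 / (3 - u) := by
  simp only [fB0, Q2.ev_sub, Q2.ev_div, Q2.ev_c, Q2.ev_x]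
  push_cast
  rfl
lemma ev_fB1 : fB1.ev u v = u / (2 * u - 3) := by
  simp only [fB1, Q2.ev_sub, Q2.ev_mul, Q2.ev_div, Q2.ev_c, Q2.ev_x]
  push_cast
  rfl
lemma ev_f10 : f10.ev u v = (4 * u - 2 * v - 3) / (u + v - 3) := by
  simp only [f10, Q2.ev_sub, Q2.ev_add, Q2.ev_mul, Q2.ev_div, Q2.ev_c, Q2.ev_x, Q2.ev_y]
  push_cast
  rfl
lemma ev_f12 : f12.ev u v = (v - u) / (u + v - 3) := by
  simp only [f12, Q2.ev_sub, Q2.ev_add, Q2.ev_mul, Q2.ev_div, Q2.ev_c, Q2.ev_x, Q2.ev_y]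
  push_cast
  rfl
lemma ev_g10 : g10.ev u v = (3 * u + 2 * v - 9) / (3 / 2 * u - v) := by
  simp only [g10, Q2.ev_sub, Q2.ev_add, Q2.ev_mul, Q2.ev_div, Q2.ev_c, Q2.ev_x, Q2.ev_y]
  push_cast
  rfl
lemma ev_g12 : g12.ev u v = (3 - 1 / 2 * u - v) / (3 / 2 * u - v) := by
  simp only [g12, Q2.ev_sub, Q2.ev_add, Q2.ev_mul, Q2.ev_div, Q2.ev_c, Q2.ev_x, Q2.ev_y]
  push_cast
  rfl
lemma ev_uB0 : uB0.ev u v = ((3 + 1 / 2 * u - v) ^ 3 * (v - 3 / 2 * u) ^ 3 * (v - u)) /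
    (v ^ 3 * (3 - u - v) ^ 3 * (3 - 1 / 2 * u - v)) := by
  simp only [uB0, ev_yb, Q2.ev_sub, Q2.ev_add, Q2.ev_mul, Q2.ev_div, Q2.ev_c, Q2.ev_x, Q2.ev_y]
  push_cast
  congr 1 <;> ring
lemma ev_uB1 : uB1.ev u v = (v ^ 2 * (v - u)) /
    ((3 + 1 / 2 * u - v) ^ 2 * (3 - 1 / 2 * u - v)) := by
  simp only [uB1, ev_yb, Q2.ev_sub, Q2.ev_add, Q2.ev_mul, Q2.ev_div, Q2.ev_c, Q2.ev_x, Q2.ev_y]
  push_cast
  congr 1 <;> ring
lemma ev_v1 : v1.ev u v = u / 2 := by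
  simp only [v1, Q2.ev_div, Q2.ev_c, Q2.ev_x]
  push_cast
  rfl
lemma ev_v1' : v1'.ev u v = 2 / u := by
  simp only [v1', Q2.ev_div, Q2.ev_c, Q2.ev_x]
  push_cast
  rfl
lemma ev_v2 : v2.ev u v = (2 * u - 3) / (u - 3) := by
  simp only [v2, Q2.ev_sub, Q2.ev_mul, Q2.ev_div, Q2.ev_c, Q2.ev_x]
  push_cast
  rfl
lemma ev_v2' : v2'.ev u v = (u - 3) / (2 * u - 3) := by
  simp only [v2', Q2.ev_sub, Q2.ev_mul, Q2.ev_div, Q2.ev_c, Q2.ev_x]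
  push_cast
  rfl

end ev

section dv

variable {U V : ℝ}

lemma d_B0 : Q2.dv ((3 : ℚ) : ℝ) ((3 / 2 : ℚ) : ℝ) fB0 U V =
    3 * (2 * V - 1 / 2 * U - 3) / (3 - U) ^ 2 := by
  simp only [fB0, Q2.dv_div, Q2.dv_sub, Q2.dv_c, Q2.dv_x, Q2.ev_sub, Q2.ev_c, Q2.ev_x]
  push_cast
  congr 1
  ring

lemma d_B1 : Q2.dv ((3 : ℚ) : ℝ) ((3 / 2 : ℚ) : ℝ) fB1 U V =
    -(3 * (2 * V - 1 / 2 * U - 3) / (2 * U - 3) ^ 2) := by
  simp only [fB1, Q2.dv_div, Q2.dv_sub, Q2.dv_mul, Q2.dv_c, Q2.dv_x, Q2.ev_sub, Q2.ev_mul,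
    Q2.ev_c, Q2.ev_x]
  push_cast
  rw [← neg_div]
  congr 1
  ring

lemma d_10 (he : V ^ 2 - 1 / 2 * U * V - 3 * V = U ^ 3 - 3 * U ^ 2) :
    Q2.dv ((3 : ℚ) : ℝ) ((3 / 2 : ℚ) : ℝ) f10 U V =
    -(6 * (U ^ 3 - 9 / 2 * U ^ 2 + 33 / 4 * U - 9 / 2 - 3 / 4 * V) / (U + V - 3) ^ 2) := by
  simp only [f10, Q2.dv_div, Q2.dv_sub, Q2.dv_add, Q2.dv_mul, Q2.dv_c, Q2.dv_x, Q2.dv_y,
    Q2.ev_sub, Q2.ev_add, Q2.ev_mul, Q2.ev_c, Q2.ev_x, Q2.ev_y]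
  push_cast
  rw [← neg_div]
  congr 1
  linear_combination 12 * he

lemma d_12 (he : V ^ 2 - 1 / 2 * U * V - 3 * V = U ^ 3 - 3 * U ^ 2) :
    Q2.dv ((3 : ℚ) : ℝ) ((3 / 2 : ℚ) : ℝ) f12 U V =
    2 * (U ^ 3 - 9 / 2 * U ^ 2 + 33 / 4 * U - 9 / 2 - 3 / 4 * V) / (U + V - 3) ^ 2 := by
  simp only [f12, Q2.dv_div, Q2.dv_sub, Q2.dv_add, Q2.dv_mul, Q2.dv_c, Q2.dv_x, Q2.dv_y,
    Q2.ev_sub, Q2.ev_add, Q2.ev_mul, Q2.ev_c, Q2.ev_x, Q2.ev_y]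
  push_cast
  congr 1
  linear_combination (-4) * he

lemma d_g10 (he : V ^ 2 - 1 / 2 * U * V - 3 * V = U ^ 3 - 3 * U ^ 2) :
    Q2.dv ((3 : ℚ) : ℝ) ((3 / 2 : ℚ) : ℝ) g10 U V =
    6 * (U ^ 3 - 9 / 2 * U ^ 2 + 33 / 4 * U - 9 / 2 - 3 / 4 * (3 + 1 / 2 * U - V)) /
      (3 / 2 * U - V) ^ 2 := by
  simp only [g10, Q2.dv_div, Q2.dv_sub, Q2.dv_add, Q2.dv_mul, Q2.dv_c, Q2.dv_x, Q2.dv_y,
    Q2.ev_sub, Q2.ev_add, Q2.ev_mul, Q2.ev_c, Q2.ev_x, Q2.ev_y]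
  push_cast
  congr 1
  linear_combination (-12) * he

lemma d_g12 (he : V ^ 2 - 1 / 2 * U * V - 3 * V = U ^ 3 - 3 * U ^ 2) :
    Q2.dv ((3 : ℚ) : ℝ) ((3 / 2 : ℚ) : ℝ) g12 U V =
    -(2 * (U ^ 3 - 9 / 2 * U ^ 2 + 33 / 4 * U - 9 / 2 - 3 / 4 * (3 + 1 / 2 * U - V)) /
      (3 / 2 * U - V) ^ 2) := by
  simp only [g12, Q2.dv_div, Q2.dv_sub, Q2.dv_add, Q2.dv_mul, Q2.dv_c, Q2.dv_x, Q2.dv_y,
    Q2.ev_sub, Q2.ev_add, Q2.ev_mul, Q2.ev_c, Q2.ev_x, Q2.ev_y]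
  push_cast
  rw [← neg_div]
  congr 1
  linear_combination 4 * he

end dv

section fam

/-- the functions -/
def f8 : Fin 14 → Q2 := ![fB0, fB1, f10, f10, f10, f12, f12, f12, g10, g10, g10, g12, g12, g12]
/-- the units -/
def u8 : Fin 14 → Q2 := ![uB0, uB1, v1, v1, v2, v1', v2', v2', v1', v1', v2', v1, v2, v2]
/-- the multiplicities -/
def w8 : Fin 14 → ℕ := ![2, 2, 1, 4, 1, 1, 4, 1, 1, 4, 1, 1, 4, 1]
/-- the translates for the functions -/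
def a8 : Fin 14 → ℕ := ![1, 1, 0, 0, 0, 0, 0, 0, 0, 0, 0, 0, 0, 0]
/-- the translates for the units -/
def l8 : Fin 14 → ℕ := ![1, 1, 2, 6, 6, 0, 2, 4, 6, 2, 2, 0, 6, 4]

/-- the nonvanishing functions -/
def nz8 : List Q2 := [.c 3 - .x, .c 2 * .x - .c 3, .x + .y - .c 3, .c (3 / 2) * .x - .y,
  .c 2 * .y - .c (1 / 2) * .x - .c 3, .y, .y - .x, .c 3 + .c (1 / 2) * .x - .y,
  .c 3 - .c (1 / 2) * .x - .y]

variable {k F : Type*} [Field k] [Field F] [Algebra k F] {x y : F}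

lemma nz8_ne [CharZero k] [CharZero F] (h : Gen (((3 : ℚ)) : k) ((3 / 2 : ℚ) : k) x y) :
    3 - x ≠ 0 ∧ 2 * x - 3 ≠ 0 ∧ x + y - 3 ≠ 0 ∧ 3 / 2 * x - y ≠ 0 ∧
    2 * y - 1 / 2 * x - 3 ≠ 0 ∧ y ≠ 0 ∧ y - x ≠ 0 ∧ 3 + 1 / 2 * x - y ≠ 0 ∧
    3 - 1 / 2 * x - y ≠ 0 := by
  have h1 := h.xc_ne 3
  have h2 := h.xc_ne (3 / 2)
  have h3 := h.yab_ne 1 (-3)
  have h4 := h.yab_ne (-3 / 2) 0
  have h5 := h.yab_ne (-1 / 4) (-3 / 2)
  have h7 := h.yab_ne (-1) 0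
  have h8 := h.yab_ne (-1 / 2) (-3)
  have h9 := h.yab_ne (1 / 2) (-3)
  simp only [map_neg, map_one, map_zero, map_ofNat, map_div₀] at h1 h2 h3 h4 h5 h7 h8 h9
  refine ⟨fun e => h1 ?_, fun e => h2 ?_, fun e => h3 ?_, fun e => h4 ?_, fun e => h5 ?_, h.y_ne,
    fun e => h7 ?_, fun e => h8 ?_, fun e => h9 ?_⟩
  · linear_combination -e
  · linear_combination (1 / 2) * e
  · linear_combination e
  · linear_combination -e
  · linear_combination (1 / 2) * e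
  · linear_combination e
  · linear_combination -e
  · linear_combination -e

lemma nz8_ne' [CharZero k] [CharZero F] (h : Gen (((3 : ℚ)) : k) ((3 / 2 : ℚ) : k) x y) :
    4 * x - 2 * y - 3 ≠ 0 ∧ 3 * x + 2 * y - 9 ≠ 0 ∧ x - 2 ≠ 0 := by
  have h1 := h.yab_ne (-2) (3 / 2)
  have h2 := h.yab_ne (3 / 2) (-9 / 2)
  have h3 := h.xc_ne 2
  simp only [map_neg, map_one, map_zero, map_ofNat, map_div₀] at h1 h2 h3
  refine ⟨fun e => h1 ?_, fun e => h2 ?_, h3⟩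
  · linear_combination (-1 / 2) * e
  · linear_combination (1 / 2) * e

lemma real8 (U V : ℝ) (hnz : ∀ e ∈ nz8, e.ev U V ≠ 0) :
    3 - U ≠ 0 ∧ 2 * U - 3 ≠ 0 ∧ U + V - 3 ≠ 0 ∧ 3 / 2 * U - V ≠ 0 ∧
    2 * V - 1 / 2 * U - 3 ≠ 0 ∧ V ≠ 0 ∧ V - U ≠ 0 ∧ 3 + 1 / 2 * U - V ≠ 0 ∧
    3 - 1 / 2 * U - V ≠ 0 := by
  simp only [nz8, List.mem_cons, List.not_mem_nil, or_false, forall_eq_or_imp, forall_eq,
    Q2.ev_x, Q2.ev_y, Q2.ev_c, Q2.ev_sub, Q2.ev_add, Q2.ev_mul] at hnz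
  push_cast at hnz
  exact hnz

/-- a product of signs -/
lemma sg {κ ψ D L : ℝ} (hκ : 0 ≤ κ) (h : ψ * L ≤ 0) : κ * ψ / D ^ 2 * L ≤ 0 := by
  have e : κ * ψ / D ^ 2 * L = κ / D ^ 2 * (ψ * L) := by ring
  rw [e]
  exact mul_nonpos_of_nonneg_of_nonpos (div_nonneg hκ (sq_nonneg D)) h

lemma sg' {κ ψ D L : ℝ} (hκ : 0 ≤ κ) (h : 0 ≤ ψ * L) : -(κ * ψ / D ^ 2) * L ≤ 0 := by
  have e : -(κ * ψ / D ^ 2) * L = -(κ / D ^ 2 * (ψ * L)) := by ring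
  rw [e, neg_nonpos]
  exact mul_nonneg (div_nonneg hκ (sq_nonneg D)) h

theorem rz8a [CharZero k] (φ : k →+* ℝ) (h : Gen (3 : k) (3 / 2) x y)
    (htop : IntermediateField.adjoin k {x, y} = ⊤) : RZ φ x y circ8.X circ8.Y (
    ∑ i : Fin 4 × Fin 14, w8 i.2 • K4M.hk (K4M.sy ((f8 i.2).ev
        (It (3 : F) (2 * i.1.val + a8 i.2) (x, y)).1
        (It (3 : F) (2 * i.1.val + a8 i.2) (x, y)).2))
      (K4M.lg ((u8 i.2).ev (It (3 : F) ((2 * i.1.val + l8 i.2) % 8) (x, y)).1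
        (It (3 : F) ((2 * i.1.val + l8 i.2) % 8) (x, y)).2))) := by
  have : CharZero F := charZero_of_injective_algebraMap (algebraMap k F).injective
  have e3k : ((3 : ℚ) : k) = 3 := by norm_num
  have e2k : ((3 / 2 : ℚ) : k) = 3 / 2 := by norm_num
  have e3F : ((3 : ℚ) : F) = 3 := by norm_num
  have e2R : ((3 / 2 : ℚ) : ℝ) = 3 / 2 := by norm_num
  have e3R : ((3 : ℚ) : ℝ) = 3 := by norm_num
  have h' : Gen ((3 : ℚ) : k) ((3 / 2 : ℚ) : k) x y := by rw [e3k, e2k]; exact h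
  have heq : ∀ {U V : ℝ}, V ^ 2 + (1 - ((3 / 2 : ℚ) : ℝ)) * U * V - ((3 : ℚ) : ℝ) * V =
      U ^ 3 - ((3 : ℚ) : ℝ) * U ^ 2 → V ^ 2 - 1 / 2 * U * V - 3 * V = U ^ 3 - 3 * U ^ 2 := by
    intro U V he
    rw [e3R, e2R] at he
    linear_combination he
  have key := eng3R φ 3 (3 / 2) (by norm_num) h' htop C8 circ8
    (fun i : Fin 4 × Fin 14 => f8 i.2) (fun i => u8 i.2) (fun i => 2 * i.1.val + a8 i.2)
    (fun i => (2 * i.1.val + l8 i.2) % 8) (fun i => w8 i.2) nz8 ?_ ?_ ?_ ?_ ?_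
    (0, 1) rfl (by decide) ?_
  · rw [e3F] at key
    exact key
  · intro x' y' hg
    simp only [nz8, List.mem_cons, List.not_mem_nil, or_false, forall_eq_or_imp, forall_eq,
      Q2.ev_x, Q2.ev_y, Q2.ev_c, Q2.ev_sub, Q2.ev_add, Q2.ev_mul]
    have := nz8_ne hg
    push_cast
    exact this
  · intro x' y' hg i
    obtain ⟨a1, a2, a3, a4, a5, a6, a7, a8', a9⟩ := nz8_ne hg
    obtain ⟨b1, b2, b3⟩ := nz8_ne' hg
    have a0 := hg.x_ne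
    have a1' : x' - 3 ≠ 0 := fun e => a1 (by linear_combination -e)
    have a4' : y' - 3 / 2 * x' ≠ 0 := fun e => a4 (by linear_combination -e)
    have a3' : 3 - x' - y' ≠ 0 := fun e => a3 (by linear_combination -e)
    have n2 : (2 : F) ≠ 0 := two_ne_zero
    have n3 : (3 : F) ≠ 0 := three_ne_zero
    have cB0 : fB0.ev x' y' ≠ 0 ∧ fB0.ev x' y' ≠ 1 := by
      rw [ev_fB0]
      refine ⟨div_ne_zero n3 a1, fun e => a0 ?_⟩
      rw [div_eq_one_iff_eq a1] at e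
      linear_combination e
    have cB1 : fB1.ev x' y' ≠ 0 ∧ fB1.ev x' y' ≠ 1 := by
      rw [ev_fB1]
      refine ⟨div_ne_zero a0 a2, fun e => a1 ?_⟩
      rw [div_eq_one_iff_eq a2] at e
      linear_combination e
    have c10 : f10.ev x' y' ≠ 0 ∧ f10.ev x' y' ≠ 1 := by
      rw [ev_f10]
      refine ⟨div_ne_zero b1 a3, fun e => a7 ?_⟩
      rw [div_eq_one_iff_eq a3] at e
      linear_combination (-1 / 3) * e
    have c12 : f12.ev x' y' ≠ 0 ∧ f12.ev x' y' ≠ 1 := by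
      rw [ev_f12]
      refine ⟨div_ne_zero a7 a3, fun e => a2 ?_⟩
      rw [div_eq_one_iff_eq a3] at e
      linear_combination -e
    have d10 : g10.ev x' y' ≠ 0 ∧ g10.ev x' y' ≠ 1 := by
      rw [ev_g10]
      refine ⟨div_ne_zero b2 a4, fun e => a9 ?_⟩
      rw [div_eq_one_iff_eq a4] at e
      linear_combination (-1 / 3) * e
    have d12 : g12.ev x' y' ≠ 0 ∧ g12.ev x' y' ≠ 1 := by
      rw [ev_g12]
      refine ⟨div_ne_zero a9 a4, fun e => a2 ?_⟩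
      rw [div_eq_one_iff_eq a4] at e
      linear_combination -e
    have cu0 : uB0.ev x' y' ≠ 0 := by
      rw [ev_uB0]
      exact div_ne_zero (mul_ne_zero (mul_ne_zero (pow_ne_zero 3 a8') (pow_ne_zero 3 a4')) a7)
        (mul_ne_zero (mul_ne_zero (pow_ne_zero 3 a6) (pow_ne_zero 3 a3')) a9)
    have cu1 : uB1.ev x' y' ≠ 0 := by
      rw [ev_uB1]
      exact div_ne_zero (mul_ne_zero (pow_ne_zero 2 a6) a7)
        (mul_ne_zero (pow_ne_zero 2 a8') a9)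
    have cv1 : v1.ev x' y' ≠ 0 := by rw [ev_v1]; exact div_ne_zero a0 n2
    have cv1' : v1'.ev x' y' ≠ 0 := by rw [ev_v1']; exact div_ne_zero n2 a0
    have cv2 : v2.ev x' y' ≠ 0 := by rw [ev_v2]; exact div_ne_zero a2 a1'
    have cv2' : v2'.ev x' y' ≠ 0 := by rw [ev_v2']; exact div_ne_zero a1' a2
    obtain ⟨i, m⟩ := i
    fin_cases m
    · exact ⟨cB0.1, cB0.2, cu0⟩
    · exact ⟨cB1.1, cB1.2, cu1⟩
    · exact ⟨c10.1, c10.2, cv1⟩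
    · exact ⟨c10.1, c10.2, cv1⟩
    · exact ⟨c10.1, c10.2, cv2⟩
    · exact ⟨c12.1, c12.2, cv1'⟩
    · exact ⟨c12.1, c12.2, cv2'⟩
    · exact ⟨c12.1, c12.2, cv2'⟩
    · exact ⟨d10.1, d10.2, cv1'⟩
    · exact ⟨d10.1, d10.2, cv1'⟩
    · exact ⟨d10.1, d10.2, cv2'⟩
    · exact ⟨d12.1, d12.2, cv1⟩
    · exact ⟨d12.1, d12.2, cv2⟩
    · exact ⟨d12.1, d12.2, cv2⟩
  · intro i U V hnz
    obtain ⟨a1, a2, a3, a4, a5, a6, a7, a8', a9⟩ := real8 U V hnz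
    have o0 : fB0.ok U V := by
      refine ⟨trivial, ⟨trivial, trivial⟩, ?_⟩
      show ((3 : ℚ) : ℝ) - U ≠ 0
      rw [e3R]; exact a1
    have o1 : fB1.ok U V := by
      refine ⟨trivial, ⟨⟨trivial, trivial⟩, trivial⟩, ?_⟩
      show ((2 : ℚ) : ℝ) * U - ((3 : ℚ) : ℝ) ≠ 0
      push_cast; exact a2
    have o2 : f10.ok U V := by
      refine ⟨⟨⟨⟨trivial, trivial⟩, ⟨trivial, trivial⟩⟩, trivial⟩, ⟨⟨trivial, trivial⟩, trivial⟩, ?_⟩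
      show U + V - ((3 : ℚ) : ℝ) ≠ 0
      rw [e3R]; exact a3
    have o3 : f12.ok U V := by
      refine ⟨⟨trivial, trivial⟩, ⟨⟨trivial, trivial⟩, trivial⟩, ?_⟩
      show U + V - ((3 : ℚ) : ℝ) ≠ 0
      rw [e3R]; exact a3
    have o4 : g10.ok U V := by
      refine ⟨⟨⟨⟨trivial, trivial⟩, ⟨trivial, trivial⟩⟩, trivial⟩, ⟨⟨trivial, trivial⟩, trivial⟩, ?_⟩
      show ((3 / 2 : ℚ) : ℝ) * U - V ≠ 0
      rw [e2R]; exact a4
    have o5 : g12.ok U V := by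
      refine ⟨⟨⟨trivial, ⟨trivial, trivial⟩⟩, trivial⟩, ⟨⟨trivial, trivial⟩, trivial⟩, ?_⟩
      show ((3 / 2 : ℚ) : ℝ) * U - V ≠ 0
      rw [e2R]; exact a4
    obtain ⟨i, m⟩ := i
    fin_cases m
    · exact o0
    · exact o1
    · exact o2
    · exact o2
    · exact o2
    · exact o3
    · exact o3
    · exact o3
    · exact o4
    · exact o4
    · exact o4
    · exact o5
    · exact o5
    · exact o5
  · intro n U V he hU hnz hC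
    have h1 := comp8 (heq he) hU hC (((3 : ℚ) : ℝ) ^ 2 * (U ^ 2 - V) / U ^ 3)
    rw [← e3R] at h1
    exact h1
  · intro i U V U' V' he hU hnz hC he' hU' hnz' hC' hjl
    replace he := heq he
    replace he' := heq he'
    -- terms on the oval
    have odd : ∀ j : ℕ, C8 (2 * j + 1) U V → U < 2 := fun j hc => hc.2 (by
      rw [Nat.even_add_one, not_not]; exact even_two_mul j)
    have even : ∀ (j n : ℕ) {A B : ℝ}, C8 ((2 * j + 2 * n) % 8) A B → 2 ≤ A := fun j n A B hc =>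
      hc.1 (by
        have : (2 * j + 2 * n) % 8 = 2 * ((j + n) % 4) := by omega
        rw [this]; exact even_two_mul _)
    have even0 : ∀ (j : ℕ) {A B : ℝ}, C8 (2 * j + 0) A B → 2 ≤ A := fun j A B hc =>
      hc.1 (by rw [add_zero]; exact even_two_mul _)
    have T0 : U < 2 → fB0.dv ((3 : ℚ) : ℝ) ((3 / 2 : ℚ) : ℝ) U V *
        Real.log (uB0.ev U V) ≤ 0 := fun hlt => by
      rw [d_B0, ev_uB0]
      exact sg (by norm_num) (tB0 he hlt)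
    have T1 : U < 2 → fB1.dv ((3 : ℚ) : ℝ) ((3 / 2 : ℚ) : ℝ) U V *
        Real.log (uB1.ev U V) ≤ 0 := fun hlt => by
      obtain ⟨a1, a2, a3, a4, a5, a6, a7, a8', a9⟩ := real8 U V hnz
      rw [d_B1, ev_uB1]
      exact sg' (by norm_num) (tB1 he hlt a5 a6 a7 a8' a9).le
    have S10 : ∀ L : ℝ, 2 ≤ U → 0 ≤ L → f10.dv ((3 : ℚ) : ℝ) ((3 / 2 : ℚ) : ℝ) U V * L ≤ 0 := by
      intro L hU2 hL
      rw [d_10 he]
      exact sg' (by norm_num) (mul_nonneg (lam8 he hU2).1 hL)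
    have S12 : ∀ L : ℝ, 2 ≤ U → L ≤ 0 → f12.dv ((3 : ℚ) : ℝ) ((3 / 2 : ℚ) : ℝ) U V * L ≤ 0 := by
      intro L hU2 hL
      rw [d_12 he]
      exact sg (by norm_num) (mul_nonpos_of_nonneg_of_nonpos (lam8 he hU2).1 hL)
    have R10 : ∀ L : ℝ, 2 ≤ U → L ≤ 0 → g10.dv ((3 : ℚ) : ℝ) ((3 / 2 : ℚ) : ℝ) U V * L ≤ 0 := by
      intro L hU2 hL
      rw [d_g10 he]
      exact sg (by norm_num) (mul_nonpos_of_nonneg_of_nonpos (lam8 he hU2).2 hL)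
    have R12 : ∀ L : ℝ, 2 ≤ U → 0 ≤ L → g12.dv ((3 : ℚ) : ℝ) ((3 / 2 : ℚ) : ℝ) U V * L ≤ 0 := by
      intro L hU2 hL
      rw [d_g12 he]
      exact sg' (by norm_num) (mul_nonneg (lam8 he hU2).2 hL)
    have W1 : 2 ≤ U' → 0 ≤ Real.log (v1.ev U' V') := fun hh => by
      rw [ev_v1]; exact (un8 hh).1
    have W1' : 2 ≤ U' → Real.log (v1'.ev U' V') ≤ 0 := fun hh => by
      rw [ev_v1']; exact (un8 hh).2.1
    have W2 : 2 ≤ U' → 0 ≤ Real.log (v2.ev U' V') := fun hh => by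
      rw [ev_v2]; exact (un8 hh).2.2.1
    have W2' : 2 ≤ U' → Real.log (v2'.ev U' V') ≤ 0 := fun hh => by
      rw [ev_v2']; exact (un8 hh).2.2.2
    obtain ⟨⟨i, hi⟩, m⟩ := i
    have hmod : (2 * i + 1) % 8 = 2 * i + 1 := by omega
    fin_cases m
    · obtain ⟨rfl, rfl⟩ := hjl hmod.symm
      exact T0 (odd i hC)
    · obtain ⟨rfl, rfl⟩ := hjl hmod.symm
      exact T1 (odd i hC)
    · exact S10 _ (even0 i hC) (W1 (even i 1 hC'))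
    · exact S10 _ (even0 i hC) (W1 (even i 3 hC'))
    · exact S10 _ (even0 i hC) (W2 (even i 3 hC'))
    · exact S12 _ (even0 i hC) (W1' (even i 0 hC'))
    · exact S12 _ (even0 i hC) (W2' (even i 1 hC'))
    · exact S12 _ (even0 i hC) (W2' (even i 2 hC'))
    · exact R10 _ (even0 i hC) (W1' (even i 3 hC'))
    · exact R10 _ (even0 i hC) (W1' (even i 1 hC'))
    · exact R10 _ (even0 i hC) (W2' (even i 1 hC'))
    · exact R12 _ (even0 i hC) (W1 (even i 0 hC'))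
    · exact R12 _ (even0 i hC) (W2 (even i 3 hC'))
    · exact R12 _ (even0 i hC) (W2 (even i 2 hC'))
  · intro U V he hU hnz hC
    obtain ⟨a1, a2, a3, a4, a5, a6, a7, a8', a9⟩ := real8 U V hnz
    replace he := heq he
    have hlt : U < 2 := hC.2 (by decide)
    show fB1.dv ((3 : ℚ) : ℝ) ((3 / 2 : ℚ) : ℝ) U V * Real.log (uB1.ev U V) < 0
    rw [d_B1, ev_uB1]
    have h1 := tB1 he hlt a5 a6 a7 a8' a9
    have e : ∀ L : ℝ, -(3 * (2 * V - 1 / 2 * U - 3) / (2 * U - 3) ^ 2) * L =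
        -(3 / (2 * U - 3) ^ 2 * ((2 * V - 1 / 2 * U - 3) * L)) := fun L => by ring
    rw [e]
    exact neg_neg_of_pos (mul_pos (div_pos (by norm_num) (by positivity)) h1)

theorem nv8a [CharZero k] (φ : k →+* ℝ) (h : Gen (3 : k) (3 / 2) x y)
    (htop : IntermediateField.adjoin k {x, y} = ⊤) :
    ∑ i : Fin 4 × Fin 14, w8 i.2 • K4M.hk (K4M.sy ((f8 i.2).ev
        (It (3 : F) (2 * i.1.val + a8 i.2) (x, y)).1
        (It (3 : F) (2 * i.1.val + a8 i.2) (x, y)).2))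
      (K4M.lg ((u8 i.2).ev (It (3 : F) ((2 * i.1.val + l8 i.2) % 8) (x, y)).1
        (It (3 : F) ((2 * i.1.val + l8 i.2) % 8) (x, y)).2)) ∉
      Submodule.span ℚ {z : K4M.HK F | ∃ (c : k) (u : K4M.FT F),
        z = K4M.hk (K4M.sy (algebraMap k F c)) u} :=
  (rz8a φ h htop).not_mem

end fam

end Q8

end Pool.Agent.K4N
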