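import Pool.Agent.Lib_helper2.K4N.Q8N

set_option autoImplicit false
set_option linter.unusedSectionVars false

/-!
The class for points of order eight at `d = 2` (`b = 3`, `c = 3 / 2`).
-/

namespace Pool.Agent.K4N

open Pool.Agent.TN
open scoped TensorProduct

section

variable {k F : Type*} [Field k] [Field F] [Algebra k F] {x y : F}

/-- the terms at an odd translate -/
noncomputable def term8o (x y : F) : MK4.HK F :=
  (2 : ℚ) • MK4.hk (MK4.sy (-3 / (x - 3)))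
      (MK4.lg (x ^ 2 * (y - 3 / 2 * x) ^ 6 * (y - x) ^ 2 /
        ((x - 3 / 2) ^ 4 * (x - 2) * y ^ 6))) +
    (2 : ℚ) • MK4.hk (MK4.sy (x / (2 * (x - 3 / 2))))
      (MK4.lg (y ^ 4 * (y - x) ^ 2 / (x ^ 5 * (x - 3) ^ 2 * (x - 3 / 2) * (x - 2))))

/-- the terms at an even translate -/
noncomputable def term8e (x y x2 x4 x6 : F) : MK4.HK F :=
  MK4.hk (MK4.sy (-(2 * (y - 3 / 2 * x) * (y - x) ^ 2) / (x * (x - 3 / 2) * (x - 2) * y)))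
      (MK4.lg (x2 / 2 * (x6 / 2) ^ 4 * (2 * (x6 - 3 / 2) / (x6 - 3)))) -
    MK4.hk (MK4.sy ((y - 3 / 2 * x) * (y - x) / (x * (x - 3) * (x - 3 / 2))))
      (MK4.lg (x / 2 * (2 * (x2 - 3 / 2) / (x2 - 3)) ^ 4 * (2 * (x4 - 3 / 2) / (x4 - 3)))) -
    MK4.hk (MK4.sy (-(2 * (x - 3 / 2) ^ 2 * (x - 2) * y) / ((y - 3 / 2 * x) * (y - x) ^ 2)))
      (MK4.lg (x6 / 2 * (x2 / 2) ^ 4 * (2 * (x2 - 3 / 2) / (x2 - 3)))) +
    MK4.hk (MK4.sy (x * (x - 3 / 2) * (x - 2) / ((y - 3 / 2 * x) * (y - x))))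
      (MK4.lg (x / 2 * (2 * (x6 - 3 / 2) / (x6 - 3)) ^ 4 * (2 * (x4 - 3 / 2) / (x4 - 3))))

/-- the sum over the translates by the multiples of `P` -/
noncomputable def xi8 (x y : F) : MK4.HK F :=
  ∑ j : Fin 4, (term8o (It (3 : F) (2 * j.val + 1) (x, y)).1
      (It (3 : F) (2 * j.val + 1) (x, y)).2 +
    term8e (It (3 : F) (2 * j.val) (x, y)).1 (It (3 : F) (2 * j.val) (x, y)).2
      (It (3 : F) ((2 * j.val + 2) % 8) (x, y)).1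
      (It (3 : F) ((2 * j.val + 4) % 8) (x, y)).1
      (It (3 : F) ((2 * j.val + 6) % 8) (x, y)).1)

lemma nz8' [CharZero k] [CharZero F] (h : Gen ((3 : ℚ) : k) ((3 / 2 : ℚ) : k) x y) :
    x ≠ 0 ∧ x - 3 ≠ 0 ∧ x - 3 / 2 ≠ 0 ∧ x - 2 ≠ 0 ∧ y ≠ 0 ∧ y - 3 / 2 * x ≠ 0 ∧ y - x ≠ 0 ∧
      y ^ 2 - 1 / 2 * x * y - 3 * y = x ^ 3 - 3 * x ^ 2 := by
  obtain ⟨a1, a2, a3, a4, a5, a6, a7, a8, a9⟩ := Q8.nz8_ne h
  obtain ⟨b1, b2, b3⟩ := Q8.nz8_ne' h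
  refine ⟨h.x_ne, fun e => a1 (by linear_combination -e), fun e => a2 (by linear_combination 2 * e),
    b3, a6, fun e => a4 (by linear_combination -e), a7, ?_⟩
  have := h.eq
  simp only [map_ratCast] at this
  push_cast at this
  linear_combination this

lemma lgu {u v : F} (e : u = v) : MK4.lg u = MK4.lg v := by rw [e]

lemma lg_yb (hx : x ≠ 0) (h3 : x - 3 ≠ 0) (hy : y ≠ 0) [CharZero F]
    (he : y ^ 2 - 1 / 2 * x * y - 3 * y = x ^ 3 - 3 * x ^ 2) :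
    MK4.lg (3 + 1 / 2 * x - y) = (2 : ℚ) • MK4.lg x + MK4.lg (x - 3) - MK4.lg y := by
  have e : 3 + 1 / 2 * x - y = -(x ^ 2 * (x - 3)) / y := by
    rw [eq_div_iff hy]; linear_combination -he
  rw [e, TN.lgdiv (neg_ne_zero.mpr (mul_ne_zero (pow_ne_zero 2 hx) h3)) hy, TN.lgneg,
    TN.lgmul (pow_ne_zero 2 hx) h3, TN.lgpow hx]
  push_cast
  rfl

lemma lg_y2 (hx : x ≠ 0) (h3 : x - 3 ≠ 0) (hh : x - 3 / 2 ≠ 0) (hy : y - 3 / 2 * x ≠ 0)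
    [CharZero F] (he : y ^ 2 - 1 / 2 * x * y - 3 * y = x ^ 3 - 3 * x ^ 2) :
    MK4.lg (3 - x - y) = MK4.lg x + MK4.lg (x - 3 / 2) + MK4.lg (x - 3) -
      MK4.lg (y - 3 / 2 * x) := by
  have e : 3 - x - y = -(x * (x - 3 / 2) * (x - 3)) / (y - 3 / 2 * x) := by
    rw [eq_div_iff hy]; linear_combination -he
  rw [e, TN.lgdiv (neg_ne_zero.mpr (mul_ne_zero (mul_ne_zero hx hh) h3)) hy, TN.lgneg,
    TN.lgmul (mul_ne_zero hx hh) h3, TN.lgmul hx hh]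

lemma lg_y3 (hx : x ≠ 0) (h2 : x - 2 ≠ 0) (hh : x - 3 / 2 ≠ 0) (hy : y - x ≠ 0)
    [CharZero F] (he : y ^ 2 - 1 / 2 * x * y - 3 * y = x ^ 3 - 3 * x ^ 2) :
    MK4.lg (3 - 1 / 2 * x - y) = MK4.lg x + MK4.lg (x - 2) + MK4.lg (x - 3 / 2) -
      MK4.lg (y - x) := by
  have e : 3 - 1 / 2 * x - y = -(x * (x - 2) * (x - 3 / 2)) / (y - x) := by
    rw [eq_div_iff hy]; linear_combination -he
  rw [e, TN.lgdiv (neg_ne_zero.mpr (mul_ne_zero (mul_ne_zero hx h2) hh)) hy, TN.lgneg,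
    TN.lgmul (mul_ne_zero hx h2) hh, TN.lgmul hx h2]

lemma term8o_eq [CharZero k] [CharZero F] (h : Gen ((3 : ℚ) : k) ((3 / 2 : ℚ) : k) x y) :
    term8o x y = (2 : ℕ) • MK4.hk (MK4.sy (Q8.fB0.ev x y)) (MK4.lg (Q8.uB0.ev x y)) +
      (2 : ℕ) • MK4.hk (MK4.sy (Q8.fB1.ev x y)) (MK4.lg (Q8.uB1.ev x y)) := by
  obtain ⟨hx, h3, hh, h2, hy, hy2, hy3, he⟩ := nz8' h
  have n2 : (2 : F) ≠ 0 := two_ne_zero
  have a3 : 3 - x - y ≠ 0 := fun e => (Q8.nz8_ne h).2.2.1 (by linear_combination -e)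
  obtain ⟨-, -, -, -, -, -, -, a8, a9⟩ := Q8.nz8_ne h
  have f0 : Q8.fB0.ev x y = -3 / (x - 3) := by
    rw [Q8.ev_fB0, ← neg_div_neg_eq, neg_sub]
  have f1 : Q8.fB1.ev x y = x / (2 * (x - 3 / 2)) := by
    rw [Q8.ev_fB1]
    congr 1
    ring
  have e1 : MK4.lg (x ^ 2 * (y - 3 / 2 * x) ^ 6 * (y - x) ^ 2 /
        ((x - 3 / 2) ^ 4 * (x - 2) * y ^ 6)) = MK4.lg (Q8.uB0.ev x y) := by
    rw [Q8.ev_uB0, TN.lgdiv (mul_ne_zero (mul_ne_zero (pow_ne_zero 2 hx) (pow_ne_zero 6 hy2))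
        (pow_ne_zero 2 hy3)) (mul_ne_zero (mul_ne_zero (pow_ne_zero 4 hh) h2) (pow_ne_zero 6 hy)),
      TN.lgmul (mul_ne_zero (pow_ne_zero 2 hx) (pow_ne_zero 6 hy2)) (pow_ne_zero 2 hy3),
      TN.lgmul (pow_ne_zero 2 hx) (pow_ne_zero 6 hy2), TN.lgpow hx, TN.lgpow hy2, TN.lgpow hy3,
      TN.lgmul (mul_ne_zero (pow_ne_zero 4 hh) h2) (pow_ne_zero 6 hy),
      TN.lgmul (pow_ne_zero 4 hh) h2, TN.lgpow hh, TN.lgpow hy,
      TN.lgdiv (mul_ne_zero (mul_ne_zero (pow_ne_zero 3 a8) (pow_ne_zero 3 hy2)) hy3)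
        (mul_ne_zero (mul_ne_zero (pow_ne_zero 3 hy) (pow_ne_zero 3 a3)) a9),
      TN.lgmul (mul_ne_zero (pow_ne_zero 3 a8) (pow_ne_zero 3 hy2)) hy3,
      TN.lgmul (pow_ne_zero 3 a8) (pow_ne_zero 3 hy2), TN.lgpow a8, TN.lgpow hy2,
      TN.lgmul (mul_ne_zero (pow_ne_zero 3 hy) (pow_ne_zero 3 a3)) a9,
      TN.lgmul (pow_ne_zero 3 hy) (pow_ne_zero 3 a3), TN.lgpow hy, TN.lgpow a3,
      lg_yb hx h3 hy he, lg_y2 hx h3 hh hy2 he, lg_y3 hx h2 hh hy3 he]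
    push_cast
    module
  have e2 : MK4.lg (y ^ 4 * (y - x) ^ 2 / (x ^ 5 * (x - 3) ^ 2 * (x - 3 / 2) * (x - 2))) =
      MK4.lg (Q8.uB1.ev x y) := by
    rw [Q8.ev_uB1, TN.lgdiv (mul_ne_zero (pow_ne_zero 4 hy) (pow_ne_zero 2 hy3))
        (mul_ne_zero (mul_ne_zero (mul_ne_zero (pow_ne_zero 5 hx) (pow_ne_zero 2 h3)) hh) h2),
      TN.lgmul (pow_ne_zero 4 hy) (pow_ne_zero 2 hy3), TN.lgpow hy, TN.lgpow hy3,
      TN.lgmul (mul_ne_zero (mul_ne_zero (pow_ne_zero 5 hx) (pow_ne_zero 2 h3)) hh) h2,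
      TN.lgmul (mul_ne_zero (pow_ne_zero 5 hx) (pow_ne_zero 2 h3)) hh,
      TN.lgmul (pow_ne_zero 5 hx) (pow_ne_zero 2 h3), TN.lgpow hx, TN.lgpow h3,
      TN.lgdiv (mul_ne_zero (pow_ne_zero 2 hy) hy3) (mul_ne_zero (pow_ne_zero 2 a8) a9),
      TN.lgmul (pow_ne_zero 2 hy) hy3, TN.lgpow hy, TN.lgmul (pow_ne_zero 2 a8) a9,
      TN.lgpow a8, lg_yb hx h3 hy he, lg_y3 hx h2 hh hy3 he]
    push_cast
    module
  rw [term8o, e1, e2, f0, f1]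
  module

lemma term8e_eq [CharZero k] [CharZero F] {y2 x2 y4 x4 y6 x6 : F}
    (h : Gen ((3 : ℚ) : k) ((3 / 2 : ℚ) : k) x y)
    (g2 : Gen ((3 : ℚ) : k) ((3 / 2 : ℚ) : k) x2 y2)
    (g4 : Gen ((3 : ℚ) : k) ((3 / 2 : ℚ) : k) x4 y4)
    (g6 : Gen ((3 : ℚ) : k) ((3 / 2 : ℚ) : k) x6 y6) :
    term8e x y x2 x4 x6 =
      MK4.hk (MK4.sy (Q8.f10.ev x y)) (MK4.lg (Q8.v1.ev x2 y2)) +
      (4 : ℕ) • MK4.hk (MK4.sy (Q8.f10.ev x y)) (MK4.lg (Q8.v1.ev x6 y6)) +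
      MK4.hk (MK4.sy (Q8.f10.ev x y)) (MK4.lg (Q8.v2.ev x6 y6)) +
      MK4.hk (MK4.sy (Q8.f12.ev x y)) (MK4.lg (Q8.v1'.ev x y)) +
      (4 : ℕ) • MK4.hk (MK4.sy (Q8.f12.ev x y)) (MK4.lg (Q8.v2'.ev x2 y2)) +
      MK4.hk (MK4.sy (Q8.f12.ev x y)) (MK4.lg (Q8.v2'.ev x4 y4)) +
      MK4.hk (MK4.sy (Q8.g10.ev x y)) (MK4.lg (Q8.v1'.ev x6 y6)) +
      (4 : ℕ) • MK4.hk (MK4.sy (Q8.g10.ev x y)) (MK4.lg (Q8.v1'.ev x2 y2)) +
      MK4.hk (MK4.sy (Q8.g10.ev x y)) (MK4.lg (Q8.v2'.ev x2 y2)) +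
      MK4.hk (MK4.sy (Q8.g12.ev x y)) (MK4.lg (Q8.v1.ev x y)) +
      (4 : ℕ) • MK4.hk (MK4.sy (Q8.g12.ev x y)) (MK4.lg (Q8.v2.ev x6 y6)) +
      MK4.hk (MK4.sy (Q8.g12.ev x y)) (MK4.lg (Q8.v2.ev x4 y4)) := by
  obtain ⟨hx, h3, hh, h2, hy, hy2, hy3, he⟩ := nz8' h
  obtain ⟨p0, p3, ph, -⟩ := nz8' g2
  obtain ⟨q0, q3, qh, -⟩ := nz8' g4
  obtain ⟨r0, r3, rh, -⟩ := nz8' g6
  obtain ⟨a1, a2, a3, a4, a5, a6, a7, a8, a9⟩ := Q8.nz8_ne h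
  have n2 : (2 : F) ≠ 0 := two_ne_zero
  have f10 : Q8.f10.ev x y =
      -(2 * (y - 3 / 2 * x) * (y - x) ^ 2) / (x * (x - 3 / 2) * (x - 2) * y) := by
    rw [Q8.ev_f10, div_eq_div_iff a3 (mul_ne_zero (mul_ne_zero (mul_ne_zero hx hh) h2) hy)]
    linear_combination ((3) * x + (-4) * x * y + (2) * y ^ 2) * he
  have f12 : Q8.f12.ev x y = (y - 3 / 2 * x) * (y - x) / (x * (x - 3) * (x - 3 / 2)) := by
    rw [Q8.ev_f12, div_eq_div_iff a3 (mul_ne_zero (mul_ne_zero hx h3) hh)]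
    linear_combination ((1) * x + (-1) * y) * he
  have g10 : Q8.g10.ev x y =
      -(2 * (x - 3 / 2) ^ 2 * (x - 2) * y) / ((y - 3 / 2 * x) * (y - x) ^ 2) := by
    rw [Q8.ev_g10, div_eq_div_iff a4 (mul_ne_zero hy2 (pow_ne_zero 2 hy3))]
    linear_combination ((9 / 2) * x + (-3) * y + (-3) * x * y + (2) * y ^ 2) * he
  have g12 : Q8.g12.ev x y = x * (x - 3 / 2) * (x - 2) / ((y - 3 / 2 * x) * (y - x)) := by
    rw [Q8.ev_g12, div_eq_div_iff a4 (mul_ne_zero hy2 hy3)]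
    linear_combination ((3 / 2) * x + (-1) * y) * he
  have v2e : ∀ {a b : F}, a - 3 ≠ 0 → a - 3 / 2 ≠ 0 →
      MK4.lg (Q8.v2.ev a b) = MK4.lg (2 * (a - 3 / 2) / (a - 3)) := by
    intro a b _ _
    rw [Q8.ev_v2]
    congr 2
    ring
  have v2e' : ∀ {a b : F}, a - 3 ≠ 0 → a - 3 / 2 ≠ 0 →
      MK4.lg (Q8.v2'.ev a b) = -MK4.lg (2 * (a - 3 / 2) / (a - 3)) := by
    intro a b h1 h2
    have e : Q8.v2'.ev a b = (2 * (a - 3 / 2) / (a - 3))⁻¹ := by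
      rw [Q8.ev_v2', inv_div]
      congr 1
      ring
    rw [e]
    exact TN.lginv _
  have v1e : ∀ {a b : F}, MK4.lg (Q8.v1.ev a b) = MK4.lg (a / 2) := by
    intro a b
    rw [Q8.ev_v1]
  have v1e' : ∀ {a b : F}, a ≠ 0 → MK4.lg (Q8.v1'.ev a b) = -MK4.lg (a / 2) := by
    intro a b h1
    have e : Q8.v1'.ev a b = (a / 2)⁻¹ := by rw [Q8.ev_v1', inv_div]
    rw [e]
    exact TN.lginv _
  have V : ∀ {a : F}, a - 3 ≠ 0 → a - 3 / 2 ≠ 0 → 2 * (a - 3 / 2) / (a - 3) ≠ 0 :=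
    fun h1 h2 => div_ne_zero (mul_ne_zero n2 h2) h1
  have W : ∀ {a : F}, a ≠ 0 → a / 2 ≠ 0 := fun h1 => div_ne_zero h1 n2
  rw [term8e, f10, f12, g10, g12, v1e, v1e, v2e r3 rh, v1e' hx, v2e' p3 ph, v2e' q3 qh, v1e' r0,
    v1e' p0, v1e, v2e q3 qh,
    TN.lgmul (mul_ne_zero (W p0) (pow_ne_zero 4 (W r0))) (V r3 rh),
    TN.lgmul (W p0) (pow_ne_zero 4 (W r0)), TN.lgpow (W r0),
    TN.lgmul (mul_ne_zero (W hx) (pow_ne_zero 4 (V p3 ph))) (V q3 qh),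
    TN.lgmul (W hx) (pow_ne_zero 4 (V p3 ph)), TN.lgpow (V p3 ph),
    TN.lgmul (mul_ne_zero (W r0) (pow_ne_zero 4 (W p0))) (V p3 ph),
    TN.lgmul (W r0) (pow_ne_zero 4 (W p0)), TN.lgpow (W p0),
    TN.lgmul (mul_ne_zero (W hx) (pow_ne_zero 4 (V r3 rh))) (V q3 qh),
    TN.lgmul (W hx) (pow_ne_zero 4 (V r3 rh)), TN.lgpow (V r3 rh)]
  generalize MK4.lg (x / 2) = A0
  generalize MK4.lg (x2 / 2) = A2
  generalize MK4.lg (x6 / 2) = A6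
  generalize MK4.lg (2 * (x2 - 3 / 2) / (x2 - 3)) = B2
  generalize MK4.lg (2 * (x4 - 3 / 2) / (x4 - 3)) = B4
  generalize MK4.lg (2 * (x6 - 3 / 2) / (x6 - 3)) = B6
  push_cast
  simp only [sub_eq_add_neg, TN.hk_add_right, TN.hk_neg_right, TN.hk_smul_right, neg_add, neg_neg]
  module

/-- **The regulator of the class is not zero.** -/
theorem rz8x [CharZero k] (φ : k →+* ℝ) (h : Gen (3 : k) (3 / 2) x y)
    (htop : IntermediateField.adjoin k {x, y} = ⊤) :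
    RZ φ x y circ8.X circ8.Y (xi8 x y) := by
  have : CharZero F := charZero_of_injective_algebraMap (algebraMap k F).injective
  have key := Q8.rz8a φ h htop
  have h3 : (3 : k) ≠ 0 := by norm_num
  have e3k : ((3 : ℚ) : k) = 3 := by norm_num
  have e2k : ((3 / 2 : ℚ) : k) = 3 / 2 := by norm_num
  have hg : ∀ n, Gen ((3 : ℚ) : k) ((3 / 2 : ℚ) : k) (It (3 : F) n (x, y)).1
      (It (3 : F) n (x, y)).2 := by
    intro n
    have := gen_It h3 h n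
    rw [map_ofNat] at this
    rw [e3k, e2k]
    exact this
  have e : xi8 x y = ∑ j : Fin 4, ∑ m : Fin 14, Q8.w8 m • MK4.hk (MK4.sy ((Q8.f8 m).ev
        (It (3 : F) (2 * j.val + Q8.a8 m) (x, y)).1 (It (3 : F) (2 * j.val + Q8.a8 m) (x, y)).2))
      (MK4.lg ((Q8.u8 m).ev (It (3 : F) ((2 * j.val + Q8.l8 m) % 8) (x, y)).1
        (It (3 : F) ((2 * j.val + Q8.l8 m) % 8) (x, y)).2)) := by
    unfold xi8
    refine Finset.sum_congr rfl fun j _ => ?_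
    rw [term8o_eq (hg _), term8e_eq (hg _) (hg ((2 * j.val + 2) % 8)) (hg ((2 * j.val + 4) % 8))
      (hg ((2 * j.val + 6) % 8))]
    have hj : (2 * j.val + 1) % 8 = 2 * j.val + 1 := by omega
    have hj0 : (2 * j.val + 0) % 8 = 2 * j.val := by omega
    simp only [Fin.sum_univ_succ, Fin.sum_univ_zero]
    have n2 : ∀ z : MK4.HK F, (2 : ℕ) • z = (2 : ℕ) • z := fun _ => rfl
    show _ =
      (2 : ℕ) • MK4.hk (MK4.sy (Q8.fB0.ev (It (3 : F) (2 * j.val + 1) (x, y)).1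
          (It (3 : F) (2 * j.val + 1) (x, y)).2))
        (MK4.lg (Q8.uB0.ev (It (3 : F) ((2 * j.val + 1) % 8) (x, y)).1
          (It (3 : F) ((2 * j.val + 1) % 8) (x, y)).2)) +
      ((2 : ℕ) • MK4.hk (MK4.sy (Q8.fB1.ev (It (3 : F) (2 * j.val + 1) (x, y)).1
          (It (3 : F) (2 * j.val + 1) (x, y)).2))
        (MK4.lg (Q8.uB1.ev (It (3 : F) ((2 * j.val + 1) % 8) (x, y)).1
          (It (3 : F) ((2 * j.val + 1) % 8) (x, y)).2)) +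
      ((1 : ℕ) • MK4.hk (MK4.sy (Q8.f10.ev (It (3 : F) (2 * j.val) (x, y)).1
          (It (3 : F) (2 * j.val) (x, y)).2))
        (MK4.lg (Q8.v1.ev (It (3 : F) ((2 * j.val + 2) % 8) (x, y)).1
          (It (3 : F) ((2 * j.val + 2) % 8) (x, y)).2)) +
      ((4 : ℕ) • MK4.hk (MK4.sy (Q8.f10.ev (It (3 : F) (2 * j.val) (x, y)).1
          (It (3 : F) (2 * j.val) (x, y)).2))
        (MK4.lg (Q8.v1.ev (It (3 : F) ((2 * j.val + 6) % 8) (x, y)).1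
          (It (3 : F) ((2 * j.val + 6) % 8) (x, y)).2)) +
      ((1 : ℕ) • MK4.hk (MK4.sy (Q8.f10.ev (It (3 : F) (2 * j.val) (x, y)).1
          (It (3 : F) (2 * j.val) (x, y)).2))
        (MK4.lg (Q8.v2.ev (It (3 : F) ((2 * j.val + 6) % 8) (x, y)).1
          (It (3 : F) ((2 * j.val + 6) % 8) (x, y)).2)) +
      ((1 : ℕ) • MK4.hk (MK4.sy (Q8.f12.ev (It (3 : F) (2 * j.val) (x, y)).1
          (It (3 : F) (2 * j.val) (x, y)).2))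
        (MK4.lg (Q8.v1'.ev (It (3 : F) ((2 * j.val + 0) % 8) (x, y)).1
          (It (3 : F) ((2 * j.val + 0) % 8) (x, y)).2)) +
      ((4 : ℕ) • MK4.hk (MK4.sy (Q8.f12.ev (It (3 : F) (2 * j.val) (x, y)).1
          (It (3 : F) (2 * j.val) (x, y)).2))
        (MK4.lg (Q8.v2'.ev (It (3 : F) ((2 * j.val + 2) % 8) (x, y)).1
          (It (3 : F) ((2 * j.val + 2) % 8) (x, y)).2)) +
      ((1 : ℕ) • MK4.hk (MK4.sy (Q8.f12.ev (It (3 : F) (2 * j.val) (x, y)).1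
          (It (3 : F) (2 * j.val) (x, y)).2))
        (MK4.lg (Q8.v2'.ev (It (3 : F) ((2 * j.val + 4) % 8) (x, y)).1
          (It (3 : F) ((2 * j.val + 4) % 8) (x, y)).2)) +
      ((1 : ℕ) • MK4.hk (MK4.sy (Q8.g10.ev (It (3 : F) (2 * j.val) (x, y)).1
          (It (3 : F) (2 * j.val) (x, y)).2))
        (MK4.lg (Q8.v1'.ev (It (3 : F) ((2 * j.val + 6) % 8) (x, y)).1
          (It (3 : F) ((2 * j.val + 6) % 8) (x, y)).2)) +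
      ((4 : ℕ) • MK4.hk (MK4.sy (Q8.g10.ev (It (3 : F) (2 * j.val) (x, y)).1
          (It (3 : F) (2 * j.val) (x, y)).2))
        (MK4.lg (Q8.v1'.ev (It (3 : F) ((2 * j.val + 2) % 8) (x, y)).1
          (It (3 : F) ((2 * j.val + 2) % 8) (x, y)).2)) +
      ((1 : ℕ) • MK4.hk (MK4.sy (Q8.g10.ev (It (3 : F) (2 * j.val) (x, y)).1
          (It (3 : F) (2 * j.val) (x, y)).2))
        (MK4.lg (Q8.v2'.ev (It (3 : F) ((2 * j.val + 2) % 8) (x, y)).1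
          (It (3 : F) ((2 * j.val + 2) % 8) (x, y)).2)) +
      ((1 : ℕ) • MK4.hk (MK4.sy (Q8.g12.ev (It (3 : F) (2 * j.val) (x, y)).1
          (It (3 : F) (2 * j.val) (x, y)).2))
        (MK4.lg (Q8.v1.ev (It (3 : F) ((2 * j.val + 0) % 8) (x, y)).1
          (It (3 : F) ((2 * j.val + 0) % 8) (x, y)).2)) +
      ((4 : ℕ) • MK4.hk (MK4.sy (Q8.g12.ev (It (3 : F) (2 * j.val) (x, y)).1
          (It (3 : F) (2 * j.val) (x, y)).2))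
        (MK4.lg (Q8.v2.ev (It (3 : F) ((2 * j.val + 6) % 8) (x, y)).1
          (It (3 : F) ((2 * j.val + 6) % 8) (x, y)).2)) +
      ((1 : ℕ) • MK4.hk (MK4.sy (Q8.g12.ev (It (3 : F) (2 * j.val) (x, y)).1
          (It (3 : F) (2 * j.val) (x, y)).2))
        (MK4.lg (Q8.v2.ev (It (3 : F) ((2 * j.val + 4) % 8) (x, y)).1
          (It (3 : F) ((2 * j.val + 4) % 8) (x, y)).2)) + 0)))))))))))))
    rw [hj, hj0]
    simp only [one_smul]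
    abel
  have e2 := Fintype.sum_prod_type (fun i : Fin 4 × Fin 14 => (Q8.w8 i.2 •
    MK4.hk (MK4.sy ((Q8.f8 i.2).ev
        (It (3 : F) (2 * i.1.val + Q8.a8 i.2) (x, y)).1
        (It (3 : F) (2 * i.1.val + Q8.a8 i.2) (x, y)).2))
      (MK4.lg ((Q8.u8 i.2).ev (It (3 : F) ((2 * i.1.val + Q8.l8 i.2) % 8) (x, y)).1
        (It (3 : F) ((2 * i.1.val + Q8.l8 i.2) % 8) (x, y)).2)) : MK4.HK F))
  rw [← e2] at e
  exact key.of_eq e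

/-- **The regulator of the class is not zero.** -/
theorem rz_xi8 [CharZero k] (φ : k →+* ℝ) (h : Gen (3 : k) (3 / 2) x y)
    (htop : IntermediateField.adjoin k {x, y} = ⊤) : FK4.RegNe φ (xi8 x y) := by
  have h' : Gen ((3 : ℚ) : k) ((3 / 2 : ℚ) : k) x y := by
    push_cast
    exact h
  exact (rz8x φ h htop).regNe (Xp_tendsto _) h' htop

/-- **The class is not a combination of symbols of constants.** -/
theorem nv_xi8 [CharZero k] (φ : k →+* ℝ) (h : Gen (3 : k) (3 / 2) x y)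
    (htop : IntermediateField.adjoin k {x, y} = ⊤) : xi8 x y ∉ TN.KC k F :=
  fun hm => (rz8x φ h htop).not_mem (mem_span_of_KC hm)

end

end Pool.Agent.K4N
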