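import Pool.Agent.Lib_helper2.K4N.Q8cB
import Pool.Agent.Lib_helper2.K4N.D8cD
import Pool.Agent.Lib_helper54.FAM.SW

set_option autoImplicit false
set_option linter.unusedVariables false
set_option linter.unusedSectionVars false

/-!
# The regulator for points of order eight, `d = 3/2`
-/

namespace Pool.Agent.K4N.R8c

open Filter Topology Pool.Agent.K4N.LA Pool.Agent.K4N.PC Pool.Agent.KC72 Pool.Agent.TN
open Pool.Agent.AX (El pev)
open scoped TensorProduct

lemma sg : Sg 1 (2 / 3) gs ks SM :=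
  Sg.of_chk (bn := 1) (bd := 1) (cn := 2) (ce := 3) (by norm_num) (by norm_num) (by norm_num)
    (by norm_num) (by decide) cSM

/-- the half arc -/
def H (p : ℝ × ℝ) : Prop := pat (BV gs ks p.1 p.2) = p0 ∧ 33 / 13 < p.1

/-- a point of the arc or its reflection is in the half arc -/
lemma half_or {q : ℝ × ℝ} (hq : Good ((1 : ℚ) : ℝ) ((2 / 3 : ℚ) : ℝ) gs ks [] q)
    (hp : pat (BV gs ks q.1 q.2) = p0) :
    H q ∨ H (It ((1 : ℚ) : ℝ) (1 * 2) (Sn ((1 : ℚ) : ℝ) ((2 / 3 : ℚ) : ℝ) q)) := by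
  rcases lt_or_ge (33 / 13) q.1 with hx | hx
  · exact Or.inl ⟨hp, hx⟩
  right
  have g1 := hq.sig sg
  have hg : (⟨[0, 1], [], 1⟩ : El) ∈ gs := List.mem_cons_self
  have g2 := g1.next tr hg
  have p1 : pat (BV gs ks (Sn ((1 : ℚ) : ℝ) ((2 / 3 : ℚ) : ℝ) q).1
      (Sn ((1 : ℚ) : ℝ) ((2 / 3 : ℚ) : ℝ) q).2) = tpat SM p0 := by
    rw [sg.step q hq, pat_map hq.hB, hp]
  have p2 := step_pat tr g1
  have p3 := step_pat tr g2
  rw [p1] at p2
  rw [p2] at p3
  have e : It ((1 : ℚ) : ℝ) (1 * 2) (Sn ((1 : ℚ) : ℝ) ((2 / 3 : ℚ) : ℝ) q) =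
      Tn ((1 : ℚ) : ℝ) (Tn ((1 : ℚ) : ℝ) (Sn ((1 : ℚ) : ℝ) ((2 / 3 : ℚ) : ℝ) q)) := rfl
  rw [e]
  refine ⟨p3.trans (by decide), ?_⟩
  have hB := hq.hB
  have he := hq.he
  have h0 := hq.h0
  rw [BV_eq] at hp hB
  simp only [List.forall_mem_cons] at hB
  obtain ⟨n0, n1, -, -, n4, -⟩ := hB
  simp only [pat, p0, List.map_cons, List.map_nil, List.cons.injEq, decide_eq_false_iff_not,
    not_lt] at hp
  obtain ⟨q0, q1, -, -, q4, -⟩ := hp
  have m1 := lt_of_le_of_ne q1 (Ne.symm n1)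
  have m4 := lt_of_le_of_ne q4 (Ne.symm n4)
  push_cast at he
  have key := refl_gt he (by linarith) m4 hx
  refine key.trans_le (le_of_eq ?_)
  unfold Tn Sn
  simp only
  push_cast
  generalize q.1 = U at *
  generalize q.2 = V at *
  have e1 : (1 - V - 1 / 3 * U : ℝ) = -V - (1 - 2 / 3) * U + 1 := by ring
  rw [e1]
  have hW : (-V - (1 - 2 / 3) * U + 1 : ℝ) ≠ 0 := by
    intro h
    have h2 : 0 < U ^ 2 * (U - 1) := mul_pos (by positivity) m1
    have h3 : V * (-V - (1 - 2 / 3) * U + 1) = -(U ^ 2 * (U - 1)) := by linear_combination -he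
    rw [h, mul_zero] at h3
    linarith
  field_simp

/-- **The sum of the densities is positive** along any path on the component. -/
theorem pos8c {X Y κ : ℝ → ℝ} {s : ℝ}
    (hp : Path ((1 : ℚ) : ℝ) ((2 / 3 : ℚ) : ℝ) (NQ gs ks sp) 7 X Y κ s) (hC : 3 / 4 < X s) :
    0 < ((L8cs.map (lt kp)).map fun t => t.tri (aL gs ks (X s, Y s))
      (dL ((1 : ℚ) : ℝ) ((2 / 3 : ℚ) : ℝ) gs (κ s) (X s, Y s))).sum := by
  have hg : (⟨[0, 1], [], 1⟩ : El) ∈ gs := List.mem_cons_self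
  have hT : sumTab2 gs.length ((List.map (Tm.act (AM.map Prod.snd)))^[1] (L8cs.map (lt kp))) =
      sumTab2 gs.length (L8cs.map (lt kp)) := cI
  have hS : sumTab2 gs.length ((L8cs.map (lt kp)).map (Tm.act (SM.map Prod.snd))) =
      scl3 (-1) (sumTab2 gs.length (L8cs.map (lt kp))) := cIS
  refine pos_half tr sg hg (k := 1) hT hS (H := H) ?_ (by norm_num) hp ?_
  · intro p κ' hκ hgd hH
    exact half_pos p κ' hκ hgd hH.1 hH.2
  · obtain ⟨n, hn, h1⟩ := reach cR (pat_mem ((hp.ok.self_of_nhds 0 (by norm_num)).eq) hC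
      ((good_of hp).self_of_nhds 0 (by norm_num)).hB)
    have hn' : 2 * n < 7 := by omega
    have hgd := (good_of hp).self_of_nhds _ hn'
    have h2 := (pat_iter tr hp hn').trans h1
    refine ⟨2 * n, ?_⟩
    rw [one_mul]
    rcases half_or ⟨hgd.he, hgd.h0, hgd.hB, by simp⟩ h2 with h | h
    · exact Or.inl h
    · exact Or.inr ⟨2, h⟩

section

variable {k F : Type*} [Field k] [Field F] [Algebra k F] {x y : F}

/-- **The regulator is not zero.** -/
theorem rz8c [CharZero k] (φ : k →+* ℝ) (h : Gen ((1 : ℚ) : k) ((2 / 3 : ℚ) : k) x y)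
    (htop : IntermediateField.adjoin k {x, y} = ⊤) :
    RZ φ x y circ.X circ.Y (KC72.zt (List.ofFn (K8c.G8 x y)) kp L8cs) := by
  have : CharZero F := charZero_of_injective_algebraMap (algebraMap k F).injective
  rw [← BV_G8]
  have he : y ^ 2 + (1 - ((2 / 3 : ℚ) : F)) * x * y - ((1 : ℚ) : F) * y =
      x ^ 3 - ((1 : ℚ) : F) * x ^ 2 := by
    have := h.eq
    rwa [map_ratCast, map_ratCast] at this
  refine rz_zt φ 1 (2 / 3) (by norm_num) h htop circ sp 7 (by norm_num) hden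
    (fun x' y' h' => gen_ne h') (sols he (gen_ne h).1) (fun U V heR hBR => sols heR hBR)
    (by decide) fun X Y κ s hp hC => pos8c hp hC

/-- **The regulator is not zero** for the elements of which the class is a multiple. -/
theorem rn8c_of [CharZero k] (φ : k →+* ℝ) (h : Gen (1 : k) (2 / 3) x y)
    (htop : IntermediateField.adjoin k {x, y} = ⊤) (β : ℚ) (ξ : MK4.HK F)
    (hβ : KC72.zt (List.ofFn (K8c.G8 x y)) kp L8cs - β • ξ ∈ MK4.Cst k F) : FK4.RegNe φ ξ := by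
  have h' : Gen ((1 : ℚ) : k) ((2 / 3 : ℚ) : k) x y := by
    push_cast
    exact h
  rw [← TN.KC_eq] at hβ
  exact ((rz8c φ h' htop).of_smul β (mem_span_of_KC hβ)).regNe (Xp_tendsto _) h' htop

end

end Pool.Agent.K4N.R8c
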