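import Pool.Agent.Lib_helper2.K4N.D8cP
import Pool.Agent.Lib_helper2.K4N.D8cI

set_option autoImplicit false
set_option linter.unusedVariables false
set_option linter.unusedSectionVars false

/-!
# The regulator for points of order eight, `d = 3/2`: the circle, the signs, the half arc
-/

namespace Pool.Agent.K4N.R8c

open Filter Topology Pool.Agent.K4N.LA Pool.Agent.K4N.PC Pool.Agent.KC72 Pool.Agent.TN
open Pool.Agent.AX (El pev)
open scoped TensorProduct

/-- the component of the origin -/
noncomputable def circ : Circ ((1 : ℚ) : ℝ) ((2 / 3 : ℚ) : ℝ) (fun U _ => 3 / 4 < U) := by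
  refine mkCirc _ _ (3 / 4) (-8 / 9) (-4 / 3) _ ?_ ?_ ?_
  · intro x
    push_cast
    ring
  · intro x hx
    nlinarith [mul_nonneg (sub_nonneg.mpr hx) (sub_nonneg.mpr hx)]
  · intro s hs V _
    have : 0 < s ^ 2 := by positivity
    linarith

/-- the pattern of the arc -/
def p0 : List Bool := [false, false, false, false, false, false, false, false, false]

/-- the patterns on the component -/
def pats : List (List Bool) :=
  [[false, false, false, false, false, false, false, false, false],
   [false, true, false, false, false, true, false, false, false],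
   [false, true, false, false, false, true, true, false, false],
   [false, false, false, false, true, true, true, false, false]]

theorem cR : chkReach AM 3 p0 pats = true := by decide +kernel

/-- the values of the generators -/
lemma BV_eq {K : Type*} [Field K] [CharZero K] (U V : K) : BV gs ks U V =
    [U, U - 1, U - 2 / 3, U - 3 / 4, V, V - 2 / 3 * U, V - 1 / 2 * U, 2, 3] := by
  simp only [BV, BE, gs, ks, List.map_cons, List.map_nil, List.cons_append, List.nil_append, El.v,
    pev]
  refine List.cons_eq_cons.mpr ⟨?_, List.cons_eq_cons.mpr ⟨?_, List.cons_eq_cons.mpr ⟨?_,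
    List.cons_eq_cons.mpr ⟨?_, List.cons_eq_cons.mpr ⟨?_, List.cons_eq_cons.mpr ⟨?_,
    List.cons_eq_cons.mpr ⟨?_, List.cons_eq_cons.mpr ⟨?_, List.cons_eq_cons.mpr ⟨?_,
    rfl⟩⟩⟩⟩⟩⟩⟩⟩⟩ <;> push_cast <;> ring

lemma BV_G8 {F : Type*} [Field F] [CharZero F] (x y : F) :
    BV gs ks x y = List.ofFn (K8c.G8 x y) := by
  rw [BV_eq]
  rfl

lemma gen_ne {k F : Type*} [Field k] [CharZero k] [Field F] [Algebra k F] {x y : F}
    (h : Gen ((1 : ℚ) : k) ((2 / 3 : ℚ) : k) x y) :
    (∀ z ∈ BV gs ks x y, z ≠ 0) ∧ ∀ l ∈ sp, pev x l ≠ 0 := by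
  have : CharZero F := charZero_of_injective_algebraMap (algebraMap k F).injective
  constructor
  · rw [BV_G8]
    refine K8c.G8l_ne (k := k) ?_
    have := h
    push_cast at this
    exact this
  · simp [sp]

lemma hden : chkDen gs = true := by decide

/-- the classes -/
lemma sols {K : Type*} [Field K] [CharZero K] {U V : K} (he : V ^ 2 + (1 - ((2 / 3 : ℚ) : K)) * U *
    V - ((1 : ℚ) : K) * V = U ^ 3 - ((1 : ℚ) : K) * U ^ 2)
    (hB : ∀ z ∈ BV gs ks U V, z ≠ 0) : Sols (BV gs ks U V) kp :=
  AX.sols_chk (cv_eq (bn := 1) (bd := 1) (cn := 2) (ce := 3) (by norm_num) (by norm_num) he)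
    (by decide) (BE_d hden) hB cS

/-- the signs on the component -/
lemma pat_mem {U V : ℝ} (he : V ^ 2 + (1 - ((2 / 3 : ℚ) : ℝ)) * U * V - ((1 : ℚ) : ℝ) * V =
    U ^ 3 - ((1 : ℚ) : ℝ) * U ^ 2) (hU : 3 / 4 < U) (hB : ∀ z ∈ BV gs ks U V, z ≠ 0) :
    pat (BV gs ks U V) ∈ pats := by
  rw [BV_eq] at hB ⊢
  push_cast at he
  simp only [List.forall_mem_cons] at hB
  obtain ⟨-, h1, -, h3, h4, h5, h6, -⟩ := hB
  have k1 : V * (V + 1 / 3 * U - 1) = U ^ 2 * (U - 1) := by linear_combination he
  have k2 : (V - 2 / 3 * U) * (V + U - 1) = U * (U - 2 / 3) * (U - 1) := by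
    linear_combination he
  have k3 : (V - 1 / 2 * U) * (V + 5 / 6 * U - 1) = U * (U - 2 / 3) * (U - 3 / 4) := by
    linear_combination he
  have a0 : ¬ (U < 0) := by linarith
  have a2 : ¬ (U - 2 / 3 < 0) := by linarith
  have a3 : ¬ (U - 3 / 4 < 0) := by linarith
  have a7 : ¬ ((2 : ℝ) < 0) := by norm_num
  have a8 : ¬ ((3 : ℝ) < 0) := by norm_num
  have u2 : 0 < U ^ 2 := by positivity
  have u3 : 0 < U * (U - 2 / 3) := mul_pos (by linarith) (by linarith)
  have u4 : 0 < U * (U - 2 / 3) * (U - 3 / 4) := mul_pos u3 (by linarith)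
  rcases lt_or_gt_of_ne h1 with g1 | g1
  · have c1 : V * (V + 1 / 3 * U - 1) < 0 := by
      rw [k1]
      exact mul_neg_of_pos_of_neg u2 g1
    have c2 : (V - 2 / 3 * U) * (V + U - 1) < 0 := by
      rw [k2]
      exact mul_neg_of_pos_of_neg u3 g1
    have a4 : ¬ (V < 0) := by
      intro h
      have : 0 < V * (V + 1 / 3 * U - 1) := mul_pos_of_neg_of_neg h (by linarith)
      linarith
    have a5 : V - 2 / 3 * U < 0 := by
      by_contra h
      push Not at h
      have : 0 ≤ (V - 2 / 3 * U) * (V + U - 1) := mul_nonneg h (by linarith)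
      linarith
    rcases lt_or_gt_of_ne h6 with g6 | g6
    · simp only [pat, List.map_cons, List.map_nil, decide_eq_true g1, decide_eq_true a5,
        decide_eq_true g6, decide_eq_false a0, decide_eq_false a2, decide_eq_false a3,
        decide_eq_false a4, decide_eq_false a7, decide_eq_false a8]
      decide
    · have a6 : ¬ (V - 1 / 2 * U < 0) := by linarith
      simp only [pat, List.map_cons, List.map_nil, decide_eq_true g1, decide_eq_true a5,
        decide_eq_false a0, decide_eq_false a2, decide_eq_false a3, decide_eq_false a4,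
        decide_eq_false a6, decide_eq_false a7, decide_eq_false a8]
      decide
  · have a1 : ¬ (U - 1 < 0) := by linarith
    have c1 : 0 < V * (V + 1 / 3 * U - 1) := by
      rw [k1]
      exact mul_pos u2 g1
    have c2 : 0 < (V - 2 / 3 * U) * (V + U - 1) := by
      rw [k2]
      exact mul_pos u3 g1
    have c3 : 0 < (V - 1 / 2 * U) * (V + 5 / 6 * U - 1) := by
      rw [k3]
      exact u4
    rcases lt_or_gt_of_ne h4 with g4 | g4
    · have a5 : V - 2 / 3 * U < 0 := by linarith
      have a6 : V - 1 / 2 * U < 0 := by linarith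
      simp only [pat, List.map_cons, List.map_nil, decide_eq_true g4, decide_eq_true a5,
        decide_eq_true a6, decide_eq_false a0, decide_eq_false a1, decide_eq_false a2,
        decide_eq_false a3, decide_eq_false a7, decide_eq_false a8]
      decide
    · have a4 : ¬ (V < 0) := by linarith
      have a5 : ¬ (V - 2 / 3 * U < 0) := by
        intro h
        have : (V - 2 / 3 * U) * (V + U - 1) < 0 := mul_neg_of_neg_of_pos h (by linarith)
        linarith
      have a6 : ¬ (V - 1 / 2 * U < 0) := by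
        intro h
        have : (V - 1 / 2 * U) * (V + 5 / 6 * U - 1) < 0 :=
          mul_neg_of_neg_of_pos h (by linarith)
        linarith
      simp only [pat, List.map_cons, List.map_nil, decide_eq_false a0, decide_eq_false a1,
        decide_eq_false a2, decide_eq_false a3, decide_eq_false a4, decide_eq_false a5,
        decide_eq_false a6, decide_eq_false a7, decide_eq_false a8]
      decide

lemma tr : Tr 1 (2 / 3) gs ks AM :=
  Tr.of_chk (bn := 1) (bd := 1) (cn := 2) (ce := 3) (by norm_num) (by norm_num) (by norm_num)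
    (by norm_num) (by decide) cT

/-- positivity on the half arc -/
lemma half_pos (p : ℝ × ℝ) (κ : ℝ) (hκ : 0 < κ)
    (hg : Good ((1 : ℚ) : ℝ) ((2 / 3 : ℚ) : ℝ) gs ks sp p)
    (hp : pat (BV gs ks p.1 p.2) = p0) (hx : 33 / 13 < p.1) :
    0 < ((L8cs.map (lt kp)).map fun t => t.tri (aL gs ks p)
      (dL ((1 : ℚ) : ℝ) ((2 / 3 : ℚ) : ℝ) gs κ p)).sum := by
  have h0 := hg.hB
  rw [BV_eq] at hp h0
  simp only [List.forall_mem_cons] at h0
  obtain ⟨n0, n1, n2, n3, n4, n5, n6, -⟩ := h0
  simp only [pat, p0, List.map_cons, List.map_nil, List.cons.injEq, decide_eq_false_iff_not,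
    not_lt] at hp
  obtain ⟨q0, q1, q2, q3, q4, q5, q6, -⟩ := hp
  have m0 := lt_of_le_of_ne q0 (Ne.symm n0)
  have m1 := lt_of_le_of_ne q1 (Ne.symm n1)
  have m2 := lt_of_le_of_ne q2 (Ne.symm n2)
  have m3 := lt_of_le_of_ne q3 (Ne.symm n3)
  have m4 := lt_of_le_of_ne q4 (Ne.symm n4)
  have m5 := lt_of_le_of_ne q5 (Ne.symm n5)
  have m6 := lt_of_le_of_ne q6 (Ne.symm n6)
  have hb : (1 : ℚ) * ((1 : ℤ) : ℚ) = ((1 : ℤ) : ℚ) := by norm_num
  have hc : (2 / 3 : ℚ) * ((3 : ℤ) : ℚ) = ((2 : ℤ) : ℚ) := by norm_num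
  have hl : chkLin gs = true := by decide
  have hP : arc.chkP gs.length (L8cs.map (lt kp)) = true := cP
  refine Arc.pos hb hc (by norm_num) (by norm_num) hl hP cU cW hκ hg ?_ ?_ ?_
  · rw [BV_eq]
    simp only [List.forall_mem_cons]
    exact ⟨m0, m1, m2, m3, m4, m5, m6, two_pos, three_pos, by simp⟩
  · constructor
    · show ((33 : ℤ) : ℝ) < ((13 : ℤ) : ℝ) * p.1
      push_cast
      linarith
    · show ((0 : ℤ) : ℝ) * p.1 < ((1 : ℤ) : ℝ)
      push_cast
      linarith
  · push_cast
    linarith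

end Pool.Agent.K4N.R8c
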