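import Pool.Agent.Lib_helper2.K4N.Q8cA

set_option autoImplicit false

/-!
# The reflection of the arc
-/

namespace Pool.Agent.K4N.R8c

open Pool.Agent.K4N.PC Pool.Agent.TN

/-- the slope on the arc -/
lemma slope {U V : ℝ} (he : V ^ 2 + (1 - 2 / 3) * U * V - 1 * V = U ^ 3 - 1 * U ^ 2) (h1 : 1 < U)
    (hV : 0 < V) : 2093 / 1000 * (U - 1) < V := by
  by_contra hh
  push Not at hh
  have k1 : V * (V + 1 / 3 * U - 1) = U ^ 2 * (U - 1) := by linear_combination he
  have hU1 : 0 < U - 1 := by linarith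
  have hp : 0 < U ^ 2 * (U - 1) := by positivity
  have h2 : 0 < V + 1 / 3 * U - 1 := by
    rw [← k1] at hp
    exact (pos_iff_pos_of_mul_pos hp).mp hV
  have h3 : V * (V + 1 / 3 * U - 1) ≤
      2093 / 1000 * (U - 1) * (2093 / 1000 * (U - 1) + 1 / 3 * U - 1) :=
    mul_le_mul hh (by linarith) h2.le (by positivity)
  rw [k1] at h3
  have h4 : U ^ 2 ≤ 2093 / 1000 * (2093 / 1000 * (U - 1) + 1 / 3 * U - 1) := by
    refine le_of_mul_le_mul_right ?_ hU1
    linarith
  nlinarith [sq_nonneg (U - 2539 / 1000)]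

/-- the first coordinate of the reflected point -/
lemma refl_gt {U V : ℝ} (he : V ^ 2 + (1 - 2 / 3) * U * V - 1 * V = U ^ 3 - 1 * U ^ 2)
    (h1 : 1 < U) (hV : 0 < V) (hU : U ≤ 33 / 13) :
    33 / 13 < U * (U ^ 2 - (1 - V - 1 / 3 * U)) / (1 - V - 1 / 3 * U) ^ 2 := by
  have hs := slope he h1 hV
  have hU1 : 0 < U - 1 := by linarith
  have hU0 : 0 < U := by linarith
  set W := 1 - V - 1 / 3 * U with hW
  have e1 : V * W = -(U ^ 2 * (U - 1)) := by
    rw [hW]
    linear_combination -he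
  have hW0 : W ≠ 0 := by
    intro h
    rw [h, mul_zero] at e1
    have : 0 < U ^ 2 * (U - 1) := by positivity
    linarith
  have e2 : U * (U ^ 2 - W) / W ^ 2 = (V ^ 2 + 1 / 3 * V * (U - 1) - U * (U - 1) ^ 2) /
      (U - 1) ^ 2 := by
    rw [div_eq_div_iff (pow_ne_zero 2 hW0) (pow_ne_zero 2 hU1.ne')]
    have e3 : W ^ 2 * V ^ 2 = U ^ 4 * (U - 1) ^ 2 := by
      rw [← mul_pow, mul_comm, e1]
      ring
    have e4 : W ^ 2 * V = -(W * (U ^ 2 * (U - 1))) := by
      linear_combination W * e1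
    have hW' : W ^ 2 = W - V * W - 1 / 3 * U * W := by
      rw [hW]
      ring
    linear_combination (-1 : ℝ) * e3 - 1 / 3 * (U - 1) * e4 + U * (U - 1) ^ 2 * hW' -
      U * (U - 1) ^ 2 * e1
  rw [e2, lt_div_iff₀ (by positivity)]
  have h5 : (2093 / 1000 * (U - 1)) ^ 2 < V ^ 2 := by
    have : 0 < 2093 / 1000 * (U - 1) := by positivity
    nlinarith
  have h6 : 2093 / 1000 * (U - 1) * (U - 1) < V * (U - 1) := mul_lt_mul_of_pos_right hs hU1
  have h7 : 0 < (U - 1) ^ 2 := by positivity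
  nlinarith

end Pool.Agent.K4N.R8c
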