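import Pool.Agent.Lib_helper2.K4N.Q7X
import Pool.Agent.Lib_helper2.K4N.Eng2

set_option autoImplicit false
set_option linter.unusedSimpArgs false
set_option linter.unusedSectionVars false

/-!
The class for points of order nine at `d = 2` (`b = 12`, `c = 4`), and its nonvanishing.
-/

namespace Pool.Agent.K4N

open Filter Topology Pool.Agent.TN
open scoped TensorProduct

namespace Q9

/-- a real root of `4x³ - 39x² + 72x + 144` -/
lemma exists_root : ∃ x0 : ℝ, 4 * x0 ^ 3 - 39 * x0 ^ 2 + 72 * x0 + 144 = 0 ∧ x0 ≤ -11 / 10 ∧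
    -6 / 5 ≤ x0 := by
  have hc : ContinuousOn (fun x : ℝ => 4 * x ^ 3 - 39 * x ^ 2 + 72 * x + 144)
      (Set.Icc (-6 / 5) (-11 / 10)) := by
    fun_prop
  have h := intermediate_value_Icc (by norm_num : (-6 / 5 : ℝ) ≤ -11 / 10) hc
  have h0 : (0 : ℝ) ∈ Set.Icc ((fun x : ℝ => 4 * x ^ 3 - 39 * x ^ 2 + 72 * x + 144) (-6 / 5))
      ((fun x : ℝ => 4 * x ^ 3 - 39 * x ^ 2 + 72 * x + 144) (-11 / 10)) := by
    constructor <;> norm_num
  obtain ⟨x0, hx0, hx1⟩ := h h0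
  exact ⟨x0, hx1, hx0.2, hx0.1⟩

/-- the circle -/
noncomputable def circ9 : Circ ((12 : ℚ) : ℝ) ((4 : ℚ) : ℝ) (fun _ _ => True) := by
  refine mkCirc _ _ exists_root.choose (-39 + 4 * exists_root.choose)
    (72 - 39 * exists_root.choose + 4 * exists_root.choose ^ 2) _ ?_ ?_ ?_
  · intro x
    have h := exists_root.choose_spec.1
    push_cast
    linear_combination h
  · intro x hx
    obtain ⟨h1, h2, h3⟩ := exists_root.choose_spec
    generalize exists_root.choose = r at *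
    have e : 16 * (4 * x ^ 2 + (-39 + 4 * r) * x + (72 - 39 * r + 4 * r ^ 2)) =
        (8 * x + (-39 + 4 * r)) ^ 2 + (48 * r ^ 2 - 312 * r - 369) := by ring
    have h4 : 0 < 48 * r ^ 2 - 312 * r - 369 := by nlinarith
    have h5 := sq_nonneg (8 * x + (-39 + 4 * r))
    linarith
  · intro s _ V _
    trivial

/-- the reflected ordinate -/
def yb : Q2 := .c 12 + .c 3 * .x - .y
/-- `4/(4-x)` -/
def f1 : Q2 := .c 4 / (.c 4 - .x)
/-- `6/(6-x)` -/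
def f2 : Q2 := .c 6 / (.c 6 - .x)
/-- `8/(x-4)` -/
def f3 : Q2 := .c 8 / (.x - .c 4)
/-- `(x-12)/(4(x-6))` -/
def f4 : Q2 := (.x - .c 12) / (.c 4 * (.x - .c 6))
/-- the first odd unit -/
def u1 : Q2 := ((.y - .c 4 * .x) * (.c 12 + .x - .y)) / ((.c 12 - .x - .y) * (.y - .c 2 * .x))
/-- its inverse -/
def u1' : Q2 := ((.c 12 - .x - .y) * (.y - .c 2 * .x)) / ((.y - .c 4 * .x) * (.c 12 + .x - .y))
/-- the second odd unit -/
def u2 : Q2 := (yb * (.y - .c 4 * .x)) / (.y * (.c 12 - .x - .y))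
/-- the third odd unit -/
def u3 : Q2 := (.y * (.c 12 - .y)) / (yb * (.y - .c 3 * .x))

section ev
variable {K : Type*} [Field K] [CharZero K] (u v : K)

lemma ev_yb : yb.ev u v = 12 + 3 * u - v := by
  simp only [yb, Q2.ev_sub, Q2.ev_add, Q2.ev_mul, Q2.ev_c, Q2.ev_x, Q2.ev_y]
  push_cast
  rfl
lemma ev_f1 : f1.ev u v = 4 / (4 - u) := by
  simp only [f1, Q2.ev_sub, Q2.ev_div, Q2.ev_c, Q2.ev_x]
  push_cast
  rfl
lemma ev_f2 : f2.ev u v = 6 / (6 - u) := by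
  simp only [f2, Q2.ev_sub, Q2.ev_div, Q2.ev_c, Q2.ev_x]
  push_cast
  rfl
lemma ev_f3 : f3.ev u v = 8 / (u - 4) := by
  simp only [f3, Q2.ev_sub, Q2.ev_div, Q2.ev_c, Q2.ev_x]
  push_cast
  rfl
lemma ev_f4 : f4.ev u v = (u - 12) / (4 * (u - 6)) := by
  simp only [f4, Q2.ev_sub, Q2.ev_mul, Q2.ev_div, Q2.ev_c, Q2.ev_x]
  push_cast
  rfl
lemma ev_u1 : u1.ev u v = ((v - 4 * u) * (12 + u - v)) / ((12 - u - v) * (v - 2 * u)) := by
  simp only [u1, Q2.ev_sub, Q2.ev_add, Q2.ev_mul, Q2.ev_div, Q2.ev_c, Q2.ev_x, Q2.ev_y]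
  push_cast
  rfl
lemma ev_u1' : u1'.ev u v = ((12 - u - v) * (v - 2 * u)) / ((v - 4 * u) * (12 + u - v)) := by
  simp only [u1', Q2.ev_sub, Q2.ev_add, Q2.ev_mul, Q2.ev_div, Q2.ev_c, Q2.ev_x, Q2.ev_y]
  push_cast
  rfl
lemma ev_u2 : u2.ev u v = ((12 + 3 * u - v) * (v - 4 * u)) / (v * (12 - u - v)) := by
  simp only [u2, ev_yb, Q2.ev_sub, Q2.ev_add, Q2.ev_mul, Q2.ev_div, Q2.ev_c, Q2.ev_x, Q2.ev_y]
  push_cast
  rfl
lemma ev_u3 : u3.ev u v = (v * (12 - v)) / ((12 + 3 * u - v) * (v - 3 * u)) := by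
  simp only [u3, ev_yb, Q2.ev_sub, Q2.ev_add, Q2.ev_mul, Q2.ev_div, Q2.ev_c, Q2.ev_x, Q2.ev_y]
  push_cast
  rfl

end ev

section dv

variable {U V : ℝ}

lemma d_f1 : Q2.dv ((12 : ℚ) : ℝ) ((4 : ℚ) : ℝ) f1 U V =
    4 * (2 * V - 3 * U - 12) / (4 - U) ^ 2 := by
  simp only [f1, Q2.dv_div, Q2.dv_sub, Q2.dv_c, Q2.dv_x, Q2.ev_sub, Q2.ev_c, Q2.ev_x]
  push_cast
  congr 1
  ring

lemma d_f2 : Q2.dv ((12 : ℚ) : ℝ) ((4 : ℚ) : ℝ) f2 U V =
    6 * (2 * V - 3 * U - 12) / (6 - U) ^ 2 := by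
  simp only [f2, Q2.dv_div, Q2.dv_sub, Q2.dv_c, Q2.dv_x, Q2.ev_sub, Q2.ev_c, Q2.ev_x]
  push_cast
  congr 1
  ring

lemma d_f3 : Q2.dv ((12 : ℚ) : ℝ) ((4 : ℚ) : ℝ) f3 U V =
    -(8 * (2 * V - 3 * U - 12) / (U - 4) ^ 2) := by
  simp only [f3, Q2.dv_div, Q2.dv_sub, Q2.dv_c, Q2.dv_x, Q2.ev_sub, Q2.ev_c, Q2.ev_x]
  push_cast
  rw [← neg_div]
  congr 1
  ring

lemma d_f4 : Q2.dv ((12 : ℚ) : ℝ) ((4 : ℚ) : ℝ) f4 U V =
    24 * (2 * V - 3 * U - 12) / (4 * (U - 6)) ^ 2 := by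
  simp only [f4, Q2.dv_div, Q2.dv_sub, Q2.dv_mul, Q2.dv_c, Q2.dv_x, Q2.ev_sub, Q2.ev_mul,
    Q2.ev_c, Q2.ev_x]
  push_cast
  congr 1
  ring

lemma s1 (he : V ^ 2 - 3 * U * V - 12 * V = U ^ 3 - 12 * U ^ 2) :
    (2 * V - 3 * U - 12) * Real.log (((V - 4 * U) * (12 + U - V)) /
      ((12 - U - V) * (V - 2 * U))) ≤ 0 := by
  refine psi_log_nonpos (E := 4 * U ^ 2 * (U ^ 2 - 11 * U + 36)) ?_ ?_
  · have : 0 < U ^ 2 - 11 * U + 36 := by nlinarith [sq_nonneg (U - 11 / 2)]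
    positivity
  · linear_combination ((48) * U + (12) * U ^ 2 + (-8) * U * V) * he

lemma s1' (he : V ^ 2 - 3 * U * V - 12 * V = U ^ 3 - 12 * U ^ 2) (hU : U ≠ 0)
    (hψ : 2 * V - 3 * U - 12 ≠ 0) (h1 : V - 4 * U ≠ 0) (h2 : 12 + U - V ≠ 0)
    (h3 : 12 - U - V ≠ 0) (h4 : V - 2 * U ≠ 0) :
    0 < (2 * V - 3 * U - 12) * Real.log (((12 - U - V) * (V - 2 * U)) /
      ((V - 4 * U) * (12 + U - V))) := by
  refine psi_log_pos (E := 4 * U ^ 2 * (U ^ 2 - 11 * U + 36)) hψ (mul_ne_zero h3 h4)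
    (mul_ne_zero h1 h2) ?_ ?_
  · have : 0 < U ^ 2 - 11 * U + 36 := by nlinarith [sq_nonneg (U - 11 / 2)]
    positivity
  · linear_combination ((-48) * U + (-12) * U ^ 2 + (8) * U * V) * he

lemma s2 (he : V ^ 2 - 3 * U * V - 12 * V = U ^ 3 - 12 * U ^ 2) :
    (2 * V - 3 * U - 12) * Real.log (((12 + 3 * U - V) * (V - 4 * U)) /
      (V * (12 - U - V))) ≤ 0 := by
  refine psi_log_nonpos (E := 8 * U ^ 2 * (U ^ 2 - 6 * U + 24)) ?_ ?_
  · have : 0 < U ^ 2 - 6 * U + 24 := by nlinarith [sq_nonneg (U - 3)]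
    positivity
  · linear_combination ((96) * U + (24) * U ^ 2 + (-16) * U * V) * he

lemma s3 (he : V ^ 2 - 3 * U * V - 12 * V = U ^ 3 - 12 * U ^ 2) :
    0 ≤ (2 * V - 3 * U - 12) * Real.log ((V * (12 - V)) /
      ((12 + 3 * U - V) * (V - 3 * U))) := by
  have h := psi_log_nonpos (ψ := -(2 * V - 3 * U - 12)) (A := V * (12 - V))
    (B := (12 + 3 * U - V) * (V - 3 * U)) (E := 3 * U ^ 2 * (2 * U ^ 2 - 15 * U + 36)) ?_ ?_
  · linarith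
  · have : 0 < 2 * U ^ 2 - 15 * U + 36 := by nlinarith [sq_nonneg (U - 15 / 4)]
    positivity
  · linear_combination ((-72) * U + (-18) * U ^ 2 + (12) * U * V) * he

end dv

/-- a product of signs -/
lemma sg {κ ψ D L : ℝ} (hκ : 0 ≤ κ) (h : ψ * L ≤ 0) : κ * ψ / D ^ 2 * L ≤ 0 := by
  have e : κ * ψ / D ^ 2 * L = κ / D ^ 2 * (ψ * L) := by ring
  rw [e]
  exact mul_nonpos_of_nonneg_of_nonpos (div_nonneg hκ (sq_nonneg D)) h

lemma sg' {κ ψ D L : ℝ} (hκ : 0 ≤ κ) (h : 0 ≤ ψ * L) : -(κ * ψ / D ^ 2) * L ≤ 0 := by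
  have e : -(κ * ψ / D ^ 2) * L = -(κ / D ^ 2 * (ψ * L)) := by ring
  rw [e, neg_nonpos]
  exact mul_nonneg (div_nonneg hκ (sq_nonneg D)) h

/-- the functions -/
def f9 : Fin 6 → Q2 := ![f1, f1, f2, f3, f3, f4]
/-- the units -/
def u9 : Fin 6 → Q2 := ![u1, u2, u1, u3, u1', u1]
/-- the multiplicities -/
def w9 : Fin 6 → ℕ := ![2, 3, 2, 2, 4, 4]

/-- the nonvanishing functions -/
def nz9 : List Q2 := [.c 4 - .x, .c 6 - .x, .c 2 * .y - .c 3 * .x - .c 12, .y - .c 4 * .x,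
  .c 12 + .x - .y, .c 12 - .x - .y, .y - .c 2 * .x]

variable {k F : Type*} [Field k] [Field F] [Algebra k F] {x y : F}

lemma nz9_ne [CharZero k] [CharZero F] (h : Gen (((12 : ℚ)) : k) ((4 : ℚ) : k) x y) :
    4 - x ≠ 0 ∧ 6 - x ≠ 0 ∧ 2 * y - 3 * x - 12 ≠ 0 ∧ y - 4 * x ≠ 0 ∧ 12 + x - y ≠ 0 ∧
    12 - x - y ≠ 0 ∧ y - 2 * x ≠ 0 := by
  have h1 := h.xc_ne 4
  have h2 := h.xc_ne 6
  have h3 := h.yab_ne (-3 / 2) (-6)
  have h4 := h.yab_ne (-4) 0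
  have h5 := h.yab_ne (-1) (-12)
  have h6 := h.yab_ne 1 (-12)
  have h7 := h.yab_ne (-2) 0
  simp only [map_neg, map_one, map_zero, map_ofNat, map_div₀] at h1 h2 h3 h4 h5 h6 h7
  refine ⟨fun e => h1 ?_, fun e => h2 ?_, fun e => h3 ?_, fun e => h4 ?_, fun e => h5 ?_,
    fun e => h6 ?_, fun e => h7 ?_⟩
  · linear_combination -e
  · linear_combination -e
  · linear_combination (1 / 2) * e
  · linear_combination e
  · linear_combination -e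
  · linear_combination -e
  · linear_combination e

lemma nz9_ne' [CharZero k] [CharZero F] (h : Gen (((12 : ℚ)) : k) ((4 : ℚ) : k) x y) :
    x - 12 ≠ 0 ∧ y ≠ 0 ∧ 12 + 3 * x - y ≠ 0 ∧ 12 - y ≠ 0 ∧ y - 3 * x ≠ 0 := by
  have h1 := h.xc_ne 12
  have h3 := h.yab_ne (-3) (-12)
  have h4 := h.yab_ne 0 (-12)
  have h5 := h.yab_ne (-3) 0
  simp only [map_neg, map_one, map_zero, map_ofNat, map_div₀] at h1 h3 h4 h5
  refine ⟨h1, h.y_ne, fun e => h3 ?_, fun e => h4 ?_, fun e => h5 ?_⟩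
  · linear_combination -e
  · linear_combination -e
  · linear_combination e

lemma real9 (U V : ℝ) (hnz : ∀ e ∈ nz9, e.ev U V ≠ 0) :
    4 - U ≠ 0 ∧ 6 - U ≠ 0 ∧ 2 * V - 3 * U - 12 ≠ 0 ∧ V - 4 * U ≠ 0 ∧ 12 + U - V ≠ 0 ∧
    12 - U - V ≠ 0 ∧ V - 2 * U ≠ 0 := by
  simp only [nz9, List.mem_cons, List.not_mem_nil, or_false, forall_eq_or_imp, forall_eq,
    Q2.ev_x, Q2.ev_y, Q2.ev_c, Q2.ev_sub, Q2.ev_add, Q2.ev_mul] at hnz
  push_cast at hnz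
  exact hnz

theorem rz9a [CharZero k] (φ : k →+* ℝ) (h : Gen (12 : k) 4 x y)
    (htop : IntermediateField.adjoin k {x, y} = ⊤) : RZ φ x y circ9.X circ9.Y (
    ∑ i : Fin 9 × Fin 6, w9 i.2 • K4M.hk (K4M.sy ((f9 i.2).ev
        (It (12 : F) i.1.val (x, y)).1 (It (12 : F) i.1.val (x, y)).2))
      (K4M.lg ((u9 i.2).ev (It (12 : F) i.1.val (x, y)).1
        (It (12 : F) i.1.val (x, y)).2))) := by
  have : CharZero F := charZero_of_injective_algebraMap (algebraMap k F).injective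
  have e12k : ((12 : ℚ) : k) = 12 := by norm_num
  have e4k : ((4 : ℚ) : k) = 4 := by norm_num
  have e12F : ((12 : ℚ) : F) = 12 := by norm_num
  have e12R : ((12 : ℚ) : ℝ) = 12 := by norm_num
  have e4R : ((4 : ℚ) : ℝ) = 4 := by norm_num
  have e6R : ((6 : ℚ) : ℝ) = 6 := by norm_num
  have h' : Gen ((12 : ℚ) : k) ((4 : ℚ) : k) x y := by rw [e12k, e4k]; exact h
  have heq : ∀ {U V : ℝ}, V ^ 2 + (1 - ((4 : ℚ) : ℝ)) * U * V - ((12 : ℚ) : ℝ) * V =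
      U ^ 3 - ((12 : ℚ) : ℝ) * U ^ 2 → V ^ 2 - 3 * U * V - 12 * V = U ^ 3 - 12 * U ^ 2 := by
    intro U V he
    rw [e12R, e4R] at he
    linear_combination he
  have key := eng3R φ 12 4 (by norm_num) h' htop (fun _ _ _ => True) circ9
    (fun i : Fin 9 × Fin 6 => f9 i.2) (fun i => u9 i.2) (fun i => i.1.val)
    (fun i => i.1.val) (fun i => w9 i.2) nz9 ?_ ?_ ?_ ?_ ?_
    (0, 4) rfl (by decide) ?_
  · rw [e12F] at key
    exact key
  · intro x' y' hg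
    simp only [nz9, List.mem_cons, List.not_mem_nil, or_false, forall_eq_or_imp, forall_eq,
      Q2.ev_x, Q2.ev_y, Q2.ev_c, Q2.ev_sub, Q2.ev_add, Q2.ev_mul]
    have := nz9_ne hg
    push_cast
    exact this
  · intro x' y' hg i
    obtain ⟨a1, a2, a3, a4, a5, a6, a7⟩ := nz9_ne hg
    obtain ⟨b1, b2, b3, b4, b5⟩ := nz9_ne' hg
    have a0 := hg.x_ne
    have a1' : x' - 4 ≠ 0 := fun e => a1 (by linear_combination -e)
    have a2' : x' - 6 ≠ 0 := fun e => a2 (by linear_combination -e)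
    have n4 : (4 : F) ≠ 0 := by norm_num
    have n6 : (6 : F) ≠ 0 := by norm_num
    have n8 : (8 : F) ≠ 0 := by norm_num
    have c1 : f1.ev x' y' ≠ 0 ∧ f1.ev x' y' ≠ 1 := by
      rw [ev_f1]
      refine ⟨div_ne_zero n4 a1, fun e => a0 ?_⟩
      rw [div_eq_one_iff_eq a1] at e
      linear_combination e
    have c2 : f2.ev x' y' ≠ 0 ∧ f2.ev x' y' ≠ 1 := by
      rw [ev_f2]
      refine ⟨div_ne_zero n6 a2, fun e => a0 ?_⟩
      rw [div_eq_one_iff_eq a2] at e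
      linear_combination e
    have c3 : f3.ev x' y' ≠ 0 ∧ f3.ev x' y' ≠ 1 := by
      rw [ev_f3]
      refine ⟨div_ne_zero n8 a1', fun e => b1 ?_⟩
      rw [div_eq_one_iff_eq a1'] at e
      linear_combination -e
    have c4 : f4.ev x' y' ≠ 0 ∧ f4.ev x' y' ≠ 1 := by
      rw [ev_f4]
      refine ⟨div_ne_zero b1 (mul_ne_zero n4 a2'), fun e => a1 ?_⟩
      rw [div_eq_one_iff_eq (mul_ne_zero n4 a2')] at e
      linear_combination (1 / 3) * e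
    have t1 : u1.ev x' y' ≠ 0 := by
      rw [ev_u1]; exact div_ne_zero (mul_ne_zero a4 a5) (mul_ne_zero a6 a7)
    have t1' : u1'.ev x' y' ≠ 0 := by
      rw [ev_u1']; exact div_ne_zero (mul_ne_zero a6 a7) (mul_ne_zero a4 a5)
    have t2 : u2.ev x' y' ≠ 0 := by
      rw [ev_u2]; exact div_ne_zero (mul_ne_zero b3 a4) (mul_ne_zero b2 a6)
    have t3 : u3.ev x' y' ≠ 0 := by
      rw [ev_u3]; exact div_ne_zero (mul_ne_zero b2 b4) (mul_ne_zero b3 b5)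
    obtain ⟨i, m⟩ := i
    fin_cases m
    · exact ⟨c1.1, c1.2, t1⟩
    · exact ⟨c1.1, c1.2, t2⟩
    · exact ⟨c2.1, c2.2, t1⟩
    · exact ⟨c3.1, c3.2, t3⟩
    · exact ⟨c3.1, c3.2, t1'⟩
    · exact ⟨c4.1, c4.2, t1⟩
  · intro i U V hnz
    obtain ⟨a1, a2, a3, a4, a5, a6, a7⟩ := real9 U V hnz
    have o1 : f1.ok U V := by
      refine ⟨trivial, ⟨trivial, trivial⟩, ?_⟩
      show ((4 : ℚ) : ℝ) - U ≠ 0
      rw [e4R]; exact a1
    have o2 : f2.ok U V := by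
      refine ⟨trivial, ⟨trivial, trivial⟩, ?_⟩
      show ((6 : ℚ) : ℝ) - U ≠ 0
      rw [e6R]; exact a2
    have o3 : f3.ok U V := by
      refine ⟨trivial, ⟨trivial, trivial⟩, ?_⟩
      show U - ((4 : ℚ) : ℝ) ≠ 0
      rw [e4R]; exact fun e => a1 (by linear_combination -e)
    have o4 : f4.ok U V := by
      refine ⟨⟨trivial, trivial⟩, ⟨trivial, ⟨trivial, trivial⟩⟩, ?_⟩
      show ((4 : ℚ) : ℝ) * (U - ((6 : ℚ) : ℝ)) ≠ 0
      rw [e4R, e6R]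
      exact mul_ne_zero (by norm_num) fun e => a2 (by linear_combination -e)
    obtain ⟨i, m⟩ := i
    fin_cases m
    · exact o1
    · exact o1
    · exact o2
    · exact o3
    · exact o3
    · exact o4
  · intro n U V he hU hnz hC
    trivial
  · intro i U V U' V' he hU hnz hC he' hU' hnz' hC' hjl
    obtain ⟨rfl, rfl⟩ := hjl rfl
    replace he := heq he
    obtain ⟨a1, a2, a3, a4, a5, a6, a7⟩ := real9 _ _ hnz
    have S1 := s1 he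
    have S1' := (s1' he hU a3 a4 a5 a6 a7).le
    have S2 := s2 he
    have S3 := s3 he
    obtain ⟨i, m⟩ := i
    fin_cases m
    · show f1.dv ((12 : ℚ) : ℝ) ((4 : ℚ) : ℝ) _ _ * Real.log (u1.ev _ _) ≤ 0
      rw [d_f1, ev_u1]
      exact sg (by norm_num) S1
    · show f1.dv ((12 : ℚ) : ℝ) ((4 : ℚ) : ℝ) _ _ * Real.log (u2.ev _ _) ≤ 0
      rw [d_f1, ev_u2]
      exact sg (by norm_num) S2
    · show f2.dv ((12 : ℚ) : ℝ) ((4 : ℚ) : ℝ) _ _ * Real.log (u1.ev _ _) ≤ 0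
      rw [d_f2, ev_u1]
      exact sg (by norm_num) S1
    · show f3.dv ((12 : ℚ) : ℝ) ((4 : ℚ) : ℝ) _ _ * Real.log (u3.ev _ _) ≤ 0
      rw [d_f3, ev_u3]
      exact sg' (by norm_num) S3
    · show f3.dv ((12 : ℚ) : ℝ) ((4 : ℚ) : ℝ) _ _ * Real.log (u1'.ev _ _) ≤ 0
      rw [d_f3, ev_u1']
      exact sg' (by norm_num) S1'
    · show f4.dv ((12 : ℚ) : ℝ) ((4 : ℚ) : ℝ) _ _ * Real.log (u1.ev _ _) ≤ 0
      rw [d_f4, ev_u1]
      exact sg (by norm_num) S1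
  · intro U V he hU hnz hC
    replace he := heq he
    obtain ⟨a1, a2, a3, a4, a5, a6, a7⟩ := real9 _ _ hnz
    have h1 := s1' he hU a3 a4 a5 a6 a7
    show f3.dv ((12 : ℚ) : ℝ) ((4 : ℚ) : ℝ) U V * Real.log (u1'.ev U V) < 0
    rw [d_f3, ev_u1']
    have e : ∀ L : ℝ, -(8 * (2 * V - 3 * U - 12) / (U - 4) ^ 2) * L =
        -(8 / (U - 4) ^ 2 * ((2 * V - 3 * U - 12) * L)) := fun L => by ring
    rw [e]
    have a1' : U - 4 ≠ 0 := fun e => a1 (by linear_combination -e)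
    exact neg_neg_of_pos (mul_pos (div_pos (by norm_num) (by positivity)) h1)

theorem nv9a [CharZero k] (φ : k →+* ℝ) (h : Gen (12 : k) 4 x y)
    (htop : IntermediateField.adjoin k {x, y} = ⊤) :
    ∑ i : Fin 9 × Fin 6, w9 i.2 • K4M.hk (K4M.sy ((f9 i.2).ev
        (It (12 : F) i.1.val (x, y)).1 (It (12 : F) i.1.val (x, y)).2))
      (K4M.lg ((u9 i.2).ev (It (12 : F) i.1.val (x, y)).1
        (It (12 : F) i.1.val (x, y)).2)) ∉
      Submodule.span ℚ {z : K4M.HK F | ∃ (c : k) (u : K4M.FT F),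
        z = K4M.hk (K4M.sy (algebraMap k F c)) u} :=
  (rz9a φ h htop).not_mem

end Q9

end Pool.Agent.K4N
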