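import Pool.Agent.Lib_helper2.K4N.Q9

set_option autoImplicit false
set_option linter.unusedSectionVars false
set_option linter.unusedSimpArgs false

/-!
The class for points of order nine at `d = 2` (`b = 12`, `c = 4`).
-/

namespace Pool.Agent.K4N

open Pool.Agent.TN
open scoped TensorProduct

section

variable {k F : Type*} [Field k] [Field F] [Algebra k F] {x y : F}

/-- the terms at a point -/
noncomputable def term9 (x y : F) : MK4.HK F :=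
  MK4.hk (MK4.sy (-4 / (x - 4))) (MK4.lg (x ^ 3 * (x - 6) ^ 2 * (y - 4 * x) ^ 10 /
    ((x - 12) ^ 2 * (x - 4) ^ 3 * y ^ 6 * (y - 2 * x) ^ 4))) +
  (2 : ℚ) • MK4.hk (MK4.sy (-6 / (x - 6))) (MK4.lg ((x - 6) * (y - 4 * x) ^ 2 /
    ((x - 12) * (y - 2 * x) ^ 2))) +
  (2 : ℚ) • MK4.hk (MK4.sy (8 / (x - 4))) (MK4.lg ((x - 12) * y ^ 2 * (y - 2 * x) ^ 4 /
    (x * (y - 4 * x) ^ 4 * (y - 3 * x) ^ 2))) +
  (4 : ℚ) • MK4.hk (MK4.sy ((x - 12) / (4 * (x - 6)))) (MK4.lg ((x - 6) * (y - 4 * x) ^ 2 /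
    ((x - 12) * (y - 2 * x) ^ 2)))

/-- the sum over the translates by the multiples of `P` -/
noncomputable def xi9 (x y : F) : MK4.HK F :=
  ∑ j : Fin 9, term9 (It (12 : F) j.val (x, y)).1 (It (12 : F) j.val (x, y)).2

lemma nz9' [CharZero k] [CharZero F] (h : Gen ((12 : ℚ) : k) ((4 : ℚ) : k) x y) :
    x ≠ 0 ∧ x - 12 ≠ 0 ∧ x - 4 ≠ 0 ∧ x - 6 ≠ 0 ∧ y ≠ 0 ∧ y - 4 * x ≠ 0 ∧ y - 2 * x ≠ 0 ∧
      y - 3 * x ≠ 0 ∧ y ^ 2 - 3 * x * y - 12 * y = x ^ 3 - 12 * x ^ 2 := by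
  obtain ⟨a1, a2, a3, a4, a5, a6, a7⟩ := Q9.nz9_ne h
  obtain ⟨b1, b2, b3, b4, b5⟩ := Q9.nz9_ne' h
  refine ⟨h.x_ne, b1, fun e => a1 (by linear_combination -e),
    fun e => a2 (by linear_combination -e), b2, a4, a7, b5, ?_⟩
  have := h.eq
  simp only [map_ratCast] at this
  push_cast at this
  linear_combination this

lemma lg9_yb (hx : x ≠ 0) (h3 : x - 12 ≠ 0) (hy : y ≠ 0) [CharZero F]
    (he : y ^ 2 - 3 * x * y - 12 * y = x ^ 3 - 12 * x ^ 2) :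
    MK4.lg (12 + 3 * x - y) = (2 : ℚ) • MK4.lg x + MK4.lg (x - 12) - MK4.lg y := by
  have e : 12 + 3 * x - y = -(x ^ 2 * (x - 12)) / y := by
    rw [eq_div_iff hy]; linear_combination -he
  rw [e, TN.lgdiv (neg_ne_zero.mpr (mul_ne_zero (pow_ne_zero 2 hx) h3)) hy, TN.lgneg,
    TN.lgmul (pow_ne_zero 2 hx) h3, TN.lgpow hx]
  push_cast
  rfl

lemma lg9_y4 (hx : x ≠ 0) (h12 : x - 12 ≠ 0) (h4 : x - 4 ≠ 0) (hy : y - 4 * x ≠ 0)
    [CharZero F] (he : y ^ 2 - 3 * x * y - 12 * y = x ^ 3 - 12 * x ^ 2) :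
    MK4.lg (12 - x - y) = MK4.lg x + MK4.lg (x - 12) + MK4.lg (x - 4) -
      MK4.lg (y - 4 * x) := by
  have e : 12 - x - y = -(x * (x - 12) * (x - 4)) / (y - 4 * x) := by
    rw [eq_div_iff hy]; linear_combination -he
  rw [e, TN.lgdiv (neg_ne_zero.mpr (mul_ne_zero (mul_ne_zero hx h12) h4)) hy, TN.lgneg,
    TN.lgmul (mul_ne_zero hx h12) h4, TN.lgmul hx h12]

lemma lg9_y2 (hx : x ≠ 0) (h4 : x - 4 ≠ 0) (h6 : x - 6 ≠ 0) (hy : y - 2 * x ≠ 0)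
    [CharZero F] (he : y ^ 2 - 3 * x * y - 12 * y = x ^ 3 - 12 * x ^ 2) :
    MK4.lg (12 + x - y) = MK4.lg x + MK4.lg (x - 4) + MK4.lg (x - 6) -
      MK4.lg (y - 2 * x) := by
  have e : 12 + x - y = -(x * (x - 4) * (x - 6)) / (y - 2 * x) := by
    rw [eq_div_iff hy]; linear_combination -he
  rw [e, TN.lgdiv (neg_ne_zero.mpr (mul_ne_zero (mul_ne_zero hx h4) h6)) hy, TN.lgneg,
    TN.lgmul (mul_ne_zero hx h4) h6, TN.lgmul hx h4]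

lemma lg9_y3 (hx : x ≠ 0) (h6 : x - 6 ≠ 0) (hy : y - 3 * x ≠ 0)
    [CharZero F] (he : y ^ 2 - 3 * x * y - 12 * y = x ^ 3 - 12 * x ^ 2) :
    MK4.lg (12 - y) = MK4.lg x + (2 : ℚ) • MK4.lg (x - 6) - MK4.lg (y - 3 * x) := by
  have e : 12 - y = -(x * (x - 6) ^ 2) / (y - 3 * x) := by
    rw [eq_div_iff hy]; linear_combination -he
  rw [e, TN.lgdiv (neg_ne_zero.mpr (mul_ne_zero hx (pow_ne_zero 2 h6))) hy, TN.lgneg,
    TN.lgmul hx (pow_ne_zero 2 h6), TN.lgpow h6]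
  push_cast
  rfl

lemma term9_eq [CharZero k] [CharZero F] (h : Gen ((12 : ℚ) : k) ((4 : ℚ) : k) x y) :
    term9 x y = ∑ m, Q9.w9 m • MK4.hk (MK4.sy ((Q9.f9 m).ev x y))
      (MK4.lg ((Q9.u9 m).ev x y)) := by
  obtain ⟨hx, h12, h4, h6, hy, hy4, hy2, hy3, he⟩ := nz9' h
  obtain ⟨a1, a2, a3, a4, a5, a6, a7⟩ := Q9.nz9_ne h
  obtain ⟨b1, b2, b3, b4, b5⟩ := Q9.nz9_ne' h
  have e1 : Q9.f1.ev x y = -4 / (x - 4) := by rw [Q9.ev_f1, ← neg_div_neg_eq, neg_sub]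
  have e2 : Q9.f2.ev x y = -6 / (x - 6) := by rw [Q9.ev_f2, ← neg_div_neg_eq, neg_sub]
  have t1 : MK4.lg (Q9.u1.ev x y) = (2 : ℚ) • MK4.lg (y - 4 * x) + MK4.lg (x - 6) -
      MK4.lg (x - 12) - (2 : ℚ) • MK4.lg (y - 2 * x) := by
    rw [Q9.ev_u1, TN.lgdiv (mul_ne_zero a4 a5) (mul_ne_zero a6 a7), TN.lgmul a4 a5,
      TN.lgmul a6 a7, lg9_y4 hx h12 h4 hy4 he, lg9_y2 hx h4 h6 hy2 he]
    module
  have t1' : MK4.lg (Q9.u1'.ev x y) = -MK4.lg (Q9.u1.ev x y) := by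
    rw [Q9.ev_u1', Q9.ev_u1, TN.lgdiv (mul_ne_zero a6 a7) (mul_ne_zero a4 a5),
      TN.lgdiv (mul_ne_zero a4 a5) (mul_ne_zero a6 a7), neg_sub]
  have t2 : MK4.lg (Q9.u2.ev x y) = MK4.lg x + (2 : ℚ) • MK4.lg (y - 4 * x) -
      (2 : ℚ) • MK4.lg y - MK4.lg (x - 4) := by
    rw [Q9.ev_u2, TN.lgdiv (mul_ne_zero b3 a4) (mul_ne_zero b2 a6), TN.lgmul b3 a4,
      TN.lgmul b2 a6, lg9_y4 hx h12 h4 hy4 he, lg9_yb hx h12 hy he]
    module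
  have t3 : MK4.lg (Q9.u3.ev x y) = (2 : ℚ) • MK4.lg y + (2 : ℚ) • MK4.lg (x - 6) -
      MK4.lg x - MK4.lg (x - 12) - (2 : ℚ) • MK4.lg (y - 3 * x) := by
    rw [Q9.ev_u3, TN.lgdiv (mul_ne_zero b2 b4) (mul_ne_zero b3 b5), TN.lgmul b2 b4,
      TN.lgmul b3 b5, lg9_y3 hx h6 hy3 he, lg9_yb hx h12 hy he]
    module
  rw [Fin.sum_univ_six]
  show term9 x y = (2 : ℕ) • MK4.hk (MK4.sy (Q9.f1.ev x y)) (MK4.lg (Q9.u1.ev x y)) +
    (3 : ℕ) • MK4.hk (MK4.sy (Q9.f1.ev x y)) (MK4.lg (Q9.u2.ev x y)) +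
    (2 : ℕ) • MK4.hk (MK4.sy (Q9.f2.ev x y)) (MK4.lg (Q9.u1.ev x y)) +
    (2 : ℕ) • MK4.hk (MK4.sy (Q9.f3.ev x y)) (MK4.lg (Q9.u3.ev x y)) +
    (4 : ℕ) • MK4.hk (MK4.sy (Q9.f3.ev x y)) (MK4.lg (Q9.u1'.ev x y)) +
    (4 : ℕ) • MK4.hk (MK4.sy (Q9.f4.ev x y)) (MK4.lg (Q9.u1.ev x y))
  rw [t1', t1, t2, t3, e1, e2, Q9.ev_f3, Q9.ev_f4, term9,
    TN.lgdiv (mul_ne_zero (mul_ne_zero (pow_ne_zero 3 hx) (pow_ne_zero 2 h6)) (pow_ne_zero 10 hy4))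
      (mul_ne_zero (mul_ne_zero (mul_ne_zero (pow_ne_zero 2 h12) (pow_ne_zero 3 h4))
        (pow_ne_zero 6 hy)) (pow_ne_zero 4 hy2)),
    TN.lgmul (mul_ne_zero (pow_ne_zero 3 hx) (pow_ne_zero 2 h6)) (pow_ne_zero 10 hy4),
    TN.lgmul (pow_ne_zero 3 hx) (pow_ne_zero 2 h6),
    TN.lgmul (mul_ne_zero (mul_ne_zero (pow_ne_zero 2 h12) (pow_ne_zero 3 h4))
        (pow_ne_zero 6 hy)) (pow_ne_zero 4 hy2),
    TN.lgmul (mul_ne_zero (pow_ne_zero 2 h12) (pow_ne_zero 3 h4)) (pow_ne_zero 6 hy),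
    TN.lgmul (pow_ne_zero 2 h12) (pow_ne_zero 3 h4),
    TN.lgdiv (mul_ne_zero h6 (pow_ne_zero 2 hy4)) (mul_ne_zero h12 (pow_ne_zero 2 hy2)),
    TN.lgmul h6 (pow_ne_zero 2 hy4), TN.lgmul h12 (pow_ne_zero 2 hy2),
    TN.lgdiv (mul_ne_zero (mul_ne_zero h12 (pow_ne_zero 2 hy)) (pow_ne_zero 4 hy2))
      (mul_ne_zero (mul_ne_zero hx (pow_ne_zero 4 hy4)) (pow_ne_zero 2 hy3)),
    TN.lgmul (mul_ne_zero h12 (pow_ne_zero 2 hy)) (pow_ne_zero 4 hy2),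
    TN.lgmul h12 (pow_ne_zero 2 hy),
    TN.lgmul (mul_ne_zero hx (pow_ne_zero 4 hy4)) (pow_ne_zero 2 hy3),
    TN.lgmul hx (pow_ne_zero 4 hy4),
    TN.lgpow hx, TN.lgpow h6, TN.lgpow hy4, TN.lgpow h12, TN.lgpow h4, TN.lgpow hy, TN.lgpow hy2,
    TN.lgpow hy4, TN.lgpow hy2, TN.lgpow hy, TN.lgpow hy4, TN.lgpow hy3]
  generalize MK4.lg x = A
  generalize MK4.lg (x - 12) = B
  generalize MK4.lg (x - 4) = C
  generalize MK4.lg (x - 6) = H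
  generalize MK4.lg y = D
  generalize MK4.lg (y - 4 * x) = E
  generalize MK4.lg (y - 2 * x) = G
  generalize MK4.lg (y - 3 * x) = J
  push_cast
  simp only [sub_eq_add_neg, TN.hk_add_right, TN.hk_neg_right, TN.hk_smul_right, neg_add, neg_neg]
  module

/-- **The regulator of the class is not zero.** -/
theorem rz9x [CharZero k] (φ : k →+* ℝ) (h : Gen (12 : k) 4 x y)
    (htop : IntermediateField.adjoin k {x, y} = ⊤) :
    RZ φ x y Q9.circ9.X Q9.circ9.Y (xi9 x y) := by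
  have : CharZero F := charZero_of_injective_algebraMap (algebraMap k F).injective
  have key := Q9.rz9a φ h htop
  have h12 : (12 : k) ≠ 0 := by norm_num
  have e12k : ((12 : ℚ) : k) = 12 := by norm_num
  have e4k : ((4 : ℚ) : k) = 4 := by norm_num
  have hg : ∀ n, Gen ((12 : ℚ) : k) ((4 : ℚ) : k) (It (12 : F) n (x, y)).1
      (It (12 : F) n (x, y)).2 := by
    intro n
    have := gen_It h12 h n
    rw [map_ofNat] at this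
    rw [e12k, e4k]
    exact this
  have e : xi9 x y = ∑ j : Fin 9, ∑ m : Fin 6, Q9.w9 m •
      MK4.hk (MK4.sy ((Q9.f9 m).ev (It (12 : F) j.val (x, y)).1 (It (12 : F) j.val (x, y)).2))
      (MK4.lg ((Q9.u9 m).ev (It (12 : F) j.val (x, y)).1 (It (12 : F) j.val (x, y)).2)) := by
    unfold xi9
    exact Finset.sum_congr rfl fun j _ => term9_eq (hg _)
  have e2 := Fintype.sum_prod_type (fun i : Fin 9 × Fin 6 => (Q9.w9 i.2 •
    MK4.hk (MK4.sy ((Q9.f9 i.2).ev (It (12 : F) i.1.val (x, y)).1 (It (12 : F) i.1.val (x, y)).2))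
      (MK4.lg ((Q9.u9 i.2).ev (It (12 : F) i.1.val (x, y)).1 (It (12 : F) i.1.val (x, y)).2)) :
      MK4.HK F))
  rw [← e2] at e
  exact key.of_eq e

/-- **The regulator of the class is not zero.** -/
theorem rz_xi9 [CharZero k] (φ : k →+* ℝ) (h : Gen (12 : k) 4 x y)
    (htop : IntermediateField.adjoin k {x, y} = ⊤) : FK4.RegNe φ (xi9 x y) := by
  have h' : Gen ((12 : ℚ) : k) ((4 : ℚ) : k) x y := by
    push_cast
    exact h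
  exact (rz9x φ h htop).regNe (Xp_tendsto _) h' htop

/-- **The class is not a combination of symbols of constants.** -/
theorem nv_xi9 [CharZero k] (φ : k →+* ℝ) (h : Gen (12 : k) 4 x y)
    (htop : IntermediateField.adjoin k {x, y} = ⊤) : xi9 x y ∉ TN.KC k F :=
  fun hm => (rz9x φ h htop).not_mem (mem_span_of_KC hm)

end

end Pool.Agent.K4N
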