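import Pool.Agent.Lib_helper60.K4C.Cross

set_option autoImplicit false

/-!
The translates of `x` by the five torsion on `y² + y = x³ - x²`.
-/

namespace Pool.Agent.K4N

open Pool.Agent.K4C

section

variable {F : Type*} [Field F] {x y : F}

variable (hE : y ^ 2 + y = x ^ 3 - x ^ 2) (hx : x ≠ 0) (hx1 : x - 1 ≠ 0) (hy : y ≠ 0)
  (hxy : x + y ≠ 0)

include hE hx hx1 hy hxy

lemma tx_I1 (i : Fin 5) : 1 - tx x y i = tx x y (i - 1) * tx x y i ^ 2 * tx x y (i + 1) := by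
  fin_cases i
  · show 1 - x = (x - 1) / y * x ^ 2 * (-y / x ^ 2)
    field_simp
    grind
  · show 1 - (-y / x ^ 2) = x * (-y / x ^ 2) ^ 2 * (x * (x + y) / ((x - 1) * y))
    field_simp
    grind
  · show 1 - x * (x + y) / ((x - 1) * y) =
      (-y / x ^ 2) * (x * (x + y) / ((x - 1) * y)) ^ 2 * (y / (x + y))
    field_simp
    grind
  · show 1 - y / (x + y) = (x * (x + y) / ((x - 1) * y)) * (y / (x + y)) ^ 2 * ((x - 1) / y)
    field_simp
    grind
  · show 1 - (x - 1) / y = (y / (x + y)) * ((x - 1) / y) ^ 2 * x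
    field_simp
    grind

lemma tx_I2 (i : Fin 5) : tx x y i ^ 2 * (tx x y (i - 1) + tx x y (i + 1)) = 1 := by
  fin_cases i
  · show x ^ 2 * ((x - 1) / y + (-y / x ^ 2)) = 1
    field_simp
    grind
  · show (-y / x ^ 2) ^ 2 * (x + (x * (x + y) / ((x - 1) * y))) = 1
    field_simp
    grind
  · show (x * (x + y) / ((x - 1) * y)) ^ 2 * ((-y / x ^ 2) + (y / (x + y))) = 1
    field_simp
    grind
  · show (y / (x + y)) ^ 2 * ((x * (x + y) / ((x - 1) * y)) + ((x - 1) / y)) = 1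
    field_simp
    grind
  · show ((x - 1) / y) ^ 2 * ((y / (x + y)) + x) = 1
    field_simp
    grind

omit hE in
lemma tx_prod : tx x y 0 * tx x y 1 * tx x y 2 * tx x y 3 * tx x y 4 = -1 := by
  show x * (-y / x ^ 2) * (x * (x + y) / ((x - 1) * y)) * (y / (x + y)) * ((x - 1) / y) = -1
  field_simp

omit hE in
lemma tx_ne (i : Fin 5) : tx x y i ≠ 0 := by
  fin_cases i
  · exact hx
  · exact div_ne_zero (neg_ne_zero.mpr hy) (pow_ne_zero _ hx)
  · exact div_ne_zero (mul_ne_zero hx hxy) (mul_ne_zero hx1 hy)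
  · exact div_ne_zero hy hxy
  · exact div_ne_zero hx1 hy

lemma tx_ne_one (i : Fin 5) : tx x y i ≠ 1 := by
  intro h
  have h1 := tx_I1 hE hx hx1 hy hxy i
  rw [h, sub_self] at h1
  exact (mul_ne_zero (mul_ne_zero (tx_ne hx hx1 hy hxy _) (pow_ne_zero _ one_ne_zero))
    (tx_ne hx hx1 hy hxy _)) h1.symm

end

section deriv

variable {X Y c : ℝ → ℝ} {s : ℝ} (hE : Y s ^ 2 + Y s = X s ^ 3 - X s ^ 2)
  (hX : HasDerivAt X ((2 * Y s + 1) * c s) s)
  (hY : HasDerivAt Y ((3 * X s ^ 2 - 2 * X s) * c s) s)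
  (hx : X s ≠ 0) (hx1 : X s - 1 ≠ 0) (hy : Y s ≠ 0) (hxy : X s + Y s ≠ 0)

include hE hX hY hx hx1 hy hxy

/-- the derivatives -/
lemma tx_deriv (i : Fin 5) : HasDerivAt (fun t => tx (X t) (Y t) i)
    (c s * (tx (X s) (Y s) i ^ 2 * (tx (X s) (Y s) (i - 1) - tx (X s) (Y s) (i + 1)))) s := by
  fin_cases i
  · refine HasDerivAt.congr_deriv (f := X) hX ?_
    show _ = c s * (X s ^ 2 * ((X s - 1) / Y s - (-Y s / X s ^ 2)))
    field_simp
    grind
  · refine HasDerivAt.congr_deriv (f := fun t => -Y t / X t ^ 2)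
      (hY.neg.div (hX.pow 2) (pow_ne_zero _ hx)) ?_
    show _ = c s * ((-Y s / X s ^ 2) ^ 2 * (X s - (X s * (X s + Y s) / ((X s - 1) * Y s))))
    simp only [Nat.cast_ofNat, Nat.add_one_sub_one, pow_one, Pi.pow_apply, Pi.neg_apply]
    field_simp
    grind
  · refine HasDerivAt.congr_deriv (f := fun t => X t * (X t + Y t) / ((X t - 1) * Y t))
      ((hX.mul (hX.add hY)).div ((hX.sub_const 1).mul hY) (mul_ne_zero hx1 hy)) ?_
    show _ = c s * ((X s * (X s + Y s) / ((X s - 1) * Y s)) ^ 2 *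
      ((-Y s / X s ^ 2) - (Y s / (X s + Y s))))
    simp only [Pi.mul_apply, Pi.add_apply]
    field_simp
    grind
  · refine HasDerivAt.congr_deriv (f := fun t => Y t / (X t + Y t))
      (hY.div (hX.add hY) hxy) ?_
    show _ = c s * ((Y s / (X s + Y s)) ^ 2 * ((X s * (X s + Y s) / ((X s - 1) * Y s)) -
      ((X s - 1) / Y s)))
    field_simp
    grind
  · refine HasDerivAt.congr_deriv (f := fun t => (X t - 1) / Y t)
      ((hX.sub_const 1).div hY hy) ?_
    show _ = c s * (((X s - 1) / Y s) ^ 2 * ((Y s / (X s + Y s)) - X s))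
    field_simp
    grind

end deriv

end Pool.Agent.K4N
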