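import Pool.Agent.Lib_helper2.K4N.Tor
import Pool.Agent.Lib_helper2.K4C.Asm4

set_option autoImplicit false
set_option linter.unusedSimpArgs false

/-!
A closed element built on the cuspidal units of `X₁(11)`.
-/

namespace Pool.Agent.K4N

open Pool.Agent.K4C
open scoped TensorProduct

section

variable {F : Type*} [Field F] {x y : F}

/-- `∑_i {τ^i x}₂ ⊗ (τ^{i+1} x / τ^{i-1} x)` -/
noncomputable def za (x y : F) : K4M.HK F :=
  ∑ i : Fin 5, K4M.hk (K4M.sy (tx x y i)) (K4M.lg (tx x y (i + 1) / tx x y (i - 1)))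

variable (hE : y ^ 2 + y = x ^ 3 - x ^ 2) (hx : x ≠ 0) (hx1 : x - 1 ≠ 0) (hy : y ≠ 0)
  (hxy : x + y ≠ 0)

include hE hx hx1 hy hxy

omit hE in
lemma sum_lg [CharZero F] : K4M.lg (tx x y 0) + K4M.lg (tx x y 1) + K4M.lg (tx x y 2) +
    K4M.lg (tx x y 3) + K4M.lg (tx x y 4) = 0 := by
  have h := tx_ne hx hx1 hy hxy
  have h1 := congrArg K4M.lg (tx_prod hx hx1 hy hxy)
  rw [K4M.lg_neg_one, K4M.lg_mul (mul_ne_zero (mul_ne_zero (mul_ne_zero (h _) (h _)) (h _)) (h _))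
    (h _), K4M.lg_mul (mul_ne_zero (mul_ne_zero (h _) (h _)) (h _)) (h _),
    K4M.lg_mul (mul_ne_zero (h _) (h _)) (h _), K4M.lg_mul (h _) (h _)] at h1
  exact h1

lemma dH_term [CharZero F] (i : Fin 5) :
    K4M.dH F (K4M.hk (K4M.sy (tx x y i)) (K4M.lg (tx x y (i + 1) / tx x y (i - 1)))) =
    (2 : ℚ) • (ExteriorAlgebra.ι ℚ (K4M.lg (tx x y (i - 1))) *
      ExteriorAlgebra.ι ℚ (K4M.lg (tx x y i)) *
      ExteriorAlgebra.ι ℚ (K4M.lg (tx x y (i + 1)))) := by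
  have h := tx_ne hx hx1 hy hxy
  have e1 : K4M.lg (1 - tx x y i) = K4M.lg (tx x y (i - 1)) + (2 : ℚ) • K4M.lg (tx x y i) +
      K4M.lg (tx x y (i + 1)) := by
    rw [tx_I1 hE hx hx1 hy hxy i, K4M.lg_mul (mul_ne_zero (h _) (pow_ne_zero _ (h _))) (h _),
      K4M.lg_mul (h _) (pow_ne_zero _ (h _)), K4M.lg_pow (h _)]
    push_cast
    rfl
  rw [K4M.dH_hk, K4M.de_sy, e1, K4M.lg_div (h _) (h _)]
  set a := K4M.lg (tx x y (i - 1))
  set b := K4M.lg (tx x y i)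
  set c := K4M.lg (tx x y (i + 1))
  show (ExteriorAlgebra.ι ℚ (a + (2 : ℚ) • b + c) * ExteriorAlgebra.ι ℚ b) *
    ExteriorAlgebra.ι ℚ (c - a) = _
  have sb : ExteriorAlgebra.ι ℚ b * ExteriorAlgebra.ι ℚ b = 0 := ExteriorAlgebra.ι_sq_zero b
  have sa : ExteriorAlgebra.ι ℚ a * ExteriorAlgebra.ι ℚ a = 0 := ExteriorAlgebra.ι_sq_zero a
  have sc : ExteriorAlgebra.ι ℚ c * ExteriorAlgebra.ι ℚ c = 0 := ExteriorAlgebra.ι_sq_zero c
  have sw : ∀ u v : K4M.FT F, ExteriorAlgebra.ι ℚ u * ExteriorAlgebra.ι ℚ v =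
      -(ExteriorAlgebra.ι ℚ v * ExteriorAlgebra.ι ℚ u) := by
    intro u v
    rw [eq_neg_iff_add_eq_zero]
    exact ExteriorAlgebra.ι_add_mul_swap u v
  simp only [map_add, map_smul, map_sub, add_mul, mul_sub, smul_mul_assoc, sb, smul_zero, add_zero,
    zero_mul, sub_zero]
  have h1 : ExteriorAlgebra.ι ℚ a * ExteriorAlgebra.ι ℚ b * ExteriorAlgebra.ι ℚ a = 0 := by
    rw [sw a b, neg_mul, mul_assoc, sa, mul_zero, neg_zero]
  have h2 : ExteriorAlgebra.ι ℚ c * ExteriorAlgebra.ι ℚ b * ExteriorAlgebra.ι ℚ c = 0 := by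
    rw [sw c b, neg_mul, mul_assoc, sc, mul_zero, neg_zero]
  have h3 : ExteriorAlgebra.ι ℚ c * ExteriorAlgebra.ι ℚ b * ExteriorAlgebra.ι ℚ a =
      -(ExteriorAlgebra.ι ℚ a * ExteriorAlgebra.ι ℚ b * ExteriorAlgebra.ι ℚ c) := by
    rw [sw c b, neg_mul, mul_assoc, sw c a, mul_neg, neg_neg, ← mul_assoc, sw b a, neg_mul]
  rw [h1, h2, h3, two_smul]
  abel

lemma za_closed [CharZero F] : K4M.dH F (za x y) = 0 := by
  unfold za
  rw [map_sum]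
  simp only [dH_term hE hx hx1 hy hxy]
  rw [← Finset.smul_sum]
  have hs := sum_lg hx hx1 hy hxy
  have sq : ∀ u : K4M.FT F, ExteriorAlgebra.ι ℚ u * ExteriorAlgebra.ι ℚ u = 0 := fun u =>
    ExteriorAlgebra.ι_sq_zero u
  have sw : ∀ u v : K4M.FT F, ExteriorAlgebra.ι ℚ u * ExteriorAlgebra.ι ℚ v =
      -(ExteriorAlgebra.ι ℚ v * ExteriorAlgebra.ι ℚ u) := by
    intro u v
    rw [eq_neg_iff_add_eq_zero]
    exact ExteriorAlgebra.ι_add_mul_swap u v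
  have e4 : ExteriorAlgebra.ι ℚ (K4M.lg (tx x y 4)) = -(ExteriorAlgebra.ι ℚ (K4M.lg (tx x y 0)) +
      ExteriorAlgebra.ι ℚ (K4M.lg (tx x y 1)) + ExteriorAlgebra.ι ℚ (K4M.lg (tx x y 2)) +
      ExteriorAlgebra.ι ℚ (K4M.lg (tx x y 3))) := by
    rw [eq_neg_iff_add_eq_zero, ← map_add, ← map_add, ← map_add, ← map_add]
    rw [show K4M.lg (tx x y 4) + (K4M.lg (tx x y 0) + K4M.lg (tx x y 1) + K4M.lg (tx x y 2) +
      K4M.lg (tx x y 3)) = 0 by rw [← hs]; abel, map_zero]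
  have key : ∑ i : Fin 5, ExteriorAlgebra.ι ℚ (K4M.lg (tx x y (i - 1))) *
      ExteriorAlgebra.ι ℚ (K4M.lg (tx x y i)) * ExteriorAlgebra.ι ℚ (K4M.lg (tx x y (i + 1))) =
      0 := by
    rw [Fin.sum_univ_five]
    show ExteriorAlgebra.ι ℚ (K4M.lg (tx x y 4)) * ExteriorAlgebra.ι ℚ (K4M.lg (tx x y 0)) *
        ExteriorAlgebra.ι ℚ (K4M.lg (tx x y 1)) +
      ExteriorAlgebra.ι ℚ (K4M.lg (tx x y 0)) * ExteriorAlgebra.ι ℚ (K4M.lg (tx x y 1)) *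
        ExteriorAlgebra.ι ℚ (K4M.lg (tx x y 2)) +
      ExteriorAlgebra.ι ℚ (K4M.lg (tx x y 1)) * ExteriorAlgebra.ι ℚ (K4M.lg (tx x y 2)) *
        ExteriorAlgebra.ι ℚ (K4M.lg (tx x y 3)) +
      ExteriorAlgebra.ι ℚ (K4M.lg (tx x y 2)) * ExteriorAlgebra.ι ℚ (K4M.lg (tx x y 3)) *
        ExteriorAlgebra.ι ℚ (K4M.lg (tx x y 4)) +
      ExteriorAlgebra.ι ℚ (K4M.lg (tx x y 3)) * ExteriorAlgebra.ι ℚ (K4M.lg (tx x y 4)) *
        ExteriorAlgebra.ι ℚ (K4M.lg (tx x y 0)) = 0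
    rw [e4]
    have q0 := sq (K4M.lg (tx x y 0))
    have q1 := sq (K4M.lg (tx x y 1))
    have q2 := sq (K4M.lg (tx x y 2))
    have q3 := sq (K4M.lg (tx x y 3))
    have s10 := sw (K4M.lg (tx x y 1)) (K4M.lg (tx x y 0))
    have s20 := sw (K4M.lg (tx x y 2)) (K4M.lg (tx x y 0))
    have s30 := sw (K4M.lg (tx x y 3)) (K4M.lg (tx x y 0))
    have s21 := sw (K4M.lg (tx x y 2)) (K4M.lg (tx x y 1))
    have s31 := sw (K4M.lg (tx x y 3)) (K4M.lg (tx x y 1))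
    have s32 := sw (K4M.lg (tx x y 3)) (K4M.lg (tx x y 2))
    generalize ExteriorAlgebra.ι ℚ (K4M.lg (tx x y 0)) = u0 at *
    generalize ExteriorAlgebra.ι ℚ (K4M.lg (tx x y 1)) = u1 at *
    generalize ExteriorAlgebra.ι ℚ (K4M.lg (tx x y 2)) = u2 at *
    generalize ExteriorAlgebra.ι ℚ (K4M.lg (tx x y 3)) = u3 at *
    have q0' : ∀ z, u0 * (u0 * z) = 0 := fun z => by rw [← mul_assoc, q0, zero_mul]
    have q1' : ∀ z, u1 * (u1 * z) = 0 := fun z => by rw [← mul_assoc, q1, zero_mul]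
    have q2' : ∀ z, u2 * (u2 * z) = 0 := fun z => by rw [← mul_assoc, q2, zero_mul]
    have q3' : ∀ z, u3 * (u3 * z) = 0 := fun z => by rw [← mul_assoc, q3, zero_mul]
    have s10' : ∀ z, u1 * (u0 * z) = -(u0 * (u1 * z)) := fun z => by
      rw [← mul_assoc, s10, neg_mul, mul_assoc]
    have s20' : ∀ z, u2 * (u0 * z) = -(u0 * (u2 * z)) := fun z => by
      rw [← mul_assoc, s20, neg_mul, mul_assoc]
    have s30' : ∀ z, u3 * (u0 * z) = -(u0 * (u3 * z)) := fun z => by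
      rw [← mul_assoc, s30, neg_mul, mul_assoc]
    have s21' : ∀ z, u2 * (u1 * z) = -(u1 * (u2 * z)) := fun z => by
      rw [← mul_assoc, s21, neg_mul, mul_assoc]
    have s31' : ∀ z, u3 * (u1 * z) = -(u1 * (u3 * z)) := fun z => by
      rw [← mul_assoc, s31, neg_mul, mul_assoc]
    have s32' : ∀ z, u3 * (u2 * z) = -(u2 * (u3 * z)) := fun z => by
      rw [← mul_assoc, s32, neg_mul, mul_assoc]
    simp only [mul_add, add_mul, neg_mul, mul_neg, mul_assoc, neg_add_rev, neg_neg, mul_zero,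
      neg_zero, add_zero, zero_add, q0, q1, q2, q3, q0', q1', q2', q3', s10, s20, s30, s21, s31,
      s32, s10', s20', s30', s21', s31', s32']
    abel
  rw [key, smul_zero]

end

end Pool.Agent.K4N
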